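import Pool.Agent.H.MP_5ad92a_pr.Contour

/-!
# Segment + double integral decomposition of `Al`, with the bound for the double integral
(job A8a; auxiliary material in the namespace `AlS`)
-/

set_option autoImplicit false

noncomputable section

open MeasureTheory Filter Topology Set

namespace Pool.Agent.H.MP_5ad92a_pr

namespace AlS

/-- the integrand of `Pl` at a complex argument -/
def GG (τ y : ℝ) (w : ℂ) : ℂ := Complex.exp (-w ^ 4 / 4 + (τ : ℂ) * w ^ 2 / 2 - (y : ℂ) * w)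

theorem GG_differentiable (τ y : ℝ) : Differentiable ℂ (GG τ y) := by
  unfold GG
  fun_prop

theorem GG_continuous (τ y : ℝ) : Continuous (GG τ y) := (GG_differentiable τ y).continuous

theorem GG_norm (τ y c u : ℝ) : ‖GG τ y ((c : ℂ) + (u : ℂ) * Complex.I)‖ =
    Real.exp (-(c ^ 4 - 6 * c ^ 2 * u ^ 2 + u ^ 4) / 4 + τ * (c ^ 2 - u ^ 2) / 2 - y * c) := by
  unfold GG
  rw [Complex.norm_exp]
  congr 1
  have e4 : ((c : ℂ) + (u : ℂ) * Complex.I) ^ 4 =
      ((c ^ 4 - 6 * c ^ 2 * u ^ 2 + u ^ 4 : ℝ) : ℂ) + ((4 * c ^ 3 * u - 4 * c * u ^ 3 : ℝ) : ℂ) * Complex.I := by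
    push_cast
    linear_combination (6 * (c : ℂ) ^ 2 * (u : ℂ) ^ 2 + 4 * c * (u : ℂ) ^ 3 * Complex.I
      + (u : ℂ) ^ 4 * (Complex.I ^ 2 - 1)) * Complex.I_sq
  have e2 : ((c : ℂ) + (u : ℂ) * Complex.I) ^ 2 =
      ((c ^ 2 - u ^ 2 : ℝ) : ℂ) + ((2 * c * u : ℝ) : ℂ) * Complex.I := by
    push_cast
    linear_combination ((u : ℂ) ^ 2) * Complex.I_sq
  have e : -((c : ℂ) + (u : ℂ) * Complex.I) ^ 4 / 4 + (τ : ℂ) * ((c : ℂ) + (u : ℂ) * Complex.I) ^ 2 / 2
      - (y : ℂ) * ((c : ℂ) + (u : ℂ) * Complex.I) =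
      ((-(c ^ 4 - 6 * c ^ 2 * u ^ 2 + u ^ 4) / 4 + τ * (c ^ 2 - u ^ 2) / 2 - y * c : ℝ) : ℂ) +
      ((-(4 * c ^ 3 * u - 4 * c * u ^ 3) / 4 + τ * (2 * c * u) / 2 - y * u : ℝ) : ℂ) * Complex.I := by
    rw [e4, e2]
    push_cast
    ring
  rw [e, Complex.add_re, Complex.ofReal_re, Complex.re_ofReal_mul, Complex.I_re]
  ring

/-- gaussian domination on strips -/
theorem GG_le (τ y c : ℝ) (hc : 0 ≤ c) : ∃ K : ℝ, ∀ b ∈ Icc 0 c, ∀ u : ℝ,
    ‖GG τ y ((b : ℂ) + (u : ℂ) * Complex.I)‖ ≤ Real.exp (K - u ^ 2) := by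
  set B : ℝ := 3 / 2 * c ^ 2 + |τ| / 2 + 1 with hB
  refine ⟨B ^ 2 + |τ| * c ^ 2 / 2 + |y| * c, ?_⟩
  intro b hb u
  rw [GG_norm]
  apply Real.exp_le_exp.mpr
  have hb0 := hb.1
  have hbc := hb.2
  have h1 : b ^ 2 ≤ c ^ 2 := by nlinarith
  have h2 : 0 ≤ b ^ 4 := by positivity
  have h3 : b ^ 2 * u ^ 2 ≤ c ^ 2 * u ^ 2 := mul_le_mul_of_nonneg_right h1 (sq_nonneg u)
  have h4 : τ * (b ^ 2 - u ^ 2) ≤ |τ| * (c ^ 2 + u ^ 2) := by
    have := abs_le.mp (le_refl |τ|)
    have h5 : τ * b ^ 2 ≤ |τ| * c ^ 2 :=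
      (mul_le_mul_of_nonneg_right (le_abs_self τ) (sq_nonneg b)).trans
        (mul_le_mul_of_nonneg_left h1 (abs_nonneg τ))
    have h6 : -τ * u ^ 2 ≤ |τ| * u ^ 2 :=
      mul_le_mul_of_nonneg_right (neg_le_abs τ) (sq_nonneg u)
    nlinarith
  have h7 : -y * b ≤ |y| * c :=
    (mul_le_mul_of_nonneg_right (neg_le_abs y) hb0).trans
      (mul_le_mul_of_nonneg_left hbc (abs_nonneg y))
  have h8 : -(u ^ 4) / 4 + B * u ^ 2 ≤ B ^ 2 := by
    nlinarith [sq_nonneg (u ^ 2 / 2 - B)]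
  have h9 : B * u ^ 2 = 3 / 2 * (c ^ 2 * u ^ 2) + |τ| * u ^ 2 / 2 + u ^ 2 := by
    rw [hB]; ring
  nlinarith

theorem integrable_exp_K (K : ℝ) : Integrable (fun u : ℝ => Real.exp (K - u ^ 2)) := by
  have h := (integrable_exp_neg_mul_sq (b := 1) one_pos).const_mul (Real.exp K)
  refine h.congr (Eventually.of_forall fun u => ?_)
  simp only
  rw [← Real.exp_add]
  congr 1
  ring

theorem line_continuous (c : ℝ) : Continuous (fun u : ℝ => (c : ℂ) + (u : ℂ) * Complex.I) := by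
  fun_prop

theorem GG_integrable (τ y c : ℝ) (hc : 0 ≤ c) :
    Integrable (fun u : ℝ => GG τ y ((c : ℂ) + (u : ℂ) * Complex.I)) := by
  obtain ⟨K, hK⟩ := GG_le τ y c hc
  refine Integrable.mono' (integrable_exp_K K) ?_ (Eventually.of_forall fun u => hK c ⟨hc, le_rfl⟩ u)
  exact ((GG_continuous τ y).comp (line_continuous c)).aestronglyMeasurable

theorem tendsto_exp_K_atTop (K : ℝ) : Tendsto (fun u : ℝ => Real.exp (K - u ^ 2)) atTop (𝓝 0) := by
  refine Real.tendsto_exp_atBot.comp ?_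
  have : Tendsto (fun u : ℝ => u ^ 2) atTop atTop := tendsto_pow_atTop two_ne_zero
  exact tendsto_atBot_add_const_left atTop K (tendsto_neg_atTop_atBot.comp this)

theorem tendsto_exp_K_atBot (K : ℝ) : Tendsto (fun u : ℝ => Real.exp (K - u ^ 2)) atBot (𝓝 0) := by
  have := (tendsto_exp_K_atTop K).comp tendsto_neg_atBot_atTop
  refine this.congr fun u => ?_
  simp

theorem Pl_zero_line (τ y : ℝ) : ((Pl τ y : ℝ) : ℂ) =
    (1 / (2 * Real.pi) : ℂ) * ∫ u : ℝ, GG τ y (((0 : ℝ) : ℂ) + (u : ℂ) * Complex.I) := by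
  have hint := GG_integrable τ y 0 le_rfl
  have e : ∀ u : ℝ, GG τ y (((0 : ℝ) : ℂ) + (u : ℂ) * Complex.I) =
      ((Real.exp (-u ^ 4 / 4 - τ * u ^ 2 / 2) * Real.cos (y * u) : ℝ) : ℂ) -
      ((Real.exp (-u ^ 4 / 4 - τ * u ^ 2 / 2) * Real.sin (y * u) : ℝ) : ℂ) * Complex.I := by
    intro u
    unfold GG
    have e1 : -(((0 : ℝ) : ℂ) + (u : ℂ) * Complex.I) ^ 4 / 4 +
        (τ : ℂ) * (((0 : ℝ) : ℂ) + (u : ℂ) * Complex.I) ^ 2 / 2
        - (y : ℂ) * (((0 : ℝ) : ℂ) + (u : ℂ) * Complex.I) =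
        ((-u ^ 4 / 4 - τ * u ^ 2 / 2 : ℝ) : ℂ) + ((-(y * u) : ℝ) : ℂ) * Complex.I := by
      push_cast
      linear_combination (-(u : ℂ) ^ 4 / 4 * (Complex.I ^ 2 - 1) + (τ : ℂ) * (u : ℂ) ^ 2 / 2) * Complex.I_sq
    rw [e1, Complex.exp_add, Complex.exp_mul_I]
    push_cast
    rw [Complex.cos_neg, Complex.sin_neg]
    ring
  have hre := hint.re
  have him := hint.im
  rw [← integral_re_add_im hint]
  have e2 : ∫ u : ℝ, (RCLike.im (GG τ y (((0 : ℝ) : ℂ) + (u : ℂ) * Complex.I)) : ℝ) = 0 := by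
    have h1 : ∀ u : ℝ, (RCLike.im (GG τ y (((0 : ℝ) : ℂ) + (u : ℂ) * Complex.I)) : ℝ) =
        - (Real.exp (-u ^ 4 / 4 - τ * u ^ 2 / 2) * Real.sin (y * u)) := by
      intro u
      rw [e]
      generalize Real.exp (-u ^ 4 / 4 - τ * u ^ 2 / 2) * Real.cos (y * u) = p
      generalize Real.exp (-u ^ 4 / 4 - τ * u ^ 2 / 2) * Real.sin (y * u) = q
      simp
    simp only [h1]
    have h2 := integral_neg_eq_self (fun u : ℝ => - (Real.exp (-u ^ 4 / 4 - τ * u ^ 2 / 2) * Real.sin (y * u))) volume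
    have h3 : ∀ u : ℝ, - (Real.exp (-(-u) ^ 4 / 4 - τ * (-u) ^ 2 / 2) * Real.sin (y * (-u))) =
        - (- (Real.exp (-u ^ 4 / 4 - τ * u ^ 2 / 2) * Real.sin (y * u))) := by
      intro u
      rw [mul_neg, Real.sin_neg]
      have : (-u) ^ 4 = u ^ 4 := by ring
      rw [this, neg_sq]
      ring
    simp only [h3] at h2
    rw [integral_neg] at h2
    linarith
  have e3 : ∫ u : ℝ, (RCLike.re (GG τ y (((0 : ℝ) : ℂ) + (u : ℂ) * Complex.I)) : ℝ) =
      ∫ u : ℝ, Real.exp (-u ^ 4 / 4 - τ * u ^ 2 / 2) * Real.cos (y * u) := by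
    refine integral_congr_ae (Eventually.of_forall fun u => ?_)
    simp only
    rw [e]
    generalize Real.exp (-u ^ 4 / 4 - τ * u ^ 2 / 2) * Real.cos (y * u) = p
    generalize Real.exp (-u ^ 4 / 4 - τ * u ^ 2 / 2) * Real.sin (y * u) = q
    simp
  rw [e2, e3]
  unfold Pl
  push_cast
  simp

theorem Pl_line (τ y c : ℝ) (hc : 0 ≤ c) : ((Pl τ y : ℝ) : ℂ) =
    (1 / (2 * Real.pi) : ℂ) * ∫ u : ℝ, GG τ y ((c : ℂ) + (u : ℂ) * Complex.I) := by
  obtain ⟨K, hK⟩ := GG_le τ y c hc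
  rw [Pl_zero_line]
  congr 1
  exact line_shift (GG τ y) 0 c hc (fun b _ u => (GG_differentiable τ y) _)
    (fun u => Real.exp (K - u ^ 2)) (fun b hb u => hK b hb u) (integrable_exp_K K)
    (tendsto_exp_K_atTop K) (tendsto_exp_K_atBot K)

theorem Pl_even' (τ y : ℝ) : Pl τ (-y) = Pl τ y := by
  unfold Pl
  congr 1
  refine integral_congr_ae (Eventually.of_forall fun u => ?_)
  simp only
  rw [neg_mul, Real.cos_neg]

/-- crude exponential decay -/
theorem Pl_decay (τ c : ℝ) (hc : 0 ≤ c) : ∃ C : ℝ, 0 ≤ C ∧ ∀ y : ℝ, |Pl τ y| ≤ C * Real.exp (-c * |y|) := by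
  refine ⟨(1 / (2 * Real.pi)) * ∫ u : ℝ, ‖GG τ 0 ((c : ℂ) + (u : ℂ) * Complex.I)‖, ?_, ?_⟩
  · have : 0 ≤ ∫ u : ℝ, ‖GG τ 0 ((c : ℂ) + (u : ℂ) * Complex.I)‖ := integral_nonneg fun u => norm_nonneg _
    have := Real.pi_pos
    positivity
  have key : ∀ y : ℝ, |Pl τ y| ≤
      ((1 / (2 * Real.pi)) * ∫ u : ℝ, ‖GG τ 0 ((c : ℂ) + (u : ℂ) * Complex.I)‖) * Real.exp (-c * y) := by
    intro y
    have h1 : |Pl τ y| = ‖((Pl τ y : ℝ) : ℂ)‖ := by rw [Complex.norm_real, Real.norm_eq_abs]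
    rw [h1, Pl_line τ y c hc, norm_mul]
    have h2 : ‖(1 / (2 * Real.pi) : ℂ)‖ = 1 / (2 * Real.pi) := by
      have : (1 / (2 * Real.pi) : ℂ) = ((1 / (2 * Real.pi) : ℝ) : ℂ) := by push_cast; rfl
      rw [this, Complex.norm_real, Real.norm_eq_abs, abs_of_pos (by have := Real.pi_pos; positivity)]
    rw [h2, mul_assoc]
    refine mul_le_mul_of_nonneg_left ?_ (by have := Real.pi_pos; positivity)
    refine (norm_integral_le_integral_norm _).trans (le_of_eq ?_)
    rw [← integral_mul_const]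
    refine integral_congr_ae (Eventually.of_forall fun u => ?_)
    simp only
    rw [GG_norm, GG_norm, ← Real.exp_add]
    congr 1
    ring
  intro y
  rcases le_total 0 y with h | h
  · rw [abs_of_nonneg h]
    exact key y
  · rw [abs_of_nonpos h, ← Pl_even']
    exact key (-y)

theorem Pl_cont (τ : ℝ) : Continuous (Pl τ) := by
  unfold Pl
  refine continuous_const.mul ?_
  have hb := (GG_integrable τ 0 0 le_rfl).norm
  refine continuous_of_dominated (bound := fun u => ‖GG τ 0 (((0 : ℝ) : ℂ) + (u : ℂ) * Complex.I)‖) ?_ ?_ hb ?_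
  · intro y
    exact Continuous.aestronglyMeasurable (by fun_prop)
  · intro y
    refine Eventually.of_forall fun u => ?_
    rw [GG_norm, norm_mul, Real.norm_eq_abs, Real.norm_eq_abs, Real.abs_exp]
    have h1 := Real.abs_cos_le_one (y * u)
    have h2 : Real.exp (-u ^ 4 / 4 - τ * u ^ 2 / 2) * |Real.cos (y * u)| ≤
        Real.exp (-u ^ 4 / 4 - τ * u ^ 2 / 2) * 1 := mul_le_mul_of_nonneg_left h1 (Real.exp_pos _).le
    rw [mul_one] at h2
    refine h2.trans (le_of_eq ?_)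
    congr 1
    ring
  · exact Eventually.of_forall fun u => by fun_prop

theorem rpow_third_cube (y : ℝ) (hy : 0 < y) : (y ^ (1 / 3 : ℝ)) ^ 3 = y := by
  rw [← Real.rpow_natCast, ← Real.rpow_mul hy.le]
  norm_num

theorem rpow_four_thirds (y : ℝ) (hy : 0 < y) : y ^ (4 / 3 : ℝ) = (y ^ (1 / 3 : ℝ)) ^ 4 := by
  rw [← Real.rpow_natCast, ← Real.rpow_mul hy.le]
  norm_num

theorem rpow_two_thirds (y : ℝ) (hy : 0 < y) : y ^ (2 / 3 : ℝ) = (y ^ (1 / 3 : ℝ)) ^ 2 := by
  rw [← Real.rpow_natCast, ← Real.rpow_mul hy.le]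
  norm_num

theorem gx_eq (τ y : ℝ) (hy : 0 < y) :
    gx τ y = 3 / 8 * (y ^ (1 / 3 : ℝ)) ^ 4 + τ * (y ^ (1 / 3 : ℝ)) ^ 2 / 4 := by
  unfold gx
  rw [rpow_four_thirds y hy, rpow_two_thirds y hy]

/-- modulus of the integrand on the line through the saddle point -/
theorem GG_norm_saddle (τ y : ℝ) (hy : 0 < y) (u : ℝ) :
    ‖GG τ y (((y ^ (1 / 3 : ℝ) / 2 : ℝ) : ℂ) + (u : ℂ) * Complex.I)‖ =
      Real.exp (-gx τ y + τ ^ 2 / 4) *
        Real.exp (-(u ^ 2 - (3 * (y ^ (1 / 3 : ℝ) / 2) ^ 2 - τ)) ^ 2 / 4) := by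
  rw [GG_norm, gx_eq τ y hy, ← Real.exp_add]
  congr 1
  have h := rpow_third_cube y hy
  set Y : ℝ := y ^ (1 / 3 : ℝ) with hY
  rw [← h]
  ring

/-- standard majorant -/
def m4 (u : ℝ) : ℝ := Real.exp (-u ^ 4 / 4)

theorem m4_integrable : Integrable m4 := by
  refine Integrable.mono' (integrable_exp_K 1) ?_ (Eventually.of_forall fun u => ?_)
  · unfold m4
    exact Continuous.aestronglyMeasurable (by fun_prop)
  · unfold m4
    rw [Real.norm_eq_abs, Real.abs_exp]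
    apply Real.exp_le_exp.mpr
    nlinarith [sq_nonneg (u ^ 2 / 2 - 1)]

theorem m4_le_one (u : ℝ) : m4 u ≤ 1 := by
  unfold m4
  rw [Real.exp_le_one_iff]
  have : 0 ≤ u ^ 4 := by positivity
  linarith

theorem quart_le (a u : ℝ) : Real.exp (-(u ^ 2 - a) ^ 2 / 4) ≤ m4 (u - Real.sqrt a) + m4 (u + Real.sqrt a) := by
  have hs := Real.sqrt_nonneg a
  set s := Real.sqrt a with hs'
  have key : (|u| - s) ^ 4 ≤ (u ^ 2 - a) ^ 2 := by
    have h0 : (|u| - s) ^ 4 ≤ ((|u| - s) * (|u| + s)) ^ 2 := by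
      have h1 : (|u| - s) ^ 2 ≤ (|u| + s) ^ 2 := by nlinarith [abs_nonneg u, mul_nonneg (abs_nonneg u) hs]
      have h2 : (|u| - s) ^ 4 = (|u| - s) ^ 2 * (|u| - s) ^ 2 := by ring
      rw [h2, mul_pow]
      exact mul_le_mul_of_nonneg_left h1 (sq_nonneg _)
    refine h0.trans ?_
    have h3 : (|u| - s) * (|u| + s) = u ^ 2 - s ^ 2 := by
      rw [← sq_abs u]; ring
    rw [h3]
    rcases le_total 0 a with ha | ha
    · rw [hs', Real.sq_sqrt ha]
    · have : s = 0 := by rw [hs']; exact Real.sqrt_eq_zero_of_nonpos ha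
      rw [this]
      nlinarith [sq_nonneg u]
  have h4 : Real.exp (-(u ^ 2 - a) ^ 2 / 4) ≤ m4 (|u| - s) := by
    unfold m4
    apply Real.exp_le_exp.mpr
    linarith
  refine h4.trans ?_
  rcases le_total 0 u with h | h
  · rw [abs_of_nonneg h]
    have : 0 ≤ m4 (u + s) := (Real.exp_pos _).le
    linarith
  · rw [abs_of_nonpos h]
    have h5 : m4 (-u - s) = m4 (u + s) := by
      unfold m4
      congr 1
      ring
    have : 0 ≤ m4 (u - s) := (Real.exp_pos _).le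
    rw [h5]
    linarith

theorem quart_integrable (a : ℝ) : Integrable (fun u : ℝ => Real.exp (-(u ^ 2 - a) ^ 2 / 4)) := by
  refine Integrable.mono' ((m4_integrable.comp_sub_right (Real.sqrt a)).add
    (m4_integrable.comp_add_right (Real.sqrt a))) ?_ (Eventually.of_forall fun u => ?_)
  · exact Continuous.aestronglyMeasurable (by fun_prop)
  · rw [Real.norm_eq_abs, Real.abs_exp]
    exact quart_le a u

theorem quart_int_le (a : ℝ) : ∫ u : ℝ, Real.exp (-(u ^ 2 - a) ^ 2 / 4) ≤ 2 * ∫ u, m4 u := by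
  have h : ∫ u : ℝ, Real.exp (-(u ^ 2 - a) ^ 2 / 4) ≤
      ∫ u : ℝ, (m4 (u - Real.sqrt a) + m4 (u + Real.sqrt a)) :=
    integral_mono (quart_integrable a) ((m4_integrable.comp_sub_right (Real.sqrt a)).add
      (m4_integrable.comp_add_right (Real.sqrt a))) (fun u => quart_le a u)
  refine h.trans (le_of_eq ?_)
  rw [integral_add (m4_integrable.comp_sub_right (Real.sqrt a))
      (m4_integrable.comp_add_right (Real.sqrt a)), integral_sub_right_eq_self m4,
      integral_add_right_eq_self m4]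
  ring

theorem pi_norm : ‖(1 / (2 * Real.pi) : ℂ)‖ = 1 / (2 * Real.pi) := by
  have : (1 / (2 * Real.pi) : ℂ) = ((1 / (2 * Real.pi) : ℝ) : ℂ) := by push_cast; rfl
  rw [this, Complex.norm_real, Real.norm_eq_abs, abs_of_pos (by have := Real.pi_pos; positivity)]

theorem Pl_refined (M : ℝ) : ∃ C : ℝ, ∀ τ ∈ Icc (-M) M, ∀ y : ℝ, 0 < y →
    |Pl τ y| ≤ C * Real.exp (-gx τ y) := by
  refine ⟨1 / (2 * Real.pi) * (Real.exp (M ^ 2 / 4) * (2 * ∫ u, m4 u)), ?_⟩
  intro τ hτ y hy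
  have hpi := Real.pi_pos
  have h1 : |Pl τ y| = ‖((Pl τ y : ℝ) : ℂ)‖ := by rw [Complex.norm_real, Real.norm_eq_abs]
  have hc : 0 ≤ y ^ (1 / 3 : ℝ) / 2 := by positivity
  rw [h1, Pl_line τ y _ hc, norm_mul, pi_norm]
  have h2 : ‖∫ u : ℝ, GG τ y (((y ^ (1 / 3 : ℝ) / 2 : ℝ) : ℂ) + (u : ℂ) * Complex.I)‖ ≤
      Real.exp (-gx τ y + τ ^ 2 / 4) * (2 * ∫ u, m4 u) := by
    refine (norm_integral_le_integral_norm _).trans ?_
    simp only [GG_norm_saddle τ y hy]
    rw [integral_const_mul]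
    exact mul_le_mul_of_nonneg_left (quart_int_le _) (Real.exp_pos _).le
  have h3 : τ ^ 2 ≤ M ^ 2 := by
    have := hτ.1
    have := hτ.2
    nlinarith
  have hm : 0 ≤ ∫ u, m4 u := integral_nonneg fun u => (Real.exp_pos _).le
  have h4 : Real.exp (-gx τ y + τ ^ 2 / 4) ≤ Real.exp (M ^ 2 / 4) * Real.exp (-gx τ y) := by
    rw [← Real.exp_add]
    apply Real.exp_le_exp.mpr
    linarith
  calc 1 / (2 * Real.pi) * ‖∫ u : ℝ, GG τ y (((y ^ (1 / 3 : ℝ) / 2 : ℝ) : ℂ) + (u : ℂ) * Complex.I)‖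
      ≤ 1 / (2 * Real.pi) * (Real.exp (M ^ 2 / 4) * Real.exp (-gx τ y) * (2 * ∫ u, m4 u)) := by
        refine mul_le_mul_of_nonneg_left ?_ (by positivity)
        refine h2.trans ?_
        exact mul_le_mul_of_nonneg_right h4 (by positivity)
    _ = _ := by ring

/-- Fubini for one-sided Laplace transforms of `Pl`, with a sign `s = ±1` -/
theorem Pl_laplace (τ y c : ℝ) (hc : 0 ≤ c) (s : ℝ) (t : ℂ) (hst : 0 < s * (t.re - c)) :
    ∫ l in Ioi (0 : ℝ), Complex.exp (-(s : ℂ) * (l : ℂ) * t) * ((Pl τ (y - s * l) : ℝ) : ℂ) =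
      (1 / (2 * Real.pi) : ℂ) * ∫ u : ℝ, GG τ y ((c : ℂ) + (u : ℂ) * Complex.I) *
        ((s : ℂ) * (t - ((c : ℂ) + (u : ℂ) * Complex.I)))⁻¹ := by
  have hGG : ∀ (l : ℝ) (w : ℂ), GG τ (y - s * l) w = GG τ y w * Complex.exp ((s : ℂ) * l * w) := by
    intro l w
    unfold GG
    rw [← Complex.exp_add]
    congr 1
    push_cast
    ring
  have e1 : ∀ l : ℝ, Complex.exp (-(s : ℂ) * (l : ℂ) * t) * ((Pl τ (y - s * l) : ℝ) : ℂ) =
      (1 / (2 * Real.pi) : ℂ) * ∫ u : ℝ, GG τ y ((c : ℂ) + (u : ℂ) * Complex.I) *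
        Complex.exp (-((s : ℂ) * (t - ((c : ℂ) + (u : ℂ) * Complex.I))) * l) := by
    intro l
    rw [Pl_line τ (y - s * l) c hc, ← mul_assoc, mul_comm (Complex.exp _) (1 / (2 * Real.pi) : ℂ),
      mul_assoc, ← integral_const_mul]
    congr 1
    refine integral_congr_ae (Eventually.of_forall fun u => ?_)
    simp only
    rw [hGG, ← mul_assoc, mul_comm (Complex.exp _) (GG τ y _), mul_assoc, ← Complex.exp_add]
    congr 2
    ring
  simp only [e1]
  rw [integral_const_mul]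
  congr 1
  have hre : ∀ u : ℝ, ((s : ℂ) * (t - ((c : ℂ) + (u : ℂ) * Complex.I))).re = s * (t.re - c) := by
    intro u
    simp
  rw [integral_integral_swap]
  · refine integral_congr_ae (Eventually.of_forall fun u => ?_)
    simp only
    rw [integral_const_mul]
    congr 1
    have h := integral_exp_mul_complex_Ioi
      (a := -((s : ℂ) * (t - ((c : ℂ) + (u : ℂ) * Complex.I)))) (by
        rw [Complex.neg_re, hre]; linarith) 0
    rw [h]
    simp
  · have hf : Integrable (fun u : ℝ => GG τ y ((c : ℂ) + (u : ℂ) * Complex.I)) :=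
      GG_integrable τ y c hc
    have hg : Integrable (fun l : ℝ => Real.exp (-(s * (t.re - c)) * l)) (volume.restrict (Ioi 0)) :=
      exp_neg_integrableOn_Ioi 0 hst
    have hprod := hg.mul_prod hf.norm
    refine Integrable.mono' hprod ?_ (Eventually.of_forall fun p => ?_)
    · refine Continuous.aestronglyMeasurable ?_
      unfold Function.uncurry
      refine Continuous.mul ((GG_continuous τ y).comp (by fun_prop)) (by fun_prop)
    · unfold Function.uncurry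
      simp only
      rw [norm_mul, Complex.norm_exp, mul_comm]
      refine le_of_eq ?_
      congr 2
      rw [Complex.re_mul_ofReal, Complex.neg_re, hre]

theorem integrable_exp_abs (c : ℝ) (hc : 0 < c) : Integrable (fun x : ℝ => Real.exp (-c * |x|)) := by
  rw [← integrableOn_univ, ← Iic_union_Ioi (a := (0 : ℝ))]
  refine IntegrableOn.union ?_ ?_
  · refine (integrableOn_exp_mul_Iic hc 0).congr_fun (fun x hx => ?_) measurableSet_Iic
    simp only
    rw [abs_of_nonpos hx]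
    ring_nf
  · refine (integrableOn_exp_mul_Ioi (a := -c) (by linarith) 0).congr_fun (fun x hx => ?_) measurableSet_Ioi
    simp only
    rw [abs_of_pos hx]

theorem Pl_bilateral (τ : ℝ) (t : ℂ) (ht : 0 ≤ t.re) :
    ∫ μ : ℝ, Complex.exp ((μ : ℂ) * t) * ((Pl τ μ : ℝ) : ℂ) = GG τ 0 t := by
  have hpi := Real.pi_pos
  set a : ℝ := t.re with ha
  set b : ℝ := t.im with hb
  have htab : t = (a : ℂ) + (b : ℂ) * Complex.I := (Complex.re_add_im t).symm
  set f : ℝ → ℂ := fun u => GG τ 0 ((a : ℂ) + (u : ℂ) * Complex.I) with hf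
  have hfint : Integrable f := GG_integrable τ 0 a ht
  have hfc : Continuous f := (GG_continuous τ 0).comp (line_continuous a)
  have hF : ∀ ξ : ℝ, FourierTransform.fourier f ξ =
      (2 * Real.pi : ℂ) * (Complex.exp (((2 * Real.pi * ξ : ℝ) : ℂ) * a) * ((Pl τ (2 * Real.pi * ξ) : ℝ) : ℂ)) := by
    intro ξ
    rw [Real.fourier_real_eq_integral_exp_smul, Pl_line τ (2 * Real.pi * ξ) a ht]
    have e : ∀ u : ℝ, Complex.exp (((-2 * Real.pi * u * ξ : ℝ) : ℂ) * Complex.I) • f u =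
        Complex.exp (((2 * Real.pi * ξ : ℝ) : ℂ) * a) * GG τ (2 * Real.pi * ξ) ((a : ℂ) + (u : ℂ) * Complex.I) := by
      intro u
      rw [smul_eq_mul, hf]
      simp only
      unfold GG
      rw [← Complex.exp_add, ← Complex.exp_add]
      congr 1
      push_cast
      ring
    simp only [e]
    rw [integral_const_mul]
    have hpi' : (Real.pi : ℂ) ≠ 0 := by exact_mod_cast hpi.ne'
    generalize ∫ (u : ℝ), GG τ (2 * Real.pi * ξ) ((a : ℂ) + (u : ℂ) * Complex.I) = J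
    field_simp
  obtain ⟨C, hC0, hC⟩ := Pl_decay τ (a + 1) (by linarith)
  have hFint : Integrable (FourierTransform.fourier f) := by
    have h1 := (integrable_exp_abs (2 * Real.pi) (by positivity)).const_mul (2 * Real.pi * C)
    refine Integrable.mono' h1 ?_ (Eventually.of_forall fun ξ => ?_)
    · have : FourierTransform.fourier f = fun ξ : ℝ => (2 * Real.pi : ℂ) *
          (Complex.exp (((2 * Real.pi * ξ : ℝ) : ℂ) * a) * ((Pl τ (2 * Real.pi * ξ) : ℝ) : ℂ)) := funext hF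
      rw [this]
      refine Continuous.aestronglyMeasurable ?_
      have := Pl_cont τ
      fun_prop
    · rw [hF, norm_mul (2 * Real.pi : ℂ), norm_mul (Complex.exp _), Complex.norm_exp, Complex.norm_real,
        Real.norm_eq_abs]
      have e1 : ‖(2 * Real.pi : ℂ)‖ = 2 * Real.pi := by
        have : (2 * Real.pi : ℂ) = ((2 * Real.pi : ℝ) : ℂ) := by push_cast; rfl
        rw [this, Complex.norm_real, Real.norm_eq_abs, abs_of_pos (by positivity)]
      have e2 : (((2 * Real.pi * ξ : ℝ) : ℂ) * (a : ℂ)).re = 2 * Real.pi * ξ * a := by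
        rw [← Complex.ofReal_mul, Complex.ofReal_re]
      rw [e1, e2, mul_assoc (2 * Real.pi) C]
      refine mul_le_mul_of_nonneg_left ?_ (by positivity)
      refine (mul_le_mul_of_nonneg_left (hC _) (Real.exp_pos _).le).trans ?_
      rw [mul_left_comm, ← Real.exp_add]
      refine mul_le_mul_of_nonneg_left (Real.exp_le_exp.mpr ?_) hC0
      rw [abs_mul, abs_of_pos (by positivity : 0 < 2 * Real.pi)]
      have h2 : 2 * Real.pi * ξ * a ≤ 2 * Real.pi * |ξ| * a := by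
        have := le_abs_self ξ
        gcongr
      nlinarith
  have hinv := congrFun (hfc.fourierInv_fourier_eq hfint hFint) b
  rw [Real.fourierInv_eq'] at hinv
  have e3 : GG τ 0 t = f b := by rw [hf]; simp only; rw [← htab]
  rw [e3, ← hinv]
  have e4 : ∀ ξ : ℝ, Complex.exp (((2 * Real.pi * inner ℝ ξ b : ℝ) : ℂ) * Complex.I) • FourierTransform.fourier f ξ =
      (2 * Real.pi : ℂ) * (fun μ : ℝ => Complex.exp ((μ : ℂ) * t) * ((Pl τ μ : ℝ) : ℂ)) (2 * Real.pi * ξ) := by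
    intro ξ
    rw [hF, smul_eq_mul]
    simp only
    rw [mul_left_comm, ← mul_assoc (Complex.exp _), ← Complex.exp_add]
    congr 3
    have : inner ℝ ξ b = ξ * b := by simp [mul_comm]
    rw [this, htab]
    push_cast
    ring
  rw [integral_congr_ae (Eventually.of_forall e4)]
  rw [integral_const_mul, Measure.integral_comp_mul_left
    (fun μ : ℝ => Complex.exp ((μ : ℂ) * t) * ((Pl τ μ : ℝ) : ℂ)) (2 * Real.pi), abs_of_pos (by positivity)]
  rw [Complex.real_smul]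
  push_cast
  have hpi' : (Real.pi : ℂ) ≠ 0 := by exact_mod_cast hpi.ne'
  generalize ∫ μ : ℝ, Complex.exp ((μ : ℂ) * t) * ((Pl τ μ : ℝ) : ℂ) = J
  field_simp


theorem Pl_exp_integrable (τ y : ℝ) (t : ℂ) (ht : 0 ≤ t.re) :
    Integrable (fun l : ℝ => Complex.exp (-(l : ℂ) * t) * ((Pl τ (y - l) : ℝ) : ℂ)) := by
  obtain ⟨C, hC0, hC⟩ := Pl_decay τ (t.re + 1) (by linarith)
  have h1 := ((integrable_exp_abs 1 one_pos).const_mul (C * Real.exp ((t.re + 1) * |y|)))
  refine Integrable.mono' h1 ?_ (Eventually.of_forall fun l => ?_)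
  · refine Continuous.aestronglyMeasurable ?_
    have := Pl_cont τ
    fun_prop
  · rw [norm_mul, Complex.norm_exp, Complex.norm_real, Real.norm_eq_abs]
    refine (mul_le_mul_of_nonneg_left (hC _) (Real.exp_pos _).le).trans ?_
    rw [mul_left_comm, ← Real.exp_add, mul_assoc, ← Real.exp_add]
    refine mul_le_mul_of_nonneg_left (Real.exp_le_exp.mpr ?_) hC0
    have e1 : (-(l : ℂ) * t).re = -l * t.re := by
      rw [← Complex.ofReal_neg, Complex.re_ofReal_mul]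
    rw [e1]
    have h2 : |l| - |y| ≤ |y - l| := by
      have := abs_sub_abs_le_abs_sub l y
      rw [abs_sub_comm] at this
      exact this
    have h3 : -l * t.re ≤ |l| * t.re := mul_le_mul_of_nonneg_right (neg_le_abs l) ht
    nlinarith [mul_le_mul_of_nonneg_left h2 (by linarith : 0 ≤ t.re + 1)]

theorem H_right (τ y c : ℝ) (hc : 0 ≤ c) (t : ℂ) (ht : c < t.re) :
    ∫ l in Ioi (0 : ℝ), Complex.exp (-(l : ℂ) * t) * ((Pl τ (y - l) : ℝ) : ℂ) =
      - ((1 / (2 * Real.pi) : ℂ) * ∫ u : ℝ, GG τ y ((c : ℂ) + (u : ℂ) * Complex.I) *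
        (((c : ℂ) + (u : ℂ) * Complex.I) - t)⁻¹) := by
  have h := Pl_laplace τ y c hc 1 t (by linarith)
  simp only [Complex.ofReal_one, one_mul, neg_mul] at h
  simp only [neg_mul]
  rw [h, ← mul_neg, ← integral_neg]
  congr 1
  refine integral_congr_ae (Eventually.of_forall fun u => ?_)
  simp only
  rw [← mul_neg, ← inv_neg, neg_sub]

theorem H_left (τ y c : ℝ) (hc : 0 ≤ c) (t : ℂ) (ht0 : 0 ≤ t.re) (ht : t.re < c) :
    ∫ l in Ioi (0 : ℝ), Complex.exp (-(l : ℂ) * t) * ((Pl τ (y - l) : ℝ) : ℂ) =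
      GG τ y t - ((1 / (2 * Real.pi) : ℂ) * ∫ u : ℝ, GG τ y ((c : ℂ) + (u : ℂ) * Complex.I) *
        (((c : ℂ) + (u : ℂ) * Complex.I) - t)⁻¹) := by
  have h := Pl_laplace τ y c hc (-1) t (by linarith)
  have hint := Pl_exp_integrable τ y t ht0
  have hsplit := integral_add_compl (μ := volume) (measurableSet_Ioi (a := (0 : ℝ))) hint
  rw [compl_Ioi] at hsplit
  have hneg : ∫ l in Iic (0 : ℝ), Complex.exp (-(l : ℂ) * t) * ((Pl τ (y - l) : ℝ) : ℂ) =
      ∫ l in Ioi (0 : ℝ), Complex.exp (-((-1 : ℝ) : ℂ) * (l : ℂ) * t) * ((Pl τ (y - (-1) * l) : ℝ) : ℂ) := by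
    have := integral_comp_neg_Ioi (0 : ℝ) (fun l : ℝ => Complex.exp (-(l : ℂ) * t) * ((Pl τ (y - l) : ℝ) : ℂ))
    rw [neg_zero] at this
    rw [← this]
    refine setIntegral_congr_fun measurableSet_Ioi fun l _ => ?_
    push_cast
    congr 2
    · ring
    · congr 1
      ring
  have hfull : ∫ l : ℝ, Complex.exp (-(l : ℂ) * t) * ((Pl τ (y - l) : ℝ) : ℂ) = GG τ y t := by
    have h1 := integral_sub_left_eq_self (fun μ : ℝ => Complex.exp (-((y : ℂ) - μ) * t) * ((Pl τ μ : ℝ) : ℂ)) volume y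
    have h2 : ∀ l : ℝ, Complex.exp (-((y : ℂ) - ((y - l : ℝ) : ℂ)) * t) * ((Pl τ (y - l) : ℝ) : ℂ) =
        Complex.exp (-(l : ℂ) * t) * ((Pl τ (y - l) : ℝ) : ℂ) := by
      intro l
      congr 2
      push_cast
      ring
    rw [integral_congr_ae (Eventually.of_forall h2)] at h1
    rw [h1]
    have h3 : ∀ μ : ℝ, Complex.exp (-((y : ℂ) - μ) * t) * ((Pl τ μ : ℝ) : ℂ) =
        Complex.exp (-(y : ℂ) * t) * (Complex.exp ((μ : ℂ) * t) * ((Pl τ μ : ℝ) : ℂ)) := by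
      intro μ
      rw [← mul_assoc, ← Complex.exp_add]
      congr 2
      ring
    rw [integral_congr_ae (Eventually.of_forall h3), integral_const_mul, Pl_bilateral τ t ht0]
    unfold GG
    rw [← Complex.exp_add]
    congr 1
    push_cast
    ring
  rw [hfull, hneg, h] at hsplit
  rw [← hsplit]
  have h4 : ∀ u : ℝ, GG τ y ((c : ℂ) + (u : ℂ) * Complex.I) *
        (((-1 : ℝ) : ℂ) * (t - ((c : ℂ) + (u : ℂ) * Complex.I)))⁻¹ =
      GG τ y ((c : ℂ) + (u : ℂ) * Complex.I) * (((c : ℂ) + (u : ℂ) * Complex.I) - t)⁻¹ := by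
    intro u
    congr 2
    push_cast
    ring
  rw [integral_congr_ae (Eventually.of_forall h4)]
  ring

theorem qint_differentiable (σ x : ℝ) : Differentiable ℂ (qint σ x) := by
  unfold qint
  fun_prop

theorem cis_pow (α : ℝ) (n : ℕ) : cis α ^ n = cis (n * α) := by
  unfold cis
  rw [← Complex.exp_nat_mul]
  congr 1
  push_cast
  ring

theorem cis_re (α : ℝ) : (cis α).re = Real.cos α := by
  unfold cis
  rw [Complex.exp_ofReal_mul_I_re]

theorem cis_im (α : ℝ) : (cis α).im = Real.sin α := by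
  unfold cis
  rw [Complex.exp_ofReal_mul_I_im]

theorem qint_norm (σ x r α : ℝ) : ‖qint σ x ((r : ℂ) * cis α)‖ =
    Real.exp (r ^ 4 * Real.cos (4 * α) / 4 - σ * r ^ 2 * Real.cos (2 * α) / 2 + x * r * Real.cos α) := by
  unfold qint
  rw [Complex.norm_exp]
  congr 1
  have e4 : ((r : ℂ) * cis α) ^ 4 = ((r ^ 4 : ℝ) : ℂ) * cis (4 * α) := by
    rw [mul_pow, cis_pow]
    push_cast
    rfl
  have e2 : ((r : ℂ) * cis α) ^ 2 = ((r ^ 2 : ℝ) : ℂ) * cis (2 * α) := by
    rw [mul_pow, cis_pow]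
    push_cast
    rfl
  rw [e4, e2]
  have e : ((r ^ 4 : ℝ) : ℂ) * cis (4 * α) / 4 - (σ : ℂ) * (((r ^ 2 : ℝ) : ℂ) * cis (2 * α)) / 2 +
      (x : ℂ) * ((r : ℂ) * cis α) = ((r ^ 4 / 4 : ℝ) : ℂ) * cis (4 * α) -
        ((σ * r ^ 2 / 2 : ℝ) : ℂ) * cis (2 * α) + ((x * r : ℝ) : ℂ) * cis α := by
    push_cast
    ring
  rw [e, Complex.add_re, Complex.sub_re, Complex.re_ofReal_mul, Complex.re_ofReal_mul,
    Complex.re_ofReal_mul, cis_re, cis_re, cis_re]
  ring

theorem cos_four_le (α : ℝ) (h1 : Real.pi / 4 ≤ α) (h2 : α ≤ Real.pi / 3) :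
    Real.cos (4 * α) ≤ -(1 / 2) := by
  have h : Real.cos (4 * α) = -Real.cos (4 * α - Real.pi) := by
    rw [Real.cos_sub_pi]; ring
  rw [h]
  have h3 : Real.cos (Real.pi / 3) ≤ Real.cos (4 * α - Real.pi) :=
    Real.cos_le_cos_of_nonneg_of_le_pi (by linarith) (by linarith [Real.pi_pos]) (by linarith)
  rw [Real.cos_pi_div_three] at h3
  linarith

/-- domination on the sector between `π/4` and `π/3` -/
theorem qint_le (σ x : ℝ) : ∃ K : ℝ, ∀ r : ℝ, 0 ≤ r → ∀ α ∈ Icc (Real.pi / 4) (Real.pi / 3),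
    ‖qint σ x ((r : ℂ) * cis α)‖ ≤ Real.exp (K - r ^ 2) := by
  set B : ℝ := |σ| / 2 + |x| + 1 with hB
  refine ⟨2 * B ^ 2 + |x|, ?_⟩
  intro r hr α hα
  rw [qint_norm]
  apply Real.exp_le_exp.mpr
  have h1 := cos_four_le α hα.1 hα.2
  have h2 : r ^ 4 * Real.cos (4 * α) ≤ r ^ 4 * (-(1 / 2)) :=
    mul_le_mul_of_nonneg_left h1 (by positivity)
  have h3 : -(σ * r ^ 2 * Real.cos (2 * α)) ≤ |σ| * r ^ 2 := by
    have : |σ * r ^ 2 * Real.cos (2 * α)| ≤ |σ| * r ^ 2 := by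
      rw [abs_mul, abs_mul, abs_of_nonneg (sq_nonneg r)]
      exact mul_le_of_le_one_right (by positivity) (Real.abs_cos_le_one _)
    linarith [neg_abs_le (σ * r ^ 2 * Real.cos (2 * α))]
  have h4 : x * r * Real.cos α ≤ |x| * r := by
    have : |x * r * Real.cos α| ≤ |x| * r := by
      rw [abs_mul, abs_mul, abs_of_nonneg hr]
      exact mul_le_of_le_one_right (by positivity) (Real.abs_cos_le_one _)
    linarith [le_abs_self (x * r * Real.cos α)]
  have h5 : |x| * r ≤ |x| * (1 + r ^ 2) := by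
    refine mul_le_mul_of_nonneg_left ?_ (abs_nonneg x)
    nlinarith [sq_nonneg (r - 1 / 2)]
  have h6 : -(r ^ 4) / 8 + B * r ^ 2 ≤ 2 * B ^ 2 := by
    nlinarith [sq_nonneg (r ^ 2 / 4 - B), sq_nonneg (r ^ 2 - 4 * B)]
  have h7 : B * r ^ 2 = |σ| * r ^ 2 / 2 + |x| * r ^ 2 + r ^ 2 := by rw [hB]; ring
  nlinarith

theorem Ql_third (σ v : ℝ) : Ql σ v = (ray (qint σ v) (cis (Real.pi / 3))).im / Real.pi := by
  unfold Ql
  obtain ⟨K, hK⟩ := qint_le σ v
  have hpi := Real.pi_pos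
  rw [ray_rotate (qint σ v) (Real.pi / 4) (Real.pi / 3) (by linarith)
    (fun r _ α _ => (qint_differentiable σ v) _) (fun r => Real.exp (K - r ^ 2))
    (fun r hr α hα => hK r hr.le α hα) (integrable_exp_K K).integrableOn ?_ ?_]
  · have : Tendsto (fun r : ℝ => r * Real.exp (K - r ^ 2)) (𝓝 0) (𝓝 (0 * Real.exp (K - 0 ^ 2))) := by
      have hc : Continuous (fun r : ℝ => r * Real.exp (K - r ^ 2)) := by fun_prop
      exact hc.tendsto 0
    rw [zero_mul] at this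
    exact this.mono_left nhdsWithin_le_nhds
  · have h : Tendsto (fun r : ℝ => Real.exp ((K + 1) - r ^ 2) * 1) atTop (𝓝 0) := by
      simpa using tendsto_exp_K_atTop (K + 1)
    have h2 : Tendsto (fun r : ℝ => Real.exp (K) * (r ^ 1 * Real.exp (-r))) atTop (𝓝 0) := by
      have := (Real.tendsto_pow_mul_exp_neg_atTop_nhds_zero 1).const_mul (Real.exp K)
      rwa [mul_zero] at this
    refine squeeze_zero' ?_ ?_ h2
    · filter_upwards [eventually_ge_atTop 0] with r hr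
      positivity
    · filter_upwards [eventually_ge_atTop 1] with r hr
      rw [pow_one, mul_left_comm, ← Real.exp_add]
      refine mul_le_mul_of_nonneg_left (Real.exp_le_exp.mpr ?_) (by linarith)
      nlinarith

/-- the point on the ray -/
def tt (r : ℝ) : ℂ := (r : ℂ) * cis (Real.pi / 3)

theorem tt_continuous : Continuous tt := by
  unfold tt
  fun_prop

theorem tt_re (r : ℝ) : (tt r).re = r / 2 := by
  unfold tt
  rw [Complex.re_ofReal_mul, cis_re, Real.cos_pi_div_three]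
  ring

theorem tt_im (r : ℝ) : (tt r).im = r * (Real.sqrt 3 / 2) := by
  unfold tt
  rw [Complex.im_ofReal_mul, cis_im, Real.sin_pi_div_three]

/-- the one-sided Laplace transform of `Pl` -/
def HH (τ y : ℝ) (t : ℂ) : ℂ :=
  ∫ l in Ioi (0 : ℝ), Complex.exp (-(l : ℂ) * t) * ((Pl τ (y - l) : ℝ) : ℂ)

theorem Pl_sub_integrable (τ y : ℝ) : Integrable (fun l : ℝ => Pl τ (y - l)) := by
  have h := Pl_exp_integrable τ y 0 (by simp)
  simp only [mul_zero, Complex.exp_zero, one_mul] at h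
  have := h.re
  simpa using this

theorem Al_fubini_int (σ x τ y : ℝ) : Integrable
    (Function.uncurry fun (l r : ℝ) => qint σ x (tt r) * cis (Real.pi / 3) *
      (Complex.exp (-(l : ℂ) * tt r) * ((Pl τ (y - l) : ℝ) : ℂ)))
    ((volume.restrict (Ioi (0 : ℝ))).prod (volume.restrict (Ioi (0 : ℝ)))) := by
  obtain ⟨K, hK⟩ := qint_le σ x
  have hpi := Real.pi_pos
  have h1 : Integrable (fun l : ℝ => |Pl τ (y - l)|) (volume.restrict (Ioi (0 : ℝ))) :=
    (Pl_sub_integrable τ y).abs.integrableOn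
  have h2 : Integrable (fun r : ℝ => Real.exp (K - r ^ 2)) (volume.restrict (Ioi (0 : ℝ))) :=
    (integrable_exp_K K).integrableOn
  have h3 := h1.mul_prod h2
  refine Integrable.mono' h3 ?_ ?_
  · refine Continuous.aestronglyMeasurable ?_
    unfold Function.uncurry
    have hP := Pl_cont τ
    have hq := (qint_differentiable σ x).continuous
    have ht := tt_continuous
    fun_prop
  · rw [Measure.prod_restrict]
    refine (ae_restrict_iff' (measurableSet_Ioi.prod measurableSet_Ioi)).mpr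
      (Eventually.of_forall fun p hp => ?_)
    have hp1 : 0 < p.1 := hp.1
    have hp2 : 0 < p.2 := hp.2
    unfold Function.uncurry
    simp only
    have hc : ‖cis (Real.pi / 3)‖ = 1 := by
      rw [cis, Complex.norm_exp_ofReal_mul_I]
    rw [norm_mul, norm_mul, norm_mul, hc, mul_one, Complex.norm_real, Real.norm_eq_abs, Complex.norm_exp]
    have e1 : (-(p.1 : ℂ) * tt p.2).re ≤ 0 := by
      rw [← Complex.ofReal_neg, Complex.re_ofReal_mul, tt_re]
      nlinarith [mul_pos hp1 hp2]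
    have e2 : Real.exp (-(p.1 : ℂ) * tt p.2).re ≤ 1 := Real.exp_le_one_iff.mpr e1
    have e3 := hK p.2 hp2.le (Real.pi / 3) ⟨by linarith, le_rfl⟩
    calc ‖qint σ x (tt p.2)‖ * (Real.exp (-(p.1 : ℂ) * tt p.2).re * |Pl τ (y - p.1)|)
        ≤ Real.exp (K - p.2 ^ 2) * (1 * |Pl τ (y - p.1)|) := by
          refine mul_le_mul e3 ?_ (by positivity) (Real.exp_pos _).le
          exact mul_le_mul_of_nonneg_right e2 (abs_nonneg _)
      _ = _ := by ring

theorem Al_ray (σ x τ y : ℝ) : Al σ x τ y =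
    (∫ r in Ioi (0 : ℝ), qint σ x (tt r) * cis (Real.pi / 3) * HH τ y (tt r)).im / Real.pi := by
  have hint := Al_fubini_int σ x τ y
  have h1 : ∀ l : ℝ, Ql σ (x - l) * Pl τ (y - l) =
      (∫ r in Ioi (0 : ℝ), qint σ x (tt r) * cis (Real.pi / 3) *
        (Complex.exp (-(l : ℂ) * tt r) * ((Pl τ (y - l) : ℝ) : ℂ))).im / Real.pi := by
    intro l
    rw [Ql_third, ray]
    have e : ∀ r : ℝ, qint σ x (tt r) * cis (Real.pi / 3) *
        (Complex.exp (-(l : ℂ) * tt r) * ((Pl τ (y - l) : ℝ) : ℂ)) =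
        (qint σ (x - l) ((r : ℂ) * cis (Real.pi / 3)) * cis (Real.pi / 3)) * ((Pl τ (y - l) : ℝ) : ℂ) := by
      intro r
      have : qint σ (x - l) ((r : ℂ) * cis (Real.pi / 3)) =
          qint σ x (tt r) * Complex.exp (-(l : ℂ) * tt r) := by
        unfold qint tt
        rw [← Complex.exp_add]
        congr 1
        push_cast
        ring
      rw [this]
      ring
    simp only [e]
    rw [integral_mul_const ((Pl τ (y - l) : ℝ) : ℂ), Complex.im_mul_ofReal]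
    ring
  unfold Al
  simp only [h1]
  rw [integral_div]
  congr 1
  have h2 := hint.integral_prod_left
  rw [← RCLike.im_eq_complex_im]
  have h3 := integral_im h2
  simp only [Function.uncurry] at h3
  rw [h3]
  congr 1
  have h4 := integral_integral_swap hint
  rw [h4]
  refine integral_congr_ae (Eventually.of_forall fun r => ?_)
  simp only
  rw [integral_const_mul]
  rfl

/-! ### the segment -/

def SS (σ x τ y : ℝ) (w : ℂ) : ℂ :=
  Complex.exp (((τ : ℂ) - σ) * w ^ 2 / 2 + ((x : ℂ) - y) * w)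

theorem SS_differentiable (σ x τ y : ℝ) : Differentiable ℂ (SS σ x τ y) := by
  unfold SS
  fun_prop

theorem qint_mul_GG (σ x τ y : ℝ) (w : ℂ) : qint σ x w * GG τ y w = SS σ x τ y w := by
  unfold qint GG SS
  rw [← Complex.exp_add]
  congr 1
  ring

theorem SS_segment (σ x τ y c : ℝ) :
    (∫ r in (0 : ℝ)..(2 * c), SS σ x τ y (tt r) * cis (Real.pi / 3)).im =
      ∫ v in (0 : ℝ)..(Real.sqrt 3 * c), (SS σ x τ y ((c : ℂ) + (v : ℂ) * Complex.I)).re := by
  have hd := SS_differentiable σ x τ y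
  have hc := hd.continuous
  obtain ⟨F, hF⟩ := Complex.IsConservativeOn.isExactOn_univ hc
    (hd.differentiableOn.isConservativeOn (U := univ))
  have hF' : ∀ z, HasDerivAt F (SS σ x τ y z) z := fun z => hF z (mem_univ z)
  -- the ray
  have hray : ∫ r in (0 : ℝ)..(2 * c), SS σ x τ y (tt r) * cis (Real.pi / 3) =
      F (tt (2 * c)) - F (tt 0) := by
    refine intervalIntegral.integral_eq_sub_of_hasDerivAt (f := fun r => F (tt r)) (fun r _ => ?_) ?_
    · have h1 : HasDerivAt tt (cis (Real.pi / 3)) r := by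
        unfold tt
        have := (Complex.ofRealCLM.hasDerivAt (x := r)).mul_const (cis (Real.pi / 3))
        simpa using this
      exact HasDerivAt.comp r (hF' (tt r)) h1
    · exact Continuous.intervalIntegrable (by have := tt_continuous; fun_prop) _ _
  have hreal : ∫ b in (0 : ℝ)..c, SS σ x τ y (b : ℂ) = F (c : ℂ) - F ((0 : ℝ) : ℂ) := by
    refine intervalIntegral.integral_eq_sub_of_hasDerivAt (f := fun b : ℝ => F (b : ℂ)) (fun b _ => ?_) ?_
    · exact (hF' (b : ℂ)).comp_ofReal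
    · exact Continuous.intervalIntegrable (by fun_prop) _ _
  have hvert : ∫ v in (0 : ℝ)..(Real.sqrt 3 * c), SS σ x τ y ((c : ℂ) + (v : ℂ) * Complex.I) * Complex.I =
      F ((c : ℂ) + ((Real.sqrt 3 * c : ℝ) : ℂ) * Complex.I) - F ((c : ℂ) + ((0 : ℝ) : ℂ) * Complex.I) := by
    refine intervalIntegral.integral_eq_sub_of_hasDerivAt
      (f := fun v : ℝ => F ((c : ℂ) + (v : ℂ) * Complex.I)) (fun v _ => ?_) ?_
    · have h1 : HasDerivAt (fun v : ℝ => (c : ℂ) + (v : ℂ) * Complex.I) Complex.I v := by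
        have := ((Complex.ofRealCLM.hasDerivAt (x := v)).mul_const Complex.I).const_add (c : ℂ)
        simpa using this
      exact HasDerivAt.comp v (hF' _) h1
    · exact Continuous.intervalIntegrable (by fun_prop) _ _
  have e1 : tt (2 * c) = (c : ℂ) + ((Real.sqrt 3 * c : ℝ) : ℂ) * Complex.I := by
    apply Complex.ext
    · rw [tt_re]; simp
    · rw [tt_im]; simp; ring
  have e2 : tt 0 = ((0 : ℝ) : ℂ) := by unfold tt; simp
  have e3 : (c : ℂ) + ((0 : ℝ) : ℂ) * Complex.I = (c : ℂ) := by simp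
  have hsum : ∫ r in (0 : ℝ)..(2 * c), SS σ x τ y (tt r) * cis (Real.pi / 3) =
      (∫ b in (0 : ℝ)..c, SS σ x τ y (b : ℂ)) +
      ∫ v in (0 : ℝ)..(Real.sqrt 3 * c), SS σ x τ y ((c : ℂ) + (v : ℂ) * Complex.I) * Complex.I := by
    rw [hray, hreal, hvert, e1, e2, e3]
    ring
  rw [hsum, Complex.add_im]
  have h4 : (∫ b in (0 : ℝ)..c, SS σ x τ y (b : ℂ)).im = 0 := by
    have : ∀ b : ℝ, SS σ x τ y (b : ℂ) =
        ((Real.exp ((τ - σ) * b ^ 2 / 2 + (x - y) * b) : ℝ) : ℂ) := by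
      intro b
      unfold SS
      push_cast
      rfl
    simp only [this]
    rw [intervalIntegral.integral_ofReal, Complex.ofReal_im]
  rw [h4, zero_add, intervalIntegral.integral_mul_const, Complex.mul_I_im]
  have hii : IntervalIntegrable (fun v : ℝ => SS σ x τ y ((c : ℂ) + (v : ℂ) * Complex.I)) volume 0
      (Real.sqrt 3 * c) := Continuous.intervalIntegrable (by fun_prop) _ _
  have := Complex.reCLM.intervalIntegral_comp_comm hii
  simp only [Complex.reCLM_apply] at this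
  exact this.symm

/-! ### the weight -/

def k0 (u : ℝ) : ℝ := (Ioc (0 : ℝ) 1).indicator (fun u => u ^ (-(1 / 2) : ℝ)) u

theorem k0_integrable : Integrable k0 := by
  unfold k0
  have h : IntervalIntegrable (fun u : ℝ => u ^ (-(1 / 2) : ℝ)) volume 0 1 :=
    intervalIntegral.intervalIntegrable_rpow' (by norm_num)
  rw [intervalIntegrable_iff_integrableOn_Ioc_of_le zero_le_one] at h
  exact h.integrable_indicator measurableSet_Ioc

theorem k0_nonneg (u : ℝ) : 0 ≤ k0 u := by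
  unfold k0
  refine indicator_nonneg (fun v hv => ?_) u
  exact Real.rpow_nonneg hv.1.le _

def kk (u : ℝ) : ℝ := k0 u + k0 (-u)

theorem kk_integrable : Integrable kk := k0_integrable.add k0_integrable.comp_neg

theorem kk_nonneg (u : ℝ) : 0 ≤ kk u := add_nonneg (k0_nonneg _) (k0_nonneg _)

theorem weight_le (p u : ℝ) (hp0 : 0 ≤ p) (hp1 : p ≤ 1) :
    p * |u| ^ (-(1 / 2) : ℝ) ≤ kk u + p := by
  have hk := kk_nonneg u
  rcases eq_or_ne u 0 with h0 | h0
  · rw [h0, abs_zero, Real.zero_rpow (by norm_num)]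
    rw [h0] at hk
    linarith
  have hpos : 0 < |u| := abs_pos.mpr h0
  have hnn : 0 ≤ |u| ^ (-(1 / 2) : ℝ) := Real.rpow_nonneg (abs_nonneg u) _
  rcases le_or_gt |u| 1 with h1 | h1
  · have h2 : |u| ^ (-(1 / 2) : ℝ) ≤ kk u := by
      unfold kk k0
      rcases le_total 0 u with h3 | h3
      · rw [abs_of_nonneg h3] at hpos h1 ⊢
        have hm : u ∈ Ioc (0 : ℝ) 1 := ⟨hpos, h1⟩
        rw [indicator_of_mem hm]
        have := k0_nonneg (-u)
        unfold k0 at this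
        linarith
      · rw [abs_of_nonpos h3] at hpos h1 ⊢
        have hm : -u ∈ Ioc (0 : ℝ) 1 := ⟨hpos, h1⟩
        rw [indicator_of_mem hm]
        have := k0_nonneg u
        unfold k0 at this
        linarith
    nlinarith
  · have h2 : |u| ^ (-(1 / 2) : ℝ) ≤ 1 := Real.rpow_le_one_of_one_le_of_nonpos h1.le (by norm_num)
    nlinarith

/-- integrating a function with values in `[0,1]` against the weight -/
theorem weight_integral (f : ℝ → ℝ) (hf : Integrable f) (h0 : ∀ u, 0 ≤ f u) (h1 : ∀ u, f u ≤ 1) (b : ℝ) :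
    Integrable (fun u => f u * |u - b| ^ (-(1 / 2) : ℝ)) ∧
    ∫ u, f u * |u - b| ^ (-(1 / 2) : ℝ) ≤ (∫ u, kk u) + ∫ u, f u := by
  have hint : Integrable (fun u => kk (u - b) + f u) := (kk_integrable.comp_sub_right b).add hf
  have hle : ∀ u, f u * |u - b| ^ (-(1 / 2) : ℝ) ≤ kk (u - b) + f u :=
    fun u => weight_le (f u) (u - b) (h0 u) (h1 u)
  have hi : Integrable (fun u => f u * |u - b| ^ (-(1 / 2) : ℝ)) := by
    refine Integrable.mono' hint ?_ (Eventually.of_forall fun u => ?_)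
    · refine hf.aestronglyMeasurable.mul ?_
      refine Measurable.aestronglyMeasurable ?_
      fun_prop
    · rw [Real.norm_eq_abs, abs_of_nonneg (mul_nonneg (h0 u) (Real.rpow_nonneg (abs_nonneg _) _))]
      exact hle u
  refine ⟨hi, ?_⟩
  refine (integral_mono hi hint hle).trans (le_of_eq ?_)
  rw [integral_add (kk_integrable.comp_sub_right b) hf, integral_sub_right_eq_self kk]

/-! ### the modulus on the ray -/

def m16 (u : ℝ) : ℝ := Real.exp (-u ^ 4 / 16)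

theorem m16_integrable : Integrable m16 := by
  refine Integrable.mono' (integrable_exp_K 4) ?_ (Eventually.of_forall fun u => ?_)
  · unfold m16
    exact Continuous.aestronglyMeasurable (by fun_prop)
  · unfold m16
    rw [Real.norm_eq_abs, Real.abs_exp]
    apply Real.exp_le_exp.mpr
    nlinarith [sq_nonneg (u ^ 2 / 4 - 2)]

theorem m16_nonneg (u : ℝ) : 0 ≤ m16 u := (Real.exp_pos _).le

theorem m16_le_one (u : ℝ) : m16 u ≤ 1 := by
  unfold m16
  rw [Real.exp_le_one_iff]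
  have : 0 ≤ u ^ 4 := by positivity
  linarith

theorem qint_saddle (M σ x : ℝ) (hσ : σ ∈ Icc (-M) M) (hx : 0 < x) (r : ℝ) (hr : 0 ≤ r) :
    ‖qint σ x (tt r)‖ ≤ Real.exp (gx σ x + M ^ 2 / 4) * m16 (r - x ^ (1 / 3 : ℝ)) := by
  unfold tt
  rw [qint_norm, gx_eq σ x hx]
  have hX : 0 < x ^ (1 / 3 : ℝ) := Real.rpow_pos_of_pos hx _
  have h := rpow_third_cube x hx
  set X : ℝ := x ^ (1 / 3 : ℝ) with hXdef
  have hx' : x = X ^ 3 := h.symm
  unfold m16
  rw [← Real.exp_add]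
  apply Real.exp_le_exp.mpr
  have c4 : Real.cos (4 * (Real.pi / 3)) = -(1 / 2) := by
    have : (4 : ℝ) * (Real.pi / 3) = Real.pi / 3 + Real.pi := by ring
    rw [this, Real.cos_add_pi, Real.cos_pi_div_three]
  have c2 : Real.cos (2 * (Real.pi / 3)) = -(1 / 2) := by
    have : (2 : ℝ) * (Real.pi / 3) = Real.pi - Real.pi / 3 := by ring
    rw [this, Real.cos_pi_sub, Real.cos_pi_div_three]
  rw [c4, c2, Real.cos_pi_div_three, hx']
  have hM : 0 ≤ M := by linarith [hσ.1, hσ.2]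
  -- D = r^2 - X^2
  have h1 : σ * (r ^ 2 - X ^ 2) ≤ M * |r ^ 2 - X ^ 2| := by
    refine (le_abs_self _).trans ?_
    rw [abs_mul]
    exact mul_le_mul_of_nonneg_right (abs_le.mpr ⟨hσ.1, hσ.2⟩) (abs_nonneg _)
  have h2 : (r - X) ^ 4 ≤ |r ^ 2 - X ^ 2| ^ 2 := by
    rw [sq_abs]
    have : r ^ 2 - X ^ 2 = (r - X) * (r + X) := by ring
    rw [this, mul_pow]
    have h3 : (r - X) ^ 2 ≤ (r + X) ^ 2 := by nlinarith [mul_nonneg hr hX.le]
    calc (r - X) ^ 4 = (r - X) ^ 2 * (r - X) ^ 2 := by ring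
      _ ≤ (r - X) ^ 2 * (r + X) ^ 2 := mul_le_mul_of_nonneg_left h3 (sq_nonneg _)
  have h4 : |r ^ 2 - X ^ 2| ^ 2 ≤ (r - X) ^ 2 * (r ^ 2 + 2 * r * X + 3 * X ^ 2) := by
    rw [sq_abs]
    have : r ^ 2 - X ^ 2 = (r - X) * (r + X) := by ring
    rw [this, mul_pow]
    refine mul_le_mul_of_nonneg_left ?_ (sq_nonneg _)
    nlinarith [sq_nonneg X]
  set D : ℝ := |r ^ 2 - X ^ 2| with hD
  nlinarith [sq_nonneg (D / 4 - M / 2)]

theorem dist_weight (c r u : ℝ) (hr : r ≠ 2 * c) (hu : u ≠ Real.sqrt 3 * c) :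
    ‖(((c : ℂ) + (u : ℂ) * Complex.I) - tt r)⁻¹‖ ≤
      2 * (|r - 2 * c| ^ (-(1 / 2) : ℝ) * |u - Real.sqrt 3 * c| ^ (-(1 / 2) : ℝ)) := by
  set z : ℂ := ((c : ℂ) + (u : ℂ) * Complex.I) - tt r with hz
  have hre : z.re = -(r - 2 * c) / 2 := by
    rw [hz, Complex.sub_re, tt_re]; simp; ring
  have him : z.im = u - r * (Real.sqrt 3 / 2) := by
    rw [hz, Complex.sub_im, tt_im]; simp
  have hs3 : Real.sqrt 3 ^ 2 = 3 := Real.sq_sqrt (by norm_num)
  have hA : 0 < |r - 2 * c| := abs_pos.mpr (sub_ne_zero.mpr hr)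
  have hB : 0 < |u - Real.sqrt 3 * c| := abs_pos.mpr (sub_ne_zero.mpr hu)
  have hz2 : ‖z‖ ^ 2 = z.re ^ 2 + z.im ^ 2 := by
    rw [← Complex.normSq_eq_norm_sq, Complex.normSq_apply]; ring
  have h1 : |r - 2 * c| / 2 ≤ ‖z‖ := by
    have := Complex.abs_re_le_norm z
    rw [hre, abs_div, abs_neg] at this
    simpa using this
  have h2 : |u - Real.sqrt 3 * c| / 2 ≤ ‖z‖ := by
    refine abs_le_of_sq_le_sq' ?_ (norm_nonneg z) |>.2
    rw [hz2, div_pow, sq_abs, hre, him]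
    -- (u - √3 c)^2/4 ≤ (r-2c)^2/4 + (u - √3 r/2)^2
    have : (u - Real.sqrt 3 * c) = (u - r * (Real.sqrt 3 / 2)) + Real.sqrt 3 * ((r - 2 * c) / 2) := by ring
    rw [this]
    set p := u - r * (Real.sqrt 3 / 2) with hp
    set q := (r - 2 * c) / 2 with hq
    have e : -(r - 2 * c) / 2 = -q := by rw [hq]; ring
    rw [e]
    nlinarith [sq_nonneg (Real.sqrt 3 * p - q)]
  have hzpos : 0 < ‖z‖ := by linarith
  have h3 : |r - 2 * c| ^ (1 / 2 : ℝ) * |u - Real.sqrt 3 * c| ^ (1 / 2 : ℝ) ≤ 2 * ‖z‖ := by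
    rw [← Real.mul_rpow hA.le hB.le, ← Real.sqrt_eq_rpow]
    apply Real.sqrt_le_iff.mpr
    refine ⟨by positivity, ?_⟩
    nlinarith [mul_le_mul h1 h2 (by positivity) hzpos.le]
  rw [norm_inv, Real.rpow_neg hA.le, Real.rpow_neg hB.le, ← mul_inv]
  have hP : 0 < |r - 2 * c| ^ (1 / 2 : ℝ) * |u - Real.sqrt 3 * c| ^ (1 / 2 : ℝ) := by positivity
  rw [inv_le_iff_one_le_mul₀ hzpos]
  rw [← div_eq_mul_inv, div_mul_eq_mul_div, le_div_iff₀ hP]
  linarith

theorem Al_seg (M : ℝ) : ∃ C : ℝ, ∀ σ ∈ Icc (-M) M, ∀ τ ∈ Icc (-M) M, ∀ x y : ℝ, 0 < x → 0 < y →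
    |Al σ x τ y - (1 / Real.pi) * ∫ v in (0 : ℝ)..(Real.sqrt 3 * (y ^ (1 / 3 : ℝ) / 2)),
      (Complex.exp (((τ : ℂ) - σ) * (((y ^ (1 / 3 : ℝ) / 2 : ℝ) : ℂ) + (v : ℂ) * Complex.I) ^ 2 / 2
        + ((x : ℂ) - y) * (((y ^ (1 / 3 : ℝ) / 2 : ℝ) : ℂ) + (v : ℂ) * Complex.I))).re| ≤
      C * Real.exp (gx σ x - gx τ y) := by
  have hpi := Real.pi_pos
  set I1 : ℝ := (∫ u, kk u) + 2 * ∫ u, m4 u with hI1
  set I2 : ℝ := (∫ u, kk u) + ∫ u, m16 u with hI2
  have hkk0 : 0 ≤ ∫ u, kk u := integral_nonneg kk_nonneg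
  have hm40 : 0 ≤ ∫ u, m4 u := integral_nonneg fun u => (Real.exp_pos _).le
  have hm160 : 0 ≤ ∫ u, m16 u := integral_nonneg m16_nonneg
  refine ⟨(1 / Real.pi) * (Real.exp (M ^ 2 / 4) * Real.exp (M ^ 2 / 4) * I1 * I2 / Real.pi), ?_⟩
  intro σ hσ τ hτ x y hx hy
  set c : ℝ := y ^ (1 / 3 : ℝ) / 2 with hcdef
  have hc : 0 < c := by rw [hcdef]; positivity
  set X : ℝ := x ^ (1 / 3 : ℝ) with hX
  -- the two parts
  set A : ℝ → ℂ := fun r => qint σ x (tt r) * cis (Real.pi / 3) * HH τ y (tt r) with hA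
  set B : ℝ → ℂ := (Ioc (0 : ℝ) (2 * c)).indicator
    (fun r => SS σ x τ y (tt r) * cis (Real.pi / 3)) with hB
  have hcis : ‖cis (Real.pi / 3)‖ = 1 := by rw [cis, Complex.norm_exp_ofReal_mul_I]
  have hAint : IntegrableOn A (Ioi 0) := by
    have h := (Al_fubini_int σ x τ y).integral_prod_right
    refine h.congr (Eventually.of_forall fun r => ?_)
    simp only [Function.uncurry, hA]
    rw [integral_const_mul]
    rfl
  have hBint : IntegrableOn B (Ioi 0) := by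
    rw [hB]
    have h1 : IntegrableOn (fun r => SS σ x τ y (tt r) * cis (Real.pi / 3)) (Ioc (0 : ℝ) (2 * c)) := by
      refine (Continuous.integrableOn_Icc ?_).mono_set Ioc_subset_Icc_self
      have := tt_continuous
      have := (SS_differentiable σ x τ y).continuous
      fun_prop
    exact (h1.integrable_indicator measurableSet_Ioc).integrableOn
  have hBeq : (∫ r in Ioi (0 : ℝ), B r).im =
      ∫ v in (0 : ℝ)..(Real.sqrt 3 * c), (SS σ x τ y ((c : ℂ) + (v : ℂ) * Complex.I)).re := by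
    rw [hB, setIntegral_indicator measurableSet_Ioc, inter_eq_right.mpr Ioc_subset_Ioi_self,
      ← SS_segment, intervalIntegral.integral_of_le (by linarith)]
  -- rewriting the difference
  have hdiff : Al σ x τ y - (1 / Real.pi) * ∫ v in (0 : ℝ)..(Real.sqrt 3 * c),
      (SS σ x τ y ((c : ℂ) + (v : ℂ) * Complex.I)).re = (∫ r in Ioi (0 : ℝ), (A r - B r)).im / Real.pi := by
    rw [← hBeq, Al_ray, integral_sub hAint hBint, Complex.sub_im]
    ring
  have hgoal : (fun v : ℝ => (Complex.exp (((τ : ℂ) - σ) * ((c : ℂ) + (v : ℂ) * Complex.I) ^ 2 / 2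
        + ((x : ℂ) - y) * ((c : ℂ) + (v : ℂ) * Complex.I))).re) =
      fun v : ℝ => (SS σ x τ y ((c : ℂ) + (v : ℂ) * Complex.I)).re := rfl
  rw [hgoal, hdiff]
  -- pointwise formula
  have hAB : ∀ r : ℝ, 0 < r → r ≠ 2 * c → A r - B r = - (qint σ x (tt r) * cis (Real.pi / 3) *
      ((1 / (2 * Real.pi) : ℂ) * ∫ u : ℝ, GG τ y ((c : ℂ) + (u : ℂ) * Complex.I) *
        (((c : ℂ) + (u : ℂ) * Complex.I) - tt r)⁻¹)) := by
    intro r hr hrc
    have htre := tt_re r
    simp only [hA, hB]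
    rcases lt_or_gt_of_ne hrc with h | h
    · have hm : r ∈ Ioc (0 : ℝ) (2 * c) := ⟨hr, h.le⟩
      rw [indicator_of_mem hm, HH, H_left τ y c hc.le (tt r) (by rw [htre]; linarith) (by rw [htre]; linarith),
        ← qint_mul_GG]
      ring
    · have hm : r ∉ Ioc (0 : ℝ) (2 * c) := fun hm => absurd hm.2 (not_le.mpr h)
      rw [indicator_of_notMem hm, HH, H_right τ y c hc.le (tt r) (by rw [htre]; linarith)]
      ring
  -- the inner integral
  have hτ2 : τ ^ 2 ≤ M ^ 2 := by nlinarith [hτ.1, hτ.2]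
  have hinner : ∀ r : ℝ, r ≠ 2 * c →
      ‖∫ u : ℝ, GG τ y ((c : ℂ) + (u : ℂ) * Complex.I) * (((c : ℂ) + (u : ℂ) * Complex.I) - tt r)⁻¹‖ ≤
        Real.exp (-gx τ y + M ^ 2 / 4) * (2 * |r - 2 * c| ^ (-(1 / 2) : ℝ)) * I1 := by
    intro r hrc
    set a : ℝ := 3 * c ^ 2 - τ with ha
    obtain ⟨hw1, hw2⟩ := weight_integral (fun u => Real.exp (-(u ^ 2 - a) ^ 2 / 4)) (quart_integrable a)
      (fun u => (Real.exp_pos _).le) (fun u => by
        rw [Real.exp_le_one_iff]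
        nlinarith [sq_nonneg (u ^ 2 - a)]) (Real.sqrt 3 * c)
    have hr0 : 0 ≤ |r - 2 * c| ^ (-(1 / 2) : ℝ) := Real.rpow_nonneg (abs_nonneg _) _
    have hb := hw1.const_mul (Real.exp (-gx τ y + M ^ 2 / 4) * (2 * |r - 2 * c| ^ (-(1 / 2) : ℝ)))
    refine (norm_integral_le_of_norm_le hb ?_).trans ?_
    · have hae : ∀ᵐ u : ℝ, u ≠ Real.sqrt 3 * c := by
        simp [ae_iff, measure_singleton]
      filter_upwards [hae] with u hu
      rw [norm_mul, hcdef, GG_norm_saddle τ y hy u, ← hcdef]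
      have h1 := dist_weight c r u hrc hu
      have h2 : Real.exp (-gx τ y + τ ^ 2 / 4) ≤ Real.exp (-gx τ y + M ^ 2 / 4) :=
        Real.exp_le_exp.mpr (by linarith)
      calc Real.exp (-gx τ y + τ ^ 2 / 4) * Real.exp (-(u ^ 2 - (3 * c ^ 2 - τ)) ^ 2 / 4) *
            ‖(((c : ℂ) + (u : ℂ) * Complex.I) - tt r)⁻¹‖
          ≤ Real.exp (-gx τ y + M ^ 2 / 4) * Real.exp (-(u ^ 2 - (3 * c ^ 2 - τ)) ^ 2 / 4) *
            (2 * (|r - 2 * c| ^ (-(1 / 2) : ℝ) * |u - Real.sqrt 3 * c| ^ (-(1 / 2) : ℝ))) := by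
            refine mul_le_mul ?_ h1 (norm_nonneg _) (by positivity)
            exact mul_le_mul_of_nonneg_right h2 (Real.exp_pos _).le
        _ = _ := by rw [← ha]; ring
    · rw [integral_const_mul]
      refine mul_le_mul_of_nonneg_left ?_ (by positivity)
      refine hw2.trans ?_
      rw [hI1]
      have := quart_int_le a
      linarith
  -- the outer integral
  obtain ⟨hv1, hv2⟩ := weight_integral (fun r => m16 (r - X)) (m16_integrable.comp_sub_right X)
    (fun r => m16_nonneg _) (fun r => m16_le_one _) (2 * c)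
  rw [integral_sub_right_eq_self m16] at hv2
  have houter : ‖∫ r in Ioi (0 : ℝ), (A r - B r)‖ ≤
      Real.exp (M ^ 2 / 4) * Real.exp (M ^ 2 / 4) * I1 * I2 / Real.pi * Real.exp (gx σ x - gx τ y) := by
    set L : ℝ := Real.exp (gx σ x + M ^ 2 / 4) * (1 / (2 * Real.pi) *
      (Real.exp (-gx τ y + M ^ 2 / 4) * 2 * I1)) with hL
    have hL0 : 0 ≤ L := by rw [hL]; positivity
    have hb := (hv1.const_mul L).integrableOn (s := Ioi 0)
    refine (norm_integral_le_of_norm_le hb ?_).trans ?_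
    · have hae : ∀ᵐ r : ℝ, r ≠ 2 * c := by
        simp [ae_iff, measure_singleton]
      rw [ae_restrict_iff' measurableSet_Ioi]
      filter_upwards [hae] with r hrc hr
      rw [hAB r hr hrc, norm_neg, norm_mul, norm_mul, norm_mul, hcis, mul_one, pi_norm]
      have h1 := qint_saddle M σ x hσ hx r (le_of_lt hr)
      have h2 := hinner r hrc
      have hI1' : 0 ≤ I1 := by rw [hI1]; positivity
      calc ‖qint σ x (tt r)‖ * (1 / (2 * Real.pi) * ‖∫ u : ℝ, GG τ y ((c : ℂ) + (u : ℂ) * Complex.I) *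
            (((c : ℂ) + (u : ℂ) * Complex.I) - tt r)⁻¹‖)
          ≤ (Real.exp (gx σ x + M ^ 2 / 4) * m16 (r - X)) * (1 / (2 * Real.pi) *
            (Real.exp (-gx τ y + M ^ 2 / 4) * (2 * |r - 2 * c| ^ (-(1 / 2) : ℝ)) * I1)) := by
            refine mul_le_mul h1 (mul_le_mul_of_nonneg_left h2 (by positivity)) (by positivity) ?_
            have := m16_nonneg (r - X)
            positivity
        _ = _ := by rw [hL]; ring
    · rw [integral_const_mul]
      have h3 : ∫ r in Ioi (0 : ℝ), m16 (r - X) * |r - 2 * c| ^ (-(1 / 2) : ℝ) ≤ I2 := by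
        refine le_trans ?_ hv2
        refine setIntegral_le_integral hv1 (Eventually.of_forall fun r => ?_)
        exact mul_nonneg (m16_nonneg _) (Real.rpow_nonneg (abs_nonneg _) _)
      refine (mul_le_mul_of_nonneg_left h3 hL0).trans (le_of_eq ?_)
      have h4 : Real.exp (gx σ x - gx τ y) = Real.exp (gx σ x) * Real.exp (-gx τ y) := by
        rw [← Real.exp_add]; congr 1
      rw [hL, h4, Real.exp_add, Real.exp_add]
      field_simp
  rw [abs_div, abs_of_pos hpi]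
  have h5 := (Complex.abs_im_le_norm _).trans houter
  rw [div_le_iff₀ hpi]
  refine h5.trans (le_of_eq ?_)
  field_simp

end AlS

/-- Refined bound for `Pl` (steepest descent). -/
theorem Pl_refined (M : ℝ) : ∃ C : ℝ, ∀ τ ∈ Icc (-M) M, ∀ y : ℝ, 0 < y →
    |Pl τ y| ≤ C * Real.exp (-gx τ y) := AlS.Pl_refined M

/-- `Al` is a segment integral up to a steepest descent remainder. -/
theorem Al_seg (M : ℝ) : ∃ C : ℝ, ∀ σ ∈ Icc (-M) M, ∀ τ ∈ Icc (-M) M, ∀ x y : ℝ, 0 < x → 0 < y →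
    |Al σ x τ y - (1 / Real.pi) * ∫ v in (0 : ℝ)..(Real.sqrt 3 * (y ^ (1 / 3 : ℝ) / 2)),
      (Complex.exp (((τ : ℂ) - σ) * (((y ^ (1 / 3 : ℝ) / 2 : ℝ) : ℂ) + (v : ℂ) * Complex.I) ^ 2 / 2
        + ((x : ℂ) - y) * (((y ^ (1 / 3 : ℝ) / 2 : ℝ) : ℂ) + (v : ℂ) * Complex.I))).re| ≤
      C * Real.exp (gx σ x - gx τ y) := AlS.Al_seg M

end Pool.Agent.H.MP_5ad92a_pr
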