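import Pool.Agent.H.MP_5ad92a_pr.Defs

/-!
# Pearcey line ensemble, job A2: the parameters and the bounds for `F_N`
-/

set_option autoImplicit false

noncomputable section

open MeasureTheory Filter Topology Set

namespace Pool.Agent.H.MP_5ad92a_pr

/-! ### parameters -/

theorem epsN_pos {N : ℕ} (hN : 1 ≤ N) : 0 < epsN N := by
  unfold epsN
  have : (0 : ℝ) < 2 * N := by
    have : (1 : ℝ) ≤ N := by exact_mod_cast hN
    linarith
  positivity

theorem epsN_sq {N : ℕ} (hN : 1 ≤ N) : (N : ℝ) * epsN N ^ 2 = 1 / 2 := by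
  unfold epsN
  have h1 : (1 : ℝ) ≤ N := by exact_mod_cast hN
  rw [inv_pow, Real.sq_sqrt (by linarith)]
  field_simp

theorem frac_bounds {N : ℕ} (hN : 2 ≤ N) (i : Fin N) :
    0 ≤ (i : ℝ) / (N : ℝ) ^ 2 ∧ (i : ℝ) / (N : ℝ) ^ 2 ≤ 1 / N ∧ (1 : ℝ) / N ≤ 1 / 2 := by
  have h2 : (2 : ℝ) ≤ N := by exact_mod_cast hN
  have hi : (i : ℝ) ≤ N := by exact_mod_cast i.2.le
  refine ⟨by positivity, ?_, ?_⟩
  · rw [div_le_div_iff₀ (by positivity) (by positivity)]
    nlinarith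
  · rw [div_le_div_iff₀ (by positivity) (by positivity)]
    linarith

theorem betaN_ge {N : ℕ} (hN : 2 ≤ N) (i : Fin N) : epsN N / 2 ≤ betaN N i := by
  obtain ⟨h0, h1, h2⟩ := frac_bounds hN i
  have he := epsN_pos (N := N) (by omega)
  unfold betaN
  nlinarith

theorem betaN_ge' {N : ℕ} (hN : 2 ≤ N) (i : Fin N) : epsN N * (1 - 1 / N) ≤ betaN N i := by
  obtain ⟨h0, h1, h2⟩ := frac_bounds hN i
  have he := epsN_pos (N := N) (by omega)
  unfold betaN
  nlinarith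

theorem betaN_le {N : ℕ} (hN : 2 ≤ N) (i : Fin N) : betaN N i ≤ epsN N := by
  obtain ⟨h0, h1, h2⟩ := frac_bounds hN i
  have he := epsN_pos (N := N) (by omega)
  unfold betaN
  nlinarith

theorem betaN_pos {N : ℕ} (hN : 2 ≤ N) (i : Fin N) : 0 < betaN N i := by
  have he := epsN_pos (N := N) (by omega)
  have := betaN_ge hN i
  linarith

theorem betaN_injective {N : ℕ} (hN : 2 ≤ N) : Function.Injective (betaN N) := by
  intro i j h
  have he := epsN_pos (N := N) (by omega)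
  unfold betaN at h
  have h1 := mul_left_cancel₀ he.ne' h
  have h2 : (i : ℝ) / (N : ℝ) ^ 2 = (j : ℝ) / (N : ℝ) ^ 2 := by linarith
  have hN0 : ((N : ℝ) ^ 2) ≠ 0 := by
    have : (2 : ℝ) ≤ N := by exact_mod_cast hN
    positivity
  have h3 : (i : ℝ) = (j : ℝ) := by
    field_simp at h2
    exact h2
  have h4 : (i : ℕ) = (j : ℕ) := by exact_mod_cast h3
  exact Fin.ext h4

theorem bN_pos {N : ℕ} (hN : 2 ≤ N) (i : Fin N) : 0 < bN N i := by
  unfold bN
  have := betaN_pos hN i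
  positivity

theorem bN_injective {N : ℕ} (hN : 2 ≤ N) : Function.Injective (bN N) := by
  intro i j h
  unfold bN at h
  have h1 := inv_injective h
  have h2 : betaN N i = betaN N j := by
    have hi := Real.sq_sqrt (betaN_pos hN i).le
    have hj := Real.sq_sqrt (betaN_pos hN j).le
    rw [← hi, ← hj, h1]
  exact betaN_injective hN h2

theorem aN_injective {N : ℕ} (hN : 2 ≤ N) : Function.Injective (aN N) := by
  intro i j h
  unfold aN at h
  induction i using Fin.addCases with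
  | left i =>
    induction j using Fin.addCases with
    | left j =>
      rw [Fin.append_left, Fin.append_left] at h
      rw [bN_injective hN h]
    | right j =>
      rw [Fin.append_left, Fin.append_right] at h
      have h1 := bN_pos hN i
      have h2 := bN_pos hN j
      linarith
  | right i =>
    induction j using Fin.addCases with
    | left j =>
      rw [Fin.append_left, Fin.append_right] at h
      have h1 := bN_pos hN i
      have h2 := bN_pos hN j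
      linarith
    | right j =>
      rw [Fin.append_right, Fin.append_right] at h
      rw [bN_injective hN (neg_injective h)]

theorem SN_ge {N : ℕ} (hN : 2 ≤ N) : Real.sqrt (2 * N) * (1 - 1 / N) ≤ SN N := by
  have he := epsN_pos (N := N) (by omega)
  have h2 : (2 : ℝ) ≤ N := by exact_mod_cast hN
  have h1 : ∑ _i : Fin N, epsN N * (1 - 1 / (N : ℝ)) ≤ ∑ i : Fin N, betaN N i :=
    Finset.sum_le_sum fun i _ => betaN_ge' hN i
  rw [Finset.sum_const, Finset.card_univ, Fintype.card_fin, nsmul_eq_mul] at h1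
  have hs : Real.sqrt (2 * N) = 2 * N * epsN N := by
    unfold epsN
    have hp : (0 : ℝ) < Real.sqrt (2 * N) := Real.sqrt_pos.2 (by linarith)
    rw [← div_eq_mul_inv, eq_div_iff hp.ne', Real.mul_self_sqrt (by linarith)]
  unfold SN
  rw [hs]
  nlinarith

/-! ### `F_N` as a product -/

theorem FN_eq_prod (N : ℕ) (w : ℂ) :
    FN N w = ∏ i : Fin N, (Complex.exp ((betaN N i : ℂ) * w ^ 2) *
      (1 - (betaN N i : ℂ) * w ^ 2)) := by
  rw [Finset.prod_mul_distrib, ← Complex.exp_sum]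
  unfold FN SN
  congr 2
  push_cast
  rw [← Finset.sum_mul]
  ring

/-- `x - log (1 + x) ≥ x² / (2 (1 + x))` for `x ≥ 0`. -/
theorem log_bound {x : ℝ} (hx : 0 ≤ x) : x ^ 2 / (2 * (1 + x)) ≤ x - Real.log (1 + x) := by
  -- derivative argument on `[0, ∞)`
  let f : ℝ → ℝ := fun x => x - Real.log (1 + x) - x ^ 2 / (2 * (1 + x))
  have hd : ∀ t : ℝ, 0 ≤ t → HasDerivAt f (1 - 1 / (1 + t) -
      ((2 * t) * (2 * (1 + t)) - t ^ 2 * 2) / (2 * (1 + t)) ^ 2) t := by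
    intro t ht
    have h1 : HasDerivAt (fun x : ℝ => x) 1 t := hasDerivAt_id t
    have h2 : HasDerivAt (fun x : ℝ => Real.log (1 + x)) (1 / (1 + t)) t := by
      have := (h1.const_add 1).log (by positivity)
      exact this
    have h3 : HasDerivAt (fun x : ℝ => x ^ 2) (2 * t) t := by
      have := hasDerivAt_pow 2 t
      simpa using this
    have h4 : HasDerivAt (fun x : ℝ => 2 * (1 + x)) 2 t := by
      have := (h1.const_add 1).const_mul 2
      simpa using this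
    have h5 := h3.div h4 (by positivity)
    exact (h1.sub h2).sub h5
  have hmono : MonotoneOn f (Ici 0) := by
    apply monotoneOn_of_deriv_nonneg (convex_Ici 0)
    · intro t ht
      exact (hd t ht).continuousAt.continuousWithinAt
    · intro t ht
      rw [interior_Ici] at ht
      exact (hd t (le_of_lt ht)).differentiableAt.differentiableWithinAt
    · intro t ht
      rw [interior_Ici] at ht
      have ht' : (0 : ℝ) < t := ht
      rw [(hd t (le_of_lt ht)).deriv]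
      have : 1 - 1 / (1 + t) - ((2 * t) * (2 * (1 + t)) - t ^ 2 * 2) / (2 * (1 + t)) ^ 2 =
          t ^ 2 / (2 * (1 + t) ^ 2) := by
        field_simp
        ring
      rw [this]
      positivity
  have h0 : f 0 ≤ f x := hmono (by simp) (by simpa using hx) hx
  have hf0 : f 0 = 0 := by simp [f]
  rw [hf0] at h0
  simp only [f] at h0
  linarith

/-! ### elementary estimates -/

/-- The common lower bound for `∑ x_i²/(1+x_i)`, `x_i = β_i r²`. -/
theorem sum_ratio_ge {N : ℕ} (hN : 2 ≤ N) (r : ℝ) :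
    r ^ 4 / (8 * (1 + epsN N * r ^ 2)) ≤
      ∑ i : Fin N, (betaN N i * r ^ 2) ^ 2 / (1 + betaN N i * r ^ 2) := by
  have he := epsN_pos (N := N) (by omega)
  have hsq := epsN_sq (N := N) (by omega)
  have hr2 : 0 ≤ r ^ 2 := sq_nonneg r
  have h1 : ∀ i : Fin N, (epsN N ^ 2 * r ^ 4 / 4) / (1 + epsN N * r ^ 2) ≤
      (betaN N i * r ^ 2) ^ 2 / (1 + betaN N i * r ^ 2) := by
    intro i
    have hb1 := betaN_ge hN i
    have hb2 := betaN_le hN i
    have hb0 := betaN_pos hN i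
    have hnum : epsN N ^ 2 * r ^ 4 / 4 ≤ (betaN N i * r ^ 2) ^ 2 := by
      have : (epsN N / 2) ^ 2 ≤ betaN N i ^ 2 := by
        apply pow_le_pow_left₀ (by positivity) hb1
      calc epsN N ^ 2 * r ^ 4 / 4 = (epsN N / 2) ^ 2 * r ^ 4 := by ring
        _ ≤ betaN N i ^ 2 * r ^ 4 := by
          apply mul_le_mul_of_nonneg_right this (by positivity)
        _ = (betaN N i * r ^ 2) ^ 2 := by ring
    have hden : 1 + betaN N i * r ^ 2 ≤ 1 + epsN N * r ^ 2 := by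
      have := mul_le_mul_of_nonneg_right hb2 hr2
      linarith
    apply div_le_div₀ (by positivity) hnum (by positivity) hden
  have h2 := Finset.sum_le_sum (s := Finset.univ) fun i _ => h1 i
  rw [Finset.sum_const, Finset.card_univ, Fintype.card_fin, nsmul_eq_mul] at h2
  refine le_trans (le_of_eq ?_) h2
  have hden : (1 + epsN N * r ^ 2) ≠ 0 := by positivity
  have : (N : ℝ) * (epsN N ^ 2 * r ^ 4 / 4 / (1 + epsN N * r ^ 2)) =
      ((N : ℝ) * epsN N ^ 2) * (r ^ 4 / 4 / (1 + epsN N * r ^ 2)) := by ring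
  rw [this, hsq]
  field_simp
  ring

/-- `u⁴ / (32 (1 + ε u²)) ≥ K u² - 16 K²` for small `ε`. -/
theorem quartic_ge {ε K : ℝ} (hε : 0 < ε) (hK : 0 < K) (h : ε * (64 * K) ≤ 1) (u : ℝ) :
    K * u ^ 2 - 16 * K ^ 2 ≤ u ^ 4 / (32 * (1 + ε * u ^ 2)) := by
  have hu2 : 0 ≤ u ^ 2 := sq_nonneg u
  rcases le_total (ε * u ^ 2) 1 with h1 | h1
  · have h2 : u ^ 4 / 64 ≤ u ^ 4 / (32 * (1 + ε * u ^ 2)) := by
      apply div_le_div_of_nonneg_left (by positivity) (by positivity)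
      linarith
    have h3 : K * u ^ 2 - 16 * K ^ 2 ≤ u ^ 4 / 64 := by
      nlinarith [sq_nonneg (u ^ 2 / 8 - 4 * K)]
    linarith
  · have hupos : 0 < u ^ 2 := by
      by_contra hcon
      have : u ^ 2 = 0 := le_antisymm (not_lt.1 hcon) hu2
      rw [this] at h1
      norm_num at h1
    have h2 : K * u ^ 2 ≤ u ^ 4 / (32 * (1 + ε * u ^ 2)) := by
      rw [le_div_iff₀ (by positivity)]
      have h3 : 32 * (1 + ε * u ^ 2) ≤ 64 * (ε * u ^ 2) := by linarith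
      calc K * u ^ 2 * (32 * (1 + ε * u ^ 2)) ≤ K * u ^ 2 * (64 * (ε * u ^ 2)) := by
            apply mul_le_mul_of_nonneg_left h3 (by positivity)
        _ = (ε * (64 * K)) * u ^ 4 := by ring
        _ ≤ 1 * u ^ 4 := by
            apply mul_le_mul_of_nonneg_right h (by positivity)
        _ = u ^ 4 := one_mul _
    nlinarith [sq_nonneg K]

theorem exists_N0 {K : ℝ} (hK : 0 < K) : ∃ N0 : ℕ, 2 ≤ N0 ∧ ∀ N ≥ N0, epsN N * (64 * K) ≤ 1 := by
  obtain ⟨n, hn⟩ := exists_nat_ge ((64 * K) ^ 2)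
  refine ⟨max 2 n, le_max_left _ _, fun N hN => ?_⟩
  have h1 : n ≤ N := le_trans (le_max_right _ _) hN
  have h2 : 2 ≤ N := le_trans (le_max_left _ _) hN
  have h3 : (n : ℝ) ≤ N := by exact_mod_cast h1
  have h4 : (64 * K) ^ 2 ≤ 2 * N := by
    have : (0 : ℝ) ≤ N := by positivity
    linarith
  have h5 : 64 * K ≤ Real.sqrt (2 * N) := by
    rw [← Real.sqrt_sq (by positivity : (0 : ℝ) ≤ 64 * K)]
    exact Real.sqrt_le_sqrt h4
  unfold epsN
  have hp : (0 : ℝ) < Real.sqrt (2 * N) := lt_of_lt_of_le (by positivity) h5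
  rw [inv_mul_le_iff₀ hp]
  linarith

/-! ### vertical lines -/

theorem norm_one_sub_sq (z : ℂ) : ‖1 - z‖ ^ 2 = (1 - z.re) ^ 2 + z.im ^ 2 := by
  rw [← Complex.normSq_eq_norm_sq, Complex.normSq_apply]
  simp
  ring

/-- The bound for one factor on vertical lines. -/
theorem factor_line {β : ℝ} (hβ : 0 ≤ β) (c u : ℝ) :
    ‖Complex.exp ((β : ℂ) * ((c : ℂ) + (u : ℂ) * Complex.I) ^ 2) *
      (1 - (β : ℂ) * ((c : ℂ) + (u : ℂ) * Complex.I) ^ 2)‖ ≤
    Real.exp (-(1 / 4) * ((β * u ^ 2) ^ 2 / (1 + β * u ^ 2)) + 19 / 2 * (β * c ^ 2) ^ 2) := by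
  set x := β * u ^ 2 with hx
  set y := β * c ^ 2 with hy
  have hx0 : 0 ≤ x := by positivity
  have hy0 : 0 ≤ y := by positivity
  have hre : ((β : ℂ) * ((c : ℂ) + (u : ℂ) * Complex.I) ^ 2).re = y - x := by
    rw [hx, hy]
    simp [pow_two]
    ring
  have him : ((β : ℂ) * ((c : ℂ) + (u : ℂ) * Complex.I) ^ 2).im = 2 * β * c * u := by
    simp [pow_two]
    ring
  have hsq : ‖Complex.exp ((β : ℂ) * ((c : ℂ) + (u : ℂ) * Complex.I) ^ 2) *
      (1 - (β : ℂ) * ((c : ℂ) + (u : ℂ) * Complex.I) ^ 2)‖ ^ 2 =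
      Real.exp (2 * (y - x)) * ((1 + x) ^ 2 + (2 * x * y - 2 * y + y ^ 2)) := by
    rw [norm_mul, mul_pow, norm_one_sub_sq, hre, him, Complex.norm_exp, hre, ← Real.exp_nat_mul]
    have : (1 - (y - x)) ^ 2 + (2 * β * c * u) ^ 2 = (1 + x) ^ 2 + (2 * x * y - 2 * y + y ^ 2) := by
      rw [hx, hy]
      ring
    rw [this]
    push_cast
    rfl
  have h1x : 0 < 1 + x := by linarith
  have hbound : (1 + x) ^ 2 + (2 * x * y - 2 * y + y ^ 2) ≤
      Real.exp (2 * Real.log (1 + x) + (2 * x * y - 2 * y + y ^ 2) / (1 + x) ^ 2) := by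
    rw [Real.exp_add]
    have h1 : Real.exp (2 * Real.log (1 + x)) = (1 + x) ^ 2 := by
      rw [two_mul, Real.exp_add, Real.exp_log h1x]
      ring
    rw [h1]
    have h2 := Real.add_one_le_exp ((2 * x * y - 2 * y + y ^ 2) / (1 + x) ^ 2)
    calc (1 + x) ^ 2 + (2 * x * y - 2 * y + y ^ 2) =
        (1 + x) ^ 2 * ((2 * x * y - 2 * y + y ^ 2) / (1 + x) ^ 2 + 1) := by
          field_simp
          ring
      _ ≤ _ := mul_le_mul_of_nonneg_left h2 (by positivity)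
  have hlog := log_bound hx0
  have hexp : 2 * (y - x) + (2 * Real.log (1 + x) + (2 * x * y - 2 * y + y ^ 2) / (1 + x) ^ 2) ≤
      2 * (-(1 / 4) * (x ^ 2 / (1 + x)) + 19 / 2 * y ^ 2) := by
    have e1 : 2 * y + (2 * x * y - 2 * y + y ^ 2) / (1 + x) ^ 2 =
        (2 * y * (3 * x + x ^ 2) + y ^ 2) / (1 + x) ^ 2 := by
      field_simp
      ring
    have e2 : (2 * y * (3 * x + x ^ 2) + y ^ 2) / (1 + x) ^ 2 ≤
        (x ^ 2 / (2 * (1 + x))) + 19 * y ^ 2 := by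
      rw [div_add' _ _ _ (by positivity), div_le_div_iff₀ (by positivity) (by positivity)]
      have hp : 0 ≤ (x - 6 * y) ^ 2 := sq_nonneg _
      have hkey : (2 * y * (3 * x + x ^ 2) + y ^ 2) * 2 ≤
          (x ^ 2 + 19 * y ^ 2 * (2 * (1 + x))) * (1 + x) := by
        nlinarith [mul_nonneg hx0 hp, mul_nonneg hx0 hy0, mul_nonneg (mul_nonneg hx0 hx0) hy0,
          mul_nonneg (mul_nonneg hx0 hx0) (sq_nonneg y), mul_nonneg hx0 (sq_nonneg y), hp]
      calc (2 * y * (3 * x + x ^ 2) + y ^ 2) * (2 * (1 + x)) =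
          ((2 * y * (3 * x + x ^ 2) + y ^ 2) * 2) * (1 + x) := by ring
        _ ≤ ((x ^ 2 + 19 * y ^ 2 * (2 * (1 + x))) * (1 + x)) * (1 + x) :=
          mul_le_mul_of_nonneg_right hkey h1x.le
        _ = (x ^ 2 + 19 * y ^ 2 * (2 * (1 + x))) * (1 + x) ^ 2 := by ring
    have e3 : x ^ 2 / (1 + x) = 2 * (x ^ 2 / (2 * (1 + x))) := by
      field_simp
    rw [e3]
    linarith
  have hsq2 : ‖Complex.exp ((β : ℂ) * ((c : ℂ) + (u : ℂ) * Complex.I) ^ 2) *
      (1 - (β : ℂ) * ((c : ℂ) + (u : ℂ) * Complex.I) ^ 2)‖ ^ 2 ≤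
      Real.exp (-(1 / 4) * (x ^ 2 / (1 + x)) + 19 / 2 * y ^ 2) ^ 2 := by
    rw [hsq, ← Real.exp_nat_mul]
    calc Real.exp (2 * (y - x)) * ((1 + x) ^ 2 + (2 * x * y - 2 * y + y ^ 2)) ≤
        Real.exp (2 * (y - x)) *
          Real.exp (2 * Real.log (1 + x) + (2 * x * y - 2 * y + y ^ 2) / (1 + x) ^ 2) :=
          mul_le_mul_of_nonneg_left hbound (Real.exp_pos _).le
      _ = Real.exp (2 * (y - x) +
          (2 * Real.log (1 + x) + (2 * x * y - 2 * y + y ^ 2) / (1 + x) ^ 2)) := by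
          rw [← Real.exp_add]
      _ ≤ _ := by
          apply Real.exp_le_exp.2
          push_cast
          exact hexp
  exact (pow_le_pow_iff_left₀ (norm_nonneg _) (Real.exp_pos _).le two_ne_zero).1 hsq2

theorem FN_line_aux {N : ℕ} (hN : 2 ≤ N) (c u : ℝ) :
    ‖FN N ((c : ℂ) + (u : ℂ) * Complex.I)‖ ≤
      Real.exp (-(u ^ 4 / (32 * (1 + epsN N * u ^ 2))) + 19 / 4 * c ^ 4) := by
  rw [FN_eq_prod, norm_prod]
  have h1 : ∏ i : Fin N, ‖Complex.exp ((betaN N i : ℂ) * ((c : ℂ) + (u : ℂ) * Complex.I) ^ 2) *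
      (1 - (betaN N i : ℂ) * ((c : ℂ) + (u : ℂ) * Complex.I) ^ 2)‖ ≤
      ∏ i : Fin N, Real.exp (-(1 / 4) * ((betaN N i * u ^ 2) ^ 2 / (1 + betaN N i * u ^ 2)) +
        19 / 2 * (betaN N i * c ^ 2) ^ 2) :=
    Finset.prod_le_prod (fun i _ => norm_nonneg _) fun i _ => factor_line (betaN_pos hN i).le c u
  refine le_trans h1 ?_
  rw [← Real.exp_sum]
  apply Real.exp_le_exp.2
  rw [Finset.sum_add_distrib, ← Finset.mul_sum, ← Finset.mul_sum]
  have h2 := sum_ratio_ge hN u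
  have he := epsN_pos (N := N) (by omega)
  have h3 : ∑ i : Fin N, (betaN N i * c ^ 2) ^ 2 ≤ c ^ 4 / 2 := by
    have h4 : ∀ i : Fin N, (betaN N i * c ^ 2) ^ 2 ≤ epsN N ^ 2 * c ^ 4 := by
      intro i
      have : betaN N i ^ 2 ≤ epsN N ^ 2 := pow_le_pow_left₀ (betaN_pos hN i).le (betaN_le hN i) 2
      calc (betaN N i * c ^ 2) ^ 2 = betaN N i ^ 2 * c ^ 4 := by ring
        _ ≤ _ := mul_le_mul_of_nonneg_right this (by positivity)
    have h5 := Finset.sum_le_sum (s := Finset.univ) fun i _ => h4 i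
    rw [Finset.sum_const, Finset.card_univ, Fintype.card_fin, nsmul_eq_mul] at h5
    have hsq := epsN_sq (N := N) (by omega)
    calc _ ≤ _ := h5
      _ = ((N : ℝ) * epsN N ^ 2) * c ^ 4 := by ring
      _ = c ^ 4 / 2 := by rw [hsq]; ring
  have h6 : u ^ 4 / (32 * (1 + epsN N * u ^ 2)) = 1 / 4 * (u ^ 4 / (8 * (1 + epsN N * u ^ 2))) := by
    have : (1 + epsN N * u ^ 2) ≠ 0 := by positivity
    field_simp
    ring
  rw [h6]
  linarith

theorem FN_line (M c K : ℝ) : ∃ C : ℝ, ∃ N0 : ℕ, ∀ N ≥ N0, ∀ c' ∈ Icc (-c) c, ∀ τ ∈ Icc (-M) M,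
    ∀ u : ℝ, ‖FN N ((c' : ℂ) + (u : ℂ) * Complex.I) *
      Complex.exp ((τ : ℂ) * ((c' : ℂ) + (u : ℂ) * Complex.I) ^ 2 / 2)‖ ≤
      C * Real.exp (-K * u ^ 2) := by
  set K' : ℝ := |K| + |M| / 2 + 1 with hK'
  have hKpos : 0 < K' := by positivity
  obtain ⟨N0, h2, hN0⟩ := exists_N0 hKpos
  refine ⟨Real.exp (16 * K' ^ 2 + 19 / 4 * c ^ 4 + |M| * c ^ 2 / 2), N0, ?_⟩
  intro N hN c' hc' τ hτ u
  have hN2 : 2 ≤ N := le_trans h2 hN
  have hc : c' ^ 2 ≤ c ^ 2 := by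
    apply sq_le_sq'
    · exact hc'.1
    · exact hc'.2
  have hτM : |τ| ≤ |M| := by
    have : |τ| ≤ M := abs_le.2 ⟨hτ.1, hτ.2⟩
    exact le_trans this (le_abs_self M)
  rw [norm_mul, Complex.norm_exp, ← Real.exp_add]
  have hre : ((τ : ℂ) * ((c' : ℂ) + (u : ℂ) * Complex.I) ^ 2 / 2).re = τ * (c' ^ 2 - u ^ 2) / 2 := by
    have : (τ : ℂ) * ((c' : ℂ) + (u : ℂ) * Complex.I) ^ 2 / 2 =
        ((τ * (c' ^ 2 - u ^ 2) / 2 : ℝ) : ℂ) + ((τ * c' * u : ℝ) : ℂ) * Complex.I := by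
      push_cast
      ring_nf
      rw [Complex.I_sq]
      ring
    rw [this, Complex.add_re, Complex.ofReal_re, Complex.re_ofReal_mul, Complex.I_re, mul_zero,
      add_zero]
  rw [hre]
  have h1 := FN_line_aux hN2 c' u
  have h3 := quartic_ge (epsN_pos (N := N) (by omega)) hKpos (hN0 N hN) u
  have hc4 : c' ^ 4 ≤ c ^ 4 := by
    calc c' ^ 4 = (c' ^ 2) ^ 2 := by ring
      _ ≤ (c ^ 2) ^ 2 := pow_le_pow_left₀ (sq_nonneg _) hc 2
      _ = c ^ 4 := by ring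
  have h4 : τ * (c' ^ 2 - u ^ 2) / 2 ≤ |M| * (c ^ 2 + u ^ 2) / 2 := by
    have : τ * (c' ^ 2 - u ^ 2) ≤ |τ| * |c' ^ 2 - u ^ 2| := by
      rw [← abs_mul]
      exact le_abs_self _
    have h5 : |c' ^ 2 - u ^ 2| ≤ c ^ 2 + u ^ 2 := by
      rw [abs_le]
      constructor <;> nlinarith [sq_nonneg c', sq_nonneg u]
    have h6 : |τ| * |c' ^ 2 - u ^ 2| ≤ |M| * (c ^ 2 + u ^ 2) :=
      mul_le_mul hτM h5 (abs_nonneg _) (abs_nonneg _)
    linarith
  calc ‖FN N ((c' : ℂ) + (u : ℂ) * Complex.I)‖ * Real.exp (τ * (c' ^ 2 - u ^ 2) / 2) ≤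
      Real.exp (-(u ^ 4 / (32 * (1 + epsN N * u ^ 2))) + 19 / 4 * c' ^ 4) *
        Real.exp (|M| * (c ^ 2 + u ^ 2) / 2) := by
        apply mul_le_mul h1 (Real.exp_le_exp.2 h4) (Real.exp_pos _).le (Real.exp_pos _).le
    _ = Real.exp (-(u ^ 4 / (32 * (1 + epsN N * u ^ 2))) + 19 / 4 * c' ^ 4 +
        |M| * (c ^ 2 + u ^ 2) / 2) := by rw [← Real.exp_add]
    _ ≤ _ := by
        apply Real.exp_le_exp.2
        have h7 : K * u ^ 2 ≤ |K| * u ^ 2 := mul_le_mul_of_nonneg_right (le_abs_self K) (sq_nonneg u)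
        have h8 : K' * u ^ 2 = |K| * u ^ 2 + |M| / 2 * u ^ 2 + u ^ 2 := by rw [hK']; ring
        nlinarith [sq_nonneg u]

/-! ### the rays -/

theorem cis_sq_re (r : ℝ) : (((r : ℂ) * cis (Real.pi / 6)) ^ 2).re = r ^ 2 / 2 := by
  have h : ((r : ℂ) * cis (Real.pi / 6)) ^ 2 =
      ((r ^ 2 : ℝ) : ℂ) * Complex.exp (((Real.pi / 3 : ℝ) : ℂ) * Complex.I) := by
    unfold cis
    rw [mul_pow, ← Complex.exp_nat_mul]
    push_cast
    congr 2
    ring
  rw [h, Complex.re_ofReal_mul, Complex.exp_ofReal_mul_I_re, Real.cos_pi_div_three]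
  ring

theorem cis_sq_im (r : ℝ) : (((r : ℂ) * cis (Real.pi / 6)) ^ 2).im = r ^ 2 * (Real.sqrt 3 / 2) := by
  have h : ((r : ℂ) * cis (Real.pi / 6)) ^ 2 =
      ((r ^ 2 : ℝ) : ℂ) * Complex.exp (((Real.pi / 3 : ℝ) : ℂ) * Complex.I) := by
    unfold cis
    rw [mul_pow, ← Complex.exp_nat_mul]
    push_cast
    congr 2
    ring
  rw [h, Complex.im_ofReal_mul, Complex.exp_ofReal_mul_I_im, Real.sin_pi_div_three]

theorem factor_ray_sq (β r : ℝ) :
    ‖Complex.exp ((β : ℂ) * ((r : ℂ) * cis (Real.pi / 6)) ^ 2) *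
      (1 - (β : ℂ) * ((r : ℂ) * cis (Real.pi / 6)) ^ 2)‖ ^ 2 =
    Real.exp (β * r ^ 2) * (1 - β * r ^ 2 + (β * r ^ 2) ^ 2) := by
  have h3 : Real.sqrt 3 ^ 2 = 3 := Real.sq_sqrt (by norm_num)
  rw [norm_mul, mul_pow, norm_one_sub_sq, Complex.norm_exp, Complex.re_ofReal_mul,
    Complex.im_ofReal_mul, cis_sq_re, cis_sq_im, ← Real.exp_nat_mul]
  congr 1
  · congr 1
    push_cast
    ring
  · have : (β * (r ^ 2 * (Real.sqrt 3 / 2))) ^ 2 = β ^ 2 * r ^ 4 * (Real.sqrt 3 ^ 2 / 4) := by ring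
    rw [this, h3]
    ring

/-- The bound from below for one factor on the ray. -/
theorem factor_ray {β : ℝ} (hβ : 0 ≤ β) (r : ℝ) :
    Real.exp (1 / 4 * ((β * r ^ 2) ^ 2 / (1 + β * r ^ 2))) ≤
    ‖Complex.exp ((β : ℂ) * ((r : ℂ) * cis (Real.pi / 6)) ^ 2) *
      (1 - (β : ℂ) * ((r : ℂ) * cis (Real.pi / 6)) ^ 2)‖ := by
  set x := β * r ^ 2 with hx
  have hx0 : 0 ≤ x := by positivity
  have h1x : 0 < 1 + x := by linarith
  have hsq := factor_ray_sq β r
  rw [← hx] at hsq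
  have hlog := log_bound hx0
  have h1 : Real.exp (-Real.log (1 + x)) ≤ 1 - x + x ^ 2 := by
    rw [Real.exp_neg, Real.exp_log h1x, inv_le_iff_one_le_mul₀ h1x]
    nlinarith [pow_nonneg hx0 3]
  have h2 : Real.exp (1 / 4 * (x ^ 2 / (1 + x))) ^ 2 ≤
      ‖Complex.exp ((β : ℂ) * ((r : ℂ) * cis (Real.pi / 6)) ^ 2) *
      (1 - (β : ℂ) * ((r : ℂ) * cis (Real.pi / 6)) ^ 2)‖ ^ 2 := by
    rw [hsq, ← Real.exp_nat_mul]
    calc Real.exp (((2 : ℕ) : ℝ) * (1 / 4 * (x ^ 2 / (1 + x)))) ≤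
        Real.exp (x + -Real.log (1 + x)) := by
          apply Real.exp_le_exp.2
          have e3 : x ^ 2 / (1 + x) = 2 * (x ^ 2 / (2 * (1 + x))) := by
            field_simp
          rw [e3]
          push_cast
          linarith
      _ = Real.exp x * Real.exp (-Real.log (1 + x)) := Real.exp_add _ _
      _ ≤ _ := mul_le_mul_of_nonneg_left h1 (Real.exp_pos _).le
  exact (pow_le_pow_iff_left₀ (Real.exp_pos _).le (norm_nonneg _) two_ne_zero).1 h2

theorem FN_ray_aux {N : ℕ} (hN : 2 ≤ N) (r : ℝ) :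
    Real.exp (r ^ 4 / (32 * (1 + epsN N * r ^ 2))) ≤ ‖FN N ((r : ℂ) * cis (Real.pi / 6))‖ := by
  rw [FN_eq_prod, norm_prod]
  have h1 : ∏ i : Fin N, Real.exp (1 / 4 * ((betaN N i * r ^ 2) ^ 2 / (1 + betaN N i * r ^ 2))) ≤
      ∏ i : Fin N, ‖Complex.exp ((betaN N i : ℂ) * ((r : ℂ) * cis (Real.pi / 6)) ^ 2) *
      (1 - (betaN N i : ℂ) * ((r : ℂ) * cis (Real.pi / 6)) ^ 2)‖ :=
    Finset.prod_le_prod (fun i _ => (Real.exp_pos _).le) fun i _ => factor_ray (betaN_pos hN i).le r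
  refine le_trans ?_ h1
  rw [← Real.exp_sum]
  apply Real.exp_le_exp.2
  rw [← Finset.mul_sum]
  have h2 := sum_ratio_ge hN r
  have he := epsN_pos (N := N) (by omega)
  have h6 : r ^ 4 / (32 * (1 + epsN N * r ^ 2)) = 1 / 4 * (r ^ 4 / (8 * (1 + epsN N * r ^ 2))) := by
    have : (1 + epsN N * r ^ 2) ≠ 0 := by positivity
    field_simp
    ring
  rw [h6]
  linarith

/-- Nonvanishing on the ray, for every `N ≥ 2` and every real `r`. -/
theorem FN_ray_ne' {N : ℕ} (hN : 2 ≤ N) (r : ℝ) : FN N ((r : ℂ) * cis (Real.pi / 6)) ≠ 0 := by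
  intro h
  have h1 := FN_ray_aux hN r
  rw [h, norm_zero] at h1
  exact absurd h1 (not_le.2 (Real.exp_pos _))

theorem FN_ray_ne {N : ℕ} (hN : 2 ≤ N) {r : ℝ} (_hr : 0 ≤ r) :
    FN N ((r : ℂ) * cis (Real.pi / 6)) ≠ 0 := FN_ray_ne' hN r

theorem FN_ray (M K : ℝ) : ∃ C : ℝ, ∃ N0 : ℕ, ∀ N ≥ N0, ∀ σ ∈ Icc (-M) M, ∀ r : ℝ, 0 ≤ r →
    FN N ((r : ℂ) * cis (Real.pi / 6)) ≠ 0 ∧
    ‖(FN N ((r : ℂ) * cis (Real.pi / 6)))⁻¹ *
      Complex.exp (-(σ : ℂ) * ((r : ℂ) * cis (Real.pi / 6)) ^ 2 / 2)‖ ≤ C * Real.exp (-K * r ^ 2) := by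
  set K' : ℝ := |K| + |M| / 4 + 1 with hK'
  have hKpos : 0 < K' := by positivity
  obtain ⟨N0, h2, hN0⟩ := exists_N0 hKpos
  refine ⟨Real.exp (16 * K' ^ 2), N0, ?_⟩
  intro N hN σ hσ r hr
  have hN2 : 2 ≤ N := le_trans h2 hN
  refine ⟨FN_ray_ne hN2 hr, ?_⟩
  have hσM : |σ| ≤ |M| := by
    have : |σ| ≤ M := abs_le.2 ⟨hσ.1, hσ.2⟩
    exact le_trans this (le_abs_self M)
  rw [norm_mul, norm_inv, Complex.norm_exp]
  have hre : (-(σ : ℂ) * ((r : ℂ) * cis (Real.pi / 6)) ^ 2 / 2).re = -σ * (r ^ 2 / 2) / 2 := by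
    have : -(σ : ℂ) * ((r : ℂ) * cis (Real.pi / 6)) ^ 2 / 2 =
        ((-σ / 2 : ℝ) : ℂ) * ((r : ℂ) * cis (Real.pi / 6)) ^ 2 := by
      push_cast
      ring
    rw [this, Complex.re_ofReal_mul, cis_sq_re]
    ring
  rw [hre]
  have h1 := FN_ray_aux hN2 r
  have h3 := quartic_ge (epsN_pos (N := N) (by omega)) hKpos (hN0 N hN) r
  have h4 : -σ * (r ^ 2 / 2) / 2 ≤ |M| * r ^ 2 / 4 := by
    have h5 : -σ ≤ |M| := le_trans (neg_le_abs σ) hσM
    nlinarith [sq_nonneg r]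
  have h5 : ‖FN N ((r : ℂ) * cis (Real.pi / 6))‖⁻¹ ≤
      Real.exp (-(r ^ 4 / (32 * (1 + epsN N * r ^ 2)))) := by
    rw [Real.exp_neg]
    exact inv_anti₀ (Real.exp_pos _) h1
  calc ‖FN N ((r : ℂ) * cis (Real.pi / 6))‖⁻¹ * Real.exp (-σ * (r ^ 2 / 2) / 2) ≤
      Real.exp (-(r ^ 4 / (32 * (1 + epsN N * r ^ 2)))) * Real.exp (|M| * r ^ 2 / 4) := by
        apply mul_le_mul h5 (Real.exp_le_exp.2 h4) (Real.exp_pos _).le (Real.exp_pos _).le
    _ = Real.exp (-(r ^ 4 / (32 * (1 + epsN N * r ^ 2))) + |M| * r ^ 2 / 4) := by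
        rw [← Real.exp_add]
    _ ≤ _ := by
        rw [← Real.exp_add]
        apply Real.exp_le_exp.2
        have h7 : K * r ^ 2 ≤ |K| * r ^ 2 := mul_le_mul_of_nonneg_right (le_abs_self K) (sq_nonneg r)
        have h8 : K' * r ^ 2 = |K| * r ^ 2 + |M| / 4 * r ^ 2 + r ^ 2 := by rw [hK']; ring
        nlinarith [sq_nonneg r]

/-! ### the pointwise limit -/

theorem log_taylor {v : ℂ} (hv : ‖v‖ ≤ 1 / 2) :
    ‖v + Complex.log (1 - v) + v ^ 2 / 2‖ ≤ ‖v‖ ^ 3 := by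
  have h1 : ‖-v‖ < 1 := by
    rw [norm_neg]
    linarith
  have h := Complex.norm_log_sub_logTaylor_le 2 h1
  have ht : Complex.logTaylor (2 + 1) (-v) = -v - v ^ 2 / 2 := by
    simp [Complex.logTaylor, Finset.sum_range_succ]
    ring
  rw [ht, norm_neg] at h
  have he : Complex.log (1 + -v) - (-v - v ^ 2 / 2) = v + Complex.log (1 - v) + v ^ 2 / 2 := by
    rw [sub_eq_add_neg 1 v]
    ring
  rw [he] at h
  refine le_trans h ?_
  have h2 : (1 - ‖v‖)⁻¹ ≤ 2 := by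
    rw [inv_le_comm₀ (by linarith) (by norm_num)]
    linarith
  have h3 : 0 ≤ ‖v‖ ^ 3 := by positivity
  have h4 : ‖v‖ ^ (2 + 1) * (1 - ‖v‖)⁻¹ ≤ ‖v‖ ^ 3 * 2 := mul_le_mul_of_nonneg_left h2 h3
  push_cast
  linarith

theorem epsN_tendsto : Tendsto epsN atTop (𝓝 0) := by
  unfold epsN
  apply Tendsto.comp tendsto_inv_atTop_zero
  apply Real.tendsto_sqrt_atTop.comp
  apply Tendsto.const_mul_atTop (by norm_num)
  exact tendsto_natCast_atTop_atTop

theorem sum_sq_tendsto : Tendsto (fun N => ∑ i : Fin N, betaN N i ^ 2) atTop (𝓝 (1 / 2)) := by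
  have hlow : Tendsto (fun N : ℕ => (1 - 1 / (N : ℝ)) ^ 2 * (1 / 2)) atTop (𝓝 (1 / 2)) := by
    have h1 : Tendsto (fun N : ℕ => 1 / (N : ℝ)) atTop (𝓝 0) := tendsto_one_div_atTop_nhds_zero_nat
    have h2 := ((tendsto_const_nhds (x := (1 : ℝ))).sub h1).pow 2
    have h3 := h2.mul_const (1 / 2 : ℝ)
    simpa using h3
  refine tendsto_of_tendsto_of_tendsto_of_le_of_le' hlow
    (tendsto_const_nhds (x := (1 / 2 : ℝ))) ?_ ?_
  · filter_upwards [eventually_ge_atTop 2] with N hN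
    have hsq := epsN_sq (N := N) (by omega)
    have he := epsN_pos (N := N) (by omega)
    have h1 : ∀ i : Fin N, (1 - 1 / (N : ℝ)) ^ 2 * epsN N ^ 2 ≤ betaN N i ^ 2 := by
      intro i
      obtain ⟨h0, h1, h2⟩ := frac_bounds hN i
      have : (0 : ℝ) ≤ epsN N * (1 - 1 / N) := mul_nonneg he.le (by linarith)
      calc (1 - 1 / (N : ℝ)) ^ 2 * epsN N ^ 2 = (epsN N * (1 - 1 / N)) ^ 2 := by ring
        _ ≤ _ := pow_le_pow_left₀ this (betaN_ge' hN i) 2
    have h2 := Finset.sum_le_sum (s := Finset.univ) fun i _ => h1 i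
    rw [Finset.sum_const, Finset.card_univ, Fintype.card_fin, nsmul_eq_mul] at h2
    calc (1 - 1 / (N : ℝ)) ^ 2 * (1 / 2) = (1 - 1 / (N : ℝ)) ^ 2 * (N * epsN N ^ 2) := by rw [hsq]
      _ = (N : ℝ) * ((1 - 1 / (N : ℝ)) ^ 2 * epsN N ^ 2) := by ring
      _ ≤ _ := h2
  · filter_upwards [eventually_ge_atTop 2] with N hN
    have hsq := epsN_sq (N := N) (by omega)
    have h1 : ∀ i : Fin N, betaN N i ^ 2 ≤ epsN N ^ 2 := fun i =>
      pow_le_pow_left₀ (betaN_pos hN i).le (betaN_le hN i) 2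
    have h2 := Finset.sum_le_sum (s := Finset.univ) fun i _ => h1 i
    rw [Finset.sum_const, Finset.card_univ, Fintype.card_fin, nsmul_eq_mul] at h2
    rw [hsq] at h2
    exact h2

theorem FN_tendsto (w : ℂ) : Tendsto (fun N => FN N w) atTop (𝓝 (Complex.exp (-w ^ 4 / 4))) := by
  -- the exponent
  let L : ℕ → ℂ := fun N => ∑ i : Fin N, ((betaN N i : ℂ) * w ^ 2 +
    Complex.log (1 - (betaN N i : ℂ) * w ^ 2))
  have hsmall : ∀ᶠ N : ℕ in atTop, 2 ≤ N ∧ epsN N * ‖w‖ ^ 2 ≤ 1 / 2 := by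
    have h1 : Tendsto (fun N => epsN N * ‖w‖ ^ 2) atTop (𝓝 (0 * ‖w‖ ^ 2)) :=
      epsN_tendsto.mul_const _
    rw [zero_mul] at h1
    have h2 : ∀ᶠ N in atTop, epsN N * ‖w‖ ^ 2 < 1 / 2 := h1.eventually_lt_const (by norm_num)
    filter_upwards [eventually_ge_atTop 2, h2] with N hN h
    exact ⟨hN, h.le⟩
  have hnorm : ∀ N : ℕ, 2 ≤ N → epsN N * ‖w‖ ^ 2 ≤ 1 / 2 → ∀ i : Fin N,
      ‖(betaN N i : ℂ) * w ^ 2‖ ≤ epsN N * ‖w‖ ^ 2 := by
    intro N hN _ i
    rw [norm_mul, norm_pow, Complex.norm_real, Real.norm_of_nonneg (betaN_pos hN i).le]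
    exact mul_le_mul_of_nonneg_right (betaN_le hN i) (by positivity)
  have hEq : ∀ᶠ N in atTop, Complex.exp (L N) = FN N w := by
    filter_upwards [hsmall] with N hN
    rw [FN_eq_prod]
    simp only [L]
    rw [Complex.exp_sum]
    apply Finset.prod_congr rfl
    intro i _
    rw [Complex.exp_add, Complex.exp_log]
    intro h0
    have h1 : (betaN N i : ℂ) * w ^ 2 = 1 := by
      rw [sub_eq_zero] at h0
      exact h0.symm
    have h2 := hnorm N hN.1 hN.2 i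
    rw [h1, norm_one] at h2
    linarith [hN.2]
  have hL : Tendsto L atTop (𝓝 (-w ^ 4 / 4)) := by
    have hmain : Tendsto (fun N => -(w ^ 4 / 2) * ((∑ i : Fin N, betaN N i ^ 2 : ℝ) : ℂ)) atTop
        (𝓝 (-(w ^ 4 / 2) * ((1 / 2 : ℝ) : ℂ))) := by
      apply Tendsto.const_mul
      exact (Complex.continuous_ofReal.tendsto _).comp sum_sq_tendsto
    have hlim : -(w ^ 4 / 2) * ((1 / 2 : ℝ) : ℂ) = -w ^ 4 / 4 := by
      push_cast
      ring
    rw [hlim] at hmain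
    have hdiff : Tendsto (fun N => L N - -(w ^ 4 / 2) * ((∑ i : Fin N, betaN N i ^ 2 : ℝ) : ℂ))
        atTop (𝓝 0) := by
      apply squeeze_zero_norm' (a := fun N => epsN N * (‖w‖ ^ 6 / 2))
      · filter_upwards [hsmall] with N hN
        have he := epsN_pos (N := N) (by omega)
        have hsq := epsN_sq (N := N) (by omega)
        have e1 : L N - -(w ^ 4 / 2) * ((∑ i : Fin N, betaN N i ^ 2 : ℝ) : ℂ) =
            ∑ i : Fin N, ((betaN N i : ℂ) * w ^ 2 + Complex.log (1 - (betaN N i : ℂ) * w ^ 2) +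
              ((betaN N i : ℂ) * w ^ 2) ^ 2 / 2) := by
          rw [Finset.sum_add_distrib]
          simp only [L]
          have : ∑ i : Fin N, ((betaN N i : ℂ) * w ^ 2) ^ 2 / 2 =
              (w ^ 4 / 2) * ((∑ i : Fin N, betaN N i ^ 2 : ℝ) : ℂ) := by
            push_cast
            rw [Finset.mul_sum]
            apply Finset.sum_congr rfl
            intro i _
            ring
          rw [this]
          ring
        rw [e1]
        refine le_trans (norm_sum_le _ _) ?_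
        have h1 : ∀ i : Fin N, ‖(betaN N i : ℂ) * w ^ 2 +
            Complex.log (1 - (betaN N i : ℂ) * w ^ 2) + ((betaN N i : ℂ) * w ^ 2) ^ 2 / 2‖ ≤
            (epsN N * ‖w‖ ^ 2) ^ 3 := by
          intro i
          have h2 := hnorm N hN.1 hN.2 i
          refine le_trans (log_taylor (le_trans h2 hN.2)) ?_
          exact pow_le_pow_left₀ (norm_nonneg _) h2 3
        have h2 := Finset.sum_le_sum (s := Finset.univ) fun i _ => h1 i
        rw [Finset.sum_const, Finset.card_univ, Fintype.card_fin, nsmul_eq_mul] at h2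
        refine le_trans h2 (le_of_eq ?_)
        calc (N : ℝ) * (epsN N * ‖w‖ ^ 2) ^ 3 = ((N : ℝ) * epsN N ^ 2) * (epsN N * ‖w‖ ^ 6) := by ring
          _ = epsN N * (‖w‖ ^ 6 / 2) := by rw [hsq]; ring
      · have := epsN_tendsto.mul_const (‖w‖ ^ 6 / 2)
        rw [zero_mul] at this
        exact this
    have hsum := hdiff.add hmain
    rw [zero_add] at hsum
    refine hsum.congr ?_
    intro N
    ring
  have hexp : Tendsto (fun N => Complex.exp (L N)) atTop (𝓝 (Complex.exp (-w ^ 4 / 4))) :=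
    (Complex.continuous_exp.tendsto _).comp hL
  exact hexp.congr' hEq

end Pool.Agent.H.MP_5ad92a_pr
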