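import Pool.Agent.H.MP_5ad92a_pr.Defs

/-!
# Lambda form of the finite kernel

`Kn` as an integral over `l > 0` of products of the one-variable functions `Qn`, `Pn`.
-/

set_option autoImplicit false

noncomputable section

open MeasureTheory Filter Topology Set

namespace Pool.Agent.H.MP_5ad92a_pr

namespace KnL

lemma epsN_pos {N : ℕ} (hN : 2 ≤ N) : 0 < epsN N := by
  unfold epsN
  have : (0 : ℝ) < N := by
    have : 0 < N := by omega
    exact_mod_cast this
  positivity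

lemma frac_lt_one {N : ℕ} (hN : 2 ≤ N) (i : Fin N) : (i : ℝ) / (N : ℝ) ^ 2 < 1 := by
  have h1 : (1 : ℝ) < N := by
    have : 1 < N := by omega
    exact_mod_cast this
  have h2 : ((i : ℕ) : ℝ) < N := by exact_mod_cast i.2
  rw [div_lt_one (by positivity)]
  nlinarith

lemma betaN_pos {N : ℕ} (hN : 2 ≤ N) (i : Fin N) : 0 < betaN N i := by
  unfold betaN
  have := frac_lt_one hN i
  have h0 := epsN_pos hN
  apply mul_pos h0
  linarith

lemma betaN_inj {N : ℕ} (hN : 2 ≤ N) : Function.Injective (betaN N) := by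
  intro i j h
  unfold betaN at h
  have h0 := (epsN_pos hN).ne'
  have h1 := mul_left_cancel₀ h0 h
  have hN' : (0 : ℝ) < (N : ℝ) ^ 2 := by
    have : 0 < N := by omega
    have : (0 : ℝ) < N := by exact_mod_cast this
    positivity
  have h2 : (i : ℝ) / (N : ℝ) ^ 2 = (j : ℝ) / (N : ℝ) ^ 2 := by linarith
  have h3 := (div_left_inj' hN'.ne').mp h2
  have h4 : (i : ℕ) = (j : ℕ) := by exact_mod_cast h3
  exact Fin.ext h4

lemma bN_pos {N : ℕ} (hN : 2 ≤ N) (i : Fin N) : 0 < bN N i := by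
  unfold bN
  have := betaN_pos hN i
  positivity

lemma bN_sq {N : ℕ} (hN : 2 ≤ N) (i : Fin N) : bN N i ^ 2 = (betaN N i)⁻¹ := by
  unfold bN
  have := betaN_pos hN i
  rw [inv_pow, Real.sq_sqrt this.le]

/-- the coefficients -/
def cN (N : ℕ) (i : Fin N) : ℝ :=
  (bN N i / 2) / ∏ j ∈ Finset.univ.erase i, (1 - betaN N j / betaN N i)

lemma Qn_eq (N : ℕ) (σ x : ℝ) :
    Qn N σ x = ∑ i : Fin N, cN N i * Real.exp (bN N i * x - (bN N i) ^ 2 * (SN N + σ) / 2) := by
  unfold Qn cN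
  refine Finset.sum_congr rfl fun i _ => ?_
  ring

lemma prod_erase_left {N M : ℕ} (f : Fin (N + M) → ℂ) (i : Fin N) :
    ∏ j ∈ Finset.univ.erase (Fin.castAdd M i), f j =
      (∏ j ∈ Finset.univ.erase i, f (Fin.castAdd M j)) * ∏ j, f (Fin.natAdd N j) := by
  classical
  set f' : Fin (N + M) → ℂ := Function.update f (Fin.castAdd M i) 1 with hf'
  have h1 : ∏ j ∈ Finset.univ.erase (Fin.castAdd M i), f j =
      ∏ j ∈ Finset.univ.erase (Fin.castAdd M i), f' j := by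
    refine Finset.prod_congr rfl fun j hj => ?_
    rw [hf', Function.update_of_ne (Finset.ne_of_mem_erase hj)]
  rw [h1, Finset.prod_erase _ (by rw [hf', Function.update_self]), Fin.prod_univ_add]
  congr 1
  · rw [← Finset.prod_erase (s := Finset.univ) (a := i) (f := fun j => f' (Fin.castAdd M j))
      (by rw [hf', Function.update_self])]
    refine Finset.prod_congr rfl fun j hj => ?_
    rw [hf', Function.update_of_ne]
    intro h
    exact Finset.ne_of_mem_erase hj (Fin.castAdd_injective _ _ h)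
  · refine Finset.prod_congr rfl fun j _ => ?_
    rw [hf', Function.update_of_ne]
    intro h
    have := congrArg Fin.val h
    simp at this
    omega

lemma prod_erase_right {N M : ℕ} (f : Fin (N + M) → ℂ) (i : Fin M) :
    ∏ j ∈ Finset.univ.erase (Fin.natAdd N i), f j =
      (∏ j, f (Fin.castAdd M j)) * ∏ j ∈ Finset.univ.erase i, f (Fin.natAdd N j) := by
  classical
  set f' : Fin (N + M) → ℂ := Function.update f (Fin.natAdd N i) 1 with hf'
  have h1 : ∏ j ∈ Finset.univ.erase (Fin.natAdd N i), f j =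
      ∏ j ∈ Finset.univ.erase (Fin.natAdd N i), f' j := by
    refine Finset.prod_congr rfl fun j hj => ?_
    rw [hf', Function.update_of_ne (Finset.ne_of_mem_erase hj)]
  rw [h1, Finset.prod_erase _ (by rw [hf', Function.update_self]), Fin.prod_univ_add]
  congr 1
  · refine Finset.prod_congr rfl fun j _ => ?_
    rw [hf', Function.update_of_ne]
    intro h
    have := congrArg Fin.val h
    simp at this
    omega
  · rw [← Finset.prod_erase (s := Finset.univ) (a := i) (f := fun j => f' (Fin.natAdd N j))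
      (by rw [hf', Function.update_self])]
    refine Finset.prod_congr rfl fun j hj => ?_
    rw [hf', Function.update_of_ne]
    intro h
    exact Finset.ne_of_mem_erase hj (Fin.natAdd_injective _ _ h)

/-- `Π(w) = ∏ (1 - β_i w²)` -/
def PiN (N : ℕ) (w : ℂ) : ℂ := ∏ i : Fin N, (1 - (betaN N i : ℂ) * w ^ 2)

lemma bNc_sq {N : ℕ} (hN : 2 ≤ N) (i : Fin N) : (betaN N i : ℂ) * (bN N i : ℂ) ^ 2 = 1 := by
  have h := bN_sq hN i
  have h0 := (betaN_pos hN i).ne'
  have : betaN N i * bN N i ^ 2 = 1 := by rw [h]; field_simp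
  exact_mod_cast this

lemma factor_eq {N : ℕ} (hN : 2 ≤ N) {i j : Fin N} (hij : j ≠ i) (w : ℂ) :
    (w - (bN N j : ℂ)) * (w + (bN N j : ℂ)) /
      (((bN N i : ℂ) - (bN N j : ℂ)) * ((bN N i : ℂ) + (bN N j : ℂ))) =
    (1 - (betaN N j : ℂ) * w ^ 2) / (1 - (betaN N j : ℂ) / (betaN N i : ℂ)) := by
  have hi := bNc_sq hN i
  have hj := bNc_sq hN j
  have hβi : (betaN N i : ℂ) ≠ 0 := by exact_mod_cast (betaN_pos hN i).ne'
  have hβj : (betaN N j : ℂ) ≠ 0 := by exact_mod_cast (betaN_pos hN j).ne'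
  have hne : (betaN N j : ℂ) ≠ (betaN N i : ℂ) := by
    intro h
    apply hij
    apply betaN_inj hN
    exact_mod_cast h
  have hd2 : (1 - (betaN N j : ℂ) / (betaN N i : ℂ)) ≠ 0 := by
    intro h
    apply hne
    have : (betaN N j : ℂ) / (betaN N i : ℂ) = 1 := by linear_combination -h
    rwa [div_eq_one_iff_eq hβi] at this
  have hbi : (bN N i : ℂ) ^ 2 = 1 / (betaN N i : ℂ) := by
    field_simp; linear_combination hi
  have hbj : (bN N j : ℂ) ^ 2 = 1 / (betaN N j : ℂ) := by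
    field_simp; linear_combination hj
  have e1 : (w - (bN N j : ℂ)) * (w + (bN N j : ℂ)) =
      -(1 / (betaN N j : ℂ)) * (1 - (betaN N j : ℂ) * w ^ 2) := by
    have : (w - (bN N j : ℂ)) * (w + (bN N j : ℂ)) = w ^ 2 - (bN N j : ℂ) ^ 2 := by ring
    rw [this, hbj]; field_simp; ring
  have e2 : ((bN N i : ℂ) - (bN N j : ℂ)) * ((bN N i : ℂ) + (bN N j : ℂ)) =
      -(1 / (betaN N j : ℂ)) * (1 - (betaN N j : ℂ) / (betaN N i : ℂ)) := by
    have : ((bN N i : ℂ) - (bN N j : ℂ)) * ((bN N i : ℂ) + (bN N j : ℂ)) =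
      (bN N i : ℂ) ^ 2 - (bN N j : ℂ) ^ 2 := by ring
    rw [this, hbi, hbj]; field_simp; ring
  rw [e1, e2, mul_div_mul_left]
  rw [neg_ne_zero]
  exact one_div_ne_zero hβj

lemma lag_left {N : ℕ} (hN : 2 ≤ N) (i : Fin N) (w : ℂ) (hw : (bN N i : ℂ) - w ≠ 0) :
    lag (aN N) (Fin.castAdd N i) w = (cN N i : ℂ) * PiN N w * (1 / ((bN N i : ℂ) - w)) := by
  unfold lag
  rw [prod_erase_left]
  have hl : ∀ j : Fin N, aN N (Fin.castAdd N j) = bN N j := fun j => by
    unfold aN; rw [Fin.append_left]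
  have hr : ∀ j : Fin N, aN N (Fin.natAdd N j) = -bN N j := fun j => by
    unfold aN; rw [Fin.append_right]
  simp only [hl, hr]
  have hb : (bN N i : ℂ) ≠ 0 := by exact_mod_cast (bN_pos hN i).ne'
  have hi := bNc_sq hN i
  rw [← Finset.mul_prod_erase Finset.univ
    (fun j => (w - ((-bN N j : ℝ) : ℂ)) / ((bN N i : ℂ) - ((-bN N j : ℝ) : ℂ)))
    (Finset.mem_univ i)]
  have h1 : (∏ j ∈ Finset.univ.erase i, (w - (bN N j : ℂ)) / ((bN N i : ℂ) - (bN N j : ℂ))) *
      ∏ j ∈ Finset.univ.erase i,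
        (w - ((-bN N j : ℝ) : ℂ)) / ((bN N i : ℂ) - ((-bN N j : ℝ) : ℂ)) =
      (∏ j ∈ Finset.univ.erase i, (1 - (betaN N j : ℂ) * w ^ 2)) /
        ∏ j ∈ Finset.univ.erase i, (1 - (betaN N j : ℂ) / (betaN N i : ℂ)) := by
    rw [← Finset.prod_mul_distrib, ← Finset.prod_div_distrib]
    refine Finset.prod_congr rfl fun j hj => ?_
    rw [← factor_eq hN (Finset.ne_of_mem_erase hj), div_mul_div_comm]
    push_cast
    ring
  have h2 : (cN N i : ℂ) = ((bN N i : ℂ) / 2) /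
      ∏ j ∈ Finset.univ.erase i, (1 - (betaN N j : ℂ) / (betaN N i : ℂ)) := by
    unfold cN; push_cast; rfl
  have h3 : PiN N w = (1 - (betaN N i : ℂ) * w ^ 2) *
      ∏ j ∈ Finset.univ.erase i, (1 - (betaN N j : ℂ) * w ^ 2) := by
    unfold PiN
    rw [Finset.mul_prod_erase Finset.univ (fun j => (1 - (betaN N j : ℂ) * w ^ 2))
      (Finset.mem_univ i)]
  rw [h2, h3, mul_left_comm, h1]
  set A := ∏ j ∈ Finset.univ.erase i, (1 - (betaN N j : ℂ) * w ^ 2)
  set B := ∏ j ∈ Finset.univ.erase i, (1 - (betaN N j : ℂ) / (betaN N i : ℂ))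
  have h4 : (w - ((-bN N i : ℝ) : ℂ)) / ((bN N i : ℂ) - ((-bN N i : ℝ) : ℂ)) =
      ((bN N i : ℂ) / 2) * (1 - (betaN N i : ℂ) * w ^ 2) * (1 / ((bN N i : ℂ) - w)) := by
    push_cast
    have h5 : (bN N i : ℂ) - -(bN N i : ℂ) = 2 * (bN N i : ℂ) := by ring
    have h6 : w - -(bN N i : ℂ) = w + (bN N i : ℂ) := by ring
    rw [h5, h6, mul_one_div, div_eq_div_iff (mul_ne_zero two_ne_zero hb) hw]
    linear_combination (w ^ 2) * hi
  rw [h4]
  ring

lemma lag_right {N : ℕ} (hN : 2 ≤ N) (i : Fin N) (w : ℂ) (hw : (bN N i : ℂ) + w ≠ 0) :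
    lag (aN N) (Fin.natAdd N i) w = (cN N i : ℂ) * PiN N w * (1 / ((bN N i : ℂ) + w)) := by
  unfold lag
  rw [prod_erase_right]
  have hl : ∀ j : Fin N, aN N (Fin.castAdd N j) = bN N j := fun j => by
    unfold aN; rw [Fin.append_left]
  have hr : ∀ j : Fin N, aN N (Fin.natAdd N j) = -bN N j := fun j => by
    unfold aN; rw [Fin.append_right]
  simp only [hl, hr]
  have hb : (bN N i : ℂ) ≠ 0 := by exact_mod_cast (bN_pos hN i).ne'
  have hi := bNc_sq hN i
  rw [← Finset.mul_prod_erase Finset.univ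
    (fun j => (w - (bN N j : ℂ)) / (((-bN N i : ℝ) : ℂ) - (bN N j : ℂ)))
    (Finset.mem_univ i)]
  have h1 : (∏ j ∈ Finset.univ.erase i, (w - (bN N j : ℂ)) /
        (((-bN N i : ℝ) : ℂ) - (bN N j : ℂ))) *
      ∏ j ∈ Finset.univ.erase i,
        (w - ((-bN N j : ℝ) : ℂ)) / (((-bN N i : ℝ) : ℂ) - ((-bN N j : ℝ) : ℂ)) =
      (∏ j ∈ Finset.univ.erase i, (1 - (betaN N j : ℂ) * w ^ 2)) /
        ∏ j ∈ Finset.univ.erase i, (1 - (betaN N j : ℂ) / (betaN N i : ℂ)) := by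
    rw [← Finset.prod_mul_distrib, ← Finset.prod_div_distrib]
    refine Finset.prod_congr rfl fun j hj => ?_
    rw [← factor_eq hN (Finset.ne_of_mem_erase hj), div_mul_div_comm]
    push_cast
    congr 1 <;> ring
  have h2 : (cN N i : ℂ) = ((bN N i : ℂ) / 2) /
      ∏ j ∈ Finset.univ.erase i, (1 - (betaN N j : ℂ) / (betaN N i : ℂ)) := by
    unfold cN; push_cast; rfl
  have h3 : PiN N w = (1 - (betaN N i : ℂ) * w ^ 2) *
      ∏ j ∈ Finset.univ.erase i, (1 - (betaN N j : ℂ) * w ^ 2) := by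
    unfold PiN
    rw [Finset.mul_prod_erase Finset.univ (fun j => (1 - (betaN N j : ℂ) * w ^ 2))
      (Finset.mem_univ i)]
  rw [h2, h3, mul_assoc, h1]
  set A := ∏ j ∈ Finset.univ.erase i, (1 - (betaN N j : ℂ) * w ^ 2)
  set B := ∏ j ∈ Finset.univ.erase i, (1 - (betaN N j : ℂ) / (betaN N i : ℂ))
  have h4 : (w - (bN N i : ℂ)) / (((-bN N i : ℝ) : ℂ) - (bN N i : ℂ)) =
      ((bN N i : ℂ) / 2) * (1 - (betaN N i : ℂ) * w ^ 2) * (1 / ((bN N i : ℂ) + w)) := by
    push_cast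
    have h5 : -(bN N i : ℂ) - (bN N i : ℂ) = -2 * (bN N i : ℂ) := by ring
    rw [h5, mul_one_div, div_eq_div_iff (mul_ne_zero (by norm_num) hb) hw]
    linear_combination -(w ^ 2) * hi
  rw [h4]
  ring

/-! ### integrability -/

/-- the Fourier side of `Pn` -/
def Gn (N : ℕ) (τ : ℝ) (u : ℝ) : ℂ :=
  PiN N ((u : ℂ) * Complex.I) * Complex.exp (-(((SN N + τ : ℝ) : ℂ) * (u : ℂ) ^ 2) / 2)

lemma FN_eq (N : ℕ) (τ y u : ℝ) :
    FN N ((u : ℂ) * Complex.I) *
      Complex.exp (-((τ : ℂ) * (u : ℂ) ^ 2) / 2 - (y : ℂ) * ((u : ℂ) * Complex.I)) =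
    Gn N τ u * Complex.exp (-((y * u : ℝ) : ℂ) * Complex.I) := by
  unfold FN Gn PiN
  rw [mul_assoc, mul_assoc, mul_left_comm, ← Complex.exp_add, ← Complex.exp_add]
  congr 2
  have : ((u : ℂ) * Complex.I) ^ 2 = -(u : ℂ) ^ 2 := by
    rw [mul_pow, Complex.I_sq]; ring
  rw [this]
  push_cast
  ring

lemma Gn_cont (N : ℕ) (τ : ℝ) : Continuous (Gn N τ) := by
  unfold Gn PiN
  fun_prop

lemma Gn_int {N : ℕ} {τ : ℝ} (hτ : 0 < SN N + τ) : Integrable (Gn N τ) := by
  set s := SN N + τ with hs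
  set ε := s / (4 * (N + 1)) with hε
  have hε0 : 0 < ε := by positivity
  have hNε : (N : ℝ) * ε ≤ s / 4 := by
    rw [hε]
    rw [mul_div_assoc', div_le_div_iff₀ (by positivity) (by norm_num)]
    nlinarith
  -- bound of each factor
  have hfac : ∀ i : Fin N, ∃ C : ℝ, 0 ≤ C ∧ ∀ u : ℝ,
      ‖(1 : ℂ) - (betaN N i : ℂ) * ((u : ℂ) * Complex.I) ^ 2‖ ≤ C * Real.exp (ε * u ^ 2) := by
    intro i
    refine ⟨1 + |betaN N i| / ε, by positivity, fun u => ?_⟩
    have h1 : ‖(1 : ℂ) - (betaN N i : ℂ) * ((u : ℂ) * Complex.I) ^ 2‖ ≤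
        1 + |betaN N i| * u ^ 2 := by
      refine (norm_sub_le _ _).trans ?_
      rw [norm_one, norm_mul, norm_pow, norm_mul, Complex.norm_I, Complex.norm_real,
        Complex.norm_real, mul_one, Real.norm_eq_abs, Real.norm_eq_abs, sq_abs]
    refine h1.trans ?_
    have h2 : 1 + ε * u ^ 2 ≤ Real.exp (ε * u ^ 2) := by
      have := Real.add_one_le_exp (ε * u ^ 2)
      linarith
    have h3 : 1 + |betaN N i| * u ^ 2 ≤ (1 + |betaN N i| / ε) * (1 + ε * u ^ 2) := by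
      have : |betaN N i| / ε * (ε * u ^ 2) = |betaN N i| * u ^ 2 := by field_simp
      have h4 : 0 ≤ |betaN N i| / ε := by positivity
      have h5 : 0 ≤ ε * u ^ 2 := by positivity
      nlinarith
    refine h3.trans ?_
    exact mul_le_mul_of_nonneg_left h2 (by positivity)
  choose C hC0 hC using hfac
  have hgauss : Integrable (fun u : ℝ => (∏ i, C i) * Real.exp (-(s / 4) * u ^ 2)) :=
    (integrable_exp_neg_mul_sq (by positivity)).const_mul _
  refine hgauss.mono' (Gn_cont N τ).aestronglyMeasurable (Eventually.of_forall fun u => ?_)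
  unfold Gn PiN
  rw [norm_mul, norm_prod]
  have h1 : ∏ i : Fin N, ‖(1 : ℂ) - (betaN N i : ℂ) * ((u : ℂ) * Complex.I) ^ 2‖ ≤
      ∏ i : Fin N, (C i * Real.exp (ε * u ^ 2)) :=
    Finset.prod_le_prod (fun i _ => norm_nonneg _) (fun i _ => hC i u)
  have h2 : ∏ i : Fin N, (C i * Real.exp (ε * u ^ 2)) =
      (∏ i, C i) * Real.exp (N * (ε * u ^ 2)) := by
    rw [Finset.prod_mul_distrib, Finset.prod_const, Finset.card_univ, Fintype.card_fin,
      ← Real.exp_nat_mul]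
  have h3 : ‖Complex.exp (-((s : ℂ) * (u : ℂ) ^ 2) / 2)‖ = Real.exp (-(s * u ^ 2) / 2) := by
    rw [Complex.norm_exp]
    congr 1
    have : (-((s : ℂ) * (u : ℂ) ^ 2) / 2) = ((-(s * u ^ 2) / 2 : ℝ) : ℂ) := by push_cast; ring
    rw [this, Complex.ofReal_re]
  rw [h3]
  have hCp : 0 ≤ ∏ i, C i := Finset.prod_nonneg fun i _ => hC0 i
  calc _ ≤ ((∏ i, C i) * Real.exp (N * (ε * u ^ 2))) * Real.exp (-(s * u ^ 2) / 2) :=
        mul_le_mul_of_nonneg_right (h1.trans h2.le) (Real.exp_pos _).le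
    _ = (∏ i, C i) * Real.exp (N * (ε * u ^ 2) + -(s * u ^ 2) / 2) := by
        rw [mul_assoc, ← Real.exp_add]
    _ ≤ (∏ i, C i) * Real.exp (-(s / 4) * u ^ 2) := by
        refine mul_le_mul_of_nonneg_left (Real.exp_le_exp.mpr ?_) hCp
        nlinarith [mul_le_mul_of_nonneg_right hNε (sq_nonneg u)]

lemma Pn_eq (N : ℕ) (τ y : ℝ) :
    Pn N τ y = ((1 / (2 * Real.pi) : ℂ) * ∫ u : ℝ, Gn N τ u *
      Complex.exp (-((y * u : ℝ) : ℂ) * Complex.I)).re := by
  unfold Pn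
  simp only [FN_eq]

lemma exp_int {b : ℝ} (hb : 0 < b) (v : ℝ) :
    ∫ l in Ioi (0 : ℝ), Complex.exp (-(((b : ℂ) - (v : ℂ) * Complex.I)) * (l : ℂ)) =
      1 / ((b : ℂ) - (v : ℂ) * Complex.I) := by
  have hre : (-((b : ℂ) - (v : ℂ) * Complex.I)).re < 0 := by simp [hb]
  rw [integral_exp_mul_complex_Ioi hre 0]
  simp only [Complex.ofReal_zero, mul_zero, Complex.exp_zero]
  rw [neg_div_neg_eq]

/-- Fubini: multiplication with `1/(b - ηui)` on the Fourier side. -/
lemma fub {g : ℝ → ℂ} (hg : Integrable g) {b : ℝ} (hb : 0 < b) (η : ℝ) :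
    ∫ u : ℝ, g u * (1 / ((b : ℂ) - ((η * u : ℝ) : ℂ) * Complex.I)) =
      ∫ l in Ioi (0 : ℝ), (Real.exp (-(l * b)) : ℂ) *
        ∫ u : ℝ, g u * Complex.exp (((l * (η * u) : ℝ) : ℂ) * Complex.I) := by
  have hexp : Integrable (fun l : ℝ => Real.exp (-(l * b))) (volume.restrict (Ioi (0 : ℝ))) := by
    have := exp_neg_integrableOn_Ioi 0 hb
    refine this.congr (Eventually.of_forall fun l => ?_)
    show Real.exp (-b * l) = Real.exp (-(l * b))
    congr 1; ring
  have hF : Integrable (fun z : ℝ × ℝ => g z.1 * ((Real.exp (-(z.2 * b)) : ℂ)) *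
      Complex.exp (((z.2 * (η * z.1) : ℝ) : ℂ) * Complex.I))
      ((volume : Measure ℝ).prod (volume.restrict (Ioi (0 : ℝ)))) := by
    have h1 : Integrable (fun z : ℝ × ℝ => g z.1 * ((Real.exp (-(z.2 * b)) : ℂ)))
        ((volume : Measure ℝ).prod (volume.restrict (Ioi (0 : ℝ)))) := hg.mul_prod hexp.ofReal
    refine h1.mul_bdd (c := 1) ?_ (Eventually.of_forall fun z => ?_)
    · exact (by fun_prop : Continuous (fun z : ℝ × ℝ =>
        Complex.exp (((z.2 * (η * z.1) : ℝ) : ℂ) * Complex.I))).aestronglyMeasurable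
    · rw [Complex.norm_exp_ofReal_mul_I]
  have hsw := integral_integral_swap (f := fun u l => g u * ((Real.exp (-(l * b)) : ℂ)) *
      Complex.exp (((l * (η * u) : ℝ) : ℂ) * Complex.I)) hF
  have hL : ∀ u : ℝ, ∫ l in Ioi (0 : ℝ), g u * ((Real.exp (-(l * b)) : ℂ)) *
      Complex.exp (((l * (η * u) : ℝ) : ℂ) * Complex.I) =
      g u * (1 / ((b : ℂ) - ((η * u : ℝ) : ℂ) * Complex.I)) := by
    intro u
    rw [← exp_int hb (η * u), ← integral_const_mul]
    refine integral_congr_ae (Eventually.of_forall fun l => ?_)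
    show g u * ((Real.exp (-(l * b)) : ℂ)) *
      Complex.exp (((l * (η * u) : ℝ) : ℂ) * Complex.I) = _
    rw [mul_assoc]
    congr 1
    rw [Complex.ofReal_exp, ← Complex.exp_add]
    congr 1
    push_cast
    ring
  have hR : ∀ l : ℝ, ∫ u : ℝ, g u * ((Real.exp (-(l * b)) : ℂ)) *
      Complex.exp (((l * (η * u) : ℝ) : ℂ) * Complex.I) =
      (Real.exp (-(l * b)) : ℂ) *
        ∫ u : ℝ, g u * Complex.exp (((l * (η * u) : ℝ) : ℂ) * Complex.I) := by
    intro l
    rw [← integral_const_mul]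
    refine integral_congr_ae (Eventually.of_forall fun u => ?_)
    show g u * ((Real.exp (-(l * b)) : ℂ)) *
      Complex.exp (((l * (η * u) : ℝ) : ℂ) * Complex.I) = _
    ring
  simp only [hL, hR] at hsw
  exact hsw

lemma inner_cont {g : ℝ → ℂ} (hg : Integrable g) (η : ℝ) :
    Continuous (fun l : ℝ => ∫ u : ℝ, g u *
      Complex.exp (((l * (η * u) : ℝ) : ℂ) * Complex.I)) := by
  refine continuous_of_dominated (bound := fun u => ‖g u‖) (fun l => ?_) (fun l => ?_)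
    hg.norm ?_
  · exact hg.aestronglyMeasurable.mul
      (by fun_prop : Continuous (fun u : ℝ =>
        Complex.exp (((l * (η * u) : ℝ) : ℂ) * Complex.I))).aestronglyMeasurable
  · refine Eventually.of_forall fun u => ?_
    rw [norm_mul, Complex.norm_exp_ofReal_mul_I, mul_one]
  · exact Eventually.of_forall fun u => by fun_prop

lemma inner_bdd {g : ℝ → ℂ} (η l : ℝ) :
    ‖∫ u : ℝ, g u * Complex.exp (((l * (η * u) : ℝ) : ℂ) * Complex.I)‖ ≤ ∫ u, ‖g u‖ := by
  refine (norm_integral_le_integral_norm _).trans (le_of_eq ?_)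
  congr 1
  funext u
  rw [norm_mul, Complex.norm_exp_ofReal_mul_I, mul_one]

lemma exp_mul_inner_int {g : ℝ → ℂ} (hg : Integrable g) {b : ℝ} (hb : 0 < b) (η : ℝ) :
    Integrable (fun l : ℝ => (Real.exp (-(l * b)) : ℂ) *
        ∫ u : ℝ, g u * Complex.exp (((l * (η * u) : ℝ) : ℂ) * Complex.I))
      (volume.restrict (Ioi (0 : ℝ))) := by
  have hexp : Integrable (fun l : ℝ => Real.exp (-(l * b))) (volume.restrict (Ioi (0 : ℝ))) := by
    have := exp_neg_integrableOn_Ioi 0 hb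
    refine this.congr (Eventually.of_forall fun l => ?_)
    show Real.exp (-b * l) = Real.exp (-(l * b))
    congr 1; ring
  refine hexp.ofReal.mul_bdd (c := ∫ u, ‖g u‖) (inner_cont hg η).aestronglyMeasurable
    (Eventually.of_forall fun l => inner_bdd η l)

/-- General form of both cases. -/
lemma phi_general {N : ℕ} {τ : ℝ} (hτ : 0 < SN N + τ) (c : ℝ) {b : ℝ} (hb : 0 < b)
    (η y : ℝ) :
    ((1 / (2 * Real.pi) : ℂ) * ∫ u : ℝ, ((c : ℂ) * PiN N ((u : ℂ) * Complex.I) *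
        (1 / ((b : ℂ) - ((η * u : ℝ) : ℂ) * Complex.I))) *
      Complex.exp (-(((SN N + τ : ℝ) : ℂ) * (u : ℂ) ^ 2) / 2 -
        (y : ℂ) * ((u : ℂ) * Complex.I))).re =
      c * ∫ l in Ioi (0 : ℝ), Real.exp (-(l * b)) * Pn N τ (y - η * l) := by
  set g : ℝ → ℂ := fun u => Gn N τ u * Complex.exp (-((y * u : ℝ) : ℂ) * Complex.I) with hgdef
  have hg : Integrable g := by
    refine (Gn_int hτ).mul_bdd (c := 1) ?_ (Eventually.of_forall fun u => ?_)
    · exact (by fun_prop : Continuous (fun u : ℝ =>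
        Complex.exp (-((y * u : ℝ) : ℂ) * Complex.I))).aestronglyMeasurable
    · rw [← Complex.ofReal_neg, Complex.norm_exp_ofReal_mul_I]
  have h1 : ∀ u : ℝ, ((c : ℂ) * PiN N ((u : ℂ) * Complex.I) *
        (1 / ((b : ℂ) - ((η * u : ℝ) : ℂ) * Complex.I))) *
      Complex.exp (-(((SN N + τ : ℝ) : ℂ) * (u : ℂ) ^ 2) / 2 -
        (y : ℂ) * ((u : ℂ) * Complex.I)) =
      (c : ℂ) * (g u * (1 / ((b : ℂ) - ((η * u : ℝ) : ℂ) * Complex.I))) := by
    intro u
    simp only [hgdef, Gn]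
    have : Complex.exp (-(((SN N + τ : ℝ) : ℂ) * (u : ℂ) ^ 2) / 2 -
        (y : ℂ) * ((u : ℂ) * Complex.I)) =
        Complex.exp (-(((SN N + τ : ℝ) : ℂ) * (u : ℂ) ^ 2) / 2) *
          Complex.exp (-((y * u : ℝ) : ℂ) * Complex.I) := by
      rw [← Complex.exp_add]
      congr 1
      push_cast
      ring
    rw [this]
    ring
  simp only [h1]
  rw [integral_const_mul, fub hg hb η]
  have h2 : ∀ l : ℝ, (Real.exp (-(l * b)) * Pn N τ (y - η * l) : ℝ) =
      ((1 / (2 * Real.pi) : ℂ) * ((Real.exp (-(l * b)) : ℂ) *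
        ∫ u : ℝ, g u * Complex.exp (((l * (η * u) : ℝ) : ℂ) * Complex.I))).re := by
    intro l
    rw [Pn_eq]
    have h3 : ∀ u : ℝ, Gn N τ u * Complex.exp (-(((y - η * l) * u : ℝ) : ℂ) * Complex.I) =
        g u * Complex.exp (((l * (η * u) : ℝ) : ℂ) * Complex.I) := by
      intro u
      simp only [hgdef]
      rw [mul_assoc, ← Complex.exp_add]
      congr 2
      push_cast
      ring
    simp only [h3]
    rw [mul_left_comm, Complex.re_ofReal_mul]
  simp only [h2]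
  have h5 : ∫ l in Ioi (0 : ℝ), ((1 / (2 * Real.pi) : ℂ) * ((Real.exp (-(l * b)) : ℂ) *
        ∫ u : ℝ, g u * Complex.exp (((l * (η * u) : ℝ) : ℂ) * Complex.I))).re =
      (∫ l in Ioi (0 : ℝ), ((1 / (2 * Real.pi) : ℂ) * ((Real.exp (-(l * b)) : ℂ) *
        ∫ u : ℝ, g u * Complex.exp (((l * (η * u) : ℝ) : ℂ) * Complex.I)))).re :=
    integral_re ((exp_mul_inner_int hg hb η).const_mul _)
  rw [h5, integral_const_mul, mul_left_comm, Complex.re_ofReal_mul]

lemma phi_left {N : ℕ} (hN : 2 ≤ N) {τ : ℝ} (hτ : 0 < SN N + τ) (i : Fin N) (y : ℝ) :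
    phi (aN N) (SN N + τ) (Fin.castAdd N i) y =
      cN N i * ∫ l in Ioi (0 : ℝ), Real.exp (-(l * bN N i)) * Pn N τ (y - l) := by
  have hb := bN_pos hN i
  have h := phi_general hτ (cN N i) hb 1 y
  simp only [one_mul] at h
  rw [← h]
  unfold phi
  congr 2
  refine integral_congr_ae (Eventually.of_forall fun u => ?_)
  show lag (aN N) (Fin.castAdd N i) ((u : ℂ) * Complex.I) * _ = _
  rw [lag_left hN i _ ?_]
  intro h0
  have := congrArg Complex.re h0
  simp at this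
  exact hb.ne' this

lemma phi_right {N : ℕ} (hN : 2 ≤ N) {τ : ℝ} (hτ : 0 < SN N + τ) (i : Fin N) (y : ℝ) :
    phi (aN N) (SN N + τ) (Fin.natAdd N i) y =
      cN N i * ∫ l in Ioi (0 : ℝ), Real.exp (-(l * bN N i)) * Pn N τ (y + l) := by
  have hb := bN_pos hN i
  have h := phi_general hτ (cN N i) hb (-1) y
  have e1 : ∀ l : ℝ, y - -1 * l = y + l := fun l => by ring
  simp only [e1] at h
  rw [← h]
  unfold phi
  congr 2
  refine integral_congr_ae (Eventually.of_forall fun u => ?_)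
  show lag (aN N) (Fin.natAdd N i) ((u : ℂ) * Complex.I) * _ = _
  rw [lag_right hN i _ ?_]
  · congr 3
    push_cast
    ring
  intro h0
  have := congrArg Complex.re h0
  simp at this
  exact hb.ne' this

lemma Pn_cont {N : ℕ} {τ : ℝ} (hτ : 0 < SN N + τ) : Continuous (Pn N τ) := by
  have h := inner_cont (Gn_int hτ) (-1)
  have h2 : Pn N τ = fun y => ((1 / (2 * Real.pi) : ℂ) * ∫ u : ℝ, Gn N τ u *
      Complex.exp (((y * (-1 * u) : ℝ) : ℂ) * Complex.I)).re := by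
    funext y
    rw [Pn_eq]
    congr 2
    refine integral_congr_ae (Eventually.of_forall fun u => ?_)
    show Gn N τ u * Complex.exp (-((y * u : ℝ) : ℂ) * Complex.I) =
      Gn N τ u * Complex.exp (((y * (-1 * u) : ℝ) : ℂ) * Complex.I)
    congr 2
    push_cast
    ring
  rw [h2]
  exact Complex.continuous_re.comp (continuous_const.mul h)

lemma Pn_bdd {N : ℕ} {τ : ℝ} : ∃ C, ∀ y, ‖Pn N τ y‖ ≤ C := by
  refine ⟨‖(1 / (2 * Real.pi) : ℂ)‖ * ∫ u, ‖Gn N τ u‖, fun y => ?_⟩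
  rw [Pn_eq]
  refine (Complex.abs_re_le_norm _).trans ?_
  rw [norm_mul]
  refine mul_le_mul_of_nonneg_left ?_ (norm_nonneg _)
  refine (norm_integral_le_integral_norm _).trans (le_of_eq ?_)
  congr 1
  funext u
  rw [norm_mul, ← Complex.ofReal_neg, Complex.norm_exp_ofReal_mul_I, mul_one]

lemma exp_Pn_int {N : ℕ} {τ : ℝ} (hτ : 0 < SN N + τ) {b : ℝ} (hb : 0 < b)
    {f : ℝ → ℝ} (hf : Continuous f) :
    Integrable (fun l : ℝ => Real.exp (-(l * b)) * Pn N τ (f l))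
      (volume.restrict (Ioi (0 : ℝ))) := by
  have hexp : Integrable (fun l : ℝ => Real.exp (-(l * b))) (volume.restrict (Ioi (0 : ℝ))) := by
    have := exp_neg_integrableOn_Ioi 0 hb
    refine this.congr (Eventually.of_forall fun l => ?_)
    show Real.exp (-b * l) = Real.exp (-(l * b))
    congr 1; ring
  obtain ⟨C, hC⟩ := Pn_bdd (N := N) (τ := τ)
  exact hexp.mul_bdd (c := C) ((Pn_cont hτ).comp hf).aestronglyMeasurable
    (Eventually.of_forall fun l => hC _)

/-- one half of the kernel -/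
lemma half {N : ℕ} (hN : 2 ≤ N) {σ τ : ℝ} (hτ : 0 < SN N + τ) (x : ℝ)
    {f : ℝ → ℝ} (hf : Continuous f) :
    ∑ i : Fin N, Real.exp (bN N i * x - (bN N i) ^ 2 * (SN N + σ) / 2) *
      (cN N i * ∫ l in Ioi (0 : ℝ), Real.exp (-(l * bN N i)) * Pn N τ (f l)) =
    ∫ l in Ioi (0 : ℝ), Qn N σ (x - l) * Pn N τ (f l) := by
  simp only [Qn_eq, Finset.sum_mul]
  rw [integral_finsetSum]
  · refine Finset.sum_congr rfl fun i _ => ?_
    rw [← mul_assoc, ← integral_const_mul]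
    refine integral_congr_ae (Eventually.of_forall fun l => ?_)
    show _ = cN N i * Real.exp (bN N i * (x - l) - (bN N i) ^ 2 * (SN N + σ) / 2) * Pn N τ (f l)
    have : Real.exp (bN N i * (x - l) - (bN N i) ^ 2 * (SN N + σ) / 2) =
        Real.exp (bN N i * x - (bN N i) ^ 2 * (SN N + σ) / 2) * Real.exp (-(l * bN N i)) := by
      rw [← Real.exp_add]; congr 1; ring
    rw [this]
    ring
  · intro i _
    refine ((exp_Pn_int hτ (bN_pos hN i) hf).const_mul
      (cN N i * Real.exp (bN N i * x - (bN N i) ^ 2 * (SN N + σ) / 2))).congr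
      (Eventually.of_forall fun l => ?_)
    show (cN N i * Real.exp (bN N i * x - (bN N i) ^ 2 * (SN N + σ) / 2)) *
      (Real.exp (-(l * bN N i)) * Pn N τ (f l)) =
      cN N i * Real.exp (bN N i * (x - l) - (bN N i) ^ 2 * (SN N + σ) / 2) * Pn N τ (f l)
    have : Real.exp (bN N i * (x - l) - (bN N i) ^ 2 * (SN N + σ) / 2) =
        Real.exp (bN N i * x - (bN N i) ^ 2 * (SN N + σ) / 2) * Real.exp (-(l * bN N i)) := by
      rw [← Real.exp_add]; congr 1; ring
    rw [this]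
    ring

end KnL

open KnL

theorem Pn_even {N : ℕ} (τ y : ℝ) : Pn N τ (-y) = Pn N τ y := by
  unfold Pn
  congr 2
  rw [← integral_neg_eq_self]
  refine integral_congr_ae (Eventually.of_forall fun u => ?_)
  show FN N (((-u : ℝ) : ℂ) * Complex.I) * _ = FN N ((u : ℂ) * Complex.I) * _
  have h1 : FN N (((-u : ℝ) : ℂ) * Complex.I) = FN N ((u : ℂ) * Complex.I) := by
    unfold FN
    have : (((-u : ℝ) : ℂ) * Complex.I) ^ 2 = ((u : ℂ) * Complex.I) ^ 2 := by push_cast; ring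
    rw [this]
  rw [h1]
  congr 2
  push_cast
  ring

theorem Kn_lambda {N : ℕ} (hN : 2 ≤ N) {σ τ : ℝ} (_hσ : 0 < SN N + σ) (hτ : 0 < SN N + τ)
    (x y : ℝ) :
    Kn N σ x τ y = (∫ l in Ioi (0 : ℝ), Qn N σ (x - l) * Pn N τ (y - l)) +
      ∫ l in Ioi (0 : ℝ), Qn N σ (-x - l) * Pn N τ (-y - l) := by
  unfold Kn Kfin
  rw [Fin.sum_univ_add]
  congr 1
  · rw [← half hN hτ x (by fun_prop : Continuous fun l : ℝ => y - l)]
    refine Finset.sum_congr rfl fun i _ => ?_
    rw [phi_left hN hτ]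
    unfold psi aN
    rw [Fin.append_left]
  · rw [← half hN hτ (-x) (by fun_prop : Continuous fun l : ℝ => -y - l)]
    refine Finset.sum_congr rfl fun i _ => ?_
    rw [phi_right hN hτ]
    unfold psi aN
    rw [Fin.append_right]
    have h1 : ∀ l : ℝ, Pn N τ (-y - l) = Pn N τ (y + l) := fun l => by
      rw [← Pn_even τ (y + l)]; congr 1; ring
    simp only [h1]
    congr 2
    ring

theorem Kn_symm {N : ℕ} (hN : 2 ≤ N) {σ τ : ℝ} (hσ : 0 < SN N + σ) (hτ : 0 < SN N + τ)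
    (x y : ℝ) : Kn N σ (-x) τ (-y) = Kn N σ x τ y := by
  rw [Kn_lambda hN hσ hτ, Kn_lambda hN hσ hτ, add_comm]
  simp only [neg_neg]

end Pool.Agent.H.MP_5ad92a_pr
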