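import Pool.Agent.H.MP_5ad92a_pr.Defs

/-!
Rotation of ray integrals and shift of vertical line integrals.
-/

set_option autoImplicit false

open MeasureTheory Filter Topology Set

namespace Pool.Agent.H.MP_5ad92a_pr

theorem strip_shift (F : ℂ → ℂ) (a b : ℝ) (hab : a ≤ b)
    (hF : ∀ v : ℝ, ∀ α ∈ Icc a b, DifferentiableAt ℂ F ((v : ℂ) + (α : ℂ) * Complex.I))
    (G : ℝ → ℝ) (hG : ∀ v : ℝ, ∀ α ∈ Icc a b, ‖F ((v : ℂ) + (α : ℂ) * Complex.I)‖ ≤ G v)
    (hint : Integrable G) (h1 : Tendsto G atTop (𝓝 0)) (h2 : Tendsto G atBot (𝓝 0)) :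
    ∫ v : ℝ, F ((v : ℂ) + (a : ℂ) * Complex.I) = ∫ v : ℝ, F ((v : ℂ) + (b : ℂ) * Complex.I) := by
  have hintl : ∀ α ∈ Icc a b, Integrable (fun v : ℝ => F ((v : ℂ) + (α : ℂ) * Complex.I)) := by
    intro α hα
    refine Integrable.mono' hint ?_ (Eventually.of_forall fun v => hG v α hα)
    refine Continuous.aestronglyMeasurable ?_
    refine continuous_iff_continuousAt.mpr fun v => ?_
    have h := (hF v α hα).continuousAt
    exact ContinuousAt.comp (f := fun v : ℝ => (v : ℂ) + (α : ℂ) * Complex.I) h (by fun_prop)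
  have ha : a ∈ Icc a b := ⟨le_rfl, hab⟩
  have hb : b ∈ Icc a b := ⟨hab, le_rfl⟩
  have hA := intervalIntegral_tendsto_integral (hintl a ha) tendsto_neg_atTop_atBot tendsto_id
  have hB := intervalIntegral_tendsto_integral (hintl b hb) tendsto_neg_atTop_atBot tendsto_id
  have hC : Tendsto (fun T : ℝ => Complex.I •
      (∫ y in a..b, F ((T : ℂ) + (y : ℂ) * Complex.I))) atTop (𝓝 0) := by
    rw [← smul_zero Complex.I]
    refine Tendsto.const_smul ?_ _
    refine squeeze_zero_norm (a := fun T => G T * |b - a|) (fun T => ?_) ?_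
    · refine intervalIntegral.norm_integral_le_of_norm_le_const fun y hy => hG T y ?_
      rw [uIoc_of_le hab] at hy
      exact ⟨hy.1.le, hy.2⟩
    · simpa using h1.mul_const (|b - a|)
  have hD : Tendsto (fun T : ℝ => Complex.I •
      (∫ y in a..b, F (((-T : ℝ) : ℂ) + (y : ℂ) * Complex.I))) atTop (𝓝 0) := by
    rw [← smul_zero Complex.I]
    refine Tendsto.const_smul ?_ _
    refine squeeze_zero_norm (a := fun T => G (-T) * |b - a|) (fun T => ?_) ?_
    · refine intervalIntegral.norm_integral_le_of_norm_le_const fun y hy => hG (-T) y ?_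
      rw [uIoc_of_le hab] at hy
      exact ⟨hy.1.le, hy.2⟩
    · simpa using (h2.comp tendsto_neg_atTop_atBot).mul_const (|b - a|)
  have hsum := ((hA.sub hB).add hC).sub hD
  have hzero : ∀ T : ℝ, (((∫ v in (-T)..(id T), F ((v : ℂ) + (a : ℂ) * Complex.I)) -
      (∫ v in (-T)..(id T), F ((v : ℂ) + (b : ℂ) * Complex.I))) + Complex.I •
      (∫ y in a..b, F ((T : ℂ) + (y : ℂ) * Complex.I))) - Complex.I •
      (∫ y in a..b, F (((-T : ℝ) : ℂ) + (y : ℂ) * Complex.I)) = 0 := by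
    intro T
    have h := Complex.integral_boundary_rect_eq_zero_of_differentiableOn F
      (⟨-T, a⟩ : ℂ) (⟨T, b⟩ : ℂ) ?_
    · simpa using h
    · intro ζ hζ
      have h2 := hζ.2
      simp only [mem_preimage, uIcc_of_le hab] at h2
      have h3 := hF ζ.re ζ.im h2
      rw [Complex.re_add_im] at h3
      exact h3.differentiableWithinAt
  have hlim : (∫ v : ℝ, F ((v : ℂ) + (a : ℂ) * Complex.I)) -
      (∫ v : ℝ, F ((v : ℂ) + (b : ℂ) * Complex.I)) + 0 - 0 = 0 := by
    refine tendsto_nhds_unique hsum ?_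
    exact (tendsto_congr hzero).mpr tendsto_const_nhds
  rw [add_zero, sub_zero] at hlim
  exact sub_eq_zero.mp hlim

theorem line_shift (f : ℂ → ℂ) (c₁ c₂ : ℝ) (h12 : c₁ ≤ c₂)
    (hf : ∀ c ∈ Icc c₁ c₂, ∀ u : ℝ, DifferentiableAt ℂ f ((c : ℂ) + (u : ℂ) * Complex.I))
    (g : ℝ → ℝ) (hg : ∀ c ∈ Icc c₁ c₂, ∀ u : ℝ, ‖f ((c : ℂ) + (u : ℂ) * Complex.I)‖ ≤ g u)
    (hint : Integrable g) (h1 : Tendsto g atTop (𝓝 0)) (h2 : Tendsto g atBot (𝓝 0)) :
    ∫ u : ℝ, f ((c₁ : ℂ) + (u : ℂ) * Complex.I) = ∫ u : ℝ, f ((c₂ : ℂ) + (u : ℂ) * Complex.I) := by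
  have key : ∀ v α : ℝ, Complex.I * ((v : ℂ) + (α : ℂ) * Complex.I) =
      ((-α : ℝ) : ℂ) + (v : ℂ) * Complex.I := by
    intro v α
    push_cast
    linear_combination (α : ℂ) * Complex.I_mul_I
  have h := strip_shift (fun ζ => f (Complex.I * ζ)) (-c₂) (-c₁) (by linarith) ?_ g ?_ hint h1 h2
  · simp only [key, neg_neg] at h
    exact h.symm
  · intro v α hα
    have hc : -α ∈ Icc c₁ c₂ := ⟨by linarith [hα.2], by linarith [hα.1]⟩
    have h3 := hf (-α) hc v
    rw [← key] at h3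
    exact h3.comp _ (by fun_prop)
  · intro v α hα
    have hc : -α ∈ Icc c₁ c₂ := ⟨by linarith [hα.2], by linarith [hα.1]⟩
    rw [key]
    exact hg (-α) hc v

theorem integral_exp_subst (h : ℝ → ℂ) :
    ∫ v : ℝ, ((Real.exp v : ℝ) : ℂ) * h (Real.exp v) = ∫ r in Ioi (0 : ℝ), h r := by
  have := integral_image_eq_integral_abs_deriv_smul (s := (univ : Set ℝ)) (f := Real.exp)
    (f' := Real.exp) MeasurableSet.univ
    (fun x _ => (Real.hasDerivAt_exp x).hasDerivWithinAt) Real.exp_injective.injOn h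
  rw [image_univ, Real.range_exp] at this
  rw [this, setIntegral_univ]
  refine integral_congr_ae (Eventually.of_forall fun v => ?_)
  simp only [abs_of_pos (Real.exp_pos v), Complex.real_smul]

theorem integrable_exp_subst (h : ℝ → ℝ) (hh : IntegrableOn h (Ioi 0)) :
    Integrable (fun v : ℝ => Real.exp v * h (Real.exp v)) := by
  have := integrableOn_image_iff_integrableOn_abs_deriv_smul (s := (univ : Set ℝ)) (f := Real.exp)
    (f' := Real.exp) MeasurableSet.univ
    (fun x _ => (Real.hasDerivAt_exp x).hasDerivWithinAt) Real.exp_injective.injOn h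
  rw [image_univ, Real.range_exp] at this
  have h2 := this.mp hh
  rw [integrableOn_univ] at h2
  refine h2.congr (Eventually.of_forall fun v => ?_)
  simp only [abs_of_pos (Real.exp_pos v), smul_eq_mul]

theorem ray_rotate (f : ℂ → ℂ) (α₁ α₂ : ℝ) (h12 : α₁ ≤ α₂)
    (hf : ∀ r : ℝ, 0 < r → ∀ α ∈ Icc α₁ α₂, DifferentiableAt ℂ f ((r : ℂ) * cis α))
    (g : ℝ → ℝ) (hg : ∀ r : ℝ, 0 < r → ∀ α ∈ Icc α₁ α₂, ‖f ((r : ℂ) * cis α)‖ ≤ g r)
    (hint : IntegrableOn g (Ioi 0))
    (h0 : Tendsto (fun r => r * g r) (𝓝[>] 0) (𝓝 0))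
    (h1 : Tendsto (fun r => r * g r) atTop (𝓝 0)) :
    ray f (cis α₁) = ray f (cis α₂) := by
  have key : ∀ v α : ℝ, Complex.exp ((v : ℂ) + (α : ℂ) * Complex.I) =
      ((Real.exp v : ℝ) : ℂ) * cis α := by
    intro v α
    rw [Complex.exp_add, cis, Complex.ofReal_exp]
  have hnorm : ∀ α : ℝ, ‖cis α‖ = 1 := by
    intro α
    rw [cis, Complex.norm_exp_ofReal_mul_I]
  have h := strip_shift (fun ζ => f (Complex.exp ζ) * Complex.exp ζ) α₁ α₂ h12 ?_
    (fun v => Real.exp v * g (Real.exp v)) ?_ (integrable_exp_subst g hint) ?_ ?_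
  · simp only [key] at h
    have e : ∀ α : ℝ, (∫ v : ℝ, f (((Real.exp v : ℝ) : ℂ) * cis α) *
        (((Real.exp v : ℝ) : ℂ) * cis α)) = ray f (cis α) := by
      intro α
      rw [ray, ← integral_exp_subst]
      refine integral_congr_ae (Eventually.of_forall fun v => ?_)
      simp only
      ring
    rw [e, e] at h
    exact h
  · intro v α hα
    have h3 := hf (Real.exp v) (Real.exp_pos v) α hα
    rw [← key] at h3
    exact (h3.comp _ (Complex.differentiable_exp _)).mul (Complex.differentiable_exp _)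
  · intro v α hα
    simp only [key]
    rw [norm_mul, norm_mul, hnorm, mul_one, Complex.norm_real, Real.norm_eq_abs,
      abs_of_pos (Real.exp_pos v), mul_comm]
    exact mul_le_mul_of_nonneg_left (hg _ (Real.exp_pos v) α hα) (Real.exp_pos v).le
  · exact h1.comp Real.tendsto_exp_atTop
  · refine h0.comp ?_
    exact Real.tendsto_exp_atBot_nhdsGT

end Pool.Agent.H.MP_5ad92a_pr
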