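import Pool.Agent.H.MP_5ad92a_pr.Defs
import Pool.Agent.H.MP_5ad92a_pr.Contour

/-!
# Contour form of `Qn`
-/

set_option autoImplicit false

noncomputable section

open MeasureTheory Filter Topology Set

namespace Pool.Agent.H.MP_5ad92a_pr

namespace QnC

theorem cis_zero : cis 0 = 1 := by simp [cis]

theorem cis_pi_div_two : cis (Real.pi / 2) = Complex.I := by
  unfold cis
  rw [show (((Real.pi / 2 : ℝ) : ℂ)) = (Real.pi : ℂ) / 2 by push_cast; ring]
  rw [Complex.exp_mul_I, Complex.cos_pi_div_two, Complex.sin_pi_div_two]; simp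

theorem norm_cis (α : ℝ) : ‖cis α‖ = 1 := by
  unfold cis; exact Complex.norm_exp_ofReal_mul_I α

theorem cis_sq (α : ℝ) : cis α ^ 2 = cis (2 * α) := by
  unfold cis
  rw [← Complex.exp_nat_mul]
  congr 1; push_cast; ring

theorem cis_re (α : ℝ) : (cis α).re = Real.cos α := by
  unfold cis; exact Complex.exp_ofReal_mul_I_re α

theorem cis_im (α : ℝ) : (cis α).im = Real.sin α := by
  unfold cis; exact Complex.exp_ofReal_mul_I_im α

theorem cis_ne_zero (α : ℝ) : cis α ≠ 0 := Complex.exp_ne_zero _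

/-- `ray_rotate` with a Cauchy type bound. -/
theorem ray_rotate' (f : ℂ → ℂ) (α₁ α₂ : ℝ) (h12 : α₁ ≤ α₂)
    (hf : ∀ r : ℝ, 0 < r → ∀ α ∈ Icc α₁ α₂, DifferentiableAt ℂ f ((r : ℂ) * cis α))
    (K : ℝ) (hg : ∀ r : ℝ, 0 < r → ∀ α ∈ Icc α₁ α₂,
      ‖f ((r : ℂ) * cis α)‖ ≤ K * (1 + r ^ 2)⁻¹) :
    ray f (cis α₁) = ray f (cis α₂) := by
  refine ray_rotate f α₁ α₂ h12 hf (fun r => K * (1 + r ^ 2)⁻¹) hg ?_ ?_ ?_
  · exact (integrable_inv_one_add_sq.const_mul K).integrableOn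
  · have hc : Continuous fun r : ℝ => r * (K * (1 + r ^ 2)⁻¹) := by
      refine continuous_id.mul (continuous_const.mul (Continuous.inv₀ (by fun_prop) ?_))
      intro r; positivity
    have := (hc.tendsto 0).mono_left (nhdsWithin_le_nhds (s := Ioi (0 : ℝ)))
    simpa using this
  · have h2 : Tendsto (fun r : ℝ => |K| * r⁻¹) atTop (𝓝 0) := by
      simpa using tendsto_inv_atTop_zero.const_mul |K|
    refine squeeze_zero_norm' ?_ h2
    filter_upwards [eventually_gt_atTop (0 : ℝ)] with r hr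
    rw [norm_mul, norm_mul, Real.norm_eq_abs, Real.norm_eq_abs, Real.norm_eq_abs, abs_of_pos hr,
      abs_of_pos (by positivity : (0 : ℝ) < (1 + r ^ 2)⁻¹)]
    have : r * (1 + r ^ 2)⁻¹ ≤ r⁻¹ := by
      rw [← div_eq_mul_inv, div_le_iff₀ (by positivity)]
      rw [mul_add, mul_one, pow_two, ← mul_assoc, inv_mul_cancel₀ hr.ne', one_mul]
      have : 0 < r⁻¹ := by positivity
      linarith
    calc r * (|K| * (1 + r ^ 2)⁻¹) = |K| * (r * (1 + r ^ 2)⁻¹) := by ring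
      _ ≤ |K| * r⁻¹ := mul_le_mul_of_nonneg_left this (abs_nonneg K)

/-- lower bound for `|b^2 - z^2|` outside a small sector -/
theorem norm_sub_sq_ge {b r α : ℝ} (hα : Real.cos (2 * α) ≤ 1 / 2) :
    (b ^ 2 + r ^ 2) / 2 ≤ ‖(b : ℂ) ^ 2 - ((r : ℂ) * cis α) ^ 2‖ := by
  have h1 : ‖(b : ℂ) ^ 2 - ((r : ℂ) * cis α) ^ 2‖ ^ 2 =
      b ^ 4 + r ^ 4 - 2 * b ^ 2 * r ^ 2 * Real.cos (2 * α) := by
    rw [mul_pow, cis_sq, ← Complex.normSq_eq_norm_sq, Complex.normSq_apply]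
    have e1 : ((b : ℂ) ^ 2 - (r : ℂ) ^ 2 * cis (2 * α)).re = b ^ 2 - r ^ 2 * Real.cos (2 * α) := by
      rw [← Complex.ofReal_pow, ← Complex.ofReal_pow, Complex.sub_re, Complex.re_ofReal_mul,
        cis_re, Complex.ofReal_re]
    have e2 : ((b : ℂ) ^ 2 - (r : ℂ) ^ 2 * cis (2 * α)).im = - (r ^ 2 * Real.sin (2 * α)) := by
      rw [← Complex.ofReal_pow, ← Complex.ofReal_pow, Complex.sub_im, Complex.im_ofReal_mul,
        cis_im, Complex.ofReal_im]; ring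
    rw [e1, e2]
    linear_combination r ^ 4 * Real.sin_sq_add_cos_sq (2 * α)
  have h2 : ((b ^ 2 + r ^ 2) / 2) ^ 2 ≤ ‖(b : ℂ) ^ 2 - ((r : ℂ) * cis α) ^ 2‖ ^ 2 := by
    rw [h1]
    have : 2 * b ^ 2 * r ^ 2 * Real.cos (2 * α) ≤ b ^ 2 * r ^ 2 := by
      have : 0 ≤ b ^ 2 * r ^ 2 := by positivity
      nlinarith
    nlinarith [sq_nonneg (b ^ 2 - r ^ 2)]
  exact le_of_sq_le_sq h2 (norm_nonneg _)

theorem cos_two_mul_le {α : ℝ} (h : α ∈ Icc (Real.pi / 6) (Real.pi / 2)) :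
    Real.cos (2 * α) ≤ 1 / 2 := by
  rw [← Real.cos_pi_div_three]
  apply Real.cos_le_cos_of_nonneg_of_le_pi
  · positivity
  · linarith [h.2]
  · linarith [h.1]

theorem ray_lorentz {b : ℝ} (hb : 0 < b) :
    ray (fun z => (b : ℂ) ^ 2 / ((b : ℂ) ^ 2 - z ^ 2)) (cis (Real.pi / 6)) =
      ((b * (Real.pi / 2) : ℝ) : ℂ) * Complex.I := by
  have hne : ∀ r : ℝ, 0 < r → ∀ α ∈ Icc (Real.pi / 6) (Real.pi / 2),
      (b : ℂ) ^ 2 - ((r : ℂ) * cis α) ^ 2 ≠ 0 := by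
    intro r hr α hα h
    have := norm_sub_sq_ge (b := b) (r := r) (cos_two_mul_le hα)
    rw [h, norm_zero] at this
    nlinarith [sq_nonneg b]
  rw [ray_rotate' (fun z => (b : ℂ) ^ 2 / ((b : ℂ) ^ 2 - z ^ 2)) (Real.pi / 6) (Real.pi / 2)
    (by linarith [Real.pi_pos]) ?_ (2 * b ^ 2 * (1 + 1 / b ^ 2)) ?_]
  · rw [cis_pi_div_two]
    unfold ray
    have h1 : ∀ r : ℝ, (b : ℂ) ^ 2 / ((b : ℂ) ^ 2 - ((r : ℂ) * Complex.I) ^ 2) * Complex.I =
        ((((1 + (b⁻¹ * r) ^ 2)⁻¹ : ℝ)) : ℂ) * Complex.I := by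
      intro r
      congr 1
      have hb' : (b : ℂ) ≠ 0 := by exact_mod_cast hb.ne'
      push_cast
      rw [mul_pow, Complex.I_sq, mul_pow, inv_pow]
      have h3 : (b : ℂ) ^ 2 + (r : ℂ) ^ 2 ≠ 0 := by
        have : (0 : ℝ) < b ^ 2 + r ^ 2 := by positivity
        exact_mod_cast this.ne'
      have h4 : (1 : ℂ) + ((b : ℂ) ^ 2)⁻¹ * (r : ℂ) ^ 2 = ((b : ℂ) ^ 2 + (r : ℂ) ^ 2) / (b : ℂ) ^ 2 := by
        field_simp
      rw [h4, inv_div]
      congr 1; ring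
    simp_rw [h1]
    rw [integral_mul_const, integral_complex_ofReal]
    congr 2
    have h5 := integral_comp_mul_left_Ioi (fun y : ℝ => (1 + y ^ 2)⁻¹) 0 (b := b⁻¹) (by positivity)
    rw [h5]
    rw [mul_zero, integral_Ioi_inv_one_add_sq, Real.arctan_zero, sub_zero, inv_inv, smul_eq_mul]
  · intro r hr α hα
    have := hne r hr α hα
    fun_prop (disch := assumption)
  · intro r hr α hα
    have h1 := norm_sub_sq_ge (b := b) (r := r) (cos_two_mul_le hα)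
    rw [norm_div, norm_pow, Complex.norm_real, Real.norm_of_nonneg hb.le]
    have h2 : 0 < (b ^ 2 + r ^ 2) / 2 := by positivity
    calc b ^ 2 / ‖(b : ℂ) ^ 2 - ((r : ℂ) * cis α) ^ 2‖ ≤ b ^ 2 / ((b ^ 2 + r ^ 2) / 2) :=
          div_le_div_of_nonneg_left (by positivity) h2 h1
      _ ≤ 2 * b ^ 2 * (1 + 1 / b ^ 2) * (1 + r ^ 2)⁻¹ := by
          rw [← div_eq_mul_inv, div_le_div_iff₀ h2 (by positivity)]
          have h3 : 2 * b ^ 2 * (1 + 1 / b ^ 2) = 2 * b ^ 2 + 2 := by field_simp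
          rw [h3]
          nlinarith [sq_nonneg b, sq_nonneg r, sq_nonneg (b * r), sq_nonneg (b ^ 2)]

/-- the entire function `exp (x z - s z^2 / 2)` -/
def EE (s x : ℝ) (z : ℂ) : ℂ := Complex.exp ((x : ℂ) * z - (s : ℂ) * z ^ 2 / 2)

theorem EE_differentiable (s x : ℝ) : Differentiable ℂ (EE s x) := by
  unfold EE; fun_prop

theorem EE_ofReal (s x r : ℝ) : EE s x (r : ℂ) = ((Real.exp (x * r - s * r ^ 2 / 2) : ℝ) : ℂ) := by
  unfold EE; push_cast; rfl

theorem norm_EE_le {s : ℝ} (hs : 0 < s) (x : ℝ) {r α : ℝ} (hr : 0 ≤ r)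
    (hα : 1 / 2 ≤ Real.cos (2 * α)) : ‖EE s x ((r : ℂ) * cis α)‖ ≤ Real.exp (|x| * r - s * r ^ 2 / 4) := by
  unfold EE
  rw [Complex.norm_exp]
  apply Real.exp_le_exp.mpr
  have e : ((x : ℂ) * ((r : ℂ) * cis α) - (s : ℂ) * ((r : ℂ) * cis α) ^ 2 / 2).re =
      x * (r * Real.cos α) - s * r ^ 2 * Real.cos (2 * α) / 2 := by
    rw [mul_pow, cis_sq]
    have : (s : ℂ) * ((r : ℂ) ^ 2 * cis (2 * α)) / 2 = ((s * r ^ 2 / 2 : ℝ) : ℂ) * cis (2 * α) := by
      push_cast; ring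
    rw [this, Complex.sub_re, Complex.re_ofReal_mul, Complex.re_ofReal_mul, Complex.re_ofReal_mul,
      cis_re, cis_re]
    ring
  rw [e]
  have h1 : x * (r * Real.cos α) ≤ |x| * r := by
    have : |x * (r * Real.cos α)| ≤ |x| * r := by
      rw [abs_mul, abs_mul, abs_of_nonneg hr]
      have := Real.abs_cos_le_one α
      calc |x| * (r * |Real.cos α|) ≤ |x| * (r * 1) := by gcongr
        _ = |x| * r := by ring
    exact le_trans (le_abs_self _) this
  have h2 : s * r ^ 2 / 4 ≤ s * r ^ 2 * Real.cos (2 * α) / 2 := by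
    have : 0 ≤ s * r ^ 2 := by positivity
    nlinarith
  linarith

theorem norm_EE_le' {s : ℝ} (hs : 0 < s) (x : ℝ) {r α : ℝ} (hr : 0 ≤ r)
    (hα : 1 / 2 ≤ Real.cos (2 * α)) : ‖EE s x ((r : ℂ) * cis α)‖ ≤ Real.exp (x ^ 2 / s) := by
  refine le_trans (norm_EE_le hs x hr hα) (Real.exp_le_exp.mpr ?_)
  rw [le_div_iff₀ hs]
  nlinarith [sq_nonneg (|x| - s * r / 2), sq_abs x]

theorem half_le_cos {α : ℝ} (h : α ∈ Icc (0 : ℝ) (Real.pi / 6)) : 1 / 2 ≤ Real.cos (2 * α) := by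
  rw [← Real.cos_pi_div_three]
  apply Real.cos_le_cos_of_nonneg_of_le_pi
  · linarith [h.1]
  · linarith [Real.pi_pos]
  · linarith [h.2]

/-- the regularised integrand -/
def RR (s x b : ℝ) (z : ℂ) : ℂ := -((b : ℂ) ^ 2 / (z + b)) * dslope (EE s x) (b : ℂ) z

theorem RR_eq {s x b : ℝ} {z : ℂ} (hz : z ≠ b) (hz' : z + b ≠ 0) :
    RR s x b z = (EE s x z - EE s x b) * ((b : ℂ) ^ 2 / ((b : ℂ) ^ 2 - z ^ 2)) := by
  unfold RR
  rw [dslope_of_ne _ hz, slope_def_field]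
  have h1 : z - b ≠ 0 := sub_ne_zero.mpr hz
  have h2 : (b : ℂ) ^ 2 - z ^ 2 ≠ 0 := by
    have : (b : ℂ) ^ 2 - z ^ 2 = -((z - b) * (z + b)) := by ring
    rw [this]
    exact neg_ne_zero.mpr (mul_ne_zero h1 hz')
  field_simp
  ring

theorem dslope_differentiable (s x b : ℝ) : Differentiable ℂ (dslope (EE s x) (b : ℂ)) := by
  have := (Complex.differentiableOn_dslope (f := EE s x) (s := univ) (c := (b : ℂ)) univ_mem).mpr
    (EE_differentiable s x).differentiableOn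
  exact differentiableOn_univ.mp this

theorem re_pos_of_mem {b r α : ℝ} (hb : 0 < b) (hr : 0 < r) (hα : α ∈ Icc (0 : ℝ) (Real.pi / 6)) :
    (r : ℂ) * cis α + b ≠ 0 := by
  intro h
  have h1 := congrArg Complex.re h
  rw [Complex.add_re, Complex.re_ofReal_mul, cis_re, Complex.ofReal_re, Complex.zero_re] at h1
  have h2 : 0 ≤ Real.cos α := by
    apply Real.cos_nonneg_of_neg_pi_div_two_le_of_le <;> linarith [hα.1, hα.2, Real.pi_pos]
  have : 0 ≤ r * Real.cos α := by positivity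
  linarith

theorem RR_bound {s : ℝ} (hs : 0 < s) (x : ℝ) {b : ℝ} (hb : 0 < b) :
    ∃ K : ℝ, ∀ r : ℝ, 0 < r → ∀ α ∈ Icc (0 : ℝ) (Real.pi / 6),
      ‖RR s x b ((r : ℂ) * cis α)‖ ≤ K * (1 + r ^ 2)⁻¹ := by
  -- compact part
  have hcomp : IsCompact ({z : ℂ | 0 ≤ z.re} ∩ Metric.closedBall 0 (2 * b)) :=
    (isCompact_closedBall (0 : ℂ) (2 * b)).inter_left (isClosed_le continuous_const Complex.continuous_re)
  have hcont : ContinuousOn (RR s x b) ({z : ℂ | 0 ≤ z.re} ∩ Metric.closedBall 0 (2 * b)) := by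
    unfold RR
    refine ContinuousOn.mul (ContinuousOn.neg (ContinuousOn.div continuousOn_const (by fun_prop) ?_))
      (dslope_differentiable s x b).continuous.continuousOn
    rintro z ⟨hz, -⟩ h
    have h1 := congrArg Complex.re h
    rw [Complex.add_re, Complex.ofReal_re, Complex.zero_re] at h1
    have : (0 : ℝ) ≤ z.re := hz
    linarith
  obtain ⟨M, hM⟩ := hcomp.exists_bound_of_continuousOn hcont
  set C : ℝ := Real.exp (x ^ 2 / s) + ‖EE s x b‖ with hC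
  have hC0 : 0 ≤ C := by positivity
  have hM0 : 0 ≤ M := by
    refine le_trans (norm_nonneg _) (hM 0 ⟨?_, ?_⟩)
    · simp
    · simp; positivity
  refine ⟨M * (1 + 4 * b ^ 2) + C * (4 * b ^ 2 / 3) * (1 + 1 / (4 * b ^ 2)), ?_⟩
  intro r hr α hα
  have hcos : 0 ≤ Real.cos α := by
    apply Real.cos_nonneg_of_neg_pi_div_two_le_of_le <;> linarith [hα.1, hα.2, Real.pi_pos]
  have hnorm : ‖(r : ℂ) * cis α‖ = r := by
    rw [norm_mul, norm_cis, Complex.norm_real, Real.norm_of_nonneg hr.le, mul_one]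
  rcases le_or_gt r (2 * b) with hrb | hrb
  · have h1 : ‖RR s x b ((r : ℂ) * cis α)‖ ≤ M := by
      refine hM _ ⟨?_, ?_⟩
      · show 0 ≤ ((r : ℂ) * cis α).re
        rw [Complex.re_ofReal_mul, cis_re]; positivity
      · rw [mem_closedBall_zero_iff, hnorm]; exact hrb
    refine le_trans h1 ?_
    rw [← div_eq_mul_inv, le_div_iff₀ (by positivity)]
    have h2 : M * (1 + r ^ 2) ≤ M * (1 + 4 * b ^ 2) := by
      apply mul_le_mul_of_nonneg_left _ hM0
      nlinarith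
    have h3 : 0 ≤ C * (4 * b ^ 2 / 3) * (1 + 1 / (4 * b ^ 2)) := by positivity
    linarith
  · have hne : (r : ℂ) * cis α ≠ b := by
      intro h
      have := congrArg norm h
      rw [hnorm, Complex.norm_real, Real.norm_of_nonneg hb.le] at this
      linarith
    rw [RR_eq hne (re_pos_of_mem hb hr hα), norm_mul, norm_div]
    have h1 : ‖EE s x ((r : ℂ) * cis α) - EE s x b‖ ≤ C := by
      refine le_trans (norm_sub_le _ _) ?_
      rw [hC]
      gcongr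
      exact norm_EE_le' hs x hr.le (half_le_cos hα)
    have h2 : r ^ 2 - b ^ 2 ≤ ‖(b : ℂ) ^ 2 - ((r : ℂ) * cis α) ^ 2‖ := by
      have := norm_sub_norm_le (((r : ℂ) * cis α) ^ 2) ((b : ℂ) ^ 2)
      rw [norm_pow, hnorm, norm_pow, Complex.norm_real, Real.norm_of_nonneg hb.le, norm_sub_rev] at this
      exact this
    have h3 : 3 * r ^ 2 / 4 ≤ r ^ 2 - b ^ 2 := by nlinarith
    have h4 : 0 < 3 * r ^ 2 / 4 := by positivity
    rw [norm_pow, Complex.norm_real, Real.norm_of_nonneg hb.le]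
    calc ‖EE s x ((r : ℂ) * cis α) - EE s x b‖ * (b ^ 2 / ‖(b : ℂ) ^ 2 - ((r : ℂ) * cis α) ^ 2‖)
        ≤ C * (b ^ 2 / (3 * r ^ 2 / 4)) := by
          gcongr
          exact le_trans h3 h2
      _ ≤ C * (4 * b ^ 2 / 3) * (1 + 1 / (4 * b ^ 2)) * (1 + r ^ 2)⁻¹ := by
          have h5 : b ^ 2 / (3 * r ^ 2 / 4) ≤ (4 * b ^ 2 / 3) * (1 + 1 / (4 * b ^ 2)) * (1 + r ^ 2)⁻¹ := by
            rw [← div_eq_mul_inv, div_le_div_iff₀ h4 (by positivity)]
            have h6 : (4 * b ^ 2 / 3) * (1 + 1 / (4 * b ^ 2)) = 4 * b ^ 2 / 3 + 1 / 3 := by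
              field_simp
            rw [h6]
            nlinarith
          calc C * (b ^ 2 / (3 * r ^ 2 / 4)) ≤ C * ((4 * b ^ 2 / 3) * (1 + 1 / (4 * b ^ 2)) * (1 + r ^ 2)⁻¹) := by
                gcongr
            _ = _ := by ring
      _ ≤ _ := by
          gcongr
          have : 0 ≤ M * (1 + 4 * b ^ 2) := by positivity
          linarith

theorem ray_RR_im {s : ℝ} (hs : 0 < s) (x : ℝ) {b : ℝ} (hb : 0 < b) :
    (ray (RR s x b) (cis (Real.pi / 6))).im = 0 := by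
  obtain ⟨K, hK⟩ := RR_bound hs x hb
  have hrot := ray_rotate' (RR s x b) 0 (Real.pi / 6) (by positivity) ?_ K hK
  · rw [← hrot, cis_zero]
    unfold ray
    have h1 : ∀ᵐ r : ℝ ∂(volume.restrict (Ioi (0 : ℝ))), RR s x b ((r : ℂ) * 1) * 1 =
        (((Real.exp (x * r - s * r ^ 2 / 2) - Real.exp (x * b - s * b ^ 2 / 2)) *
          (b ^ 2 / (b ^ 2 - r ^ 2)) : ℝ) : ℂ) := by
      have h2 : ∀ᵐ r : ℝ ∂(volume.restrict (Ioi (0 : ℝ))), r ≠ b := by
        apply ae_restrict_of_ae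
        have : (volume : Measure ℝ) {b} = 0 := by simp
        rw [ae_iff]
        simp
      filter_upwards [h2, ae_restrict_mem measurableSet_Ioi] with r hr hr0
      have hr0' : 0 < r := hr0
      have hrb : (r : ℂ) ≠ b := by exact_mod_cast hr
      have hrb' : (r : ℂ) + b ≠ 0 := by
        have : (0 : ℝ) < r + b := by positivity
        exact_mod_cast this.ne'
      rw [mul_one, mul_one, RR_eq hrb hrb', EE_ofReal, EE_ofReal]
      push_cast
      rfl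
    rw [integral_congr_ae h1, integral_complex_ofReal, Complex.ofReal_im]
  · intro r hr α hα
    have := re_pos_of_mem hb hr hα
    unfold RR
    have hd : DifferentiableAt ℂ (dslope (EE s x) (b : ℂ)) ((r : ℂ) * cis α) :=
      (dslope_differentiable s x b).differentiableAt
    fun_prop (disch := assumption)

theorem pi_six_mem : Real.pi / 6 ∈ Icc (Real.pi / 6) (Real.pi / 2) := by
  constructor
  · exact le_rfl
  · linarith [Real.pi_pos]

theorem pi_six_mem' : Real.pi / 6 ∈ Icc (0 : ℝ) (Real.pi / 6) := by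
  constructor
  · positivity
  · exact le_rfl

theorem sub_sq_ne {b : ℝ} (hb : 0 < b) (r : ℝ) : (b : ℂ) ^ 2 - ((r : ℂ) * cis (Real.pi / 6)) ^ 2 ≠ 0 := by
  intro h
  have := norm_sub_sq_ge (b := b) (r := r) (cos_two_mul_le pi_six_mem)
  rw [h, norm_zero] at this
  nlinarith [sq_nonneg r]

theorem continuous_lor {b : ℝ} (hb : 0 < b) :
    Continuous fun r : ℝ => (b : ℂ) ^ 2 / ((b : ℂ) ^ 2 - ((r : ℂ) * cis (Real.pi / 6)) ^ 2) := by
  refine Continuous.div continuous_const (by fun_prop) (fun r => sub_sq_ne hb r)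

theorem norm_lor_le {b : ℝ} (hb : 0 < b) (r : ℝ) :
    ‖(b : ℂ) ^ 2 / ((b : ℂ) ^ 2 - ((r : ℂ) * cis (Real.pi / 6)) ^ 2)‖ ≤
      (2 * b ^ 2 + 2) * (1 + r ^ 2)⁻¹ := by
  have h1 := norm_sub_sq_ge (b := b) (r := r) (cos_two_mul_le pi_six_mem)
  rw [norm_div, norm_pow, Complex.norm_real, Real.norm_of_nonneg hb.le]
  have h2 : 0 < (b ^ 2 + r ^ 2) / 2 := by positivity
  refine (div_le_div_of_nonneg_left (by positivity) h2 h1).trans ?_
  rw [← div_eq_mul_inv, div_le_div_iff₀ h2 (by positivity)]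
  nlinarith [sq_nonneg b, sq_nonneg r, sq_nonneg (b * r), sq_nonneg (b ^ 2)]

theorem integrable_lor {b : ℝ} (hb : 0 < b) :
    Integrable fun r : ℝ => (b : ℂ) ^ 2 / ((b : ℂ) ^ 2 - ((r : ℂ) * cis (Real.pi / 6)) ^ 2) :=
  (integrable_inv_one_add_sq.const_mul (2 * b ^ 2 + 2)).mono'
    (continuous_lor hb).aestronglyMeasurable (Eventually.of_forall fun r => norm_lor_le hb r)

theorem integrableOn_EE_lor {s : ℝ} (hs : 0 < s) (x : ℝ) {b : ℝ} (hb : 0 < b) :
    IntegrableOn (fun r : ℝ => EE s x ((r : ℂ) * cis (Real.pi / 6)) *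
      ((b : ℂ) ^ 2 / ((b : ℂ) ^ 2 - ((r : ℂ) * cis (Real.pi / 6)) ^ 2))) (Ioi 0) := by
  refine Integrable.mono' (((integrable_lor hb).norm.const_mul (Real.exp (x ^ 2 / s))).integrableOn)
    ?_ ?_
  · refine Continuous.aestronglyMeasurable ?_
    refine Continuous.mul ?_ (continuous_lor hb)
    exact (EE_differentiable s x).continuous.comp (by fun_prop)
  · filter_upwards [ae_restrict_mem measurableSet_Ioi] with r hr
    rw [norm_mul]
    have hr' : (0 : ℝ) < r := hr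
    exact mul_le_mul_of_nonneg_right (norm_EE_le' hs x hr'.le (half_le_cos pi_six_mem')) (norm_nonneg _)

theorem wedge {s : ℝ} (hs : 0 < s) (x : ℝ) {b : ℝ} (hb : 0 < b) :
    (ray (fun z => EE s x z * ((b : ℂ) ^ 2 / ((b : ℂ) ^ 2 - z ^ 2))) (cis (Real.pi / 6))).im =
      Real.exp (x * b - s * b ^ 2 / 2) * (b * (Real.pi / 2)) := by
  have hsplit : ray (fun z => EE s x z * ((b : ℂ) ^ 2 / ((b : ℂ) ^ 2 - z ^ 2))) (cis (Real.pi / 6)) =
      ray (RR s x b) (cis (Real.pi / 6)) + EE s x b *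
        ray (fun z => (b : ℂ) ^ 2 / ((b : ℂ) ^ 2 - z ^ 2)) (cis (Real.pi / 6)) := by
    unfold ray
    rw [← integral_const_mul, ← integral_add]
    · refine setIntegral_congr_fun measurableSet_Ioi ?_
      intro r hr
      have hr' : (0 : ℝ) < r := hr
      have hne : (r : ℂ) * cis (Real.pi / 6) ≠ b := by
        intro h
        have := sub_sq_ne hb r
        rw [h, sub_self] at this
        exact this rfl
      simp only
      rw [RR_eq hne (re_pos_of_mem hb hr' pi_six_mem')]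
      ring
    · have : IntegrableOn (fun r : ℝ => (EE s x ((r : ℂ) * cis (Real.pi / 6)) *
          ((b : ℂ) ^ 2 / ((b : ℂ) ^ 2 - ((r : ℂ) * cis (Real.pi / 6)) ^ 2)) - EE s x b *
          ((b : ℂ) ^ 2 / ((b : ℂ) ^ 2 - ((r : ℂ) * cis (Real.pi / 6)) ^ 2))) * cis (Real.pi / 6))
          (Ioi 0) :=
        ((integrableOn_EE_lor hs x hb).sub ((integrable_lor hb).const_mul _).integrableOn).mul_const _
      refine this.congr_fun ?_ measurableSet_Ioi
      intro r hr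
      have hr' : (0 : ℝ) < r := hr
      have hne : (r : ℂ) * cis (Real.pi / 6) ≠ b := by
        intro h
        have := sub_sq_ne hb r
        rw [h, sub_self] at this
        exact this rfl
      simp only
      rw [RR_eq hne (re_pos_of_mem hb hr' pi_six_mem')]
      ring
    · exact (((integrable_lor hb).mul_const _).const_mul _).integrableOn
  rw [hsplit, Complex.add_im, ray_RR_im hs x hb, zero_add, ray_lorentz hb, EE_ofReal, ← mul_assoc,
    ← Complex.ofReal_mul, Complex.im_ofReal_mul, Complex.I_im, mul_one]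

/-! ### decomposition into simple fractions -/

theorem pfrac_sum {N : ℕ} (hN : 0 < N) (β : Fin N → ℝ) (hβ : ∀ i, 0 < β i)
    (hinj : Function.Injective β) (ζ : ℂ) (hζ : ∀ i, 1 - (β i : ℂ) * ζ ≠ 0) :
    (∏ i, (1 - (β i : ℂ) * ζ))⁻¹ =
      ∑ i, (((∏ j ∈ Finset.univ.erase i, (1 - β j / β i))⁻¹ : ℝ) : ℂ) * (1 - (β i : ℂ) * ζ)⁻¹ := by
  have hne : (Finset.univ : Finset (Fin N)).Nonempty := ⟨⟨0, hN⟩, Finset.mem_univ _⟩
  have hv : Set.InjOn (fun i : Fin N => ((β i : ℂ))⁻¹) ((Finset.univ : Finset (Fin N)) : Set (Fin N)) := by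
    intro i _ j _ h
    apply hinj
    have h' : ((β i : ℂ))⁻¹ = ((β j : ℂ))⁻¹ := h
    have := inv_injective h'
    exact_mod_cast this
  have h1 := congrArg (Polynomial.eval ζ) (Lagrange.sum_basis hv hne)
  rw [Polynomial.eval_finsetSum, Polynomial.eval_one] at h1
  have h2 : ∀ i : Fin N, Polynomial.eval ζ (Lagrange.basis Finset.univ (fun i : Fin N => ((β i : ℂ))⁻¹) i) =
      (∏ i, (1 - (β i : ℂ) * ζ)) * ((((∏ j ∈ Finset.univ.erase i, (1 - β j / β i))⁻¹ : ℝ) : ℂ) *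
        (1 - (β i : ℂ) * ζ)⁻¹) := by
    intro i
    rw [Lagrange.basis, Polynomial.eval_prod, ← Finset.mul_prod_erase _ _ (Finset.mem_univ i)]
    have h3 : (1 - (β i : ℂ) * ζ) * (∏ x ∈ Finset.univ.erase i, (1 - (β x : ℂ) * ζ)) *
        ((((∏ j ∈ Finset.univ.erase i, (1 - β j / β i))⁻¹ : ℝ) : ℂ) * (1 - (β i : ℂ) * ζ)⁻¹) =
        (∏ x ∈ Finset.univ.erase i, (1 - (β x : ℂ) * ζ)) *
          (((∏ j ∈ Finset.univ.erase i, (1 - β j / β i))⁻¹ : ℝ) : ℂ) := by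
      have := hζ i
      field_simp
    rw [h3]
    push_cast
    rw [← Finset.prod_inv_distrib, ← Finset.prod_mul_distrib]
    refine Finset.prod_congr rfl ?_
    intro j hj
    have hji : j ≠ i := Finset.ne_of_mem_erase hj
    have hbi : (β i : ℂ) ≠ 0 := by exact_mod_cast (hβ i).ne'
    have hbj : (β j : ℂ) ≠ 0 := by exact_mod_cast (hβ j).ne'
    have hbij : (β i : ℂ) - β j ≠ 0 := by
      intro h
      have h' : (β i : ℂ) = β j := sub_eq_zero.mp h
      exact hji (hinj (by exact_mod_cast h')).symm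
    have hbij' : (β j : ℂ) - β i ≠ 0 := by
      intro h
      apply hbij
      rw [← neg_sub, h, neg_zero]
    rw [Lagrange.basisDivisor]
    simp only [Polynomial.eval_mul, Polynomial.eval_C, Polynomial.eval_sub, Polynomial.eval_X]
    have h5 : (β i : ℂ)⁻¹ - (β j : ℂ)⁻¹ = (β j - β i) / (β i * β j) := by field_simp
    have h6 : (1 : ℂ) - β j / β i = (β i - β j) / β i := by field_simp
    rw [h5, h6, inv_div, inv_div]
    field_simp
    ring
  rw [Finset.sum_congr rfl (fun i _ => h2 i), ← Finset.mul_sum] at h1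
  have h7 : ∏ i, (1 - (β i : ℂ) * ζ) ≠ 0 := Finset.prod_ne_zero_iff.mpr (fun i _ => hζ i)
  exact (eq_inv_of_mul_eq_one_right h1).symm

theorem epsN_pos {N : ℕ} (hN : 2 ≤ N) : 0 < epsN N := by
  unfold epsN
  have : (0 : ℝ) < N := by
    have : 0 < N := by omega
    exact_mod_cast this
  positivity

theorem betaN_pos' {N : ℕ} (hN : 2 ≤ N) (i : Fin N) : 0 < betaN N i := by
  unfold betaN
  refine mul_pos (epsN_pos hN) ?_
  have h1 : ((i : ℕ) : ℝ) < (N : ℝ) := by exact_mod_cast i.2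
  have h2 : (2 : ℝ) ≤ N := by exact_mod_cast hN
  have h3 : (0 : ℝ) < (N : ℝ) ^ 2 := by positivity
  rw [sub_pos, div_lt_one h3]
  nlinarith

theorem betaN_injective' {N : ℕ} (hN : 2 ≤ N) : Function.Injective (betaN N) := by
  intro i j h
  unfold betaN at h
  have h1 := mul_left_cancel₀ (epsN_pos hN).ne' h
  have h2 : (2 : ℝ) ≤ N := by exact_mod_cast hN
  have h3 : (0 : ℝ) < (N : ℝ) ^ 2 := by positivity
  have h4 : ((i : ℕ) : ℝ) / (N : ℝ) ^ 2 = ((j : ℕ) : ℝ) / (N : ℝ) ^ 2 := by linarith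
  have h5 : ((i : ℕ) : ℝ) = ((j : ℕ) : ℝ) := by
    rwa [div_left_inj' h3.ne'] at h4
  exact Fin.ext (by exact_mod_cast h5)

theorem bN_pos' {N : ℕ} (hN : 2 ≤ N) (i : Fin N) : 0 < bN N i := by
  unfold bN
  have := betaN_pos' hN i
  positivity

theorem bN_sq {N : ℕ} (hN : 2 ≤ N) (i : Fin N) : (bN N i) ^ 2 = (betaN N i)⁻¹ := by
  unfold bN
  rw [inv_pow, Real.sq_sqrt (betaN_pos' hN i).le]

theorem inv_eq_lor {N : ℕ} (hN : 2 ≤ N) (i : Fin N) (ζ : ℂ) :
    (1 - (betaN N i : ℂ) * ζ)⁻¹ = (bN N i : ℂ) ^ 2 / ((bN N i : ℂ) ^ 2 - ζ) := by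
  have h1 : (bN N i : ℂ) ^ 2 = ((betaN N i : ℂ))⁻¹ := by
    rw [← Complex.ofReal_pow, bN_sq hN i, Complex.ofReal_inv]
  have h2 : (betaN N i : ℂ) ≠ 0 := by exact_mod_cast (betaN_pos' hN i).ne'
  rw [h1]
  have h3 : ((betaN N i : ℂ))⁻¹ - ζ = (1 - (betaN N i : ℂ) * ζ) / (betaN N i : ℂ) := by
    field_simp
  rw [h3, div_div_eq_mul_div, inv_mul_cancel₀ h2, one_div]

theorem one_sub_ne {N : ℕ} (hN : 2 ≤ N) (i : Fin N) (r : ℝ) :
    1 - (betaN N i : ℂ) * ((r : ℂ) * cis (Real.pi / 6)) ^ 2 ≠ 0 := by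
  intro h
  apply sub_sq_ne (bN_pos' hN i) r
  have h1 : (bN N i : ℂ) ^ 2 = ((betaN N i : ℂ))⁻¹ := by
    rw [← Complex.ofReal_pow, bN_sq hN i, Complex.ofReal_inv]
  have h2 : (betaN N i : ℂ) ≠ 0 := by exact_mod_cast (betaN_pos' hN i).ne'
  rw [h1]
  have h3 : ((betaN N i : ℂ))⁻¹ - ((r : ℂ) * cis (Real.pi / 6)) ^ 2 =
      (1 - (betaN N i : ℂ) * ((r : ℂ) * cis (Real.pi / 6)) ^ 2) / (betaN N i : ℂ) := by
    field_simp
  rw [h3, h, zero_div]

theorem integrand_eq {N : ℕ} (hN : 2 ≤ N) (σ x : ℝ) (r : ℝ) :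
    Complex.exp (-(σ : ℂ) * ((r : ℂ) * cis (Real.pi / 6)) ^ 2 / 2 +
        (x : ℂ) * ((r : ℂ) * cis (Real.pi / 6))) / FN N ((r : ℂ) * cis (Real.pi / 6)) *
        cis (Real.pi / 6) =
      ∑ i : Fin N, (((∏ j ∈ Finset.univ.erase i, (1 - betaN N j / betaN N i))⁻¹ : ℝ) : ℂ) *
        (EE (SN N + σ) x ((r : ℂ) * cis (Real.pi / 6)) * ((bN N i : ℂ) ^ 2 /
          ((bN N i : ℂ) ^ 2 - ((r : ℂ) * cis (Real.pi / 6)) ^ 2)) * cis (Real.pi / 6)) := by
  set z : ℂ := (r : ℂ) * cis (Real.pi / 6) with hz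
  have hpf := pfrac_sum (by omega : 0 < N) (betaN N) (betaN_pos' hN) (betaN_injective' hN)
    (z ^ 2) (fun i => by rw [hz]; exact one_sub_ne hN i r)
  have h1 : Complex.exp (-(σ : ℂ) * z ^ 2 / 2 + (x : ℂ) * z) / FN N z =
      EE (SN N + σ) x z * (∏ i, (1 - (betaN N i : ℂ) * z ^ 2))⁻¹ := by
    unfold FN EE
    rw [div_mul_eq_div_div, ← Complex.exp_sub, div_eq_mul_inv]
    congr 2
    push_cast; ring
  rw [h1, hpf, Finset.mul_sum, Finset.sum_mul]
  refine Finset.sum_congr rfl ?_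
  intro i _
  rw [inv_eq_lor hN i]
  ring

end QnC

open QnC in
/-- **Contour form of `Qn`**. -/
theorem Qn_contour {N : ℕ} (hN : 2 ≤ N) {σ : ℝ} (hσ : 0 < SN N + σ) (x : ℝ) :
    Qn N σ x = (ray (fun z => Complex.exp (-(σ : ℂ) * z ^ 2 / 2 + (x : ℂ) * z) / FN N z)
      (cis (Real.pi / 6))).im / Real.pi := by
  have h1 : ray (fun z => Complex.exp (-(σ : ℂ) * z ^ 2 / 2 + (x : ℂ) * z) / FN N z)
      (cis (Real.pi / 6)) =
      ∑ i : Fin N, (((∏ j ∈ Finset.univ.erase i, (1 - betaN N j / betaN N i))⁻¹ : ℝ) : ℂ) *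
        ray (fun z => EE (SN N + σ) x z * ((bN N i : ℂ) ^ 2 / ((bN N i : ℂ) ^ 2 - z ^ 2)))
          (cis (Real.pi / 6)) := by
    unfold ray
    rw [integral_congr_ae (Eventually.of_forall fun r => integrand_eq hN σ x r)]
    rw [integral_finsetSum]
    · refine Finset.sum_congr rfl ?_
      intro i _
      rw [integral_const_mul]
    · intro i _
      exact ((integrableOn_EE_lor hσ x (bN_pos' hN i)).mul_const _).const_mul _
  rw [h1, Complex.im_sum, Finset.sum_div]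
  unfold Qn
  refine Finset.sum_congr rfl ?_
  intro i _
  rw [Complex.im_ofReal_mul, wedge hσ x (bN_pos' hN i)]
  rw [show x * bN N i - (SN N + σ) * (bN N i) ^ 2 / 2 =
    bN N i * x - (bN N i) ^ 2 * (SN N + σ) / 2 by ring]
  have hpi := Real.pi_ne_zero
  rw [div_eq_mul_inv, div_eq_mul_inv _ Real.pi]
  field_simp

end Pool.Agent.H.MP_5ad92a_pr
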