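import Pool.Agent.H.MP_5ad92a_pr.Contour
import Pool.Agent.H.MP_5ad92a_pr.FNBounds
import Pool.Agent.H.MP_5ad92a_pr.QnContour

/-!
# Pearcey line ensemble: the functions `Pn`, `Qn` and their limits `Pl`, `Ql`

Uniform bounds and convergence, by moving the line of integration (for `Pn`) and by the contour
form on the ray of angle `π/6` (for `Qn`).
-/

set_option autoImplicit false

noncomputable section

open MeasureTheory Filter Topology Set

namespace Pool.Agent.H.MP_5ad92a_pr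

namespace PQ

/-- the integrand on vertical lines -/
def Gf (E : ℂ → ℂ) (τ y : ℝ) (w : ℂ) : ℂ :=
  E w * Complex.exp ((τ : ℂ) * w ^ 2 / 2) * Complex.exp (-(y : ℂ) * w)

/-- integral over the vertical line through `c` -/
def LI (E : ℂ → ℂ) (τ y c : ℝ) : ℂ := ∫ u : ℝ, Gf E τ y ((c : ℂ) + (u : ℂ) * Complex.I)

/-- Gaussian bound on a strip -/
def SB (E : ℂ → ℂ) (τ c0 C : ℝ) : Prop := ∀ c ∈ Icc (-c0) c0, ∀ u : ℝ,
  ‖E ((c : ℂ) + (u : ℂ) * Complex.I) *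
      Complex.exp ((τ : ℂ) * ((c : ℂ) + (u : ℂ) * Complex.I) ^ 2 / 2)‖ ≤ C * Real.exp (-1 * u ^ 2)

lemma re_form (a b : ℝ) : ((a : ℂ) + (b : ℂ) * Complex.I).re = a := by simp

lemma im_form (a b : ℝ) : ((a : ℂ) + (b : ℂ) * Complex.I).im = b := by simp

lemma norm_exp_lin (y c u : ℝ) :
    ‖Complex.exp (-(y : ℂ) * ((c : ℂ) + (u : ℂ) * Complex.I))‖ = Real.exp (-(y * c)) := by
  rw [Complex.norm_exp]
  congr 1
  simp

lemma norm_exp_sq (τ c u : ℝ) :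
    ‖Complex.exp ((τ : ℂ) * ((c : ℂ) + (u : ℂ) * Complex.I) ^ 2 / 2)‖
      = Real.exp (τ * (c ^ 2 - u ^ 2) / 2) := by
  rw [Complex.norm_exp]
  congr 1
  have : (τ : ℂ) * ((c : ℂ) + (u : ℂ) * Complex.I) ^ 2 / 2
      = ((τ * (c ^ 2 - u ^ 2) / 2 : ℝ) : ℂ) + ((τ * c * u : ℝ) : ℂ) * Complex.I := by
    push_cast
    linear_combination ((τ : ℂ) * (u : ℂ) ^ 2 / 2) * Complex.I_sq
  rw [this, re_form]

lemma SB.nonneg {E : ℂ → ℂ} {τ c0 C : ℝ} (h : SB E τ c0 C) (hc : 0 ≤ c0) : 0 ≤ C := by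
  have := h 0 ⟨by linarith, hc⟩ 0
  have h2 : (0 : ℝ) ≤ C * Real.exp (-1 * 0 ^ 2) := le_trans (norm_nonneg _) this
  simpa using h2

lemma tendsto_gauss_top (C : ℝ) : Tendsto (fun u : ℝ => C * Real.exp (-1 * u ^ 2)) atTop (𝓝 0) := by
  rw [show (0 : ℝ) = C * 0 by simp]
  apply Tendsto.const_mul
  apply Real.tendsto_exp_atBot.comp
  apply Tendsto.const_mul_atTop_of_neg (by norm_num)
  exact tendsto_pow_atTop (by norm_num)

lemma tendsto_gauss_bot (C : ℝ) : Tendsto (fun u : ℝ => C * Real.exp (-1 * u ^ 2)) atBot (𝓝 0) := by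
  have := (tendsto_gauss_top C).comp tendsto_neg_atBot_atTop
  refine this.congr fun u => ?_
  simp

lemma integrable_gauss (C : ℝ) : Integrable (fun u : ℝ => C * Real.exp (-1 * u ^ 2)) :=
  (integrable_exp_neg_mul_sq one_pos).const_mul C

lemma norm_Gf_le {E : ℂ → ℂ} {τ c0 C : ℝ} (h : SB E τ c0 C) (y : ℝ) {c : ℝ}
    (hc : c ∈ Icc (-c0) c0) (u : ℝ) :
    ‖Gf E τ y ((c : ℂ) + (u : ℂ) * Complex.I)‖
      ≤ Real.exp (-(y * c)) * C * Real.exp (-1 * u ^ 2) := by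
  unfold Gf
  rw [norm_mul, norm_exp_lin]
  have := mul_le_mul_of_nonneg_right (h c hc u) (Real.exp_pos (-(y * c))).le
  linarith

lemma Gf_diff {E : ℂ → ℂ} (hE : Differentiable ℂ E) (τ y : ℝ) : Differentiable ℂ (Gf E τ y) := by
  unfold Gf
  fun_prop

lemma Gf_cont {E : ℂ → ℂ} (hE : Differentiable ℂ E) (τ y c : ℝ) :
    Continuous fun u : ℝ => Gf E τ y ((c : ℂ) + (u : ℂ) * Complex.I) :=
  (Gf_diff hE τ y).continuous.comp (by fun_prop)

lemma Gf_int {E : ℂ → ℂ} (hE : Differentiable ℂ E) {τ c0 C : ℝ} (h : SB E τ c0 C) (y : ℝ) {c : ℝ}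
    (hc : c ∈ Icc (-c0) c0) : Integrable fun u : ℝ => Gf E τ y ((c : ℂ) + (u : ℂ) * Complex.I) := by
  refine (integrable_gauss (Real.exp (-(y * c)) * C)).mono'
    (Gf_cont hE τ y c).aestronglyMeasurable (Eventually.of_forall fun u => ?_)
  exact norm_Gf_le h y hc u

lemma LI_shift_aux {E : ℂ → ℂ} (hE : Differentiable ℂ E) {τ c0 C : ℝ} (h : SB E τ c0 C) (y : ℝ)
    {c₁ c₂ : ℝ} (h1 : c₁ ∈ Icc (-c0) c0) (h2 : c₂ ∈ Icc (-c0) c0) (h12 : c₁ ≤ c₂) :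
    LI E τ y c₁ = LI E τ y c₂ := by
  have hc0 : 0 ≤ c0 := by linarith [h1.1, h1.2]
  have hC := h.nonneg hc0
  refine line_shift (Gf E τ y) c₁ c₂ h12 (fun c _ u => (Gf_diff hE τ y) _)
    (fun u => (Real.exp (|y| * c0) * C) * Real.exp (-1 * u ^ 2)) ?_ (integrable_gauss _)
    (tendsto_gauss_top _) (tendsto_gauss_bot _)
  intro c hc u
  have hc' : c ∈ Icc (-c0) c0 := ⟨le_trans h1.1 hc.1, le_trans hc.2 h2.2⟩
  refine (norm_Gf_le h y hc' u).trans ?_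
  have h3 : Real.exp (-(y * c)) ≤ Real.exp (|y| * c0) := by
    apply Real.exp_le_exp.mpr
    have h4 : |c| ≤ c0 := abs_le.mpr hc'
    have h5 : |y * c| ≤ |y| * c0 := by
      rw [abs_mul]; exact mul_le_mul_of_nonneg_left h4 (abs_nonneg _)
    linarith [neg_abs_le (y * c)]
  gcongr

lemma LI_shift {E : ℂ → ℂ} (hE : Differentiable ℂ E) {τ c0 C : ℝ} (h : SB E τ c0 C) (y : ℝ)
    {c : ℝ} (h1 : c ∈ Icc (-c0) c0) : LI E τ y 0 = LI E τ y c := by
  have hc0 : 0 ≤ c0 := by linarith [h1.1, h1.2]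
  have h0 : (0 : ℝ) ∈ Icc (-c0) c0 := ⟨by linarith, hc0⟩
  rcases le_total 0 c with hc | hc
  · exact LI_shift_aux hE h y h0 h1 hc
  · exact (LI_shift_aux hE h y h1 h0 hc).symm

/-- the side chosen according to the sign of `y` -/
def side (c0 y : ℝ) : ℝ := if 0 ≤ y then c0 else -c0

lemma side_mem {c0 : ℝ} (hc : 0 ≤ c0) (y : ℝ) : side c0 y ∈ Icc (-c0) c0 := by
  unfold side; split_ifs <;> constructor <;> linarith

lemma side_mul (c0 y : ℝ) : y * side c0 y = c0 * |y| := by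
  unfold side; split_ifs with h
  · rw [abs_of_nonneg h]; ring
  · rw [abs_of_neg (not_le.mp h)]; ring

lemma side_sq (c0 y : ℝ) : (side c0 y) ^ 2 = c0 ^ 2 := by
  unfold side; split_ifs <;> ring

lemma LI_bound {E : ℂ → ℂ} (hE : Differentiable ℂ E) {τ c0 C : ℝ} (h : SB E τ c0 C) (hc : 0 ≤ c0)
    (y : ℝ) : ‖LI E τ y 0‖ ≤ Real.exp (-c0 * |y|) * (C * ∫ u : ℝ, Real.exp (-1 * u ^ 2)) := by
  rw [LI_shift hE h y (side_mem hc y)]
  unfold LI
  refine (norm_integral_le_of_norm_le (integrable_gauss (Real.exp (-(y * side c0 y)) * C))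
    (Eventually.of_forall fun u => norm_Gf_le h y (side_mem hc y) u)).trans ?_
  rw [integral_const_mul, side_mul]
  have : -(c0 * |y|) = -c0 * |y| := by ring
  rw [this, mul_assoc]

/-- entire limit function -/
def El (w : ℂ) : ℂ := Complex.exp (-w ^ 4 / 4)

lemma El_diff : Differentiable ℂ El := by unfold El; fun_prop

lemma FN_diff (N : ℕ) : Differentiable ℂ (FN N) := by
  unfold FN
  apply Differentiable.mul
  · fun_prop
  · fun_prop

lemma norm_El (c u : ℝ) : ‖El ((c : ℂ) + (u : ℂ) * Complex.I)‖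
    = Real.exp (-(u ^ 4 - 6 * c ^ 2 * u ^ 2 + c ^ 4) / 4) := by
  unfold El
  rw [Complex.norm_exp]
  congr 1
  have h4 : Complex.I ^ 4 = 1 := Complex.I_pow_four
  have h3 : Complex.I ^ 3 = -Complex.I := Complex.I_pow_three
  have : -((c : ℂ) + (u : ℂ) * Complex.I) ^ 4 / 4
      = ((-(u ^ 4 - 6 * c ^ 2 * u ^ 2 + c ^ 4) / 4 : ℝ) : ℂ)
        + ((-(4 * c ^ 3 * u - 4 * c * u ^ 3) / 4 : ℝ) : ℂ) * Complex.I := by
    push_cast
    have e : ((c : ℂ) + (u : ℂ) * Complex.I) ^ 4 = c ^ 4 + 4 * c ^ 3 * (u * Complex.I)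
      + 6 * c ^ 2 * (u ^ 2 * Complex.I ^ 2) + 4 * c * (u ^ 3 * Complex.I ^ 3)
      + u ^ 4 * Complex.I ^ 4 := by ring
    rw [e, h4, h3, Complex.I_sq]
    ring
  rw [this, re_form]

lemma SB_El (M c0 : ℝ) (_hc : 0 ≤ c0) : ∃ C : ℝ, ∀ τ ∈ Icc (-M) M, SB El τ c0 C := by
  set A : ℝ := 3 * c0 ^ 2 / 2 + M / 2 + 1 with hA
  refine ⟨Real.exp (M * c0 ^ 2 / 2 + A ^ 2), ?_⟩
  intro τ hτ c hcm u
  have hM : |τ| ≤ M := abs_le.mpr hτ
  rw [norm_mul, norm_El, norm_exp_sq, ← Real.exp_add, ← Real.exp_add]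
  apply Real.exp_le_exp.mpr
  have hc2 : c ^ 2 ≤ c0 ^ 2 := by
    apply sq_le_sq'  hcm.1 hcm.2
  have h1 : τ * (c ^ 2 - u ^ 2) ≤ M * c0 ^ 2 + M * u ^ 2 := by
    have a1 : τ * c ^ 2 ≤ M * c0 ^ 2 := by
      calc τ * c ^ 2 ≤ |τ| * c ^ 2 := by gcongr; exact le_abs_self _
        _ ≤ M * c0 ^ 2 := by gcongr; exact le_trans (abs_nonneg _) hM
    have a2 : -τ * u ^ 2 ≤ M * u ^ 2 := by
      have : -τ ≤ M := by linarith [hτ.1]
      gcongr
    linarith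
  have h2 : 6 * c ^ 2 * u ^ 2 ≤ 6 * c0 ^ 2 * u ^ 2 := by gcongr
  have h3 : 0 ≤ c ^ 4 := by positivity
  have h4 : 0 ≤ (u ^ 2 / 2 - A) ^ 2 := sq_nonneg _
  nlinarith

lemma Pn_eq (N : ℕ) (τ y : ℝ) :
    Pn N τ y = ((1 / (2 * Real.pi) : ℂ) * LI (FN N) τ y 0).re := by
  unfold Pn LI Gf
  congr 3
  funext u
  rw [Complex.ofReal_zero, zero_add, mul_assoc, ← Complex.exp_add]
  congr 2
  linear_combination (-(τ : ℂ) * (u : ℂ) ^ 2 / 2) * Complex.I_sq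

lemma Gf_El_re (τ y u : ℝ) : (Gf El τ y (((0 : ℝ) : ℂ) + (u : ℂ) * Complex.I)).re
    = Real.exp (-u ^ 4 / 4 - τ * u ^ 2 / 2) * Real.cos (y * u) := by
  unfold Gf El
  rw [Complex.ofReal_zero, zero_add, ← Complex.exp_add, ← Complex.exp_add]
  have : -((u : ℂ) * Complex.I) ^ 4 / 4 + (τ : ℂ) * ((u : ℂ) * Complex.I) ^ 2 / 2
      + -(y : ℂ) * ((u : ℂ) * Complex.I)
      = ((-u ^ 4 / 4 - τ * u ^ 2 / 2 : ℝ) : ℂ) + ((-(y * u) : ℝ) : ℂ) * Complex.I := by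
    push_cast
    have e : ((u : ℂ) * Complex.I) ^ 4 = u ^ 4 * Complex.I ^ 4 := by ring
    rw [e, Complex.I_pow_four]
    linear_combination ((τ : ℂ) * (u : ℂ) ^ 2 / 2) * Complex.I_sq
  rw [this, Complex.exp_re, re_form, im_form, Real.cos_neg]

lemma Pl_eq (τ y : ℝ) : Pl τ y = ((1 / (2 * Real.pi) : ℂ) * LI El τ y 0).re := by
  obtain ⟨C, hC⟩ := SB_El |τ| 0 le_rfl
  have hτ : τ ∈ Icc (-|τ|) |τ| := ⟨neg_abs_le τ, le_abs_self τ⟩
  have hint := Gf_int El_diff (hC τ hτ) y (c := 0) (by simp)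
  unfold Pl LI
  have h1 : ((1 / (2 * Real.pi) : ℂ)) = ((1 / (2 * Real.pi) : ℝ) : ℂ) := by push_cast; rfl
  rw [h1, Complex.re_ofReal_mul]
  congr 1
  rw [show (∫ u : ℝ, Gf El τ y (((0 : ℝ) : ℂ) + (u : ℂ) * Complex.I)).re
    = RCLike.re (∫ u : ℝ, Gf El τ y (((0 : ℝ) : ℂ) + (u : ℂ) * Complex.I)) from rfl]
  rw [← integral_re hint]
  congr 1
  funext u
  exact (Gf_El_re τ y u).symm

lemma norm_two_pi : ‖(1 / (2 * Real.pi) : ℂ)‖ = 1 / (2 * Real.pi) := by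
  have h1 : ((1 / (2 * Real.pi) : ℂ)) = ((1 / (2 * Real.pi) : ℝ) : ℂ) := by push_cast; rfl
  rw [h1, Complex.norm_real, Real.norm_of_nonneg]
  positivity

lemma re_bound (z : ℂ) {B : ℝ} (h : ‖z‖ ≤ B) :
    |((1 / (2 * Real.pi) : ℂ) * z).re| ≤ 1 / (2 * Real.pi) * B := by
  refine (Complex.abs_re_le_norm _).trans ?_
  rw [norm_mul, norm_two_pi]
  gcongr

lemma SB_FN (M c0 : ℝ) : ∃ C : ℝ, ∃ N0 : ℕ, ∀ N ≥ N0, ∀ τ ∈ Icc (-M) M, SB (FN N) τ c0 C := by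
  obtain ⟨C, N0, h⟩ := FN_line M c0 1
  refine ⟨C, N0, fun N hN τ hτ c hc u => ?_⟩
  exact h N hN c hc τ hτ u

/-- weighted distance on a vertical line -/
def DN (M : ℝ) (N : ℕ) (c : ℝ) : ℝ :=
  ∫ u : ℝ, ‖FN N ((c : ℂ) + (u : ℂ) * Complex.I) - El ((c : ℂ) + (u : ℂ) * Complex.I)‖ *
    Real.exp (M * (1 + u ^ 2) / 2)

lemma weight_FN {M : ℝ} {E : ℂ → ℂ} {C : ℝ} (h : SB E (-M) 1 C) {c : ℝ} (hc : c ^ 2 = 1)
    (hcm : c ∈ Icc (-1 : ℝ) 1) (u : ℝ) :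
    ‖E ((c : ℂ) + (u : ℂ) * Complex.I)‖ * Real.exp (M * (1 + u ^ 2) / 2)
      ≤ Real.exp M * C * Real.exp (-1 * u ^ 2) := by
  have h1 := h c hcm u
  rw [norm_mul, norm_exp_sq, hc] at h1
  have h2 : Real.exp (M * (1 + u ^ 2) / 2) = Real.exp (-M * (1 - u ^ 2) / 2) * Real.exp M := by
    rw [← Real.exp_add]; congr 1; ring
  rw [h2, ← mul_assoc]
  have := mul_le_mul_of_nonneg_right h1 (Real.exp_pos M).le
  linarith

lemma DN_tendsto (M c : ℝ) (hM : 0 ≤ M) (hc : c ^ 2 = 1) : Tendsto (fun N => DN M N c) atTop (𝓝 0) := by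
  have hcm : c ∈ Icc (-1 : ℝ) 1 := abs_le.mp (by
    have := sq_abs c; rw [hc] at this; nlinarith [abs_nonneg c])
  have hMm : -M ∈ Icc (-M) M := ⟨le_rfl, by linarith⟩
  obtain ⟨C1, N0, h1⟩ := SB_FN M 1
  obtain ⟨C2, h2⟩ := SB_El M 1 zero_le_one
  have h2' := h2 (-M) hMm
  have hz : (0 : ℝ) = ∫ u : ℝ, (0 : ℝ) := by simp
  rw [hz]
  refine tendsto_integral_filter_of_dominated_convergence
    (fun u => Real.exp M * (C1 + C2) * Real.exp (-1 * u ^ 2)) ?_ ?_ (integrable_gauss _) ?_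
  · refine Eventually.of_forall fun N => Continuous.aestronglyMeasurable ?_
    have c1 : Continuous fun u : ℝ => FN N ((c : ℂ) + (u : ℂ) * Complex.I) :=
      (FN_diff N).continuous.comp (by fun_prop)
    have c2 : Continuous fun u : ℝ => El ((c : ℂ) + (u : ℂ) * Complex.I) :=
      El_diff.continuous.comp (by fun_prop)
    fun_prop
  · filter_upwards [eventually_ge_atTop N0] with N hN
    refine Eventually.of_forall fun u => ?_
    have b1 := weight_FN (h1 N hN (-M) hMm) hc hcm u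
    have b2 := weight_FN h2' hc hcm u
    have b3 := norm_sub_le (FN N ((c : ℂ) + (u : ℂ) * Complex.I))
      (El ((c : ℂ) + (u : ℂ) * Complex.I))
    rw [Real.norm_of_nonneg (by positivity)]
    have b4 := mul_le_mul_of_nonneg_right b3 (Real.exp_pos (M * (1 + u ^ 2) / 2)).le
    rw [add_mul] at b4
    linarith
  · refine Eventually.of_forall fun u => ?_
    have := (FN_tendsto ((c : ℂ) + (u : ℂ) * Complex.I)).sub_const
      (El ((c : ℂ) + (u : ℂ) * Complex.I))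
    have h3 : Tendsto (fun N => FN N ((c : ℂ) + (u : ℂ) * Complex.I)
        - El ((c : ℂ) + (u : ℂ) * Complex.I)) atTop (𝓝 0) := by
      simpa [El] using this
    have h4 := (h3.norm).mul_const (Real.exp (M * (1 + u ^ 2) / 2))
    simpa using h4

lemma DN_integrable {M C1 C2 : ℝ} {N : ℕ} (h1 : SB (FN N) (-M) 1 C1) (h2 : SB El (-M) 1 C2)
    {c : ℝ} (hc : c ^ 2 = 1) (hcm : c ∈ Icc (-1 : ℝ) 1) :
    Integrable fun u : ℝ => ‖FN N ((c : ℂ) + (u : ℂ) * Complex.I)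
      - El ((c : ℂ) + (u : ℂ) * Complex.I)‖ * Real.exp (M * (1 + u ^ 2) / 2) := by
  refine (integrable_gauss (Real.exp M * (C1 + C2))).mono' ?_ (Eventually.of_forall fun u => ?_)
  · have c1 : Continuous fun u : ℝ => FN N ((c : ℂ) + (u : ℂ) * Complex.I) :=
      (FN_diff N).continuous.comp (by fun_prop)
    have c2 : Continuous fun u : ℝ => El ((c : ℂ) + (u : ℂ) * Complex.I) :=
      El_diff.continuous.comp (by fun_prop)
    apply Continuous.aestronglyMeasurable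
    fun_prop
  · have b1 := weight_FN h1 hc hcm u
    have b2 := weight_FN h2 hc hcm u
    have b3 := norm_sub_le (FN N ((c : ℂ) + (u : ℂ) * Complex.I))
      (El ((c : ℂ) + (u : ℂ) * Complex.I))
    rw [Real.norm_of_nonneg (by positivity)]
    have b4 := mul_le_mul_of_nonneg_right b3 (Real.exp_pos (M * (1 + u ^ 2) / 2)).le
    rw [add_mul] at b4
    linarith

lemma LI_diff {M C1 C2 : ℝ} {N : ℕ} (hM : 0 ≤ M) (h1 : ∀ τ ∈ Icc (-M) M, SB (FN N) τ 1 C1)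
    (h2 : ∀ τ ∈ Icc (-M) M, SB El τ 1 C2) {τ : ℝ} (hτ : τ ∈ Icc (-M) M) (y : ℝ) {δ : ℝ}
    (hδ1 : DN M N 1 ≤ δ) (hδ2 : DN M N (-1) ≤ δ) :
    ‖LI (FN N) τ y 0 - LI El τ y 0‖ ≤ δ * Real.exp (-|y|) := by
  have hMm : -M ∈ Icc (-M) M := ⟨le_rfl, by linarith⟩
  have hs := side_mem zero_le_one y
  have hsq : (side 1 y) ^ 2 = 1 := by rw [side_sq]; norm_num
  have hδ : DN M N (side 1 y) ≤ δ := by
    unfold side; split_ifs <;> assumption
  rw [LI_shift (FN_diff N) (h1 τ hτ) y hs, LI_shift El_diff (h2 τ hτ) y hs]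
  unfold LI
  rw [← integral_sub (Gf_int (FN_diff N) (h1 τ hτ) y hs) (Gf_int El_diff (h2 τ hτ) y hs)]
  have hint := (DN_integrable (h1 (-M) hMm) (h2 (-M) hMm) hsq hs).mul_const (Real.exp (-|y|))
  refine (norm_integral_le_of_norm_le hint (Eventually.of_forall fun u => ?_)).trans ?_
  · have e : Gf (FN N) τ y ((side 1 y : ℂ) + (u : ℂ) * Complex.I)
        - Gf El τ y ((side 1 y : ℂ) + (u : ℂ) * Complex.I)
        = (FN N ((side 1 y : ℂ) + (u : ℂ) * Complex.I)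
          - El ((side 1 y : ℂ) + (u : ℂ) * Complex.I)) *
          Complex.exp ((τ : ℂ) * ((side 1 y : ℂ) + (u : ℂ) * Complex.I) ^ 2 / 2) *
          Complex.exp (-(y : ℂ) * ((side 1 y : ℂ) + (u : ℂ) * Complex.I)) := by
      unfold Gf; ring
    rw [e, norm_mul, norm_mul, norm_exp_lin, norm_exp_sq, side_mul, hsq]
    have h5 : Real.exp (-(1 * |y|)) = Real.exp (-|y|) := by rw [one_mul]
    rw [h5]
    have h6 : τ * (1 - u ^ 2) / 2 ≤ M * (1 + u ^ 2) / 2 := by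
      have a1 : τ ≤ M := hτ.2
      have a2 : -τ * u ^ 2 ≤ M * u ^ 2 := by
        have : -τ ≤ M := by linarith [hτ.1]
        gcongr
      linarith
    gcongr
  · rw [integral_mul_const]
    exact mul_le_mul_of_nonneg_right hδ (Real.exp_pos _).le

/-! ### the ray -/


/-- direction of the ray -/
def om : ℂ := cis (Real.pi / 6)

lemma cis_re (α : ℝ) : (cis α).re = Real.cos α := Complex.exp_ofReal_mul_I_re α

lemma cis_pow (α : ℝ) (n : ℕ) : cis α ^ n = cis (n * α) := by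
  unfold cis
  rw [← Complex.exp_nat_mul]
  congr 1
  push_cast
  ring

lemma norm_cis (α : ℝ) : ‖cis α‖ = 1 := Complex.norm_exp_ofReal_mul_I α

lemma re_pow_ray (a r α : ℝ) (n : ℕ) : ((a : ℂ) * ((r : ℂ) * cis α) ^ n).re
    = a * r ^ n * Real.cos (n * α) := by
  rw [mul_pow, cis_pow]
  have : (a : ℂ) * ((r : ℂ) ^ n * cis (n * α)) = ((a * r ^ n : ℝ) : ℂ) * cis (n * α) := by
    push_cast; ring
  rw [this, Complex.re_ofReal_mul, cis_re]

lemma norm_qint (σ x r α : ℝ) : ‖qint σ x ((r : ℂ) * cis α)‖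
    = Real.exp (r ^ 4 * Real.cos (4 * α) / 4 - σ * r ^ 2 * Real.cos (2 * α) / 2
      + x * r * Real.cos α) := by
  unfold qint
  rw [Complex.norm_exp]
  congr 1
  have h4 := re_pow_ray (1 / 4) r α 4
  have h2 := re_pow_ray (-σ / 2) r α 2
  have h1 := re_pow_ray x r α 1
  have e : ((r : ℂ) * cis α) ^ 4 / 4 - (σ : ℂ) * ((r : ℂ) * cis α) ^ 2 / 2
      + (x : ℂ) * ((r : ℂ) * cis α)
      = ((1 / 4 : ℝ) : ℂ) * ((r : ℂ) * cis α) ^ 4 + ((-σ / 2 : ℝ) : ℂ) * ((r : ℂ) * cis α) ^ 2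
        + (x : ℂ) * ((r : ℂ) * cis α) ^ 1 := by
    push_cast; ring
  rw [e, Complex.add_re, Complex.add_re, h4, h2, h1]
  push_cast
  rw [one_mul, pow_one]
  ring

lemma cos_pi_six_le : Real.cos (Real.pi / 6) ≤ 1 := Real.cos_le_one _
lemma cos_pi_six_nonneg : 0 ≤ Real.cos (Real.pi / 6) := by
  rw [Real.cos_pi_div_six]; positivity

lemma norm_exp_x (x r : ℝ) : ‖Complex.exp ((x : ℂ) * ((r : ℂ) * om))‖
    = Real.exp (x * r * Real.cos (Real.pi / 6)) := by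
  rw [Complex.norm_exp]
  congr 1
  have := re_pow_ray x r (Real.pi / 6) 1
  rw [pow_one, pow_one] at this
  rw [om, this]
  simp

lemma norm_exp_s (σ r : ℝ) : ‖Complex.exp (-(σ : ℂ) * ((r : ℂ) * om) ^ 2 / 2)‖
    = Real.exp (-(σ * r ^ 2) / 4) := by
  rw [Complex.norm_exp]
  congr 1
  have := re_pow_ray (-σ / 2) r (Real.pi / 6) 2
  have e : -(σ : ℂ) * ((r : ℂ) * om) ^ 2 / 2
    = ((-σ / 2 : ℝ) : ℂ) * ((r : ℂ) * cis (Real.pi / 6)) ^ 2 := by
    rw [om]; push_cast; ring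
  rw [e, this]
  have h : Real.cos (((2 : ℕ) : ℝ) * (Real.pi / 6)) = 1 / 2 := by
    rw [← Real.cos_pi_div_three]; congr 1; push_cast; ring
  rw [h]
  ring

lemma cos_two_pi_three : Real.cos (2 * Real.pi / 3) = -1 / 2 := by
  rw [show 2 * Real.pi / 3 = Real.pi - Real.pi / 3 by ring, Real.cos_pi_sub,
    Real.cos_pi_div_three]
  norm_num

lemma norm_El_inv (r : ℝ) : ‖(El ((r : ℂ) * om))⁻¹‖ = Real.exp (-r ^ 4 / 8) := by
  unfold El
  rw [← Complex.exp_neg, Complex.norm_exp]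
  congr 1
  have := re_pow_ray (1 / 4) r (Real.pi / 6) 4
  have e : -(-((r : ℂ) * om) ^ 4 / 4)
    = ((1 / 4 : ℝ) : ℂ) * ((r : ℂ) * cis (Real.pi / 6)) ^ 4 := by
    rw [om]; push_cast; ring
  rw [e, this]
  have h : Real.cos (((4 : ℕ) : ℝ) * (Real.pi / 6)) = -1 / 2 := by
    rw [← cos_two_pi_three]; congr 1; push_cast; ring
  rw [h]
  ring

/-- integrand on the ray -/
def Rf (E : ℂ → ℂ) (σ x r : ℝ) : ℂ :=
  (E ((r : ℂ) * om))⁻¹ * Complex.exp (-(σ : ℂ) * ((r : ℂ) * om) ^ 2 / 2) *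
    Complex.exp ((x : ℂ) * ((r : ℂ) * om)) * om

/-- ray integral -/
def RI (E : ℂ → ℂ) (σ x : ℝ) : ℂ := ∫ r in Ioi (0 : ℝ), Rf E σ x r

/-- bound on the ray -/
def RB (E : ℂ → ℂ) (σ C δ : ℝ) : Prop := ∀ r : ℝ, 0 ≤ r →
  ‖(E ((r : ℂ) * om))⁻¹ * Complex.exp (-(σ : ℂ) * ((r : ℂ) * om) ^ 2 / 2)‖
    ≤ C * Real.exp (-(1 + 1 / (4 * δ)) * r ^ 2)

lemma RB.nonneg {E : ℂ → ℂ} {σ C δ : ℝ} (h : RB E σ C δ) : 0 ≤ C := by
  have h2 := le_trans (norm_nonneg _) (h 0 le_rfl)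
  simpa using h2

lemma exp_x_le {v X r δ : ℝ} (hδ : 0 < δ) (hX : 0 ≤ X) (hv : v ≤ X) (hr : 0 ≤ r) :
    Real.exp (-(1 + 1 / (4 * δ)) * r ^ 2) * Real.exp (v * r * Real.cos (Real.pi / 6))
      ≤ Real.exp (δ * X ^ 2) * Real.exp (-1 * r ^ 2) := by
  rw [← Real.exp_add, ← Real.exp_add]
  apply Real.exp_le_exp.mpr
  have h1 : v * r * Real.cos (Real.pi / 6) ≤ X * r := by
    calc v * r * Real.cos (Real.pi / 6) ≤ X * r * Real.cos (Real.pi / 6) := by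
          have := cos_pi_six_nonneg
          gcongr
      _ ≤ X * r * 1 := by
          have := cos_pi_six_le
          gcongr
      _ = X * r := mul_one _
  have h2 : X * r ≤ 1 / (4 * δ) * r ^ 2 + δ * X ^ 2 := by
    have h3 : 0 ≤ 1 / (4 * δ) * (r - 2 * δ * X) ^ 2 := by positivity
    have h4 : 1 / (4 * δ) * (r - 2 * δ * X) ^ 2 = 1 / (4 * δ) * r ^ 2 - X * r + δ * X ^ 2 := by
      field_simp
      ring
    linarith
  linarith

lemma norm_Rf_le {E : ℂ → ℂ} {σ C δ : ℝ} (h : RB E σ C δ) (hδ : 0 < δ) {v X : ℝ} (hX : 0 ≤ X)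
    (hv : v ≤ X) {r : ℝ} (hr : 0 ≤ r) :
    ‖Rf E σ v r‖ ≤ (C * Real.exp (δ * X ^ 2)) * Real.exp (-1 * r ^ 2) := by
  unfold Rf
  rw [norm_mul, norm_mul, om, norm_cis, mul_one, ← om, norm_exp_x]
  have hC := h.nonneg
  calc _ ≤ (C * Real.exp (-(1 + 1 / (4 * δ)) * r ^ 2))
        * Real.exp (v * r * Real.cos (Real.pi / 6)) := by
        gcongr
        exact h r hr
    _ = C * (Real.exp (-(1 + 1 / (4 * δ)) * r ^ 2)
        * Real.exp (v * r * Real.cos (Real.pi / 6))) := by ring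
    _ ≤ C * (Real.exp (δ * X ^ 2) * Real.exp (-1 * r ^ 2)) :=
        mul_le_mul_of_nonneg_left (exp_x_le hδ hX hv hr) hC
    _ = _ := by ring

lemma Rf_meas {E : ℂ → ℂ} (hE : Continuous E) (σ x : ℝ) : Measurable (Rf E σ x) := by
  unfold Rf
  have h1 : Measurable fun r : ℝ => (E ((r : ℂ) * om))⁻¹ :=
    (hE.comp (by fun_prop : Continuous fun r : ℝ => (r : ℂ) * om)).measurable.inv
  have h2 : Measurable fun r : ℝ => Complex.exp (-(σ : ℂ) * ((r : ℂ) * om) ^ 2 / 2) :=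
    (by fun_prop : Continuous fun r : ℝ =>
      Complex.exp (-(σ : ℂ) * ((r : ℂ) * om) ^ 2 / 2)).measurable
  have h3 : Measurable fun r : ℝ => Complex.exp ((x : ℂ) * ((r : ℂ) * om)) :=
    (by fun_prop : Continuous fun r : ℝ => Complex.exp ((x : ℂ) * ((r : ℂ) * om))).measurable
  exact ((h1.mul h2).mul h3).mul_const om

lemma Rf_int {E : ℂ → ℂ} (hE : Continuous E) {σ C δ : ℝ} (h : RB E σ C δ) (hδ : 0 < δ) (x : ℝ) :
    IntegrableOn (Rf E σ x) (Ioi 0) := by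
  refine Integrable.mono' (integrable_gauss (C * Real.exp (δ * |x| ^ 2))).integrableOn
    (Rf_meas hE σ x).aestronglyMeasurable ?_
  refine (ae_restrict_iff' measurableSet_Ioi).mpr (Eventually.of_forall fun r hr => ?_)
  exact norm_Rf_le h hδ (abs_nonneg x) (le_abs_self x) (le_of_lt hr)

lemma RI_bound {E : ℂ → ℂ} {σ C δ : ℝ} (h : RB E σ C δ) (hδ : 0 < δ) {v X : ℝ} (hX : 0 ≤ X)
    (hv : v ≤ X) : ‖RI E σ v‖ ≤ (C * Real.exp (δ * X ^ 2)) *
      ∫ r in Ioi (0 : ℝ), Real.exp (-1 * r ^ 2) := by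
  unfold RI
  refine (norm_integral_le_of_norm_le
    (integrable_gauss (C * Real.exp (δ * X ^ 2))).integrableOn ?_).trans ?_
  · refine (ae_restrict_iff' measurableSet_Ioi).mpr (Eventually.of_forall fun r hr => ?_)
    exact norm_Rf_le h hδ hX hv (le_of_lt hr)
  · rw [integral_const_mul]

lemma RB_FN (M δ : ℝ) : ∃ C : ℝ, ∃ N0 : ℕ, ∀ N ≥ N0, ∀ σ ∈ Icc (-M) M, RB (FN N) σ C δ := by
  obtain ⟨C, N0, h⟩ := FN_ray M (1 + 1 / (4 * δ))
  exact ⟨C, N0, fun N hN σ hσ r hr => (h N hN σ hσ r hr).2⟩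

lemma quartic_le (A r : ℝ) : -r ^ 4 / 8 + A * r ^ 2 ≤ 2 * A ^ 2 := by
  nlinarith [sq_nonneg (r ^ 2 - 4 * A)]

lemma RB_El (M δ : ℝ) : ∃ C : ℝ, ∀ σ ∈ Icc (-M) M, RB El σ C δ := by
  refine ⟨Real.exp (2 * (M / 4 + (1 + 1 / (4 * δ))) ^ 2), fun σ hσ r hr => ?_⟩
  rw [norm_mul, norm_El_inv, norm_exp_s, ← Real.exp_add, ← Real.exp_add]
  apply Real.exp_le_exp.mpr
  have h1 := quartic_le (M / 4 + (1 + 1 / (4 * δ))) r
  have h2 : -σ * r ^ 2 ≤ M * r ^ 2 := by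
    have : -σ ≤ M := by linarith [hσ.1]
    gcongr
  linarith

lemma Qn_eq {N : ℕ} (hN : 2 ≤ N) {σ : ℝ} (hσ : 0 < SN N + σ) (x : ℝ) :
    Qn N σ x = (RI (FN N) σ x).im / Real.pi := by
  rw [Qn_contour hN hσ]
  unfold ray RI Rf
  congr 3
  funext r
  simp only []
  rw [← om, Complex.exp_add]
  ring

lemma Ql_eq (σ x : ℝ) : Ql σ x = (RI El σ x).im / Real.pi := by
  have hrot : ray (qint σ x) (cis (Real.pi / 6)) = ray (qint σ x) (cis (Real.pi / 4)) := by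
    have hgle : ∀ r : ℝ, Real.exp (-r ^ 4 / 8 + |σ| * r ^ 2 / 2 + |x| * r)
        ≤ Real.exp (2 * (|σ| / 2 + 3) ^ 2 + x ^ 2 / 4) * Real.exp (-2 * r ^ 2) := by
      intro r
      rw [← Real.exp_add]
      apply Real.exp_le_exp.mpr
      have h1 := quartic_le (|σ| / 2 + 3) r
      have h2 : |x| * r ≤ r ^ 2 + x ^ 2 / 4 := by
        rw [← sq_abs x]
        nlinarith [sq_nonneg (r - |x| / 2)]
      linarith
    have hgc : Continuous fun r : ℝ => Real.exp (-r ^ 4 / 8 + |σ| * r ^ 2 / 2 + |x| * r) := by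
      fun_prop
    refine ray_rotate (qint σ x) (Real.pi / 6) (Real.pi / 4) (by linarith [Real.pi_pos]) ?_
      (fun r => Real.exp (-r ^ 4 / 8 + |σ| * r ^ 2 / 2 + |x| * r)) ?_ ?_ ?_ ?_
    · intro r hr α hα
      have : Differentiable ℂ (qint σ x) := by unfold qint; fun_prop
      exact this _
    · intro r hr α hα
      rw [norm_qint]
      apply Real.exp_le_exp.mpr
      have h1 : Real.cos (4 * α) ≤ -1 / 2 := by
        rw [← cos_two_pi_three]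
        apply Real.cos_le_cos_of_nonneg_of_le_pi
        · linarith [Real.pi_pos]
        · linarith [hα.2]
        · linarith [hα.1]
      have h2 : -(σ * r ^ 2 * Real.cos (2 * α)) ≤ |σ| * r ^ 2 := by
        have : |σ * r ^ 2 * Real.cos (2 * α)| ≤ |σ| * r ^ 2 := by
          rw [abs_mul, abs_mul, abs_of_nonneg (sq_nonneg r)]
          calc |σ| * r ^ 2 * |Real.cos (2 * α)| ≤ |σ| * r ^ 2 * 1 := by
                gcongr
                exact Real.abs_cos_le_one _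
            _ = _ := mul_one _
        linarith [neg_abs_le (σ * r ^ 2 * Real.cos (2 * α))]
      have h3 : x * r * Real.cos α ≤ |x| * r := by
        have : |x * r * Real.cos α| ≤ |x| * r := by
          rw [abs_mul, abs_mul, abs_of_nonneg hr.le]
          calc |x| * r * |Real.cos α| ≤ |x| * r * 1 := by
                gcongr
                exact Real.abs_cos_le_one _
            _ = _ := mul_one _
        linarith [le_abs_self (x * r * Real.cos α)]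
      have h4 : r ^ 4 * Real.cos (4 * α) ≤ r ^ 4 * (-1 / 2) := by
        gcongr
      linarith
    · refine Integrable.mono' (((integrable_exp_neg_mul_sq (b := 2) two_pos).const_mul
        (Real.exp (2 * (|σ| / 2 + 3) ^ 2 + x ^ 2 / 4))).integrableOn)
        hgc.aestronglyMeasurable ?_
      refine Eventually.of_forall fun r => ?_
      rw [Real.norm_of_nonneg (Real.exp_pos _).le]
      exact hgle r
    · have : Tendsto (fun r : ℝ => r * Real.exp (-r ^ 4 / 8 + |σ| * r ^ 2 / 2 + |x| * r))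
          (𝓝 0) (𝓝 0) := by
        have hc : Continuous fun r : ℝ =>
          r * Real.exp (-r ^ 4 / 8 + |σ| * r ^ 2 / 2 + |x| * r) := continuous_id.mul hgc
        exact hc.tendsto' 0 0 (by simp)
      exact this.mono_left nhdsWithin_le_nhds
    · refine squeeze_zero' (eventually_ge_atTop 0 |>.mono fun r hr => by positivity) ?_
        (tendsto_gauss_top (Real.exp (2 * (|σ| / 2 + 3) ^ 2 + x ^ 2 / 4)))
      filter_upwards [eventually_ge_atTop (0 : ℝ)] with r hr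
      have h5 : r ≤ Real.exp (r ^ 2) := by
        have := Real.add_one_le_exp (r ^ 2)
        nlinarith [sq_nonneg (r - 1 / 2)]
      calc r * Real.exp (-r ^ 4 / 8 + |σ| * r ^ 2 / 2 + |x| * r)
          ≤ Real.exp (r ^ 2) * (Real.exp (2 * (|σ| / 2 + 3) ^ 2 + x ^ 2 / 4)
            * Real.exp (-2 * r ^ 2)) := by
            gcongr
            exact hgle r
        _ = Real.exp (2 * (|σ| / 2 + 3) ^ 2 + x ^ 2 / 4) * Real.exp (-1 * r ^ 2) := by
            rw [← Real.exp_add, ← Real.exp_add, ← Real.exp_add]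
            congr 1
            ring
  unfold Ql
  rw [← hrot]
  unfold ray RI Rf
  congr 3
  funext r
  unfold qint El
  rw [← om, ← Complex.exp_neg, ← Complex.exp_add, ← Complex.exp_add]
  congr 2
  ring

lemma im_bound (z : ℂ) {B : ℝ} (h : ‖z‖ ≤ B) : |z.im / Real.pi| ≤ B := by
  rw [abs_div, abs_of_pos Real.pi_pos, div_le_iff₀ Real.pi_pos]
  have h1 := (Complex.abs_im_le_norm z).trans h
  have h2 : 0 ≤ B := le_trans (norm_nonneg _) h
  nlinarith [Real.pi_gt_three]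

/-- weighted distance on the ray -/
def DR (M X : ℝ) (N : ℕ) : ℝ :=
  ∫ r in Ioi (0 : ℝ), ‖(FN N ((r : ℂ) * om))⁻¹ - (El ((r : ℂ) * om))⁻¹‖ *
    (Real.exp (M * r ^ 2 / 4) * Real.exp (X * r * Real.cos (Real.pi / 6)))

lemma weightR {M X C : ℝ} {E : ℂ → ℂ} (hX : 0 ≤ X) (h : RB E (-M) C 1) {r : ℝ} (hr : 0 ≤ r) :
    ‖(E ((r : ℂ) * om))⁻¹‖ * (Real.exp (M * r ^ 2 / 4) *
      Real.exp (X * r * Real.cos (Real.pi / 6))) ≤ C * Real.exp (1 * X ^ 2)
        * Real.exp (-1 * r ^ 2) := by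
  have h1 := norm_Rf_le h one_pos hX le_rfl hr
  unfold Rf at h1
  rw [norm_mul, norm_mul, om, norm_cis, mul_one, ← om, norm_exp_x, norm_mul, norm_exp_s] at h1
  rw [show -(-M * r ^ 2) / 4 = M * r ^ 2 / 4 by ring, mul_assoc] at h1
  exact h1

lemma DR_meas (M X : ℝ) (N : ℕ) : Measurable fun r : ℝ =>
    ‖(FN N ((r : ℂ) * om))⁻¹ - (El ((r : ℂ) * om))⁻¹‖ *
    (Real.exp (M * r ^ 2 / 4) * Real.exp (X * r * Real.cos (Real.pi / 6))) := by
  have h1 : Measurable fun r : ℝ => (FN N ((r : ℂ) * om))⁻¹ :=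
    ((FN_diff N).continuous.comp
      (by fun_prop : Continuous fun r : ℝ => (r : ℂ) * om)).measurable.inv
  have h2 : Measurable fun r : ℝ => (El ((r : ℂ) * om))⁻¹ :=
    (El_diff.continuous.comp
      (by fun_prop : Continuous fun r : ℝ => (r : ℂ) * om)).measurable.inv
  have h3 : Measurable fun r : ℝ => (Real.exp (M * r ^ 2 / 4) *
      Real.exp (X * r * Real.cos (Real.pi / 6))) :=
    (by fun_prop : Continuous fun r : ℝ => (Real.exp (M * r ^ 2 / 4) *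
      Real.exp (X * r * Real.cos (Real.pi / 6)))).measurable
  exact (h1.sub h2).norm.mul h3

lemma DR_le {M X C1 C2 : ℝ} {N : ℕ} (hX : 0 ≤ X) (h1 : RB (FN N) (-M) C1 1)
    (h2 : RB El (-M) C2 1) {r : ℝ} (hr : 0 ≤ r) :
    ‖(FN N ((r : ℂ) * om))⁻¹ - (El ((r : ℂ) * om))⁻¹‖ *
    (Real.exp (M * r ^ 2 / 4) * Real.exp (X * r * Real.cos (Real.pi / 6)))
      ≤ (C1 + C2) * Real.exp (1 * X ^ 2) * Real.exp (-1 * r ^ 2) := by
  have b1 := weightR hX h1 hr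
  have b2 := weightR hX h2 hr
  have b3 := norm_sub_le (FN N ((r : ℂ) * om))⁻¹ (El ((r : ℂ) * om))⁻¹
  have b4 := mul_le_mul_of_nonneg_right b3 (by positivity : 0 ≤ Real.exp (M * r ^ 2 / 4) *
    Real.exp (X * r * Real.cos (Real.pi / 6)))
  rw [add_mul] at b4
  linarith

lemma DR_tendsto (M X : ℝ) (hM : 0 ≤ M) (hX : 0 ≤ X) : Tendsto (fun N => DR M X N) atTop (𝓝 0) := by
  have hMm : -M ∈ Icc (-M) M := ⟨le_rfl, by linarith⟩
  obtain ⟨C1, N0, h1⟩ := RB_FN M 1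
  obtain ⟨C2, h2⟩ := RB_El M 1
  have hz : (0 : ℝ) = ∫ r in Ioi (0 : ℝ), (0 : ℝ) := by simp
  rw [hz]
  refine tendsto_integral_filter_of_dominated_convergence
    (fun r => (C1 + C2) * Real.exp (1 * X ^ 2) * Real.exp (-1 * r ^ 2)) ?_ ?_
    (integrable_gauss _).integrableOn ?_
  · exact Eventually.of_forall fun N => (DR_meas M X N).aestronglyMeasurable
  · filter_upwards [eventually_ge_atTop N0] with N hN
    refine (ae_restrict_iff' measurableSet_Ioi).mpr (Eventually.of_forall fun r hr => ?_)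
    rw [Real.norm_of_nonneg (by positivity)]
    exact DR_le hX (h1 N hN (-M) hMm) (h2 (-M) hMm) (le_of_lt hr)
  · refine Eventually.of_forall fun r => ?_
    have h3 : Tendsto (fun N => (FN N ((r : ℂ) * om))⁻¹) atTop (𝓝 (El ((r : ℂ) * om))⁻¹) :=
      (FN_tendsto _).inv₀ (Complex.exp_ne_zero _)
    have h4 := (h3.sub_const ((El ((r : ℂ) * om))⁻¹)).norm.mul_const
      (Real.exp (M * r ^ 2 / 4) * Real.exp (X * r * Real.cos (Real.pi / 6)))
    simpa using h4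

lemma RI_diff {M X C1 C2 : ℝ} {N : ℕ} (hM : 0 ≤ M) (hX : 0 ≤ X)
    (h1 : ∀ σ ∈ Icc (-M) M, RB (FN N) σ C1 1)
    (h2 : ∀ σ ∈ Icc (-M) M, RB El σ C2 1) {σ : ℝ} (hσ : σ ∈ Icc (-M) M) {v : ℝ} (hv : v ≤ X) :
    ‖RI (FN N) σ v - RI El σ v‖ ≤ DR M X N := by
  have hMm : -M ∈ Icc (-M) M := ⟨le_rfl, by linarith⟩
  unfold RI
  rw [← integral_sub (Rf_int (FN_diff N).continuous (h1 σ hσ) one_pos v)
    (Rf_int El_diff.continuous (h2 σ hσ) one_pos v)]
  have hint : IntegrableOn (fun r : ℝ =>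
      ‖(FN N ((r : ℂ) * om))⁻¹ - (El ((r : ℂ) * om))⁻¹‖ *
      (Real.exp (M * r ^ 2 / 4) * Real.exp (X * r * Real.cos (Real.pi / 6)))) (Ioi 0) := by
    refine Integrable.mono' (integrable_gauss ((C1 + C2) * Real.exp (1 * X ^ 2))).integrableOn
      (DR_meas M X N).aestronglyMeasurable ?_
    refine (ae_restrict_iff' measurableSet_Ioi).mpr (Eventually.of_forall fun r hr => ?_)
    rw [Real.norm_of_nonneg (by positivity)]
    exact DR_le hX (h1 (-M) hMm) (h2 (-M) hMm) (le_of_lt hr)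
  refine norm_integral_le_of_norm_le hint ?_
  refine (ae_restrict_iff' measurableSet_Ioi).mpr (Eventually.of_forall fun r hr => ?_)
  have hr' : 0 ≤ r := le_of_lt hr
  have e : Rf (FN N) σ v r - Rf El σ v r = ((FN N ((r : ℂ) * om))⁻¹ - (El ((r : ℂ) * om))⁻¹) *
      (Complex.exp (-(σ : ℂ) * ((r : ℂ) * om) ^ 2 / 2) *
      Complex.exp ((v : ℂ) * ((r : ℂ) * om))) * om := by
    unfold Rf; ring
  rw [e, norm_mul, norm_mul, norm_mul, om, norm_cis, mul_one, ← om, norm_exp_x, norm_exp_s]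
  have h6 : -(σ * r ^ 2) / 4 ≤ M * r ^ 2 / 4 := by
    have a2 : -σ * r ^ 2 ≤ M * r ^ 2 := by
      have : -σ ≤ M := by linarith [hσ.1]
      gcongr
    linarith
  have h7 := cos_pi_six_nonneg
  gcongr

lemma SN_large (M : ℝ) : ∃ N0 : ℕ, ∀ N ≥ N0, 2 ≤ N ∧ ∀ σ ∈ Icc (-M) M, 0 < SN N + σ := by
  obtain ⟨K, hK⟩ := exists_nat_gt (2 * M ^ 2)
  refine ⟨max 2 K, fun N hN => ?_⟩
  have h2 : 2 ≤ N := le_trans (le_max_left _ _) hN
  have hKN : (K : ℝ) ≤ N := by exact_mod_cast le_trans (le_max_right _ _) hN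
  refine ⟨h2, fun σ hσ => ?_⟩
  have h3 := SN_ge h2
  have h4 : (2 : ℝ) ≤ N := by exact_mod_cast h2
  have h5 : (1 : ℝ) / 2 ≤ 1 - 1 / N := by
    have : (1 : ℝ) / N ≤ 1 / 2 := by
      apply one_div_le_one_div_of_le <;> linarith
    linarith
  have h6 : 2 * M < Real.sqrt (2 * N) := by
    by_cases hM : M < 0
    · have := Real.sqrt_nonneg (2 * (N : ℝ))
      linarith
    · apply Real.lt_sqrt_of_sq_lt
      nlinarith
  have h7 : Real.sqrt (2 * N) * (1 / 2) ≤ Real.sqrt (2 * N) * (1 - 1 / N) := by gcongr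
  linarith [hσ.1]

end PQ

open PQ

theorem Pn_bound (M : ℝ) : ∃ C : ℝ, ∃ N0 : ℕ, ∀ N ≥ N0, ∀ τ ∈ Icc (-M) M, ∀ y : ℝ,
    |Pn N τ y| ≤ C * Real.exp (-|y|) := by
  obtain ⟨C, N0, h⟩ := SB_FN M 1
  refine ⟨1 / (2 * Real.pi) * (C * ∫ u : ℝ, Real.exp (-1 * u ^ 2)), N0, fun N hN τ hτ y => ?_⟩
  rw [Pn_eq]
  refine (re_bound _ (LI_bound (FN_diff N) (h N hN τ hτ) zero_le_one y)).trans (le_of_eq ?_)
  rw [show -(1 : ℝ) * |y| = -|y| by ring]
  ring

theorem Pn_conv (M ε : ℝ) (hε : 0 < ε) : ∃ N0 : ℕ, ∀ N ≥ N0, ∀ τ ∈ Icc (-M) M, ∀ y : ℝ,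
    |Pn N τ y - Pl τ y| ≤ ε * Real.exp (-|y|) := by
  by_cases hM : 0 ≤ M
  swap
  · refine ⟨0, fun N _ τ hτ y => ?_⟩
    exact absurd (le_trans hτ.1 hτ.2) (by push Not at hM ⊢; linarith)
  obtain ⟨C1, N1, h1⟩ := SB_FN M 1
  obtain ⟨C2, h2⟩ := SB_El M 1 zero_le_one
  have e1 := (DN_tendsto M 1 hM (by norm_num)).eventually (ge_mem_nhds hε)
  have e2 := (DN_tendsto M (-1) hM (by norm_num)).eventually (ge_mem_nhds hε)
  obtain ⟨N2, h3⟩ := eventually_atTop.mp (e1.and e2)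
  refine ⟨max N1 N2, fun N hN τ hτ y => ?_⟩
  have hd := LI_diff hM (h1 N (le_trans (le_max_left _ _) hN)) h2 hτ y
    (h3 N (le_trans (le_max_right _ _) hN)).1 (h3 N (le_trans (le_max_right _ _) hN)).2
  rw [Pn_eq, Pl_eq, ← Complex.sub_re, ← mul_sub]
  refine (re_bound _ hd).trans ?_
  have hp : 1 / (2 * Real.pi) ≤ 1 := by
    rw [div_le_one (by positivity)]
    linarith [Real.pi_gt_three]
  have hnn : 0 ≤ ε * Real.exp (-|y|) := by positivity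
  calc 1 / (2 * Real.pi) * (ε * Real.exp (-|y|)) ≤ 1 * (ε * Real.exp (-|y|)) := by gcongr
    _ = _ := one_mul _

theorem Pl_even (τ y : ℝ) : Pl τ (-y) = Pl τ y := by
  unfold Pl
  congr 2
  funext u
  rw [neg_mul, Real.cos_neg]

theorem Pl_bound (M c : ℝ) : ∃ C : ℝ, ∀ τ ∈ Icc (-M) M, ∀ y : ℝ,
    |Pl τ y| ≤ C * Real.exp (-c * |y|) := by
  obtain ⟨C, h⟩ := SB_El M |c| (abs_nonneg c)
  refine ⟨1 / (2 * Real.pi) * (C * ∫ u : ℝ, Real.exp (-1 * u ^ 2)), fun τ hτ y => ?_⟩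
  rw [Pl_eq]
  have hC := (h τ hτ).nonneg (abs_nonneg c)
  refine (re_bound _ (LI_bound El_diff (h τ hτ) (abs_nonneg c) y)).trans ?_
  have h1 : Real.exp (-|c| * |y|) ≤ Real.exp (-c * |y|) := by
    apply Real.exp_le_exp.mpr
    have : -|c| ≤ -c := neg_le_neg (le_abs_self c)
    gcongr
  have h2 : 0 ≤ ∫ u : ℝ, Real.exp (-1 * u ^ 2) := integral_nonneg fun u => (Real.exp_pos _).le
  calc 1 / (2 * Real.pi) * (Real.exp (-|c| * |y|) * (C * ∫ u : ℝ, Real.exp (-1 * u ^ 2)))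
      ≤ 1 / (2 * Real.pi) * (Real.exp (-c * |y|) * (C * ∫ u : ℝ, Real.exp (-1 * u ^ 2))) := by
        gcongr
    _ = _ := by ring

theorem Pl_continuous : Continuous (fun p : ℝ × ℝ => Pl p.1 p.2) := by
  unfold Pl
  apply Continuous.mul continuous_const
  rw [continuous_iff_continuousAt]
  intro p0
  refine continuousAt_of_dominated (bound := fun u => Real.exp ((|p0.1| + 3) ^ 2 / 4)
    * Real.exp (-1 * u ^ 2)) ?_ ?_ ((integrable_exp_neg_mul_sq one_pos).const_mul _) ?_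
  · refine Eventually.of_forall fun p => Continuous.aestronglyMeasurable ?_
    fun_prop
  · have hn : ∀ᶠ p : ℝ × ℝ in 𝓝 p0, |p.1| < |p0.1| + 1 := by
      have : Continuous fun p : ℝ × ℝ => |p.1| := by fun_prop
      exact this.continuousAt.eventually (gt_mem_nhds (by linarith))
    filter_upwards [hn] with p hp
    refine Eventually.of_forall fun u => ?_
    rw [norm_mul, Real.norm_eq_abs, Real.abs_exp, ← Real.exp_add]
    have h1 : ‖Real.cos (p.2 * u)‖ ≤ 1 := Real.abs_cos_le_one _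
    calc _ ≤ Real.exp (-u ^ 4 / 4 - p.1 * u ^ 2 / 2) * 1 := by gcongr
      _ = Real.exp (-u ^ 4 / 4 - p.1 * u ^ 2 / 2) := mul_one _
      _ ≤ _ := by
        apply Real.exp_le_exp.mpr
        have h2 : -p.1 * u ^ 2 ≤ (|p0.1| + 1) * u ^ 2 := by
          have : -p.1 ≤ |p0.1| + 1 := by linarith [neg_abs_le p.1]
          gcongr
        nlinarith [sq_nonneg (u ^ 2 - (|p0.1| + 3)), abs_nonneg p0.1]
  · refine Eventually.of_forall fun u => Continuous.continuousAt ?_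
    fun_prop


theorem Qn_bound (M δ : ℝ) (hδ : 0 < δ) : ∃ C : ℝ, ∃ N0 : ℕ, ∀ N ≥ N0, ∀ σ ∈ Icc (-M) M,
    ∀ X : ℝ, 0 ≤ X → ∀ v ≤ X, |Qn N σ v| ≤ C * Real.exp (δ * X ^ 2) := by
  obtain ⟨C, N1, h1⟩ := RB_FN M δ
  obtain ⟨N2, h2⟩ := SN_large M
  refine ⟨C * ∫ r in Ioi (0 : ℝ), Real.exp (-1 * r ^ 2), max N1 N2, ?_⟩
  intro N hN σ hσ X hX v hv
  obtain ⟨h3, h4⟩ := h2 N (le_trans (le_max_right _ _) hN)
  rw [Qn_eq h3 (h4 σ hσ)]
  refine (im_bound _ (RI_bound (h1 N (le_trans (le_max_left _ _) hN) σ hσ) hδ hX hv)).trans ?_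
  apply le_of_eq
  ring

theorem Qn_conv (M X ε : ℝ) (hε : 0 < ε) : ∃ N0 : ℕ, ∀ N ≥ N0, ∀ σ ∈ Icc (-M) M, ∀ v ≤ X,
    |Qn N σ v - Ql σ v| ≤ ε := by
  by_cases hM : 0 ≤ M
  swap
  · refine ⟨0, fun N _ τ hτ y => ?_⟩
    exact absurd (le_trans hτ.1 hτ.2) (by push Not at hM ⊢; linarith)
  obtain ⟨C1, N1, h1⟩ := RB_FN M 1
  obtain ⟨C2, h2⟩ := RB_El M 1
  obtain ⟨N3, h5⟩ := SN_large M
  obtain ⟨N2, h3⟩ := eventually_atTop.mp
    ((DR_tendsto M |X| hM (abs_nonneg X)).eventually (ge_mem_nhds hε))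
  refine ⟨max N1 (max N2 N3), fun N hN σ hσ v hv => ?_⟩
  have hN1 : N1 ≤ N := le_trans (le_max_left _ _) hN
  have hN2 : N2 ≤ N := le_trans (le_trans (le_max_left _ _) (le_max_right _ _)) hN
  have hN3 : N3 ≤ N := le_trans (le_trans (le_max_right _ _) (le_max_right _ _)) hN
  obtain ⟨h6, h7⟩ := h5 N hN3
  rw [Qn_eq h6 (h7 σ hσ), Ql_eq, ← sub_div, ← Complex.sub_im]
  exact (im_bound _ (RI_diff hM (abs_nonneg X) (h1 N hN1) h2 hσ
    (hv.trans (le_abs_self X)))).trans (h3 N hN2)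

theorem Ql_bound (M δ : ℝ) (hδ : 0 < δ) : ∃ C : ℝ, ∀ σ ∈ Icc (-M) M,
    ∀ X : ℝ, 0 ≤ X → ∀ v ≤ X, |Ql σ v| ≤ C * Real.exp (δ * X ^ 2) := by
  obtain ⟨C, h1⟩ := RB_El M δ
  refine ⟨C * ∫ r in Ioi (0 : ℝ), Real.exp (-1 * r ^ 2), ?_⟩
  intro σ hσ X hX v hv
  rw [Ql_eq]
  refine (im_bound _ (RI_bound (h1 σ hσ) hδ hX hv)).trans ?_
  apply le_of_eq
  ring

theorem Ql_continuous : Continuous (fun p : ℝ × ℝ => Ql p.1 p.2) := by
  have : (fun p : ℝ × ℝ => Ql p.1 p.2) = fun p : ℝ × ℝ => (RI El p.1 p.2).im / Real.pi := by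
    funext p; exact Ql_eq _ _
  rw [this]
  refine Continuous.div_const (Complex.continuous_im.comp ?_) _
  unfold RI
  rw [continuous_iff_continuousAt]
  intro p0
  obtain ⟨C, hC⟩ := RB_El (|p0.1| + 1) 1
  refine continuousAt_of_dominated (bound := fun r =>
    (C * Real.exp (1 * (|p0.2| + 1) ^ 2)) * Real.exp (-1 * r ^ 2)) ?_ ?_
    (integrable_gauss _).integrableOn ?_
  · exact Eventually.of_forall fun p => (Rf_meas El_diff.continuous _ _).aestronglyMeasurable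
  · have hn : ∀ᶠ p : ℝ × ℝ in 𝓝 p0, |p.1| < |p0.1| + 1 ∧ |p.2| < |p0.2| + 1 := by
      have c1 : Continuous fun p : ℝ × ℝ => |p.1| := by fun_prop
      have c2 : Continuous fun p : ℝ × ℝ => |p.2| := by fun_prop
      exact (c1.continuousAt.eventually (gt_mem_nhds (by linarith))).and
        (c2.continuousAt.eventually (gt_mem_nhds (by linarith)))
    filter_upwards [hn] with p hp
    refine (ae_restrict_iff' measurableSet_Ioi).mpr (Eventually.of_forall fun r hr => ?_)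
    exact norm_Rf_le (hC p.1 (abs_le.mp hp.1.le)) one_pos (by positivity)
      ((le_abs_self _).trans hp.2.le) (le_of_lt hr)
  · refine Eventually.of_forall fun r => Continuous.continuousAt ?_
    unfold Rf
    fun_prop

end Pool.Agent.H.MP_5ad92a_pr
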