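import Pool.Agent.H.MP_5ad92a_pr.Defs
import Pool.Agent.H.MP_5ad92a_pr.FNBounds
import Pool.Agent.H.MP_5ad92a_pr.PQ
import Pool.Agent.H.MP_5ad92a_pr.KnLambda

/-!
# Pearcey line ensemble: kernel level convergence and bounds
-/

set_option autoImplicit false

open MeasureTheory Filter Topology Set

namespace Pool.Agent.H.MP_5ad92a_pr

attribute [local irreducible] Pl Ql

namespace KnLimitAux

theorem exp_integral : ∫ l : ℝ, Real.exp (-|l|) = 2 := by
  rw [integral_comp_abs (f := fun x => Real.exp (-x)), integral_exp_neg_Ioi_zero, mul_one]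

theorem exp_int : Integrable (fun l : ℝ => Real.exp (-|l|)) := by
  by_contra h
  have h2 := exp_integral
  rw [integral_undef h] at h2
  norm_num at h2

theorem exp_int' (y : ℝ) : Integrable (fun l : ℝ => Real.exp (-|y - l|)) := by
  have h := exp_int.comp_sub_left y
  exact h

theorem exp_integral' (y : ℝ) : ∫ l : ℝ, Real.exp (-|y - l|) = 2 := by
  rw [← exp_integral]
  exact integral_sub_left_eq_self (fun l => Real.exp (-|l|)) volume y

theorem exp_integral_Ioi (y : ℝ) : ∫ l in Ioi (0 : ℝ), Real.exp (-|y - l|) ≤ 2 := by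
  rw [← exp_integral' y]
  exact setIntegral_le_integral (exp_int' y) (ae_of_all _ fun l => (Real.exp_pos _).le)

/-- The basic estimate. -/
theorem conv_bound {q p : ℝ → ℝ} {B C x y : ℝ} (hB : 0 ≤ B) (hC : 0 ≤ C)
    (hq : ∀ v ≤ x, |q v| ≤ B) (hp : ∀ v, |p v| ≤ C * Real.exp (-|v|)) :
    |∫ l in Ioi (0 : ℝ), q (x - l) * p (y - l)| ≤ 2 * (B * C) := by
  have h : ‖∫ l in Ioi (0 : ℝ), q (x - l) * p (y - l)‖ ≤
      ∫ l in Ioi (0 : ℝ), B * C * Real.exp (-|y - l|) := by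
    refine norm_integral_le_of_norm_le ((exp_int' y).integrableOn.const_mul _) ?_
    refine (ae_restrict_mem measurableSet_Ioi).mono fun l hl => ?_
    have hl' : (0 : ℝ) < l := hl
    rw [Real.norm_eq_abs, abs_mul, mul_assoc]
    exact mul_le_mul (hq _ (by linarith)) (hp _) (abs_nonneg _) hB
  rw [← Real.norm_eq_abs]
  refine h.trans ?_
  rw [integral_const_mul]
  nlinarith [exp_integral_Ioi y, mul_nonneg hB hC]

theorem conv_integrable {q p : ℝ → ℝ} {B C x y : ℝ}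
    (hqm : Measurable q) (hpm : Measurable p)
    (hB : 0 ≤ B)
    (hq : ∀ v ≤ x, |q v| ≤ B) (hp : ∀ v, |p v| ≤ C * Real.exp (-|v|)) :
    IntegrableOn (fun l => q (x - l) * p (y - l)) (Ioi (0 : ℝ)) := by
  refine Integrable.mono' ((exp_int' y).integrableOn.const_mul (B * C)) ?_ ?_
  · exact ((hqm.comp (measurable_const.sub measurable_id)).mul
      (hpm.comp (measurable_const.sub measurable_id))).aestronglyMeasurable
  · refine (ae_restrict_mem measurableSet_Ioi).mono fun l hl => ?_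
    have hl' : (0 : ℝ) < l := hl
    rw [Real.norm_eq_abs, abs_mul, mul_assoc]
    exact mul_le_mul (hq _ (by linarith)) (hp _) (abs_nonneg _) hB

theorem Qn_measurable (N : ℕ) (σ : ℝ) : Measurable (Qn N σ) := by
  have : Continuous (Qn N σ) := by
    unfold Qn
    fun_prop
  exact this.measurable

theorem Pn_measurable (N : ℕ) (τ : ℝ) : Measurable (Pn N τ) := by
  have hc : Continuous (fun p : ℝ × ℝ => FN N ((p.2 : ℂ) * Complex.I) *
      Complex.exp (-((τ : ℂ) * (p.2 : ℂ) ^ 2) / 2 - (p.1 : ℂ) * ((p.2 : ℂ) * Complex.I))) := by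
    unfold FN
    fun_prop
  have hm : StronglyMeasurable (fun y : ℝ => ∫ u : ℝ, FN N ((u : ℂ) * Complex.I) *
      Complex.exp (-((τ : ℂ) * (u : ℂ) ^ 2) / 2 - (y : ℂ) * ((u : ℂ) * Complex.I))) :=
    hc.stronglyMeasurable.integral_prod_right
  unfold Pn
  exact Complex.measurable_re.comp (hm.measurable.const_mul _)

/-- for large `N` the base time exceeds any given number -/
theorem SN_large (M : ℝ) : ∃ N0 : ℕ, 2 ≤ N0 ∧ ∀ N ≥ N0, M < SN N := by
  refine ⟨⌈2 * (|M| + 1) ^ 2⌉₊ + 2, by omega, fun N hN => ?_⟩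
  have hN2 : 2 ≤ N := by omega
  have h1 : 2 * (|M| + 1) ^ 2 ≤ (N : ℝ) := by
    refine (Nat.le_ceil _).trans ?_
    exact_mod_cast (by omega : ⌈2 * (|M| + 1) ^ 2⌉₊ ≤ N)
  have h2 : 2 * (|M| + 1) ≤ Real.sqrt (2 * N) := by
    apply Real.le_sqrt_of_sq_le
    nlinarith
  have hN2' : (2 : ℝ) ≤ N := by exact_mod_cast hN2
  have h3 : (1 : ℝ) / 2 ≤ 1 - 1 / N := by
    have : (1 : ℝ) / N ≤ 1 / 2 := one_div_le_one_div_of_le (by norm_num) hN2'
    linarith
  have h4 := SN_ge hN2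
  have h5 : |M| + 1 ≤ Real.sqrt (2 * N) * (1 - 1 / N) := by
    nlinarith [Real.sqrt_nonneg (2 * (N : ℝ)), abs_nonneg M]
  have := le_abs_self M
  linarith

end KnLimitAux

open KnLimitAux

theorem Kn_bound (M δ : ℝ) (hδ : 0 < δ) : ∃ C : ℝ, ∃ N0 : ℕ, ∀ N ≥ N0, ∀ σ ∈ Icc (-M) M,
    ∀ τ ∈ Icc (-M) M, ∀ x y : ℝ, |Kn N σ x τ y| ≤ C * Real.exp (δ * x ^ 2) := by
  obtain ⟨C1, N1, h1⟩ := Pn_bound M
  obtain ⟨C2, N2, h2⟩ := Qn_bound M δ hδ
  obtain ⟨N3, hN3, h3⟩ := SN_large M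
  refine ⟨4 * (|C2| * |C1|), max N1 (max N2 N3), fun N hN σ hσ τ hτ x y => ?_⟩
  have hN1 : N ≥ N1 := le_trans (le_max_left _ _) hN
  have hN2 : N ≥ N2 := le_trans ((le_max_left _ _).trans (le_max_right _ _)) hN
  have hN3' : N ≥ N3 := le_trans ((le_max_right _ _).trans (le_max_right _ _)) hN
  have hSN := h3 N hN3'
  rw [Kn_lambda (by omega) (by linarith [hσ.1]) (by linarith [hτ.1])]
  have hp : ∀ v, |Pn N τ v| ≤ |C1| * Real.exp (-|v|) := fun v =>
    (h1 N hN1 τ hτ v).trans (mul_le_mul_of_nonneg_right (le_abs_self _) (Real.exp_pos _).le)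
  have hq : ∀ v ≤ |x|, |Qn N σ v| ≤ |C2| * Real.exp (δ * x ^ 2) := fun v hv => by
    have := h2 N hN2 σ hσ |x| (abs_nonneg x) v hv
    rw [sq_abs] at this
    exact this.trans (mul_le_mul_of_nonneg_right (le_abs_self _) (Real.exp_pos _).le)
  have hB : 0 ≤ |C2| * Real.exp (δ * x ^ 2) := mul_nonneg (abs_nonneg _) (Real.exp_pos _).le
  have e1 := conv_bound (x := x) (y := y) hB (abs_nonneg C1)
    (fun v hv => hq v (hv.trans (le_abs_self x))) hp
  have e2 := conv_bound (x := -x) (y := -y) hB (abs_nonneg C1)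
    (fun v hv => hq v (hv.trans (neg_le_abs x))) hp
  calc _ ≤ _ := abs_add_le _ _
    _ ≤ 2 * (|C2| * Real.exp (δ * x ^ 2) * |C1|) + 2 * (|C2| * Real.exp (δ * x ^ 2) * |C1|) :=
      add_le_add e1 e2
    _ = _ := by ring

theorem Kl_bound (M δ : ℝ) (hδ : 0 < δ) : ∃ C : ℝ, ∀ σ ∈ Icc (-M) M,
    ∀ τ ∈ Icc (-M) M, ∀ x y : ℝ, |Kl σ x τ y| ≤ C * Real.exp (δ * x ^ 2) := by
  obtain ⟨C1, h1⟩ := Pl_bound M 1
  obtain ⟨C2, h2⟩ := Ql_bound M δ hδ
  refine ⟨4 * (|C2| * |C1|), fun σ hσ τ hτ x y => ?_⟩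
  have hp : ∀ v, |Pl τ v| ≤ |C1| * Real.exp (-|v|) := fun v => by
    have := h1 τ hτ v
    rw [neg_one_mul] at this
    exact this.trans (mul_le_mul_of_nonneg_right (le_abs_self _) (Real.exp_pos _).le)
  have hq : ∀ v ≤ |x|, |Ql σ v| ≤ |C2| * Real.exp (δ * x ^ 2) := fun v hv => by
    have := h2 σ hσ |x| (abs_nonneg x) v hv
    rw [sq_abs] at this
    exact this.trans (mul_le_mul_of_nonneg_right (le_abs_self _) (Real.exp_pos _).le)
  have hB : 0 ≤ |C2| * Real.exp (δ * x ^ 2) := mul_nonneg (abs_nonneg _) (Real.exp_pos _).le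
  have e1 := conv_bound (x := x) (y := y) hB (abs_nonneg C1)
    (fun v hv => hq v (hv.trans (le_abs_self x))) hp
  have e2 := conv_bound (x := -x) (y := -y) hB (abs_nonneg C1)
    (fun v hv => hq v (hv.trans (neg_le_abs x))) hp
  unfold Kl Al
  calc _ ≤ _ := abs_add_le _ _
    _ ≤ 2 * (|C2| * Real.exp (δ * x ^ 2) * |C1|) + 2 * (|C2| * Real.exp (δ * x ^ 2) * |C1|) :=
      add_le_add e1 e2
    _ = _ := by ring

namespace KnLimitAux

theorem Pl_measurable (τ : ℝ) : Measurable (Pl τ) := by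
  have : Continuous (fun y : ℝ => Pl τ y) :=
    Pl_continuous.comp (by fun_prop : Continuous fun y : ℝ => (τ, y))
  exact this.measurable

theorem Ql_measurable (σ : ℝ) : Measurable (Ql σ) := by
  have : Continuous (fun y : ℝ => Ql σ y) :=
    Ql_continuous.comp (by fun_prop : Continuous fun y : ℝ => (σ, y))
  exact this.measurable

/-- comparison of two convolutions -/
theorem conv_diff {q q' p p' : ℝ → ℝ} {B B' C C' η θ x y : ℝ}
    (hqm : Measurable q) (hpm : Measurable p) (hqm' : Measurable q') (hpm' : Measurable p')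
    (hB : 0 ≤ B) (hC : 0 ≤ C) (hB' : 0 ≤ B') (hη : 0 ≤ η) (hθ : 0 ≤ θ)
    (hq : ∀ v ≤ x, |q v| ≤ B) (hp : ∀ v, |p v| ≤ C * Real.exp (-|v|))
    (hq' : ∀ v ≤ x, |q' v| ≤ B') (hp' : ∀ v, |p' v| ≤ C' * Real.exp (-|v|))
    (hqq : ∀ v ≤ x, |q v - q' v| ≤ η) (hpp : ∀ v, |p v - p' v| ≤ θ * Real.exp (-|v|)) :
    |(∫ l in Ioi (0 : ℝ), q (x - l) * p (y - l)) - ∫ l in Ioi (0 : ℝ), q' (x - l) * p' (y - l)| ≤
      2 * (η * C) + 2 * (B' * θ) := by
  have e : (∫ l in Ioi (0 : ℝ), q (x - l) * p (y - l)) -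
      ∫ l in Ioi (0 : ℝ), q' (x - l) * p' (y - l) =
      (∫ l in Ioi (0 : ℝ), (fun v => q v - q' v) (x - l) * p (y - l)) +
      ∫ l in Ioi (0 : ℝ), q' (x - l) * (fun v => p v - p' v) (y - l) := by
    rw [← integral_sub (conv_integrable hqm hpm hB hq hp) (conv_integrable hqm' hpm' hB' hq' hp'),
      ← integral_add (conv_integrable (q := fun v => q v - q' v) (hqm.sub hqm') hpm hη hqq hp)
        (conv_integrable (p := fun v => p v - p' v) hqm' (hpm.sub hpm') hB' hq' hpp)]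
    congr 1
    ext l
    ring
  rw [e]
  refine (abs_add_le _ _).trans (add_le_add ?_ ?_)
  · exact conv_bound hη hC hqq hp
  · exact conv_bound hB' hθ hq' hpp

end KnLimitAux

theorem Kn_conv (M X ε : ℝ) (hε : 0 < ε) : ∃ N0 : ℕ, ∀ N ≥ N0, ∀ σ ∈ Icc (-M) M, ∀ τ ∈ Icc (-M) M,
    ∀ x ∈ Icc (-X) X, ∀ y : ℝ, |Kn N σ x τ y - Kl σ x τ y| ≤ ε := by
  obtain ⟨C1, N1, h1⟩ := Pn_bound M
  obtain ⟨C2, h2⟩ := Ql_bound M 1 one_pos
  obtain ⟨C3, h3⟩ := Pl_bound M 1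
  obtain ⟨N4, hN4, h4⟩ := SN_large M
  obtain ⟨C7, N7, h7⟩ := Qn_bound M 1 one_pos
  set B : ℝ := |C2| * Real.exp (1 * |X| ^ 2) with hBdef
  set B7 : ℝ := |C7| * Real.exp (1 * |X| ^ 2) with hB7def
  have hB : 0 ≤ B := mul_nonneg (abs_nonneg _) (Real.exp_pos _).le
  have hB7 : 0 ≤ B7 := mul_nonneg (abs_nonneg _) (Real.exp_pos _).le
  have hη : 0 < ε / (8 * (|C1| + 1)) := by positivity
  have hθ : 0 < ε / (8 * (B + 1)) := by positivity
  obtain ⟨N5, h5⟩ := Qn_conv M |X| _ hη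
  obtain ⟨N6, h6⟩ := Pn_conv M _ hθ
  refine ⟨max (max N1 N4) (max N7 (max N5 N6)), fun N hN σ hσ τ hτ x hx y => ?_⟩
  simp only [ge_iff_le, max_le_iff] at hN
  obtain ⟨⟨hN1, hN4'⟩, hN7, hN5, hN6⟩ := hN
  have hSN := h4 N hN4'
  have hp : ∀ v, |Pn N τ v| ≤ |C1| * Real.exp (-|v|) := fun v =>
    (h1 N hN1 τ hτ v).trans (mul_le_mul_of_nonneg_right (le_abs_self _) (Real.exp_pos _).le)
  have hp' : ∀ v, |Pl τ v| ≤ |C3| * Real.exp (-|v|) := fun v => by
    have := h3 τ hτ v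
    rw [neg_one_mul] at this
    exact this.trans (mul_le_mul_of_nonneg_right (le_abs_self _) (Real.exp_pos _).le)
  have hq : ∀ v ≤ |X|, |Qn N σ v| ≤ B7 := fun v hv =>
    (h7 N hN7 σ hσ |X| (abs_nonneg X) v hv).trans
      (mul_le_mul_of_nonneg_right (le_abs_self _) (Real.exp_pos _).le)
  have hq' : ∀ v ≤ |X|, |Ql σ v| ≤ B := fun v hv =>
    (h2 σ hσ |X| (abs_nonneg X) v hv).trans
      (mul_le_mul_of_nonneg_right (le_abs_self _) (Real.exp_pos _).le)
  have hqq : ∀ v ≤ |X|, |Qn N σ v - Ql σ v| ≤ ε / (8 * (|C1| + 1)) := h5 N hN5 σ hσ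
  have hpp : ∀ v, |Pn N τ v - Pl τ v| ≤ ε / (8 * (B + 1)) * Real.exp (-|v|) := h6 N hN6 τ hτ
  have hx1 : x ≤ |X| := hx.2.trans (le_abs_self X)
  have hx2 : -x ≤ |X| := by linarith [hx.1, le_abs_self X]
  have e1 := conv_diff (x := x) (y := y) (Qn_measurable N σ) (Pn_measurable N τ)
    (Ql_measurable σ) (Pl_measurable τ) hB7 (abs_nonneg C1) hB hη.le hθ.le
    (fun v hv => hq v (hv.trans hx1)) hp (fun v hv => hq' v (hv.trans hx1)) hp'
    (fun v hv => hqq v (hv.trans hx1)) hpp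
  have e2 := conv_diff (x := -x) (y := -y) (Qn_measurable N σ) (Pn_measurable N τ)
    (Ql_measurable σ) (Pl_measurable τ) hB7 (abs_nonneg C1) hB hη.le hθ.le
    (fun v hv => hq v (hv.trans hx2)) hp (fun v hv => hq' v (hv.trans hx2)) hp'
    (fun v hv => hqq v (hv.trans hx2)) hpp
  rw [Kn_lambda (by omega) (by linarith [hσ.1]) (by linarith [hτ.1])]
  unfold Kl Al
  have b1 : 2 * (ε / (8 * (|C1| + 1)) * |C1|) ≤ ε / 4 := by
    rw [div_mul_eq_mul_div, mul_div_assoc', div_le_div_iff₀ (by positivity) (by norm_num)]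
    nlinarith [abs_nonneg C1]
  have b2 : 2 * (B * (ε / (8 * (B + 1)))) ≤ ε / 4 := by
    rw [mul_div_assoc', mul_div_assoc', div_le_div_iff₀ (by positivity) (by norm_num)]
    nlinarith
  calc _ = |((∫ l in Ioi (0 : ℝ), Qn N σ (x - l) * Pn N τ (y - l)) -
        ∫ l in Ioi (0 : ℝ), Ql σ (x - l) * Pl τ (y - l)) +
        ((∫ l in Ioi (0 : ℝ), Qn N σ (-x - l) * Pn N τ (-y - l)) -
        ∫ l in Ioi (0 : ℝ), Ql σ (-x - l) * Pl τ (-y - l))| := by
        congr 1; ring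
    _ ≤ _ := abs_add_le _ _
    _ ≤ _ := add_le_add e1 e2
    _ ≤ ε := by linarith

namespace KnLimitAux

theorem Al_continuous :
    Continuous (fun p : (ℝ × ℝ) × (ℝ × ℝ) => Al p.1.1 p.1.2 p.2.1 p.2.2) := by
  rw [continuous_iff_continuousAt]
  rintro ⟨⟨σ0, x0⟩, ⟨τ0, y0⟩⟩
  set M : ℝ := |σ0| + |τ0| + 1 with hM
  set X : ℝ := |x0| + 1 with hX
  set Y : ℝ := |y0| + 1 with hY
  obtain ⟨C1, h1⟩ := Pl_bound M 1
  obtain ⟨C2, h2⟩ := Ql_bound M 1 one_pos
  have hX0 : 0 ≤ X := by positivity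
  have hB : 0 ≤ |C2| * Real.exp (1 * X ^ 2) := mul_nonneg (abs_nonneg _) (Real.exp_pos _).le
  have hnear : ∀ᶠ p : (ℝ × ℝ) × (ℝ × ℝ) in 𝓝 ((σ0, x0), (τ0, y0)),
      |p.1.1| ≤ M ∧ |p.1.2| ≤ X ∧ |p.2.1| ≤ M ∧ |p.2.2| ≤ Y := by
    have c1 : Continuous fun p : (ℝ × ℝ) × (ℝ × ℝ) => |p.1.1| := by fun_prop
    have c2 : Continuous fun p : (ℝ × ℝ) × (ℝ × ℝ) => |p.1.2| := by fun_prop
    have c3 : Continuous fun p : (ℝ × ℝ) × (ℝ × ℝ) => |p.2.1| := by fun_prop
    have c4 : Continuous fun p : (ℝ × ℝ) × (ℝ × ℝ) => |p.2.2| := by fun_prop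
    have d1 := c1.continuousAt.eventually_lt (x₀ := ((σ0, x0), (τ0, y0)))
      (continuousAt_const (y := M)) (by simp only [hM]; linarith [abs_nonneg τ0])
    have d2 := c2.continuousAt.eventually_lt (x₀ := ((σ0, x0), (τ0, y0)))
      (continuousAt_const (y := X)) (by simp only [hX]; linarith)
    have d3 := c3.continuousAt.eventually_lt (x₀ := ((σ0, x0), (τ0, y0)))
      (continuousAt_const (y := M)) (by simp only [hM]; linarith [abs_nonneg σ0])
    have d4 := c4.continuousAt.eventually_lt (x₀ := ((σ0, x0), (τ0, y0)))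
      (continuousAt_const (y := Y)) (by simp only [hY]; linarith)
    filter_upwards [d1, d2, d3, d4] with p e1 e2 e3 e4
    exact ⟨e1.le, e2.le, e3.le, e4.le⟩
  have hcont : Continuous fun q : ((ℝ × ℝ) × (ℝ × ℝ)) × ℝ =>
      Ql q.1.1.1 (q.1.1.2 - q.2) * Pl q.1.2.1 (q.1.2.2 - q.2) := by
    have a1 : Continuous fun q : ((ℝ × ℝ) × (ℝ × ℝ)) × ℝ => (q.1.1.1, q.1.1.2 - q.2) := by
      fun_prop
    have a2 : Continuous fun q : ((ℝ × ℝ) × (ℝ × ℝ)) × ℝ => (q.1.2.1, q.1.2.2 - q.2) := by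
      fun_prop
    exact (Ql_continuous.comp a1).mul (Pl_continuous.comp a2)
  unfold Al
  refine continuousAt_of_dominated
    (bound := fun l => |C2| * Real.exp (1 * X ^ 2) * (|C1| * (Real.exp Y * Real.exp (-l))))
    ?_ ?_ ?_ ?_
  · refine Eventually.of_forall fun p => ?_
    have : Continuous fun l : ℝ => Ql p.1.1 (p.1.2 - l) * Pl p.2.1 (p.2.2 - l) :=
      hcont.comp (by fun_prop : Continuous fun l : ℝ => (p, l))
    exact this.aestronglyMeasurable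
  · filter_upwards [hnear] with p hp
    obtain ⟨e1, e2, e3, e4⟩ := hp
    refine (ae_restrict_mem measurableSet_Ioi).mono fun l hl => ?_
    have hl' : (0 : ℝ) < l := hl
    rw [Real.norm_eq_abs, abs_mul]
    refine mul_le_mul ?_ ?_ (abs_nonneg _) hB
    · have := h2 p.1.1 (abs_le.mp e1) X hX0 (p.1.2 - l) (by linarith [le_abs_self p.1.2])
      exact this.trans (mul_le_mul_of_nonneg_right (le_abs_self _) (Real.exp_pos _).le)
    · have := h1 p.2.1 (abs_le.mp e3) (p.2.2 - l)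
      refine this.trans ?_
      refine mul_le_mul (le_abs_self _) ?_ (Real.exp_pos _).le (abs_nonneg _)
      rw [← Real.exp_add, Real.exp_le_exp]
      have := neg_abs_le (p.2.2 - l)
      have := le_abs_self p.2.2
      have := neg_abs_le p.2.2
      have h9 : l - p.2.2 ≤ |p.2.2 - l| := by rw [abs_sub_comm]; exact le_abs_self _
      linarith
  · have h := (integrableOn_exp_neg_Ioi 0).const_mul
      (|C2| * Real.exp (1 * X ^ 2) * (|C1| * Real.exp Y))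
    refine h.congr (ae_of_all _ fun l => ?_)
    ring
  · refine ae_of_all _ fun l => ?_
    have : Continuous fun p : (ℝ × ℝ) × (ℝ × ℝ) => Ql p.1.1 (p.1.2 - l) * Pl p.2.1 (p.2.2 - l) :=
      hcont.comp (by fun_prop : Continuous fun p : (ℝ × ℝ) × (ℝ × ℝ) => (p, l))
    exact this.continuousAt

end KnLimitAux

theorem Kl_continuous :
    Continuous (fun p : (ℝ × ℝ) × (ℝ × ℝ) => Kl p.1.1 p.1.2 p.2.1 p.2.2) := by
  unfold Kl
  refine Al_continuous.add ?_
  have a : Continuous fun p : (ℝ × ℝ) × (ℝ × ℝ) => ((p.1.1, -p.1.2), (p.2.1, -p.2.2)) := by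
    fun_prop
  exact Al_continuous.comp a

theorem Kl_symm (σ x τ y : ℝ) : Kl σ (-x) τ (-y) = Kl σ x τ y := by
  unfold Kl
  rw [neg_neg, neg_neg, add_comm]

theorem Kr_continuous_space (σ τ : ℝ) : Continuous (fun p : ℝ × ℝ => Kr σ p.1 τ p.2) := by
  unfold Kr
  have a : Continuous fun p : ℝ × ℝ => ((σ, p.1), (τ, p.2)) := by fun_prop
  refine (Kl_continuous.comp a).sub ?_
  split_ifs
  · unfold gk
    fun_prop
  · exact continuous_const

end Pool.Agent.H.MP_5ad92a_pr
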