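import Pool.Agent.H.MP_5ad92a_pr.ApproxLaw
import Pool.Agent.H.MP_5ad92a_pr.KnLimit

/-!
# Convergence of the correlation statistics
-/

set_option autoImplicit false

noncomputable section

open MeasureTheory Filter Topology Set
open scoped ENNReal

namespace Pool.Agent.H.MP_5ad92a_pr

namespace Apx

lemma gk_nonneg' (h x y : ℝ) : 0 ≤ gk h x y := by
  unfold gk
  have := Real.sqrt_nonneg (2 * Real.pi * h)
  positivity

lemma gk_le' {h : ℝ} (hh : 0 < h) (x y : ℝ) : gk h x y ≤ (Real.sqrt (2 * Real.pi * h))⁻¹ := by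
  unfold gk
  have h1 : Real.exp (-(x - y) ^ 2 / (2 * h)) ≤ 1 := by
    apply Real.exp_le_one_iff.mpr
    apply div_nonpos_of_nonpos_of_nonneg
    · linarith [sq_nonneg (x - y)]
    · positivity
  have h2 : 0 ≤ (Real.sqrt (2 * Real.pi * h))⁻¹ := by positivity
  nlinarith

lemma psi_cont {n : ℕ} (a : Fin n → ℝ) (s : ℝ) (k : Fin n) : Continuous (psi a s k) := by
  unfold psi; fun_prop

lemma Kfin_cont {n : ℕ} (a : Fin n → ℝ) {s s' : ℝ} (hs' : 0 < s') :
    Continuous (fun p : ℝ × ℝ => Kfin a s p.1 s' p.2) := by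
  unfold Kfin
  refine continuous_finsetSum _ fun k _ => ?_
  exact ((psi_cont a s k).comp continuous_fst).mul ((phi_continuous a hs' k).comp continuous_snd)

lemma gP_cont (s t : ℝ) : Continuous (fun p : ℝ × ℝ => gP s t p.1 p.2) := by
  unfold gP
  split_ifs
  · unfold gk; fun_prop
  · exact continuous_const

lemma Ls_pos (l : ℕ) (k : Fin (Lm l + 1)) : 0 < Ls l k :=
  lt_of_lt_of_le (Ls_zero_pos l) ((Ls_mono l).monotone (Fin.zero_le k))

/-- determinant bound -/
lemma det_bound {k : ℕ} {A : Matrix (Fin k) (Fin k) ℝ} {C : ℝ} (h : ∀ i j, |A i j| ≤ C) :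
    |A.det| ≤ (k.factorial : ℝ) * C ^ k := by
  have := Matrix.det_le (A := A) (abv := AbsoluteValue.abs) (x := C) (fun i j => h i j)
  simpa [nsmul_eq_mul] using this

lemma exists_support_bound {k : ℕ} (f : Fin k → ℝ → ℝ) (hfc : ∀ c, HasCompactSupport (f c)) :
    ∃ R : ℝ, 0 ≤ R ∧ ∀ c z, R < |z| → f c z = 0 := by
  have h1 : ∀ c, ∃ R : ℝ, ∀ z, R < |z| → f c z = 0 := by
    intro c
    obtain ⟨R, hR⟩ := (hfc c).isCompact.isBounded.subset_closedBall 0
    refine ⟨R, fun z hz => ?_⟩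
    by_contra hne
    have := hR (subset_tsupport _ (Function.mem_support.mpr hne))
    rw [mem_closedBall_zero_iff, Real.norm_eq_abs] at this
    linarith
  choose R hR using h1
  refine ⟨∑ c, |R c|, Finset.sum_nonneg fun c _ => abs_nonneg _, fun c z hz => hR c z ?_⟩
  have h2 : |R c| ≤ ∑ c, |R c| :=
    Finset.single_le_sum (f := fun c => |R c|) (fun c _ => abs_nonneg _) (Finset.mem_univ c)
  have h3 := le_abs_self (R c)
  linarith

lemma exists_value_bound {k : ℕ} (f : Fin k → ℝ → ℝ) (hf : ∀ c, Continuous (f c))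
    (hfc : ∀ c, HasCompactSupport (f c)) : ∃ C : ℝ, ∀ c z, |f c z| ≤ C := by
  have h1 : ∀ c, ∃ C : ℝ, ∀ z, ‖f c z‖ ≤ C := fun c =>
    (hfc c).exists_bound_of_continuous (hf c)
  choose C hC using h1
  refine ⟨∑ c, |C c|, fun c z => ?_⟩
  have h2 : |C c| ≤ ∑ c, |C c| :=
    Finset.single_le_sum (f := fun c => |C c|) (fun c _ => abs_nonneg _) (Finset.mem_univ c)
  have h3 := le_abs_self (C c)
  have h4 := hC c z
  rw [Real.norm_eq_abs] at h4
  linarith

/-- the integrand of level `l` -/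
def GG (l : ℕ) {k : ℕ} (q : Fin k → ℚ) (f : Fin k → ℝ → ℝ) (y : Fin k → ℝ) : ℝ :=
  (∏ c, f c (y c)) * Matrix.det (Matrix.of fun c d : Fin k =>
    Kfin (aN (LN l)) (Ls l (Lidx l (q c))) (y c) (Ls l (Lidx l (q d))) (y d) -
      gP (Ls l (Lidx l (q c))) (Ls l (Lidx l (q d))) (y c) (y d))

lemma GG_cont (l : ℕ) {k : ℕ} (q : Fin k → ℚ) (f : Fin k → ℝ → ℝ) (hf : ∀ c, Continuous (f c)) :
    Continuous (GG l q f) := by
  unfold GG
  refine Continuous.mul (continuous_finsetProd _ fun c _ => (hf c).comp (continuous_apply c)) ?_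
  refine Continuous.matrix_det ?_
  refine continuous_matrix fun c d => ?_
  simp only [Matrix.of_apply]
  have hcd : Continuous (fun y : Fin k → ℝ => (y c, y d)) :=
    (continuous_apply c).prodMk (continuous_apply d)
  refine Continuous.sub ?_ ?_
  · exact (Kfin_cont (aN (LN l)) (s := Ls l (Lidx l (q c))) (Ls_pos l (Lidx l (q d)))).comp hcd
  · exact (gP_cont (Ls l (Lidx l (q c))) (Ls l (Lidx l (q d)))).comp hcd

lemma all_good {k : ℕ} (q : Fin k → ℚ) : ∀ᶠ l in atTop, ∀ c, Good l (q c) := by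
  rw [eventually_all]
  exact fun c => good (q c)

lemma GG_eq {l : ℕ} {k : ℕ} {q : Fin k → ℚ} (hg : ∀ c, Good l (q c)) (f : Fin k → ℝ → ℝ)
    (y : Fin k → ℝ) :
    GG l q f y = (∏ c, f c (y c)) * Matrix.det (Matrix.of fun c d : Fin k =>
      Kn (LN l) (q c) (y c) (q d) (y d) -
        if ((q c : ℝ)) < (q d : ℝ) then gk ((q d : ℝ) - q c) (y c) (y d) else 0) := by
  unfold GG
  congr 3
  ext c d
  rw [Kfin_good (hg c) (hg d), gP_good (hg c) (hg d)]

lemma Adm_good {l : ℕ} {k : ℕ} {q : Fin k → ℚ} (hg : ∀ c, Good l (q c)) {κ : Type*}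
    (ι : Fin k → κ) : Adm q ι ↔ Adm (fun c => Lidx l (q c)) ι := by
  unfold Adm
  refine forall_congr' fun a => forall_congr' fun b => ?_
  rw [(hg a).idx_eq_iff (hg b)]

/-- the statistic in terms of the integrand `GG` -/
lemma integral_stat {l : ℕ} {k : ℕ} {q : Fin k → ℚ} (hg : ∀ c, Good l (q c))
    (f : Fin k → ℝ → ℝ) (hf : ∀ c, Measurable (f c)) (C R : ℝ) (hC : ∀ c z, |f c z| ≤ C)
    (hR : ∀ c z, R < |z| → f c z = 0) :
    ∫ ω, ∑ ι : Fin k → Fin (LN l + LN l) with Adm q ι, ∏ c, f c (ω (Lidx l (q c)) (ι c)) ∂(Lμ l) =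
      ∫ y, GG l q f y := by
  rw [Lμ_integral]
  have h := dens_marks (aN (LN l)) (aN_inj l) (Ls l) (Ls_zero_pos l) (Ls_mono l)
    (fun c => Lidx l (q c)) f hf C R hC hR
  unfold GG
  rw [← h]
  congr 1
  funext x
  congr 1
  refine Finset.sum_congr ?_ fun _ _ => rfl
  ext ι
  simp only [Finset.mem_filter, Finset.mem_univ, true_and]
  exact Adm_good hg ι

theorem corr_lim (k : ℕ) (q : Fin k → ℚ) (f : Fin k → ℝ → ℝ) (hf : ∀ c, Continuous (f c))
    (hfc : ∀ c, HasCompactSupport (f c)) :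
    Tendsto (fun l => ∫ ω, ∑ ι : Fin k → Fin (LN l + LN l) with Adm q ι,
        ∏ c, f c (ω (Lidx l (q c)) (ι c)) ∂(Lμ l)) atTop
      (𝓝 (∫ y : Fin k → ℝ, (∏ c, f c (y c)) *
        Matrix.det (Matrix.of fun c d : Fin k => Kr (q c) (y c) (q d) (y d)))) := by
  obtain ⟨R, hR0, hR⟩ := exists_support_bound f hfc
  obtain ⟨Cf, hCf⟩ := exists_value_bound f hf hfc
  have hcongr : ∀ᶠ l in atTop, ∫ y, GG l q f y =
      ∫ ω, ∑ ι : Fin k → Fin (LN l + LN l) with Adm q ι,
        ∏ c, f c (ω (Lidx l (q c)) (ι c)) ∂(Lμ l) := by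
    filter_upwards [all_good q] with l hl
    exact (integral_stat hl f (fun c => (hf c).measurable) Cf R hCf hR).symm
  refine Tendsto.congr' hcongr ?_
  set M : ℝ := ∑ c, |(q c : ℝ)| with hM
  have hqM : ∀ c, (q c : ℝ) ∈ Icc (-M) M := by
    intro c
    have : |(q c : ℝ)| ≤ M :=
      Finset.single_le_sum (f := fun c => |(q c : ℝ)|) (fun c _ => abs_nonneg _)
        (Finset.mem_univ c)
    exact ⟨(abs_le.mp this).1, (abs_le.mp this).2⟩
  obtain ⟨C0, N0, hC0⟩ := Kn_bound M 1 one_pos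
  set Cg : ℝ := ∑ c, ∑ d, |(Real.sqrt (2 * Real.pi * ((q d : ℝ) - q c)))⁻¹| with hCg
  set C1 : ℝ := |C0| * Real.exp (1 * R ^ 2) + Cg with hC1
  -- bound of the entries
  have hentry : ∀ l : ℕ, N0 ≤ LN l → ∀ y : Fin k → ℝ, (∀ c, |y c| ≤ R) → ∀ c d : Fin k,
      |Kn (LN l) (q c) (y c) (q d) (y d) -
        if ((q c : ℝ)) < (q d : ℝ) then gk ((q d : ℝ) - q c) (y c) (y d) else 0| ≤ C1 := by
    intro l hl y hy c d
    have h1 := hC0 (LN l) hl (q c) (hqM c) (q d) (hqM d) (y c) (y d)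
    have h2 : C0 * Real.exp (1 * (y c) ^ 2) ≤ |C0| * Real.exp (1 * R ^ 2) := by
      have h3 : (y c) ^ 2 ≤ R ^ 2 := by
        rw [← sq_abs]; exact pow_le_pow_left₀ (abs_nonneg _) (hy c) 2
      have h4 : Real.exp (1 * (y c) ^ 2) ≤ Real.exp (1 * R ^ 2) := Real.exp_le_exp.mpr (by linarith)
      calc C0 * Real.exp (1 * (y c) ^ 2) ≤ |C0| * Real.exp (1 * (y c) ^ 2) :=
            mul_le_mul_of_nonneg_right (le_abs_self _) (Real.exp_pos _).le
        _ ≤ _ := mul_le_mul_of_nonneg_left h4 (abs_nonneg _)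
    have h5 : |(if ((q c : ℝ)) < (q d : ℝ) then gk ((q d : ℝ) - q c) (y c) (y d) else 0 : ℝ)| ≤
        Cg := by
      have h6 : |(Real.sqrt (2 * Real.pi * ((q d : ℝ) - q c)))⁻¹| ≤ Cg := by
        rw [hCg]
        refine le_trans ?_ (Finset.single_le_sum (f := fun c => ∑ d,
          |(Real.sqrt (2 * Real.pi * ((q d : ℝ) - q c)))⁻¹|)
          (fun c _ => Finset.sum_nonneg fun d _ => abs_nonneg _) (Finset.mem_univ c))
        exact Finset.single_le_sum (f := fun d =>
          |(Real.sqrt (2 * Real.pi * ((q d : ℝ) - q c)))⁻¹|)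
          (fun d _ => abs_nonneg _) (Finset.mem_univ d)
      split_ifs with hlt
      · rw [abs_of_nonneg (gk_nonneg' _ _ _)]
        exact ((gk_le' (sub_pos.mpr hlt) _ _).trans (le_abs_self _)).trans h6
      · rw [abs_zero]
        exact (abs_nonneg _).trans h6
    calc _ ≤ |Kn (LN l) (q c) (y c) (q d) (y d)| +
          |(if ((q c : ℝ)) < (q d : ℝ) then gk ((q d : ℝ) - q c) (y c) (y d) else 0 : ℝ)| :=
          abs_sub _ _
      _ ≤ _ := add_le_add (h1.trans h2) h5
  have hprod0 : ∀ y : Fin k → ℝ, ¬ (∀ c, |y c| ≤ R) → ∏ c, f c (y c) = 0 := by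
    intro y hy
    push Not at hy
    obtain ⟨c, hc⟩ := hy
    exact Finset.prod_eq_zero (Finset.mem_univ c) (hR c _ hc)
  refine tendsto_integral_filter_of_dominated_convergence
    (fun y => (∏ c, |f c (y c)|) * ((k.factorial : ℝ) * C1 ^ k)) ?_ ?_ ?_ ?_
  · exact Eventually.of_forall fun l => (GG_cont l q f hf).aestronglyMeasurable
  · filter_upwards [all_good q, LN_tendsto.eventually_ge_atTop N0] with l hl hlN
    refine Eventually.of_forall fun y => ?_
    rw [GG_eq hl, Real.norm_eq_abs, abs_mul, Finset.abs_prod]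
    by_cases hy : ∀ c, |y c| ≤ R
    · refine mul_le_mul_of_nonneg_left ?_ (Finset.prod_nonneg fun c _ => abs_nonneg _)
      exact det_bound (fun c d => hentry l hlN y hy c d)
    · have h0 := hprod0 y hy
      have h1 : ∏ c, |f c (y c)| = 0 := by rw [← Finset.abs_prod, h0, abs_zero]
      rw [h1, zero_mul, zero_mul]
  · refine Integrable.mul_const ?_ _
    rw [volume_pi]
    refine Integrable.fintype_prod (f := fun c z => |f c z|) fun c => ?_
    exact ((hf c).integrable_of_hasCompactSupport (hfc c)).abs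
  · refine Eventually.of_forall fun y => ?_
    have hK : ∀ c d : Fin k, Tendsto (fun l => Kn (LN l) (q c) (y c) (q d) (y d)) atTop
        (𝓝 (Kl (q c) (y c) (q d) (y d))) := by
      intro c d
      rw [Metric.tendsto_atTop]
      intro ε hε
      obtain ⟨N1, hN1⟩ := Kn_conv M |y c| (ε / 2) (by positivity)
      obtain ⟨l0, hl0⟩ := (eventually_atTop.mp (LN_tendsto.eventually_ge_atTop N1))
      refine ⟨l0, fun l hl => ?_⟩
      have := hN1 (LN l) (hl0 l hl) (q c) (hqM c) (q d) (hqM d) (y c)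
        ⟨neg_abs_le _, le_abs_self _⟩ (y d)
      rw [Real.dist_eq]
      linarith
    have hlim : Tendsto (fun l => (∏ c, f c (y c)) * Matrix.det (Matrix.of fun c d : Fin k =>
        Kn (LN l) (q c) (y c) (q d) (y d) -
        if ((q c : ℝ)) < (q d : ℝ) then gk ((q d : ℝ) - q c) (y c) (y d) else 0)) atTop
        (𝓝 ((∏ c, f c (y c)) *
          Matrix.det (Matrix.of fun c d : Fin k => Kr (q c) (y c) (q d) (y d)))) := by
      refine Tendsto.const_mul _ ?_
      have hcd : Continuous (fun A : Matrix (Fin k) (Fin k) ℝ => A.det) :=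
        Continuous.matrix_det continuous_id
      refine (hcd.tendsto _).comp ?_
      have hmat : Tendsto (fun l => (fun c d => Kn (LN l) (q c) (y c) (q d) (y d) -
          if ((q c : ℝ)) < (q d : ℝ) then gk ((q d : ℝ) - q c) (y c) (y d) else 0 :
            Fin k → Fin k → ℝ)) atTop
          (𝓝 (fun c d => Kr (q c) (y c) (q d) (y d))) := by
        rw [tendsto_pi_nhds]
        intro c
        rw [tendsto_pi_nhds]
        intro d
        unfold Kr
        exact (hK c d).sub_const _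
      exact hmat
    refine hlim.congr' ?_
    filter_upwards [all_good q] with l hl
    exact (GG_eq hl f y).symm

end Apx

end Pool.Agent.H.MP_5ad92a_pr
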