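import Pool.Agent.H.MP_5ad92a_pr.Defs

/-!
# Two Gaussian integral estimates for the exponential increments of step statistics
-/

set_option autoImplicit false

noncomputable section

open MeasureTheory Filter Topology Set

namespace Pool.Agent.H.MP_5ad92a_pr

namespace G1

/-- the profile of the majorising kernel -/
def prof (A z : ℝ) : ℝ := Real.exp (A * |z| - z ^ 2 / 4)

/-- the majorising kernel -/
def kap (A h d : ℝ) : ℝ := (Real.sqrt h)⁻¹ * prof A (d / Real.sqrt h)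

/-- its mass -/
def J (A : ℝ) : ℝ := ∫ z : ℝ, prof A z

lemma prof_integrable (A : ℝ) : Integrable (prof A) := by
  have h1 : Integrable (fun z : ℝ => Real.exp (2 * A ^ 2) * Real.exp (-(1 / 8) * z ^ 2)) :=
    (integrable_exp_neg_mul_sq (by norm_num : (0 : ℝ) < 1 / 8)).const_mul _
  refine h1.mono' ?_ ?_
  · exact (by unfold prof; fun_prop : Continuous (prof A)).aestronglyMeasurable
  · refine Filter.Eventually.of_forall fun z => ?_
    rw [Real.norm_eq_abs, prof, abs_of_pos (Real.exp_pos _), ← Real.exp_add]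
    apply Real.exp_le_exp.mpr
    have h2 : |z| ^ 2 = z ^ 2 := sq_abs z
    nlinarith [sq_nonneg (|z| - 4 * A)]

lemma prof_pos (A z : ℝ) : 0 < prof A z := Real.exp_pos _

lemma kap_nonneg (A h d : ℝ) : 0 ≤ kap A h d := by
  unfold kap
  have := prof_pos A (d / Real.sqrt h)
  positivity

lemma kap_integrable (A : ℝ) {h : ℝ} (hh : 0 < h) : Integrable (kap A h) := by
  have h1 : Integrable (fun d : ℝ => prof A (d / Real.sqrt h)) :=
    (prof_integrable A).comp_div (Real.sqrt_pos.mpr hh).ne'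
  exact h1.const_mul _

lemma integral_kap (A : ℝ) {h : ℝ} (hh : 0 < h) : ∫ d, kap A h d = J A := by
  unfold kap J
  rw [integral_const_mul, MeasureTheory.Measure.integral_comp_div (prof A) (Real.sqrt h)]
  have h1 : 0 < Real.sqrt h := Real.sqrt_pos.mpr hh
  rw [abs_of_pos h1, smul_eq_mul, ← mul_assoc, inv_mul_cancel₀ h1.ne', one_mul]

lemma J_nonneg (A : ℝ) : 0 ≤ J A := integral_nonneg fun z => (prof_pos A z).le

lemma integrable_exp_neg_abs : Integrable (fun x : ℝ => Real.exp (-|x|)) := by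
  have h := (integrable_inv_one_add_sq).const_mul (2 : ℝ)
  refine h.mono' ((by fun_prop : Continuous fun x : ℝ => Real.exp (-|x|)).aestronglyMeasurable)
    (Filter.Eventually.of_forall fun x => ?_)
  rw [Real.norm_eq_abs, abs_of_pos (Real.exp_pos _), Real.exp_neg]
  have h1 := Real.quadratic_le_exp_of_nonneg (abs_nonneg x)
  have h2 : |x| ^ 2 = x ^ 2 := sq_abs x
  have h3 : 1 + x ^ 2 ≤ 2 * Real.exp |x| := by nlinarith [abs_nonneg x]
  have h4 : 0 < 1 + x ^ 2 := by positivity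
  rw [inv_le_iff_one_le_mul₀ (Real.exp_pos _)]
  rw [← div_eq_mul_inv, ← mul_div_right_comm, le_div_iff₀ h4]
  linarith

lemma shear_integrable {φ H : ℝ → ℝ} (hφ : Integrable φ) (hH : Integrable H) :
    Integrable (fun z : ℝ × ℝ => φ z.1 * H (z.2 - z.1)) := by
  have h1 := hφ.convolution_integrand (ContinuousLinearMap.mul ℝ ℝ) hH
  exact h1.swap

lemma shear_integral {φ H : ℝ → ℝ} (hφ : Integrable φ) (hH : Integrable H) :
    ∫ z : ℝ × ℝ, φ z.1 * H (z.2 - z.1) = (∫ x, φ x) * ∫ d, H d := by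
  have h0 := integral_prod _ (shear_integrable hφ hH)
  rw [← Measure.volume_eq_prod] at h0
  rw [h0]
  have h1 : ∀ x : ℝ, ∫ y : ℝ, φ x * H (y - x) = φ x * ∫ d, H d := by
    intro x
    rw [integral_const_mul, integral_sub_right_eq_self H x]
  simp_rw [h1]
  rw [integral_mul_const]

lemma dom2 {G : ℝ × ℝ → ℝ} (hGm : Measurable G) (hG0 : ∀ z, 0 ≤ G z) {φ H φ' H' : ℝ → ℝ}
    (hφ : Integrable φ) (hH : Integrable H) (hφ' : Integrable φ') (hH' : Integrable H')
    (hle : ∀ z, G z ≤ φ z.1 * H (z.2 - z.1) + φ' z.1 * H' (z.2 - z.1)) :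
    Integrable G ∧ ∫ z, G z ≤ (∫ x, φ x) * (∫ d, H d) + (∫ x, φ' x) * ∫ d, H' d := by
  have h1 := (shear_integrable hφ hH).add (shear_integrable hφ' hH')
  have hG : Integrable G := by
    refine h1.mono' hGm.aestronglyMeasurable (Filter.Eventually.of_forall fun z => ?_)
    rw [Real.norm_eq_abs, abs_of_nonneg (hG0 z)]
    exact hle z
  refine ⟨hG, ?_⟩
  calc ∫ z, G z ≤ ∫ z : ℝ × ℝ, (φ z.1 * H (z.2 - z.1) + φ' z.1 * H' (z.2 - z.1)) :=
        integral_mono hG h1 hle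
    _ = _ := by
        rw [integral_add (shear_integrable hφ hH) (shear_integrable hφ' hH'),
          shear_integral hφ hH, shear_integral hφ' hH']

/-! ### step functions -/

lemma stp_of_le {a b x : ℝ} (hab : a < b) (hx : x ≤ a) : stp a b x = 0 := by
  unfold stp
  have h1 : (x - a) / (b - a) ≤ 0 := div_nonpos_of_nonpos_of_nonneg (by linarith) (by linarith)
  rw [max_eq_left]
  exact (min_le_right _ _).trans h1

lemma stp_of_ge {a b x : ℝ} (hab : a < b) (hx : b ≤ x) : stp a b x = 1 := by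
  unfold stp
  have h0 : 0 < b - a := by linarith
  have h1 : 1 ≤ (x - a) / (b - a) := by
    rw [le_div_iff₀ h0]; linarith
  rw [min_eq_left h1, max_eq_right zero_le_one]

lemma stp_lip {a b : ℝ} (hab : a < b) (x y : ℝ) : |stp a b y - stp a b x| ≤ |y - x| / (b - a) := by
  have h0 : 0 < b - a := by linarith
  unfold stp
  have h1 : |max 0 (min 1 ((y - a) / (b - a))) - max 0 (min 1 ((x - a) / (b - a)))| ≤
      |min 1 ((y - a) / (b - a)) - min 1 ((x - a) / (b - a))| := by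
    have := abs_max_sub_max_le_abs (min 1 ((y - a) / (b - a))) (min 1 ((x - a) / (b - a))) 0
    simpa [max_comm] using this
  have h2 : |min 1 ((y - a) / (b - a)) - min 1 ((x - a) / (b - a))| ≤
      |(y - a) / (b - a) - (x - a) / (b - a)| := by
    have := abs_min_sub_min_le_max 1 ((y - a) / (b - a)) 1 ((x - a) / (b - a))
    simpa using this
  refine (h1.trans h2).trans ?_
  rw [← sub_div, abs_div, abs_of_pos h0]
  apply le_of_eq
  congr 2
  ring

lemma stp_ne {a b x y : ℝ} (hab : a < b) (hne : stp a b y - stp a b x ≠ 0) :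
    (a < x ∨ a < y) ∧ (x < b ∨ y < b) := by
  constructor
  · by_contra hc
    push Not at hc
    exact hne (by rw [stp_of_le hab hc.1, stp_of_le hab hc.2, sub_self])
  · by_contra hc
    push Not at hc
    exact hne (by rw [stp_of_ge hab hc.1, stp_of_ge hab hc.2, sub_self])

lemma stp_ne_abs {a b x y L : ℝ} (hab : a < b) (hL : |a| ≤ L) (hL' : |b| ≤ L)
    (hne : stp a b y - stp a b x ≠ 0) : |x| ≤ L + |y - x| ∧ |y| ≤ L + |y - x| := by
  obtain ⟨h1, h2⟩ := stp_ne hab hne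
  have ha := abs_le.mp hL
  have hb := abs_le.mp hL'
  have h3 := le_abs_self (y - x)
  have h4 := neg_abs_le (y - x)
  constructor
  · rw [abs_le]
    constructor
    · rcases h1 with h1 | h1 <;> linarith [abs_nonneg (y - x)]
    · rcases h2 with h2 | h2 <;> linarith [abs_nonneg (y - x)]
  · rw [abs_le]
    constructor
    · rcases h1 with h1 | h1 <;> linarith [abs_nonneg (y - x)]
    · rcases h2 with h2 | h2 <;> linarith [abs_nonneg (y - x)]

lemma stp_continuous (a b : ℝ) : Continuous (stp a b) := by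
  unfold stp
  fun_prop

/-- `|e^u - 1| ≤ |u| e^{|u|}` -/
lemma abs_exp_sub_one_le (u : ℝ) : |Real.exp u - 1| ≤ |u| * Real.exp |u| := by
  rcases le_total 0 u with hu | hu
  · rw [abs_of_nonneg hu, abs_of_nonneg (by linarith [Real.one_le_exp hu])]
    have h1 := Real.add_one_le_exp (-u)
    have h2 : Real.exp (-u) * Real.exp u = 1 := by rw [← Real.exp_add]; simp
    nlinarith [Real.exp_pos u]
  · have h1 := Real.add_one_le_exp u
    have h2 : Real.exp u ≤ 1 := Real.exp_le_one_iff.mpr hu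
    rw [abs_of_nonpos (by linarith : Real.exp u - 1 ≤ 0), abs_of_nonpos hu]
    have h3 : 1 ≤ Real.exp (-u) := Real.one_le_exp (by linarith)
    nlinarith

lemma gk_le {h : ℝ} (hh : 0 < h) (x y : ℝ) :
    gk h x y ≤ (Real.sqrt h)⁻¹ * Real.exp (-((y - x) / Real.sqrt h) ^ 2 / 2) := by
  unfold gk
  have h1 : 0 < Real.sqrt h := Real.sqrt_pos.mpr hh
  have h2 : Real.sqrt h ^ 2 = h := Real.sq_sqrt hh.le
  have h3 : -(x - y) ^ 2 / (2 * h) = -((y - x) / Real.sqrt h) ^ 2 / 2 := by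
    rw [neg_div, neg_div, div_pow, h2]
    congr 1
    rw [div_div, mul_comm h 2]
    congr 1
    ring
  rw [h3]
  apply mul_le_mul_of_nonneg_right _ (Real.exp_pos _).le
  apply inv_anti₀ h1
  apply Real.sqrt_le_sqrt
  nlinarith [Real.pi_gt_three]

/-- mass of `e^{-|x|}` -/
def E1 : ℝ := ∫ x : ℝ, Real.exp (-|x|)

lemma E1_nonneg : 0 ≤ E1 := integral_nonneg fun x => (Real.exp_pos _).le

lemma exp_inc_le {κ u z : ℝ} (hκ : 0 ≤ κ) (hκ1 : κ ≤ 1) (hu : |u| ≤ κ * |z|) :
    |Real.exp u - 1| ≤ κ * Real.exp (2 * |z|) := by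
  have hz := abs_nonneg z
  have h1 : |u| ≤ |z| := hu.trans (by nlinarith)
  have h2 : |z| ≤ Real.exp |z| := by linarith [Real.add_one_le_exp |z|]
  calc |Real.exp u - 1| ≤ |u| * Real.exp |u| := abs_exp_sub_one_le u
    _ ≤ (κ * |z|) * Real.exp |z| := by
        apply mul_le_mul hu (Real.exp_le_exp.mpr h1) (Real.exp_pos _).le (by positivity)
    _ ≤ (κ * Real.exp |z|) * Real.exp |z| := by gcongr
    _ = κ * Real.exp (2 * |z|) := by rw [two_mul, Real.exp_add]; ring

lemma gk_nonneg (h x y : ℝ) : 0 ≤ gk h x y := by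
  unfold gk; positivity

lemma gx_eq (σ : ℝ) {x : ℝ} (hx : 0 ≤ x) :
    gx σ x = 3 / 8 * (x ^ (1 / 3 : ℝ)) ^ 4 + σ * (x ^ (1 / 3 : ℝ)) ^ 2 / 4 := by
  unfold gx
  rw [← Real.rpow_natCast (x ^ (1 / 3 : ℝ)) 4, ← Real.rpow_natCast (x ^ (1 / 3 : ℝ)) 2,
    ← Real.rpow_mul hx, ← Real.rpow_mul hx]
  norm_num

lemma cbrt_cube {x : ℝ} (hx : 0 ≤ x) : (x ^ (1 / 3 : ℝ)) ^ 3 = x := by
  rw [← Real.rpow_natCast, ← Real.rpow_mul hx]
  norm_num

lemma cbrt_near {r x w : ℝ} (hr : 0 < r) (hw : 0 ≤ w) (hwx : w ^ 3 = x)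
    (hx : x ∈ Icc (r ^ 3 / 2) (3 * r ^ 3)) : 3 / 4 * r ≤ w ∧ w ≤ 3 / 2 * r := by
  have hr3 : 0 < r ^ 3 := by positivity
  obtain ⟨h1, h2⟩ := hx
  constructor
  · by_contra hc
    push Not at hc
    have : w ^ 3 < (3 / 4 * r) ^ 3 := by gcongr
    rw [mul_pow] at this
    norm_num at this
    linarith
  · by_contra hc
    push Not at hc
    have : (3 / 2 * r) ^ 3 < w ^ 3 := by gcongr
    rw [mul_pow] at this
    norm_num at this
    linarith

lemma gx_bound {M r σ x : ℝ} (hM : 0 < M) (hr : 1 ≤ r) (hr2 : 2 + M ≤ r ^ 2)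
    (hσ : σ ∈ Icc (-M) M) (hx : x ∈ Icc (r ^ 3 / 2) (3 * r ^ 3)) :
    |gx σ x| ≤ (r ^ 3) ^ 2 := by
  have hr0 : 0 < r := by linarith
  have hx0 : 0 ≤ x := le_trans (by positivity) hx.1
  rw [gx_eq σ hx0]
  set w := x ^ (1 / 3 : ℝ) with hw
  have hw0 : 0 ≤ w := by positivity
  obtain ⟨-, h2⟩ := cbrt_near hr0 hw0 (cbrt_cube hx0) hx
  have h3 : |σ| ≤ M := abs_le.mpr hσ
  have h4 : w ^ 2 ≤ (3 / 2 * r) ^ 2 := by gcongr
  have h5 : w ^ 4 ≤ (3 / 2 * r) ^ 4 := by gcongr
  have h6 : r ^ 2 ≤ r ^ 4 := by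
    have : r ^ 2 * 1 ≤ r ^ 2 * r ^ 2 := by gcongr; nlinarith
    nlinarith
  calc |3 / 8 * w ^ 4 + σ * w ^ 2 / 4| ≤ |3 / 8 * w ^ 4| + |σ * w ^ 2 / 4| := abs_add_le _ _
    _ = 3 / 8 * w ^ 4 + |σ| * w ^ 2 / 4 := by
        rw [abs_of_nonneg (by positivity : 0 ≤ 3 / 8 * w ^ 4), abs_div, abs_mul,
          abs_of_nonneg (by positivity : 0 ≤ w ^ 2), abs_of_pos (by norm_num : (0 : ℝ) < 4)]
    _ ≤ 3 / 8 * (3 / 2 * r) ^ 4 + M * (3 / 2 * r) ^ 2 / 4 := by gcongr
    _ ≤ 2 * r ^ 4 + M * r ^ 4 := by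
        rw [mul_pow, mul_pow]
        have h7 : M * r ^ 2 ≤ M * r ^ 4 := by gcongr
        have h8 : 0 ≤ r ^ 4 := by positivity
        have h9 : 0 ≤ M * r ^ 4 := by positivity
        nlinarith
    _ = (2 + M) * r ^ 4 := by ring
    _ ≤ r ^ 2 * r ^ 4 := by gcongr
    _ = (r ^ 3) ^ 2 := by ring

lemma gx_diff {M r σ x y : ℝ} (hM : 0 < M) (hr : 1 ≤ r)
    (hσ : σ ∈ Icc (-M) M) (hx : x ∈ Icc (r ^ 3 / 2) (3 * r ^ 3))
    (hy : y ∈ Icc (r ^ 3 / 2) (3 * r ^ 3)) :
    |gx σ y - gx σ x| ≤ (2 + M) * r * |y - x| := by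
  have hr0 : 0 < r := by linarith
  have hx0 : 0 ≤ x := le_trans (by positivity) hx.1
  have hy0 : 0 ≤ y := le_trans (by positivity) hy.1
  rw [gx_eq σ hx0, gx_eq σ hy0]
  have hxc := cbrt_cube hx0
  have hyc := cbrt_cube hy0
  set w := x ^ (1 / 3 : ℝ) with hw
  set v := y ^ (1 / 3 : ℝ) with hv
  have hw0 : 0 ≤ w := by positivity
  have hv0 : 0 ≤ v := by positivity
  obtain ⟨h1, h2⟩ := cbrt_near hr0 hw0 hxc hx
  obtain ⟨h1', h2'⟩ := cbrt_near hr0 hv0 hyc hy
  have h3 : |σ| ≤ M := abs_le.mpr hσ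
  have e1 : 3 / 8 * v ^ 4 + σ * v ^ 2 / 4 - (3 / 8 * w ^ 4 + σ * w ^ 2 / 4) =
      (v - w) * (3 / 8 * ((v + w) * (v ^ 2 + w ^ 2)) + σ * ((v + w) / 4)) := by ring
  have e2 : y - x = (v - w) * (v ^ 2 + v * w + w ^ 2) := by rw [← hxc, ← hyc]; ring
  rw [e1, e2, abs_mul, abs_mul]
  set S := v ^ 2 + v * w + w ^ 2 with hS
  have hS1 : 1 ≤ S := by
    have : (3 / 4 * r) * (3 / 4 * r) ≤ v * w := mul_le_mul h1' h1 (by positivity) hv0
    have a1 : (3 / 4 * r) ^ 2 ≤ v ^ 2 := by gcongr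
    have a2 : (3 / 4 * r) ^ 2 ≤ w ^ 2 := by gcongr
    nlinarith
  have hS0 : 0 ≤ S := by linarith
  rw [abs_of_nonneg hS0]
  have e3 : |3 / 8 * ((v + w) * (v ^ 2 + w ^ 2)) + σ * ((v + w) / 4)| ≤ (2 + M) * r * S := by
    calc |3 / 8 * ((v + w) * (v ^ 2 + w ^ 2)) + σ * ((v + w) / 4)|
        ≤ |3 / 8 * ((v + w) * (v ^ 2 + w ^ 2))| + |σ * ((v + w) / 4)| := abs_add_le _ _
      _ = 3 / 8 * ((v + w) * (v ^ 2 + w ^ 2)) + |σ| * ((v + w) / 4) := by
          rw [abs_of_nonneg (by positivity), abs_mul,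
            abs_of_nonneg (by positivity : 0 ≤ (v + w) / 4)]
      _ ≤ 3 / 8 * ((3 * r) * S) + M * ((3 * r) / 4) := by
          have a1 : v + w ≤ 3 * r := by linarith
          have a2 : v ^ 2 + w ^ 2 ≤ S := by rw [hS]; nlinarith [mul_nonneg hv0 hw0]
          have a3 : 0 ≤ v + w := by positivity
          gcongr
      _ ≤ (2 + M) * r * S := by
          have a1 : r ≤ r * S := by nlinarith
          have a2 : M * r ≤ M * (r * S) := by gcongr
          nlinarith [mul_nonneg hr0.le hS0, mul_nonneg hM.le (mul_nonneg hr0.le hS0)]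
  calc |v - w| * |3 / 8 * ((v + w) * (v ^ 2 + w ^ 2)) + σ * ((v + w) / 4)|
      ≤ |v - w| * ((2 + M) * r * S) := by gcongr
    _ = (2 + M) * r * (|v - w| * S) := by ring

lemma measurable_gx (σ : ℝ) : Measurable (gx σ) := by
  unfold gx
  fun_prop

lemma measurable_gk (h : ℝ) : Measurable fun z : ℝ × ℝ => gk h z.1 z.2 := by
  unfold gk
  fun_prop

/-- weight in `x` -/
def wA (R s x : ℝ) : ℝ :=
  open Classical in if x ∈ Icc (R / 2) (3 * R) then Real.exp (-gx s x) else Real.exp (10 * R ^ 2)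

/-- weight in `y` -/
def wB (C R t y : ℝ) : ℝ :=
  open Classical in if y ∈ Icc (R / 2) (3 * R) then C * R ^ (1 / 3 : ℝ) * Real.exp (gx t y)
    else C * Real.exp (y ^ 2) * Real.exp (10 * R ^ 2)

lemma measurable_wA (R s : ℝ) : Measurable (wA R s) := by
  unfold wA
  have := measurable_gx s
  exact Measurable.ite measurableSet_Icc (by fun_prop) (by fun_prop)

lemma measurable_wB (C R t : ℝ) : Measurable (wB C R t) := by
  unfold wB
  have := measurable_gx t
  exact Measurable.ite measurableSet_Icc (by fun_prop) (by fun_prop)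

/-- near-near part of the pointwise bound -/
lemma near_bound {M C c r s t lam x y : ℝ} (hM : 0 < M) (hC : 0 ≤ C) (hr : 1 ≤ r)
    (hc0 : 0 ≤ c) (hc1 : c ≤ 1) (hst : s < t) (hts : t - s ≤ (r ^ 2)⁻¹)
    (ht : t ∈ Icc (-M) M)
    (hx : x ∈ Icc (r ^ 3 / 2) (3 * r ^ 3)) (hy : y ∈ Icc (r ^ 3 / 2) (3 * r ^ 3))
    (hlam : |lam| = c / (r * Real.sqrt (t - s))) :
    |Real.exp (lam * (stp (r ^ 3) (2 * r ^ 3) y - stp (r ^ 3) (2 * r ^ 3) x)) - 1| *
      gk (t - s) x y * (Real.exp (-gx s x) * (C * r * Real.exp (gx t y))) ≤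
    (c * C * Real.exp 1 * (r ^ 3)⁻¹) * kap (4 + M) (t - s) (y - x) := by
  have hr0 : 0 < r := by linarith
  have hh : 0 < t - s := by linarith
  set h := t - s with hh'
  have hs : 0 < Real.sqrt h := Real.sqrt_pos.mpr hh
  have hs2 : Real.sqrt h ^ 2 = h := Real.sq_sqrt hh.le
  have hsr : r * Real.sqrt h ≤ 1 := by
    have h1 : (r * Real.sqrt h) ^ 2 ≤ 1 ^ 2 := by
      rw [mul_pow, hs2]
      calc r ^ 2 * h ≤ r ^ 2 * (r ^ 2)⁻¹ := by gcongr
        _ = 1 ^ 2 := by rw [mul_inv_cancel₀ (by positivity)]; norm_num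
    exact le_of_sq_le_sq h1 (by norm_num)
  have hab : r ^ 3 < 2 * r ^ 3 := by have : 0 < r ^ 3 := by positivity
                                     linarith
  set F := stp (r ^ 3) (2 * r ^ 3) y - stp (r ^ 3) (2 * r ^ 3) x with hFdef
  set d := y - x with hd
  set z := d / Real.sqrt h with hz
  have hdz : d = Real.sqrt h * z := by rw [hz]; field_simp
  have hdz' : |d| = Real.sqrt h * |z| := by rw [hdz, abs_mul, abs_of_pos hs]
  have hκ1 : c * (r ^ 4)⁻¹ ≤ 1 := by
    have : (r ^ 4)⁻¹ ≤ 1 := inv_le_one_of_one_le₀ (one_le_pow₀ hr)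
    calc c * (r ^ 4)⁻¹ ≤ 1 * 1 := by gcongr
      _ = 1 := by norm_num
  have hu : |lam * F| ≤ c * (r ^ 4)⁻¹ * |z| := by
    rw [abs_mul, hlam]
    have h1 := stp_lip hab x y
    rw [← hFdef, ← hd] at h1
    have h2 : 2 * r ^ 3 - r ^ 3 = r ^ 3 := by ring
    rw [h2] at h1
    calc c / (r * Real.sqrt h) * |F| ≤ c / (r * Real.sqrt h) * (|d| / r ^ 3) := by gcongr
      _ = c * (r ^ 4)⁻¹ * |z| := by rw [hdz']; field_simp
  have h1 := exp_inc_le (by positivity) hκ1 hu
  have h2 := gk_le hh x y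
  rw [← hd, ← hz] at h2
  have hz2 : |z| ^ 2 = z ^ 2 := sq_abs z
  have hg : gx t y - gx s x ≤ (2 + M) * |z| + 1 := by
    have hx0 : 0 ≤ x := le_trans (by positivity) hx.1
    have e1 := gx_diff hM hr ht hx hy
    rw [← hd, hdz'] at e1
    have e2 : gx t x - gx s x ≤ 1 := by
      rw [gx_eq t hx0, gx_eq s hx0]
      have hxc := cbrt_cube hx0
      set w := x ^ (1 / 3 : ℝ) with hw
      have hw0 : 0 ≤ w := by positivity
      obtain ⟨-, hw2⟩ := cbrt_near hr0 hw0 hxc hx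
      have e3 : 3 / 8 * w ^ 4 + t * w ^ 2 / 4 - (3 / 8 * w ^ 4 + s * w ^ 2 / 4) =
          h * w ^ 2 / 4 := by rw [hh']; ring
      rw [e3]
      have e4 : h * w ^ 2 ≤ (r ^ 2)⁻¹ * (3 / 2 * r) ^ 2 := by gcongr
      have e5 : (r ^ 2)⁻¹ * (3 / 2 * r) ^ 2 = 9 / 4 := by field_simp; norm_num
      linarith
    have e6 := le_abs_self (gx t y - gx t x)
    have e7 : (2 + M) * r * (Real.sqrt h * |z|) ≤ (2 + M) * |z| := by
      calc (2 + M) * r * (Real.sqrt h * |z|) = (2 + M) * |z| * (r * Real.sqrt h) := by ring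
        _ ≤ (2 + M) * |z| * 1 := by gcongr
        _ = (2 + M) * |z| := by ring
    linarith
  calc |Real.exp (lam * F) - 1| * gk h x y * (Real.exp (-gx s x) * (C * r * Real.exp (gx t y)))
      ≤ (c * (r ^ 4)⁻¹ * Real.exp (2 * |z|)) * ((Real.sqrt h)⁻¹ * Real.exp (-z ^ 2 / 2)) *
        (Real.exp (-gx s x) * (C * r * Real.exp (gx t y))) := by
        apply mul_le_mul_of_nonneg_right _ (by positivity)
        exact mul_le_mul h1 h2 (gk_nonneg h x y) (by positivity)
    _ = (c * (r ^ 4)⁻¹ * (Real.sqrt h)⁻¹ * C * r) *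
        Real.exp (2 * |z| + -z ^ 2 / 2 + (gx t y - gx s x)) := by
        rw [sub_eq_add_neg (gx t y), Real.exp_add, Real.exp_add, Real.exp_add]; ring
    _ ≤ (c * (r ^ 4)⁻¹ * (Real.sqrt h)⁻¹ * C * r) *
        Real.exp (1 + ((4 + M) * |z| - z ^ 2 / 4)) := by
        apply mul_le_mul_of_nonneg_left _ (by positivity)
        apply Real.exp_le_exp.mpr
        nlinarith [sq_nonneg z]
    _ = (c * C * Real.exp 1 * (r ^ 3)⁻¹) * kap (4 + M) h d := by
        rw [kap, prof, ← hz, Real.exp_add 1]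
        field_simp

lemma cube_rpow {r : ℝ} (hr : 0 ≤ r) : (r ^ 3) ^ (1 / 3 : ℝ) = r := by
  rw [← Real.rpow_natCast r 3, ← Real.rpow_mul hr]
  norm_num

lemma wA_nonneg (R s x : ℝ) : 0 ≤ wA R s x := by
  unfold wA
  split_ifs <;> positivity

lemma wB_nonneg {C R : ℝ} (hC : 0 ≤ C) (hR : 0 ≤ R) (t y : ℝ) : 0 ≤ wB C R t y := by
  unfold wB
  split_ifs <;> positivity

lemma wA_le {M r s : ℝ} (x : ℝ) (hM : 0 < M) (hr : 1 ≤ r) (hr2 : 2 + M ≤ r ^ 2)
    (hs' : s ∈ Icc (-M) M) : wA (r ^ 3) s x ≤ Real.exp (10 * (r ^ 3) ^ 2) := by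
  unfold wA
  split_ifs with hx
  · have h1 := gx_bound hM hr hr2 hs' hx
    have h2 := neg_abs_le (gx s x)
    apply Real.exp_le_exp.mpr
    nlinarith [sq_nonneg (r ^ 3)]
  · exact le_rfl

lemma wB_le {M C r t : ℝ} (y : ℝ) (hM : 0 < M) (hC : 0 ≤ C) (hr : 1 ≤ r) (hr2 : 2 + M ≤ r ^ 2)
    (ht : t ∈ Icc (-M) M) :
    wB C (r ^ 3) t y ≤ C * r * Real.exp (y ^ 2 + 10 * (r ^ 3) ^ 2) := by
  have hr0 : 0 < r := by linarith
  unfold wB
  rw [cube_rpow hr0.le]
  split_ifs with hx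
  · have h1 := gx_bound hM hr hr2 ht hx
    have h2 := le_abs_self (gx t y)
    apply mul_le_mul_of_nonneg_left _ (by positivity)
    apply Real.exp_le_exp.mpr
    nlinarith [sq_nonneg (r ^ 3), sq_nonneg y]
  · rw [Real.exp_add, ← mul_assoc]
    have h3 : 0 ≤ Real.exp (y ^ 2) := by positivity
    have h4 : C * Real.exp (y ^ 2) ≤ C * r * Real.exp (y ^ 2) := by
      apply mul_le_mul_of_nonneg_right _ h3
      nlinarith
    gcongr

/-- far part of the pointwise bound -/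
lemma far_bound {M C c r s t lam x y : ℝ} (hM : 0 < M) (hC : 0 ≤ C) (hr : 32 ≤ r)
    (hr2 : 2 + M ≤ r ^ 2)
    (hc0 : 0 ≤ c) (hc1 : c ≤ 1) (hst : s < t) (hts : t - s ≤ (r ^ 2)⁻¹)
    (hs' : s ∈ Icc (-M) M) (ht : t ∈ Icc (-M) M)
    (hxy : x ∉ Icc (r ^ 3 / 2) (3 * r ^ 3) ∨ y ∉ Icc (r ^ 3 / 2) (3 * r ^ 3))
    (hF : stp (r ^ 3) (2 * r ^ 3) y - stp (r ^ 3) (2 * r ^ 3) x ≠ 0)
    (hlam : |lam| = c / (r * Real.sqrt (t - s))) :
    |Real.exp (lam * (stp (r ^ 3) (2 * r ^ 3) y - stp (r ^ 3) (2 * r ^ 3) x)) - 1| *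
      gk (t - s) x y * (wA (r ^ 3) s x * wB C (r ^ 3) t y) ≤
    Real.exp (-|x|) * ((c * C * Real.exp (-r)) * kap 3 (t - s) (y - x)) := by
  have hr1 : 1 ≤ r := by linarith
  have hr0 : 0 < r := by linarith
  have hh : 0 < t - s := by linarith
  set h := t - s with hh'
  have hs : 0 < Real.sqrt h := Real.sqrt_pos.mpr hh
  have hs2 : Real.sqrt h ^ 2 = h := Real.sq_sqrt hh.le
  have hr3 : 0 < r ^ 3 := by positivity
  have hsr : r * Real.sqrt h ≤ 1 := by
    have h1 : (r * Real.sqrt h) ^ 2 ≤ 1 ^ 2 := by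
      rw [mul_pow, hs2]
      calc r ^ 2 * h ≤ r ^ 2 * (r ^ 2)⁻¹ := by gcongr
        _ = 1 ^ 2 := by rw [mul_inv_cancel₀ (by positivity)]; norm_num
    exact le_of_sq_le_sq h1 (by norm_num)
  have hs1 : Real.sqrt h ≤ 1 := by
    nlinarith
  have hab : r ^ 3 < 2 * r ^ 3 := by linarith
  obtain ⟨hn1, hn2⟩ := stp_ne hab hF
  obtain ⟨hxa, hya⟩ := stp_ne_abs (L := 2 * r ^ 3) hab
    (by rw [abs_of_pos hr3]; linarith) (by rw [abs_of_pos (by positivity)]) hF
  set F := stp (r ^ 3) (2 * r ^ 3) y - stp (r ^ 3) (2 * r ^ 3) x with hFdef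
  set d := y - x with hd
  set z := d / Real.sqrt h with hz
  have hdz : d = Real.sqrt h * z := by rw [hz]; field_simp
  have hdz' : |d| = Real.sqrt h * |z| := by rw [hdz, abs_mul, abs_of_pos hs]
  have hdbig : r ^ 3 / 2 ≤ |d| := by
    have e1 := le_abs_self (y - x)
    have e2 := neg_abs_le (y - x)
    rw [← hd] at e1 e2
    simp only [mem_Icc, not_and_or, not_le] at hxy
    rcases hxy with (h1 | h1) | (h1 | h1) <;> rcases hn1 with h2 | h2 <;>
      rcases hn2 with h3 | h3 <;> linarith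
  have hzbig : r ^ 4 / 2 ≤ |z| := by
    have e1 : r * (r ^ 3 / 2) ≤ r * |d| := by gcongr
    rw [hdz'] at e1
    have e2 : r * (Real.sqrt h * |z|) = (r * Real.sqrt h) * |z| := by ring
    rw [e2] at e1
    have e3 : (r * Real.sqrt h) * |z| ≤ 1 * |z| := by gcongr
    linarith
  have hκ1 : c * (r ^ 4)⁻¹ ≤ 1 := by
    have : (r ^ 4)⁻¹ ≤ 1 := inv_le_one_of_one_le₀ (one_le_pow₀ hr1)
    calc c * (r ^ 4)⁻¹ ≤ 1 * 1 := by gcongr
      _ = 1 := by norm_num
  have hu : |lam * F| ≤ c * |z| := by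
    rw [abs_mul, hlam]
    have h1 := stp_lip hab x y
    rw [← hFdef, ← hd] at h1
    have h2 : 2 * r ^ 3 - r ^ 3 = r ^ 3 := by ring
    rw [h2] at h1
    calc c / (r * Real.sqrt h) * |F| ≤ c / (r * Real.sqrt h) * (|d| / r ^ 3) := by gcongr
      _ = (c * |z|) * (r ^ 4)⁻¹ := by rw [hdz']; field_simp
      _ ≤ (c * |z|) * 1 := by
          have : (r ^ 4)⁻¹ ≤ 1 := inv_le_one_of_one_le₀ (one_le_pow₀ hr1)
          gcongr
      _ = c * |z| := mul_one _
  have h1 := exp_inc_le hc0 hc1 hu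
  have h2 := gk_le hh x y
  rw [← hd, ← hz] at h2
  have hz2 : |z| ^ 2 = z ^ 2 := sq_abs z
  have h3 := wA_le x hM hr1 hr2 hs'
  have h4 := wB_le y hM hC hr1 hr2 ht
  have hexp : 2 * |z| + -z ^ 2 / 2 + (10 * (r ^ 3) ^ 2 + (y ^ 2 + 10 * (r ^ 3) ^ 2)) + r ≤
      -|x| + -r + (3 * |z| - z ^ 2 / 4) := by
    have e1 : y ^ 2 ≤ 8 * (r ^ 3) ^ 2 + 2 * d ^ 2 := by
      have : |y| ^ 2 ≤ (2 * r ^ 3 + |d|) ^ 2 := by gcongr
      rw [sq_abs] at this
      have h4 : |d| ^ 2 = d ^ 2 := sq_abs d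
      nlinarith [sq_nonneg (2 * r ^ 3 - |d|)]
    have e2 : d ^ 2 ≤ z ^ 2 / 32 := by
      rw [hdz, mul_pow, hs2]
      have : h ≤ 1 / 32 := by
        refine hts.trans ?_
        rw [inv_le_comm₀ (by positivity) (by norm_num)]
        nlinarith
      nlinarith [sq_nonneg z]
    have e3 : |d| ≤ |z| := by
      rw [hdz']
      nlinarith [abs_nonneg z]
    have e4 : r ^ 8 / 4 ≤ z ^ 2 := by
      rw [← hz2]
      calc r ^ 8 / 4 = (r ^ 4 / 2) ^ 2 := by ring
        _ ≤ |z| ^ 2 := by gcongr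
    have e5 : r ≤ r ^ 6 := by
      calc r = r ^ 1 := (pow_one r).symm
        _ ≤ r ^ 6 := pow_le_pow_right₀ hr1 (by norm_num)
    have e6 : r ^ 3 ≤ r ^ 6 := pow_le_pow_right₀ hr1 (by norm_num)
    have e7 : 1024 * r ^ 6 ≤ r ^ 8 := by
      calc 1024 * r ^ 6 ≤ r ^ 2 * r ^ 6 := by
            have : (32 : ℝ) ^ 2 ≤ r ^ 2 := by gcongr
            have h6 : 0 ≤ r ^ 6 := by positivity
            nlinarith
        _ = r ^ 8 := by ring
    have e8 : (r ^ 3) ^ 2 = r ^ 6 := by ring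
    rw [e8] at e1 ⊢
    have e9 : |x| ≤ 2 * r ^ 3 + |z| := hxa.trans (by linarith)
    linarith
  calc |Real.exp (lam * F) - 1| * gk h x y * (wA (r ^ 3) s x * wB C (r ^ 3) t y)
      ≤ (c * Real.exp (2 * |z|)) * ((Real.sqrt h)⁻¹ * Real.exp (-z ^ 2 / 2)) *
        (Real.exp (10 * (r ^ 3) ^ 2) * (C * r * Real.exp (y ^ 2 + 10 * (r ^ 3) ^ 2))) := by
        have a1 := wA_nonneg (r ^ 3) s x
        have a2 := wB_nonneg hC hr3.le t y
        have a3 := gk_nonneg h x y
        gcongr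
    _ ≤ (c * Real.exp (2 * |z|)) * ((Real.sqrt h)⁻¹ * Real.exp (-z ^ 2 / 2)) *
        (Real.exp (10 * (r ^ 3) ^ 2) * (C * Real.exp r *
          Real.exp (y ^ 2 + 10 * (r ^ 3) ^ 2))) := by
        have : r ≤ Real.exp r := by linarith [Real.add_one_le_exp r]
        gcongr
    _ = (c * (Real.sqrt h)⁻¹ * C) *
        Real.exp (2 * |z| + -z ^ 2 / 2 + (10 * (r ^ 3) ^ 2 + (y ^ 2 + 10 * (r ^ 3) ^ 2)) + r) := by
        rw [Real.exp_add _ r, Real.exp_add (2 * |z| + -z ^ 2 / 2), Real.exp_add (2 * |z|),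
          Real.exp_add (10 * (r ^ 3) ^ 2)]
        ring
    _ ≤ (c * (Real.sqrt h)⁻¹ * C) *
        Real.exp (-|x| + -r + (3 * |z| - z ^ 2 / 4)) := by
        apply mul_le_mul_of_nonneg_left _ (by positivity)
        exact Real.exp_le_exp.mpr hexp
    _ = Real.exp (-|x|) * ((c * C * Real.exp (-r)) * kap 3 h d) := by
        rw [kap, prof, ← hz, Real.exp_add (-|x| + -r), Real.exp_add (-|x|)]
        ring

end G1

open G1

theorem int_inc (a b M C0 : ℝ) (hab : a < b) (hM : 0 < M) (hC0 : 0 ≤ C0) :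
    ∃ c : ℝ, 0 < c ∧ ∀ h : ℝ, 0 < h → h ≤ 2 * M → ∀ lam : ℝ, |lam| = c / Real.sqrt h →
      Integrable (fun z : ℝ × ℝ => |Real.exp (lam * (stp a b z.2 - stp a b z.1)) - 1| *
        gk h z.1 z.2 * (1 * (C0 * Real.exp (z.2 ^ 2 / (32 * M))))) ∧
      ∫ z : ℝ × ℝ, |Real.exp (lam * (stp a b z.2 - stp a b z.1)) - 1| *
        gk h z.1 z.2 * (1 * (C0 * Real.exp (z.2 ^ 2 / (32 * M)))) ≤ 1 / 2 := by
  have hba : 0 < b - a := by linarith
  set L := max |a| |b| with hL
  have hL0 : 0 ≤ L := (abs_nonneg a).trans (le_max_left _ _)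
  set A := 2 + Real.sqrt (2 * M) with hA
  set K := C0 * Real.exp (L ^ 2 / (16 * M)) * Real.exp L / (b - a) with hK
  have hK0 : 0 ≤ K := by positivity
  set T := E1 * J A with hT
  have hT0 : 0 ≤ T := mul_nonneg E1_nonneg (J_nonneg A)
  have hKT : 0 ≤ K * T := mul_nonneg hK0 hT0
  set c := min (b - a) (1 / (2 * (K * T + 1))) with hc
  have hc0 : 0 < c := lt_min hba (by positivity)
  refine ⟨c, hc0, fun h hh hh2 lam hlam => ?_⟩
  have hs : 0 < Real.sqrt h := Real.sqrt_pos.mpr hh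
  have hs2 : Real.sqrt h ^ 2 = h := Real.sq_sqrt hh.le
  have hsM : Real.sqrt h ≤ Real.sqrt (2 * M) := Real.sqrt_le_sqrt hh2
  have hκ : c / (b - a) ≤ 1 := by
    rw [div_le_one hba]; exact min_le_left _ _
  have hκ0 : 0 ≤ c / (b - a) := by positivity
  have key := dom2 (G := fun z : ℝ × ℝ => |Real.exp (lam * (stp a b z.2 - stp a b z.1)) - 1| *
        gk h z.1 z.2 * (1 * (C0 * Real.exp (z.2 ^ 2 / (32 * M)))))
      (φ := fun x => Real.exp (-|x|)) (H := fun d => c * K * kap A h d)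
      (φ' := fun _ => 0) (H' := fun _ => 0) ?_ ?_ integrable_exp_neg_abs
      ((kap_integrable A hh).const_mul _) (integrable_zero _ _ _) (integrable_zero _ _ _) ?_
  · refine ⟨key.1, key.2.trans ?_⟩
    rw [integral_const_mul, integral_kap A hh]
    change E1 * (c * K * J A) + _ ≤ _
    simp only [integral_zero, mul_zero, add_zero]
    have h1 : E1 * (c * K * J A) = c * (K * T) := by rw [hT]; ring
    rw [h1]
    have h2 : c ≤ 1 / (2 * (K * T + 1)) := min_le_right _ _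
    calc c * (K * T) ≤ 1 / (2 * (K * T + 1)) * (K * T) := by gcongr
      _ ≤ 1 / 2 := by
        rw [div_mul_eq_mul_div, div_le_div_iff₀ (by positivity) (by norm_num)]
        linarith
  · have h1 : Measurable fun z : ℝ × ℝ => stp a b z.2 - stp a b z.1 :=
      (((stp_continuous a b).comp continuous_snd).sub
        ((stp_continuous a b).comp continuous_fst)).measurable
    have h2 := measurable_gk h
    refine Measurable.mul (Measurable.mul ?_ h2) (by fun_prop)
    have h3 : Measurable fun z : ℝ × ℝ =>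
        Real.exp (lam * (stp a b z.2 - stp a b z.1)) - 1 := by fun_prop
    exact h3.abs
  · intro z
    have := gk_nonneg h z.1 z.2
    positivity
  · rintro ⟨x, y⟩
    simp only [mul_zero, add_zero]
    by_cases hF : stp a b y - stp a b x = 0
    · rw [hF]
      simp only [mul_zero, Real.exp_zero, sub_self, abs_zero, zero_mul]
      have := kap_nonneg A h (y - x)
      positivity
    set F := stp a b y - stp a b x with hFdef
    set d := y - x with hd
    set z := d / Real.sqrt h with hz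
    obtain ⟨hx, hy⟩ := stp_ne_abs hab (le_max_left |a| |b|) (le_max_right |a| |b|) hF
    rw [← hL, ← hd] at hx hy
    have hdz : d = Real.sqrt h * z := by rw [hz]; field_simp
    have hdz' : |d| = Real.sqrt h * |z| := by rw [hdz, abs_mul, abs_of_pos hs]
    have hu : |lam * F| ≤ c / (b - a) * |z| := by
      rw [abs_mul, hlam]
      have h1 := stp_lip hab x y
      rw [← hFdef, ← hd] at h1
      calc c / Real.sqrt h * |F| ≤ c / Real.sqrt h * (|d| / (b - a)) := by gcongr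
        _ = c / (b - a) * |z| := by rw [hdz']; field_simp
    have h1 := exp_inc_le hκ0 hκ hu
    have h2 := gk_le hh x y
    rw [← hd, ← hz] at h2
    have h3 : z ^ 2 * h = d ^ 2 := by rw [hdz, mul_pow, hs2]; ring
    have hz2 : |z| ^ 2 = z ^ 2 := sq_abs z
    calc |Real.exp (lam * F) - 1| * gk h x y * (1 * (C0 * Real.exp (y ^ 2 / (32 * M))))
        ≤ (c / (b - a) * Real.exp (2 * |z|)) * ((Real.sqrt h)⁻¹ * Real.exp (-z ^ 2 / 2)) *
          (1 * (C0 * Real.exp (y ^ 2 / (32 * M)))) := by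
          apply mul_le_mul_of_nonneg_right _ (by positivity)
          exact mul_le_mul h1 h2 (gk_nonneg h x y) (by positivity)
      _ = (c / (b - a) * (Real.sqrt h)⁻¹ * C0) *
          Real.exp (2 * |z| + -z ^ 2 / 2 + y ^ 2 / (32 * M)) := by
          rw [Real.exp_add, Real.exp_add]; ring
      _ ≤ (c / (b - a) * (Real.sqrt h)⁻¹ * C0) *
          Real.exp (-|x| + L ^ 2 / (16 * M) + L + (A * |z| - z ^ 2 / 4)) := by
          apply mul_le_mul_of_nonneg_left _ (by positivity)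
          apply Real.exp_le_exp.mpr
          have e1 : y ^ 2 ≤ 2 * L ^ 2 + 2 * d ^ 2 := by
            have : |y| ^ 2 ≤ (L + |d|) ^ 2 := by gcongr
            rw [sq_abs] at this
            have h4 : |d| ^ 2 = d ^ 2 := sq_abs d
            nlinarith [sq_nonneg (L - |d|)]
          have e2 : y ^ 2 / (32 * M) ≤ L ^ 2 / (16 * M) + z ^ 2 / 8 := by
            rw [div_le_iff₀ (by positivity)]
            have : (L ^ 2 / (16 * M) + z ^ 2 / 8) * (32 * M) = 2 * L ^ 2 + 4 * M * z ^ 2 := by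
              field_simp; ring
            rw [this]
            have : d ^ 2 ≤ 2 * M * z ^ 2 := by
              rw [← h3]; nlinarith [sq_nonneg z]
            linarith
          have e3 : |d| ≤ Real.sqrt (2 * M) * |z| := by rw [hdz']; gcongr
          rw [hA]
          nlinarith
      _ = Real.exp (-|x|) * (c * K * kap A h d) := by
          rw [kap, prof, ← hz, hK, Real.exp_add (-|x| + L ^ 2 / (16 * M) + L),
            Real.exp_add (-|x| + L ^ 2 / (16 * M)), Real.exp_add (-|x|)]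
          ring

theorem int_incR (M C0 : ℝ) (hM : 0 < M) (hC0 : 0 ≤ C0) :
    ∃ c R0 : ℝ, 0 < c ∧ 1 ≤ R0 ∧ ∀ R ≥ R0, ∀ s ∈ Icc (-M) M, ∀ t ∈ Icc (-M) M,
      s < t → t ≤ s + R ^ (-(2 / 3) : ℝ) → ∀ lam : ℝ,
      |lam| = c / (R ^ (1 / 3 : ℝ) * Real.sqrt (t - s)) →
      ∃ A B : ℝ → ℝ, Measurable A ∧ Measurable B ∧ (∀ x, 0 ≤ A x) ∧ (∀ y, 0 ≤ B y) ∧
        (∀ x ∈ Icc (R / 2) (3 * R), ∀ y ∈ Icc (R / 2) (3 * R),
          C0 * R ^ (1 / 3 : ℝ) * Real.exp (gx t y - gx s x) ≤ B y * A x) ∧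
        (∀ x y, (x ∉ Icc (R / 2) (3 * R) ∨ y ∉ Icc (R / 2) (3 * R)) →
          C0 * Real.exp (y ^ 2) ≤ B y * A x) ∧
        Integrable (fun z : ℝ × ℝ => |Real.exp (lam * (stp R (2 * R) z.2 - stp R (2 * R) z.1)) - 1| *
          gk (t - s) z.1 z.2 * (A z.1 * B z.2)) ∧
        ∫ z : ℝ × ℝ, |Real.exp (lam * (stp R (2 * R) z.2 - stp R (2 * R) z.1)) - 1| *
          gk (t - s) z.1 z.2 * (A z.1 * B z.2) ≤ 1 / 2 := by
  set C := C0 + 1 with hC
  have hC1 : 0 < C := by linarith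
  have hC0' : C0 ≤ C := by linarith
  set T := 5 / 2 * C * Real.exp 1 * J (4 + M) with hT
  have hT0 : 0 ≤ T := by have := J_nonneg (4 + M); positivity
  set T3 := C * (E1 * J 3) with hT3
  have hT30 : 0 ≤ T3 := by have := J_nonneg 3; have := E1_nonneg; positivity
  set c := min 1 (1 / (4 * (T + 1))) with hc
  have hc0 : 0 < c := lt_min one_pos (by positivity)
  have hc1 : c ≤ 1 := min_le_left _ _
  set r0 := 32 + (2 + M) + 4 * T3 with hr0
  have hr01 : 1 ≤ r0 := by linarith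
  refine ⟨c, r0 ^ 3, hc0, one_le_pow₀ hr01, fun R hR s hs t ht hst hts lam hlam => ?_⟩
  have hR0 : 0 < R := lt_of_lt_of_le (by positivity) hR
  set r := R ^ (1 / 3 : ℝ) with hr
  have hrR : r ^ 3 = R := cbrt_cube hR0.le
  have hrpos : 0 < r := by positivity
  have hrr : r0 ≤ r := by
    have h1 : r0 ^ 3 ≤ r ^ 3 := by rw [hrR]; exact hR
    exact le_of_pow_le_pow_left₀ (by norm_num) hrpos.le h1
  have h32 : 32 ≤ r := by linarith
  have hr1 : 1 ≤ r := by linarith
  have hr2 : 2 + M ≤ r ^ 2 := by nlinarith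
  have hts' : t - s ≤ (r ^ 2)⁻¹ := by
    have e1 : R ^ (-(2 / 3) : ℝ) = (r ^ 2)⁻¹ := by
      rw [hr, ← Real.rpow_natCast, ← Real.rpow_mul hR0.le, Real.rpow_neg hR0.le]
      norm_num
    rw [← e1]; linarith
  have hh : 0 < t - s := by linarith
  have hcr : (r ^ 3) ^ (1 / 3 : ℝ) = r := cube_rpow hrpos.le
  rw [← hrR]
  refine ⟨wA (r ^ 3) s, wB C (r ^ 3) t, measurable_wA _ _, measurable_wB _ _ _,
    wA_nonneg _ _, wB_nonneg hC1.le (by positivity) _, ?_, ?_, ?_⟩
  · intro x hx y hy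
    rw [wA, wB, if_pos hx, if_pos hy, hcr, sub_eq_add_neg, Real.exp_add]
    have : C0 * r * (Real.exp (gx t y) * Real.exp (-gx s x)) ≤
        C * r * (Real.exp (gx t y) * Real.exp (-gx s x)) := by gcongr
    linarith
  · intro x y hxy
    have hR2 : 0 ≤ (r ^ 3) ^ 2 := by positivity
    have key : C * Real.exp (y ^ 2) ≤ wB C (r ^ 3) t y * wA (r ^ 3) s x := by
      unfold wA wB
      rw [hcr]
      split_ifs with hy hx hx
      · exact absurd hxy (by simp [hx, hy])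
      · have e1 := gx_bound hM hr1 hr2 ht hy
        have e2 := neg_abs_le (gx t y)
        have e3 : y ^ 2 ≤ gx t y + 10 * (r ^ 3) ^ 2 := by
          have : y ^ 2 ≤ (3 * r ^ 3) ^ 2 := by
            have := hy.1
            have h0 : 0 ≤ y := le_trans (by positivity) hy.1
            have := hy.2
            gcongr
          nlinarith
        calc C * Real.exp (y ^ 2) ≤ C * r * Real.exp (gx t y + 10 * (r ^ 3) ^ 2) := by
              have e4 := Real.exp_le_exp.mpr e3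
              have e5 : 0 < Real.exp (y ^ 2) := Real.exp_pos _
              calc C * Real.exp (y ^ 2) ≤ (C * r) * Real.exp (y ^ 2) := by
                    apply mul_le_mul_of_nonneg_right _ e5.le
                    nlinarith
                _ ≤ _ := by gcongr
          _ = _ := by rw [Real.exp_add]; ring
      · have e1 := gx_bound hM hr1 hr2 hs hx
        have e2 := le_abs_self (gx s x)
        have e3 : 0 ≤ 10 * (r ^ 3) ^ 2 + -gx s x := by nlinarith
        calc C * Real.exp (y ^ 2) ≤ C * Real.exp (y ^ 2) *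
              Real.exp (10 * (r ^ 3) ^ 2 + -gx s x) := by
              have := Real.one_le_exp e3
              have h0 : 0 ≤ C * Real.exp (y ^ 2) := by positivity
              nlinarith
          _ = _ := by rw [Real.exp_add]; ring
      · have e1 : 1 ≤ Real.exp (10 * (r ^ 3) ^ 2) := Real.one_le_exp (by positivity)
        have h0 : 0 ≤ C * Real.exp (y ^ 2) := by positivity
        nlinarith [mul_nonneg h0 (sub_nonneg.mpr e1),
          mul_nonneg (mul_nonneg h0 (sub_nonneg.mpr e1)) (sub_nonneg.mpr e1)]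
    refine le_trans ?_ key
    gcongr
  · have hab : r ^ 3 < 2 * r ^ 3 := by have : 0 < r ^ 3 := by positivity
                                       linarith
    have hIcc : Integrable (fun x : ℝ => (Icc (r ^ 3 / 2) (3 * r ^ 3)).indicator (1 : ℝ → ℝ) x) := by
      rw [integrable_indicator_iff measurableSet_Icc]
      exact integrableOn_const (by simp [Real.volume_Icc]) (by simp)
    have key := dom2 (G := fun z : ℝ × ℝ =>
          |Real.exp (lam * (stp (r ^ 3) (2 * r ^ 3) z.2 - stp (r ^ 3) (2 * r ^ 3) z.1)) - 1| *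
          gk (t - s) z.1 z.2 * (wA (r ^ 3) s z.1 * wB C (r ^ 3) t z.2))
        (φ := fun x => (Icc (r ^ 3 / 2) (3 * r ^ 3)).indicator (1 : ℝ → ℝ) x)
        (H := fun d => (c * C * Real.exp 1 * (r ^ 3)⁻¹) * kap (4 + M) (t - s) d)
        (φ' := fun x => Real.exp (-|x|))
        (H' := fun d => (c * C * Real.exp (-r)) * kap 3 (t - s) d) ?_ ?_ hIcc
        ((kap_integrable _ hh).const_mul _) integrable_exp_neg_abs
        ((kap_integrable _ hh).const_mul _) ?_
    · refine ⟨key.1, key.2.trans ?_⟩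
      rw [integral_const_mul, integral_const_mul, integral_kap _ hh, integral_kap _ hh]
      change _ + E1 * _ ≤ _
      have e1 : ∫ x : ℝ, (Icc (r ^ 3 / 2) (3 * r ^ 3)).indicator (1 : ℝ → ℝ) x =
          5 / 2 * r ^ 3 := by
        rw [integral_indicator_one measurableSet_Icc, Real.volume_real_Icc_of_le]
        · ring
        · have : 0 < r ^ 3 := by positivity
          linarith
      rw [e1]
      have e2 : 5 / 2 * r ^ 3 * (c * C * Real.exp 1 * (r ^ 3)⁻¹ * J (4 + M)) = c * T := by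
        rw [hT]; field_simp
      have e3 : E1 * (c * C * Real.exp (-r) * J 3) = c * (Real.exp (-r) * T3) := by
        rw [hT3]; ring
      rw [e2, e3]
      have e4 : c * T ≤ 1 / 4 := by
        calc c * T ≤ 1 / (4 * (T + 1)) * T := by gcongr; exact min_le_right _ _
          _ ≤ 1 / 4 := by
            rw [div_mul_eq_mul_div, div_le_div_iff₀ (by positivity) (by norm_num)]
            linarith
      have e5 : Real.exp (-r) * T3 ≤ 1 / 4 := by
        have a1 : r ≤ Real.exp r := by linarith [Real.add_one_le_exp r]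
        have a2 : 4 * T3 ≤ Real.exp r := by linarith
        have a3 : Real.exp (-r) * Real.exp r = 1 := by rw [← Real.exp_add]; simp
        have a4 : Real.exp (-r) * (4 * T3) ≤ Real.exp (-r) * Real.exp r := by gcongr
        linarith
      have e6 : 0 ≤ Real.exp (-r) * T3 := by positivity
      have e7 : c * (Real.exp (-r) * T3) ≤ 1 * (1 / 4) := by gcongr
      linarith
    · have h1 : Measurable fun z : ℝ × ℝ =>
          stp (r ^ 3) (2 * r ^ 3) z.2 - stp (r ^ 3) (2 * r ^ 3) z.1 :=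
        (((stp_continuous _ _).comp continuous_snd).sub
          ((stp_continuous _ _).comp continuous_fst)).measurable
      have h2 := measurable_gk (t - s)
      have h3 : Measurable fun z : ℝ × ℝ => Real.exp (lam *
          (stp (r ^ 3) (2 * r ^ 3) z.2 - stp (r ^ 3) (2 * r ^ 3) z.1)) - 1 := by fun_prop
      refine Measurable.mul (Measurable.mul h3.abs h2) ?_
      exact ((measurable_wA _ _).comp measurable_fst).mul
        ((measurable_wB _ _ _).comp measurable_snd)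
    · intro z
      have a1 := gk_nonneg (t - s) z.1 z.2
      have a2 := wA_nonneg (r ^ 3) s z.1
      have a3 := wB_nonneg hC1.le (by positivity : 0 ≤ r ^ 3) t z.2
      positivity
    · rintro ⟨x, y⟩
      simp only
      have hk1 := kap_nonneg (4 + M) (t - s) (y - x)
      have hk2 := kap_nonneg 3 (t - s) (y - x)
      have hi : 0 ≤ (Icc (r ^ 3 / 2) (3 * r ^ 3)).indicator (1 : ℝ → ℝ) x :=
        indicator_nonneg (fun _ _ => zero_le_one) _
      have n1 : 0 ≤ (Icc (r ^ 3 / 2) (3 * r ^ 3)).indicator (1 : ℝ → ℝ) x *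
          (c * C * Real.exp 1 * (r ^ 3)⁻¹ * kap (4 + M) (t - s) (y - x)) := by positivity
      have n2 : 0 ≤ Real.exp (-|x|) * (c * C * Real.exp (-r) * kap 3 (t - s) (y - x)) := by
        positivity
      by_cases hF : stp (r ^ 3) (2 * r ^ 3) y - stp (r ^ 3) (2 * r ^ 3) x = 0
      · rw [hF]
        simp only [mul_zero, Real.exp_zero, sub_self, abs_zero, zero_mul]
        linarith
      by_cases hxy : x ∈ Icc (r ^ 3 / 2) (3 * r ^ 3) ∧ y ∈ Icc (r ^ 3 / 2) (3 * r ^ 3)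
      · have := near_bound hM hC1.le hr1 hc0.le hc1 hst hts' ht hxy.1 hxy.2 hlam
        rw [indicator_of_mem hxy.1, Pi.one_apply, one_mul, wA, wB, if_pos hxy.1, if_pos hxy.2, hcr]
        linarith
      · have := far_bound hM hC1.le h32 hr2 hc0.le hc1 hst hts' hs ht
          (not_and_or.mp hxy) hF hlam
        linarith

end Pool.Agent.H.MP_5ad92a_pr
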