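import Pool.Agent.H.MP_5ad92a_pr.AlSeg
import Pool.Agent.H.MP_5ad92a_pr.PQ

set_option autoImplicit false

noncomputable section

open MeasureTheory Filter Topology Set

namespace Pool.Agent.H.MP_5ad92a_pr

namespace RefinedAux

theorem cube_root {x : ℝ} (hx : 0 ≤ x) : (x ^ (1 / 3 : ℝ)) ^ 3 = x := by
  rw [← Real.rpow_natCast, ← Real.rpow_mul hx]; norm_num

theorem gx_eq (σ : ℝ) {x : ℝ} (hx : 0 ≤ x) :
    gx σ x = 3 / 8 * (x ^ (1 / 3 : ℝ)) ^ 4 + σ * (x ^ (1 / 3 : ℝ)) ^ 2 / 4 := by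
  unfold gx
  rw [← Real.rpow_natCast, ← Real.rpow_mul hx, ← Real.rpow_natCast, ← Real.rpow_mul hx]
  norm_num

/-- cube roots of large numbers are large -/
theorem root_ge {x A : ℝ} (hA : 0 ≤ A) (hx : A ^ 3 ≤ x) : A ≤ x ^ (1 / 3 : ℝ) := by
  have hx0 : 0 ≤ x := le_trans (by positivity) hx
  have := cube_root hx0
  by_contra h
  push Not at h
  have h0 : 0 ≤ x ^ (1 / 3 : ℝ) := Real.rpow_nonneg hx0 _
  have : (x ^ (1 / 3 : ℝ)) ^ 3 < A ^ 3 := pow_lt_pow_left₀ h h0 (by norm_num)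
  linarith

theorem root_le {x A : ℝ} (hA : 0 ≤ A) (hx0 : 0 ≤ x) (hx : x ≤ A ^ 3) : x ^ (1 / 3 : ℝ) ≤ A := by
  have := cube_root hx0
  by_contra h
  push Not at h
  have : A ^ 3 < (x ^ (1 / 3 : ℝ)) ^ 3 := pow_lt_pow_left₀ h hA (by norm_num)
  linarith

/-- growth of `gx` -/
theorem gx_growth {M τ y l : ℝ} (hM : 0 ≤ M) (hτ : τ ∈ Icc (-M) M) (hy : (4 + M) ^ 3 ≤ y)
    (hl : 0 ≤ l) : gx τ y + l ≤ gx τ (y + l) := by
  have hy0 : 0 ≤ y := le_trans (by positivity) hy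
  rw [gx_eq τ hy0, gx_eq τ (by linarith : 0 ≤ y + l)]
  set Y := y ^ (1 / 3 : ℝ)
  set Z := (y + l) ^ (1 / 3 : ℝ)
  have hY : 4 + M ≤ Y := root_ge (by linarith) hy
  have hYZ : Y ≤ Z := Real.rpow_le_rpow hy0 (by linarith) (by norm_num)
  have hl' : l = Z ^ 3 - Y ^ 3 := by
    rw [cube_root hy0, cube_root (by linarith : 0 ≤ y + l)]; ring
  rw [hl']
  have h1 : Z ^ 2 + Z * Y + Y ^ 2 ≤ 3 / 8 * (Z + Y) * (Z ^ 2 + Y ^ 2) + τ / 4 * (Z + Y) := by
    have h2 : 2 * (4 + M) ≤ Z + Y := by linarith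
    have h3 : 3 / 8 * (2 * (4 + M)) * (Z ^ 2 + Y ^ 2) ≤ 3 / 8 * (Z + Y) * (Z ^ 2 + Y ^ 2) := by
      have : 0 ≤ Z ^ 2 + Y ^ 2 := by positivity
      nlinarith
    have h4 : -(M / 4 * (Z ^ 2 + Y ^ 2)) ≤ τ / 4 * (Z + Y) := by
      have h5 : Z + Y ≤ Z ^ 2 + Y ^ 2 := by nlinarith
      have h6 : -M ≤ τ := hτ.1
      nlinarith
    nlinarith [sq_nonneg (Z - Y), mul_nonneg hM (sq_nonneg Z), mul_nonneg hM (sq_nonneg Y)]
  have h7 : 0 ≤ (Z - Y) * (3 / 8 * (Z + Y) * (Z ^ 2 + Y ^ 2) + τ / 4 * (Z + Y) -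
      (Z ^ 2 + Z * Y + Y ^ 2)) := mul_nonneg (by linarith) (by linarith)
  nlinarith [h7]

theorem gx_nonneg {M τ y : ℝ} (hM : 0 ≤ M) (hτ : τ ∈ Icc (-M) M) (hy : (4 + M) ^ 3 ≤ y) :
    0 ≤ gx τ y := by
  have hy0 : 0 ≤ y := le_trans (by positivity) hy
  rw [gx_eq τ hy0]
  set Y := y ^ (1 / 3 : ℝ)
  have hY : 4 + M ≤ Y := root_ge (by linarith) hy
  have h1 : -M ≤ τ := hτ.1
  have h2 : M ≤ Y ^ 2 := by nlinarith
  nlinarith [sq_nonneg Y, mul_nonneg (sq_nonneg Y) (sub_nonneg.2 h2),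
    mul_nonneg (sq_nonneg Y) (by linarith : (0:ℝ) ≤ τ + M)]

/-- convexity inequality -/
theorem conv_ineq {M σ τ x y : ℝ} (hM : 0 ≤ M) (hσ : σ ∈ Icc (-M) M) (hx : 0 ≤ x)
    (hy : 0 ≤ y) (hστ : τ ≤ σ) :
    (x - y) * (y ^ (1 / 3 : ℝ) / 2) ≤ gx σ x - gx τ y + M ^ 2 / 8 := by
  rw [gx_eq σ hx, gx_eq τ hy]
  set X := x ^ (1 / 3 : ℝ)
  set Y := y ^ (1 / 3 : ℝ)
  have hX : X ^ 3 = x := cube_root hx
  have hY : Y ^ 3 = y := cube_root hy
  have hX0 : 0 ≤ X := Real.rpow_nonneg hx _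
  have hY0 : 0 ≤ Y := Real.rpow_nonneg hy _
  rw [← hX, ← hY]
  set D := X ^ 2 - Y ^ 2 with hD
  have key : 3 / 8 * X ^ 4 - 3 / 8 * Y ^ 4 - (X ^ 3 - Y ^ 3) * (Y / 2) ≥ 1 / 8 * D ^ 2 := by
    have e1 : 3 / 8 * X ^ 4 - 3 / 8 * Y ^ 4 - (X ^ 3 - Y ^ 3) * (Y / 2) - 1 / 8 * D ^ 2 =
      1 / 4 * (X - Y) ^ 2 * X ^ 2 := by rw [hD]; ring
    have : 0 ≤ 1 / 4 * (X - Y) ^ 2 * X ^ 2 := by positivity
    linarith
  have h2 : σ / 4 * D ≥ -(1 / 8 * D ^ 2) - M ^ 2 / 8 := by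
    have h3 : σ ^ 2 ≤ M ^ 2 := by
      have := abs_le.2 ⟨hσ.1, hσ.2⟩
      nlinarith [abs_nonneg σ, sq_abs σ]
    nlinarith [sq_nonneg (D + σ)]
  have h4 : τ * Y ^ 2 / 4 ≤ σ * Y ^ 2 / 4 := by nlinarith [sq_nonneg Y]
  have h5 : σ / 4 * D = σ * X ^ 2 / 4 - σ * Y ^ 2 / 4 := by rw [hD]; ring
  linarith

/-- the reflected term -/
theorem refl_bound (M : ℝ) (hM : 0 ≤ M) : ∃ C : ℝ, 0 ≤ C ∧ ∀ σ ∈ Icc (-M) M, ∀ τ ∈ Icc (-M) M,
    ∀ x y : ℝ, 0 ≤ x → (4 + M) ^ 3 ≤ y → |Al σ (-x) τ (-y)| ≤ C * Real.exp (-gx τ y) := by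
  obtain ⟨CQ, hQ⟩ := Ql_bound M 1 one_pos
  obtain ⟨CP, hP⟩ := Pl_refined M
  have hCQ : 0 ≤ CQ := by
    have := hQ 0 ⟨by linarith, hM⟩ 0 le_rfl 0 le_rfl
    simp at this
    exact le_trans (abs_nonneg _) this
  have hCP : 0 ≤ CP := by
    have := hP 0 ⟨by linarith, hM⟩ 1 one_pos
    have h1 : 0 ≤ CP * Real.exp (-gx 0 1) := le_trans (abs_nonneg _) this
    exact nonneg_of_mul_nonneg_left h1 (Real.exp_pos _)
  refine ⟨CQ * CP, mul_nonneg hCQ hCP, ?_⟩
  intro σ hσ τ hτ x y hx hy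
  have hy0 : 0 < y := lt_of_lt_of_le (by positivity) hy
  unfold Al
  have hint : IntegrableOn (fun l : ℝ => Real.exp (-1 * l)) (Ioi 0) :=
    integrableOn_exp_mul_Ioi (by norm_num) 0
  have hval : ∫ l in Ioi (0:ℝ), Real.exp (-1 * l) = 1 := by
    have := integral_exp_mul_Ioi (by norm_num : (-1 : ℝ) < 0) 0
    rw [this]; norm_num
  have hb : ∀ᵐ l ∂(volume.restrict (Ioi (0:ℝ))), ‖Ql σ (-x - l) * Pl τ (-y - l)‖ ≤
      CQ * CP * Real.exp (-gx τ y) * Real.exp (-1 * l) := by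
    refine (ae_restrict_iff' measurableSet_Ioi).2 (Filter.Eventually.of_forall ?_)
    intro l hl
    have hl0 : 0 < l := hl
    have h1 : |Ql σ (-x - l)| ≤ CQ := by
      have := hQ σ hσ 0 le_rfl (-x - l) (by linarith)
      simpa using this
    have h2 : |Pl τ (-y - l)| ≤ CP * Real.exp (-gx τ (y + l)) := by
      have e : -y - l = -(y + l) := by ring
      rw [e, Pl_even]
      exact hP τ hτ (y + l) (by linarith)
    have h3 : Real.exp (-gx τ (y + l)) ≤ Real.exp (-gx τ y) * Real.exp (-1 * l) := by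
      rw [← Real.exp_add]
      apply Real.exp_le_exp.2
      have := gx_growth hM hτ hy hl0.le
      linarith
    rw [Real.norm_eq_abs, abs_mul]
    calc |Ql σ (-x - l)| * |Pl τ (-y - l)| ≤ CQ * (CP * Real.exp (-gx τ (y + l))) := by
          apply mul_le_mul h1 h2 (abs_nonneg _) hCQ
      _ ≤ CQ * (CP * (Real.exp (-gx τ y) * Real.exp (-1 * l))) := by
          apply mul_le_mul_of_nonneg_left _ hCQ
          exact mul_le_mul_of_nonneg_left h3 hCP
      _ = _ := by ring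
  have := norm_integral_le_of_norm_le (hint.const_mul (CQ * CP * Real.exp (-gx τ y))) hb
  rw [integral_const_mul, hval, mul_one, Real.norm_eq_abs] at this
  exact this

/-- the real part of the exponent -/
theorem re_exponent (σ τ x y c v : ℝ) :
    (((τ : ℂ) - σ) * ((c : ℂ) + (v : ℂ) * Complex.I) ^ 2 / 2
        + ((x : ℂ) - y) * ((c : ℂ) + (v : ℂ) * Complex.I)).re =
      (τ - σ) * (c ^ 2 - v ^ 2) / 2 + (x - y) * c := by
  have e : ((τ : ℂ) - σ) * ((c : ℂ) + (v : ℂ) * Complex.I) ^ 2 / 2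
        + ((x : ℂ) - y) * ((c : ℂ) + (v : ℂ) * Complex.I) =
      (((τ - σ) * (c ^ 2 - v ^ 2) / 2 + (x - y) * c : ℝ) : ℂ) +
        (((τ - σ) * (c * v) + (x - y) * v : ℝ) : ℂ) * Complex.I := by
    push_cast
    ring_nf
    simp only [Complex.I_sq]
    ring
  rw [e, Complex.add_re, Complex.ofReal_re, Complex.re_ofReal_mul, Complex.I_re, mul_zero, add_zero]

/-- bound of the main term -/
theorem main_bound (σ τ x y c b B : ℝ) (hb : 0 ≤ b)
    (h : ∀ v ∈ Icc 0 b, (τ - σ) * (c ^ 2 - v ^ 2) / 2 + (x - y) * c ≤ B) :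
    |∫ v in (0 : ℝ)..b, (Complex.exp (((τ : ℂ) - σ) * ((c : ℂ) + (v : ℂ) * Complex.I) ^ 2 / 2
        + ((x : ℂ) - y) * ((c : ℂ) + (v : ℂ) * Complex.I))).re| ≤ b * Real.exp B := by
  have := intervalIntegral.norm_integral_le_of_norm_le_const (a := 0) (b := b)
    (C := Real.exp B) (f := fun v : ℝ => (Complex.exp (((τ : ℂ) - σ) *
      ((c : ℂ) + (v : ℂ) * Complex.I) ^ 2 / 2
        + ((x : ℂ) - y) * ((c : ℂ) + (v : ℂ) * Complex.I))).re) ?_
  · rw [sub_zero, abs_of_nonneg hb, Real.norm_eq_abs] at this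
    linarith
  · intro v hv
    rw [uIoc_of_le hb] at hv
    rw [Real.norm_eq_abs]
    refine le_trans (Complex.abs_re_le_norm _) ?_
    rw [Complex.norm_exp, re_exponent]
    exact Real.exp_le_exp.2 (h v ⟨hv.1.le, hv.2⟩)

end RefinedAux

open RefinedAux

theorem Kl_refined (M : ℝ) : ∃ C R0 : ℝ, ∀ R ≥ R0, ∀ x ∈ Icc (R / 2) (3 * R),
    ∀ y ∈ Icc (R / 2) (3 * R), ∀ s ∈ Icc (-M) M, ∀ t ∈ Icc (-M) M, s ≤ t → t ≤ s + R ^ (-(2 / 3) : ℝ) →
    |Kl t y s x| ≤ C * R ^ (1 / 3 : ℝ) * Real.exp (gx t y - gx s x) := by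
  rcases lt_or_ge M 0 with hM | hM
  · refine ⟨0, 0, ?_⟩
    intro R _ x _ y _ s hs
    exfalso
    have := hs.1.trans hs.2
    linarith
  obtain ⟨C1, h1⟩ := refl_bound M hM
  obtain ⟨C2, h2⟩ := Al_seg M
  have hC1 := h1.1
  have hC2 : 0 ≤ C2 := by
    have := h2 0 ⟨by linarith, hM⟩ 0 ⟨by linarith, hM⟩ 1 1 one_pos one_pos
    have h3 := le_trans (abs_nonneg _) this
    exact nonneg_of_mul_nonneg_left h3 (Real.exp_pos _)
  refine ⟨C1 + C2 + Real.exp (1 + M ^ 2 / 8), 2 * (4 + M) ^ 3, ?_⟩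
  intro R hR x hx y hy s hs t ht hst hts
  have hR4 : (4 + M) ^ 3 ≤ R / 2 := by linarith
  have hR1 : 64 ≤ R / 2 := le_trans (by nlinarith [pow_nonneg hM 2, pow_nonneg hM 3]) hR4
  have hR0 : 0 < R := by linarith
  have hx0 : 0 < x := by linarith [hx.1]
  have hy0 : 0 < y := by linarith [hy.1]
  set E := Real.exp (gx t y - gx s x) with hE
  have hEpos : 0 < E := Real.exp_pos _
  have hRr : 1 ≤ R ^ (1 / 3 : ℝ) := Real.one_le_rpow (by linarith) (by norm_num)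
  -- reflected term
  have hrefl : |Al t (-y) s (-x)| ≤ C1 * E := by
    refine le_trans (h1.2 t ht s hs y x hy0.le (by linarith [hx.1])) ?_
    apply mul_le_mul_of_nonneg_left _ hC1
    apply Real.exp_le_exp.2
    have := gx_nonneg hM ht (show (4 + M) ^ 3 ≤ y by linarith [hy.1])
    linarith
  -- main term
  set c := x ^ (1 / 3 : ℝ) / 2 with hc
  have hc0 : 0 ≤ c := by positivity
  have hroot3R : x ^ (1 / 3 : ℝ) ≤ (3 * R) ^ (1 / 3 : ℝ) :=
    Real.rpow_le_rpow hx0.le hx.2 (by norm_num)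
  have h3R : (3 * R) ^ (1 / 3 : ℝ) = 3 ^ (1 / 3 : ℝ) * R ^ (1 / 3 : ℝ) :=
    Real.mul_rpow (by norm_num) hR0.le
  have h3 : (3 : ℝ) ^ (1 / 3 : ℝ) ≤ 3 / 2 := by
    apply root_le (by norm_num) (by norm_num); norm_num
  have hcR : c ≤ 3 / 4 * R ^ (1 / 3 : ℝ) := by
    rw [hc]
    have : x ^ (1 / 3 : ℝ) ≤ 3 / 2 * R ^ (1 / 3 : ℝ) := by
      refine le_trans hroot3R ?_
      rw [h3R]
      exact mul_le_mul_of_nonneg_right h3 (by positivity)
    linarith
  have hsqrt3 : Real.sqrt 3 ≤ 7 / 4 := by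
    rw [show (7 / 4 : ℝ) = Real.sqrt ((7 / 4) ^ 2) by rw [Real.sqrt_sq (by norm_num)]]
    apply Real.sqrt_le_sqrt; norm_num
  have hts1 : (t - s) * c ^ 2 ≤ 1 := by
    have e1 : (t - s) ≤ R ^ (-(2 / 3) : ℝ) := by linarith
    have e2 : c ^ 2 ≤ (3 / 4 * R ^ (1 / 3 : ℝ)) ^ 2 := pow_le_pow_left₀ hc0 hcR 2
    have e3 : R ^ (-(2 / 3) : ℝ) * (3 / 4 * R ^ (1 / 3 : ℝ)) ^ 2 = 9 / 16 := by
      rw [mul_pow, ← Real.rpow_natCast (R ^ (1 / 3 : ℝ)), ← Real.rpow_mul hR0.le]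
      have : R ^ (-(2 / 3) : ℝ) * ((3 / 4 : ℝ) ^ 2 * R ^ (1 / 3 * ((2:ℕ):ℝ))) =
        (3 / 4 : ℝ) ^ 2 * (R ^ (-(2 / 3) : ℝ) * R ^ (1 / 3 * ((2:ℕ):ℝ))) := by ring
      rw [this, ← Real.rpow_add hR0]
      norm_num
    calc (t - s) * c ^ 2 ≤ R ^ (-(2 / 3) : ℝ) * (3 / 4 * R ^ (1 / 3 : ℝ)) ^ 2 :=
          mul_le_mul e1 e2 (by positivity) (by positivity)
      _ ≤ 1 := by rw [e3]; norm_num
  have hmain := main_bound t s y x c (Real.sqrt 3 * c) (gx t y - gx s x + (1 + M ^ 2 / 8))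
    (by positivity) (by
      intro v hv
      have hv2 : v ^ 2 ≤ 3 * c ^ 2 := by
        have := pow_le_pow_left₀ hv.1 hv.2 2
        rwa [mul_pow, Real.sq_sqrt (by norm_num)] at this
      have e1 : (s - t) * (c ^ 2 - v ^ 2) / 2 ≤ (t - s) * c ^ 2 := by
        nlinarith [sub_nonneg.2 hst]
      have e2 := conv_ineq hM ht hy0.le hx0.le hst
      rw [← hc] at e2
      linarith)
  have hseg := h2 t ht s hs y x hy0 hx0
  rw [← hc] at hseg
  set J := ∫ v in (0 : ℝ)..(Real.sqrt 3 * c),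
      (Complex.exp (((s : ℂ) - t) * (((c : ℝ) : ℂ) + (v : ℂ) * Complex.I) ^ 2 / 2
        + ((y : ℂ) - x) * (((c : ℝ) : ℂ) + (v : ℂ) * Complex.I))).re with hJ
  have hJb : |1 / Real.pi * J| ≤ Real.exp (1 + M ^ 2 / 8) * R ^ (1 / 3 : ℝ) * E := by
    rw [abs_mul, abs_of_pos (by positivity : (0:ℝ) < 1 / Real.pi)]
    have e0 : |J| ≤ Real.sqrt 3 * c * (Real.exp (1 + M ^ 2 / 8) * E) := by
      refine le_trans hmain (le_of_eq ?_)
      rw [hE, ← Real.exp_add]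
      congr 2
      ring
    have e1 : Real.sqrt 3 * c ≤ Real.pi * R ^ (1 / 3 : ℝ) := by
      have e3 : Real.sqrt 3 * c ≤ 7 / 4 * (3 / 4 * R ^ (1 / 3 : ℝ)) :=
        mul_le_mul hsqrt3 hcR hc0 (by norm_num)
      have e4 := Real.pi_gt_three
      nlinarith
    have e2 : 0 ≤ Real.exp (1 + M ^ 2 / 8) * E := by positivity
    calc 1 / Real.pi * |J| ≤ 1 / Real.pi * (Real.pi * R ^ (1 / 3 : ℝ) *
          (Real.exp (1 + M ^ 2 / 8) * E)) := by
          apply mul_le_mul_of_nonneg_left _ (by positivity)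
          exact le_trans e0 (mul_le_mul_of_nonneg_right e1 e2)
      _ = Real.exp (1 + M ^ 2 / 8) * R ^ (1 / 3 : ℝ) * E := by
          field_simp
  have htot : |Kl t y s x| ≤ C1 * E + C2 * E + Real.exp (1 + M ^ 2 / 8) * R ^ (1 / 3 : ℝ) * E := by
    unfold Kl
    have e1 : |Al t y s x| ≤ C2 * E + Real.exp (1 + M ^ 2 / 8) * R ^ (1 / 3 : ℝ) * E := by
      calc |Al t y s x| = |(Al t y s x - 1 / Real.pi * J) + 1 / Real.pi * J| := by ring_nf
        _ ≤ |Al t y s x - 1 / Real.pi * J| + |1 / Real.pi * J| := abs_add_le _ _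
        _ ≤ _ := add_le_add hseg hJb
    have e2 := abs_add_le (Al t y s x) (Al t (-y) s (-x))
    linarith
  refine le_trans htot ?_
  have e1 : C1 * E ≤ C1 * R ^ (1 / 3 : ℝ) * E := by
    have := mul_nonneg (mul_nonneg hC1 (sub_nonneg.2 hRr)) hEpos.le
    nlinarith
  have e2 : C2 * E ≤ C2 * R ^ (1 / 3 : ℝ) * E := by
    have := mul_nonneg (mul_nonneg hC2 (sub_nonneg.2 hRr)) hEpos.le
    nlinarith
  nlinarith

/-- the kernel at time `0` near the segment term -/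
theorem Kl_seg_zero : ∃ C : ℝ, 0 ≤ C ∧ ∀ x y : ℝ, 64 ≤ x → 64 ≤ y →
    |Kl 0 x 0 y - (1 / Real.pi) * ∫ v in (0 : ℝ)..(Real.sqrt 3 * (y ^ (1 / 3 : ℝ) / 2)),
      Real.exp ((x - y) * (y ^ (1 / 3 : ℝ) / 2)) * Real.cos ((x - y) * v)| ≤
      C * Real.exp (gx 0 x - gx 0 y) := by
  obtain ⟨C1, h1⟩ := refl_bound 0 le_rfl
  obtain ⟨C2, h2⟩ := Al_seg 0
  refine ⟨C1 + |C2|, by have := h1.1; positivity, ?_⟩
  intro x y hx hy
  have hseg := h2 0 ⟨by norm_num, le_rfl⟩ 0 ⟨by norm_num, le_rfl⟩ x y (by linarith) (by linarith)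
  have hr := h1.2 0 ⟨by norm_num, le_rfl⟩ 0 ⟨by norm_num, le_rfl⟩ x y (by linarith)
    (by norm_num; linarith)
  have hg : 0 ≤ gx 0 x := gx_nonneg le_rfl ⟨by norm_num, le_rfl⟩ (by norm_num; linarith)
  have e0 : ∀ v : ℝ, (Complex.exp ((((0:ℝ) : ℂ) - ((0:ℝ) : ℂ)) *
      (((y ^ (1 / 3 : ℝ) / 2 : ℝ) : ℂ) + (v : ℂ) * Complex.I) ^ 2 / 2
        + ((x : ℂ) - y) * (((y ^ (1 / 3 : ℝ) / 2 : ℝ) : ℂ) + (v : ℂ) * Complex.I))).re =
      Real.exp ((x - y) * (y ^ (1 / 3 : ℝ) / 2)) * Real.cos ((x - y) * v) := by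
    intro v
    have : (((0:ℝ) : ℂ) - ((0:ℝ) : ℂ)) *
      (((y ^ (1 / 3 : ℝ) / 2 : ℝ) : ℂ) + (v : ℂ) * Complex.I) ^ 2 / 2
        + ((x : ℂ) - y) * (((y ^ (1 / 3 : ℝ) / 2 : ℝ) : ℂ) + (v : ℂ) * Complex.I) =
        (((x - y) * (y ^ (1 / 3 : ℝ) / 2) : ℝ) : ℂ) + (((x - y) * v : ℝ) : ℂ) * Complex.I := by
      push_cast; ring
    rw [this, Complex.exp_add, Complex.exp_mul_I, ← Complex.ofReal_exp, Complex.re_ofReal_mul,
      ← Complex.ofReal_cos, ← Complex.ofReal_sin, Complex.add_re, Complex.ofReal_re,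
      Complex.re_ofReal_mul, Complex.I_re, mul_zero, add_zero]
  simp only [e0] at hseg
  unfold Kl
  have e1 : C2 * Real.exp (gx 0 x - gx 0 y) ≤ |C2| * Real.exp (gx 0 x - gx 0 y) :=
    mul_le_mul_of_nonneg_right (le_abs_self _) (Real.exp_pos _).le
  have e2 : C1 * Real.exp (-gx 0 y) ≤ C1 * Real.exp (gx 0 x - gx 0 y) :=
    mul_le_mul_of_nonneg_left (Real.exp_le_exp.2 (by linarith)) h1.1
  set J := ∫ v in (0 : ℝ)..(Real.sqrt 3 * (y ^ (1 / 3 : ℝ) / 2)),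
      Real.exp ((x - y) * (y ^ (1 / 3 : ℝ) / 2)) * Real.cos ((x - y) * v)
  calc |Al 0 x 0 y + Al 0 (-x) 0 (-y) - 1 / Real.pi * J| =
        |(Al 0 x 0 y - 1 / Real.pi * J) + Al 0 (-x) 0 (-y)| := by ring_nf
    _ ≤ |Al 0 x 0 y - 1 / Real.pi * J| + |Al 0 (-x) 0 (-y)| := abs_add_le _ _
    _ ≤ |C2| * Real.exp (gx 0 x - gx 0 y) + C1 * Real.exp (gx 0 x - gx 0 y) :=
        add_le_add (le_trans hseg e1) (le_trans hr e2)
    _ = (C1 + |C2|) * Real.exp (gx 0 x - gx 0 y) := by ring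

theorem Kl_mean : ∃ c R0 : ℝ, 0 < c ∧ ∀ x ≥ R0, c * x ^ (1 / 3 : ℝ) ≤ Kl 0 x 0 x := by
  obtain ⟨C, hC0, hC⟩ := Kl_seg_zero
  refine ⟨1 / 8, max 64 ((8 * C) ^ 3), by norm_num, ?_⟩
  intro x hx
  have hx1 : 64 ≤ x := le_trans (le_max_left _ _) hx
  have hx2 : (8 * C) ^ 3 ≤ x := le_trans (le_max_right _ _) hx
  have hx3 : 8 * C ≤ x ^ (1 / 3 : ℝ) := root_ge (by linarith) hx2
  have h := hC x x hx1 hx1
  simp only [sub_self, zero_mul, Real.exp_zero, Real.cos_zero, mul_one,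
    intervalIntegral.integral_const, sub_zero, smul_eq_mul] at h
  have h2 := (abs_le.1 h).1
  have hs3 : (17 / 10 : ℝ) ≤ Real.sqrt 3 := by
    rw [show (17 / 10 : ℝ) = Real.sqrt ((17 / 10) ^ 2) by rw [Real.sqrt_sq (by norm_num)]]
    apply Real.sqrt_le_sqrt; norm_num
  have hpi := Real.pi_lt_d2
  have hX : 0 ≤ x ^ (1 / 3 : ℝ) := Real.rpow_nonneg (by linarith) _
  have h4 : x ^ (1 / 3 : ℝ) / 4 - x ^ (1 / 3 : ℝ) / 8 ≤
      1 / Real.pi * (Real.sqrt 3 * (x ^ (1 / 3 : ℝ) / 2)) - x ^ (1 / 3 : ℝ) / 8 := by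
    have e1 : x ^ (1 / 3 : ℝ) / 4 ≤ 1 / Real.pi * (Real.sqrt 3 * (x ^ (1 / 3 : ℝ) / 2)) := by
      rw [div_mul_eq_mul_div, one_mul, le_div_iff₀ Real.pi_pos]
      nlinarith
    linarith
  linarith

/-- off-diagonal bounds at time `0` -/
theorem Kl_zero_bounds : ∃ C : ℝ, 0 ≤ C ∧ ∀ R x y : ℝ, 128 ≤ R → x ∈ Icc (R / 2) R →
    y ∈ Icc (R / 2) R →
    |Kl 0 x 0 y| ≤ (R ^ (1 / 3 : ℝ) + C) * Real.exp (gx 0 x - gx 0 y) ∧
    (1 ≤ |x - y| → |Kl 0 x 0 y| ≤ (1 + C) * Real.exp (gx 0 x - gx 0 y)) := by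
  obtain ⟨C, hC0, hC⟩ := Kl_seg_zero
  refine ⟨C, hC0, ?_⟩
  intro R x y hR hx hy
  have hx64 : 64 ≤ x := by linarith [hx.1]
  have hy64 : 64 ≤ y := by linarith [hy.1]
  have h := hC x y hx64 hy64
  set c := y ^ (1 / 3 : ℝ) / 2 with hc
  have hc0 : 0 ≤ c := by
    have : 0 ≤ y ^ (1 / 3 : ℝ) := Real.rpow_nonneg (by linarith) _
    positivity
  set b := Real.sqrt 3 * c with hb
  have hb0 : 0 ≤ b := by positivity
  set J := ∫ v in (0 : ℝ)..b, Real.exp ((x - y) * c) * Real.cos ((x - y) * v) with hJ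
  have hconv : Real.exp ((x - y) * c) ≤ Real.exp (gx 0 x - gx 0 y) := by
    apply Real.exp_le_exp.2
    have := conv_ineq (M := 0) (σ := 0) (τ := 0) (x := x) (y := y) le_rfl ⟨by norm_num, le_rfl⟩
      (by linarith) (by linarith) le_rfl
    norm_num at this
    exact this
  have hE : 0 < Real.exp (gx 0 x - gx 0 y) := Real.exp_pos _
  have hbR : b ≤ R ^ (1 / 3 : ℝ) := by
    have e1 : y ^ (1 / 3 : ℝ) ≤ R ^ (1 / 3 : ℝ) :=
      Real.rpow_le_rpow (by linarith) hy.2 (by norm_num)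
    have e2 : Real.sqrt 3 ≤ 2 := by
      rw [show (2 : ℝ) = Real.sqrt (2 ^ 2) by rw [Real.sqrt_sq (by norm_num)]]
      apply Real.sqrt_le_sqrt; norm_num
    calc b = Real.sqrt 3 * c := rfl
      _ ≤ 2 * c := mul_le_mul_of_nonneg_right e2 hc0
      _ = y ^ (1 / 3 : ℝ) := by rw [hc]; ring
      _ ≤ _ := e1
  have hpi : 1 / Real.pi ≤ 1 := by
    rw [div_le_one Real.pi_pos]; linarith [Real.pi_gt_three]
  have hpi0 : 0 ≤ 1 / Real.pi := by positivity
  have htri : |Kl 0 x 0 y| ≤ C * Real.exp (gx 0 x - gx 0 y) + |1 / Real.pi * J| := by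
    have e : |Kl 0 x 0 y| = |(Kl 0 x 0 y - 1 / Real.pi * J) + 1 / Real.pi * J| := by ring_nf
    rw [e]
    exact le_trans (abs_add_le _ _) (add_le_add h le_rfl)
  constructor
  · have e1 : |J| ≤ b * Real.exp ((x - y) * c) := by
      have := intervalIntegral.norm_integral_le_of_norm_le_const (a := 0) (b := b)
        (C := Real.exp ((x - y) * c))
        (f := fun v : ℝ => Real.exp ((x - y) * c) * Real.cos ((x - y) * v)) ?_
      · rw [sub_zero, abs_of_nonneg hb0, Real.norm_eq_abs] at this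
        linarith
      · intro v _
        rw [Real.norm_eq_abs, abs_mul, abs_of_pos (Real.exp_pos _)]
        have := Real.abs_cos_le_one ((x - y) * v)
        nlinarith [Real.exp_pos ((x - y) * c)]
    have e2 : |1 / Real.pi * J| ≤ R ^ (1 / 3 : ℝ) * Real.exp (gx 0 x - gx 0 y) := by
      rw [abs_mul, abs_of_nonneg hpi0]
      calc 1 / Real.pi * |J| ≤ 1 * |J| := mul_le_mul_of_nonneg_right hpi (abs_nonneg _)
        _ = |J| := one_mul _
        _ ≤ b * Real.exp ((x - y) * c) := e1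
        _ ≤ R ^ (1 / 3 : ℝ) * Real.exp (gx 0 x - gx 0 y) :=
          mul_le_mul hbR hconv (Real.exp_pos _).le (le_trans hb0 hbR)
    nlinarith
  · intro hxy
    have hne : x - y ≠ 0 := by
      intro h0; rw [h0, abs_zero] at hxy; linarith
    have e0 : J = Real.exp ((x - y) * c) * (Real.sin ((x - y) * b) / (x - y)) := by
      rw [hJ, intervalIntegral.integral_const_mul, intervalIntegral.integral_comp_mul_left _ hne,
        mul_zero, integral_cos, Real.sin_zero, sub_zero, smul_eq_mul]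
      ring
    have e1 : |J| ≤ Real.exp ((x - y) * c) := by
      rw [e0, abs_mul, abs_of_pos (Real.exp_pos _), abs_div]
      have e3 : |Real.sin ((x - y) * b)| / |x - y| ≤ 1 := by
        rw [div_le_one (by linarith)]
        exact le_trans (Real.abs_sin_le_one _) hxy
      nlinarith [Real.exp_pos ((x - y) * c)]
    have e2 : |1 / Real.pi * J| ≤ Real.exp (gx 0 x - gx 0 y) := by
      rw [abs_mul, abs_of_nonneg hpi0]
      calc 1 / Real.pi * |J| ≤ 1 * |J| := mul_le_mul_of_nonneg_right hpi (abs_nonneg _)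
        _ = |J| := one_mul _
        _ ≤ Real.exp ((x - y) * c) := e1
        _ ≤ _ := hconv
    nlinarith

theorem Kl_var (ε : ℝ) (hε : 0 < ε) : ∃ R0 : ℝ, ∀ R ≥ R0,
    ∫ p in (Icc (R / 2) R) ×ˢ (Icc (R / 2) R), |Kl 0 p.1 0 p.2 * Kl 0 p.2 0 p.1| ≤
      ε * R ^ (8 / 3 : ℝ) := by
  obtain ⟨C, hC0, hC⟩ := Kl_zero_bounds
  -- it is enough to have the bound `A R²`
  obtain ⟨A, hA0, hA⟩ : ∃ A : ℝ, 0 ≤ A ∧ ∀ R : ℝ, 128 ≤ R →
      ∫ p in (Icc (R / 2) R) ×ˢ (Icc (R / 2) R), |Kl 0 p.1 0 p.2 * Kl 0 p.2 0 p.1| ≤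
        A * R ^ 2 := by
    refine ⟨(1 + C) ^ 2 * 4, by positivity, ?_⟩
    intro R hR
    have hR0 : 0 < R := by linarith
    have hr1 : 1 ≤ R ^ (1 / 3 : ℝ) := Real.one_le_rpow (by linarith) (by norm_num)
    have hr3 : (R ^ (1 / 3 : ℝ)) ^ 3 = R := cube_root hR0.le
    set r := R ^ (1 / 3 : ℝ) with hr
    set S : Set (ℝ × ℝ) := (Icc (R / 2) R) ×ˢ (Icc (R / 2) R) with hS
    have hSm : MeasurableSet S := measurableSet_Icc.prod measurableSet_Icc
    set W : Set (ℝ × ℝ) := {p | |p.1 - p.2| < 1} with hW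
    have hWm : MeasurableSet W := measurableSet_lt (by fun_prop) measurable_const
    have hvolS : volume S = ENNReal.ofReal (R / 2) * ENNReal.ofReal (R / 2) := by
      rw [hS, Measure.volume_eq_prod, Measure.prod_prod, Real.volume_Icc]
      congr 2 <;> ring
    have hSfin : volume S ≠ ⊤ := by
      rw [hvolS]; exact ENNReal.mul_ne_top ENNReal.ofReal_ne_top ENNReal.ofReal_ne_top
    have hvolW : (volume (S ∩ W)).toReal ≤ R := by
      have h1 : volume (S ∩ W) ≤ ENNReal.ofReal R := by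
        rw [Measure.volume_eq_prod, Measure.prod_apply (hSm.inter hWm)]
        calc ∫⁻ x, volume (Prod.mk x ⁻¹' (S ∩ W))
            ≤ ∫⁻ x, (Icc (R / 2) R).indicator (fun _ => ENNReal.ofReal 2) x := by
              apply lintegral_mono
              intro x
              by_cases hx : x ∈ Icc (R / 2) R
              · simp only [indicator_of_mem hx]
                have : Prod.mk x ⁻¹' (S ∩ W) ⊆ Icc (x - 1) (x + 1) := by
                  intro y hy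
                  have := hy.2
                  simp only [hW, Set.mem_ofPred_eq] at this
                  have := abs_lt.1 this
                  constructor <;> linarith
                refine le_trans (measure_mono this) ?_
                rw [Real.volume_Icc]
                apply ENNReal.ofReal_le_ofReal; linarith
              · simp only [indicator_of_notMem hx]
                have : Prod.mk x ⁻¹' (S ∩ W) = ∅ := by
                  ext y
                  simp only [mem_preimage, mem_inter_iff, mem_empty_iff_false, iff_false]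
                  intro hy
                  exact hx hy.1.1
                rw [this, measure_empty]
          _ = ENNReal.ofReal R := by
              rw [lintegral_indicator measurableSet_Icc, lintegral_const,
                Measure.restrict_apply MeasurableSet.univ, univ_inter, Real.volume_Icc,
                ← ENNReal.ofReal_mul (by norm_num)]
              congr 1; ring
      calc (volume (S ∩ W)).toReal ≤ (ENNReal.ofReal R).toReal :=
            ENNReal.toReal_mono ENNReal.ofReal_ne_top h1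
        _ = R := ENNReal.toReal_ofReal hR0.le
    have hpt : ∀ p ∈ S, |Kl 0 p.1 0 p.2 * Kl 0 p.2 0 p.1| ≤
        (1 + C) ^ 2 + W.indicator (fun _ => (r + C) ^ 2) p := by
      intro p hp
      obtain ⟨a1, a2⟩ := hC R p.1 p.2 hR hp.1 hp.2
      obtain ⟨b1, b2⟩ := hC R p.2 p.1 hR hp.2 hp.1
      have hee : Real.exp (gx 0 p.1 - gx 0 p.2) * Real.exp (gx 0 p.2 - gx 0 p.1) = 1 := by
        rw [← Real.exp_add]; simp
      rw [abs_mul]
      by_cases hpW : p ∈ W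
      · rw [indicator_of_mem hpW]
        calc |Kl 0 p.1 0 p.2| * |Kl 0 p.2 0 p.1| ≤
              ((r + C) * Real.exp (gx 0 p.1 - gx 0 p.2)) *
                ((r + C) * Real.exp (gx 0 p.2 - gx 0 p.1)) :=
              mul_le_mul a1 b1 (abs_nonneg _) (by positivity)
          _ = (r + C) ^ 2 * (Real.exp (gx 0 p.1 - gx 0 p.2) *
                Real.exp (gx 0 p.2 - gx 0 p.1)) := by ring
          _ = (r + C) ^ 2 := by rw [hee, mul_one]
          _ ≤ _ := by have : 0 ≤ (1 + C) ^ 2 := by positivity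
                      linarith
      · rw [indicator_of_notMem hpW, add_zero]
        have h1 : 1 ≤ |p.1 - p.2| := by
          simp only [hW, Set.mem_ofPred_eq, not_lt] at hpW
          exact hpW
        have a3 := a2 h1
        have b3 := b2 (by rw [abs_sub_comm]; exact h1)
        calc |Kl 0 p.1 0 p.2| * |Kl 0 p.2 0 p.1| ≤
              ((1 + C) * Real.exp (gx 0 p.1 - gx 0 p.2)) *
                ((1 + C) * Real.exp (gx 0 p.2 - gx 0 p.1)) :=
              mul_le_mul a3 b3 (abs_nonneg _) (by positivity)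
          _ = (1 + C) ^ 2 * (Real.exp (gx 0 p.1 - gx 0 p.2) *
                Real.exp (gx 0 p.2 - gx 0 p.1)) := by ring
          _ = (1 + C) ^ 2 := by rw [hee, mul_one]
    have : IsFiniteMeasure (volume.restrict S) := ⟨by
      rw [Measure.restrict_apply MeasurableSet.univ, univ_inter]; exact hSfin.lt_top⟩
    have hgi : Integrable (fun p => (1 + C) ^ 2 + W.indicator (fun _ => (r + C) ^ 2) p)
        (volume.restrict S) :=
      (integrable_const _).add ((integrable_const _).indicator hWm)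
    calc ∫ p in S, |Kl 0 p.1 0 p.2 * Kl 0 p.2 0 p.1| ≤
          ∫ p in S, ((1 + C) ^ 2 + W.indicator (fun _ => (r + C) ^ 2) p) := by
          apply integral_mono_of_nonneg (Filter.Eventually.of_forall fun p => abs_nonneg _) hgi
          exact (ae_restrict_iff' hSm).2 (Filter.Eventually.of_forall hpt)
      _ = (R / 2 * (R / 2)) * (1 + C) ^ 2 + (volume (S ∩ W)).toReal * (r + C) ^ 2 := by
          rw [integral_add (integrable_const _) ((integrable_const _).indicator hWm),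
            integral_const, integral_indicator hWm, integral_const]
          simp only [smul_eq_mul, measureReal_def]
          rw [Measure.restrict_apply MeasurableSet.univ, univ_inter,
            Measure.restrict_restrict hWm, Measure.restrict_apply MeasurableSet.univ, univ_inter,
            inter_comm W S, hvolS, ENNReal.toReal_mul,
            ENNReal.toReal_ofReal (by linarith : (0:ℝ) ≤ R / 2)]
      _ ≤ (R / 2 * (R / 2)) * (1 + C) ^ 2 + R * (r + C) ^ 2 := by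
          have : 0 ≤ (r + C) ^ 2 := by positivity
          nlinarith
      _ ≤ (1 + C) ^ 2 * 4 * R ^ 2 := by
          have h1 : r + C ≤ r * (1 + C) := by nlinarith
          have h2 : (r + C) ^ 2 ≤ (r * (1 + C)) ^ 2 := pow_le_pow_left₀ (by positivity) h1 2
          have h3 : r ^ 2 ≤ R := by
            rw [← hr3]; nlinarith [pow_nonneg (by linarith : (0:ℝ) ≤ r) 2]
          have h4 : R * (r + C) ^ 2 ≤ R * (R * (1 + C) ^ 2) := by
            apply mul_le_mul_of_nonneg_left _ hR0.le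
            refine le_trans h2 ?_
            rw [mul_pow]
            exact mul_le_mul_of_nonneg_right h3 (by positivity)
          nlinarith [mul_nonneg (sq_nonneg R) (sq_nonneg (1 + C))]
  refine ⟨max 128 ((A / ε) ^ (3 / 2 : ℝ)), ?_⟩
  intro R hR
  have hR1 : 128 ≤ R := le_trans (le_max_left _ _) hR
  have hR2 : (A / ε) ^ (3 / 2 : ℝ) ≤ R := le_trans (le_max_right _ _) hR
  have hR0 : 0 < R := by linarith
  refine le_trans (hA R hR1) ?_
  have h1 : A / ε ≤ R ^ (2 / 3 : ℝ) := by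
    have h0 : 0 ≤ A / ε := by positivity
    calc A / ε = ((A / ε) ^ (3 / 2 : ℝ)) ^ (2 / 3 : ℝ) := by
          rw [← Real.rpow_mul h0]; norm_num
      _ ≤ R ^ (2 / 3 : ℝ) := Real.rpow_le_rpow (Real.rpow_nonneg h0 _) hR2 (by norm_num)
  have h2 : R ^ (8 / 3 : ℝ) = R ^ (2 / 3 : ℝ) * R ^ 2 := by
    rw [← Real.rpow_natCast R 2, ← Real.rpow_add hR0]; norm_num
  rw [h2]
  have h3 : A ≤ ε * R ^ (2 / 3 : ℝ) := by
    rw [div_le_iff₀ hε] at h1; linarith
  nlinarith [sq_nonneg R]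

end Pool.Agent.H.MP_5ad92a_pr
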