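import Pool.Agent.H.MP_5ad92a_pr.ApproxCorr
import Pool.Agent.H.MP_5ad92a_pr.KnLambda
import Pool.Agent.H.MP_5ad92a_pr.Refined
import Pool.Agent.H.MP_5ad92a_pr.IntInc

/-!
# Fourth moments of the increments of step statistics
-/

set_option autoImplicit false

noncomputable section

open MeasureTheory Filter Topology Set
open scoped ENNReal

namespace Pool.Agent.H.MP_5ad92a_pr

namespace Apx

lemma stp_cont (a b : ℝ) : Continuous (stp a b) := by
  unfold stp; fun_prop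

lemma stp_nonneg (a b z : ℝ) : 0 ≤ stp a b z := le_max_left _ _

lemma stp_le_one (a b z : ℝ) : stp a b z ≤ 1 := max_le zero_le_one (min_le_left _ _)

lemma stp_abs (a b z : ℝ) : |stp a b z| ≤ 1 := by
  rw [abs_of_nonneg (stp_nonneg a b z)]; exact stp_le_one a b z

lemma stp_mirror {R : ℝ} (hR : 0 < R) (z : ℝ) :
    stp (-(2 * R)) (-R) z = 1 - stp R (2 * R) (-z) := by
  unfold stp
  have h1 : (z - -(2 * R)) / (-R - -(2 * R)) = 1 - (-z - R) / (2 * R - R) := by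
    have e1 : -R - -(2 * R) = R := by ring
    have e2 : 2 * R - R = R := by ring
    rw [e1, e2]
    field_simp
    ring
  rw [h1]
  set u := (-z - R) / (2 * R - R)
  rcases le_total u 0 with h | h
  · rw [min_eq_left (by linarith), max_eq_right zero_le_one, min_eq_right (by linarith),
      max_eq_left h, sub_zero]
  · rcases le_total u 1 with h2 | h2
    · rw [min_eq_right (by linarith), max_eq_right (by linarith), min_eq_right h2,
        max_eq_right h]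
    · rw [min_eq_right (by linarith), max_eq_left (by linarith), min_eq_left h2,
        max_eq_right zero_le_one, sub_self]

lemma gk_neg (h x y : ℝ) : gk h (-x) (-y) = gk h x y := by
  unfold gk
  congr 2
  ring

lemma fourth {l : ℕ} {i j : Fin (Lm l + 1)} {f : ℝ → ℝ} (hf : Measurable f) {Cf : ℝ}
    (hfb : ∀ z, |f z| ≤ Cf) {κ : ℝ} (hκ : 0 < κ)
    (hexp : ∀ lam : ℝ, |lam| = κ → ∫ x, dens (aN (LN l)) (Ls l) x *
      Real.exp (lam * ((∑ p, f (x j p)) - ∑ p, f (x i p))) ≤ 2) :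
    ∫⁻ ω, ENNReal.ofReal ((∑ p, (f (ω j p) - f (ω i p))) ^ 4) ∂(Lμ l) ≤
      ENNReal.ofReal (96 / κ ^ 4) := by
  have hfm : ∀ (i : Fin (Lm l + 1)) (p : Fin (LN l + LN l)), Measurable
      (fun x : Fin (Lm l + 1) → Fin (LN l + LN l) → ℝ => f (x i p)) := fun i p =>
    hf.comp ((measurable_pi_apply _).comp (measurable_pi_apply _))
  set Y : (Fin (Lm l + 1) → Fin (LN l + LN l) → ℝ) → ℝ := fun x =>
    (∑ p, f (x j p)) - ∑ p, f (x i p) with hY
  have hYm : Measurable Y :=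
    (Finset.measurable_sum _ fun p _ => hfm j p).sub (Finset.measurable_sum _ fun p _ => hfm i p)
  have hYe : ∀ ω, ∑ p, (f (ω j p) - f (ω i p)) = Y ω := fun ω => Finset.sum_sub_distrib _ _
  set B : ℝ := 2 * ((LN l + LN l : ℕ) * Cf) with hB
  have hYb : ∀ ω, |Y ω| ≤ B := by
    intro ω
    have h1 : ∀ i : Fin (Lm l + 1), |∑ p, f (ω i p)| ≤ (LN l + LN l : ℕ) * Cf := by
      intro i
      refine (Finset.abs_sum_le_sum_abs _ _).trans ?_
      refine (Finset.sum_le_sum fun p _ => hfb _).trans ?_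
      rw [Finset.sum_const, Finset.card_univ, Fintype.card_fin, nsmul_eq_mul]
    calc |Y ω| ≤ |∑ p, f (ω j p)| + |∑ p, f (ω i p)| := abs_sub _ _
      _ ≤ _ := by rw [hB]; linarith [h1 i, h1 j]
  have hdI := (dens_integral (aN (LN l)) (aN_inj l) (Ls l) (Ls_zero_pos l) (Ls_mono l)).1
  have hEI : ∀ lam : ℝ, Integrable (fun x => dens (aN (LN l)) (Ls l) x *
      Real.exp (lam * Y x)) := by
    intro lam
    refine hdI.mul_bdd (c := Real.exp (|lam| * B)) ?_ (Eventually.of_forall fun x => ?_)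
    · exact (Real.measurable_exp.comp (hYm.const_mul lam)).aestronglyMeasurable
    · rw [Real.norm_eq_abs, Real.abs_exp]
      refine Real.exp_le_exp.mpr ?_
      calc lam * Y x ≤ |lam * Y x| := le_abs_self _
        _ = |lam| * |Y x| := abs_mul _ _
        _ ≤ |lam| * B := mul_le_mul_of_nonneg_left (hYb x) (abs_nonneg _)
  simp only [hYe]
  rw [Lμ_lintegral l (hYm.pow_const 4) (fun x => by positivity) (C := B ^ 4) (fun x => by
    rw [← abs_of_nonneg (show 0 ≤ Y x ^ 4 by positivity), abs_pow]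
    exact pow_le_pow_left₀ (abs_nonneg _) (hYb x) 4)]
  refine ENNReal.ofReal_le_ofReal ?_
  have hpt : ∀ x, dens (aN (LN l)) (Ls l) x * Y x ^ 4 ≤
      (24 / κ ^ 4) * (dens (aN (LN l)) (Ls l) x * Real.exp (κ * Y x) +
        dens (aN (LN l)) (Ls l) x * Real.exp (-κ * Y x)) := by
    intro x
    have hd := dens_nonneg (aN_inj l) (Ls_zero_pos l) (Ls_mono l) x
    have h1 : |κ * Y x| ^ 4 / ((4 : ℕ).factorial : ℝ) ≤ Real.exp |κ * Y x| :=
      Real.pow_div_factorial_le_exp _ (abs_nonneg _) 4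
    have h2 : Real.exp |κ * Y x| ≤ Real.exp (κ * Y x) + Real.exp (-κ * Y x) := by
      rcases abs_cases (κ * Y x) with ⟨h, _⟩ | ⟨h, _⟩
      · rw [h]; linarith [Real.exp_pos (-κ * Y x)]
      · rw [h, neg_mul]; linarith [Real.exp_pos (κ * Y x)]
    have h3 : |κ * Y x| ^ 4 = κ ^ 4 * Y x ^ 4 := by
      rw [← abs_pow, mul_pow, abs_of_nonneg (by positivity)]
    have h4 : ((4 : ℕ).factorial : ℝ) = 24 := by norm_num [Nat.factorial]
    rw [h3, h4] at h1
    have h5 : Y x ^ 4 ≤ (24 / κ ^ 4) * (Real.exp (κ * Y x) + Real.exp (-κ * Y x)) := by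
      have h6 := h1.trans h2
      rw [div_le_iff₀ (by norm_num)] at h6
      rw [div_mul_eq_mul_div, le_div_iff₀ (by positivity)]
      linarith
    calc _ ≤ dens (aN (LN l)) (Ls l) x *
          ((24 / κ ^ 4) * (Real.exp (κ * Y x) + Real.exp (-κ * Y x))) :=
          mul_le_mul_of_nonneg_left h5 hd
      _ = _ := by ring
  have hI4 : Integrable (fun x => dens (aN (LN l)) (Ls l) x * Y x ^ 4) := by
    refine hdI.mul_bdd (c := B ^ 4) (hYm.pow_const 4).aestronglyMeasurable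
      (Eventually.of_forall fun x => ?_)
    rw [Real.norm_eq_abs, abs_pow]
    exact pow_le_pow_left₀ (abs_nonneg _) (hYb x) 4
  calc ∫ x, dens (aN (LN l)) (Ls l) x * Y x ^ 4 ≤
      ∫ x, (24 / κ ^ 4) * (dens (aN (LN l)) (Ls l) x * Real.exp (κ * Y x) +
        dens (aN (LN l)) (Ls l) x * Real.exp (-κ * Y x)) :=
        integral_mono hI4 (((hEI κ).add (hEI (-κ))).const_mul _) hpt
    _ = (24 / κ ^ 4) * ((∫ x, dens (aN (LN l)) (Ls l) x * Real.exp (κ * Y x)) +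
        ∫ x, dens (aN (LN l)) (Ls l) x * Real.exp (-κ * Y x)) := by
        rw [integral_const_mul, integral_add (hEI κ) (hEI (-κ))]
    _ ≤ (24 / κ ^ 4) * (2 + 2) := by
        refine mul_le_mul_of_nonneg_left (add_le_add ?_ ?_) (by positivity)
        · exact hexp κ (abs_of_pos hκ)
        · exact hexp (-κ) (by rw [abs_neg, abs_of_pos hκ])
    _ = 96 / κ ^ 4 := by ring

lemma sum_pow_symm {n : ℕ} (u v : Fin n → ℝ) :
    (∑ i, (u i - v i)) ^ 4 = (∑ i, (v i - u i)) ^ 4 := by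
  have h : ∑ i, (u i - v i) = -∑ i, (v i - u i) := by
    rw [← Finset.sum_neg_distrib]
    exact Finset.sum_congr rfl fun i _ => by ring
  rw [h]
  ring

/-- one-sided estimate from the pair bound -/
lemma pair_two {l : ℕ} {q q' : ℚ} (hg : Good l q) (hg' : Good l q') (hlt : q < q')
    {f : ℝ → ℝ} (hf : Measurable f) {Cf : ℝ} (hfb : ∀ z, |f z| ≤ Cf) (lam : ℝ)
    (A B : ℝ → ℝ) (hA : ∀ x, 0 ≤ A x) (hB : ∀ y, 0 ≤ B y)
    (hK : ∀ x y, |Kn (LN l) q' y q x| ≤ B y * A x)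
    (hI : Integrable (fun z : ℝ × ℝ => |Real.exp (lam * (f z.2 - f z.1)) - 1| *
      gk ((q' : ℝ) - q) z.1 z.2 * (A z.1 * B z.2)))
    (h1 : ∫ z : ℝ × ℝ, |Real.exp (lam * (f z.2 - f z.1)) - 1| *
      gk ((q' : ℝ) - q) z.1 z.2 * (A z.1 * B z.2) ≤ 1 / 2) :
    ∫ x, dens (aN (LN l)) (Ls l) x *
      Real.exp (lam * ((∑ p, f (x (Lidx l q') p)) - ∑ p, f (x (Lidx l q) p))) ≤ 2 := by
  have hs : Ls l (Lidx l q') - Ls l (Lidx l q) = (q' : ℝ) - q := by
    unfold Good at hg hg'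
    rw [hg, hg']; ring
  have h := dens_pair_exp (aN (LN l)) (aN_inj l) (Ls l) (Ls_zero_pos l) (Ls_mono l)
    (Lidx l q) (Lidx l q') ((hg.idx_lt_iff hg').mpr hlt) f hf Cf hfb lam A B hA hB
    (fun x y => by rw [Kfin_good hg' hg]; exact hK x y)
    (by rw [hs]; exact hI) (by rw [hs]; linarith)
  rw [hs] at h
  refine h.trans ?_
  rw [div_le_iff₀ (by linarith)]
  linarith

/-- the ordered version of the increment bound -/
lemma inc_ord (a b M : ℝ) (hab : a < b) : ∃ C : ℝ, ∀ q q' : ℚ, |(q : ℝ)| ≤ M →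
    |(q' : ℝ)| ≤ M → q < q' →
    ∀ᶠ l in atTop, ∫⁻ ω, ENNReal.ofReal
      ((∑ i, (stp a b (ω (Lidx l q') i) - stp a b (ω (Lidx l q) i))) ^ 4) ∂(Lμ l) ≤
        ENNReal.ofReal (C * ((q' : ℝ) - q) ^ 2) := by
  set M' : ℝ := max M 1 with hM'
  have hM0 : 0 < M' := lt_of_lt_of_le one_pos (le_max_right _ _)
  obtain ⟨C0, N0, hC0⟩ := Kn_bound M' (1 / (32 * M')) (by positivity)
  obtain ⟨c, hc, hcI⟩ := int_inc a b M' |C0| hab hM0 (abs_nonneg _)
  refine ⟨96 / c ^ 4, fun q q' hq hq' hlt => ?_⟩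
  have hqM : (q : ℝ) ∈ Icc (-M') M' := abs_le.mp (hq.trans (le_max_left _ _))
  have hqM' : (q' : ℝ) ∈ Icc (-M') M' := abs_le.mp (hq'.trans (le_max_left _ _))
  have hltR : (q : ℝ) < q' := by exact_mod_cast hlt
  filter_upwards [good q, good q', LN_tendsto.eventually_ge_atTop N0] with l hg hg' hlN
  have hh0 : 0 < (q' : ℝ) - q := sub_pos.mpr hltR
  have hh2 : (q' : ℝ) - q ≤ 2 * M' := by linarith [hqM.1, hqM'.2]
  have hsq := Real.sqrt_pos.mpr hh0
  have hres := fourth (l := l) (i := Lidx l q) (j := Lidx l q') (stp_cont a b).measurable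
    (stp_abs a b) (κ := c / Real.sqrt ((q' : ℝ) - q)) (by positivity) (fun lam hlam => by
      obtain ⟨hI, hle⟩ := hcI _ hh0 hh2 lam hlam
      refine pair_two hg hg' hlt (stp_cont a b).measurable (stp_abs a b) lam (fun _ => 1)
        (fun y => |C0| * Real.exp (y ^ 2 / (32 * M'))) (fun _ => zero_le_one)
        (fun y => by positivity) (fun x y => ?_) hI hle
      rw [mul_one]
      refine (hC0 (LN l) hlN q' hqM' q hqM y x).trans ?_
      have e1 : 1 / (32 * M') * y ^ 2 = y ^ 2 / (32 * M') := by ring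
      rw [e1]
      exact mul_le_mul_of_nonneg_right (le_abs_self _) (Real.exp_pos _).le)
  refine hres.trans (le_of_eq ?_)
  congr 1
  have h4 : Real.sqrt ((q' : ℝ) - q) ^ 4 = ((q' : ℝ) - q) ^ 2 := by
    have := Real.sq_sqrt hh0.le
    calc Real.sqrt ((q' : ℝ) - q) ^ 4 = (Real.sqrt ((q' : ℝ) - q) ^ 2) ^ 2 := by ring
      _ = _ := by rw [this]
  rw [div_pow, h4]
  field_simp

theorem inc_bound (a b M : ℝ) (hab : a < b) : ∃ C : ℝ, ∀ q q' : ℚ, |(q : ℝ)| ≤ M →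
    |(q' : ℝ)| ≤ M →
    ∀ᶠ l in atTop, ∫⁻ ω, ENNReal.ofReal
      ((∑ i, (stp a b (ω (Lidx l q) i) - stp a b (ω (Lidx l q') i))) ^ 4) ∂(Lμ l) ≤
        ENNReal.ofReal (C * ((q : ℝ) - q') ^ 2) := by
  obtain ⟨C, hC⟩ := inc_ord a b M hab
  refine ⟨C, fun q q' hq hq' => ?_⟩
  rcases lt_trichotomy q q' with h | h | h
  · filter_upwards [hC q q' hq hq' h] with l hl
    have e1 : ((q : ℝ) - q') ^ 2 = ((q' : ℝ) - q) ^ 2 := by ring
    rw [e1]
    refine le_trans (le_of_eq ?_) hl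
    refine lintegral_congr fun ω => ?_
    rw [sum_pow_symm]
  · subst h
    refine Eventually.of_forall fun l => ?_
    simp
  · exact hC q' q hq' hq h

lemma gx_cont (σ : ℝ) : Continuous (gx σ) := by
  unfold gx
  have h1 : Continuous (fun x : ℝ => x ^ (4 / 3 : ℝ)) := Real.continuous_rpow_const (by norm_num)
  have h2 : Continuous (fun x : ℝ => x ^ (2 / 3 : ℝ)) := Real.continuous_rpow_const (by norm_num)
  exact (continuous_const.mul h1).add ((continuous_const.mul h2).div_const _)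

/-- the ordered version of the increment bound at large `R` -/
lemma incR_ord (M : ℝ) : ∃ C R0 : ℝ, ∀ R ≥ R0, ∀ q q' : ℚ, |(q : ℝ)| ≤ M →
    |(q' : ℝ)| ≤ M → q < q' → (q' : ℝ) - q ≤ R ^ (-(2 / 3) : ℝ) →
    ∀ᶠ l in atTop, ∫⁻ ω, ENNReal.ofReal
      ((∑ i, (stp R (2 * R) (ω (Lidx l q') i) - stp R (2 * R) (ω (Lidx l q) i))) ^ 4) ∂(Lμ l) ≤
        ENNReal.ofReal (C * R ^ (4 / 3 : ℝ) * ((q' : ℝ) - q) ^ 2) ∧
      ∫⁻ ω, ENNReal.ofReal
      ((∑ i, (stp (-(2 * R)) (-R) (ω (Lidx l q') i) -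
        stp (-(2 * R)) (-R) (ω (Lidx l q) i))) ^ 4) ∂(Lμ l) ≤
        ENNReal.ofReal (C * R ^ (4 / 3 : ℝ) * ((q' : ℝ) - q) ^ 2) := by
  set M' : ℝ := max M 1 with hM'
  have hM0 : 0 < M' := lt_of_lt_of_le one_pos (le_max_right _ _)
  obtain ⟨Cr, Rr, hCr⟩ := Kl_refined M'
  obtain ⟨Cb, Nb, hCb⟩ := Kn_bound M' 1 one_pos
  set C0 : ℝ := |Cr| + |Cb| + 1 with hC0
  obtain ⟨c, R1, hc, hR1, hcI⟩ := int_incR M' C0 hM0 (by positivity)
  refine ⟨96 / c ^ 4, max Rr R1, fun R hR q q' hq hq' hlt hclose => ?_⟩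
  have hRr : Rr ≤ R := le_trans (le_max_left _ _) hR
  have hRR1 : R1 ≤ R := le_trans (le_max_right _ _) hR
  have hRpos : 0 < R := by linarith
  have hqM : (q : ℝ) ∈ Icc (-M') M' := abs_le.mp (hq.trans (le_max_left _ _))
  have hqM' : (q' : ℝ) ∈ Icc (-M') M' := abs_le.mp (hq'.trans (le_max_left _ _))
  have hltR : (q : ℝ) < q' := by exact_mod_cast hlt
  have hh0 : 0 < (q' : ℝ) - q := sub_pos.mpr hltR
  have hsq := Real.sqrt_pos.mpr hh0
  -- the minimum on near × near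
  set g : ℝ × ℝ → ℝ := fun p => R ^ (1 / 3 : ℝ) * Real.exp (gx q' p.2 - gx q p.1) with hg
  have hgc : Continuous g := by
    rw [hg]
    refine continuous_const.mul (Real.continuous_exp.comp ?_)
    exact ((gx_cont q').comp continuous_snd).sub ((gx_cont q).comp continuous_fst)
  have hgpos : ∀ p, 0 < g p := fun p => by
    rw [hg]
    exact mul_pos (Real.rpow_pos_of_pos hRpos _) (Real.exp_pos _)
  have hne : ((Icc (R / 2) (3 * R)) ×ˢ (Icc (R / 2) (3 * R)) : Set (ℝ × ℝ)).Nonempty := by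
    refine ⟨(R, R), ?_⟩
    constructor <;> constructor <;> simp <;> linarith
  obtain ⟨p0, -, hp0⟩ := (isCompact_Icc.prod isCompact_Icc).exists_isMinOn hne hgc.continuousOn
  obtain ⟨N1, hN1⟩ := Kn_conv M' (3 * R) (g p0) (hgpos p0)
  filter_upwards [good q, good q', LN_tendsto.eventually_ge_atTop Nb,
    LN_tendsto.eventually_ge_atTop N1] with l hgq hgq' hlNb hlN1
  have hσ : 0 < SN (LN l) + (q' : ℝ) := by
    have := Ls_pos l (Lidx l q'); rwa [hgq'] at this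
  have hτ : 0 < SN (LN l) + (q : ℝ) := by
    have := Ls_pos l (Lidx l q); rwa [hgq] at this
  -- the kernel bound
  have hker : ∀ A B : ℝ → ℝ,
      (∀ x ∈ Icc (R / 2) (3 * R), ∀ y ∈ Icc (R / 2) (3 * R),
          C0 * R ^ (1 / 3 : ℝ) * Real.exp (gx q' y - gx q x) ≤ B y * A x) →
      (∀ x y, (x ∉ Icc (R / 2) (3 * R) ∨ y ∉ Icc (R / 2) (3 * R)) →
          C0 * Real.exp (y ^ 2) ≤ B y * A x) →
      ∀ x y, |Kn (LN l) q' y q x| ≤ B y * A x := by
    intro A B hnear hfar x y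
    by_cases hxy : x ∈ Icc (R / 2) (3 * R) ∧ y ∈ Icc (R / 2) (3 * R)
    · obtain ⟨hx, hy⟩ := hxy
      refine le_trans ?_ (hnear x hx y hy)
      have h1 := hN1 (LN l) hlN1 q' hqM' q hqM y ⟨by linarith [hy.1], hy.2⟩ x
      have h2 := hCr R hRr x hx y hy q hqM q' hqM' hltR.le (by linarith)
      have h3 : g p0 ≤ g (x, y) := hp0 ⟨hx, hy⟩
      have h4 : g (x, y) = R ^ (1 / 3 : ℝ) * Real.exp (gx q' y - gx q x) := rfl
      have h5 := hgpos (x, y)
      have h6 : |Kn (LN l) q' y q x| ≤ |Kl q' y q x| + g p0 := by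
        have := abs_sub_abs_le_abs_sub (Kn (LN l) q' y q x) (Kl q' y q x)
        linarith
      have h7 : |Kl q' y q x| ≤ |Cr| * g (x, y) := by
        refine h2.trans ?_
        rw [h4, mul_assoc]
        rw [h4] at h5
        exact mul_le_mul_of_nonneg_right (le_abs_self _) h5.le
      calc |Kn (LN l) q' y q x| ≤ |Cr| * g (x, y) + g (x, y) := by linarith
        _ ≤ C0 * g (x, y) := by
          rw [hC0]
          nlinarith [abs_nonneg Cb]
        _ = _ := by rw [h4]; ring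
    · have hxy' : x ∉ Icc (R / 2) (3 * R) ∨ y ∉ Icc (R / 2) (3 * R) := by
        by_contra hcon
        push Not at hcon
        exact hxy hcon
      refine le_trans ?_ (hfar x y hxy')
      refine (hCb (LN l) hlNb q' hqM' q hqM y x).trans ?_
      rw [one_mul]
      refine mul_le_mul_of_nonneg_right ?_ (Real.exp_pos _).le
      rw [hC0]
      linarith [le_abs_self Cb, abs_nonneg Cr]
  have hκeq : 96 / (c / (R ^ (1 / 3 : ℝ) * Real.sqrt ((q' : ℝ) - q))) ^ 4 =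
      96 / c ^ 4 * R ^ (4 / 3 : ℝ) * ((q' : ℝ) - q) ^ 2 := by
    have h4 : Real.sqrt ((q' : ℝ) - q) ^ 4 = ((q' : ℝ) - q) ^ 2 := by
      have := Real.sq_sqrt hh0.le
      calc Real.sqrt ((q' : ℝ) - q) ^ 4 = (Real.sqrt ((q' : ℝ) - q) ^ 2) ^ 2 := by ring
        _ = _ := by rw [this]
    have h5 : (R ^ (1 / 3 : ℝ)) ^ 4 = R ^ (4 / 3 : ℝ) := by
      rw [← Real.rpow_natCast, ← Real.rpow_mul hRpos.le]
      norm_num
    rw [div_pow, mul_pow, h4, h5]
    have h6 : 0 < R ^ (4 / 3 : ℝ) := Real.rpow_pos_of_pos hRpos _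
    field_simp
  have hκ0 : 0 < c / (R ^ (1 / 3 : ℝ) * Real.sqrt ((q' : ℝ) - q)) :=
    div_pos hc (mul_pos (Real.rpow_pos_of_pos hRpos _) hsq)
  constructor
  · refine (fourth (l := l) (i := Lidx l q) (j := Lidx l q') (stp_cont R (2 * R)).measurable
      (stp_abs R (2 * R)) hκ0 (fun lam hlam => ?_)).trans (le_of_eq (by rw [hκeq]))
    obtain ⟨A, B, -, -, hA0, hB0, hnear, hfar, hI, hle⟩ :=
      hcI R hRR1 q hqM q' hqM' hltR (by linarith) lam hlam
    exact pair_two hgq hgq' hlt (stp_cont _ _).measurable (stp_abs _ _) lam A B hA0 hB0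
      (hker A B hnear hfar) hI hle
  · refine (fourth (l := l) (i := Lidx l q) (j := Lidx l q')
      (stp_cont (-(2 * R)) (-R)).measurable
      (stp_abs (-(2 * R)) (-R)) hκ0 (fun lam hlam => ?_)).trans (le_of_eq (by rw [hκeq]))
    obtain ⟨A, B, -, -, hA0, hB0, hnear, hfar, hI, hle⟩ :=
      hcI R hRR1 q hqM q' hqM' hltR (by linarith) (-lam) (by rw [abs_neg]; exact hlam)
    set G : ℝ × ℝ → ℝ := fun z =>
      |Real.exp (-lam * (stp R (2 * R) z.2 - stp R (2 * R) z.1)) - 1| *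
          gk ((q' : ℝ) - q) z.1 z.2 * (A z.1 * B z.2) with hG
    have hGneg : (fun z : ℝ × ℝ => |Real.exp (lam * (stp (-(2 * R)) (-R) z.2 -
        stp (-(2 * R)) (-R) z.1)) - 1| * gk ((q' : ℝ) - q) z.1 z.2 *
          ((fun x => A (-x)) z.1 * (fun y => B (-y)) z.2)) = fun z => G (-z) := by
      funext z
      rw [hG]
      simp only [Prod.fst_neg, Prod.snd_neg]
      rw [stp_mirror hRpos, stp_mirror hRpos, gk_neg]
      congr 4
      ring_nf
    refine pair_two hgq hgq' hlt (stp_cont _ _).measurable (stp_abs _ _) lam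
      (fun x => A (-x)) (fun y => B (-y)) (fun _ => hA0 _) (fun _ => hB0 _)
      (fun x y => ?_) ?_ ?_
    · rw [← Kn_symm (two_le_LN l) hσ hτ y x]
      exact hker A B hnear hfar (-x) (-y)
    · rw [hGneg]
      exact hI.comp_neg
    · rw [hGneg, integral_neg_eq_self]
      exact hle

theorem incR_bound (M : ℝ) : ∃ C R0 : ℝ, ∀ R ≥ R0, ∀ q q' : ℚ, |(q : ℝ)| ≤ M →
    |(q' : ℝ)| ≤ M → |(q : ℝ) - q'| ≤ R ^ (-(2 / 3) : ℝ) →
    ∀ᶠ l in atTop, ∫⁻ ω, ENNReal.ofReal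
      ((∑ i, (stp R (2 * R) (ω (Lidx l q) i) - stp R (2 * R) (ω (Lidx l q') i))) ^ 4) ∂(Lμ l) ≤
        ENNReal.ofReal (C * R ^ (4 / 3 : ℝ) * ((q : ℝ) - q') ^ 2) ∧
      ∫⁻ ω, ENNReal.ofReal
      ((∑ i, (stp (-(2 * R)) (-R) (ω (Lidx l q) i) -
        stp (-(2 * R)) (-R) (ω (Lidx l q') i))) ^ 4) ∂(Lμ l) ≤
        ENNReal.ofReal (C * R ^ (4 / 3 : ℝ) * ((q : ℝ) - q') ^ 2) := by
  obtain ⟨C, R0, hC⟩ := incR_ord M
  refine ⟨C, R0, fun R hR q q' hq hq' hclose => ?_⟩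
  rcases lt_trichotomy q q' with h | h | h
  · have h1 : (q' : ℝ) - q ≤ R ^ (-(2 / 3) : ℝ) := by
      refine le_trans ?_ hclose
      rw [abs_sub_comm]
      exact le_abs_self _
    filter_upwards [hC R hR q q' hq hq' h h1] with l hl
    have e1 : ((q : ℝ) - q') ^ 2 = ((q' : ℝ) - q) ^ 2 := by ring
    rw [e1]
    refine ⟨le_trans (le_of_eq ?_) hl.1, le_trans (le_of_eq ?_) hl.2⟩
    · refine lintegral_congr fun ω => ?_
      rw [sum_pow_symm]
    · refine lintegral_congr fun ω => ?_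
      rw [sum_pow_symm]
  · subst h
    refine Eventually.of_forall fun l => ?_
    simp
  · exact hC R hR q' q hq' hq h ((le_abs_self _).trans hclose)

end Apx

end Pool.Agent.H.MP_5ad92a_pr
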