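import Pool.Agent.H.MP_5ad92a_pr.ApproxMom
import Pool.Agent.H.MP_5ad92a_pr.ApproxInc

/-!
# The approximating systems exist
-/

set_option autoImplicit false

noncomputable section

open MeasureTheory Filter Topology Set
open scoped ENNReal

namespace Pool.Agent.H.MP_5ad92a_pr

theorem approx_exists : Nonempty Approx :=
  ⟨{ n := fun l => Apx.LN l + Apx.LN l
     Ω := fun l => Fin (Apx.Lm l + 1) → Fin (Apx.LN l + Apx.LN l) → ℝ
     mΩ := fun _ => inferInstance
     μ := Apx.Lμ
     prob := fun _ => inferInstance
     X := fun l q i ω => ω (Apx.Lidx l q) i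
     measX := fun _ _ _ => (measurable_pi_apply _).comp (measurable_pi_apply _)
     corr := fun k q f hf hfc => Apx.corr_lim k q f hf hfc
     mom := fun r R M => Apx.mom_bound r R M
     inc := fun a b M hab => Apx.inc_bound a b M hab
     incR := fun M => Apx.incR_bound M }⟩

end Pool.Agent.H.MP_5ad92a_pr
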