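import Pool.Agent.H.MP_5ad92a_pr.DefsF

/-!
# Chain integrals and the determinant with the kernel `ΨΦ - P`
-/

set_option autoImplicit false

noncomputable section

universe u

open MeasureTheory Filter Topology Set

namespace Pool.Agent.H.MP_5ad92a_pr

namespace Chain

/-- Expansion of a bordered determinant with zero corner. -/
lemma det_border {κ : Type*} [Fintype κ] [DecidableEq κ] (A : Matrix κ κ ℝ) (e ρ : κ → ℝ) :
    Matrix.det (Matrix.fromBlocks (0 : Matrix Unit Unit ℝ) (Matrix.of fun _ j => ρ j)
      (Matrix.of fun i _ => e i) A) = - ∑ j, ρ j * (A.updateCol j e).det := by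
  set M := Matrix.fromBlocks (0 : Matrix Unit Unit ℝ) (Matrix.of fun _ j => ρ j)
      (Matrix.of fun i _ => e i) A with hM
  have h1 : M = M.updateRow (Sum.inl ()) (∑ j, ρ j • Pi.single (Sum.inr j) (1 : ℝ)) := by
    ext i j
    rcases i with i | i
    · rw [show (Sum.inl i : Unit ⊕ κ) = Sum.inl () from rfl, Matrix.updateRow_self]
      rcases j with j | j
      · simp [hM]
      · simp [hM, Finset.sum_apply, Pi.single_apply]
    · rw [Matrix.updateRow_ne (by simp)]
  have h2 : ∀ j : κ, (M.updateRow (Sum.inl ()) (Pi.single (Sum.inr j) (1 : ℝ))).det =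
      - (A.updateCol j e).det := by
    intro j
    set N := M.updateRow (Sum.inl ()) (Pi.single (Sum.inr j) (1 : ℝ)) with hN
    have h3 : (N.submatrix id (Equiv.swap (Sum.inl ()) (Sum.inr j))) =
        Matrix.fromBlocks (1 : Matrix Unit Unit ℝ) 0 (Matrix.of fun i _ => A i j)
          (A.updateCol j e) := by
      ext a b
      rcases a with a | a
      · rw [show (Sum.inl a : Unit ⊕ κ) = Sum.inl () from rfl]
        rcases b with b | b
        · simp [hN]
        · simp only [Matrix.submatrix_apply, id, hN, Matrix.updateRow_self,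
            Matrix.fromBlocks_apply₁₂, Matrix.zero_apply]
          rw [Pi.single_apply, if_neg]
          intro h
          by_cases hb : b = j
          · subst hb; simp at h
          · rw [Equiv.swap_apply_of_ne_of_ne (by simp) (by simpa using hb)] at h
            simp at h; exact hb h
      · simp only [Matrix.submatrix_apply, id, hN]
        rw [Matrix.updateRow_ne (by simp)]
        rcases b with b | b
        · rw [show (Sum.inl b : Unit ⊕ κ) = Sum.inl () from rfl, Equiv.swap_apply_left]
          simp [hM]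
        · by_cases hb : b = j
          · subst hb
            simp [hM]
          · rw [Equiv.swap_apply_of_ne_of_ne (by simp) (by simpa using hb)]
            simp [hM, Matrix.updateCol_ne hb]
    have h4 := Matrix.det_permute' (Equiv.swap (Sum.inl ()) (Sum.inr j)) N
    rw [h3, Matrix.det_fromBlocks_zero₁₂, Equiv.Perm.sign_swap (by simp)] at h4
    simp at h4
    linarith
  have h5 : M.det = ∑ j, ρ j * (M.updateRow (Sum.inl ()) (Pi.single (Sum.inr j) (1 : ℝ))).det := by
    conv_lhs => rw [h1]
    rw [← Matrix.cramer_transpose_apply, map_sum, Finset.sum_apply]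
    refine Finset.sum_congr rfl fun j _ => ?_
    rw [map_smul, Pi.smul_apply, Matrix.cramer_transpose_apply, smul_eq_mul]
  rw [h5]
  simp only [h2, mul_neg, Finset.sum_neg_distrib]

/-- The block matrix of the marks `Fin k` with particle states `v j`, `r j`. -/
def bm {n k : ℕ} {Z : Type*} (ψ : Fin k → Z → Fin n → ℝ) (P : Fin k → Z → Fin k → Z → ℝ)
    (v : Fin n → Fin n → ℝ) (r : Fin n → Fin k → Z → ℝ) (z : Fin k → Z) :
    Matrix (Fin n ⊕ Fin k) (Fin n ⊕ Fin k) ℝ :=
  Matrix.fromBlocks (Matrix.of fun i j => v j i) (Matrix.of fun i c => ψ c (z c) i)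
    (Matrix.of fun c j => r j c (z c)) (Matrix.of fun c d => P d (z d) c (z c))

/-- Reindexing that separates the mark `0`. -/
def eqv (n k : ℕ) : Unit ⊕ (Fin n ⊕ Fin k) ≃ Fin n ⊕ Fin (k + 1) where
  toFun := Sum.elim (fun _ => Sum.inr 0) (Sum.elim Sum.inl (fun c => Sum.inr c.succ))
  invFun := Sum.elim (fun i => Sum.inr (Sum.inl i))
    (Fin.cases (Sum.inl ()) (fun c => Sum.inr (Sum.inr c)))
  left_inv := by
    intro x
    rcases x with x | x | x
    · rfl
    · rfl
    · simp
  right_inv := by
    intro x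
    rcases x with x | x
    · rfl
    · refine Fin.cases ?_ (fun c => ?_) x
      · rfl
      · simp

lemma det_step {n k : ℕ} {Z : Type*} (ψ : Fin (k + 1) → Z → Fin n → ℝ)
    (P : Fin (k + 1) → Z → Fin (k + 1) → Z → ℝ) (v : Fin n → Fin n → ℝ)
    (r : Fin n → Fin (k + 1) → Z → ℝ) (hP : ∀ d z z', P d z 0 z' = 0) (z0 : Z) (z : Fin k → Z) :
    (bm ψ P v r (Fin.cons z0 z)).det = - ∑ j, r j 0 z0 *
      (bm (fun a => ψ a.succ) (fun a z' b => P a.succ z' b.succ) (Function.update v j (ψ 0 z0))
        (Function.update (fun j a => r j a.succ) j (fun a => P 0 z0 a.succ)) z).det := by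
  rw [← Matrix.det_submatrix_equiv_self (eqv n k)]
  have h1 : (bm ψ P v r (Fin.cons z0 z)).submatrix (eqv n k) (eqv n k) =
      Matrix.fromBlocks (0 : Matrix Unit Unit ℝ)
        (Matrix.of fun _ j => (Sum.elim (fun j => r j 0 z0) (fun _ => 0) : Fin n ⊕ Fin k → ℝ) j)
        (Matrix.of fun i _ =>
          (Sum.elim (ψ 0 z0) (fun c => P 0 z0 c.succ (z c)) : Fin n ⊕ Fin k → ℝ) i)
        (bm (fun a => ψ a.succ) (fun a z' b => P a.succ z' b.succ) v
          (fun j a => r j a.succ) z) := by
    ext a b
    rcases a with a | a | a <;> rcases b with b | b | b <;>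
      simp [eqv, bm, hP]
  rw [h1, det_border, Fintype.sum_sum_type]
  simp only [Sum.elim_inl, Sum.elim_inr, zero_mul, Finset.sum_const_zero, add_zero]
  congr 1
  refine Finset.sum_congr rfl fun j _ => ?_
  congr 2
  ext a b
  rcases b with b | b
  · by_cases hb : b = j
    · subst hb
      rw [Matrix.updateCol_self]
      rcases a with a | a <;> simp [bm]
    · rw [Matrix.updateCol_ne (by simpa using hb)]
      rcases a with a | a <;> simp [bm, Function.update_of_ne hb]
  · rw [Matrix.updateCol_ne (by simp)]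
    rcases a with a | a <;> simp [bm]

lemma measurable_det {α κ : Type*} [MeasurableSpace α] [Fintype κ] [DecidableEq κ]
    (M : α → Matrix κ κ ℝ) (h : ∀ a b, Measurable (fun x => M x a b)) :
    Measurable (fun x => (M x).det) := by
  simp only [Matrix.det_apply']
  refine Finset.measurable_sum _ fun σ _ => ?_
  exact measurable_const.mul (Finset.measurable_prod _ fun i _ => h _ _)

lemma abs_det_le {κ : Type*} [Fintype κ] [DecidableEq κ] (M : Matrix κ κ ℝ) (C : ℝ)
    (h : ∀ a b, |M a b| ≤ C) :
    |M.det| ≤ (Fintype.card κ).factorial * C ^ Fintype.card κ := by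
  have := Matrix.det_le (A := M) (abv := AbsoluteValue.abs) (x := C) h
  simpa [nsmul_eq_mul] using this

variable {Z : Type*} [MeasurableSpace Z]

lemma measurable_bm {n k : ℕ}
    (ψ : Fin k → Z → Fin n → ℝ) (P : Fin k → Z → Fin k → Z → ℝ)
    (v : Fin n → Fin n → ℝ) (r : Fin n → Fin k → Z → ℝ)
    (hψ : ∀ c i, Measurable (fun z => ψ c z i))
    (hP : ∀ c d, Measurable (Function.uncurry (fun z z' => P c z d z')))
    (hr : ∀ j c, Measurable (r j c)) :
    Measurable (fun z : Fin k → Z => (bm ψ P v r z).det) := by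
  refine measurable_det _ fun a b => ?_
  rcases a with a | a <;> rcases b with b | b
  · simp only [bm, Matrix.fromBlocks_apply₁₁, Matrix.of_apply]
    exact measurable_const
  · simp only [bm, Matrix.fromBlocks_apply₁₂, Matrix.of_apply]
    exact (hψ b a).comp (measurable_pi_apply b)
  · simp only [bm, Matrix.fromBlocks_apply₂₁, Matrix.of_apply]
    exact (hr b a).comp (measurable_pi_apply a)
  · simp only [bm, Matrix.fromBlocks_apply₂₂, Matrix.of_apply]
    have h1 : Measurable (fun z : Fin k → Z => (z b, z a)) :=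
      (measurable_pi_apply b).prodMk (measurable_pi_apply a)
    exact (hP b a).comp h1

lemma integrable_bm {n k : ℕ} (ν : Measure Z) [SigmaFinite ν]
    (h : Fin k → Z → ℝ) (ψ : Fin k → Z → Fin n → ℝ) (P : Fin k → Z → Fin k → Z → ℝ)
    (v : Fin n → Fin n → ℝ) (r : Fin n → Fin k → Z → ℝ)
    (hh : ∀ c, Measurable (h c)) (hhi : ∀ c, Integrable (h c) ν)
    (hψ : ∀ c i, Measurable (fun z => ψ c z i))
    (hP : ∀ c d, Measurable (Function.uncurry (fun z z' => P c z d z')))
    (hr : ∀ j c, Measurable (r j c))
    (C : ℝ) (hCψ : ∀ c z i, h c z ≠ 0 → |ψ c z i| ≤ C) (hCr : ∀ j c z, h c z ≠ 0 → |r j c z| ≤ C)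
    (hCP : ∀ c z d z', |P c z d z'| ≤ C) (hCv : ∀ j i, |v j i| ≤ C) :
    Integrable (fun z : Fin k → Z => (∏ c, h c (z c)) * (bm ψ P v r z).det)
      (Measure.pi fun _ => ν) := by
  have hI : Integrable (fun z : Fin k → Z => (∏ c, h c (z c))) (Measure.pi fun _ => ν) :=
    Integrable.fintype_prod (fun c => hhi c)
  refine (hI.norm.mul_const
    (((Fintype.card (Fin n ⊕ Fin k)).factorial * C ^ Fintype.card (Fin n ⊕ Fin k) : ℝ))).mono' ?_ ?_
  · refine Measurable.aestronglyMeasurable ?_
    exact (Finset.measurable_prod _ fun c _ => (hh c).comp (measurable_pi_apply c)).mul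
      (measurable_bm ψ P v r hψ hP hr)
  · refine Filter.Eventually.of_forall fun z => ?_
    by_cases h0 : (∏ c, h c (z c)) = 0
    · simp [h0]
    · rw [norm_mul]
      refine mul_le_mul_of_nonneg_left ?_ (norm_nonneg _)
      have h1 : ∀ c, h c (z c) ≠ 0 := by
        intro c hc
        exact h0 (Finset.prod_eq_zero (Finset.mem_univ c) hc)
      refine abs_det_le _ C fun a b => ?_
      rcases a with a | a <;> rcases b with b | b
      · exact hCv _ _
      · exact hCψ _ _ _ (h1 b)
      · exact hCr _ _ _ (h1 a)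
      · exact hCP _ _ _ _

lemma chainJ_meas {n : ℕ} {Z : Type u} [MeasurableSpace Z] (ν : Measure Z) [SFinite ν] : ∀ (k : ℕ) (sel : Fin k → Bool)
    (h : Fin k → Z → ℝ) (ψ : Fin k → Z → Fin n → ℝ) (P : Fin k → Z → Fin k → Z → ℝ)
    (_ : ∀ c, Measurable (h c)) (_ : ∀ c i, Measurable (fun z => ψ c z i))
    (_ : ∀ c d, Measurable (Function.uncurry (fun z z' => P c z d z')))
    {Y : Type u} [MeasurableSpace Y] (v : Y → Fin n → ℝ) (r : Y → Fin k → Z → ℝ)
    (_ : ∀ i, Measurable (fun y => v y i))
    (_ : ∀ c, Measurable (Function.uncurry (fun y z => r y c z))) (i : Fin n),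
    Measurable (fun y => chainJ ν k sel h ψ P (v y) (r y) i) := by
  intro k
  induction k with
  | zero =>
    intro sel h ψ P hh hψ hP Y _ v r hv hr i
    simpa [chainJ] using hv i
  | succ k ih =>
    intro sel h ψ P hh hψ hP Y _ v r hv hr i
    by_cases hs : sel 0
    · simp only [chainJ, hs, if_true]
      have h1 : Measurable (fun z => chainJ ν k (fun a => sel a.succ) (fun a => h a.succ)
          (fun a => ψ a.succ) (fun a z' b => P a.succ z' b.succ) (ψ 0 z)
          (fun a => P 0 z a.succ) i) :=
        ih _ _ _ _ (fun c => hh c.succ) (fun c i => hψ c.succ i) (fun c d => hP c.succ d.succ)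
          (fun z => ψ 0 z) (fun z a => P 0 z a.succ) (fun i => hψ 0 i) (fun c => hP 0 c.succ) i
      have h2 : StronglyMeasurable (Function.uncurry (fun (y : Y) (z : Z) => h 0 z * r y 0 z *
          chainJ ν k (fun a => sel a.succ) (fun a => h a.succ)
          (fun a => ψ a.succ) (fun a z' b => P a.succ z' b.succ) (ψ 0 z)
          (fun a => P 0 z a.succ) i)) := by
        refine Measurable.stronglyMeasurable ?_
        exact (((hh 0).comp measurable_snd).mul (hr 0)).mul (h1.comp measurable_snd)
      exact h2.integral_prod_right.measurable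
    · simp only [chainJ, hs]
      exact ih _ _ _ _ (fun c => hh _) (fun c i => hψ _ _) (fun c d => hP _ _) v
        (fun y a => r y a.succ) hv (fun c => hr c.succ) i

lemma chainJ_bound {n : ℕ} (ν : Measure Z) (C : ℝ) (hC : 0 ≤ C) : ∀ (k : ℕ) (sel : Fin k → Bool)
    (h : Fin k → Z → ℝ) (ψ : Fin k → Z → Fin n → ℝ) (P : Fin k → Z → Fin k → Z → ℝ)
    (_ : ∀ c, Integrable (h c) ν)
    (_ : ∀ c z i, h c z ≠ 0 → |ψ c z i| ≤ C)
    (_ : ∀ c z d z', |P c z d z'| ≤ C),
    ∃ D : ℝ, 0 ≤ D ∧ ∀ (v : Fin n → ℝ) (r : Fin k → Z → ℝ), (∀ i, |v i| ≤ C) →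
      (∀ c z, h c z ≠ 0 → |r c z| ≤ C) → ∀ i, |chainJ ν k sel h ψ P v r i| ≤ D := by
  intro k
  induction k with
  | zero =>
    intro sel h ψ P hh hψ hP
    exact ⟨C, hC, fun v r hv hr i => by simpa [chainJ] using hv i⟩
  | succ k ih =>
    intro sel h ψ P hh hψ hP
    obtain ⟨D, hD0, hD⟩ := ih (fun a => sel a.succ) (fun a => h a.succ)
          (fun a => ψ a.succ) (fun a z' b => P a.succ z' b.succ) (fun c => hh _)
          (fun c z i => hψ _ _ _) (fun c z d z' => hP _ _ _ _)
    by_cases hs : sel 0
    · refine ⟨∫ z, |h 0 z| * (C * D) ∂ν, integral_nonneg fun z => by positivity, ?_⟩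
      intro v r hv hr i
      simp only [chainJ, hs, if_true]
      rw [← Real.norm_eq_abs]
      refine norm_integral_le_of_norm_le ((hh 0).abs.mul_const (C * D)) ?_
      refine Filter.Eventually.of_forall fun z => ?_
      by_cases h0 : h 0 z = 0
      · simp [h0]
      · rw [Real.norm_eq_abs, abs_mul, abs_mul, mul_assoc]
        refine mul_le_mul_of_nonneg_left ?_ (abs_nonneg _)
        refine mul_le_mul (hr 0 z h0) ?_ (abs_nonneg _) hC
        exact hD _ _ (fun i => hψ 0 z i h0) (fun c z' _ => hP _ _ _ _) i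
    · refine ⟨D, hD0, ?_⟩
      intro v r hv hr i
      simp only [chainJ, hs]
      exact hD v _ hv (fun c z hz => hr _ _ hz) i

lemma det_updateCol_eq_sum {κ : Type*} [Fintype κ] [DecidableEq κ] (M : Matrix κ κ ℝ) (j : κ)
    (b : κ → ℝ) : (M.updateCol j b).det = ∑ i, b i * (M.updateCol j (Pi.single i 1)).det := by
  have h1 : b = ∑ i, b i • (Pi.single i (1 : ℝ)) := by
    ext l
    simp [Finset.sum_apply, Pi.single_apply]
  conv_lhs => rw [h1]
  rw [← Matrix.cramer_apply, map_sum, Finset.sum_apply]
  refine Finset.sum_congr rfl fun i _ => ?_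
  rw [map_smul, Pi.smul_apply, Matrix.cramer_apply, smul_eq_mul]

/-- Integration of one column of a determinant. -/
lemma det_updateCol_integral {κ : Type*} [Fintype κ] [DecidableEq κ] (ν : Measure Z)
    (M : Matrix κ κ ℝ) (j : κ) (g : Z → ℝ) (X : Z → κ → ℝ)
    (hX : ∀ i, Integrable (fun z => g z * X z i) ν) :
    Integrable (fun z => g z * (M.updateCol j (X z)).det) ν ∧
    (M.updateCol j (fun i => ∫ z, g z * X z i ∂ν)).det =
      ∫ z, g z * (M.updateCol j (X z)).det ∂ν := by
  have h1 : ∀ z, g z * (M.updateCol j (X z)).det =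
      ∑ i, g z * X z i * (M.updateCol j (Pi.single i 1)).det := by
    intro z
    rw [det_updateCol_eq_sum M j (X z), Finset.mul_sum]
    exact Finset.sum_congr rfl fun i _ => by ring
  simp only [h1]
  refine ⟨integrable_finsetSum _ fun i _ => (hX i).mul_const _, ?_⟩
  rw [integral_finsetSum _ fun i _ => (hX i).mul_const _,
    det_updateCol_eq_sum M j (fun i => ∫ z, g z * X z i ∂ν)]
  exact Finset.sum_congr rfl fun i _ => by rw [integral_mul_const]

lemma chain_gen {n : ℕ} {Z : Type u} [MeasurableSpace Z] (ν : Measure Z) [SigmaFinite ν] (C : ℝ)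
    (hC : 0 ≤ C) : ∀ (k : ℕ)
    (h : Fin k → Z → ℝ) (ψ : Fin k → Z → Fin n → ℝ) (P : Fin k → Z → Fin k → Z → ℝ)
    (v : Fin n → Fin n → ℝ) (r : Fin n → Fin k → Z → ℝ)
    (_ : ∀ c, Measurable (h c)) (_ : ∀ c, Integrable (h c) ν)
    (_ : ∀ c i, Measurable (fun z => ψ c z i))
    (_ : ∀ c d, Measurable (Function.uncurry (fun z z' => P c z d z')))
    (_ : ∀ j c, Measurable (r j c))
    (_ : ∀ c z i, h c z ≠ 0 → |ψ c z i| ≤ C) (_ : ∀ j c z, h c z ≠ 0 → |r j c z| ≤ C)
    (_ : ∀ c z d z', |P c z d z'| ≤ C) (_ : ∀ c z d z', d ≤ c → P c z d z' = 0)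
    (_ : ∀ j i, |v j i| ≤ C),
    ∑ ι : Fin k → Fin n, Matrix.det (Matrix.of fun i j : Fin n =>
        chainJ ν k (fun c => decide (ι c = j)) h ψ P (v j) (r j) i) =
    (-1) ^ k * ∫ z : Fin k → Z, (∏ c, h c (z c)) * (bm ψ P v r z).det
      ∂(Measure.pi fun _ => ν) := by
  intro k
  induction k with
  | zero =>
    intro h ψ P v r _ _ _ _ _ _ _ _ _ _
    have h1 : ∀ z : Fin 0 → Z, (∏ c, h c (z c)) * (bm ψ P v r z).det =
        Matrix.det (Matrix.of fun i j : Fin n => v j i) := by
      intro z
      rw [Finset.univ_eq_empty, Finset.prod_empty, one_mul]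
      have h2 : bm ψ P v r z = Matrix.fromBlocks (Matrix.of fun i j => v j i)
          (Matrix.of fun i c => ψ c (z c) i) 0 (Matrix.of fun c d => P d (z d) c (z c)) := by
        rw [bm]
        congr 1
        exact Subsingleton.elim _ _
      have h3 : (Matrix.of fun c d : Fin 0 => P d (z d) c (z c)).det = 1 := Matrix.det_isEmpty
      rw [h2, Matrix.det_fromBlocks_zero₂₁, h3, mul_one]
    simp only [h1, chainJ]
    simp [measureReal_def]
  | succ k ih =>
    intro h ψ P v r hh hhi hψ hP hr hCψ hCr hCP hPt hCv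
    -- the bound for the chain integrals
    have hCv' : ∀ (j j' : Fin n) (z : Z), h 0 z ≠ 0 → ∀ i,
        |Function.update v j (ψ 0 z) j' i| ≤ C := by
      intro j j' z hz i
      by_cases hj : j' = j
      · subst hj
        rw [Function.update_self]
        exact hCψ _ _ _ hz
      · rw [Function.update_of_ne hj]
        exact hCv _ _
    have hCr' : ∀ (j j' : Fin n) (z : Z) (c : Fin k) (z' : Z), h c.succ z' ≠ 0 →
        |Function.update (fun j a => r j a.succ) j
          (fun a => P 0 z a.succ) j' c z'| ≤ C := by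
      intro j j' z c z' hz'
      by_cases hj : j' = j
      · subst hj
        rw [Function.update_self]
        exact hCP _ _ _ _
      · rw [Function.update_of_ne hj]
        exact hCr _ _ _ hz'
    have hr' : ∀ (j j' : Fin n) (z : Z) (c : Fin k),
        Measurable (Function.update (fun j a => r j a.succ) j
          (fun a => P 0 z a.succ) j' c) := by
      intro j j' z c
      by_cases hj : j' = j
      · subst hj
        rw [Function.update_self]
        exact (hP 0 c.succ).comp (measurable_prodMk_left (x := z))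
      · rw [Function.update_of_ne hj]
        exact hr _ _
    -- step 2
    have hS2 : ∀ (j0 : Fin n) (ι' : Fin k → Fin n),
        Integrable (fun z => (h 0 z * r j0 0 z) * Matrix.det (Matrix.of fun i j : Fin n =>
          chainJ ν k (fun c => decide (ι' c = j)) (fun a => h a.succ) (fun a => ψ a.succ)
            (fun a z' b => P a.succ z' b.succ) (Function.update v j0 (ψ 0 z) j)
            (Function.update (fun j a => r j a.succ) j0 (fun a => P 0 z a.succ) j) i)) ν ∧
        Matrix.det (Matrix.of fun i j : Fin n =>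
          chainJ ν (k + 1) (fun c => decide ((Fin.cons j0 ι' : Fin (k + 1) → Fin n) c = j))
            h ψ P (v j) (r j) i) =
        ∫ z, (h 0 z * r j0 0 z) * Matrix.det (Matrix.of fun i j : Fin n =>
          chainJ ν k (fun c => decide (ι' c = j)) (fun a => h a.succ) (fun a => ψ a.succ)
            (fun a z' b => P a.succ z' b.succ) (Function.update v j0 (ψ 0 z) j)
            (Function.update (fun j a => r j a.succ) j0 (fun a => P 0 z a.succ) j) i) ∂ν := by
      intro j0 ι'
      set X : Z → Fin n → ℝ := fun z => chainJ ν k (fun c => decide (ι' c = j0))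
        (fun a => h a.succ) (fun a => ψ a.succ) (fun a z' b => P a.succ z' b.succ) (ψ 0 z)
        (fun a => P 0 z a.succ) with hXdef
      set M0 : Matrix (Fin n) (Fin n) ℝ := Matrix.of fun i j : Fin n =>
          chainJ ν k (fun c => decide (ι' c = j)) (fun a => h a.succ) (fun a => ψ a.succ)
            (fun a z' b => P a.succ z' b.succ) (v j) (fun a => r j a.succ) i with hM0
      obtain ⟨D, hD0, hD⟩ := chainJ_bound ν C hC k (fun c => decide (ι' c = j0))
        (fun a => h a.succ) (fun a => ψ a.succ) (fun a z' b => P a.succ z' b.succ)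
        (fun c => hhi c.succ) (fun c z i hz => hCψ c.succ z i hz) (fun c z d z' => hCP _ _ _ _)
      have hXm : ∀ i, Measurable (fun z => X z i) :=
        chainJ_meas ν k _ _ _ _ (fun c => hh c.succ) (fun c i => hψ c.succ i)
          (fun c d => hP c.succ d.succ) (fun z => ψ 0 z) (fun z a => P 0 z a.succ)
          (fun i => hψ 0 i) (fun c => hP 0 c.succ)
      have hXi : ∀ i, Integrable (fun z => (h 0 z * r j0 0 z) * X z i) ν := by
        intro i
        refine ((hhi 0).norm.mul_const (C * D)).mono'
          (((hh 0).mul (hr j0 0)).mul (hXm i)).aestronglyMeasurable ?_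
        refine Filter.Eventually.of_forall fun z => ?_
        by_cases h0 : h 0 z = 0
        · simp [h0]
        · rw [norm_mul, norm_mul, mul_assoc]
          refine mul_le_mul_of_nonneg_left ?_ (norm_nonneg _)
          refine mul_le_mul (hCr _ _ _ h0) ?_ (norm_nonneg _) hC
          exact hD _ _ (fun i => hCψ _ _ _ h0) (fun c z' _ => hCP _ _ _ _) i
      have h1 : ∀ z, (Matrix.of fun i j : Fin n =>
          chainJ ν k (fun c => decide (ι' c = j)) (fun a => h a.succ) (fun a => ψ a.succ)
            (fun a z' b => P a.succ z' b.succ) (Function.update v j0 (ψ 0 z) j)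
            (Function.update (fun j a => r j a.succ) j0 (fun a => P 0 z a.succ) j) i) =
          M0.updateCol j0 (X z) := by
        intro z
        ext i j
        by_cases hj : j = j0
        · subst hj
          rw [Matrix.updateCol_self, Matrix.of_apply, Function.update_self, Function.update_self]
        · rw [Matrix.updateCol_ne hj, Matrix.of_apply, Function.update_of_ne hj,
            Function.update_of_ne hj]
          rfl
      have h2 : (Matrix.of fun i j : Fin n =>
          chainJ ν (k + 1) (fun c => decide ((Fin.cons j0 ι' : Fin (k + 1) → Fin n) c = j))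
            h ψ P (v j) (r j) i) = M0.updateCol j0 (fun i => ∫ z, (h 0 z * r j0 0 z) * X z i ∂ν) := by
        ext i j
        by_cases hj : j = j0
        · subst hj
          rw [Matrix.updateCol_self, Matrix.of_apply, chainJ]
          simp only [Fin.cons_zero, decide_true, if_true, Fin.cons_succ]
          rfl
        · rw [Matrix.updateCol_ne hj, Matrix.of_apply, chainJ]
          simp only [Fin.cons_zero, Fin.cons_succ, Ne.symm hj, decide_false]
          rfl
      simp only [h1, h2]
      exact det_updateCol_integral ν M0 j0 (fun z => h 0 z * r j0 0 z) X hXi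
    -- step 1
    rw [← (Fin.consEquiv (fun _ : Fin (k + 1) => Fin n)).sum_comp, Fintype.sum_prod_type]
    have hS3 : ∀ j0 : Fin n, ∑ ι' : Fin k → Fin n, Matrix.det (Matrix.of fun i j : Fin n =>
          chainJ ν (k + 1) (fun c => decide ((Fin.consEquiv (fun _ : Fin (k + 1) => Fin n))
            (j0, ι') c = j)) h ψ P (v j) (r j) i) =
        ∫ z, (h 0 z * r j0 0 z) * ∑ ι' : Fin k → Fin n, Matrix.det (Matrix.of fun i j : Fin n =>
          chainJ ν k (fun c => decide (ι' c = j)) (fun a => h a.succ) (fun a => ψ a.succ)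
            (fun a z' b => P a.succ z' b.succ) (Function.update v j0 (ψ 0 z) j)
            (Function.update (fun j a => r j a.succ) j0 (fun a => P 0 z a.succ) j) i) ∂ν := by
      intro j0
      simp only [Finset.mul_sum]
      rw [integral_finsetSum _ fun ι' _ => (hS2 j0 ι').1]
      exact Finset.sum_congr rfl fun ι' _ => (hS2 j0 ι').2
    have hS3i : ∀ j0 : Fin n, Integrable (fun z => (h 0 z * r j0 0 z) *
        ∑ ι' : Fin k → Fin n, Matrix.det (Matrix.of fun i j : Fin n =>
          chainJ ν k (fun c => decide (ι' c = j)) (fun a => h a.succ) (fun a => ψ a.succ)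
            (fun a z' b => P a.succ z' b.succ) (Function.update v j0 (ψ 0 z) j)
            (Function.update (fun j a => r j a.succ) j0 (fun a => P 0 z a.succ) j) i)) ν := by
      intro j0
      simp only [Finset.mul_sum]
      exact integrable_finsetSum _ fun ι' _ => (hS2 j0 ι').1
    rw [Finset.sum_congr rfl fun j0 _ => hS3 j0, ← integral_finsetSum _ fun j0 _ => hS3i j0]
    -- the right side
    have hF := integrable_bm ν h ψ P v r hh hhi hψ hP hr C hCψ hCr hCP hCv
    have hmp := (measurePreserving_piFinSuccAbove (fun _ : Fin (k + 1) => ν) 0).symm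
    have he : ∀ p : Z × (Fin k → Z), (MeasurableEquiv.piFinSuccAbove
        (fun _ : Fin (k + 1) => Z) 0).symm p = Fin.cons p.1 p.2 := by
      intro p
      rw [MeasurableEquiv.piFinSuccAbove_symm_apply]
      simp [Fin.insertNthEquiv]
    have hF' : Integrable (fun p : Z × (Fin k → Z) =>
        (∏ c, h c ((Fin.cons p.1 p.2 : Fin (k + 1) → Z) c)) *
          (bm ψ P v r (Fin.cons p.1 p.2)).det) (ν.prod (Measure.pi fun _ : Fin k => ν)) := by
      have := (hmp.integrable_comp_emb (MeasurableEquiv.measurableEmbedding _)).2 hF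
      refine this.congr (Filter.Eventually.of_forall fun p => ?_)
      simp only [Function.comp_apply]
      rw [he]
    have hR : ∫ w : Fin (k + 1) → Z, (∏ c, h c (w c)) * (bm ψ P v r w).det
        ∂(Measure.pi fun _ => ν) = ∫ z, ∫ z' : Fin k → Z,
        (∏ c, h c ((Fin.cons z z' : Fin (k + 1) → Z) c)) *
          (bm ψ P v r (Fin.cons z z')).det ∂(Measure.pi fun _ => ν) ∂ν := by
      rw [← hmp.integral_comp']
      rw [← integral_prod _ hF']
      refine integral_congr_ae (Filter.Eventually.of_forall fun p => ?_)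
      simp only
      rw [he]
    rw [hR, ← integral_const_mul]
    refine integral_congr_ae (Filter.Eventually.of_forall fun z => ?_)
    simp only
    by_cases h0 : h 0 z = 0
    · have h1 : ∀ z' : Fin k → Z, (∏ c, h c ((Fin.cons z z' : Fin (k + 1) → Z) c)) *
          (bm ψ P v r (Fin.cons z z')).det = 0 := by
        intro z'
        rw [Fin.prod_univ_succ, Fin.cons_zero, h0]
        ring
      simp [h1, h0]
    · have h1 : ∀ z' : Fin k → Z, (∏ c, h c ((Fin.cons z z' : Fin (k + 1) → Z) c)) *
          (bm ψ P v r (Fin.cons z z')).det = ∑ j0, (- (h 0 z * r j0 0 z)) *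
            ((∏ c : Fin k, h c.succ (z' c)) * (bm (fun a => ψ a.succ)
              (fun a z' b => P a.succ z' b.succ) (Function.update v j0 (ψ 0 z))
              (Function.update (fun j a => r j a.succ) j0 (fun a => P 0 z a.succ)) z').det) := by
        intro z'
        rw [Fin.prod_univ_succ, Fin.cons_zero, det_step ψ P v r
          (fun d z z' => hPt _ _ _ _ (Fin.zero_le d)), mul_neg, Finset.mul_sum,
          ← Finset.sum_neg_distrib]
        simp only [Fin.cons_succ]
        exact Finset.sum_congr rfl fun j0 _ => by ring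
      have h2 : ∀ j0 : Fin n, Integrable (fun z' : Fin k → Z =>
            ((∏ c : Fin k, h c.succ (z' c)) * (bm (fun a => ψ a.succ)
              (fun a z' b => P a.succ z' b.succ) (Function.update v j0 (ψ 0 z))
              (Function.update (fun j a => r j a.succ) j0 (fun a => P 0 z a.succ)) z').det))
            (Measure.pi fun _ => ν) := by
        intro j0
        exact integrable_bm ν (fun a => h a.succ) _ _ _ _ (fun c => hh _) (fun c => hhi _)
          (fun c i => hψ _ _) (fun c d => hP _ _) (fun j c => hr' j0 j z c) C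
          (fun c z i hz => hCψ _ _ _ hz) (fun j c z' hz' => hCr' j0 j z c z' hz')
          (fun c z d z' => hCP _ _ _ _) (fun j i => hCv' j0 j z h0 i)
      simp only [h1]
      rw [integral_finsetSum _ fun j0 _ => (h2 j0).const_mul _, Finset.mul_sum]
      refine Finset.sum_congr rfl fun j0 _ => ?_
      rw [integral_const_mul]
      have h3 := ih (fun a => h a.succ) (fun a => ψ a.succ) (fun a z' b => P a.succ z' b.succ)
        (Function.update v j0 (ψ 0 z))
        (Function.update (fun j a => r j a.succ) j0 (fun a => P 0 z a.succ))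
        (fun c => hh _) (fun c => hhi _)
          (fun c i => hψ _ _) (fun c d => hP _ _) (fun j c => hr' j0 j z c)
          (fun c z i hz => hCψ _ _ _ hz) (fun j c z' hz' => hCr' j0 j z c z' hz')
          (fun c z d z' => hCP _ _ _ _)
          (fun c z d z' hdc => hPt _ _ _ _ (Fin.succ_le_succ_iff.2 hdc))
          (fun j i => hCv' j0 j z h0 i)
      rw [h3]
      ring

end Chain

theorem chain_det {n k : ℕ} {Z : Type*} [MeasurableSpace Z] (ν : Measure Z) [SigmaFinite ν]
    (h : Fin k → Z → ℝ) (ψ : Fin k → Z → Fin n → ℝ) (P : Fin k → Z → Fin k → Z → ℝ)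
    (r : Fin n → Fin k → Z → ℝ)
    (hh : ∀ c, Measurable (h c)) (hhi : ∀ c, Integrable (h c) ν)
    (hψ : ∀ c i, Measurable (fun z => ψ c z i))
    (hP : ∀ c d, Measurable (Function.uncurry (fun z z' => P c z d z')))
    (hr : ∀ j c, Measurable (r j c))
    (C : ℝ) (hCψ : ∀ c z i, h c z ≠ 0 → |ψ c z i| ≤ C) (hCr : ∀ j c z, h c z ≠ 0 → |r j c z| ≤ C)
    (hCP : ∀ c z d z', |P c z d z'| ≤ C) (hPt : ∀ c z d z', d ≤ c → P c z d z' = 0) :
    Integrable (fun z : Fin k → Z => (∏ c, h c (z c)) *
      Matrix.det (Matrix.of fun c d : Fin k =>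
        (∑ j, ψ c (z c) j * r j d (z d)) - P c (z c) d (z d))) (Measure.pi fun _ => ν) ∧
    ∑ ι : Fin k → Fin n, Matrix.det (Matrix.of fun i j : Fin n =>
        chainJ ν k (fun c => decide (ι c = j)) h ψ P (Pi.single j 1) (r j) i) =
      ∫ z : Fin k → Z, (∏ c, h c (z c)) *
        Matrix.det (Matrix.of fun c d : Fin k =>
          (∑ j, ψ c (z c) j * r j d (z d)) - P c (z c) d (z d)) ∂(Measure.pi fun _ => ν) := by
  have hC' : 0 ≤ max C 1 := le_trans zero_le_one (le_max_right _ _)
  have hCv : ∀ j i : Fin n, |(Pi.single j (1 : ℝ) : Fin n → ℝ) i| ≤ max C 1 := by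
    intro j i
    rw [Pi.single_apply]
    split_ifs
    · simp
    · simp [hC']
  have hd : ∀ z : Fin k → Z, Matrix.det (Matrix.of fun c d : Fin k =>
        (∑ j, ψ c (z c) j * r j d (z d)) - P c (z c) d (z d)) =
      (-1) ^ k * (Chain.bm ψ P (fun j => Pi.single j 1) r z).det := by
    intro z
    have h1 : Chain.bm ψ P (fun j => Pi.single j 1) r z = Matrix.fromBlocks 1
        (Matrix.of fun i c => ψ c (z c) i) (Matrix.of fun c j => r j c (z c))
        (Matrix.of fun c d => P d (z d) c (z c)) := by
      rw [Chain.bm]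
      congr 1
      ext i j
      simp [Matrix.one_apply, Pi.single_apply]
    rw [h1, Matrix.det_fromBlocks_one₁₁, ← Matrix.det_transpose (Matrix.of fun c d : Fin k =>
        (∑ j, ψ c (z c) j * r j d (z d)) - P c (z c) d (z d))]
    have h2 := Matrix.det_neg ((Matrix.of fun c d : Fin k => P d (z d) c (z c)) -
      (Matrix.of fun (c : Fin k) (j : Fin n) => r j c (z c)) *
        (Matrix.of fun (i : Fin n) (c : Fin k) => ψ c (z c) i))
    rw [Fintype.card_fin] at h2
    rw [← h2]
    congr 1
    ext c d
    simp [Matrix.mul_apply, mul_comm]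
  have hi := Chain.integrable_bm ν h ψ P (fun j => Pi.single j 1) r hh hhi hψ hP hr (max C 1)
    (fun c z i hz => (hCψ c z i hz).trans (le_max_left _ _))
    (fun j c z hz => (hCr j c z hz).trans (le_max_left _ _))
    (fun c z d z' => (hCP c z d z').trans (le_max_left _ _)) hCv
  have hrew : ∀ z : Fin k → Z, (∏ c, h c (z c)) *
      Matrix.det (Matrix.of fun c d : Fin k =>
        (∑ j, ψ c (z c) j * r j d (z d)) - P c (z c) d (z d)) =
      (-1) ^ k * ((∏ c, h c (z c)) * (Chain.bm ψ P (fun j => Pi.single j 1) r z).det) := by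
    intro z
    rw [hd z]
    ring
  simp only [hrew]
  refine ⟨hi.const_mul _, ?_⟩
  rw [integral_const_mul]
  exact Chain.chain_gen ν (max C 1) hC' k h ψ P (fun j => Pi.single j 1) r hh hhi hψ hP hr
    (fun c z i hz => (hCψ c z i hz).trans (le_max_left _ _))
    (fun j c z hz => (hCr j c z hz).trans (le_max_left _ _))
    (fun c z d z' => (hCP c z d z').trans (le_max_left _ _)) hPt hCv

end Pool.Agent.H.MP_5ad92a_pr
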