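import Pool.Agent.H.MP_5ad92a_pr.DefsF

/-!
# Master formula for products of determinants
-/

set_option autoImplicit false

noncomputable section

open MeasureTheory Filter Topology Set

namespace Pool.Agent.H.MP_5ad92a_pr

/-- Swapping the two indices preserves the volume. -/
theorem mst_swap (a b : ℕ) :
    MeasurePreserving (fun (x : Fin a → Fin b → ℝ) (j : Fin b) (l : Fin a) => x l j)
      volume volume := by
  have hm : Measurable (fun (x : Fin a → Fin b → ℝ) (j : Fin b) (l : Fin a) => x l j) := by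
    fun_prop
  refine ⟨hm, ?_⟩
  symm
  have key := Measure.pi_eq_generateFrom (μ := fun _ : Fin b => (volume : Measure (Fin a → ℝ)))
    (C := fun _ => (Set.pi univ '' Set.pi univ fun _ : Fin a => {s : Set ℝ | MeasurableSet s}))
    (fun _ => generateFrom_pi) (fun _ => isPiSystem_pi)
    (fun _ => Measure.FiniteSpanningSetsIn.pi
      (fun _ : Fin a => (volume : Measure ℝ).toFiniteSpanningSetsIn))
    (μν := Measure.map (fun (x : Fin a → Fin b → ℝ) (j : Fin b) (l : Fin a) => x l j)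
      (volume : Measure (Fin a → Fin b → ℝ))) ?_
  · exact key
  · intro s hs
    choose t ht hts using hs
    have hts' : ∀ j, s j = Set.pi univ (t j) := fun j => (hts j).symm
    have hmt : ∀ j l, MeasurableSet (t j l) := fun j l => ht j l (mem_univ _)
    rw [Measure.map_apply hm (MeasurableSet.univ_pi (fun j => by
      rw [hts' j]; exact MeasurableSet.univ_pi (fun l => hmt j l)))]
    have hpre : (fun (x : Fin a → Fin b → ℝ) (j : Fin b) (l : Fin a) => x l j) ⁻¹' (Set.pi univ s)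
        = Set.pi univ (fun l => Set.pi univ (fun j => t j l)) := by
      ext x
      simp only [mem_preimage, Set.mem_pi, mem_univ, forall_true_left, hts']
      exact forall_comm
    rw [hpre]
    simp only [hts']
    rw [volume_pi_pi]
    simp only [volume_pi_pi]
    exact Finset.prod_comm

/-- Permuting coordinates at each time preserves the volume. -/
theorem mst_perm {n m : ℕ} (ρ : Fin (m + 1) → Equiv.Perm (Fin n)) :
    MeasurePreserving (fun (x : Fin (m + 1) → Fin n → ℝ) l j => x l (ρ l j))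
      volume volume := by
  have h : ∀ l, MeasurePreserving (fun (y : Fin n → ℝ) j => y (ρ l j)) volume volume := by
    intro l
    have := volume_measurePreserving_piCongrLeft (fun _ : Fin n => ℝ) (ρ l)⁻¹
    convert this using 1
    ext y j
    rw [MeasurableEquiv.coe_piCongrLeft]
    have h2 := Equiv.piCongrLeft_apply (P := fun _ : Fin n => ℝ) (e := (ρ l)⁻¹) y j
    rw [h2]
    simp
    rfl
  exact volume_preserving_pi h

/-- transfer-matrix sum -/
theorem mst_chain {P : Type*} [Fintype P] {m : ℕ} (A : P → ℝ) (T : Fin m → P → P → ℝ)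
    (d : Fin m → ℝ) (hd : ∀ k p, ∑ p', T k p p' = d k) :
    ∑ ρ : Fin (m + 1) → P, A (ρ 0) * ∏ k : Fin m, T k (ρ k.castSucc) (ρ k.succ) =
      (∑ p, A p) * ∏ k, d k := by
  induction m with
  | zero =>
    simp only [Finset.univ_eq_empty, Finset.prod_empty, mul_one]
    exact Fintype.sum_equiv (Equiv.funUnique (Fin 1) P) _ _ (fun ρ => rfl)
  | succ m ih =>
    rw [← Equiv.sum_comp (Fin.snocEquiv (fun _ : Fin (m + 2) => P))]
    rw [Fintype.sum_prod_type_right]
    rw [Fin.prod_univ_castSucc, ← mul_assoc, ← ih (fun k => T k.castSucc) (fun k => d k.castSucc)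
      (fun k p => hd _ p), Finset.sum_mul]
    refine Finset.sum_congr rfl fun ρ _ => ?_
    rw [← hd (Fin.last m) (ρ (Fin.last m)), Finset.mul_sum]
    refine Finset.sum_congr rfl fun p _ => ?_
    rw [Fin.prod_univ_castSucc]
    have e0 : (Fin.snocEquiv (fun _ : Fin (m + 2) => P)) (p, ρ) 0 = ρ 0 := by
      exact Fin.snoc_castSucc (α := fun _ : Fin (m + 2) => P) p ρ 0
    have e1 : ∀ k : Fin (m + 1), (Fin.snocEquiv (fun _ : Fin (m + 2) => P)) (p, ρ) k.castSucc
        = ρ k := fun k => Fin.snoc_castSucc (α := fun _ : Fin (m + 2) => P) p ρ k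
    have e2 : (Fin.snocEquiv (fun _ : Fin (m + 2) => P)) (p, ρ) (Fin.last (m + 1)) = p :=
      Fin.snoc_last (α := fun _ : Fin (m + 2) => P) p ρ
    have e3 : ∀ k : Fin m, (Fin.snocEquiv (fun _ : Fin (m + 2) => P)) (p, ρ) k.castSucc.succ
        = ρ k.succ := fun k => by rw [Fin.succ_castSucc]; exact e1 _
    rw [e0, e1, Fin.succ_last, e2]
    simp only [e1, e3]
    ring

theorem mst_sign {m : ℕ} (f : Fin (m + 1) → ℝ) (hf : ∀ l, f l * f l = 1) :
    f 0 * ∏ k : Fin m, (f k.castSucc * f k.succ) = f (Fin.last m) := by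
  induction m with
  | zero => simp
  | succ m ih =>
    rw [Fin.prod_univ_castSucc, ← mul_assoc]
    have := ih (fun l => f l.castSucc) (fun l => hf _)
    simp only [Fin.castSucc_zero, Fin.succ_castSucc, Fin.succ_last] at this ⊢
    rw [this, ← mul_assoc, hf, one_mul]

/-- the unsymmetrised density -/
def mstT {n m : ℕ} (α : Fin n → ℝ → ℝ) (q : Fin m → ℝ → ℝ → ℝ) (β : Fin n → ℝ → ℝ)
    (x : Fin (m + 1) → Fin n → ℝ) : ℝ :=
  (∏ i, α i (x 0 i)) * (∏ k : Fin m, ∏ i, q k (x k.castSucc i) (x k.succ i)) *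
    Matrix.det (Matrix.of fun i j : Fin n => β i (x (Fin.last m) j))

theorem mst_alg {n m : ℕ} (α : Fin n → ℝ → ℝ) (q : Fin m → ℝ → ℝ → ℝ) (β : Fin n → ℝ → ℝ)
    (x : Fin (m + 1) → Fin n → ℝ) :
    densA α q β x = ((n.factorial : ℝ) ^ (m + 1))⁻¹ *
      ∑ ρ : Fin (m + 1) → Equiv.Perm (Fin n), mstT α q β (fun l j => x l (ρ l j)) := by
  set sg : Equiv.Perm (Fin n) → ℝ := fun p => ((Equiv.Perm.sign p : ℤ) : ℝ) with hsg
  have sgmul : ∀ p p' : Equiv.Perm (Fin n), sg (p * p') = sg p * sg p' := by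
    intro p p'; simp [hsg]
  have sgsq : ∀ p : Equiv.Perm (Fin n), sg p * sg p = 1 := by
    intro p
    rcases Int.units_eq_one_or (Equiv.Perm.sign p) with h | h <;> simp [hsg, h]
  have sginv : ∀ p : Equiv.Perm (Fin n), sg p⁻¹ = sg p := by
    intro p; simp [hsg]
  have hA : Matrix.det (Matrix.of fun i j : Fin n => α i (x 0 j)) =
      ∑ p : Equiv.Perm (Fin n), sg p * ∏ i, α i (x 0 (p i)) := by
    rw [← Matrix.det_transpose, Matrix.det_apply']
    rfl
  have hT : ∀ (k : Fin m) (p : Equiv.Perm (Fin n)),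
      ∑ p' : Equiv.Perm (Fin n), sg p * sg p' * ∏ i, q k (x k.castSucc (p i)) (x k.succ (p' i)) =
      Matrix.det (Matrix.of fun i j : Fin n => q k (x k.castSucc i) (x k.succ j)) := by
    intro k p
    rw [← Matrix.det_transpose, Matrix.det_apply']
    rw [← Equiv.sum_comp (Equiv.mulRight p)]
    refine Finset.sum_congr rfl fun σ _ => ?_
    rw [← Equiv.prod_comp p (fun i => (Matrix.transpose (Matrix.of fun i j : Fin n =>
      q k (x k.castSucc i) (x k.succ j))) (σ i) i)]
    simp only [Equiv.coe_mulRight, Matrix.transpose_apply, Matrix.of_apply, sgmul]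
    have : sg p * (sg σ * sg p) = sg σ := by
      rw [mul_comm (sg σ), ← mul_assoc, sgsq, one_mul]
    rw [this]
    rfl
  have hB : ∀ p : Equiv.Perm (Fin n),
      Matrix.det (Matrix.of fun i j : Fin n => β i (x (Fin.last m) (p j))) =
      sg p * Matrix.det (Matrix.of fun i j : Fin n => β i (x (Fin.last m) j)) := by
    intro p
    exact Matrix.det_permute' p (Matrix.of fun i j : Fin n => β i (x (Fin.last m) j))
  unfold densA
  have hch := mst_chain (P := Equiv.Perm (Fin n)) (m := m)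
    (fun p => sg p * ∏ i, α i (x 0 (p i)))
    (fun k p p' => sg p * sg p' * ∏ i, q k (x k.castSucc (p i)) (x k.succ (p' i)))
    (fun k => Matrix.det (Matrix.of fun i j : Fin n => q k (x k.castSucc i) (x k.succ j)))
    hT
  rw [hA]
  rw [show ∀ a b c d : ℝ, a * b * c * d = a * ((b * c) * d) by intros; ring, ← hch,
    Finset.sum_mul]
  congr 1
  refine Finset.sum_congr rfl fun ρ _ => ?_
  unfold mstT
  rw [hB (ρ (Fin.last m)), ← mst_sign (fun l => sg (ρ l)) (fun l => sgsq _),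
    Finset.prod_mul_distrib]
  ring

/-- one-particle integrand -/
def mstF {m : ℕ} (q : Fin m → ℝ → ℝ → ℝ) (a : ℝ → ℝ) (u : Fin (m + 1) → ℝ → ℝ)
    (b : ℝ → ℝ) (z : Fin (m + 1) → ℝ) : ℝ :=
  a (z 0) * (∏ k : Fin m, q k (z k.castSucc) (z k.succ)) * (∏ l, u l (z l)) * b (z (Fin.last m))

theorem mst_F_int {m : ℕ} (q : Fin m → ℝ → ℝ → ℝ) (a : ℝ → ℝ) (u : Fin (m + 1) → ℝ → ℝ)
    (b : ℝ → ℝ)
    (hint : Integrable (fun z : Fin (m + 1) → ℝ =>
      a (z 0) * (∏ k : Fin m, q k (z k.castSucc) (z k.succ)) * b (z (Fin.last m))))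
    (hu : ∀ l, Measurable (u l)) (C : ℝ) (hC : ∀ l z, |u l z| ≤ C) :
    Integrable (mstF q a u b) := by
  have h1 : mstF q a u b = fun z => (∏ l, u l (z l)) *
      (a (z 0) * (∏ k : Fin m, q k (z k.castSucc) (z k.succ)) * b (z (Fin.last m))) := by
    funext z; unfold mstF; ring
  rw [h1]
  refine hint.bdd_mul (c := C ^ (m + 1)) ?_ ?_
  · refine Measurable.aestronglyMeasurable ?_
    refine Finset.measurable_fun_prod _ fun l _ => (hu l).comp ?_
    fun_prop
  · refine Filter.Eventually.of_forall fun z => ?_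
    rw [Real.norm_eq_abs, Finset.abs_prod]
    calc ∏ l, |u l (z l)| ≤ ∏ l : Fin (m + 1), C :=
          Finset.prod_le_prod (fun l _ => abs_nonneg _) (fun l _ => hC l _)
      _ = C ^ (m + 1) := by simp

theorem mst_expand {n m : ℕ} (α : Fin n → ℝ → ℝ) (q : Fin m → ℝ → ℝ → ℝ) (β : Fin n → ℝ → ℝ)
    (u : Fin (m + 1) → Fin n → ℝ → ℝ) (x : Fin (m + 1) → Fin n → ℝ) :
    mstT α q β x * ∏ l, ∏ j, u l j (x l j) =
      ∑ σ : Equiv.Perm (Fin n), ((Equiv.Perm.sign σ : ℤ) : ℝ) *
        ∏ j, mstF q (α j) (fun l => u l j) (β (σ j)) (fun l => x l j) := by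
  unfold mstT mstF
  rw [Matrix.det_apply', Finset.mul_sum, Finset.sum_mul]
  refine Finset.sum_congr rfl fun σ _ => ?_
  simp only [Matrix.of_apply, Finset.prod_mul_distrib]
  rw [Finset.prod_comm (f := fun l j => u l j (x l j)),
    Finset.prod_comm (f := fun (k : Fin m) i => q k (x k.castSucc i) (x k.succ i))]
  ring

theorem mst_one {n m : ℕ} (α : Fin n → ℝ → ℝ) (q : Fin m → ℝ → ℝ → ℝ) (β : Fin n → ℝ → ℝ)
    (hint : ∀ i j, Integrable (fun z : Fin (m + 1) → ℝ =>
      α i (z 0) * (∏ k : Fin m, q k (z k.castSucc) (z k.succ)) * β j (z (Fin.last m))))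
    (u : Fin (m + 1) → Fin n → ℝ → ℝ)
    (hu : ∀ l j, Measurable (u l j)) (C : ℝ) (hC : ∀ l j z, |u l j z| ≤ C) :
    Integrable (fun x : Fin (m + 1) → Fin n → ℝ => mstT α q β x * ∏ l, ∏ j, u l j (x l j)) ∧
    ∫ x : Fin (m + 1) → Fin n → ℝ, mstT α q β x * ∏ l, ∏ j, u l j (x l j) =
      Matrix.det (Matrix.of fun i j : Fin n => pathInt q (α j) (fun l => u l j) (β i)) := by
  have hFi : ∀ i j, Integrable (mstF q (α j) (fun l => u l j) (β i)) := fun i j =>
    mst_F_int q (α j) (fun l => u l j) (β i) (hint j i) (fun l => hu l j) C (fun l z => hC l j z)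
  have hprod : ∀ σ : Equiv.Perm (Fin n), Integrable (fun y : Fin n → Fin (m + 1) → ℝ =>
      ∏ j, mstF q (α j) (fun l => u l j) (β (σ j)) (y j)) := fun σ =>
    Integrable.fintype_prod (f := fun j => mstF q (α j) (fun l => u l j) (β (σ j)))
      (fun j => hFi _ _)
  have hswap := mst_swap (m + 1) n
  have hint2 : ∀ σ : Equiv.Perm (Fin n), Integrable (fun x : Fin (m + 1) → Fin n → ℝ =>
      ∏ j, mstF q (α j) (fun l => u l j) (β (σ j)) (fun l => x l j)) := fun σ =>
    (hswap.integrable_comp (hprod σ).aestronglyMeasurable).2 (hprod σ)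
  simp only [mst_expand]
  refine ⟨integrable_finsetSum _ fun σ _ => (hint2 σ).const_mul _, ?_⟩
  rw [integral_finsetSum _ fun σ _ => (hint2 σ).const_mul _, Matrix.det_apply']
  refine Finset.sum_congr rfl fun σ _ => ?_
  rw [integral_const_mul]
  congr 1
  have h1 : ∫ x : Fin (m + 1) → Fin n → ℝ,
      ∏ j, mstF q (α j) (fun l => u l j) (β (σ j)) (fun l => x l j) =
      ∫ y : Fin n → Fin (m + 1) → ℝ, ∏ j, mstF q (α j) (fun l => u l j) (β (σ j)) (y j) := by
    rw [← hswap.map_eq]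
    rw [integral_map hswap.measurable.aemeasurable
      (by rw [hswap.map_eq]; exact (hprod σ).aestronglyMeasurable)]
  rw [h1]
  have h2 := integral_fintype_prod_eq_prod (𝕜 := ℝ) (μ := fun _ : Fin n =>
    (volume : Measure (Fin (m + 1) → ℝ)))
    (fun j => mstF q (α j) (fun l => u l j) (β (σ j)))
  exact h2

set_option linter.unusedVariables false in
theorem master {n m : ℕ} (α : Fin n → ℝ → ℝ) (q : Fin m → ℝ → ℝ → ℝ) (β : Fin n → ℝ → ℝ)
    (hα : ∀ i, Measurable (α i)) (hq : ∀ k, Measurable (Function.uncurry (q k)))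
    (hβ : ∀ i, Measurable (β i))
    (hint : ∀ i j, Integrable (fun z : Fin (m + 1) → ℝ =>
      α i (z 0) * (∏ k : Fin m, q k (z k.castSucc) (z k.succ)) * β j (z (Fin.last m))))
    {I : Type*} (J : Finset I) (u : I → Fin (m + 1) → Fin n → ℝ → ℝ)
    (hu : ∀ ι l j, Measurable (u ι l j)) (C : ℝ) (hC : ∀ ι l j z, |u ι l j z| ≤ C)
    (hsym : ∀ (ρ : Fin (m + 1) → Equiv.Perm (Fin n)) (x : Fin (m + 1) → Fin n → ℝ),
      ∑ ι ∈ J, ∏ l, ∏ j, u ι l j (x l (ρ l j)) = ∑ ι ∈ J, ∏ l, ∏ j, u ι l j (x l j)) :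
    Integrable (fun x : Fin (m + 1) → Fin n → ℝ =>
        densA α q β x * ∑ ι ∈ J, ∏ l, ∏ j, u ι l j (x l j)) ∧
    ∫ x : Fin (m + 1) → Fin n → ℝ, densA α q β x * (∑ ι ∈ J, ∏ l, ∏ j, u ι l j (x l j)) =
      ∑ ι ∈ J, Matrix.det (Matrix.of fun i j : Fin n =>
        pathInt q (α j) (fun l => u ι l j) (β i)) := by
  set H : (Fin (m + 1) → Fin n → ℝ) → ℝ := fun x =>
    mstT α q β x * ∑ ι ∈ J, ∏ l, ∏ j, u ι l j (x l j) with hH
  have hone := fun ι => mst_one α q β hint (u ι) (hu ι) C (hC ι)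
  have hHsum : H = fun x => ∑ ι ∈ J, mstT α q β x * ∏ l, ∏ j, u ι l j (x l j) := by
    funext x; simp only [hH, Finset.mul_sum]
  have hHi : Integrable H := by
    rw [hHsum]; exact integrable_finsetSum _ fun ι _ => (hone ι).1
  have hHint : ∫ x, H x = ∑ ι ∈ J, Matrix.det (Matrix.of fun i j : Fin n =>
        pathInt q (α j) (fun l => u ι l j) (β i)) := by
    rw [hHsum, integral_finsetSum _ fun ι _ => (hone ι).1]
    exact Finset.sum_congr rfl fun ι _ => (hone ι).2
  have hfun : (fun x : Fin (m + 1) → Fin n → ℝ =>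
        densA α q β x * ∑ ι ∈ J, ∏ l, ∏ j, u ι l j (x l j)) =
      fun x => ((n.factorial : ℝ) ^ (m + 1))⁻¹ *
        ∑ ρ : Fin (m + 1) → Equiv.Perm (Fin n), H (fun l j => x l (ρ l j)) := by
    funext x
    rw [mst_alg, mul_assoc, Finset.sum_mul]
    congr 1
    refine Finset.sum_congr rfl fun ρ _ => ?_
    simp only [hH]
    rw [hsym ρ x]
  have hHρi : ∀ ρ : Fin (m + 1) → Equiv.Perm (Fin n), Integrable
      (fun x : Fin (m + 1) → Fin n → ℝ => H (fun l j => x l (ρ l j))) := fun ρ =>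
    ((mst_perm ρ).integrable_comp hHi.aestronglyMeasurable).2 hHi
  have hHρ : ∀ ρ : Fin (m + 1) → Equiv.Perm (Fin n),
      ∫ x : Fin (m + 1) → Fin n → ℝ, H (fun l j => x l (ρ l j)) = ∫ x, H x := by
    intro ρ
    conv_rhs => rw [← (mst_perm ρ).map_eq]
    rw [integral_map (mst_perm ρ).measurable.aemeasurable
      (by rw [(mst_perm ρ).map_eq]; exact hHi.aestronglyMeasurable)]
  rw [hfun]
  refine ⟨(integrable_finsetSum _ fun ρ _ => hHρi ρ).const_mul _, ?_⟩
  rw [integral_const_mul, integral_finsetSum _ fun ρ _ => hHρi ρ]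
  simp only [hHρ, Finset.sum_const, Finset.card_univ, nsmul_eq_mul, Fintype.card_fun,
    Fintype.card_fin, Fintype.card_perm]
  push_cast
  rw [← mul_assoc, inv_mul_cancel₀ (by positivity), one_mul, hHint]

end Pool.Agent.H.MP_5ad92a_pr
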