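import Mathlib

/-!
A bound for `det (1 + M)` where `M` is an integral of rank-one matrices with small weight.
-/

set_option linter.all false

namespace Pool.Agent.H.MP_5ad92a_pr

open MeasureTheory

namespace NewtonDet

variable {n : ℕ} {Z : Type*} [MeasurableSpace Z]

theorem eval_det_one_add (N : Matrix (Fin n) (Fin n) ℝ) (h : ℝ) :
    Polynomial.eval h (Matrix.det (1 + (Polynomial.X : Polynomial ℝ) • N.map Polynomial.C)) =
      (1 + h • N).det := by
  rw [← Polynomial.coe_evalRingHom, RingHom.map_det]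
  congr 1
  ext i j
  simp [Matrix.one_apply, apply_ite, Matrix.add_apply]
  exact mul_comm _ _

theorem hasDerivAt_det (M : Matrix (Fin n) (Fin n) ℝ) (t : ℝ) (ht : (1 + t • M).det ≠ 0) :
    HasDerivAt (fun s : ℝ => (1 + s • M).det)
      ((1 + t • M).det * Matrix.trace ((1 + t • M)⁻¹ * M)) t := by
  set N := (1 + t • M)⁻¹ * M with hN
  have hmul : (1 + t • M) * N = M := by
    rw [hN, ← Matrix.mul_assoc, Matrix.mul_nonsing_inv _ (isUnit_iff_ne_zero.2 ht), one_mul]
  have h1 : (fun s : ℝ => (1 + s • M).det) =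
      fun s : ℝ => (1 + t • M).det * Polynomial.eval (s - t)
        (Matrix.det (1 + (Polynomial.X : Polynomial ℝ) • N.map Polynomial.C)) := by
    funext s
    rw [eval_det_one_add, ← Matrix.det_mul]
    congr 1
    rw [mul_add, mul_one, Matrix.mul_smul, hmul, add_assoc, ← add_smul]
    congr 2
    ring
  rw [h1]
  have h2 := (Matrix.det (1 + (Polynomial.X : Polynomial ℝ) • N.map Polynomial.C)).hasDerivAt (t - t)
  have h3 : HasDerivAt (fun s : ℝ => s - t) 1 t := (hasDerivAt_id t).sub_const t
  have h4 := HasDerivAt.comp (h := fun s : ℝ => s - t) t h2 h3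
  have h5 : Polynomial.eval (t - t) (Polynomial.derivative
      (Matrix.det (1 + (Polynomial.X : Polynomial ℝ) • N.map Polynomial.C))) = Matrix.trace N := by
    rw [sub_self]
    exact Matrix.derivative_det_one_add_X_smul N
  rw [h5, mul_one] at h4
  exact h4.const_mul _

/-- The resolvent bound. -/
theorem res_bound (ν : Measure Z)
    (φ ψ : Fin n → Z → ℝ) (H : Z → ℝ) (hint : ∀ i j, Integrable (fun z => H z * (ψ i z * φ j z)) ν)
    (A B : Z → ℝ) (hA : ∀ z, 0 ≤ A z) (hB : ∀ z, 0 ≤ B z)
    (hK : ∀ z z', |∑ i, ψ i z * φ i z'| ≤ B z * A z')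
    (hI : Integrable (fun z => |H z| * (A z * B z)) ν)
    (h1 : ∫ z, |H z| * (A z * B z) ∂ν < 1) (M : Matrix (Fin n) (Fin n) ℝ)
    (hM : M = Matrix.of fun i j : Fin n => ∫ z, H z * (ψ i z * φ j z) ∂ν)
    {t : ℝ} (ht0 : 0 ≤ t) (ht1 : t ≤ 1) (hdet : (1 + t • M).det ≠ 0) (z z' : Z) :
    |∑ i, φ i z * ((1 + t • M)⁻¹.mulVec (fun j => ψ j z')) i| ≤
      A z * (B z' / (1 - t * ∫ z, |H z| * (A z * B z) ∂ν)) := by
  set I := ∫ z, |H z| * (A z * B z) ∂ν with hIdef
  have hI0 : 0 ≤ I := integral_nonneg fun z => by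
    have := hA z
    have := hB z
    positivity
  have htI : t * I < 1 := by nlinarith
  set c : Fin n → ℝ := (1 + t • M)⁻¹.mulVec (fun j => ψ j z') with hc
  set q : Z → ℝ := fun w => ∑ i, φ i w * c i with hq
  -- the equation for `c`
  have hceq : ∀ i, c i = ψ i z' - t * ∫ w, H w * (ψ i w * q w) ∂ν := by
    intro i
    have e1 : (1 + t • M).mulVec c = fun j => ψ j z' := by
      rw [hc, Matrix.mulVec_mulVec, Matrix.mul_nonsing_inv _ (isUnit_iff_ne_zero.2 hdet),
        Matrix.one_mulVec]
    have e2 : c i + t * (M.mulVec c) i = ψ i z' := by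
      have := congrFun e1 i
      simpa [Matrix.add_mulVec, Matrix.smul_mulVec] using this
    have e3 : (M.mulVec c) i = ∫ w, H w * (ψ i w * q w) ∂ν := by
      have : (fun w => H w * (ψ i w * q w)) = fun w => ∑ j, (H w * (ψ i w * φ j w)) * c j := by
        funext w
        simp only [hq, Finset.mul_sum]
        exact Finset.sum_congr rfl fun j _ => by ring
      rw [this, integral_finset_sum _ fun j _ => (hint i j).mul_const _]
      simp only [Matrix.mulVec, dotProduct, hM, Matrix.of_apply]
      exact Finset.sum_congr rfl fun j _ => (integral_mul_const _ _).symm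
    rw [← e3]
    linarith
  have hqint : ∀ i, Integrable (fun w => H w * (ψ i w * q w)) ν := by
    intro i
    have : (fun w => H w * (ψ i w * q w)) = fun w => ∑ j, (H w * (ψ i w * φ j w)) * c j := by
      funext w
      simp only [hq, Finset.mul_sum]
      exact Finset.sum_congr rfl fun j _ => by ring
    rw [this]
    exact integrable_finset_sum _ fun j _ => (hint i j).mul_const _
  -- `c` is a linear combination of the vectors `ψ · w`
  let U : Submodule ℝ (Fin n → ℝ) := Submodule.span ℝ (Set.range fun w : Z => fun i => ψ i w)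
  have hcU : c ∈ U := by
    by_contra hcU
    obtain ⟨ℓ, hℓ, hℓU⟩ := Submodule.exists_le_ker_of_notMem hcU
    have hψ : ∀ w, ℓ (fun i => ψ i w) = 0 := fun w =>
      LinearMap.mem_ker.1 (hℓU (Submodule.subset_span ⟨w, rfl⟩))
    apply hℓ
    have hsum : ∀ x : Fin n → ℝ, ℓ x = ∑ i, x i * ℓ (Pi.single i 1) := by
      intro x
      conv_lhs => rw [pi_eq_sum_univ' x]
      rw [map_sum]
      exact Finset.sum_congr rfl fun i _ => by rw [map_smul, smul_eq_mul]
    rw [hsum]
    have e1 : ∑ i, c i * ℓ (Pi.single i 1) = ∑ i, ψ i z' * ℓ (Pi.single i 1) -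
        t * ∑ i, (∫ w, H w * (ψ i w * q w) ∂ν) * ℓ (Pi.single i 1) := by
      rw [Finset.mul_sum, ← Finset.sum_sub_distrib]
      exact Finset.sum_congr rfl fun i _ => by rw [hceq i]; ring
    have e2 : ∑ i, (∫ w, H w * (ψ i w * q w) ∂ν) * ℓ (Pi.single i 1) = 0 := by
      have : ∀ i, (∫ w, H w * (ψ i w * q w) ∂ν) * ℓ (Pi.single i 1) =
          ∫ w, (H w * (ψ i w * q w)) * ℓ (Pi.single i 1) ∂ν := fun i =>
        (integral_mul_const _ _).symm
      simp_rw [this]
      rw [← integral_finset_sum _ fun i _ => (hqint i).mul_const _]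
      have : ∀ w, ∑ i, (H w * (ψ i w * q w)) * ℓ (Pi.single i 1) = 0 := by
        intro w
        have : ∑ i, (H w * (ψ i w * q w)) * ℓ (Pi.single i 1) =
            (H w * q w) * ∑ i, ψ i w * ℓ (Pi.single i 1) := by
          rw [Finset.mul_sum]
          exact Finset.sum_congr rfl fun i _ => by ring
        rw [this, ← hsum (fun i => ψ i w), hψ w, mul_zero]
      simp [this]
    rw [e1, e2, mul_zero, sub_zero, ← hsum (fun i => ψ i z'), hψ z']
  -- hence `q` is bounded by a multiple of `A`
  have hbdd : ∀ x ∈ U, ∃ S : ℝ, 0 ≤ S ∧ ∀ w, |∑ i, φ i w * x i| ≤ S * A w := by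
    intro x hx
    induction hx using Submodule.span_induction with
    | mem x hx =>
      obtain ⟨y, rfl⟩ := hx
      refine ⟨B y, hB y, fun w => ?_⟩
      have := hK y w
      simp only [mul_comm (ψ _ y)] at this
      exact this
    | zero => exact ⟨0, le_rfl, fun w => by simp⟩
    | add x y _ _ ihx ihy =>
      obtain ⟨S, hS, h1⟩ := ihx
      obtain ⟨T, hT, h2⟩ := ihy
      refine ⟨S + T, by positivity, fun w => ?_⟩
      have : ∑ i, φ i w * (x + y) i = ∑ i, φ i w * x i + ∑ i, φ i w * y i := by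
        rw [← Finset.sum_add_distrib]
        exact Finset.sum_congr rfl fun i _ => by rw [Pi.add_apply]; ring
      rw [this]
      calc _ ≤ |∑ i, φ i w * x i| + |∑ i, φ i w * y i| := abs_add_le _ _
        _ ≤ S * A w + T * A w := add_le_add (h1 w) (h2 w)
        _ = _ := by ring
    | smul a x _ ihx =>
      obtain ⟨S, hS, h1⟩ := ihx
      refine ⟨|a| * S, by positivity, fun w => ?_⟩
      have : ∑ i, φ i w * (a • x) i = a * ∑ i, φ i w * x i := by
        rw [Finset.mul_sum]
        exact Finset.sum_congr rfl fun i _ => by rw [Pi.smul_apply, smul_eq_mul]; ring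
      rw [this, abs_mul, mul_assoc]
      exact mul_le_mul_of_nonneg_left (h1 w) (abs_nonneg _)
  obtain ⟨S, hS0, hS⟩ := hbdd c hcU
  -- one step of the improvement
  have hstep : ∀ S : ℝ, 0 ≤ S → (∀ w, |q w| ≤ S * A w) →
      ∀ w, |q w| ≤ (B z' + t * I * S) * A w := by
    intro S hS0 hS w
    have e1 : q w = ∑ i, ψ i z' * φ i w - t * ∫ y, H y * ((∑ i, ψ i y * φ i w) * q y) ∂ν := by
      have e2 : (fun y => H y * ((∑ i, ψ i y * φ i w) * q y)) =
          fun y => ∑ i, (H y * (ψ i y * q y)) * φ i w := by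
        funext y
        rw [Finset.sum_mul, Finset.mul_sum]
        exact Finset.sum_congr rfl fun i _ => by ring
      rw [e2, integral_finset_sum _ fun i _ => (hqint i).mul_const _, Finset.mul_sum,
        ← Finset.sum_sub_distrib]
      refine Finset.sum_congr rfl fun i _ => ?_
      rw [integral_mul_const, hceq i]
      ring
    have e3 : |∫ y, H y * ((∑ i, ψ i y * φ i w) * q y) ∂ν| ≤ A w * S * I := by
      have : ‖∫ y, H y * ((∑ i, ψ i y * φ i w) * q y) ∂ν‖ ≤
          ∫ y, (A w * S) * (|H y| * (A y * B y)) ∂ν := by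
        refine norm_integral_le_of_norm_le (hI.const_mul _) (Filter.Eventually.of_forall fun y => ?_)
        rw [Real.norm_eq_abs, abs_mul, abs_mul]
        have h2 := hK y w
        have h3 := hS y
        have h4 := hA y
        have h5 := hB y
        have h6 := hA w
        calc |H y| * (|∑ i, ψ i y * φ i w| * |q y|)
            ≤ |H y| * ((B y * A w) * (S * A y)) := by
              refine mul_le_mul_of_nonneg_left ?_ (abs_nonneg _)
              exact mul_le_mul h2 h3 (abs_nonneg _) (by positivity)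
          _ = _ := by ring
      rw [integral_const_mul, Real.norm_eq_abs] at this
      exact this
    rw [e1]
    calc |∑ i, ψ i z' * φ i w - t * ∫ y, H y * ((∑ i, ψ i y * φ i w) * q y) ∂ν|
        ≤ |∑ i, ψ i z' * φ i w| + |t * ∫ y, H y * ((∑ i, ψ i y * φ i w) * q y) ∂ν| :=
          abs_sub _ _
      _ ≤ B z' * A w + t * (A w * S * I) := by
          rw [abs_mul, abs_of_nonneg ht0]
          exact add_le_add (hK _ _) (mul_le_mul_of_nonneg_left e3 ht0)
      _ = _ := by ring
  -- take the smallest bound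
  let T : Set ℝ := {S | 0 ≤ S ∧ ∀ w, |q w| ≤ S * A w}
  have hTne : T.Nonempty := ⟨S, hS0, hS⟩
  have hTbdd : BddBelow T := ⟨0, fun S hS => hS.1⟩
  set s := sInf T with hs
  have hs0 : 0 ≤ s := le_csInf hTne fun S hS => hS.1
  have hsT : ∀ w, |q w| ≤ s * A w := by
    intro w
    by_cases hw : A w = 0
    · have := hS w
      rw [hw, mul_zero] at this ⊢
      exact this
    · have hw' : 0 < A w := lt_of_le_of_ne (hA w) (Ne.symm hw)
      rw [← div_le_iff₀ hw']
      exact le_csInf hTne fun S hS => (div_le_iff₀ hw').2 (hS.2 w)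
  have h2 : s ≤ B z' + t * I * s := by
    refine csInf_le hTbdd ⟨?_, hstep s hs0 hsT⟩
    have := hB z'
    positivity
  have h3 : s ≤ B z' / (1 - t * I) := by
    rw [le_div_iff₀ (by linarith)]
    linarith
  calc |q z| ≤ s * A z := hsT z
    _ ≤ B z' / (1 - t * I) * A z := mul_le_mul_of_nonneg_right h3 (hA z)
    _ = _ := by ring

end NewtonDet

open NewtonDet in
theorem det_one_add_bound {n : ℕ} {Z : Type*} [MeasurableSpace Z] (ν : Measure Z)
    (φ ψ : Fin n → Z → ℝ) (H : Z → ℝ) (hint : ∀ i j, Integrable (fun z => H z * (ψ i z * φ j z)) ν)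
    (A B : Z → ℝ) (hA : ∀ z, 0 ≤ A z) (hB : ∀ z, 0 ≤ B z)
    (hK : ∀ z z', |∑ i, ψ i z * φ i z'| ≤ B z * A z')
    (hI : Integrable (fun z => |H z| * (A z * B z)) ν)
    (h1 : ∫ z, |H z| * (A z * B z) ∂ν < 1) :
    |Matrix.det (1 + Matrix.of fun i j : Fin n => ∫ z, H z * (ψ i z * φ j z) ∂ν)| ≤
      1 / (1 - ∫ z, |H z| * (A z * B z) ∂ν) := by
  set M : Matrix (Fin n) (Fin n) ℝ := Matrix.of fun i j : Fin n => ∫ z, H z * (ψ i z * φ j z) ∂ν
    with hM
  set I := ∫ z, |H z| * (A z * B z) ∂ν with hIdef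
  have hI0 : 0 ≤ I := integral_nonneg fun z => by
    have := hA z
    have := hB z
    positivity
  -- the trace bound
  have htr : ∀ t : ℝ, 0 ≤ t → t ≤ 1 → (1 + t • M).det ≠ 0 →
      |Matrix.trace ((1 + t • M)⁻¹ * M)| ≤ I / (1 - t * I) := by
    intro t ht0 ht1 hdet
    have htI : t * I < 1 := by nlinarith
    set P := (1 + t • M)⁻¹ with hP
    have hint2 : ∀ i j, Integrable (fun z => P i j * (H z * (ψ j z * φ i z))) ν := fun i j =>
      (hint j i).const_mul _
    have e1 : Matrix.trace (P * M) = ∫ z, H z * ∑ i, φ i z * (P.mulVec (fun j => ψ j z)) i ∂ν := by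
      have e2 : (fun z => H z * ∑ i, φ i z * (P.mulVec (fun j => ψ j z)) i) =
          fun z => ∑ i, ∑ j, P i j * (H z * (ψ j z * φ i z)) := by
        funext z
        rw [Finset.mul_sum]
        refine Finset.sum_congr rfl fun i _ => ?_
        simp only [Matrix.mulVec, dotProduct, Finset.mul_sum]
        exact Finset.sum_congr rfl fun j _ => by ring
      rw [e2, integral_finset_sum _ fun i _ => integrable_finset_sum _ fun j _ => hint2 i j]
      simp only [Matrix.trace, Matrix.diag, Matrix.mul_apply]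
      refine Finset.sum_congr rfl fun i _ => ?_
      rw [integral_finset_sum _ fun j _ => hint2 i j]
      refine Finset.sum_congr rfl fun j _ => ?_
      rw [integral_const_mul, hM, Matrix.of_apply]
    rw [e1]
    have : ‖∫ z, H z * ∑ i, φ i z * (P.mulVec (fun j => ψ j z)) i ∂ν‖ ≤
        ∫ z, (1 / (1 - t * I)) * (|H z| * (A z * B z)) ∂ν := by
      refine norm_integral_le_of_norm_le (hI.const_mul _) (Filter.Eventually.of_forall fun z => ?_)
      rw [Real.norm_eq_abs, abs_mul]
      have h2 := res_bound ν φ ψ H hint A B hA hB hK hI h1 M hM ht0 ht1 hdet z z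
      calc |H z| * |∑ i, φ i z * (P.mulVec (fun j => ψ j z)) i|
          ≤ |H z| * (A z * (B z / (1 - t * I))) := mul_le_mul_of_nonneg_left h2 (abs_nonneg _)
        _ = _ := by ring
    rw [integral_const_mul, Real.norm_eq_abs] at this
    calc _ ≤ 1 / (1 - t * I) * I := this
      _ = _ := by ring
  -- the polynomial `D`
  set D : Polynomial ℝ := Matrix.det (1 + (Polynomial.X : Polynomial ℝ) • M.map Polynomial.C) with hD
  have hDe : ∀ t, D.eval t = (1 + t • M).det := fun t => eval_det_one_add M t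
  have hD0 : D.eval 0 = 1 := by rw [hDe]; simp
  have hDne : D ≠ 0 := by
    intro h
    rw [h] at hD0
    simp at hD0
  have hder : ∀ t ∈ Set.Icc (0 : ℝ) 1, D.eval t ≠ 0 →
      |D.derivative.eval t| * (1 - t * I) ≤ I * |D.eval t| := by
    intro t ht hne
    have htI : t * I < 1 := by nlinarith [ht.1, ht.2]
    have hne' : (1 + t • M).det ≠ 0 := by rw [← hDe]; exact hne
    have h2 := hasDerivAt_det M t hne'
    have h3 := D.hasDerivAt t
    have h4 : (fun s : ℝ => (1 + s • M).det) = fun s => D.eval s := by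
      funext s; rw [hDe]
    rw [h4] at h2
    have h5 := h3.unique h2
    rw [h5, abs_mul, ← hDe]
    have h6 := htr t ht.1 ht.2 hne'
    rw [le_div_iff₀ (by linarith)] at h6
    calc _ = |D.eval t| * (|Matrix.trace ((1 + t • M)⁻¹ * M)| * (1 - t * I)) := by ring
      _ ≤ |D.eval t| * I := mul_le_mul_of_nonneg_left h6 (abs_nonneg _)
      _ = _ := by ring
  have hder2 : ∀ t ∈ Set.Icc (0 : ℝ) 1, |D.derivative.eval t| * (1 - t * I) ≤ I * |D.eval t| := by
    -- the set of nonzeros in the open interval is dense in the closed interval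
    have hcl : IsClosed {t : ℝ | |D.derivative.eval t| * (1 - t * I) ≤ I * |D.eval t|} := by
      apply isClosed_le
      · fun_prop
      · fun_prop
    have hsub : Set.Icc (0:ℝ) 1 ⊆ closure (Set.Ioo (0:ℝ) 1 \ (D.roots.toFinset : Set ℝ)) := by
      have h2 : Dense ((D.roots.toFinset : Set ℝ)ᶜ) := (Finset.countable_toSet _).dense_compl ℝ
      have h3 := h2.open_subset_closure_inter (isOpen_Ioo (a := (0:ℝ)) (b := 1))
      have h4 : closure (Set.Ioo (0:ℝ) 1) = Set.Icc 0 1 := closure_Ioo (by norm_num)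
      rw [← h4]
      refine closure_minimal ?_ isClosed_closure
      rw [Set.diff_eq]
      exact h3
    intro t ht
    refine (hcl.closure_subset_iff.2 ?_) (hsub ht)
    rintro s ⟨hs1, hs2⟩
    apply hder s ⟨hs1.1.le, hs1.2.le⟩
    intro h0
    apply hs2
    simp only [Finset.mem_coe, Multiset.mem_toFinset]
    exact (Polynomial.mem_roots hDne).2 h0
  -- the function `D² (1 - tI)²` decreases
  have hanti : AntitoneOn (fun t : ℝ => (D.eval t) ^ 2 * (1 - t * I) ^ 2) (Set.Icc 0 1) := by
    have hd : ∀ t : ℝ, HasDerivAt (fun t : ℝ => (D.eval t) ^ 2 * (1 - t * I) ^ 2)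
        ((2 * D.eval t * D.derivative.eval t) * (1 - t * I) ^ 2 +
          (D.eval t) ^ 2 * (2 * (1 - t * I) * (-I))) t := by
      intro t
      have h2 := (D.hasDerivAt t).fun_pow 2
      have h3 : HasDerivAt (fun t : ℝ => 1 - t * I) (-I) t := by
        have := ((hasDerivAt_id t).mul_const I).const_sub 1
        simpa using this
      have h4 := h3.fun_pow 2
      refine (h2.fun_mul h4).congr_deriv ?_
      push_cast
      ring
    apply antitoneOn_of_deriv_nonpos (convex_Icc 0 1)
    · exact fun t _ => (hd t).continuousAt.continuousWithinAt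
    · exact fun t _ => (hd t).differentiableAt.differentiableWithinAt
    · intro t ht
      rw [interior_Icc] at ht
      rw [(hd t).deriv]
      have htI : t * I < 1 := by nlinarith [ht.1, ht.2]
      have h2 := hder2 t ⟨ht.1.le, ht.2.le⟩
      have h3 : D.eval t * D.derivative.eval t * (1 - t * I) ≤ I * (D.eval t) ^ 2 := by
        calc D.eval t * D.derivative.eval t * (1 - t * I)
            ≤ |D.eval t * D.derivative.eval t| * (1 - t * I) :=
              mul_le_mul_of_nonneg_right (le_abs_self _) (by linarith)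
          _ = |D.eval t| * (|D.derivative.eval t| * (1 - t * I)) := by rw [abs_mul]; ring
          _ ≤ |D.eval t| * (I * |D.eval t|) := mul_le_mul_of_nonneg_left h2 (abs_nonneg _)
          _ = I * (|D.eval t| * |D.eval t|) := by ring
          _ = _ := by rw [abs_mul_abs_self]; ring
      have h4 : 0 < 1 - t * I := by linarith
      nlinarith
  have h2 := hanti (Set.left_mem_Icc.2 zero_le_one) (Set.right_mem_Icc.2 zero_le_one) zero_le_one
  simp only [hD0, zero_mul, sub_zero, one_pow, one_mul, mul_one] at h2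
  have h3 : (D.eval 1) = (1 + M).det := by rw [hDe, one_smul]
  rw [h3, ← mul_pow] at h2
  have h4 := abs_le_of_sq_le_sq' (a := (1 + M).det * (1 - I)) (b := 1) (by simpa using h2) zero_le_one
  have h5 : |(1 + M).det * (1 - I)| ≤ 1 := abs_le.2 h4
  rw [abs_mul, abs_of_pos (show 0 < 1 - I by linarith)] at h5
  rw [le_div_iff₀ (by linarith)]
  exact h5

end Pool.Agent.H.MP_5ad92a_pr
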