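import Pool.Agent.H.MP_5ad92a_pr.Defs

/-! # The dual family `phi`: Hermite form, bounds, semigroup, biorthogonality -/

set_option autoImplicit false

noncomputable section

open MeasureTheory Filter Topology Set

namespace Pool.Agent.H.MP_5ad92a_pr

/-! ### Gaussian integrals -/

lemma gaussC {b : ℝ} (hb : 0 < b) (c d : ℂ) :
    ∫ x : ℝ, Complex.exp (-(b : ℂ) * (x : ℂ) ^ 2 + c * (x : ℂ) + d) =
      ((Real.sqrt (Real.pi / b) : ℝ) : ℂ) * Complex.exp (d + c ^ 2 / (4 * (b : ℂ))) := by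
  have h1 : ((-(b : ℂ))).re < 0 := by simpa using hb
  rw [integral_cexp_quadratic h1 c d]
  congr 1
  · rw [neg_neg, Real.sqrt_eq_rpow, Complex.ofReal_cpow (by positivity)]
    push_cast
    rfl
  · congr 1
    rw [mul_neg, div_neg, sub_neg_eq_add]

lemma gaussC_integrable {b : ℝ} (hb : 0 < b) (c d : ℂ) :
    Integrable (fun x : ℝ => Complex.exp (-(b : ℂ) * (x : ℂ) ^ 2 + c * (x : ℂ) + d)) := by
  have h1 : 0 < ((b : ℂ)).re := by simpa using hb
  exact integrable_cexp_quadratic h1 c d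

lemma gaussR {b : ℝ} (hb : 0 < b) (c d : ℝ) :
    ∫ x : ℝ, Real.exp (-b * x ^ 2 + c * x + d) =
      Real.sqrt (Real.pi / b) * Real.exp (d + c ^ 2 / (4 * b)) := by
  have h := gaussC hb (c : ℂ) (d : ℂ)
  have h2 : (fun x : ℝ => Complex.exp (-(b : ℂ) * (x : ℂ) ^ 2 + (c : ℂ) * (x : ℂ) + (d : ℂ))) =
      fun x : ℝ => ((Real.exp (-b * x ^ 2 + c * x + d) : ℝ) : ℂ) := by
    funext x
    push_cast
    rfl
  rw [h2, integral_complex_ofReal] at h
  apply Complex.ofReal_injective
  rw [h]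
  push_cast
  rfl

lemma gaussR_integrable {b : ℝ} (hb : 0 < b) (c d : ℝ) :
    Integrable (fun x : ℝ => Real.exp (-b * x ^ 2 + c * x + d)) := by
  have h := (gaussC_integrable hb (c : ℂ) (d : ℂ)).norm
  refine h.congr (Eventually.of_forall fun x => ?_)
  simp only [Complex.norm_exp]
  congr 1
  have : (-(b : ℂ) * (x : ℂ) ^ 2 + (c : ℂ) * (x : ℂ) + (d : ℂ)) =
      ((-b * x ^ 2 + c * x + d : ℝ) : ℂ) := by push_cast; rfl
  rw [this, Complex.ofReal_re]

/-! ### Polynomials against Gaussians -/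

lemma pow_le_exp_sq (m : ℕ) {c : ℝ} (hc : 0 < c) (y : ℝ) :
    |y| ^ m ≤ (1 + (m.factorial : ℝ) / c ^ m) * Real.exp (c * y ^ 2) := by
  have h1 : (c * y ^ 2) ^ m / (m.factorial : ℝ) ≤ Real.exp (c * y ^ 2) :=
    Real.pow_div_factorial_le_exp _ (by positivity) m
  have hf : (0 : ℝ) < (m.factorial : ℝ) := by exact_mod_cast m.factorial_pos
  have h2 : (y ^ 2) ^ m ≤ (m.factorial : ℝ) / c ^ m * Real.exp (c * y ^ 2) := by
    rw [mul_pow, div_le_iff₀ hf] at h1
    rw [div_mul_eq_mul_div, le_div_iff₀ (by positivity)]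
    linarith
  have h3 : (1 : ℝ) ≤ Real.exp (c * y ^ 2) := Real.one_le_exp (by positivity)
  have h4 : |y| ^ m ≤ 1 + (y ^ 2) ^ m := by
    have e : (y ^ 2) ^ m = (|y| ^ m) ^ 2 := by
      rw [← sq_abs y, ← pow_mul, ← pow_mul, mul_comm]
    rw [e]
    nlinarith [sq_nonneg (|y| ^ m - 1), sq_nonneg (|y| ^ m)]
  rw [add_mul]
  linarith

lemma poly_le_exp_sq (p : Polynomial ℝ) {c : ℝ} (hc : 0 < c) :
    ∃ C : ℝ, 0 ≤ C ∧ ∀ y, |p.eval y| ≤ C * Real.exp (c * y ^ 2) := by
  induction p using Polynomial.induction_on' with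
  | add p q hp hq =>
    obtain ⟨C, hC, h⟩ := hp
    obtain ⟨D, hD, h'⟩ := hq
    refine ⟨C + D, by positivity, fun y => ?_⟩
    rw [Polynomial.eval_add, add_mul]
    exact (abs_add_le _ _).trans (add_le_add (h y) (h' y))
  | monomial n a =>
    refine ⟨|a| * (1 + (n.factorial : ℝ) / c ^ n), by positivity, fun y => ?_⟩
    rw [Polynomial.eval_monomial, abs_mul, abs_pow, mul_assoc]
    exact mul_le_mul_of_nonneg_left (pow_le_exp_sq n hc y) (abs_nonneg _)

lemma poly_gauss_integrable (p : Polynomial ℝ) {b : ℝ} (hb : 0 < b) (c d : ℝ) :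
    Integrable (fun x : ℝ => p.eval x * Real.exp (-b * x ^ 2 + c * x + d)) := by
  obtain ⟨C, -, h⟩ := poly_le_exp_sq p (half_pos hb)
  have hi := (gaussR_integrable (half_pos hb) c d).const_mul C
  refine hi.mono' ?_ (Eventually.of_forall fun x => ?_)
  · have h1 : Continuous fun x : ℝ => p.eval x := p.continuous
    have h2 : Continuous fun x : ℝ => Real.exp (-b * x ^ 2 + c * x + d) := by fun_prop
    exact (h1.mul h2).aestronglyMeasurable
  · rw [Real.norm_eq_abs, abs_mul, Real.abs_exp]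
    calc |p.eval x| * Real.exp (-b * x ^ 2 + c * x + d)
        ≤ (C * Real.exp (b / 2 * x ^ 2)) * Real.exp (-b * x ^ 2 + c * x + d) :=
          mul_le_mul_of_nonneg_right (h x) (Real.exp_pos _).le
      _ = C * Real.exp (-(b / 2) * x ^ 2 + c * x + d) := by
          rw [mul_assoc, ← Real.exp_add]
          congr 2
          ring

/-! ### The Gaussian kernel -/

lemma gk_pos {s : ℝ} (hs : 0 < s) (x y : ℝ) : 0 < gk s x y := by
  unfold gk; positivity

lemma gk_zero_eq {s : ℝ} (y : ℝ) :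
    gk s y 0 = (Real.sqrt (2 * Real.pi * s))⁻¹ * Real.exp (-(1 / (2 * s)) * y ^ 2) := by
  unfold gk
  congr 2
  ring

lemma gk_zero_continuous (s : ℝ) : Continuous fun y => gk s y 0 := by
  unfold gk; fun_prop

lemma gk_zero_hasDerivAt {s : ℝ} (hs : 0 < s) (y : ℝ) :
    HasDerivAt (fun y => gk s y 0) (-(1 / s * y) * gk s y 0) y := by
  have h1 : HasDerivAt (fun y : ℝ => -(1 / (2 * s)) * y ^ 2) (-(1 / s * y)) y := by
    refine ((hasDerivAt_pow 2 y).const_mul (-(1 / (2 * s)))).congr_deriv ?_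
    have : s ≠ 0 := hs.ne'
    field_simp
    norm_num
  have h2 := (h1.exp).const_mul (Real.sqrt (2 * Real.pi * s))⁻¹
  have e : (fun y => gk s y 0) =
      fun y => (Real.sqrt (2 * Real.pi * s))⁻¹ * Real.exp (-(1 / (2 * s)) * y ^ 2) :=
    funext fun y => gk_zero_eq y
  rw [e]
  refine h2.congr_deriv ?_
  rw [gk_zero_eq]
  ring

/-- polynomials with (-d/dy)^j g_s = (hp s j)(y) g_s(y) -/
def hp (s : ℝ) : ℕ → Polynomial ℝ
  | 0 => 1
  | j + 1 => Polynomial.C (1 / s) * Polynomial.X * hp s j - Polynomial.derivative (hp s j)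

lemma hp_zero (s : ℝ) : hp s 0 = 1 := rfl

lemma hp_succ (s : ℝ) (j : ℕ) : hp s (j + 1) =
    Polynomial.C (1 / s) * Polynomial.X * hp s j - Polynomial.derivative (hp s j) := rfl

lemma hp_hasDerivAt {s : ℝ} (hs : 0 < s) (j : ℕ) (y : ℝ) :
    HasDerivAt (fun y => (hp s j).eval y * gk s y 0) (-((hp s (j + 1)).eval y * gk s y 0)) y := by
  have h := ((hp s j).hasDerivAt y).mul (gk_zero_hasDerivAt hs y)
  refine h.congr_deriv ?_
  rw [hp_succ]
  simp only [Polynomial.eval_sub, Polynomial.eval_mul, Polynomial.eval_C, Polynomial.eval_X]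
  ring

/-! ### The Fourier form -/

lemma fint_integrable {s : ℝ} (hs : 0 < s) (j : ℕ) (y : ℝ) :
    Integrable (fun u : ℝ => ((u : ℂ) * Complex.I) ^ j *
      Complex.exp (-((s : ℂ) * (u : ℂ) ^ 2) / 2 - (y : ℂ) * ((u : ℂ) * Complex.I))) := by
  have h := (poly_gauss_integrable (Polynomial.X ^ j) (half_pos hs) 0 0).norm
  refine h.mono' ?_ (Eventually.of_forall fun u => ?_)
  · have : Continuous (fun u : ℝ => ((u : ℂ) * Complex.I) ^ j *
      Complex.exp (-((s : ℂ) * (u : ℂ) ^ 2) / 2 - (y : ℂ) * ((u : ℂ) * Complex.I))) := by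
      fun_prop
    exact this.aestronglyMeasurable
  · rw [norm_mul, norm_pow, norm_mul, Complex.norm_I, mul_one, Complex.norm_real, norm_mul,
      Polynomial.eval_pow, Polynomial.eval_X, norm_pow, Complex.norm_exp]
    apply le_of_eq
    congr 1
    rw [Real.norm_eq_abs, Real.abs_exp]
    congr 1
    have : (-((s : ℂ) * (u : ℂ) ^ 2) / 2 - (y : ℂ) * ((u : ℂ) * Complex.I)) =
      ((-(s / 2) * u ^ 2 : ℝ) : ℂ) + ((-(y * u) : ℝ) : ℂ) * Complex.I := by
      push_cast; ring
    rw [this, Complex.add_re, Complex.ofReal_re, Complex.re_ofReal_mul, Complex.I_re]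
    ring

lemma fint_hasDerivAt {s : ℝ} (hs : 0 < s) (j : ℕ) (y : ℝ) :
    HasDerivAt (fun y : ℝ => ∫ u : ℝ, ((u : ℂ) * Complex.I) ^ j *
      Complex.exp (-((s : ℂ) * (u : ℂ) ^ 2) / 2 - (y : ℂ) * ((u : ℂ) * Complex.I)))
      (-∫ u : ℝ, ((u : ℂ) * Complex.I) ^ (j + 1) *
      Complex.exp (-((s : ℂ) * (u : ℂ) ^ 2) / 2 - (y : ℂ) * ((u : ℂ) * Complex.I))) y := by
  rw [← integral_neg]
  refine (hasDerivAt_integral_of_dominated_loc_of_deriv_le
    (F := fun (y : ℝ) (u : ℝ) => ((u : ℂ) * Complex.I) ^ j *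
      Complex.exp (-((s : ℂ) * (u : ℂ) ^ 2) / 2 - (y : ℂ) * ((u : ℂ) * Complex.I)))
    (F' := fun (y : ℝ) (u : ℝ) => -(((u : ℂ) * Complex.I) ^ (j + 1) *
      Complex.exp (-((s : ℂ) * (u : ℂ) ^ 2) / 2 - (y : ℂ) * ((u : ℂ) * Complex.I))))
    (bound := fun u : ℝ => ‖((u : ℂ) * Complex.I) ^ (j + 1) *
      Complex.exp (-((s : ℂ) * (u : ℂ) ^ 2) / 2 - (((0:ℝ)) : ℂ) * ((u : ℂ) * Complex.I))‖)
    (Filter.univ_mem : (univ : Set ℝ) ∈ 𝓝 y) ?_ (fint_integrable hs j y) ?_ ?_
    (fint_integrable hs (j + 1) 0).norm ?_).2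
  · refine Eventually.of_forall fun x => ?_
    exact (fint_integrable hs j x).aestronglyMeasurable
  · exact ((fint_integrable hs (j + 1) y).neg).aestronglyMeasurable
  · refine Eventually.of_forall fun u x _ => ?_
    rw [norm_neg, norm_mul, norm_mul, Complex.norm_exp, Complex.norm_exp]
    apply le_of_eq
    congr 2
    have h1 : ∀ t : ℝ, (-((s : ℂ) * (u : ℂ) ^ 2) / 2 - (t : ℂ) * ((u : ℂ) * Complex.I)) =
      ((-(s / 2) * u ^ 2 : ℝ) : ℂ) + ((-(t * u) : ℝ) : ℂ) * Complex.I := by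
      intro t; push_cast; ring
    rw [h1, h1, Complex.add_re, Complex.add_re, Complex.re_ofReal_mul, Complex.re_ofReal_mul,
      Complex.I_re, mul_zero, mul_zero]
  · refine Eventually.of_forall fun u x _ => ?_
    have h1 : HasDerivAt (fun x : ℝ => (x : ℂ)) 1 x := Complex.ofRealCLM.hasDerivAt
    have h2 : HasDerivAt (fun x : ℝ => -((s : ℂ) * (u : ℂ) ^ 2) / 2 - (x : ℂ) * ((u : ℂ) * Complex.I))
        (-((u : ℂ) * Complex.I)) x := by
      have := (h1.mul_const ((u : ℂ) * Complex.I)).const_sub (-((s : ℂ) * (u : ℂ) ^ 2) / 2)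
      simpa using this
    have h3 := (h2.cexp).const_mul (((u : ℂ) * Complex.I) ^ j)
    refine h3.congr_deriv ?_
    ring

theorem fourier_mono {s : ℝ} (hs : 0 < s) (j : ℕ) (y : ℝ) :
    (1 / (2 * Real.pi) : ℂ) * ∫ u : ℝ, ((u : ℂ) * Complex.I) ^ j *
      Complex.exp (-((s : ℂ) * (u : ℂ) ^ 2) / 2 - (y : ℂ) * ((u : ℂ) * Complex.I)) =
      (((hp s j).eval y * gk s y 0 : ℝ) : ℂ) := by
  induction j generalizing y with
  | zero =>
    have h1 : (fun u : ℝ => ((u : ℂ) * Complex.I) ^ 0 *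
      Complex.exp (-((s : ℂ) * (u : ℂ) ^ 2) / 2 - (y : ℂ) * ((u : ℂ) * Complex.I))) =
      fun u : ℝ => Complex.exp (-((s / 2 : ℝ) : ℂ) * (u : ℂ) ^ 2 +
        (-((y : ℂ) * Complex.I)) * (u : ℂ) + 0) := by
      funext u
      rw [pow_zero, one_mul]
      congr 1
      push_cast
      ring
    rw [h1, gaussC (half_pos hs), hp_zero, gk_zero_eq, Polynomial.eval_one, one_mul]
    have h2 : (0 + (-((y : ℂ) * Complex.I)) ^ 2 / (4 * ((s / 2 : ℝ) : ℂ))) =
        ((-(1 / (2 * s)) * y ^ 2 : ℝ) : ℂ) := by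
      have hs' : (s : ℂ) ≠ 0 := by exact_mod_cast hs.ne'
      rw [neg_sq, mul_pow, Complex.I_sq]
      push_cast
      field_simp
      ring
    have h3 : (1 / (2 * Real.pi)) * Real.sqrt (Real.pi / (s / 2)) =
        (Real.sqrt (2 * Real.pi * s))⁻¹ := by
      have hpi := Real.pi_pos
      have e1 : Real.pi / (s / 2) = (2 * Real.pi) ^ 2 / (2 * Real.pi * s) := by
        field_simp
      rw [e1, Real.sqrt_div (by positivity), Real.sqrt_sq (by positivity)]
      field_simp
    rw [h2, ← mul_assoc, ← h3]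
    push_cast
    ring
  | succ j ih =>
    have h1 := fint_hasDerivAt hs j y
    have h2 := (h1.const_mul (1 / (2 * Real.pi) : ℂ))
    have h3 : (fun y : ℝ => (1 / (2 * Real.pi) : ℂ) * ∫ u : ℝ, ((u : ℂ) * Complex.I) ^ j *
      Complex.exp (-((s : ℂ) * (u : ℂ) ^ 2) / 2 - (y : ℂ) * ((u : ℂ) * Complex.I))) =
      fun y : ℝ => (((hp s j).eval y * gk s y 0 : ℝ) : ℂ) := funext fun y => ih y
    rw [h3] at h2
    have h4 := (hp_hasDerivAt hs j y).ofReal_comp
    have h5 := h2.unique h4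
    rw [mul_neg] at h5
    have h6 := neg_injective (h5.trans (by push_cast; ring :
      ((-((hp s (j + 1)).eval y * gk s y 0) : ℝ) : ℂ) =
        -((((hp s (j + 1)).eval y * gk s y 0 : ℝ)) : ℂ)))
    exact h6

/-! ### Lagrange polynomials -/

lemma basis_natDegree_lt {n : ℕ} (a : Fin n → ℝ) (k : Fin n) :
    (Lagrange.basis Finset.univ a k).natDegree < n := by
  have h1 : (Lagrange.basis Finset.univ a k).natDegree ≤ (Finset.univ.erase k).card • 1 := by
    unfold Lagrange.basis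
    refine (Polynomial.natDegree_prod_le _ _).trans ?_
    refine Finset.sum_le_card_nsmul _ _ _ fun j _ => ?_
    unfold Lagrange.basisDivisor
    refine (Polynomial.natDegree_C_mul_le _ _).trans ?_
    exact (Polynomial.natDegree_X_sub_C _).le
  have h2 : (Finset.univ.erase k).card = n - 1 := by
    rw [Finset.card_erase_of_mem (Finset.mem_univ k), Finset.card_univ, Fintype.card_fin]
  have h3 : 0 < n := k.pos
  rw [h2, smul_eq_mul, mul_one] at h1
  omega

lemma lag_eq_aeval {n : ℕ} (a : Fin n → ℝ) (k : Fin n) (w : ℂ) :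
    lag a k w = Polynomial.aeval w (Lagrange.basis Finset.univ a k) := by
  unfold lag Lagrange.basis
  rw [map_prod]
  refine Finset.prod_congr rfl fun j _ => ?_
  unfold Lagrange.basisDivisor
  rw [map_mul, map_sub, Polynomial.aeval_C, Polynomial.aeval_C, Polynomial.aeval_X]
  simp only [Complex.coe_algebraMap]
  push_cast
  rw [div_eq_inv_mul]

lemma lag_eq_sum {n : ℕ} (a : Fin n → ℝ) (k : Fin n) (w : ℂ) :
    lag a k w = ∑ j ∈ Finset.range n, ((Lagrange.basis Finset.univ a k).coeff j : ℂ) * w ^ j := by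
  rw [lag_eq_aeval, Polynomial.aeval_eq_sum_range' (basis_natDegree_lt a k)]
  refine Finset.sum_congr rfl fun j _ => ?_
  rw [Complex.real_smul]

lemma phi_aux {n : ℕ} (a : Fin n → ℝ) {s : ℝ} (hs : 0 < s) (k : Fin n) (y : ℝ) :
    (1 / (2 * Real.pi) : ℂ) * ∫ u : ℝ, lag a k ((u : ℂ) * Complex.I) *
      Complex.exp (-((s : ℂ) * (u : ℂ) ^ 2) / 2 - (y : ℂ) * ((u : ℂ) * Complex.I)) =
    ((∑ j ∈ Finset.range n, (Lagrange.basis Finset.univ a k).coeff j * (hp s j).eval y *
      gk s y 0 : ℝ) : ℂ) := by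
  have h1 : (fun u : ℝ => lag a k ((u : ℂ) * Complex.I) *
      Complex.exp (-((s : ℂ) * (u : ℂ) ^ 2) / 2 - (y : ℂ) * ((u : ℂ) * Complex.I))) =
      fun u : ℝ => ∑ j ∈ Finset.range n, ((Lagrange.basis Finset.univ a k).coeff j : ℂ) *
        (((u : ℂ) * Complex.I) ^ j *
      Complex.exp (-((s : ℂ) * (u : ℂ) ^ 2) / 2 - (y : ℂ) * ((u : ℂ) * Complex.I))) := by
    funext u
    rw [lag_eq_sum, Finset.sum_mul]
    refine Finset.sum_congr rfl fun j _ => ?_
    ring
  rw [h1, integral_finsetSum _ (fun j _ => (fint_integrable hs j y).const_mul _),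
    Finset.mul_sum, Complex.ofReal_sum]
  refine Finset.sum_congr rfl fun j _ => ?_
  rw [integral_const_mul, mul_left_comm, fourier_mono hs j y]
  push_cast
  ring

theorem phi_eq_sum {n : ℕ} (a : Fin n → ℝ) {s : ℝ} (hs : 0 < s) (k : Fin n) (y : ℝ) :
    phi a s k y = ∑ j ∈ Finset.range n, (Lagrange.basis Finset.univ a k).coeff j *
      (hp s j).eval y * gk s y 0 := by
  unfold phi
  rw [phi_aux a hs k y, Complex.ofReal_re]

theorem phi_eq {n : ℕ} (a : Fin n → ℝ) {s : ℝ} (hs : 0 < s) (k : Fin n) (y : ℝ) :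
    ((phi a s k y : ℝ) : ℂ) = (1 / (2 * Real.pi) : ℂ) * ∫ u : ℝ, lag a k ((u : ℂ) * Complex.I) *
      Complex.exp (-((s : ℂ) * (u : ℂ) ^ 2) / 2 - (y : ℂ) * ((u : ℂ) * Complex.I)) := by
  rw [phi_eq_sum a hs k y, phi_aux a hs k y]

theorem phi_continuous {n : ℕ} (a : Fin n → ℝ) {s : ℝ} (hs : 0 < s) (k : Fin n) :
    Continuous (phi a s k) := by
  have e : phi a s k = fun y => ∑ j ∈ Finset.range n,
      (Lagrange.basis Finset.univ a k).coeff j * (hp s j).eval y * gk s y 0 :=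
    funext fun y => phi_eq_sum a hs k y
  rw [e]
  refine continuous_finsetSum _ fun j _ => ?_
  exact (continuous_const.mul (hp s j).continuous).mul (gk_zero_continuous s)

/-- `phi` as a polynomial times the Gaussian. -/
def phiPoly {n : ℕ} (a : Fin n → ℝ) (s : ℝ) (k : Fin n) : Polynomial ℝ :=
  ∑ j ∈ Finset.range n, Polynomial.C ((Lagrange.basis Finset.univ a k).coeff j) * hp s j

lemma phi_eq_poly {n : ℕ} (a : Fin n → ℝ) {s : ℝ} (hs : 0 < s) (k : Fin n) (y : ℝ) :
    phi a s k y = (phiPoly a s k).eval y * gk s y 0 := by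
  rw [phi_eq_sum a hs k y, phiPoly, Polynomial.eval_finsetSum, Finset.sum_mul]
  refine Finset.sum_congr rfl fun j _ => ?_
  rw [Polynomial.eval_mul, Polynomial.eval_C]

theorem phi_bound {n : ℕ} (a : Fin n → ℝ) {s : ℝ} (hs : 0 < s) (k : Fin n) :
    ∃ C : ℝ, ∀ y, |phi a s k y| ≤ C * Real.exp (-y ^ 2 / (4 * s)) := by
  obtain ⟨C, hC, h⟩ := poly_le_exp_sq (phiPoly a s k) (c := 1 / (4 * s)) (by positivity)
  refine ⟨C * (Real.sqrt (2 * Real.pi * s))⁻¹, fun y => ?_⟩
  rw [phi_eq_poly a hs k y, abs_mul, abs_of_pos (gk_pos hs y 0), gk_zero_eq]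
  calc |(phiPoly a s k).eval y| * ((Real.sqrt (2 * Real.pi * s))⁻¹ *
        Real.exp (-(1 / (2 * s)) * y ^ 2))
      ≤ (C * Real.exp (1 / (4 * s) * y ^ 2)) * ((Real.sqrt (2 * Real.pi * s))⁻¹ *
        Real.exp (-(1 / (2 * s)) * y ^ 2)) :=
        mul_le_mul_of_nonneg_right (h y) (by positivity)
    _ = C * (Real.sqrt (2 * Real.pi * s))⁻¹ *
        (Real.exp (1 / (4 * s) * y ^ 2) * Real.exp (-(1 / (2 * s)) * y ^ 2)) := by ring
    _ = C * (Real.sqrt (2 * Real.pi * s))⁻¹ * Real.exp (-y ^ 2 / (4 * s)) := by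
        rw [← Real.exp_add]
        congr 2
        field_simp
        ring

/-! ### Semigroup properties -/

lemma gk_expand {h : ℝ} (hh : 0 < h) (x y : ℝ) :
    gk h x y = (Real.sqrt (2 * Real.pi * h))⁻¹ *
      Real.exp (-(1 / (2 * h)) * y ^ 2 + (x / h) * y + (-(x ^ 2) / (2 * h))) := by
  unfold gk
  congr 2
  field_simp
  ring

lemma gk_symm (h x y : ℝ) : gk h x y = gk h y x := by
  unfold gk
  congr 2
  ring

theorem gk_semigroup {h h' : ℝ} (hh : 0 < h) (hh' : 0 < h') (x z : ℝ) :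
    ∫ y, gk h x y * gk h' y z = gk (h + h') x z := by
  have hpi := Real.pi_pos
  have hb : 0 < 1 / (2 * h) + 1 / (2 * h') := by positivity
  have h1 : (fun y : ℝ => gk h x y * gk h' y z) = fun y : ℝ =>
      ((Real.sqrt (2 * Real.pi * h))⁻¹ * (Real.sqrt (2 * Real.pi * h'))⁻¹) *
      Real.exp (-(1 / (2 * h) + 1 / (2 * h')) * y ^ 2 + (x / h + z / h') * y +
        (-(x ^ 2) / (2 * h) + -(z ^ 2) / (2 * h'))) := by
    funext y
    rw [gk_symm h' y z, gk_expand hh, gk_expand hh', mul_mul_mul_comm, ← Real.exp_add]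
    congr 2
    ring
  rw [h1, integral_const_mul, gaussR hb]
  unfold gk
  have h2 : (-(x ^ 2) / (2 * h) + -(z ^ 2) / (2 * h')) +
      (x / h + z / h') ^ 2 / (4 * (1 / (2 * h) + 1 / (2 * h'))) =
      -(x - z) ^ 2 / (2 * (h + h')) := by
    field_simp
    ring
  rw [h2, ← mul_assoc]
  congr 1
  have h3 : Real.pi / (1 / (2 * h) + 1 / (2 * h')) =
      ((2 * Real.pi * h) * (2 * Real.pi * h')) / (2 * Real.pi * (h + h')) := by
    field_simp
    ring
  rw [h3, Real.sqrt_div (by positivity),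
    Real.sqrt_mul (show (0 : ℝ) ≤ 2 * Real.pi * h by positivity) (2 * Real.pi * h')]
  have p1 : Real.sqrt (2 * Real.pi * h) ≠ 0 := by positivity
  have p2 : Real.sqrt (2 * Real.pi * h') ≠ 0 := by positivity
  generalize Real.sqrt (2 * Real.pi * h) = A at *
  generalize Real.sqrt (2 * Real.pi * h') = B at *
  generalize Real.sqrt (2 * Real.pi * (h + h')) = D at *
  field_simp

theorem psi_semigroup {n : ℕ} (a : Fin n → ℝ) {h : ℝ} (s : ℝ) (hh : 0 < h) (k : Fin n)
    (x : ℝ) : ∫ y, gk h x y * psi a (s + h) k y = psi a s k x := by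
  have hpi := Real.pi_pos
  have hb : 0 < 1 / (2 * h) := by positivity
  have h1 : (fun y : ℝ => gk h x y * psi a (s + h) k y) = fun y : ℝ =>
      (Real.sqrt (2 * Real.pi * h))⁻¹ *
      Real.exp (-(1 / (2 * h)) * y ^ 2 + (x / h + a k) * y +
        (-(x ^ 2) / (2 * h) - (a k) ^ 2 * (s + h) / 2)) := by
    funext y
    rw [gk_expand hh, psi, mul_assoc, ← Real.exp_add]
    congr 2
    ring
  rw [h1, integral_const_mul, gaussR hb, ← mul_assoc]
  have h2 : (Real.sqrt (2 * Real.pi * h))⁻¹ * Real.sqrt (Real.pi / (1 / (2 * h))) = 1 := by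
    have e : Real.pi / (1 / (2 * h)) = 2 * Real.pi * h := by
      field_simp
    rw [e]
    have p1 : Real.sqrt (2 * Real.pi * h) ≠ 0 := by positivity
    field_simp
  rw [h2, one_mul, psi]
  congr 1
  field_simp
  ring

lemma lag_gauss_integrable {n : ℕ} (a : Fin n → ℝ) {s : ℝ} (hs : 0 < s) (k : Fin n) (y : ℝ) :
    Integrable (fun u : ℝ => lag a k ((u : ℂ) * Complex.I) *
      Complex.exp (-((s : ℂ) * (u : ℂ) ^ 2) / 2 - (y : ℂ) * ((u : ℂ) * Complex.I))) := by
  have h1 : (fun u : ℝ => lag a k ((u : ℂ) * Complex.I) *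
      Complex.exp (-((s : ℂ) * (u : ℂ) ^ 2) / 2 - (y : ℂ) * ((u : ℂ) * Complex.I))) =
      fun u : ℝ => ∑ j ∈ Finset.range n, ((Lagrange.basis Finset.univ a k).coeff j : ℂ) *
        (((u : ℂ) * Complex.I) ^ j *
      Complex.exp (-((s : ℂ) * (u : ℂ) ^ 2) / 2 - (y : ℂ) * ((u : ℂ) * Complex.I))) := by
    funext u
    rw [lag_eq_sum, Finset.sum_mul]
    refine Finset.sum_congr rfl fun j _ => ?_
    ring
  rw [h1]
  exact integrable_finsetSum _ (fun j _ => (fint_integrable hs j y).const_mul _)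

lemma gk_integrable {h : ℝ} (hh : 0 < h) (y : ℝ) : Integrable (fun x => gk h x y) := by
  have hb : 0 < 1 / (2 * h) := by positivity
  have e : (fun x => gk h x y) = fun x => (Real.sqrt (2 * Real.pi * h))⁻¹ *
      Real.exp (-(1 / (2 * h)) * x ^ 2 + (y / h) * x + (-(y ^ 2) / (2 * h))) := by
    funext x
    rw [gk_symm, gk_expand hh]
  rw [e]
  exact (gaussR_integrable hb _ _).const_mul _

lemma gk_fourier {h : ℝ} (hh : 0 < h) (y u : ℝ) :
    ∫ x : ℝ, Complex.exp (-((x : ℂ) * ((u : ℂ) * Complex.I))) * ((gk h x y : ℝ) : ℂ) =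
      Complex.exp (-((h : ℂ) * (u : ℂ) ^ 2) / 2 - (y : ℂ) * ((u : ℂ) * Complex.I)) := by
  have hpi := Real.pi_pos
  have hb : 0 < 1 / (2 * h) := by positivity
  have hh' : (h : ℂ) ≠ 0 := by exact_mod_cast hh.ne'
  have e : (fun x : ℝ => Complex.exp (-((x : ℂ) * ((u : ℂ) * Complex.I))) *
      ((gk h x y : ℝ) : ℂ)) = fun x : ℝ => (((Real.sqrt (2 * Real.pi * h))⁻¹ : ℝ) : ℂ) *
      Complex.exp (-((1 / (2 * h) : ℝ) : ℂ) * (x : ℂ) ^ 2 +
        ((y : ℂ) / (h : ℂ) - (u : ℂ) * Complex.I) * (x : ℂ) + (-((y : ℂ) ^ 2) / (2 * (h : ℂ)))) := by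
    funext x
    rw [gk_symm, gk_expand hh, Complex.ofReal_mul, Complex.ofReal_exp, mul_left_comm,
      ← Complex.exp_add]
    congr 2
    push_cast
    ring
  rw [e, integral_const_mul, gaussC hb, ← mul_assoc, ← Complex.ofReal_mul]
  have h2 : (Real.sqrt (2 * Real.pi * h))⁻¹ * Real.sqrt (Real.pi / (1 / (2 * h))) = 1 := by
    have e : Real.pi / (1 / (2 * h)) = 2 * Real.pi * h := by
      field_simp
    rw [e]
    have p1 : Real.sqrt (2 * Real.pi * h) ≠ 0 := by positivity
    field_simp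
  rw [h2, Complex.ofReal_one, one_mul]
  congr 1
  have hI := Complex.I_sq
  push_cast
  field_simp
  ring_nf
  rw [hI]
  ring

theorem phi_semigroup {n : ℕ} (a : Fin n → ℝ) {s h : ℝ} (hs : 0 < s) (hh : 0 < h) (k : Fin n)
    (y : ℝ) : ∫ x, phi a s k x * gk h x y = phi a (s + h) k y := by
  apply Complex.ofReal_injective
  rw [← integral_complex_ofReal, phi_eq a (add_pos hs hh) k y]
  have e1 : (fun x : ℝ => ((phi a s k x * gk h x y : ℝ) : ℂ)) = fun x : ℝ =>
      (1 / (2 * Real.pi) : ℂ) * ∫ u : ℝ, (lag a k ((u : ℂ) * Complex.I) *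
      Complex.exp (-((s : ℂ) * (u : ℂ) ^ 2) / 2 - ((0 : ℝ) : ℂ) * ((u : ℂ) * Complex.I))) *
      (Complex.exp (-((x : ℂ) * ((u : ℂ) * Complex.I))) * ((gk h x y : ℝ) : ℂ)) := by
    funext x
    rw [Complex.ofReal_mul, phi_eq a hs k x, mul_assoc, ← integral_mul_const]
    congr 2
    funext u
    rw [mul_assoc, mul_assoc, ← mul_assoc (Complex.exp _) (Complex.exp _) _, ← Complex.exp_add]
    congr 3
    push_cast
    ring
  rw [e1, integral_const_mul]
  congr 1
  have hint : Integrable (Function.uncurry fun (x : ℝ) (u : ℝ) =>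
      (lag a k ((u : ℂ) * Complex.I) *
      Complex.exp (-((s : ℂ) * (u : ℂ) ^ 2) / 2 - ((0 : ℝ) : ℂ) * ((u : ℂ) * Complex.I))) *
      (Complex.exp (-((x : ℂ) * ((u : ℂ) * Complex.I))) * ((gk h x y : ℝ) : ℂ)))
      ((volume : Measure ℝ).prod volume) := by
    have hp := (gk_integrable hh y).ofReal (𝕜 := ℂ) |>.mul_prod (lag_gauss_integrable a hs k 0)
    refine hp.norm.mono' ?_ (Eventually.of_forall fun z => ?_)
    · have hc1 : Continuous fun w : ℂ => lag a k w := by
        have : (fun w : ℂ => lag a k w) = fun w => ∑ j ∈ Finset.range n,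
          ((Lagrange.basis Finset.univ a k).coeff j : ℂ) * w ^ j := funext fun w => lag_eq_sum a k w
        rw [this]
        fun_prop
      have hc2 : Continuous fun x : ℝ => gk h x y := by unfold gk; fun_prop
      apply Continuous.aestronglyMeasurable
      unfold Function.uncurry
      have hc3 : Continuous fun z : ℝ × ℝ => lag a k ((z.2 : ℂ) * Complex.I) :=
        hc1.comp (by fun_prop)
      have hc4 : Continuous fun z : ℝ × ℝ => ((gk h z.1 y : ℝ) : ℂ) :=
        Complex.continuous_ofReal.comp (hc2.comp continuous_fst)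
      exact (hc3.mul (by fun_prop)).mul ((by fun_prop : Continuous fun z : ℝ × ℝ =>
        Complex.exp (-((z.1 : ℂ) * ((z.2 : ℂ) * Complex.I)))).mul hc4)
    · obtain ⟨x, u⟩ := z
      simp only [Function.uncurry]
      rw [norm_mul _ (Complex.exp (-((x : ℂ) * ((u : ℂ) * Complex.I))) * ((gk h x y : ℝ) : ℂ)),
        norm_mul (Complex.exp (-((x : ℂ) * ((u : ℂ) * Complex.I)))) _]
      have : ‖Complex.exp (-((x : ℂ) * ((u : ℂ) * Complex.I)))‖ = 1 := by
        have e : (-((x : ℂ) * ((u : ℂ) * Complex.I))) = ((-(x * u) : ℝ) : ℂ) * Complex.I := by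
          push_cast; ring
        rw [e, Complex.norm_exp_ofReal_mul_I]
      rw [this, one_mul, mul_comm]
      exact (norm_mul _ _).symm.le
  rw [integral_integral_swap hint]
  congr 1
  funext u
  rw [integral_const_mul, gk_fourier hh y u, mul_assoc, ← Complex.exp_add]
  congr 2
  push_cast
  ring

/-! ### Biorthogonality -/

lemma hp_exp_integrable {s : ℝ} (hs : 0 < s) (p : Polynomial ℝ) (b : ℝ) :
    Integrable (fun y : ℝ => Real.exp (b * y) * (p.eval y * gk s y 0)) := by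
  have hb : 0 < 1 / (2 * s) := by positivity
  have h := (poly_gauss_integrable p hb b 0).const_mul (Real.sqrt (2 * Real.pi * s))⁻¹
  refine h.congr (Eventually.of_forall fun y => ?_)
  simp only
  rw [gk_zero_eq, Real.exp_add, Real.exp_add, Real.exp_zero]
  ring

lemma hp_laplace {s : ℝ} (hs : 0 < s) (b : ℝ) (j : ℕ) :
    ∫ y : ℝ, Real.exp (b * y) * ((hp s j).eval y * gk s y 0) =
      b ^ j * Real.exp (b ^ 2 * s / 2) := by
  induction j with
  | zero =>
    have hpi := Real.pi_pos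
    have hb : 0 < 1 / (2 * s) := by positivity
    have e : (fun y : ℝ => Real.exp (b * y) * ((hp s 0).eval y * gk s y 0)) = fun y : ℝ =>
        (Real.sqrt (2 * Real.pi * s))⁻¹ * Real.exp (-(1 / (2 * s)) * y ^ 2 + b * y + 0) := by
      funext y
      rw [hp_zero, Polynomial.eval_one, one_mul, gk_zero_eq, add_zero, Real.exp_add]
      ring
    rw [e, integral_const_mul, gaussR hb, ← mul_assoc]
    have h2 : (Real.sqrt (2 * Real.pi * s))⁻¹ * Real.sqrt (Real.pi / (1 / (2 * s))) = 1 := by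
      have e : Real.pi / (1 / (2 * s)) = 2 * Real.pi * s := by
        field_simp
      rw [e]
      have p1 : Real.sqrt (2 * Real.pi * s) ≠ 0 := by positivity
      field_simp
    rw [h2, pow_zero]
    congr 2
    field_simp
    ring
  | succ j ih =>
    have hu : ∀ y : ℝ, HasDerivAt (fun y : ℝ => Real.exp (b * y)) (b * Real.exp (b * y)) y := by
      intro y
      have h1 : HasDerivAt (fun y : ℝ => b * y) b y := by
        simpa using (hasDerivAt_id y).const_mul b
      refine h1.exp.congr_deriv ?_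
      ring
    have hv := fun y => hp_hasDerivAt hs j y
    have i1 : Integrable ((fun y : ℝ => Real.exp (b * y)) *
        (fun y : ℝ => -((hp s (j + 1)).eval y * gk s y 0))) := by
      refine ((hp_exp_integrable hs (hp s (j + 1)) b).neg).congr (Eventually.of_forall fun y => ?_)
      simp only [Pi.neg_apply, Pi.mul_apply]
      ring
    have i2 : Integrable ((fun y : ℝ => b * Real.exp (b * y)) *
        (fun y : ℝ => ((hp s j).eval y * gk s y 0))) := by
      refine ((hp_exp_integrable hs (hp s j) b).const_mul b).congr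
        (Eventually.of_forall fun y => ?_)
      simp only [Pi.mul_apply]
      ring
    have i3 : Integrable ((fun y : ℝ => Real.exp (b * y)) *
        (fun y : ℝ => ((hp s j).eval y * gk s y 0))) :=
      hp_exp_integrable hs (hp s j) b
    have key := integral_mul_deriv_eq_deriv_mul_of_integrable
      (u := fun y : ℝ => Real.exp (b * y)) (u' := fun y : ℝ => b * Real.exp (b * y))
      (v := fun y : ℝ => (hp s j).eval y * gk s y 0)
      (v' := fun y : ℝ => -((hp s (j + 1)).eval y * gk s y 0))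
      (fun y _ => hu y) (fun y _ => hv y) i1 i2 i3
    have e1 : (fun y : ℝ => Real.exp (b * y) * -((hp s (j + 1)).eval y * gk s y 0)) =
        fun y : ℝ => -(Real.exp (b * y) * ((hp s (j + 1)).eval y * gk s y 0)) := by
      funext y; ring
    have e2 : (fun y : ℝ => b * Real.exp (b * y) * ((hp s j).eval y * gk s y 0)) =
        fun y : ℝ => b * (Real.exp (b * y) * ((hp s j).eval y * gk s y 0)) := by
      funext y; ring
    rw [e1, e2, integral_neg, integral_const_mul, ih] at key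
    have key2 := neg_injective key
    rw [key2]
    ring

theorem phi_psi_orth {n : ℕ} (a : Fin n → ℝ) (ha : Function.Injective a) {s : ℝ} (hs : 0 < s)
    (k j : Fin n) : ∫ y, phi a s k y * psi a s j y = if k = j then 1 else 0 := by
  have e : (fun y => phi a s k y * psi a s j y) = fun y => ∑ i ∈ Finset.range n,
      ((Lagrange.basis Finset.univ a k).coeff i * Real.exp (-((a j) ^ 2 * s / 2))) *
        (Real.exp (a j * y) * ((hp s i).eval y * gk s y 0)) := by
    funext y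
    rw [phi_eq_sum a hs k y, Finset.sum_mul]
    refine Finset.sum_congr rfl fun i _ => ?_
    rw [psi, sub_eq_add_neg, Real.exp_add]
    ring
  rw [e, integral_finsetSum _ (fun i _ => (hp_exp_integrable hs (hp s i) (a j)).const_mul _)]
  have e2 : ∀ i ∈ Finset.range n, (∫ y, ((Lagrange.basis Finset.univ a k).coeff i *
      Real.exp (-((a j) ^ 2 * s / 2))) * (Real.exp (a j * y) * ((hp s i).eval y * gk s y 0))) =
      (Lagrange.basis Finset.univ a k).coeff i * (a j) ^ i := by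
    intro i _
    rw [integral_const_mul, hp_laplace hs (a j) i]
    have : Real.exp (-((a j) ^ 2 * s / 2)) * Real.exp ((a j) ^ 2 * s / 2) = 1 := by
      rw [← Real.exp_add, neg_add_cancel, Real.exp_zero]
    calc _ = (Lagrange.basis Finset.univ a k).coeff i * (a j) ^ i *
        (Real.exp (-((a j) ^ 2 * s / 2)) * Real.exp ((a j) ^ 2 * s / 2)) := by ring
      _ = _ := by rw [this, mul_one]
  rw [Finset.sum_congr rfl e2, ← Polynomial.eval_eq_sum_range' (basis_natDegree_lt a k)]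
  split_ifs with hkj
  · subst hkj
    exact Lagrange.eval_basis_self ha.injOn (Finset.mem_univ k)
  · exact Lagrange.eval_basis_of_ne hkj (Finset.mem_univ j)

end Pool.Agent.H.MP_5ad92a_pr
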