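import Pool.Agent.H.MP_5ad92a_pr.DefsF
import Pool.Agent.H.MP_5ad92a_pr.PhiProps

set_option autoImplicit false

noncomputable section

open MeasureTheory Filter Topology Set

namespace Pool.Agent.H.MP_5ad92a_pr

/-! ### elementary facts on the Gaussian kernel and the exponentials -/

theorem path_gk_pos {h : ℝ} (hh : 0 < h) (x y : ℝ) : 0 < gk h x y := by
  unfold gk
  have : 0 < Real.sqrt (2 * Real.pi * h) := Real.sqrt_pos.2 (by positivity)
  positivity

theorem path_gk_nonneg (h x y : ℝ) : 0 ≤ gk h x y := by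
  unfold gk; positivity

theorem path_gk_cont (h : ℝ) : Continuous (fun p : ℝ × ℝ => gk h p.1 p.2) := by
  unfold gk; fun_prop

theorem path_gk_meas (h : ℝ) : Measurable (fun p : ℝ × ℝ => gk h p.1 p.2) :=
  (path_gk_cont h).measurable

theorem path_psi_pos {n : ℕ} (a : Fin n → ℝ) (s : ℝ) (k : Fin n) (x : ℝ) : 0 < psi a s k x :=
  Real.exp_pos _

theorem path_psi_cont {n : ℕ} (a : Fin n → ℝ) (s : ℝ) (k : Fin n) : Continuous (psi a s k) := by
  unfold psi; fun_prop

theorem path_gk_psi_int {n : ℕ} (a : Fin n → ℝ) {h : ℝ} (s : ℝ) (hh : 0 < h) (k : Fin n)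
    (x : ℝ) : Integrable (fun y => gk h x y * psi a (s + h) k y) := by
  refine Integrable.of_integral_ne_zero ?_
  rw [psi_semigroup a s hh k x]
  exact (path_psi_pos a s k x).ne'

/-! ### the path integrand -/

/-- integrand of `pathInt` -/
def pI {m : ℕ} (q : Fin m → ℝ → ℝ → ℝ) (α : ℝ → ℝ) (u : Fin (m + 1) → ℝ → ℝ)
    (β : ℝ → ℝ) (z : Fin (m + 1) → ℝ) : ℝ :=
  α (z 0) * (∏ k : Fin m, q k (z k.castSucc) (z k.succ)) *
    (∏ l, u l (z l)) * β (z (Fin.last m))

theorem pathInt_eq {m : ℕ} (q : Fin m → ℝ → ℝ → ℝ) (α : ℝ → ℝ) (u : Fin (m + 1) → ℝ → ℝ)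
    (β : ℝ → ℝ) : pathInt q α u β = ∫ z, pI q α u β z := rfl

theorem pI_meas {m : ℕ} {q : Fin m → ℝ → ℝ → ℝ} {α : ℝ → ℝ} {u : Fin (m + 1) → ℝ → ℝ}
    {β : ℝ → ℝ} (hq : ∀ k, Measurable (fun p : ℝ × ℝ => q k p.1 p.2)) (hα : Measurable α)
    (hu : ∀ l, Measurable (u l)) (hβ : Measurable β) : Measurable (pI q α u β) := by
  unfold pI
  refine ((((hα.comp (measurable_pi_apply 0)).mul ?_).mul ?_).mul
    (hβ.comp (measurable_pi_apply _)))
  · refine Finset.measurable_prod _ (fun k _ => ?_)
    exact (hq k).comp (g := fun p : ℝ × ℝ => q k p.1 p.2)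
      (f := fun z : Fin (m + 1) → ℝ => (z k.castSucc, z k.succ))
      ((measurable_pi_apply k.castSucc).prodMk (measurable_pi_apply k.succ))
  · exact Finset.measurable_prod _ (fun l _ => (hu l).comp (measurable_pi_apply l))

theorem pI_cons {m : ℕ} (q : Fin (m + 1) → ℝ → ℝ → ℝ) (α : ℝ → ℝ) (u : Fin (m + 2) → ℝ → ℝ)
    (β : ℝ → ℝ) (x : ℝ) (w : Fin (m + 1) → ℝ) :
    pI q α u β (Fin.cons x w) =
      (α x * u 0 x) * pI (fun k => q k.succ) (q 0 x) (fun l => u l.succ) β w := by
  unfold pI
  rw [Fin.prod_univ_succ (fun k : Fin (m + 1) => _), Fin.prod_univ_succ (fun l : Fin (m + 2) => _)]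
  have e1 : (Fin.cons x w : Fin (m + 2) → ℝ) (Fin.last (m + 1)) = w (Fin.last m) := by
    rw [← Fin.succ_last, Fin.cons_succ]
  have e2 : ∀ k : Fin m, (Fin.cons x w : Fin (m + 2) → ℝ) k.succ.castSucc = w k.castSucc := by
    intro k; rw [← Fin.succ_castSucc, Fin.cons_succ]
  rw [e1]
  simp only [Fin.cons_zero, Fin.cons_succ, e2, Fin.castSucc_zero]
  ring

theorem piFinSuccAbove_symm_cons {m : ℕ} (p : ℝ × (Fin (m + 1) → ℝ)) :
    (MeasurableEquiv.piFinSuccAbove (fun _ : Fin (m + 2) => ℝ) 0).symm p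
      = (Fin.cons p.1 p.2 : Fin (m + 2) → ℝ) := by
  simp [MeasurableEquiv.piFinSuccAbove, Fin.insertNthEquiv]

/-- splitting off the first coordinate -/
theorem integral_cons {m : ℕ} (f : (Fin (m + 2) → ℝ) → ℝ) :
    ∫ z, f z = ∫ p : ℝ × (Fin (m + 1) → ℝ), f (Fin.cons p.1 p.2) := by
  have h := (volume_preserving_piFinSuccAbove (fun _ : Fin (m + 2) => ℝ) 0).symm
  have h2 := h.integral_comp' (g := f)
  rw [← h2]
  simp only [piFinSuccAbove_symm_cons]

theorem integrable_cons {m : ℕ} (f : (Fin (m + 2) → ℝ) → ℝ) :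
    Integrable f ↔ Integrable (fun p : ℝ × (Fin (m + 1) → ℝ) => f (Fin.cons p.1 p.2)) := by
  have h := (volume_preserving_piFinSuccAbove (fun _ : Fin (m + 2) => ℝ) 0).symm
  have h2 := h.integrable_comp_emb
    (MeasurableEquiv.piFinSuccAbove (fun _ : Fin (m + 2) => ℝ) 0).symm.measurableEmbedding (g := f)
  rw [← h2]
  simp only [Function.comp_def, piFinSuccAbove_symm_cons]

theorem integral_one (f : (Fin 1 → ℝ) → ℝ) :
    ∫ z, f z = ∫ x : ℝ, f (fun _ => x) := by
  have h := (volume_preserving_funUnique (Fin 1) ℝ).symm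
  have h2 := h.integral_comp' (g := f)
  exact h2.symm

theorem integrable_one (f : (Fin 1 → ℝ) → ℝ) :
    Integrable f ↔ Integrable (fun x : ℝ => f (fun _ => x)) := by
  have h := (volume_preserving_funUnique (Fin 1) ℝ).symm
  have h2 := h.integrable_comp_emb
    (MeasurableEquiv.funUnique (Fin 1) ℝ).symm.measurableEmbedding (g := f)
  exact h2.symm

/-! ### integrability -/

theorem gk_meas_right (h x : ℝ) : Measurable (gk h x) := by
  unfold gk; fun_prop

theorem path_q_meas {m : ℕ} (s : Fin (m + 1) → ℝ) (k : Fin m) :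
    Measurable (fun p : ℝ × ℝ => gk (s k.succ - s k.castSucc) p.1 p.2) := path_gk_meas _

theorem pI_integrable_one {n : ℕ} (a : Fin n → ℝ) (j : Fin n) :
    ∀ (m : ℕ) (s : Fin (m + 1) → ℝ), StrictMono s → ∀ (α : ℝ → ℝ), Measurable α →
    Integrable (fun x => α x * psi a (s 0) j x) →
    Integrable (pI (fun l : Fin m => gk (s l.succ - s l.castSucc)) α (fun _ _ => 1)
      (psi a (s (Fin.last m)) j)) ∧
    ∫ z, |pI (fun l : Fin m => gk (s l.succ - s l.castSucc)) α (fun _ _ => 1)
      (psi a (s (Fin.last m)) j) z| = ∫ x, |α x| * psi a (s 0) j x := by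
  intro m
  induction m with
  | zero =>
    intro s _ α hα hint
    have e : ∀ z : Fin 1 → ℝ, pI (fun l : Fin 0 => gk (s l.succ - s l.castSucc)) α (fun _ _ => 1)
        (psi a (s (Fin.last 0)) j) z = α (z 0) * psi a (s 0) j (z 0) := by
      intro z
      unfold pI
      have : Fin.last 0 = 0 := rfl
      simp [this]
    constructor
    · rw [integrable_one]
      simpa only [e] using hint
    · rw [integral_one]
      simp only [e]
      congr 1
      ext x
      rw [abs_mul, abs_of_pos (path_psi_pos a (s 0) j x)]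
  | succ m ih =>
    intro s hs α hα hint
    have hs1 : 0 < s 1 - s 0 := by
      have := hs (show (0 : Fin (m + 2)) < 1 from Fin.zero_lt_one)
      linarith
    have htail : StrictMono (fun l : Fin (m + 1) => s l.succ) := fun i k hik =>
      hs (Fin.succ_lt_succ_iff.2 hik)
    have hps : ∀ x, ∫ y, |gk (s 1 - s 0) x y| * psi a (s 1) j y = psi a (s 0) j x := by
      intro x
      have h := psi_semigroup a (s 0) hs1 j x
      rw [add_sub_cancel] at h
      rw [← h]
      congr 1
      ext y
      rw [abs_of_pos (path_gk_pos hs1 x y)]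
    have hgi : ∀ x, Integrable (fun y => gk (s 1 - s 0) x y * psi a (s 1) j y) := by
      intro x
      have h := path_gk_psi_int a (s 0) hs1 j x
      rwa [add_sub_cancel] at h
    have ih' := fun x : ℝ => ih (fun l => s l.succ) htail (gk (s 1 - s 0) x)
      (gk_meas_right _ _) (hgi x)
    have e : ∀ (x : ℝ) (w : Fin (m + 1) → ℝ),
        pI (fun l : Fin (m + 1) => gk (s l.succ - s l.castSucc)) α (fun _ _ => 1)
        (psi a (s (Fin.last (m + 1))) j) (Fin.cons x w) =
        α x * pI (fun l : Fin m => gk (s l.succ.succ - s l.castSucc.succ)) (gk (s 1 - s 0) x)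
          (fun _ _ => 1) (psi a (s (Fin.last m).succ) j) w := by
      intro x w
      rw [pI_cons, mul_one]
      rfl
    have hmeas : Measurable (fun p : ℝ × (Fin (m + 1) → ℝ) =>
        pI (fun l : Fin (m + 1) => gk (s l.succ - s l.castSucc)) α (fun _ _ => 1)
        (psi a (s (Fin.last (m + 1))) j) (Fin.cons p.1 p.2)) := by
      have h1 : Measurable (pI (fun l : Fin (m + 1) => gk (s l.succ - s l.castSucc)) α
          (fun _ _ => 1) (psi a (s (Fin.last (m + 1))) j)) :=
        pI_meas (path_q_meas s) hα (fun _ => measurable_const) (path_psi_cont _ _ _).measurable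
      have h2 := h1.comp
        (MeasurableEquiv.piFinSuccAbove (fun _ : Fin (m + 2) => ℝ) 0).symm.measurable
      simpa only [Function.comp_def, piFinSuccAbove_symm_cons] using h2
    have habs : ∀ x, ∫ w, |α x * pI (fun l : Fin m => gk (s l.succ.succ - s l.castSucc.succ))
        (gk (s 1 - s 0) x) (fun _ _ => 1) (psi a (s (Fin.last m).succ) j) w|
        = |α x| * psi a (s 0) j x := by
      intro x
      simp only [abs_mul]
      rw [integral_const_mul, (ih' x).2, ← hps x]
      rfl
    have hint2 : Integrable (fun x => |α x| * psi a (s 0) j x) := by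
      refine hint.abs.congr (Eventually.of_forall (fun x => ?_))
      simp only [abs_mul, abs_of_pos (path_psi_pos a (s 0) j x)]
    have hI : Integrable (fun p : ℝ × (Fin (m + 1) → ℝ) =>
        pI (fun l : Fin (m + 1) => gk (s l.succ - s l.castSucc)) α (fun _ _ => 1)
        (psi a (s (Fin.last (m + 1))) j) (Fin.cons p.1 p.2)) := by
      rw [Measure.volume_eq_prod] 
      rw [integrable_prod_iff hmeas.aestronglyMeasurable]
      constructor
      · refine Eventually.of_forall (fun x => ?_)
        simp only [e]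
        exact (ih' x).1.const_mul _
      · simp only [e, Real.norm_eq_abs, habs]
        exact hint2
    refine ⟨(integrable_cons _).2 hI, ?_⟩
    rw [integral_cons, Measure.volume_eq_prod, integral_prod]
    · simp only [e, habs]
    · rw [← Measure.volume_eq_prod]
      exact hI.abs

/-- integrability with bounded weights -/
theorem pI_integrable {n : ℕ} (a : Fin n → ℝ) (j : Fin n) {m : ℕ} {s : Fin (m + 1) → ℝ}
    (hs : StrictMono s) {α : ℝ → ℝ} (hα : Measurable α)
    (hint : Integrable (fun x => α x * psi a (s 0) j x)) {u : Fin (m + 1) → ℝ → ℝ}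
    (hu : ∀ l, Measurable (u l)) {C : ℝ} (hC : ∀ l x, |u l x| ≤ C) :
    Integrable (pI (fun l : Fin m => gk (s l.succ - s l.castSucc)) α u
      (psi a (s (Fin.last m)) j)) := by
  have h1 := (pI_integrable_one a j m s hs α hα hint).1
  have hC0 : 0 ≤ C := (abs_nonneg _).trans (hC 0 0)
  refine (h1.norm.const_mul (C ^ (m + 1))).mono' (pI_meas (path_q_meas s) hα hu
    (path_psi_cont _ _ _).measurable).aestronglyMeasurable (Eventually.of_forall (fun z => ?_))
  have h2 : |∏ l, u l (z l)| ≤ C ^ (m + 1) := by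
    rw [Finset.abs_prod]
    calc ∏ l, |u l (z l)| ≤ ∏ _l : Fin (m + 1), C :=
          Finset.prod_le_prod (fun _ _ => abs_nonneg _) (fun l _ => hC l _)
      _ = C ^ (m + 1) := by simp
  have e : pI (fun l : Fin m => gk (s l.succ - s l.castSucc)) α u
      (psi a (s (Fin.last m)) j) z = (∏ l, u l (z l)) *
      pI (fun l : Fin m => gk (s l.succ - s l.castSucc)) α (fun _ _ => 1)
      (psi a (s (Fin.last m)) j) z := by
    unfold pI
    simp only [Finset.prod_const_one]
    ring
  rw [e, norm_mul, Real.norm_eq_abs]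
  gcongr

/-! ### recursion in the number of times -/

theorem pI_cons_gk {n : ℕ} (a : Fin n → ℝ) (j : Fin n) {m : ℕ} (s : Fin (m + 2) → ℝ)
    (α : ℝ → ℝ) (u : Fin (m + 2) → ℝ → ℝ) (x : ℝ) (w : Fin (m + 1) → ℝ) :
    pI (fun l : Fin (m + 1) => gk (s l.succ - s l.castSucc)) α u
      (psi a (s (Fin.last (m + 1))) j) (Fin.cons x w) =
    (α x * u 0 x) * pI (fun l : Fin m => gk (s l.succ.succ - s l.castSucc.succ))
      (gk (s 1 - s 0) x) (fun l => u l.succ) (psi a (s (Fin.last m).succ) j) w := by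
  rw [pI_cons]
  rfl

theorem path_P1 {n : ℕ} (a : Fin n → ℝ) (j : Fin n) {m : ℕ} {s : Fin (m + 2) → ℝ}
    (hs : StrictMono s) {α : ℝ → ℝ} (hα : Measurable α)
    (hint : Integrable (fun x => α x * psi a (s 0) j x)) {u : Fin (m + 2) → ℝ → ℝ}
    (hu : ∀ l, Measurable (u l)) {C : ℝ} (hC : ∀ l x, |u l x| ≤ C) :
    pathInt (fun l : Fin (m + 1) => gk (s l.succ - s l.castSucc)) α u
      (psi a (s (Fin.last (m + 1))) j) =
    ∫ x, α x * u 0 x * pathInt (fun l : Fin m => gk (s l.succ.succ - s l.castSucc.succ))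
      (gk (s 1 - s 0) x) (fun l => u l.succ) (psi a (s (Fin.last m).succ) j) := by
  have hI := (integrable_cons _).1 (pI_integrable a j hs hα hint hu hC)
  rw [pathInt_eq, integral_cons, Measure.volume_eq_prod, integral_prod _ hI]
  congr 1
  ext x
  simp only [pI_cons_gk]
  rw [integral_const_mul]
  rfl

theorem pI_alpha {m : ℕ} (q : Fin m → ℝ → ℝ → ℝ) (α : ℝ → ℝ) (u : Fin (m + 1) → ℝ → ℝ)
    (β : ℝ → ℝ) (z : Fin (m + 1) → ℝ) :
    pI q α u β z = α (z 0) * pI q (fun _ => 1) u β z := by
  unfold pI; ring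

theorem path_P2 {n : ℕ} (a : Fin n → ℝ) (j : Fin n) {m : ℕ} {s : Fin (m + 2) → ℝ}
    (hs : StrictMono s) {α : ℝ → ℝ} (hα : Measurable α)
    (hint : Integrable (fun x => α x * psi a (s 0) j x)) {u : Fin (m + 2) → ℝ → ℝ}
    (hu : ∀ l, Measurable (u l)) {C : ℝ} (hC : ∀ l x, |u l x| ≤ C) (hu0 : ∀ x, u 0 x = 1) :
    pathInt (fun l : Fin (m + 1) => gk (s l.succ - s l.castSucc)) α u
      (psi a (s (Fin.last (m + 1))) j) =
    pathInt (fun l : Fin m => gk (s l.succ.succ - s l.castSucc.succ))
      (fun y => ∫ x, α x * gk (s 1 - s 0) x y) (fun l => u l.succ)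
      (psi a (s (Fin.last m).succ) j) := by
  have hI := (integrable_cons _).1 (pI_integrable a j hs hα hint hu hC)
  rw [pathInt_eq, pathInt_eq, integral_cons, Measure.volume_eq_prod, integral_prod_symm _ hI]
  congr 1
  ext w
  simp only [pI_cons_gk, hu0, mul_one]
  have e : ∀ x, α x * pI (fun l : Fin m => gk (s l.succ.succ - s l.castSucc.succ))
      (gk (s 1 - s 0) x) (fun l => u l.succ) (psi a (s (Fin.last m).succ) j) w =
      (α x * gk (s 1 - s 0) x (w 0)) *
      pI (fun l : Fin m => gk (s l.succ.succ - s l.castSucc.succ))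
      (fun _ => 1) (fun l => u l.succ) (psi a (s (Fin.last m).succ) j) w := by
    intro x
    rw [pI_alpha]
    ring
  simp only [e]
  rw [integral_mul_const, pI_alpha _ (fun y => ∫ x, α x * gk (s 1 - s 0) x y)]

theorem path_P0 {n : ℕ} (a : Fin n → ℝ) (j : Fin n) {s : Fin 1 → ℝ} (α : ℝ → ℝ)
    (u : Fin 1 → ℝ → ℝ) :
    pathInt (fun l : Fin 0 => gk (s l.succ - s l.castSucc)) α u
      (psi a (s (Fin.last 0)) j) = ∫ x, α x * u 0 x * psi a (s 0) j x := by
  rw [pathInt_eq, integral_one]
  congr 1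
  ext x
  have : Fin.last 0 = 0 := rfl
  simp [pI, this]

/-! ### chain integrals only see the selected marks -/

theorem chainJ_none {n : ℕ} {Z : Type*} [MeasurableSpace Z] (ν : Measure Z) :
    ∀ (k : ℕ) (sel : Fin k → Bool) (h : Fin k → Z → ℝ) (ψ : Fin k → Z → Fin n → ℝ)
      (P : Fin k → Z → Fin k → Z → ℝ) (v : Fin n → ℝ) (r : Fin k → Z → ℝ),
      (∀ c, sel c = false) → chainJ ν k sel h ψ P v r = v := by
  intro k
  induction k with
  | zero => intros; rfl
  | succ k ih =>
    intro sel h ψ P v r hsel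
    rw [chainJ, if_neg (by rw [hsel 0]; simp)]
    exact ih _ _ _ _ _ _ (fun c => hsel c.succ)

theorem chainJ_congr {n : ℕ} {Z : Type*} [MeasurableSpace Z] (ν : Measure Z) :
    ∀ (k : ℕ) (sel : Fin k → Bool) (h : Fin k → Z → ℝ) (ψ ψ' : Fin k → Z → Fin n → ℝ)
      (P P' : Fin k → Z → Fin k → Z → ℝ) (v : Fin n → ℝ) (r r' : Fin k → Z → ℝ),
      (∀ c, sel c = true → ψ c = ψ' c) →
      (∀ c d, sel c = true → sel d = true → c < d → ∀ z z', P c z d z' = P' c z d z') →
      (∀ c, sel c = true → r c = r' c) →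
      chainJ ν k sel h ψ P v r = chainJ ν k sel h ψ' P' v r' := by
  intro k
  induction k with
  | zero => intros; rfl
  | succ k ih =>
    intro sel h ψ ψ' P P' v r r' hψ hP hr
    rw [chainJ, chainJ]
    by_cases h0 : sel 0 = true
    · rw [if_pos h0, if_pos h0]
      ext i
      congr 1
      ext z
      rw [hr 0 h0, hψ 0 h0]
      congr 1
      refine congrFun (ih (fun a => sel a.succ) (fun a => h a.succ) _ _ _ _ _ _ _
        (fun c hc => hψ c.succ hc) (fun c d hc hd hcd z z' => hP c.succ d.succ hc hd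
          (Fin.succ_lt_succ_iff.2 hcd) z z') (fun c hc => ?_)) i
      ext z'
      exact hP 0 c.succ h0 hc (Fin.succ_pos c) z z'
    · rw [if_neg h0, if_neg h0]
      exact ih (fun a => sel a.succ) (fun a => h a.succ) _ _ _ _ _ _ _
        (fun c hc => hψ c.succ hc) (fun c d hc hd hcd z z' => hP c.succ d.succ hc hd
          (Fin.succ_lt_succ_iff.2 hcd) z z') (fun c hc => hr c.succ hc)

/-! ### the weights of the marks -/

/-- weight of the selected marks at the time index `l` -/
def Wt {k m : ℕ} (τ : Fin k → Fin (m + 1)) (sel : Fin k → Bool) (h : Fin k → ℝ → ℝ)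
    (l : Fin (m + 1)) (z : ℝ) : ℝ :=
  ∏ c ∈ Finset.univ.filter (fun c => τ c = l ∧ sel c = true), h c z

theorem Wt_meas {k m : ℕ} (τ : Fin k → Fin (m + 1)) (sel : Fin k → Bool) {h : Fin k → ℝ → ℝ}
    (hh : ∀ c, Measurable (h c)) (l : Fin (m + 1)) : Measurable (Wt τ sel h l) := by
  unfold Wt
  exact Finset.measurable_prod _ (fun c _ => hh c)

theorem Wt_bound {k m : ℕ} (τ : Fin k → Fin (m + 1)) (sel : Fin k → Bool) {h : Fin k → ℝ → ℝ}
    {C : ℝ} (hC : ∀ c z, |h c z| ≤ C) (l : Fin (m + 1)) (z : ℝ) :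
    |Wt τ sel h l z| ≤ (max C 1) ^ k := by
  unfold Wt
  rw [Finset.abs_prod]
  calc ∏ c ∈ Finset.univ.filter (fun c => τ c = l ∧ sel c = true), |h c z|
      ≤ ∏ _c ∈ Finset.univ.filter (fun c => τ c = l ∧ sel c = true), max C 1 :=
        Finset.prod_le_prod (fun _ _ => abs_nonneg _)
          (fun c _ => (hC c z).trans (le_max_left _ _))
    _ = (max C 1) ^ (Finset.univ.filter (fun c => τ c = l ∧ sel c = true)).card := by simp
    _ ≤ (max C 1) ^ k := by
        refine pow_le_pow_right₀ (le_max_right _ _) ?_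
        exact (Finset.card_le_univ _).trans (by simp)

theorem Wt_succ {k m : ℕ} (τ : Fin (k + 1) → Fin (m + 1)) (sel : Fin (k + 1) → Bool)
    (h : Fin (k + 1) → ℝ → ℝ) (l : Fin (m + 1)) (z : ℝ) :
    Wt τ sel h l z = (if τ 0 = l ∧ sel 0 = true then h 0 z else 1) *
      Wt (fun c => τ c.succ) (fun c => sel c.succ) (fun c => h c.succ) l z := by
  unfold Wt
  rw [Finset.prod_filter, Fin.prod_univ_succ, Finset.prod_filter]

theorem Wt_one {k m : ℕ} (τ : Fin k → Fin (m + 1)) (sel : Fin k → Bool) (h : Fin k → ℝ → ℝ)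
    (l : Fin (m + 1)) (z : ℝ) (hl : ∀ c, sel c = true → τ c ≠ l) : Wt τ sel h l z = 1 := by
  unfold Wt
  rw [Finset.filter_false_of_mem, Finset.prod_empty]
  rintro c - ⟨h1, h2⟩
  exact hl c h2 h1

/-- shift of the time indices -/
def shiftT {k m : ℕ} (τ : Fin k → Fin (m + 2)) (c : Fin k) : Fin (m + 1) :=
  ⟨(τ c : ℕ) - 1, by omega⟩

theorem shiftT_mono {k m : ℕ} {τ : Fin k → Fin (m + 2)} (hτ : Monotone τ) :
    Monotone (shiftT τ) := fun c d hcd => by
  have := hτ hcd
  rw [Fin.le_def] at this ⊢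
  exact Nat.sub_le_sub_right this 1

theorem shiftT_succ {k m : ℕ} {τ : Fin k → Fin (m + 2)} {c : Fin k} (h : τ c ≠ 0) :
    (shiftT τ c).succ = τ c := by
  ext
  have : (τ c : ℕ) ≠ 0 := fun h0 => h (Fin.ext h0)
  simp only [shiftT, Fin.val_succ]
  omega

theorem Wt_shift {k m : ℕ} (τ : Fin k → Fin (m + 2)) (sel : Fin k → Bool) (h : Fin k → ℝ → ℝ)
    (hne : ∀ c, sel c = true → τ c ≠ 0) (l : Fin (m + 1)) (z : ℝ) :
    Wt τ sel h l.succ z = Wt (shiftT τ) sel h l z := by
  unfold Wt
  congr 1
  ext c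
  simp only [Finset.mem_filter, Finset.mem_univ, true_and]
  constructor
  · rintro ⟨h1, h2⟩
    refine ⟨?_, h2⟩
    have h3 := shiftT_succ (hne c h2)
    rw [h1] at h3
    exact Fin.succ_injective _ h3
  · rintro ⟨h1, h2⟩
    refine ⟨?_, h2⟩
    rw [← shiftT_succ (hne c h2), h1]

/-! ### start families -/

/-- a family of initial conditions, consistent under the heat flow -/
structure StartFam {n : ℕ} (a : Fin n → ℝ) (A : ℝ → ℝ → ℝ) (t0 : ℝ) (v : Fin n → ℝ) : Prop where
  meas : ∀ t, t0 ≤ t → Measurable (A t)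
  int : ∀ t, t0 ≤ t → ∀ i, Integrable (fun x => A t x * psi a t i x)
  semi : ∀ t, t0 ≤ t → ∀ h, 0 < h → ∀ y, ∫ x, A t x * gk h x y = A (t + h) y
  val : ∀ t, t0 ≤ t → ∀ i, ∫ x, A t x * psi a t i x = v i

theorem StartFam.mono {n : ℕ} {a : Fin n → ℝ} {A : ℝ → ℝ → ℝ} {t0 t1 : ℝ} {v : Fin n → ℝ}
    (hA : StartFam a A t0 v) (h : t0 ≤ t1) : StartFam a A t1 v :=
  ⟨fun t ht => hA.meas t (h.trans ht), fun t ht => hA.int t (h.trans ht),
    fun t ht => hA.semi t (h.trans ht), fun t ht => hA.val t (h.trans ht)⟩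

theorem startFam_gk {n : ℕ} (a : Fin n → ℝ) {t0 t1 : ℝ} (h : t0 < t1) (x : ℝ) :
    StartFam a (fun t y => gk (t - t0) x y) t1 (fun i => psi a t0 i x) := by
  refine ⟨fun t _ => gk_meas_right _ _, fun t ht i => ?_, fun t ht h' hh' y => ?_,
    fun t ht i => ?_⟩
  · have := path_gk_psi_int a t0 (show 0 < t - t0 by linarith) i x
    rwa [add_sub_cancel] at this
  · rw [gk_semigroup (show 0 < t - t0 by linarith) hh']
    congr 1
    ring
  · have := psi_semigroup a t0 (show 0 < t - t0 by linarith) i x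
    rwa [add_sub_cancel] at this

/-- gaussian times exponential -/
theorem path_gauss_int {b : ℝ} (hb : 0 < b) (c d : ℝ) :
    Integrable (fun y : ℝ => Real.exp (-(b * y ^ 2)) * Real.exp (c * y - d)) := by
  have h := (integrable_cexp_quadratic (b := (b : ℂ)) (by simpa using hb) (c : ℂ) (-d : ℂ)).norm
  refine h.congr (Eventually.of_forall (fun y => ?_))
  show ‖Complex.exp _‖ = Real.exp (-(b * y ^ 2)) * Real.exp (c * y - d)
  rw [Complex.norm_exp, ← Real.exp_add]
  congr 1
  simp [pow_two]
  ring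

theorem phi_psi_int {n : ℕ} (a : Fin n → ℝ) {s : ℝ} (hs : 0 < s) (k i : Fin n) :
    Integrable (fun y => phi a s k y * psi a s i y) := by
  obtain ⟨C, hC⟩ := phi_bound a hs k
  have h1 := (path_gauss_int (show 0 < 1 / (4 * s) by positivity) (a i)
    ((a i) ^ 2 * s / 2)).const_mul C
  refine h1.mono' (((phi_continuous a hs k).mul (path_psi_cont a s i)).aestronglyMeasurable)
    (Eventually.of_forall (fun y => ?_))
  rw [norm_mul, Real.norm_eq_abs, Real.norm_eq_abs, abs_of_pos (path_psi_pos a s i y)]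
  have e : -y ^ 2 / (4 * s) = -(1 / (4 * s) * y ^ 2) := by ring
  have h2 := hC y
  rw [e] at h2
  calc |phi a s k y| * psi a s i y
      ≤ (C * Real.exp (-(1 / (4 * s) * y ^ 2))) * psi a s i y := by
        gcongr
        exact (path_psi_pos a s i y).le
    _ = _ := by rw [psi]; ring

theorem startFam_phi {n : ℕ} (a : Fin n → ℝ) (ha : Function.Injective a) {t0 : ℝ} (h : 0 < t0)
    (j : Fin n) : StartFam a (fun t y => phi a t j y) t0 (Pi.single j 1) := by
  refine ⟨fun t ht => (phi_continuous a (h.trans_le ht) j).measurable,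
    fun t ht i => phi_psi_int a (h.trans_le ht) j i, fun t ht h' hh' y =>
    phi_semigroup a (h.trans_le ht) hh' j y, fun t ht i => ?_⟩
  rw [phi_psi_orth a ha (h.trans_le ht), Pi.single_apply]
  simp only [eq_comm]

/-! ### the main recursion -/

theorem pathInt_congr {m : ℕ} (q : Fin m → ℝ → ℝ → ℝ) (α : ℝ → ℝ)
    {u u' : Fin (m + 1) → ℝ → ℝ} (β : ℝ → ℝ) (h : ∀ l z, u l z = u' l z) :
    pathInt q α u β = pathInt q α u' β := by
  have : u = u' := by ext l z; exact h l z
  rw [this]

theorem path_marks_zero {n : ℕ} (a : Fin n → ℝ) (i : Fin n) (s : Fin 1 → ℝ) :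
    ∀ (k : ℕ) (A : ℝ → ℝ → ℝ) (v : Fin n → ℝ), StartFam a A (s 0) v →
    ∀ (τ : Fin k → Fin 1) (sel : Fin k → Bool),
    (∀ c d, sel c = true → sel d = true → c ≠ d → τ c ≠ τ d) →
    ∀ (h : Fin k → ℝ → ℝ),
    pathInt (fun l : Fin 0 => gk (s l.succ - s l.castSucc)) (A (s 0)) (Wt τ sel h)
      (psi a (s (Fin.last 0)) i) =
    chainJ volume k sel h (fun c z i => psi a (s (τ c)) i z)
      (fun c z d z' => gP (s (τ c)) (s (τ d)) z z') v (fun c z => A (s (τ c)) z) i := by
  intro k
  induction k with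
  | zero =>
    intro A v hA τ sel _ h
    rw [path_P0, chainJ, ← hA.val _ le_rfl i]
    congr 1
    ext x
    simp [Wt]
  | succ k ih =>
    intro A v hA τ sel hsel h
    by_cases h0 : sel 0 = true
    · rw [chainJ, if_pos h0, path_P0]
      congr 1
      ext z
      have hnone : ∀ c : Fin k, sel c.succ = false := by
        intro c
        by_contra hc
        rw [Bool.not_eq_false] at hc
        exact hsel 0 c.succ h0 hc (Fin.succ_ne_zero c).symm (Subsingleton.elim _ _)
      have h00 : τ 0 = 0 := Subsingleton.elim _ _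
      rw [chainJ_none volume k _ _ _ _ _ _ hnone, Wt_succ, if_pos ⟨h00, h0⟩,
        Wt_one _ _ _ _ _ (fun c hc => absurd hc (by rw [hnone c]; simp)), h00]
      ring
    · rw [chainJ, if_neg h0, ← ih A v hA (fun c => τ c.succ) (fun c => sel c.succ)
        (fun c d hc hd hcd => hsel _ _ hc hd (fun he => hcd (Fin.succ_injective _ he)))
        (fun c => h c.succ)]
      refine pathInt_congr _ _ _ (fun l z => ?_)
      rw [Wt_succ, if_neg (fun hh => h0 hh.2), one_mul]

theorem path_marks_gen {n : ℕ} (a : Fin n → ℝ) (i : Fin n) (C : ℝ) :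
    ∀ (m : ℕ) (s : Fin (m + 1) → ℝ), StrictMono s → ∀ (k : ℕ) (A : ℝ → ℝ → ℝ) (v : Fin n → ℝ),
    StartFam a A (s 0) v → ∀ (τ : Fin k → Fin (m + 1)), Monotone τ → ∀ (sel : Fin k → Bool),
    (∀ c d, sel c = true → sel d = true → c ≠ d → τ c ≠ τ d) →
    ∀ (h : Fin k → ℝ → ℝ), (∀ c, Measurable (h c)) → (∀ c z, |h c z| ≤ C) →
    pathInt (fun l : Fin m => gk (s l.succ - s l.castSucc)) (A (s 0)) (Wt τ sel h)
      (psi a (s (Fin.last m)) i) =
    chainJ volume k sel h (fun c z i => psi a (s (τ c)) i z)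
      (fun c z d z' => gP (s (τ c)) (s (τ d)) z z') v (fun c z => A (s (τ c)) z) i := by
  intro m
  induction m with
  | zero =>
    intro s _ k A v hA τ _ sel hsel h _ _
    exact path_marks_zero a i s k A v hA τ sel hsel h
  | succ m ihm =>
    intro s hs k
    have h01 : s 0 < s 1 := hs (show (0 : Fin (m + 2)) < 1 from Fin.zero_lt_one)
    have htail : StrictMono (fun l : Fin (m + 1) => s l.succ) := fun i k hik =>
      hs (Fin.succ_lt_succ_iff.2 hik)
    induction k with
    | zero =>
      intro A v hA τ hτ sel hsel h hh hC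
      rw [path_P2 a i hs (hA.meas _ le_rfl) (hA.int _ le_rfl i) (fun l => Wt_meas τ sel hh l)
        (Wt_bound τ sel hC) (fun x => Wt_one τ sel h 0 x (fun c => c.elim0))]
      have e : (fun y => ∫ x, A (s 0) x * gk (s 1 - s 0) x y) = A (s 1) := by
        ext y
        rw [hA.semi _ le_rfl _ (by linarith) y, add_sub_cancel]
      rw [e]
      have ih := ihm (fun l => s l.succ) htail 0 A v (hA.mono h01.le) (fun c => c.elim0)
        (fun c => c.elim0) (fun c => c.elim0) (fun c => c.elim0) (fun c => c.elim0)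
        (fun c => c.elim0) (fun c => c.elim0)
      rw [chainJ] at ih ⊢
      rw [← ih]
      refine pathInt_congr _ _ _ (fun l z => ?_)
      simp [Wt]
    | succ k ihk =>
      intro A v hA τ hτ sel hsel h hh hC
      by_cases hall : ∀ c, sel c = true → τ c ≠ 0
      · -- no selected mark at the time index 0
        rw [path_P2 a i hs (hA.meas _ le_rfl) (hA.int _ le_rfl i) (fun l => Wt_meas τ sel hh l)
          (Wt_bound τ sel hC) (fun x => Wt_one τ sel h 0 x hall)]
        have e : (fun y => ∫ x, A (s 0) x * gk (s 1 - s 0) x y) = A (s 1) := by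
          ext y
          rw [hA.semi _ le_rfl _ (by linarith) y, add_sub_cancel]
        rw [e]
        have ih := ihm (fun l => s l.succ) htail (k + 1) A v (hA.mono h01.le) (shiftT τ)
          (shiftT_mono hτ) sel (fun c d hc hd hcd he => hsel c d hc hd hcd (by
            rw [← shiftT_succ (hall c hc), ← shiftT_succ (hall d hd), he])) h hh hC
        rw [chainJ_congr volume (k + 1) sel h (fun c z i => psi a (s (τ c)) i z)
          (fun c z i => psi a (s (shiftT τ c).succ) i z)
          (fun c z d z' => gP (s (τ c)) (s (τ d)) z z')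
          (fun c z d z' => gP (s (shiftT τ c).succ) (s (shiftT τ d).succ) z z') v
          (fun c z => A (s (τ c)) z) (fun c z => A (s (shiftT τ c).succ) z)
          (fun c hc => by rw [shiftT_succ (hall c hc)])
          (fun c d hc hd _ z z' => by rw [shiftT_succ (hall c hc), shiftT_succ (hall d hd)])
          (fun c hc => by rw [shiftT_succ (hall c hc)]), ← ih]
        exact pathInt_congr _ _ _ (fun l z => Wt_shift τ sel h hall l z)
      · by_cases h0 : sel 0 = true
        · -- the first mark is selected and sits at the time index 0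
          push Not at hall
          obtain ⟨c0, hc0, hτ0⟩ := hall
          have h00 : τ 0 = 0 := by
            have := hτ (Fin.zero_le c0)
            rw [hτ0] at this
            exact Fin.le_zero_iff.1 this
          have hne : ∀ c : Fin k, sel c.succ = true → τ c.succ ≠ 0 := by
            intro c hc he
            exact hsel 0 c.succ h0 hc (Fin.succ_ne_zero c).symm (by rw [h00, he])
          rw [chainJ, if_pos h0, path_P1 a i hs (hA.meas _ le_rfl) (hA.int _ le_rfl i)
            (fun l => Wt_meas τ sel hh l) (Wt_bound τ sel hC)]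
          congr 1
          ext x
          have ih := ihm (fun l => s l.succ) htail k (fun t y => gk (t - s 0) x y)
            (fun i => psi a (s 0) i x) (startFam_gk a h01 x) (shiftT fun c => τ c.succ)
            (shiftT_mono (fun c d hcd => hτ (Fin.succ_le_succ_iff.2 hcd))) (fun c => sel c.succ)
            (fun c d hc hd hcd he => hsel c.succ d.succ hc hd
              (fun he' => hcd (Fin.succ_injective _ he')) (by
              rw [← shiftT_succ (τ := fun c => τ c.succ) (hne c hc),
                ← shiftT_succ (τ := fun c => τ c.succ) (hne d hd), he]))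
            (fun c => h c.succ) (fun c => hh c.succ) (fun c => hC c.succ)
          have hlt : ∀ c : Fin k, sel c.succ = true → s 0 < s (τ c.succ) := fun c hc =>
            hs (Fin.pos_iff_ne_zero.2 (hne c hc))
          rw [chainJ_congr volume k (fun c => sel c.succ) (fun c => h c.succ)
            (fun c z i => psi a (s (τ c.succ)) i z)
            (fun c z i => psi a (s (shiftT (fun c => τ c.succ) c).succ) i z)
            (fun c z d z' => gP (s (τ c.succ)) (s (τ d.succ)) z z')
            (fun c z d z' => gP (s (shiftT (fun c => τ c.succ) c).succ)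
              (s (shiftT (fun c => τ c.succ) d).succ) z z') (fun i => psi a (s (τ 0)) i x)
            (fun c z => gP (s (τ 0)) (s (τ c.succ)) x z)
            (fun c z => gk (s (shiftT (fun c => τ c.succ) c).succ - s 0) x z)
            (fun c hc => by rw [shiftT_succ (τ := fun c => τ c.succ) (hne c hc)])
            (fun c d hc hd _ z z' => by
              rw [shiftT_succ (τ := fun c => τ c.succ) (hne c hc),
                shiftT_succ (τ := fun c => τ c.succ) (hne d hd)])
            (fun c hc => by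
              rw [shiftT_succ (τ := fun c => τ c.succ) (hne c hc), h00]
              ext z
              rw [gP, if_pos (hlt c hc)]), h00]
          have hW0 : Wt τ sel h 0 x = h 0 x := by
            rw [Wt_succ, if_pos ⟨h00, h0⟩, Wt_one _ _ _ _ _ hne, mul_one]
          rw [hW0, mul_comm (A (s 0) x) (h 0 x)]
          congr 1
          rw [← ih]
          refine pathInt_congr _ _ _ (fun l z => ?_)
          rw [Wt_succ, if_neg (fun hh' => by
            have := hh'.1
            rw [h00] at this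
            exact Fin.succ_ne_zero l this.symm), one_mul]
          exact Wt_shift (fun c => τ c.succ) (fun c => sel c.succ) (fun c => h c.succ) hne l z
        · -- the first mark is not selected
          rw [chainJ, if_neg h0, ← ihk A v hA (fun c => τ c.succ)
            (fun c d hcd => hτ (Fin.succ_le_succ_iff.2 hcd)) (fun c => sel c.succ)
            (fun c d hc hd hcd => hsel _ _ hc hd (fun he => hcd (Fin.succ_injective _ he)))
            (fun c => h c.succ) (fun c => hh c.succ) (fun c => hC c.succ)]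
          refine pathInt_congr _ _ _ (fun l z => ?_)
          rw [Wt_succ, if_neg (fun hh => h0 hh.2), one_mul]

/-! ### the statements of the module -/

theorem path_integrable {n m : ℕ} (a : Fin n → ℝ) (s : Fin (m + 1) → ℝ) (hs0 : 0 < s 0)
    (hs : StrictMono s) (i j : Fin n) :
    Integrable (fun z : Fin (m + 1) → ℝ => phi a (s 0) i (z 0) *
      (∏ k : Fin m, gk (s k.succ - s k.castSucc) (z k.castSucc) (z k.succ)) *
      psi a (s (Fin.last m)) j (z (Fin.last m))) := by
  have h := pI_integrable a j hs (phi_continuous a hs0 i).measurable (phi_psi_int a hs0 i j)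
    (u := fun _ _ => 1) (fun _ => measurable_const) (C := 1) (fun _ _ => by simp)
  refine h.congr (Eventually.of_forall (fun z => ?_))
  simp [pI]

theorem path_marks {n m k : ℕ} (a : Fin n → ℝ) (ha : Function.Injective a)
    (s : Fin (m + 1) → ℝ) (hs0 : 0 < s 0) (hs : StrictMono s)
    (τ : Fin k → Fin (m + 1)) (hτ : Monotone τ) (sel : Fin k → Bool)
    (hsel : ∀ c d, sel c → sel d → c ≠ d → τ c ≠ τ d)
    (h : Fin k → ℝ → ℝ) (hh : ∀ c, Measurable (h c)) (C : ℝ) (hC : ∀ c z, |h c z| ≤ C)
    (i j : Fin n) :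
    pathInt (fun l : Fin m => gk (s l.succ - s l.castSucc)) (phi a (s 0) j)
      (fun l z => ∏ c ∈ Finset.univ.filter (fun c => τ c = l ∧ sel c = true), h c z)
      (psi a (s (Fin.last m)) i) =
    chainJ volume k sel h (fun c z i => psi a (s (τ c)) i z)
      (fun c z d z' => gP (s (τ c)) (s (τ d)) z z')
      (Pi.single j 1) (fun c z => phi a (s (τ c)) j z) i :=
  path_marks_gen a i C m s hs k (fun t y => phi a t j y) (Pi.single j 1)
    (startFam_phi a ha hs0 j) τ hτ sel hsel h hh hC

end Pool.Agent.H.MP_5ad92a_pr
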