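import Pool.Agent.H.MP_5ad92a_pr.DefsF
import Pool.Agent.H.MP_5ad92a_pr.PhiProps
import Pool.Agent.H.MP_5ad92a_pr.Master
import Pool.Agent.H.MP_5ad92a_pr.Path
import Pool.Agent.H.MP_5ad92a_pr.Chain
import Pool.Agent.H.MP_5ad92a_pr.NewtonDet

/-!
# The finite system: normalisation, marks formula, exponential pair bound

`dens_integral`, `dens_marks`, `dens_pair_exp`: consequences of the master formula for the joint
density `dens`.
-/

set_option autoImplicit false

noncomputable section

open MeasureTheory Filter Topology Set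

namespace Pool.Agent.H.MP_5ad92a_pr

namespace FiniteN

theorem gk_nonneg (h x y : ℝ) : 0 ≤ gk h x y := by unfold gk; positivity

theorem gk_le (h x y : ℝ) (hh : 0 < h) : gk h x y ≤ (Real.sqrt (2 * Real.pi * h))⁻¹ := by
  unfold gk
  have h1 : Real.exp (-(x - y) ^ 2 / (2 * h)) ≤ 1 := by
    apply Real.exp_le_one_iff.2
    apply div_nonpos_of_nonpos_of_nonneg
    · nlinarith [sq_nonneg (x - y)]
    · positivity
  have h2 : 0 ≤ (Real.sqrt (2 * Real.pi * h))⁻¹ := by positivity
  nlinarith

theorem gk_continuous (h : ℝ) : Continuous (fun p : ℝ × ℝ => gk h p.1 p.2) := by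
  unfold gk; fun_prop

theorem psi_continuous {n : ℕ} (a : Fin n → ℝ) (s : ℝ) (k : Fin n) : Continuous (psi a s k) := by
  unfold psi; fun_prop

theorem psi_pos {n : ℕ} (a : Fin n → ℝ) (s : ℝ) (k : Fin n) (x : ℝ) : 0 < psi a s k x :=
  Real.exp_pos _

theorem times_pos {m : ℕ} {s : Fin (m + 1) → ℝ} (hs0 : 0 < s 0) (hs : StrictMono s)
    (l : Fin (m + 1)) : 0 < s l :=
  lt_of_lt_of_le hs0 (hs.monotone (Fin.zero_le l))

/-- The master formula for `dens`. -/
theorem master' {n m : ℕ} (a : Fin n → ℝ) (s : Fin (m + 1) → ℝ) (hs0 : 0 < s 0)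
    (hs : StrictMono s) {I : Type*} (J : Finset I) (u : I → Fin (m + 1) → Fin n → ℝ → ℝ)
    (hu : ∀ ι l j, Measurable (u ι l j)) (C : ℝ) (hC : ∀ ι l j z, |u ι l j z| ≤ C)
    (hsym : ∀ (ρ : Fin (m + 1) → Equiv.Perm (Fin n)) (x : Fin (m + 1) → Fin n → ℝ),
      ∑ ι ∈ J, ∏ l, ∏ j, u ι l j (x l (ρ l j)) = ∑ ι ∈ J, ∏ l, ∏ j, u ι l j (x l j)) :
    Integrable (fun x : Fin (m + 1) → Fin n → ℝ =>
        dens a s x * ∑ ι ∈ J, ∏ l, ∏ j, u ι l j (x l j)) ∧
    ∫ x : Fin (m + 1) → Fin n → ℝ, dens a s x * (∑ ι ∈ J, ∏ l, ∏ j, u ι l j (x l j)) =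
      ∑ ι ∈ J, Matrix.det (Matrix.of fun i j : Fin n =>
        pathInt (fun l : Fin m => gk (s l.succ - s l.castSucc)) (phi a (s 0) j)
          (fun l => u ι l j) (psi a (s (Fin.last m)) i)) :=
  master (phi a (s 0)) (fun l : Fin m => gk (s l.succ - s l.castSucc)) (psi a (s (Fin.last m)))
    (fun i => (phi_continuous a hs0 i).measurable) (fun _ => (gk_continuous _).measurable)
    (fun i => (psi_continuous a _ i).measurable) (path_integrable a s hs0 hs) J u hu C hC hsym

end FiniteN

open FiniteN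

theorem dens_integral {n m : ℕ} (a : Fin n → ℝ) (ha : Function.Injective a)
    (s : Fin (m + 1) → ℝ) (hs0 : 0 < s 0) (hs : StrictMono s) :
    Integrable (dens a s) ∧ ∫ x, dens a s x = 1 := by
  obtain ⟨h1, h2⟩ := master' a s hs0 hs ({()} : Finset Unit) (fun _ _ _ _ => 1)
    (fun _ _ _ => measurable_const) 1 (fun _ _ _ _ => by simp) (fun _ _ => by simp)
  have hP : ∀ i j : Fin n, pathInt (fun l : Fin m => gk (s l.succ - s l.castSucc))
      (phi a (s 0) j) (fun _ _ => 1) (psi a (s (Fin.last m)) i) = (Pi.single j 1 : Fin n → ℝ) i := by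
    intro i j
    have h3 := path_marks (k := 0) a ha s hs0 hs (fun c => c.elim0) (fun c => c.elim0)
      (fun c => c.elim0) (fun c => c.elim0) (fun c => c.elim0) (fun c => c.elim0) 0
      (fun c => c.elim0) i j
    simpa [chainJ] using h3
  simp only [Finset.prod_const_one, Finset.sum_singleton, mul_one] at h1 h2
  refine ⟨h1, ?_⟩
  rw [h2]
  have : (Matrix.of fun i j : Fin n => pathInt (fun l : Fin m => gk (s l.succ - s l.castSucc))
      (phi a (s 0) j) (fun _ _ => 1) (psi a (s (Fin.last m)) i)) = 1 := by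
    ext i j
    rw [Matrix.of_apply, hP, Matrix.one_apply, Pi.single_apply]
  rw [this, Matrix.det_one]

namespace FiniteN

/-- integrability of the two-time one-particle integrand -/
theorem pair_integrable {n m : ℕ} (a : Fin n → ℝ) (s : Fin (m + 1) → ℝ) (hs0 : 0 < s 0)
    (hs : StrictMono s) (i j : Fin (m + 1)) (hij : i < j) (b c : Fin n) :
    Integrable (fun z : ℝ × ℝ =>
      gk (s j - s i) z.1 z.2 * (psi a (s j) c z.2 * phi a (s i) b z.1)) := by
  have hm : StrictMono (![s i, s j] : Fin 2 → ℝ) := by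
    intro p q hpq
    fin_cases p <;> fin_cases q <;> simp at hpq ⊢
    exact hs hij
  have h := path_integrable (m := 1) a ![s i, s j] (times_pos hs0 hs i) hm b c
  have h2 := ((volume_preserving_finTwoArrow ℝ).symm.integrable_comp_emb
    (MeasurableEquiv.finTwoArrow (α := ℝ)).symm.measurableEmbedding
    (g := fun z : Fin 2 → ℝ => phi a ((![s i, s j] : Fin 2 → ℝ) 0) b (z 0) *
      (∏ k : Fin 1, gk ((![s i, s j] : Fin 2 → ℝ) k.succ - (![s i, s j] : Fin 2 → ℝ) k.castSucc)
        (z k.castSucc) (z k.succ)) *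
      psi a ((![s i, s j] : Fin 2 → ℝ) (Fin.last 1)) c (z (Fin.last 1)))).2 h
  refine h2.congr (Filter.Eventually.of_forall fun z => ?_)
  simp [MeasurableEquiv.finTwoArrow, MeasurableEquiv.piFinTwo, piFinTwoEquiv]
  ring

end FiniteN

theorem dens_pair_exp {n m : ℕ} (a : Fin n → ℝ) (ha : Function.Injective a)
    (s : Fin (m + 1) → ℝ) (hs0 : 0 < s 0) (hs : StrictMono s) (i j : Fin (m + 1)) (hij : i < j)
    (f : ℝ → ℝ) (hf : Measurable f) (Cf : ℝ) (hfb : ∀ z, |f z| ≤ Cf) (lam : ℝ)
    (A B : ℝ → ℝ) (hA : ∀ x, 0 ≤ A x) (hB : ∀ y, 0 ≤ B y)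
    (hK : ∀ x y, |Kfin a (s j) y (s i) x| ≤ B y * A x)
    (hI : Integrable (fun z : ℝ × ℝ => |Real.exp (lam * (f z.2 - f z.1)) - 1| *
      gk (s j - s i) z.1 z.2 * (A z.1 * B z.2)))
    (h1 : ∫ z : ℝ × ℝ, |Real.exp (lam * (f z.2 - f z.1)) - 1| *
      gk (s j - s i) z.1 z.2 * (A z.1 * B z.2) < 1) :
    ∫ x, dens a s x * Real.exp (lam * ((∑ l, f (x j l)) - ∑ l, f (x i l))) ≤
      1 / (1 - ∫ z : ℝ × ℝ, |Real.exp (lam * (f z.2 - f z.1)) - 1| *
        gk (s j - s i) z.1 z.2 * (A z.1 * B z.2)) := by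
  have hij' : i ≠ j := hij.ne
  have hsij : s i < s j := hs hij
  have hti := times_pos hs0 hs i
  have htj := times_pos hs0 hs j
  -- weights
  set em : ℝ → ℝ := fun z => Real.exp (-(lam * f z)) with hem
  set ep : ℝ → ℝ := fun z => Real.exp (lam * f z) with hep
  have hemm : Measurable em := by
    have : Measurable fun z => -(lam * f z) := (hf.const_mul lam).neg
    exact Real.measurable_exp.comp this
  have hepm : Measurable ep := Real.measurable_exp.comp (hf.const_mul lam)
  have hCf : 0 ≤ Cf := (abs_nonneg _).trans (hfb 0)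
  have habs : ∀ z, |lam * f z| ≤ |lam| * Cf := fun z => by
    rw [abs_mul]; exact mul_le_mul_of_nonneg_left (hfb z) (abs_nonneg _)
  have hemb : ∀ z, em z ≤ Real.exp (|lam| * Cf) := fun z =>
    Real.exp_le_exp.2 ((neg_le_abs _).trans (habs z))
  have hepb : ∀ z, ep z ≤ Real.exp (|lam| * Cf) := fun z =>
    Real.exp_le_exp.2 ((le_abs_self _).trans (habs z))
  have hC1 : 1 ≤ Real.exp (|lam| * Cf) := Real.one_le_exp (by positivity)
  have hC0 : 0 < Real.exp (|lam| * Cf) := Real.exp_pos _
  set u : Fin (m + 1) → ℝ → ℝ :=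
    fun l z => (if l = i then em z else 1) * (if l = j then ep z else 1) with hu
  have hum : ∀ l, Measurable (u l) := by
    intro l
    rw [hu]
    exact Measurable.mul (by by_cases h3 : l = i <;> simp [h3, hemm])
      (by by_cases h4 : l = j <;> simp [h4, hepm])
  have hub : ∀ l z, |u l z| ≤ Real.exp (|lam| * Cf) ^ 2 := by
    intro l z
    have e1 : |if l = i then em z else 1| ≤ Real.exp (|lam| * Cf) := by
      split_ifs
      · rw [abs_of_pos (Real.exp_pos _)]; exact hemb z
      · simpa using hC1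
    have e2 : |if l = j then ep z else 1| ≤ Real.exp (|lam| * Cf) := by
      split_ifs
      · rw [abs_of_pos (Real.exp_pos _)]; exact hepb z
      · simpa using hC1
    rw [hu, abs_mul, sq]
    exact mul_le_mul e1 e2 (abs_nonneg _) hC0.le
  obtain ⟨-, hmain⟩ := master' a s hs0 hs ({()} : Finset Unit) (fun _ l _ => u l)
    (fun _ l _ => hum l) _ (fun _ l _ z => hub l z) (by
      intro ρ x
      simp only [Finset.sum_singleton]
      refine Finset.prod_congr rfl fun l _ => ?_
      exact Equiv.prod_comp (ρ l) (fun p => u l (x l p)))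
  simp only [Finset.sum_singleton] at hmain
  -- the left side
  have hL : ∀ x : Fin (m + 1) → Fin n → ℝ, ∏ l, ∏ p, u l (x l p) =
      Real.exp (lam * ((∑ l, f (x j l)) - ∑ l, f (x i l))) := by
    intro x
    simp only [hu, Finset.prod_mul_distrib]
    have e1 : ∏ l, ∏ p, (if l = i then em (x l p) else 1) = ∏ p, em (x i p) := by
      rw [Finset.prod_eq_single i]
      · simp
      · intro l _ hl; simp [hl]
      · simp
    have e2 : ∏ l, ∏ p, (if l = j then ep (x l p) else 1) = ∏ p, ep (x j p) := by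
      rw [Finset.prod_eq_single j]
      · simp
      · intro l _ hl; simp [hl]
      · simp
    rw [e1, e2, hem, hep, ← Real.exp_sum, ← Real.exp_sum, ← Real.exp_add]
    congr 1
    rw [Finset.sum_neg_distrib, ← Finset.mul_sum, ← Finset.mul_sum]
    ring
  simp only [hL] at hmain
  rw [hmain]
  -- the matrix
  set H : ℝ × ℝ → ℝ := fun z => (Real.exp (lam * (f z.2 - f z.1)) - 1) * gk (s j - s i) z.1 z.2
    with hH
  have hpint := fun b c => pair_integrable a s hs0 hs i j hij b c
  have hHm : Measurable fun z : ℝ × ℝ => Real.exp (lam * (f z.2 - f z.1)) := by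
    have h5 : Measurable fun z : ℝ × ℝ => f z.2 := hf.comp measurable_snd
    have h6 : Measurable fun z : ℝ × ℝ => f z.1 := hf.comp measurable_fst
    exact Real.measurable_exp.comp ((h5.sub h6).const_mul lam)
  have hHb : ∀ z : ℝ × ℝ, Real.exp (lam * (f z.2 - f z.1)) ≤ Real.exp (|lam| * Cf) ^ 2 := by
    intro z
    rw [← Real.exp_nat_mul]
    apply Real.exp_le_exp.2
    have h7 := (abs_le.1 (habs z.2)).2
    have h8 := (abs_le.1 (habs z.1)).1
    push_cast
    linarith
  have hexpint : ∀ b c, Integrable (fun z : ℝ × ℝ => Real.exp (lam * (f z.2 - f z.1)) *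
      (gk (s j - s i) z.1 z.2 * (psi a (s j) c z.2 * phi a (s i) b z.1))) := by
    intro b c
    refine (hpint b c).bdd_mul hHm.aestronglyMeasurable (c := Real.exp (|lam| * Cf) ^ 2)
      (Filter.Eventually.of_forall fun z => ?_)
    rw [Real.norm_eq_abs, abs_of_pos (Real.exp_pos _)]
    exact hHb z
  have hHint : ∀ b c, Integrable (fun z : ℝ × ℝ => H z *
      (psi a (s j) c z.2 * phi a (s i) b z.1)) := by
    intro b c
    refine ((hexpint b c).sub (hpint b c)).congr (Filter.Eventually.of_forall fun z => ?_)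
    simp only [hH, Pi.sub_apply]
    ring
  -- the path integral
  have hpath : ∀ c b : Fin n, pathInt (fun l : Fin m => gk (s l.succ - s l.castSucc))
      (phi a (s 0) b) (fun l => u l) (psi a (s (Fin.last m)) c) =
      (1 : Matrix (Fin n) (Fin n) ℝ) c b + ∫ z, H z * (psi a (s j) c z.2 * phi a (s i) b z.1) := by
    intro c b
    have hmono : Monotone (![i, j] : Fin 2 → Fin (m + 1)) := by
      intro p q hpq
      fin_cases p <;> fin_cases q <;> simp at hpq ⊢
      exact hij.le
    have h3 := path_marks (k := 2) a ha s hs0 hs ![i, j] hmono (fun _ => true)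
      (by
        intro p q _ _ hpq
        fin_cases p <;> fin_cases q <;> simp at hpq ⊢
        · exact hij'
        · exact hij'.symm)
      ![em, ep] (by intro p; fin_cases p <;> simp [hemm, hepm]) (Real.exp (|lam| * Cf))
      (by
        intro p z
        fin_cases p
        · simpa [hem] using hemb z
        · simpa [hep] using hepb z) c b
    have h4 : (fun (l : Fin (m + 1)) (z : ℝ) => ∏ p ∈ Finset.univ.filter
        (fun p : Fin 2 => (![i, j] : Fin 2 → Fin (m + 1)) p = l ∧ true = true),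
        (![em, ep] : Fin 2 → ℝ → ℝ) p z) = fun l z => u l z := by
      funext l z
      rw [Finset.prod_filter, Fin.prod_univ_two]
      simp only [hu, Matrix.cons_val_zero, Matrix.cons_val_one, and_true, eq_comm (a := l)]
    rw [h4] at h3
    have h5 : pathInt (fun l : Fin m => gk (s l.succ - s l.castSucc))
      (phi a (s 0) b) (fun l => u l) (psi a (s (Fin.last m)) c) =
      ∫ z : ℝ, em z * phi a (s i) b z * ∫ w : ℝ, ep w * gk (s j - s i) z w * psi a (s j) c w := by
      rw [show (fun l => u l) = fun l z => u l z from rfl, h3]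
      simp [chainJ, gP, hsij]
    rw [h5]
    -- Fubini
    have h6 : ∫ z : ℝ, em z * phi a (s i) b z * ∫ w : ℝ, ep w * gk (s j - s i) z w *
        psi a (s j) c w = ∫ z : ℝ × ℝ, Real.exp (lam * (f z.2 - f z.1)) *
      (gk (s j - s i) z.1 z.2 * (psi a (s j) c z.2 * phi a (s i) b z.1)) := by
      rw [Measure.volume_eq_prod, integral_prod _ (by
        have := hexpint b c
        rwa [Measure.volume_eq_prod] at this)]
      refine integral_congr_ae (Filter.Eventually.of_forall fun z => ?_)
      simp only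
      rw [← integral_const_mul]
      refine integral_congr_ae (Filter.Eventually.of_forall fun w => ?_)
      simp only [hem, hep]
      rw [show lam * (f w - f z) = -(lam * f z) + lam * f w by ring, Real.exp_add]
      ring
    have h7 : ∫ z : ℝ × ℝ, gk (s j - s i) z.1 z.2 * (psi a (s j) c z.2 * phi a (s i) b z.1) =
        (1 : Matrix (Fin n) (Fin n) ℝ) c b := by
      rw [Measure.volume_eq_prod, integral_prod _ (by
        have := hpint b c
        rwa [Measure.volume_eq_prod] at this)]
      have h8 : ∀ z : ℝ, ∫ w : ℝ, gk (s j - s i) z w * (psi a (s j) c w * phi a (s i) b z) =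
          phi a (s i) b z * psi a (s i) c z := by
        intro z
        have h9 := psi_semigroup a (s i) (sub_pos.2 hsij) c z
        rw [add_sub_cancel] at h9
        rw [← h9, ← integral_const_mul]
        refine integral_congr_ae (Filter.Eventually.of_forall fun w => ?_)
        simp only
        ring
      simp only [h8]
      rw [phi_psi_orth a ha hti, Matrix.one_apply]
      simp only [eq_comm]
    rw [h6, ← h7, ← integral_add (hpint b c) (hHint b c)]
    refine integral_congr_ae (Filter.Eventually.of_forall fun z => ?_)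
    simp only [hH]
    ring
  have hmat : (Matrix.of fun c b : Fin n => pathInt (fun l : Fin m =>
      gk (s l.succ - s l.castSucc)) (phi a (s 0) b) (fun l => u l) (psi a (s (Fin.last m)) c)) =
      1 + Matrix.of fun c b : Fin n => ∫ z, H z * (psi a (s j) c z.2 * phi a (s i) b z.1) := by
    ext c b
    rw [Matrix.of_apply, hpath, Matrix.add_apply, Matrix.of_apply]
  rw [hmat]
  have habsH : ∀ z : ℝ × ℝ, |H z| * (A z.1 * B z.2) =
      |Real.exp (lam * (f z.2 - f z.1)) - 1| * gk (s j - s i) z.1 z.2 * (A z.1 * B z.2) := by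
    intro z
    rw [hH]
    simp only
    rw [abs_mul, abs_of_nonneg (gk_nonneg _ _ _)]
  have hfin := det_one_add_bound (volume : Measure (ℝ × ℝ)) (fun b z => phi a (s i) b z.1)
    (fun c z => psi a (s j) c z.2) H (fun c b => hHint b c) (fun z => A z.1) (fun z => B z.2)
    (fun z => hA z.1) (fun z => hB z.2) (fun z z' => hK z'.1 z.2)
    (by simpa only [habsH] using hI) (by simpa only [habsH] using h1)
  simp only [habsH] at hfin
  exact (le_abs_self _).trans hfin


namespace FiniteN

/-! ### vanishing of chain integrals -/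

theorem chainJ_of_first_zero {n : ℕ} {Z : Type*} [MeasurableSpace Z] (ν : Measure Z) :
    ∀ (k : ℕ) (sel : Fin k → Bool) (h : Fin k → Z → ℝ) (ψ : Fin k → Z → Fin n → ℝ)
      (P : Fin k → Z → Fin k → Z → ℝ) (v : Fin n → ℝ) (r : Fin k → Z → ℝ) (d : Fin k)
      (_ : sel d = true) (_ : ∀ a ≤ d, sel a = true → ∀ z, r a z = 0),
      chainJ ν k sel h ψ P v r = 0
  | 0, _, _, _, _, _, _, d, _, _ => d.elim0
  | k + 1, sel, h, ψ, P, v, r, d, hd, hr => by
    rw [chainJ]
    split_ifs with h0
    · funext i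
      have : ∀ z, r 0 z = 0 := hr 0 (Fin.zero_le d) h0
      simp [this]
    · have hd0 : d ≠ 0 := by rintro rfl; exact h0 hd
      obtain ⟨d', rfl⟩ := Fin.exists_succ_eq.2 hd0
      exact chainJ_of_first_zero ν k _ _ _ _ _ _ d' hd
        (fun a ha hs z => hr a.succ (Fin.succ_le_succ_iff.2 ha) hs z)

theorem chainJ_eq_zero {n : ℕ} {Z : Type*} [MeasurableSpace Z] (ν : Measure Z) {Λ : Type*}
    [PartialOrder Λ] :
    ∀ (k : ℕ) (T : Fin k → Λ) (_ : Monotone T) (sel : Fin k → Bool) (h : Fin k → Z → ℝ)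
      (ψ : Fin k → Z → Fin n → ℝ)
      (P : Fin k → Z → Fin k → Z → ℝ) (_ : ∀ c d, T c = T d → ∀ z z', P c z d z' = 0)
      (v : Fin n → ℝ) (r : Fin k → Z → ℝ) (c d : Fin k) (_ : c < d)
      (_ : sel c = true) (_ : sel d = true) (_ : T c = T d),
      chainJ ν k sel h ψ P v r = 0
  | 0, _, _, _, _, _, _, _, _, _, d, _, _, _, _, _ => d.elim0
  | k + 1, T, hT, sel, h, ψ, P, hP, v, r, c, d, hcd, hc, hd, hcdT => by
    have hT' : Monotone fun a : Fin k => T a.succ := fun a b hab =>
      hT (Fin.succ_le_succ_iff.2 hab)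
    have hP' : ∀ a b : Fin k, T a.succ = T b.succ → ∀ z z', P a.succ z b.succ z' = 0 :=
      fun a b hab => hP _ _ hab
    have hd0 : d ≠ 0 := by
      rintro rfl
      exact absurd hcd (not_lt.2 (Fin.zero_le c))
    obtain ⟨d', rfl⟩ := Fin.exists_succ_eq.2 hd0
    rw [chainJ]
    by_cases hc0 : c = 0
    · subst hc0
      rw [if_pos hc]
      funext i
      have : ∀ z, chainJ ν k (fun a => sel a.succ) (fun a => h a.succ) (fun a => ψ a.succ)
          (fun a z' b => P a.succ z' b.succ) (ψ 0 z) (fun a => P 0 z a.succ) = 0 := by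
        intro z
        refine chainJ_of_first_zero ν k _ _ _ _ _ _ d' hd (fun a ha _ z' => ?_)
        apply hP
        apply le_antisymm (hT (Fin.zero_le _))
        rw [hcdT]
        exact hT (Fin.succ_le_succ_iff.2 ha)
      simp [this]
    · obtain ⟨c', rfl⟩ := Fin.exists_succ_eq.2 hc0
      have hcd' : c' < d' := Fin.succ_lt_succ_iff.1 hcd
      split_ifs with h0
      · funext i
        have : ∀ z, chainJ ν k (fun a => sel a.succ) (fun a => h a.succ) (fun a => ψ a.succ)
            (fun a z' b => P a.succ z' b.succ) (ψ 0 z) (fun a => P 0 z a.succ) = 0 := fun z =>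
          chainJ_eq_zero ν k (fun a => T a.succ) hT' _ _ _ _ hP' _ _ c' d' hcd' hc hd hcdT
        simp [this]
      · exact chainJ_eq_zero ν k (fun a => T a.succ) hT' _ _ _ _ hP' _ _ c' d' hcd' hc hd hcdT

/-- the marks formula for monotone marks -/
theorem dens_marks_mono {n m k : ℕ} (a : Fin n → ℝ) (ha : Function.Injective a)
    (s : Fin (m + 1) → ℝ) (hs0 : 0 < s 0) (hs : StrictMono s)
    (τ : Fin k → Fin (m + 1)) (hτ : Monotone τ) (h : Fin k → ℝ → ℝ) (hh : ∀ c, Measurable (h c))
    (C R : ℝ) (hC : ∀ c z, |h c z| ≤ C) (hR : ∀ c z, R < |z| → h c z = 0) :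
    ∫ x, dens a s x * (∑ ι : Fin k → Fin n with Adm τ ι, ∏ c, h c (x (τ c) (ι c))) =
      ∫ y : Fin k → ℝ, (∏ c, h c (y c)) * Matrix.det (Matrix.of fun c d : Fin k =>
        Kfin a (s (τ c)) (y c) (s (τ d)) (y d) - gP (s (τ c)) (s (τ d)) (y c) (y d)) := by
  classical
  set u : (Fin k → Fin n) → Fin (m + 1) → Fin n → ℝ → ℝ := fun ι l j z =>
    ∏ c ∈ Finset.univ.filter (fun c => τ c = l ∧ ι c = j), h c z with hu
  have hprod : ∀ (ι : Fin k → Fin n) (x : Fin (m + 1) → Fin n → ℝ),
      ∏ l, ∏ j, u ι l j (x l j) = ∏ c, h c (x (τ c) (ι c)) := by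
    intro ι x
    simp only [hu]
    rw [← Finset.prod_product' Finset.univ Finset.univ (fun l j =>
      ∏ c ∈ Finset.univ.filter (fun c => τ c = l ∧ ι c = j), h c (x l j))]
    rw [← Finset.prod_fiberwise_of_maps_to (s := Finset.univ)
      (t := Finset.univ ×ˢ Finset.univ) (g := fun c => (τ c, ι c)) (fun _ _ => by simp)
      (fun c => h c (x (τ c) (ι c)))]
    refine Finset.prod_congr rfl fun p _ => ?_
    refine Finset.prod_congr ?_ ?_
    · ext c
      simp [Prod.ext_iff]
    · intro c hc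
      simp only [Finset.mem_filter, Finset.mem_univ, true_and] at hc
      rw [← hc]
  -- the master formula
  have hCC : 1 ≤ max 1 |C| := le_max_left _ _
  obtain ⟨-, hmain⟩ := master' a s hs0 hs (Finset.univ.filter fun ι : Fin k → Fin n => Adm τ ι) u
    (fun ι l j => Finset.measurable_prod _ fun c _ => hh c) ((max 1 |C|) ^ k)
    (fun ι l j z => by
      rw [hu, Finset.abs_prod]
      calc ∏ c ∈ Finset.univ.filter (fun c => τ c = l ∧ ι c = j), |h c z|
          ≤ ∏ _c ∈ Finset.univ.filter (fun c => τ c = l ∧ ι c = j), max 1 |C| :=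
            Finset.prod_le_prod (fun _ _ => abs_nonneg _) fun c _ =>
              (hC c z).trans ((le_abs_self C).trans (le_max_right _ _))
        _ = (max 1 |C|) ^ (Finset.univ.filter (fun c => τ c = l ∧ ι c = j)).card := by
            rw [Finset.prod_const]
        _ ≤ (max 1 |C|) ^ k := by
            apply pow_le_pow_right₀ hCC
            calc (Finset.univ.filter (fun c => τ c = l ∧ ι c = j)).card
                ≤ (Finset.univ : Finset (Fin k)).card := Finset.card_filter_le _ _
              _ = k := by simp)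
    (fun ρ x => by
      have e1 : ∀ ι : Fin k → Fin n, ∏ l, ∏ j, u ι l j (x l (ρ l j)) =
          ∏ c, h c (x (τ c) (ρ (τ c) (ι c))) := fun ι => hprod ι (fun l j => x l (ρ l j))
      simp only [e1, hprod]
      refine Finset.sum_equiv (Equiv.piCongrRight fun c => ρ (τ c)) (fun ι => ?_) (fun ι _ => ?_)
      · simp only [Finset.mem_filter, Finset.mem_univ, true_and, Adm, Equiv.piCongrRight_apply,
          Pi.map_apply]
        constructor
        · intro hι p q hpq hτpq hcon
          rw [hτpq] at hcon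
          exact hι p q hpq hτpq ((ρ (τ q)).injective hcon)
        · intro hι p q hpq hτpq hcon
          refine hι p q hpq hτpq ?_
          rw [hτpq, hcon]
      · simp)
  simp only [hprod] at hmain
  rw [hmain]
  -- path integrals are chain integrals
  set P : Fin k → ℝ → Fin k → ℝ → ℝ := fun c z d z' => gP (s (τ c)) (s (τ d)) z z' with hP
  have hpath : ∀ ι ∈ Finset.univ.filter (fun ι : Fin k → Fin n => Adm τ ι), ∀ i j : Fin n,
      pathInt (fun l : Fin m => gk (s l.succ - s l.castSucc)) (phi a (s 0) j)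
          (fun l => u ι l j) (psi a (s (Fin.last m)) i) =
      chainJ volume k (fun c => decide (ι c = j)) h (fun c z i => psi a (s (τ c)) i z) P
        (Pi.single j 1) (fun c z => phi a (s (τ c)) j z) i := by
    intro ι hι i j
    simp only [Finset.mem_filter, Finset.mem_univ, true_and] at hι
    have h3 := path_marks a ha s hs0 hs τ hτ (fun c => decide (ι c = j))
      (fun c d hc hd hcd hτcd => by
        simp only [decide_eq_true_eq] at hc hd
        exact hι c d hcd hτcd (hc.trans hd.symm)) h hh C hC i j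
    simp only [decide_eq_true_eq] at h3
    exact h3
  rw [Finset.sum_congr rfl (fun ι hι => by
    rw [show (Matrix.of fun i j : Fin n =>
      pathInt (fun l : Fin m => gk (s l.succ - s l.castSucc)) (phi a (s 0) j)
          (fun l => u ι l j) (psi a (s (Fin.last m)) i)) =
      Matrix.of fun i j : Fin n => chainJ volume k (fun c => decide (ι c = j)) h
        (fun c z i => psi a (s (τ c)) i z) P
        (Pi.single j 1) (fun c z => phi a (s (τ c)) j z) i from by
        ext i j
        exact hpath ι hι i j])]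
  rw [Finset.sum_subset (Finset.filter_subset _ _) (fun ι _ hι => by
    simp only [Finset.mem_filter, Finset.mem_univ, true_and, Adm] at hι
    push Not at hι
    obtain ⟨c, d, hcd, hτcd, hιcd⟩ := hι
    obtain ⟨c, d, hcd, hτcd, hιcd⟩ : ∃ c d, c < d ∧ τ c = τ d ∧ ι c = ι d := by
      rcases lt_or_gt_of_ne hcd with h4 | h4
      · exact ⟨c, d, h4, hτcd, hιcd⟩
      · exact ⟨d, c, h4, hτcd.symm, hιcd.symm⟩
    apply Matrix.det_eq_zero_of_column_eq_zero (ι c)
    intro i
    rw [Matrix.of_apply, chainJ_eq_zero volume k τ hτ _ _ _ P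
      (fun p q hpq z z' => by simp [hP, gP, hpq]) _ _ c d hcd (by simp) (by simp [hιcd]) hτcd]
    rfl)]
  -- bounds
  have htp := times_pos hs0 hs
  obtain ⟨C1, hC1⟩ : ∃ C1 : ℝ, ∀ c z i, h c z ≠ 0 → |psi a (s (τ c)) i z| ≤ C1 := by
    have h4 : ∀ p : Fin k × Fin n, ∃ B : ℝ, ∀ z ∈ Icc (-R) R, ‖psi a (s (τ p.1)) p.2 z‖ ≤ B :=
      fun p => isCompact_Icc.exists_bound_of_continuousOn (psi_continuous a _ _).continuousOn
    choose B hB using h4
    obtain ⟨C1, hC1⟩ := (Set.finite_range B).bddAbove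
    refine ⟨C1, fun c z i hz => ?_⟩
    have hzR : |z| ≤ R := by
      by_contra hcon
      exact hz (hR c z (not_le.1 hcon))
    exact (hB (c, i) z (abs_le.1 hzR)).trans (hC1 ⟨(c, i), rfl⟩)
  obtain ⟨C2, hC2⟩ : ∃ C2 : ℝ, ∀ j c z, h c z ≠ 0 → |phi a (s (τ c)) j z| ≤ C2 := by
    have h4 : ∀ p : Fin n × Fin k, ∃ B : ℝ, ∀ z ∈ Icc (-R) R, ‖phi a (s (τ p.2)) p.1 z‖ ≤ B :=
      fun p => isCompact_Icc.exists_bound_of_continuousOn
        (phi_continuous a (htp _) _).continuousOn
    choose B hB using h4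
    obtain ⟨C2, hC2⟩ := (Set.finite_range B).bddAbove
    refine ⟨C2, fun j c z hz => ?_⟩
    have hzR : |z| ≤ R := by
      by_contra hcon
      exact hz (hR c z (not_le.1 hcon))
    exact (hB (j, c) z (abs_le.1 hzR)).trans (hC2 ⟨(j, c), rfl⟩)
  obtain ⟨C3, hC3⟩ : ∃ C3 : ℝ, ∀ c z d z', |P c z d z'| ≤ C3 := by
    have h4 : ∀ p : Fin k × Fin k, ∃ B : ℝ, ∀ z z', |P p.1 z p.2 z'| ≤ B := by
      intro p
      by_cases hlt : s (τ p.1) < s (τ p.2)
      · refine ⟨(Real.sqrt (2 * Real.pi * (s (τ p.2) - s (τ p.1))))⁻¹, fun z z' => ?_⟩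
        simp only [hP, gP, if_pos hlt]
        rw [abs_of_nonneg (gk_nonneg _ _ _)]
        exact gk_le _ _ _ (sub_pos.2 hlt)
      · exact ⟨0, fun z z' => by simp [hP, gP, if_neg hlt]⟩
    choose B hB using h4
    obtain ⟨C3, hC3⟩ := (Set.finite_range B).bddAbove
    exact ⟨C3, fun c z d z' => (hB (c, d) z z').trans (hC3 ⟨(c, d), rfl⟩)⟩
  obtain ⟨-, hdet⟩ := chain_det (volume : Measure ℝ) h (fun c z i => psi a (s (τ c)) i z) P
    (fun j c z => phi a (s (τ c)) j z) hh
    (fun c => by
      refine Integrable.mono' (g := Set.indicator (Icc (-R) R) fun _ => C)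
        ((integrable_indicator_iff measurableSet_Icc).2
          (integrableOn_const (by simp)))
        (hh c).aestronglyMeasurable (Filter.Eventually.of_forall fun z => ?_)
      by_cases hz : z ∈ Icc (-R) R
      · rw [Set.indicator_of_mem hz]; exact hC c z
      · rw [Set.indicator_of_notMem hz, hR c z (by
          by_contra hcon
          exact hz (abs_le.1 (not_lt.1 hcon)))]
        simp)
    (fun c i => (psi_continuous a _ i).measurable)
    (fun c d => by
      by_cases hlt : s (τ c) < s (τ d)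
      · simpa [hP, gP, hlt, Function.uncurry_def] using (gk_continuous _).measurable
      · simp only [hP, gP, if_neg hlt, Function.uncurry_def]
        exact measurable_const)
    (fun j c => (phi_continuous a (htp _) j).measurable)
    (max C1 (max C2 C3)) (fun c z i hz => (hC1 c z i hz).trans (le_max_left _ _))
    (fun j c z hz => (hC2 j c z hz).trans ((le_max_left _ _).trans (le_max_right _ _)))
    (fun c z d z' => (hC3 c z d z').trans ((le_max_right _ _).trans (le_max_right _ _)))
    (fun c z d z' hdc => by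
      simp only [hP, gP]
      rw [if_neg (not_lt.2 (hs.monotone (hτ hdc)))])
  rw [hdet]
  rfl

end FiniteN

theorem dens_marks {n m k : ℕ} (a : Fin n → ℝ) (ha : Function.Injective a)
    (s : Fin (m + 1) → ℝ) (hs0 : 0 < s 0) (hs : StrictMono s)
    (τ : Fin k → Fin (m + 1)) (h : Fin k → ℝ → ℝ) (hh : ∀ c, Measurable (h c))
    (C R : ℝ) (hC : ∀ c z, |h c z| ≤ C) (hR : ∀ c z, R < |z| → h c z = 0) :
    ∫ x, dens a s x * (∑ ι : Fin k → Fin n with Adm τ ι, ∏ c, h c (x (τ c) (ι c))) =
      ∫ y : Fin k → ℝ, (∏ c, h c (y c)) * Matrix.det (Matrix.of fun c d : Fin k =>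
        Kfin a (s (τ c)) (y c) (s (τ d)) (y d) - gP (s (τ c)) (s (τ d)) (y c) (y d)) := by
  classical
  set π := Tuple.sort τ with hπ
  have h1 := dens_marks_mono a ha s hs0 hs (τ ∘ π) (Tuple.monotone_sort τ) (fun c => h (π c))
    (fun c => hh _) C R (fun c z => hC _ z) (fun c z => hR _ z)
  have h2 : ∀ x : Fin (m + 1) → Fin n → ℝ,
      ∑ ι : Fin k → Fin n with Adm (τ ∘ π) ι, ∏ c, h (π c) (x ((τ ∘ π) c) (ι c)) =
      ∑ ι : Fin k → Fin n with Adm τ ι, ∏ c, h c (x (τ c) (ι c)) := by
    intro x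
    refine Finset.sum_equiv (π.arrowCongr (Equiv.refl _)) (fun ι => ?_) (fun ι _ => ?_)
    · simp only [Finset.mem_filter, Finset.mem_univ, true_and, Adm, Equiv.arrowCongr_apply,
        Equiv.coe_refl, Function.comp_apply, id_eq]
      constructor
      · intro hι p q hpq hτpq
        refine hι _ _ (fun hcon => hpq (π.symm.injective hcon)) ?_
        simpa using hτpq
      · intro hι p q hpq hτpq
        have := hι (π p) (π q) (fun hcon => hpq (π.injective hcon)) hτpq
        simpa using this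
    · refine Fintype.prod_equiv π _ _ (fun c => ?_)
      simp [Equiv.arrowCongr_apply]
  have h1' : ∫ x, dens a s x * (∑ ι : Fin k → Fin n with Adm τ ι,
      ∏ c, h c (x (τ c) (ι c))) = ∫ x, dens a s x * (∑ ι : Fin k → Fin n with Adm (τ ∘ π) ι,
        ∏ c, h (π c) (x ((τ ∘ π) c) (ι c))) := by
    refine integral_congr_ae (Filter.Eventually.of_forall fun x => ?_)
    show dens a s x * _ = dens a s x * _
    rw [← h2 x]
  rw [h1', h1]
  have hmp := volume_measurePreserving_piCongrLeft (fun _ : Fin k => ℝ) π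
  rw [← hmp.integral_comp' (g := fun y : Fin k → ℝ => (∏ c, h c (y c)) *
    Matrix.det (Matrix.of fun c d : Fin k =>
        Kfin a (s (τ c)) (y c) (s (τ d)) (y d) - gP (s (τ c)) (s (τ d)) (y c) (y d)))]
  refine integral_congr_ae (Filter.Eventually.of_forall fun y => ?_)
  have h3 : ∀ c, (MeasurableEquiv.piCongrLeft (fun _ : Fin k => ℝ) π) y (π c) = y c := fun c =>
    MeasurableEquiv.piCongrLeft_apply_apply (β := fun _ : Fin k => ℝ) π y c
  show (∏ c, h (π c) (y c)) * _ = (∏ c, h c _) * _
  rw [← Equiv.prod_comp π (fun c => h c ((MeasurableEquiv.piCongrLeft (fun _ : Fin k => ℝ) π) y c))]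
  rw [← Matrix.det_submatrix_equiv_self π (Matrix.of fun c d : Fin k =>
        Kfin a (s (τ c)) ((MeasurableEquiv.piCongrLeft (fun _ : Fin k => ℝ) π) y c) (s (τ d))
          ((MeasurableEquiv.piCongrLeft (fun _ : Fin k => ℝ) π) y d) -
        gP (s (τ c)) (s (τ d)) ((MeasurableEquiv.piCongrLeft (fun _ : Fin k => ℝ) π) y c)
          ((MeasurableEquiv.piCongrLeft (fun _ : Fin k => ℝ) π) y d))]
  simp only [h3]
  congr 2
  ext c d
  simp only [Matrix.of_apply, Matrix.submatrix_apply, Function.comp_apply]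
  rw [h3, h3]

end Pool.Agent.H.MP_5ad92a_pr
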