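import Pool.Agent.H.MP_5ad92a_pr.PhiProps

/-!
# Sign of the determinant of the Hermite-type family
-/

set_option autoImplicit false

noncomputable section

open MeasureTheory Filter Topology Set

namespace Pool.Agent.H.MP_5ad92a_pr

namespace HpAux

open Polynomial

lemma hp_degree {s : ℝ} (hs : 0 < s) (j : ℕ) :
    (hp s j).natDegree = j ∧ (hp s j).coeff j = (1 / s) ^ j := by
  induction j with
  | zero => simp [hp]
  | succ j ih =>
    have hs' : (1 / s) ≠ 0 := (one_div_pos.mpr hs).ne'
    have hle : (hp s (j + 1)).natDegree ≤ j + 1 := by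
      rw [hp]
      refine (natDegree_sub_le _ _).trans (max_le ?_ ?_)
      · rw [mul_assoc]
        refine (natDegree_C_mul_le _ _).trans ?_
        refine natDegree_mul_le.trans ?_
        rw [natDegree_X, ih.1, add_comm]
      · refine (natDegree_derivative_le _).trans ?_
        rw [ih.1]; omega
    have hc : (hp s (j + 1)).coeff (j + 1) = (1 / s) ^ (j + 1) := by
      rw [hp, coeff_sub, mul_assoc, coeff_C_mul, coeff_X_mul, ih.2, coeff_derivative,
        coeff_eq_zero_of_natDegree_lt (by rw [ih.1]; omega)]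
      ring
    refine ⟨le_antisymm hle ?_, hc⟩
    apply le_natDegree_of_ne_zero
    rw [hc]
    exact pow_ne_zero _ hs'

/-- Vandermonde product. -/
def V {n : ℕ} (a : Fin n → ℝ) : ℝ := ∏ i, ∏ j ∈ Finset.Ioi i, (a j - a i)

lemma V_eq_det {n : ℕ} (a : Fin n → ℝ) : V a = (Matrix.vandermonde a).det :=
  (Matrix.det_vandermonde a).symm

lemma det_hp {n : ℕ} {s : ℝ} (hs : 0 < s) (x : Fin n → ℝ) :
    Matrix.det (Matrix.of fun l j : Fin n => (hp s j).eval (x l)) =
      (∏ j : Fin n, (1 / s) ^ (j : ℕ)) * V x := by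
  have hs' : (1 / s) ≠ 0 := (one_div_pos.mpr hs).ne'
  set p : Fin n → Polynomial ℝ := fun j => C (s ^ (j : ℕ)) * hp s j with hp'
  have hsj : ∀ j : ℕ, s ^ j ≠ 0 := fun j => pow_ne_zero _ hs.ne'
  have hdeg : ∀ j, (p j).natDegree = j := by
    intro j
    rw [hp']
    simp only
    rw [natDegree_C_mul (hsj j), (hp_degree hs j).1]
  have hmonic : ∀ j, (p j).Monic := by
    intro j
    rw [Monic, leadingCoeff, hdeg, hp']
    simp only
    rw [coeff_C_mul, (hp_degree hs j).2, ← mul_pow]
    rw [mul_one_div_cancel hs.ne', one_pow]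
  have h1 := Matrix.det_eval_matrixOfPolynomials_eq_det_vandermonde x p hdeg hmonic
  rw [V_eq_det, h1]
  have h2 : (Matrix.of fun l j : Fin n => (hp s j).eval (x l)) =
      Matrix.of fun l j : Fin n => (1 / s) ^ (j : ℕ) * (Matrix.of fun l j => (p j).eval (x l)) l j := by
    ext l j
    simp only [Matrix.of_apply, hp', eval_mul, eval_C]
    rw [← mul_assoc, ← mul_pow, one_div_mul_cancel hs.ne', one_pow, one_mul]
  rw [h2, Matrix.det_mul_row]

lemma det_lagrange {n : ℕ} {a : Fin n → ℝ} (ha : Function.Injective a) :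
    Matrix.det (Matrix.of fun i j : Fin n => (Lagrange.basis Finset.univ a i).coeff (j : ℕ)) *
      V a = 1 := by
  rw [V_eq_det, ← Matrix.det_transpose (Matrix.vandermonde a), ← Matrix.det_mul]
  have : (Matrix.of fun i j : Fin n => (Lagrange.basis Finset.univ a i).coeff (j : ℕ)) *
      (Matrix.vandermonde a).transpose = 1 := by
    ext i k
    rw [Matrix.mul_apply]
    simp only [Matrix.of_apply, Matrix.transpose_apply, Matrix.vandermonde_apply]
    have hdeg : (Lagrange.basis Finset.univ a i).natDegree < n := by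
      have h1 := Lagrange.degree_basis (s := Finset.univ) (v := a) ha.injOn (Finset.mem_univ i)
      have h2 : (Lagrange.basis Finset.univ a i).natDegree = n - 1 := by
        have := natDegree_eq_of_degree_eq_some h1
        simpa using this
      have hn : 0 < n := i.pos
      omega
    have h3 : (Lagrange.basis Finset.univ a i).eval (a k) =
        ∑ j ∈ Finset.range n, (Lagrange.basis Finset.univ a i).coeff j * a k ^ j :=
      eval_eq_sum_range' hdeg _
    rw [Finset.sum_range] at h3
    rw [← h3]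
    by_cases hik : i = k
    · subst hik
      rw [Lagrange.eval_basis_self ha.injOn (Finset.mem_univ i), Matrix.one_apply_eq]
    · rw [Lagrange.eval_basis_of_ne (fun h => hik (by simpa using h)) (Finset.mem_univ k),
        Matrix.one_apply_ne hik]
  rw [this, Matrix.det_one]

end HpAux

open HpAux

theorem hp_det_sign {n : ℕ} (a : Fin n → ℝ) (ha : Function.Injective a) {s : ℝ} (hs : 0 < s)
    (x : Fin n → ℝ) :
    0 ≤ (∏ i, ∏ j ∈ Finset.Ioi i, (a j - a i)) * (∏ i, ∏ j ∈ Finset.Ioi i, (x j - x i)) *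
      Matrix.det (Matrix.of fun i l : Fin n => ∑ j ∈ Finset.range n,
        (Lagrange.basis Finset.univ a i).coeff j * (hp s j).eval (x l)) := by
  have h1 : (Matrix.of fun i l : Fin n => ∑ j ∈ Finset.range n,
        (Lagrange.basis Finset.univ a i).coeff j * (hp s j).eval (x l)) =
      (Matrix.of fun i j : Fin n => (Lagrange.basis Finset.univ a i).coeff (j : ℕ)) *
      (Matrix.of fun l j : Fin n => (hp s j).eval (x l)).transpose := by
    ext i l
    rw [Matrix.mul_apply]
    simp only [Matrix.of_apply, Matrix.transpose_apply]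
    rw [Finset.sum_range]
  rw [h1, Matrix.det_mul, Matrix.det_transpose, det_hp hs x]
  have h2 := det_lagrange ha
  have h3 : 0 < ∏ j : Fin n, (1 / s) ^ (j : ℕ) :=
    Finset.prod_pos fun j _ => pow_pos (one_div_pos.mpr hs) _
  change 0 ≤ V a * V x * _
  calc 0 ≤ (∏ j : Fin n, (1 / s) ^ (j : ℕ)) * (V x * V x) * 1 := by
        have := mul_self_nonneg (V x)
        positivity
    _ = _ := by rw [← h2]; ring

theorem phi_det_sign {n : ℕ} (a : Fin n → ℝ) (ha : Function.Injective a) {s : ℝ} (hs : 0 < s)
    (x : Fin n → ℝ) :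
    0 ≤ (∏ i, ∏ j ∈ Finset.Ioi i, (a j - a i)) * (∏ i, ∏ j ∈ Finset.Ioi i, (x j - x i)) *
      Matrix.det (Matrix.of fun i j : Fin n => phi a s i (x j)) := by
  have h1 : (Matrix.of fun i j : Fin n => phi a s i (x j)) =
      Matrix.of fun i j : Fin n => gk s (x j) 0 * (Matrix.of fun i l : Fin n =>
        ∑ j ∈ Finset.range n, (Lagrange.basis Finset.univ a i).coeff j * (hp s j).eval (x l)) i j := by
    ext i j
    simp only [Matrix.of_apply]
    rw [phi_eq_sum a hs, Finset.mul_sum]
    exact Finset.sum_congr rfl fun l _ => by ring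
  rw [h1, Matrix.det_mul_row]
  have h2 := hp_det_sign a ha hs x
  have h3 : 0 ≤ ∏ j, gk s (x j) 0 := Finset.prod_nonneg fun j _ => (gk_pos hs _ _).le
  have h4 := mul_nonneg h3 h2
  calc _ ≤ _ := h4
    _ = _ := by ring

end Pool.Agent.H.MP_5ad92a_pr
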