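import Pool.Agent.H.MP_5ad92a_pr.Defs

/-!
# Total positivity of the exponential kernel; nonnegativity of the joint density
-/

set_option autoImplicit false

noncomputable section

open MeasureTheory Filter Topology Set

namespace Pool.Agent.H.MP_5ad92a_pr

namespace TPaux

/-- Vandermonde product. -/
def V {n : ℕ} (a : Fin n → ℝ) : ℝ := ∏ i, ∏ j ∈ Finset.Ioi i, (a j - a i)

lemma V_eq_det {n : ℕ} (a : Fin n → ℝ) : V a = (Matrix.vandermonde a).det :=
  (Matrix.det_vandermonde a).symm

lemma V_ne_zero {n : ℕ} {a : Fin n → ℝ} (ha : Function.Injective a) : V a ≠ 0 := by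
  rw [V_eq_det]; exact Matrix.det_vandermonde_ne_zero_iff.mpr ha

lemma V_pos {n : ℕ} {a : Fin n → ℝ} (ha : StrictMono a) : 0 < V a := by
  unfold V
  refine Finset.prod_pos fun i _ => Finset.prod_pos fun j hj => ?_
  exact sub_pos.mpr (ha (Finset.mem_Ioi.mp hj))

lemma V_comp {n : ℕ} (a : Fin n → ℝ) (σ : Equiv.Perm (Fin n)) :
    V (a ∘ σ) = (Equiv.Perm.sign σ : ℝ) * V a := by
  rw [V_eq_det, V_eq_det, ← Matrix.det_permute]
  rfl

/-- the exponential matrix -/
def E {n : ℕ} (a x : Fin n → ℝ) : Matrix (Fin n) (Fin n) ℝ :=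
  Matrix.of fun i j : Fin n => Real.exp (a i * x j)

/-- An exponential sum with distinct exponents and `n` terms that vanishes at `n` points is `0`. -/
lemma expsum_zero : ∀ {n : ℕ} (a c x : Fin n → ℝ), Function.Injective a → StrictMono x →
    (∀ j, ∑ i, c i * Real.exp (a i * x j) = 0) → c = 0 := by
  intro n
  induction n with
  | zero => intro a c x _ _ _; exact Subsingleton.elim _ _
  | succ n ih =>
    intro a c x ha hx h
    set g : ℝ → ℝ := fun y => ∑ i, c i * Real.exp ((a i - a 0) * y) with hg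
    have hg0 : ∀ j, g (x j) = 0 := by
      intro j
      have : g (x j) = Real.exp (-(a 0 * x j)) * ∑ i, c i * Real.exp (a i * x j) := by
        rw [hg, Finset.mul_sum]
        refine Finset.sum_congr rfl fun i _ => ?_
        rw [sub_mul, sub_eq_add_neg, Real.exp_add]; ring
      rw [this, h j, mul_zero]
    have hderiv : ∀ y, HasDerivAt g
        (∑ i : Fin n, (c i.succ * (a i.succ - a 0)) * Real.exp ((a i.succ - a 0) * y)) y := by
      intro y
      have h1 : HasDerivAt g (∑ i, c i * (Real.exp ((a i - a 0) * y) * (a i - a 0))) y := by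
        rw [hg]
        refine HasDerivAt.fun_sum fun i _ => ?_
        refine HasDerivAt.const_mul _ ?_
        refine HasDerivAt.exp ?_
        simpa using (hasDerivAt_id y).const_mul (a i - a 0)
      convert h1 using 1
      rw [Fin.sum_univ_succ (n := n)]
      simp only [sub_self, mul_zero, zero_add]
      refine Finset.sum_congr rfl fun i _ => ?_
      ring
    have hy : ∀ j : Fin n, ∃ y ∈ Set.Ioo (x j.castSucc) (x j.succ),
        ∑ i : Fin n, (c i.succ * (a i.succ - a 0)) * Real.exp ((a i.succ - a 0) * y) = 0 := by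
      intro j
      have hlt : x j.castSucc < x j.succ := hx (Fin.castSucc_lt_succ)
      obtain ⟨y, hy, hy'⟩ := exists_hasDerivAt_eq_zero (f := g)
        (f' := fun y => ∑ i : Fin n, (c i.succ * (a i.succ - a 0)) * Real.exp ((a i.succ - a 0) * y))
        hlt (fun z _ => (hderiv z).continuousAt.continuousWithinAt) (by rw [hg0, hg0])
        (fun z _ => hderiv z)
      exact ⟨y, hy, hy'⟩
    choose y hy1 hy2 using hy
    have hymono : StrictMono y := by
      intro j k hjk
      calc y j < x j.succ := (hy1 j).2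
        _ ≤ x k.castSucc := hx.monotone (by
            rw [Fin.le_def]; simpa using hjk)
        _ < y k := (hy1 k).1
    have hc := ih (fun i => a i.succ - a 0) (fun i => c i.succ * (a i.succ - a 0)) y
      (by
        intro i j hij
        have : a i.succ = a j.succ := by simpa using hij
        exact Fin.succ_injective _ (ha this)) hymono hy2
    have hc' : ∀ i : Fin n, c i.succ = 0 := by
      intro i
      have h1 := congrFun hc i
      simp only [Pi.zero_apply, mul_eq_zero] at h1
      rcases h1 with h1 | h1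
      · exact h1
      · exfalso
        have : a i.succ = a 0 := by linarith
        exact (Fin.succ_ne_zero i) (ha this)
    have hc0 : c 0 = 0 := by
      have h1 := h 0
      rw [Fin.sum_univ_succ] at h1
      simp only [hc', zero_mul, Finset.sum_const_zero, add_zero, mul_eq_zero] at h1
      rcases h1 with h1 | h1
      · exact h1
      · exact absurd h1 (Real.exp_pos _).ne'
    funext i
    refine Fin.cases ?_ (fun i => ?_) i
    · exact hc0
    · exact hc' i

lemma det_E_ne_zero {n : ℕ} {a x : Fin n → ℝ} (ha : Function.Injective a) (hx : StrictMono x) :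
    (E a x).det ≠ 0 := by
  intro h0
  obtain ⟨v, hv, hv0⟩ := Matrix.exists_vecMul_eq_zero_iff.mpr h0
  apply hv
  apply expsum_zero a v x ha hx
  intro j
  have := congrFun hv0 j
  simpa [Matrix.vecMul, dotProduct, E] using this

lemma det_E_pos {n : ℕ} {a x : Fin n → ℝ} (ha : StrictMono a) (hx : StrictMono x) :
    0 < (E a x).det := by
  set p : ℝ → Fin n → ℝ := fun t j => (1 - t) * x j + t * (j : ℝ) with hp
  have hcont : Continuous fun t => (E a (p t)).det := by
    refine Continuous.matrix_det ?_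
    refine continuous_matrix fun i j => ?_
    simp only [E, hp, Matrix.of_apply]
    fun_prop
  have hmono : ∀ t ∈ Set.Icc (0 : ℝ) 1, StrictMono (p t) := by
    intro t ht i j hij
    have h1 : x i < x j := hx hij
    have h2 : ((i : ℕ) : ℝ) < ((j : ℕ) : ℝ) := by exact_mod_cast hij
    simp only [hp]
    rcases eq_or_lt_of_le ht.1 with h | h
    · subst h; simpa using h1
    · nlinarith [ht.2, mul_nonneg (sub_nonneg.mpr ht.2) (sub_nonneg.mpr h1.le),
        mul_pos h (sub_pos.mpr h2)]
  have hend : 0 < (E a (p 1)).det := by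
    have : E a (p 1) = Matrix.vandermonde (fun i => Real.exp (a i)) := by
      ext i j
      simp only [E, hp, Matrix.of_apply, Matrix.vandermonde_apply]
      rw [← Real.exp_nat_mul]
      congr 1
      ring
    rw [this, ← V_eq_det]
    exact V_pos (fun i j hij => Real.exp_lt_exp.mpr (ha hij))
  have hp0 : p 0 = x := by
    funext j; simp [hp]
  by_contra hneg
  rw [not_lt] at hneg
  have hmem : (0 : ℝ) ∈ Set.Icc ((E a (p 0)).det) ((E a (p 1)).det) := by
    rw [hp0]; exact ⟨hneg, hend.le⟩
  obtain ⟨t, ht, ht0⟩ := intermediate_value_Icc (zero_le_one) hcont.continuousOn hmem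
  exact det_E_ne_zero ha.injective (hmono t ht) ht0

lemma strictMono_comp_sort {n : ℕ} {a : Fin n → ℝ} (ha : Function.Injective a) :
    StrictMono (a ∘ Tuple.sort a) :=
  (Tuple.monotone_sort a).strictMono_of_injective (ha.comp (Tuple.sort a).injective)

lemma E_det_comp {n : ℕ} (a x : Fin n → ℝ) (σ τ : Equiv.Perm (Fin n)) :
    (E (a ∘ σ) (x ∘ τ)).det = (Equiv.Perm.sign σ : ℝ) * ((Equiv.Perm.sign τ : ℝ) * (E a x).det) := by
  have h1 : E (a ∘ σ) (x ∘ τ) = ((E a x).submatrix id τ).submatrix σ id := by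
    ext i j; rfl
  rw [h1, Matrix.det_permute, Matrix.det_permute']

lemma sign_sq {n : ℕ} (σ : Equiv.Perm (Fin n)) :
    ((Equiv.Perm.sign σ : ℤˣ) : ℝ) * ((Equiv.Perm.sign σ : ℤˣ) : ℝ) = 1 := by
  rcases Int.units_eq_one_or (Equiv.Perm.sign σ) with h | h <;> rw [h] <;> simp

lemma sign_E {n : ℕ} (a x : Fin n → ℝ) : 0 ≤ V a * V x * (E a x).det := by
  by_cases ha : Function.Injective a
  · by_cases hx : Function.Injective x
    · set σ := Tuple.sort a
      set τ := Tuple.sort x
      have h1 : 0 < V (a ∘ σ) := V_pos (strictMono_comp_sort ha)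
      have h2 : 0 < V (x ∘ τ) := V_pos (strictMono_comp_sort hx)
      have h3 : 0 < (E (a ∘ σ) (x ∘ τ)).det :=
        det_E_pos (strictMono_comp_sort ha) (strictMono_comp_sort hx)
      have h4 : V (a ∘ σ) * V (x ∘ τ) * (E (a ∘ σ) (x ∘ τ)).det = V a * V x * (E a x).det := by
        rw [V_comp, V_comp, E_det_comp]
        calc _ = (((Equiv.Perm.sign σ : ℤˣ) : ℝ) * ((Equiv.Perm.sign σ : ℤˣ) : ℝ)) *
              (((Equiv.Perm.sign τ : ℤˣ) : ℝ) * ((Equiv.Perm.sign τ : ℤˣ) : ℝ)) *
              (V a * V x * (E a x).det) := by ring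
          _ = _ := by rw [sign_sq, sign_sq]; ring
      rw [← h4]
      positivity
    · have : V x = 0 := by
        by_contra h
        rw [V_eq_det] at h
        exact hx (Matrix.det_vandermonde_ne_zero_iff.mp h)
      rw [this]; simp
  · have : V a = 0 := by
      by_contra h
      rw [V_eq_det] at h
      exact ha (Matrix.det_vandermonde_ne_zero_iff.mp h)
    rw [this]; simp

end TPaux

open TPaux

theorem exp_det_sign {n : ℕ} (a x : Fin n → ℝ) :
    0 ≤ (∏ i, ∏ j ∈ Finset.Ioi i, (a j - a i)) * (∏ i, ∏ j ∈ Finset.Ioi i, (x j - x i)) *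
      Matrix.det (Matrix.of fun i j : Fin n => Real.exp (a i * x j)) :=
  sign_E a x

namespace TPaux

lemma sign_psi {n : ℕ} (a : Fin n → ℝ) (s : ℝ) (x : Fin n → ℝ) :
    0 ≤ V a * V x * Matrix.det (Matrix.of fun i j : Fin n => psi a s i (x j)) := by
  have h1 : (Matrix.of fun i j : Fin n => psi a s i (x j)) =
      Matrix.of fun i j : Fin n => Real.exp (-((a i) ^ 2 * s / 2)) * E a x i j := by
    ext i j
    simp only [psi, E, Matrix.of_apply]
    rw [← Real.exp_add]
    congr 1
    ring
  rw [h1, Matrix.det_mul_column]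
  have h2 : 0 < ∏ i, Real.exp (-((a i) ^ 2 * s / 2)) :=
    Finset.prod_pos fun i _ => Real.exp_pos _
  have h3 := sign_E a x
  calc 0 ≤ (∏ i, Real.exp (-((a i) ^ 2 * s / 2))) * (V a * V x * (E a x).det) :=
        mul_nonneg h2.le h3
    _ = _ := by ring

lemma sign_gk {n : ℕ} {h : ℝ} (hh : 0 < h) (x y : Fin n → ℝ) :
    0 ≤ V x * V y * Matrix.det (Matrix.of fun i j : Fin n => gk h (x i) (y j)) := by
  set c : ℝ := (Real.sqrt (2 * Real.pi * h))⁻¹ with hc
  have hcpos : 0 < c := by
    rw [hc]; positivity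
  have h1 : (Matrix.of fun i j : Fin n => gk h (x i) (y j)) =
      Matrix.of fun i j : Fin n => (c * Real.exp (-(x i ^ 2 / (2 * h)))) *
        (Matrix.of fun i j : Fin n => Real.exp (-(y j ^ 2 / (2 * h))) *
          E (fun i => x i / h) y i j) i j := by
    ext i j
    have e1 : Real.exp (-(x i - y j) ^ 2 / (2 * h)) = Real.exp (-(x i ^ 2 / (2 * h))) *
        (Real.exp (-(y j ^ 2 / (2 * h))) * Real.exp (x i / h * y j)) := by
      rw [← Real.exp_add, ← Real.exp_add]
      congr 1
      field_simp
      ring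
    simp only [gk, E, Matrix.of_apply]
    rw [e1, ← hc]
    ring
  rw [h1, Matrix.det_mul_column, Matrix.det_mul_row]
  have h2 : 0 < ∏ i, (c * Real.exp (-(x i ^ 2 / (2 * h)))) :=
    Finset.prod_pos fun i _ => mul_pos hcpos (Real.exp_pos _)
  have h3 : 0 < ∏ j, Real.exp (-(y j ^ 2 / (2 * h))) :=
    Finset.prod_pos fun i _ => Real.exp_pos _
  have h4 : V x = V (fun i => x i / h) * ∏ i : Fin n, ∏ j ∈ Finset.Ioi i, h := by
    unfold V
    rw [← Finset.prod_mul_distrib]
    refine Finset.prod_congr rfl fun i _ => ?_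
    rw [← Finset.prod_mul_distrib]
    refine Finset.prod_congr rfl fun j _ => ?_
    field_simp
  have h5 : 0 < ∏ i : Fin n, ∏ j ∈ Finset.Ioi i, h :=
    Finset.prod_pos fun i _ => Finset.prod_pos fun j _ => hh
  have h6 := sign_E (fun i => x i / h) y
  rw [h4]
  calc 0 ≤ (∏ i, (c * Real.exp (-(x i ^ 2 / (2 * h))))) * (∏ j, Real.exp (-(y j ^ 2 / (2 * h)))) *
        (∏ i : Fin n, ∏ j ∈ Finset.Ioi i, h) *
        (V (fun i => x i / h) * V y * (E (fun i => x i / h) y).det) :=
        mul_nonneg (mul_pos (mul_pos h2 h3) h5).le h6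
    _ = _ := by ring

end TPaux

theorem dens_nonneg_of {n m : ℕ} (a : Fin n → ℝ) (ha : Function.Injective a)
    (s : Fin (m + 1) → ℝ) (hs0 : 0 < s 0) (hs : StrictMono s)
    (hphi : ∀ x : Fin n → ℝ, 0 ≤ (∏ i, ∏ j ∈ Finset.Ioi i, (a j - a i)) *
      (∏ i, ∏ j ∈ Finset.Ioi i, (x j - x i)) *
      Matrix.det (Matrix.of fun i j : Fin n => phi a (s 0) i (x j)))
    (x : Fin (m + 1) → Fin n → ℝ) : 0 ≤ dens a s x := by
  by_cases hx : ∀ k, Function.Injective (x k)
  · set A := Matrix.det (Matrix.of fun i j : Fin n => phi a (s 0) i (x 0 j)) with hA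
    set B : Fin m → ℝ := fun k => Matrix.det (Matrix.of fun i j : Fin n =>
      gk (s k.succ - s k.castSucc) (x k.castSucc i) (x k.succ j)) with hB
    set C := Matrix.det (Matrix.of fun i j : Fin n => psi a (s (Fin.last m)) i (x (Fin.last m) j))
      with hC
    have h1 : 0 ≤ V a * V (x 0) * A := hphi (x 0)
    have h2 : ∀ k, 0 ≤ V (x k.castSucc) * V (x k.succ) * B k := fun k =>
      sign_gk (sub_pos.mpr (hs Fin.castSucc_lt_succ)) _ _
    have h3 : 0 ≤ V a * V (x (Fin.last m)) * C := sign_psi a _ _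
    have h4 : 0 ≤ ∏ k, (V (x k.castSucc) * V (x k.succ) * B k) :=
      Finset.prod_nonneg fun k _ => h2 k
    have h5 : (V a * V (x 0) * A) * (∏ k, (V (x k.castSucc) * V (x k.succ) * B k)) *
        (V a * V (x (Fin.last m)) * C) =
        (V a * ∏ k, V (x k)) ^ 2 * (A * (∏ k, B k) * C) := by
      rw [Finset.prod_mul_distrib, Finset.prod_mul_distrib]
      have e1 : ∏ k, V (x k) = V (x 0) * ∏ k : Fin m, V (x k.succ) := Fin.prod_univ_succ _
      have e2 : ∏ k, V (x k) = (∏ k : Fin m, V (x k.castSucc)) * V (x (Fin.last m)) :=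
        Fin.prod_univ_castSucc _
      calc _ = V a * V a * (V (x 0) * ∏ k : Fin m, V (x k.succ)) *
            ((∏ k : Fin m, V (x k.castSucc)) * V (x (Fin.last m))) * (A * (∏ k, B k) * C) := by ring
        _ = _ := by rw [← e1, ← e2]; ring
    have h6 : 0 < (V a * ∏ k, V (x k)) ^ 2 := by
      refine (sq_pos_of_ne_zero ?_)
      exact mul_ne_zero (V_ne_zero ha) (Finset.prod_ne_zero_iff.mpr fun k _ => V_ne_zero (hx k))
    have h7 : 0 ≤ A * (∏ k, B k) * C := by
      have := mul_nonneg (mul_nonneg h1 h4) h3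
      rw [h5] at this
      exact nonneg_of_mul_nonneg_right this h6
    have h8 : dens a s x = ((n.factorial : ℝ) ^ (m + 1))⁻¹ * (A * (∏ k, B k) * C) := by
      unfold dens; ring
    rw [h8]
    positivity
  · push Not at hx
    obtain ⟨k, hk⟩ := hx
    obtain ⟨i, j, hij, hne⟩ : ∃ i j, x k i = x k j ∧ i ≠ j := by
      simpa [Function.Injective] using hk
    have h0 : dens a s x = 0 := by
      unfold dens
      refine Fin.lastCases (motive := fun k => ∀ i j, x k i = x k j → i ≠ j → _) ?_ ?_ k i j hij hne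
      · intro i j hij hne
        have : Matrix.det (Matrix.of fun i j : Fin n =>
            psi a (s (Fin.last m)) i (x (Fin.last m) j)) = 0 :=
          Matrix.det_zero_of_column_eq hne (fun l => by simp [hij])
        rw [this, mul_zero]
      · intro k i j hij hne
        have h1 : Matrix.det (Matrix.of fun i j : Fin n =>
            gk (s k.succ - s k.castSucc) (x k.castSucc i) (x k.succ j)) = 0 :=
          Matrix.det_zero_of_row_eq hne (by funext l; simp [hij])
        have h2 : (∏ k : Fin m, Matrix.det (Matrix.of fun i j : Fin n =>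
            gk (s k.succ - s k.castSucc) (x k.castSucc i) (x k.succ j))) = 0 :=
          Finset.prod_eq_zero (Finset.mem_univ k) h1
        rw [h2, mul_zero, zero_mul]
    rw [h0]

end Pool.Agent.H.MP_5ad92a_pr
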