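import Pool.Agent.H.MP_5ad92a_pr.DefsP
import Pool.Agent.H.MP_5ad92a_pr.FiniteN
import Pool.Agent.H.MP_5ad92a_pr.TP
import Pool.Agent.H.MP_5ad92a_pr.HpDet
import Pool.Agent.H.MP_5ad92a_pr.FNBounds

/-!
# The approximating laws: levels, times, probability measures
-/

set_option autoImplicit false

noncomputable section

open MeasureTheory Filter Topology Set
open scoped ENNReal

namespace Pool.Agent.H.MP_5ad92a_pr

namespace Apx

/-! ### the law with density `dens` -/

section law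

variable {n m : ℕ} (a : Fin n → ℝ) (s : Fin (m + 1) → ℝ)

/-- The law of the finite system. -/
def Dμ : Measure (Fin (m + 1) → Fin n → ℝ) :=
  volume.withDensity (fun x => ENNReal.ofReal (dens a s x))

variable {a s}

lemma dens_nonneg (ha : Function.Injective a) (hs0 : 0 < s 0) (hs : StrictMono s)
    (x : Fin (m + 1) → Fin n → ℝ) : 0 ≤ dens a s x :=
  dens_nonneg_of a ha s hs0 hs (fun x => phi_det_sign a ha hs0 x) x

lemma dens_aem (ha : Function.Injective a) (hs0 : 0 < s 0) (hs : StrictMono s) :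
    AEMeasurable (fun x => ENNReal.ofReal (dens a s x)) volume :=
  (dens_integral a ha s hs0 hs).1.aestronglyMeasurable.aemeasurable.ennreal_ofReal

lemma Dμ_prob (ha : Function.Injective a) (hs0 : 0 < s 0) (hs : StrictMono s) :
    IsProbabilityMeasure (Dμ a s) := by
  constructor
  unfold Dμ
  rw [withDensity_apply _ MeasurableSet.univ, Measure.restrict_univ,
    ← ofReal_integral_eq_lintegral_ofReal (dens_integral a ha s hs0 hs).1
      (Eventually.of_forall (dens_nonneg ha hs0 hs)), (dens_integral a ha s hs0 hs).2,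
    ENNReal.ofReal_one]

lemma Dμ_integral (ha : Function.Injective a) (hs0 : 0 < s 0) (hs : StrictMono s)
    (F : (Fin (m + 1) → Fin n → ℝ) → ℝ) :
    ∫ x, F x ∂(Dμ a s) = ∫ x, dens a s x * F x := by
  unfold Dμ
  rw [integral_withDensity_eq_integral_toReal_smul₀ (dens_aem ha hs0 hs)
    (Eventually.of_forall fun x => ENNReal.ofReal_lt_top)]
  refine integral_congr_ae (Eventually.of_forall fun x => ?_)
  show (ENNReal.ofReal (dens a s x)).toReal • F x = dens a s x * F x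
  rw [ENNReal.toReal_ofReal (dens_nonneg ha hs0 hs x), smul_eq_mul]

/-- A nonnegative bounded function: the lintegral is computed by the real integral. -/
lemma Dμ_lintegral (ha : Function.Injective a) (hs0 : 0 < s 0) (hs : StrictMono s)
    {F : (Fin (m + 1) → Fin n → ℝ) → ℝ} (hF : Measurable F) (hF0 : ∀ x, 0 ≤ F x) {C : ℝ}
    (hC : ∀ x, F x ≤ C) :
    ∫⁻ x, ENNReal.ofReal (F x) ∂(Dμ a s) = ENNReal.ofReal (∫ x, dens a s x * F x) := by
  have := Dμ_prob ha hs0 hs
  rw [← Dμ_integral ha hs0 hs, ofReal_integral_eq_lintegral_ofReal]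
  · refine Integrable.of_bound hF.aestronglyMeasurable C (Eventually.of_forall fun x => ?_)
    rw [Real.norm_eq_abs, abs_of_nonneg (hF0 x)]
    exact hC x
  · exact Eventually.of_forall hF0

end law

/-! ### the levels -/

def LN (l : ℕ) : ℕ := (l + 2) ^ 2
def Lm (l : ℕ) : ℕ := 2 * l * l.factorial
def Lt (l : ℕ) (k : ℕ) : ℝ := (k : ℝ) / (l.factorial : ℝ) - l
def Ls (l : ℕ) (k : Fin (Lm l + 1)) : ℝ := SN (LN l) + Lt l k
def Lidx (l : ℕ) (q : ℚ) : Fin (Lm l + 1) :=
  ⟨min (⌊(q + l) * (l.factorial : ℚ)⌋.toNat) (Lm l), by omega⟩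

lemma two_le_LN (l : ℕ) : 2 ≤ LN l :=
  calc 2 ≤ 2 ^ 2 := by norm_num
    _ ≤ (l + 2) ^ 2 := Nat.pow_le_pow_left (by omega) 2

lemma LN_tendsto : Tendsto LN atTop atTop := by
  refine tendsto_atTop_mono (fun l => ?_) tendsto_id
  unfold LN
  simp only [id]
  nlinarith

lemma aN_inj (l : ℕ) : Function.Injective (aN (LN l)) := aN_injective (two_le_LN l)

lemma fact_pos (l : ℕ) : (0 : ℝ) < (l.factorial : ℝ) := by exact_mod_cast l.factorial_pos

lemma SN_gt (l : ℕ) : (l : ℝ) + 1 < SN (LN l) := by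
  have h := SN_ge (two_le_LN l)
  refine lt_of_lt_of_le ?_ h
  have hl : (0 : ℝ) ≤ l := Nat.cast_nonneg l
  have h1 : (LN l : ℝ) = ((l : ℝ) + 2) ^ 2 := by unfold LN; push_cast; ring
  rw [h1]
  have h2 : (l : ℝ) + 2 ≤ Real.sqrt (2 * ((l : ℝ) + 2) ^ 2) := by
    apply Real.le_sqrt_of_sq_le
    nlinarith [sq_nonneg ((l : ℝ) + 2)]
  have h3 : 0 ≤ 1 - 1 / ((l : ℝ) + 2) ^ 2 := by
    rw [sub_nonneg, div_le_one (by positivity)]
    nlinarith
  have h4 : ((l : ℝ) + 2) * (1 - 1 / ((l : ℝ) + 2) ^ 2) = ((l : ℝ) + 2) - 1 / ((l : ℝ) + 2) := by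
    field_simp
  have h5 : 1 / ((l : ℝ) + 2) < 1 := by
    rw [div_lt_one (by positivity)]; linarith
  calc (l : ℝ) + 1 < ((l : ℝ) + 2) - 1 / ((l : ℝ) + 2) := by linarith
    _ = ((l : ℝ) + 2) * (1 - 1 / ((l : ℝ) + 2) ^ 2) := h4.symm
    _ ≤ _ := mul_le_mul_of_nonneg_right h2 h3

lemma Ls_zero_pos (l : ℕ) : 0 < Ls l 0 := by
  have := SN_gt l
  unfold Ls Lt
  simp
  linarith

lemma Ls_mono (l : ℕ) : StrictMono (Ls l) := by
  intro i j hij
  unfold Ls Lt
  have h : ((i : ℕ) : ℝ) < ((j : ℕ) : ℝ) := by exact_mod_cast hij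
  have := fact_pos l
  have h2 := div_lt_div_of_pos_right h this
  linarith

/-- `q` is one of the times of the level `l`. -/
def Good (l : ℕ) (q : ℚ) : Prop := Ls l (Lidx l q) = SN (LN l) + (q : ℝ)

lemma good (q : ℚ) : ∀ᶠ l in atTop, Good l q := by
  obtain ⟨L, hL⟩ := exists_nat_ge |q|
  filter_upwards [eventually_ge_atTop (max L q.den)] with l hl
  have hlL : L ≤ l := le_trans (le_max_left _ _) hl
  have hld : q.den ≤ l := le_trans (le_max_right _ _) hl
  have hql : |q| ≤ l := hL.trans (by exact_mod_cast hlL)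
  obtain ⟨hq1, hq2⟩ := abs_le.mp hql
  obtain ⟨e, he⟩ := Nat.dvd_factorial q.den_pos hld
  have hz : (q + l) * (l.factorial : ℚ) = ((q.num * e + l * l.factorial : ℤ) : ℚ) := by
    have hqd : q * (q.den : ℚ) = q.num := Rat.mul_den_eq_num q
    push_cast
    rw [add_mul]
    congr 1
    rw [he]
    push_cast
    rw [← mul_assoc, hqd]
  set z : ℤ := q.num * e + l * l.factorial with hzdef
  have hf0 : (0 : ℚ) < (l.factorial : ℚ) := by exact_mod_cast l.factorial_pos
  have hz0 : 0 ≤ z := by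
    have : (0 : ℚ) ≤ (z : ℚ) := by
      rw [← hz]
      exact mul_nonneg (by linarith) hf0.le
    exact_mod_cast this
  have hz1 : z ≤ (Lm l : ℤ) := by
    have : (z : ℚ) ≤ ((Lm l : ℤ) : ℚ) := by
      rw [← hz]
      unfold Lm
      push_cast
      have : (q + l) * (l.factorial : ℚ) ≤ (l + l) * (l.factorial : ℚ) :=
        mul_le_mul_of_nonneg_right (by linarith) hf0.le
      linarith
    exact_mod_cast this
  have hidx : ((Lidx l q : Fin (Lm l + 1)) : ℕ) = z.toNat := by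
    show min (⌊(q + l) * (l.factorial : ℚ)⌋.toNat) (Lm l) = z.toNat
    rw [hz, Int.floor_intCast, min_eq_left]
    omega
  unfold Good Ls Lt
  rw [hidx]
  congr 1
  have h1 : ((z.toNat : ℕ) : ℝ) = (z : ℝ) := by
    have : ((z.toNat : ℕ) : ℤ) = z := Int.toNat_of_nonneg hz0
    exact_mod_cast this
  rw [h1]
  have h2 : ((q : ℝ) + l) * (l.factorial : ℝ) = (z : ℝ) := by exact_mod_cast hz
  have h3 := fact_pos l
  rw [← h2, mul_div_assoc, div_self h3.ne']
  ring

lemma Good.idx_eq_iff {l : ℕ} {q q' : ℚ} (h : Good l q) (h' : Good l q') :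
    Lidx l q = Lidx l q' ↔ q = q' := by
  constructor
  · intro he
    unfold Good at h h'
    rw [he, h'] at h
    have : (q' : ℝ) = q := by linarith
    exact_mod_cast this.symm
  · rintro rfl; rfl

lemma Good.idx_lt_iff {l : ℕ} {q q' : ℚ} (h : Good l q) (h' : Good l q') :
    Lidx l q < Lidx l q' ↔ q < q' := by
  unfold Good at h h'
  rw [← (Ls_mono l).lt_iff_lt, h, h']
  constructor
  · intro hh
    have : (q : ℝ) < q' := by linarith
    exact_mod_cast this
  · intro hh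
    have : (q : ℝ) < q' := by exact_mod_cast hh
    linarith

/-- the law of level `l` -/
def Lμ (l : ℕ) : Measure (Fin (Lm l + 1) → Fin (LN l + LN l) → ℝ) := Dμ (aN (LN l)) (Ls l)

instance (l : ℕ) : IsProbabilityMeasure (Lμ l) := Dμ_prob (aN_inj l) (Ls_zero_pos l) (Ls_mono l)

lemma Lμ_integral (l : ℕ) (F : (Fin (Lm l + 1) → Fin (LN l + LN l) → ℝ) → ℝ) :
    ∫ x, F x ∂(Lμ l) = ∫ x, dens (aN (LN l)) (Ls l) x * F x :=
  Dμ_integral (aN_inj l) (Ls_zero_pos l) (Ls_mono l) F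

lemma Lμ_lintegral (l : ℕ) {F : (Fin (Lm l + 1) → Fin (LN l + LN l) → ℝ) → ℝ}
    (hF : Measurable F) (hF0 : ∀ x, 0 ≤ F x) {C : ℝ} (hC : ∀ x, F x ≤ C) :
    ∫⁻ x, ENNReal.ofReal (F x) ∂(Lμ l) = ENNReal.ofReal (∫ x, dens (aN (LN l)) (Ls l) x * F x) :=
  Dμ_lintegral (aN_inj l) (Ls_zero_pos l) (Ls_mono l) hF hF0 hC

/-- kernel at good times -/
lemma Kfin_good {l : ℕ} {q q' : ℚ} (h : Good l q) (h' : Good l q') (x y : ℝ) :
    Kfin (aN (LN l)) (Ls l (Lidx l q)) x (Ls l (Lidx l q')) y = Kn (LN l) q x q' y := by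
  unfold Good at h h'
  rw [h, h']
  rfl

lemma gP_good {l : ℕ} {q q' : ℚ} (h : Good l q) (h' : Good l q') (x y : ℝ) :
    gP (Ls l (Lidx l q)) (Ls l (Lidx l q')) x y =
      if (q : ℝ) < (q' : ℝ) then gk ((q' : ℝ) - q) x y else 0 := by
  unfold Good at h h'
  unfold gP
  rw [h, h']
  by_cases hq : (q : ℝ) < (q' : ℝ)
  · rw [if_pos (by linarith), if_pos hq]
    congr 1
    ring
  · rw [if_neg (by linarith), if_neg hq]

end Apx

end Pool.Agent.H.MP_5ad92a_pr
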