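import Pool.Agent.H.MP_5ad92a_pr.ApproxCorr

/-!
# Moments of the number of points in a bounded interval
-/

set_option autoImplicit false

noncomputable section

open MeasureTheory Filter Topology Set
open scoped ENNReal

namespace Pool.Agent.H.MP_5ad92a_pr

namespace Apx

/-- indicator of `[-R,R]` -/
def hI (R : ℝ) : ℝ → ℝ := (Icc (-R) R).indicator (fun _ => (1 : ℝ))

lemma hI_of {R z : ℝ} (hz : |z| ≤ R) : hI R z = 1 := by
  unfold hI; exact indicator_of_mem (s := Icc (-R) R) (abs_le.mp hz) (fun _ => (1 : ℝ))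

lemma hI_not {R z : ℝ} (hz : ¬ |z| ≤ R) : hI R z = 0 := by
  unfold hI
  refine indicator_of_notMem ?_ _
  intro h
  exact hz (abs_le.mpr h)

lemma hI_nonneg (R z : ℝ) : 0 ≤ hI R z := by
  unfold hI; exact indicator_nonneg (fun _ _ => zero_le_one) _

lemma hI_le (R z : ℝ) : hI R z ≤ 1 := by
  by_cases h : |z| ≤ R
  · rw [hI_of h]
  · rw [hI_not h]; exact zero_le_one

lemma hI_meas (R : ℝ) : Measurable (hI R) :=
  measurable_const.indicator measurableSet_Icc

lemma hI_int (R : ℝ) : Integrable (hI R) := by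
  unfold hI
  rw [integrable_indicator_iff measurableSet_Icc]
  exact integrableOn_const (by simp) (by simp)

lemma pow_le_desc (n r : ℕ) : n ^ r ≤ (2 * r) ^ r + 2 ^ r * n.descFactorial r := by
  rcases le_total (2 * r) n with h | h
  · have h1 : n ≤ 2 * (n + 1 - r) := by omega
    calc n ^ r ≤ (2 * (n + 1 - r)) ^ r := Nat.pow_le_pow_left h1 r
      _ = 2 ^ r * (n + 1 - r) ^ r := mul_pow _ _ _
      _ ≤ 2 ^ r * n.descFactorial r := Nat.mul_le_mul_left _ (Nat.pow_sub_le_descFactorial n r)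
      _ ≤ _ := Nat.le_add_left _ _
  · exact (Nat.pow_le_pow_left h r).trans (Nat.le_add_right _ _)

/-- the factorial statistic dominates the falling factorial of the count -/
lemma desc_le {n r : ℕ} (q : ℚ) (R : ℝ) (x : Fin n → ℝ) :
    (((Finset.univ.filter fun i => |x i| ≤ R).card.descFactorial r : ℕ) : ℝ) ≤
      ∑ ι : Fin r → Fin n with Adm (fun _ : Fin r => q) ι, ∏ c, hI R (x (ι c)) := by
  classical
  set S := Finset.univ.filter fun i => |x i| ≤ R with hS
  set φ : (Fin r ↪ S) → (Fin r → Fin n) := fun e c => (e c : Fin n) with hφ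
  have hφi : Function.Injective φ := by
    intro e e' h
    ext c
    have := congrFun h c
    exact congrArg _ this
  have hsub : Finset.univ.image φ ⊆
      Finset.univ.filter (fun ι : Fin r → Fin n => Adm (fun _ : Fin r => q) ι) := by
    intro ι hι
    obtain ⟨e, -, rfl⟩ := Finset.mem_image.mp hι
    simp only [Finset.mem_filter, Finset.mem_univ, true_and]
    intro a b hab _ h
    exact hab (e.injective (Subtype.ext h))
  calc (((S.card.descFactorial r : ℕ) : ℝ)) = ((Fintype.card (Fin r ↪ S) : ℕ) : ℝ) := by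
        rw [Fintype.card_embedding_eq, Fintype.card_coe, Fintype.card_fin]
    _ = ∑ e : Fin r ↪ S, ∏ c, hI R (x (φ e c)) := by
        have : ∀ e : Fin r ↪ S, ∏ c, hI R (x (φ e c)) = 1 := by
          intro e
          refine Finset.prod_eq_one fun c _ => hI_of ?_
          exact (Finset.mem_filter.mp (e c).2).2
        simp only [this, Finset.sum_const, Finset.card_univ, nsmul_eq_mul, mul_one]
    _ = ∑ ι ∈ Finset.univ.image φ, ∏ c, hI R (x (ι c)) := by
        rw [Finset.sum_image (fun e _ e' _ h => hφi h)]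
    _ ≤ _ := Finset.sum_le_sum_of_subset_of_nonneg hsub
        (fun ι _ _ => Finset.prod_nonneg fun c _ => hI_nonneg _ _)

theorem mom_bound (r : ℕ) (R M : ℝ) : ∃ C : ℝ, ∀ q : ℚ, |(q : ℝ)| ≤ M → ∀ᶠ l in atTop,
    ∫⁻ ω, (((Finset.univ.filter fun i => |ω (Lidx l q) i| ≤ R).card : ℝ≥0∞)) ^ r ∂(Lμ l) ≤
      ENNReal.ofReal C := by
  obtain ⟨C0, N0, hC0⟩ := Kn_bound M 1 one_pos
  set C1 : ℝ := |C0| * Real.exp (1 * R ^ 2) with hC1
  set K : ℝ := (r.factorial : ℝ) * C1 ^ r with hK
  have hC1n : 0 ≤ C1 := by positivity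
  have hKn : 0 ≤ K := by positivity
  refine ⟨((2 * r : ℕ) : ℝ) ^ r + 2 ^ r * ((∫ z, hI R z) ^ r * K), fun q hq => ?_⟩
  filter_upwards [good q, LN_tendsto.eventually_ge_atTop N0] with l hl hlN
  have hqM : (q : ℝ) ∈ Icc (-M) M := abs_le.mp hq
  set D : (Fin (Lm l + 1) → Fin (LN l + LN l) → ℝ) → ℝ := fun ω =>
    ∑ ι : Fin r → Fin (LN l + LN l) with Adm (fun _ : Fin r => q) ι,
      ∏ c, hI R (ω (Lidx l q) (ι c)) with hD
  have hDmeas : Measurable D := by
    refine Finset.measurable_sum _ fun ι _ => Finset.measurable_prod _ fun c _ => ?_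
    exact (hI_meas R).comp ((measurable_pi_apply _).comp (measurable_pi_apply _))
  have hD0 : ∀ ω, 0 ≤ D ω := fun ω =>
    Finset.sum_nonneg fun ι _ => Finset.prod_nonneg fun c _ => hI_nonneg _ _
  have hDb : ∀ ω, D ω ≤ ((Finset.univ.filter fun ι : Fin r → Fin (LN l + LN l) =>
      Adm (fun _ : Fin r => q) ι).card : ℝ) := by
    intro ω
    calc D ω ≤ ∑ ι : Fin r → Fin (LN l + LN l) with Adm (fun _ : Fin r => q) ι, (1 : ℝ) :=
          Finset.sum_le_sum fun ι _ =>
            Finset.prod_le_one (fun c _ => hI_nonneg _ _) (fun c _ => hI_le _ _)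
      _ = _ := by rw [Finset.sum_const, nsmul_eq_mul, mul_one]
  -- the real integral
  have hint : ∫ x, dens (aN (LN l)) (Ls l) x * D x ≤ (∫ z, hI R z) ^ r * K := by
    rw [← Lμ_integral]
    have h1 := integral_stat (l := l) (q := fun _ : Fin r => q) (fun _ => hl) (fun _ => hI R)
      (fun _ => hI_meas R) 1 R (fun c z => by
        rw [abs_of_nonneg (hI_nonneg _ _)]; exact hI_le _ _)
      (fun c z hz => hI_not (not_le.mpr hz))
    rw [hD, h1]
    have hg : Integrable (fun y : Fin r → ℝ => (∏ c, hI R (y c)) * K) := by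
      refine Integrable.mul_const ?_ _
      rw [volume_pi]
      exact Integrable.fintype_prod (f := fun _ z => hI R z) fun _ => hI_int R
    have h2 : ‖∫ y, GG l (fun _ : Fin r => q) (fun _ => hI R) y‖ ≤
        ∫ y : Fin r → ℝ, (∏ c, hI R (y c)) * K := by
      refine norm_integral_le_of_norm_le hg (Eventually.of_forall fun y => ?_)
      rw [GG_eq (fun _ => hl), Real.norm_eq_abs, abs_mul,
        abs_of_nonneg (Finset.prod_nonneg fun c _ => hI_nonneg _ _)]
      by_cases hy : ∀ c, |y c| ≤ R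
      · refine mul_le_mul_of_nonneg_left ?_ (Finset.prod_nonneg fun c _ => hI_nonneg _ _)
        refine det_bound fun c d => ?_
        rw [Matrix.of_apply, if_neg (lt_irrefl _), sub_zero]
        refine (hC0 (LN l) hlN q hqM q hqM (y c) (y d)).trans ?_
        have h3 : (y c) ^ 2 ≤ R ^ 2 := by
          rw [← sq_abs]; exact pow_le_pow_left₀ (abs_nonneg _) (hy c) 2
        have h4 : Real.exp (1 * (y c) ^ 2) ≤ Real.exp (1 * R ^ 2) :=
          Real.exp_le_exp.mpr (by linarith)
        calc C0 * Real.exp (1 * (y c) ^ 2) ≤ |C0| * Real.exp (1 * (y c) ^ 2) :=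
              mul_le_mul_of_nonneg_right (le_abs_self _) (Real.exp_pos _).le
          _ ≤ _ := mul_le_mul_of_nonneg_left h4 (abs_nonneg _)
      · push Not at hy
        obtain ⟨c, hc⟩ := hy
        have h0 : ∏ c, hI R (y c) = 0 :=
          Finset.prod_eq_zero (Finset.mem_univ c) (hI_not (not_le.mpr hc))
        rw [h0, zero_mul, zero_mul]
    have h3 : ∫ y : Fin r → ℝ, (∏ c, hI R (y c)) * K = (∫ z, hI R z) ^ r * K := by
      rw [integral_mul_const, integral_fintype_prod_volume_eq_pow (ι := Fin r) (hI R),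
        Fintype.card_fin]
    rw [← h3]
    exact (le_abs_self _).trans h2
  -- the lintegral
  have hle : ∀ ω : Fin (Lm l + 1) → Fin (LN l + LN l) → ℝ,
      (((Finset.univ.filter fun i => |ω (Lidx l q) i| ≤ R).card : ℝ≥0∞)) ^ r ≤
      ENNReal.ofReal (((2 * r : ℕ) : ℝ) ^ r) + ENNReal.ofReal (2 ^ r) * ENNReal.ofReal (D ω) := by
    intro ω
    set N := (Finset.univ.filter fun i => |ω (Lidx l q) i| ≤ R).card with hN
    have h1 : ((N : ℝ)) ^ r ≤ ((2 * r : ℕ) : ℝ) ^ r + 2 ^ r * D ω := by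
      have h2 : ((N ^ r : ℕ) : ℝ) ≤ (((2 * r) ^ r + 2 ^ r * N.descFactorial r : ℕ) : ℝ) := by
        exact_mod_cast pow_le_desc N r
      have h3 : ((N.descFactorial r : ℕ) : ℝ) ≤ D ω := desc_le q R (ω (Lidx l q))
      push_cast at h2
      push_cast
      have h4 : (2 : ℝ) ^ r * (N.descFactorial r : ℝ) ≤ 2 ^ r * D ω :=
        mul_le_mul_of_nonneg_left h3 (by positivity)
      linarith
    have h5 : ((N : ℝ≥0∞)) ^ r = ENNReal.ofReal (((N : ℝ)) ^ r) := by
      rw [ENNReal.ofReal_pow (Nat.cast_nonneg _), ENNReal.ofReal_natCast]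
    rw [h5, ← ENNReal.ofReal_mul (by positivity), ← ENNReal.ofReal_add (by positivity)
      (mul_nonneg (by positivity) (hD0 ω))]
    exact ENNReal.ofReal_le_ofReal h1
  calc _ ≤ ∫⁻ ω, (ENNReal.ofReal (((2 * r : ℕ) : ℝ) ^ r) +
        ENNReal.ofReal (2 ^ r) * ENNReal.ofReal (D ω)) ∂(Lμ l) := lintegral_mono hle
    _ = ENNReal.ofReal (((2 * r : ℕ) : ℝ) ^ r) +
        ENNReal.ofReal (2 ^ r) * ∫⁻ ω, ENNReal.ofReal (D ω) ∂(Lμ l) := by
        rw [lintegral_add_left measurable_const, lintegral_const, measure_univ, mul_one,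
          lintegral_const_mul _ hDmeas.ennreal_ofReal]
    _ ≤ ENNReal.ofReal (((2 * r : ℕ) : ℝ) ^ r) +
        ENNReal.ofReal (2 ^ r) * ENNReal.ofReal ((∫ z, hI R z) ^ r * K) := by
        rw [Lμ_lintegral l hDmeas hD0 hDb]
        gcongr
    _ = _ := by
        have hI0 : 0 ≤ ∫ z, hI R z := integral_nonneg (hI_nonneg R)
        rw [← ENNReal.ofReal_mul (by positivity), ← ENNReal.ofReal_add (by positivity)
          (by positivity)]

end Apx

end Pool.Agent.H.MP_5ad92a_pr
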