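import Pool.Agent.H.MP_5ad92a_pr.DefsP

set_option autoImplicit false
noncomputable section
open MeasureTheory Filter Topology Set
open scoped ENNReal
namespace Pool.Agent.H.MP_5ad92a_pr

lemma abs_sub_le_sum_steps (y : ℤ → ℝ) {a b : ℤ} (hab : a ≤ b) :
    |y b - y a| ≤ ∑ k ∈ Finset.Ico a b, |y (k + 1) - y k| := by
  induction b, hab using Int.leInduction with
  | base => simp
  | succ b hb ih =>
    have : Finset.Ico a (b + 1) = insert b (Finset.Ico a b) := by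
      ext k; simp only [Finset.mem_Ico, Finset.mem_insert]; omega
    rw [this, Finset.sum_insert (by simp)]
    calc |y (b+1) - y a| ≤ |y (b+1) - y b| + |y b - y a| := abs_sub_le _ _ _
      _ ≤ _ := by gcongr

/-- deterministic chaining from a coarse grid -/
lemma chain_sup_det (y : ℕ → ℤ → ℝ) (hy : ∀ l k, y (l + 1) (2 * k) = y l k) (M j : ℕ) (A : ℝ)
    (hA : ∑ k ∈ Finset.Ico (-((M : ℤ) * 2 ^ j)) ((M : ℤ) * 2 ^ j), |y j (k + 1) - y j k| ≤ A)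
    (a : ℕ → ℝ) (ha : ∀ i, 0 ≤ a i)
    (hs : ∀ i, ∀ k ∈ Finset.Ico (-((M : ℤ) * 2 ^ (j + i + 1))) ((M : ℤ) * 2 ^ (j + i + 1)),
      |y (j + i + 1) (k + 1) - y (j + i + 1) k| ≤ a i)
    (i : ℕ) (K : ℤ) (hK : |K| ≤ (M : ℤ) * 2 ^ (j + i)) :
    |y (j + i) K - y j 0| ≤ A + ∑ i' ∈ Finset.range i, a i' := by
  induction i generalizing K with
  | zero =>
    simp only [Finset.range_zero, Finset.sum_empty, add_zero] at hK ⊢
    rw [abs_le] at hK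
    rcases le_total 0 K with h | h
    · refine (abs_sub_le_sum_steps (y j) h).trans (le_trans ?_ hA)
      apply Finset.sum_le_sum_of_subset_of_nonneg
      · intro k hk
        rw [Finset.mem_Ico] at hk ⊢
        omega
      · intros; exact abs_nonneg _
    · rw [abs_sub_comm]
      refine (abs_sub_le_sum_steps (y j) h).trans (le_trans ?_ hA)
      apply Finset.sum_le_sum_of_subset_of_nonneg
      · intro k hk
        rw [Finset.mem_Ico] at hk ⊢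
        omega
      · intros; exact abs_nonneg _
  | succ i ih =>
    rw [abs_le] at hK
    have hT : (M : ℤ) * 2 ^ (j + (i + 1)) = 2 * ((M : ℤ) * 2 ^ (j + i)) := by
      rw [← add_assoc, pow_succ]; ring
    rw [hT] at hK
    have hs' := hs i
    have hT' : (M : ℤ) * 2 ^ (j + i + 1) = 2 * ((M : ℤ) * 2 ^ (j + i)) := by
      rw [pow_succ]; ring
    rw [hT'] at hs'
    rw [Finset.sum_range_succ]
    have hjj : j + (i + 1) = j + i + 1 := rfl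
    rw [hjj]
    rcases Int.even_or_odd' K with ⟨K', hK' | hK'⟩
    · have h1 := ih K' (by rw [abs_le]; omega)
      rw [hK', hy]
      have := ha i
      linarith
    · have h1 := ih K' (by rw [abs_le]; omega)
      have h2 := hs' (2 * K') (by rw [Finset.mem_Ico]; omega)
      rw [hK']
      rw [hy] at h2
      have h3 := abs_sub_le (y (j + i + 1) (2 * K' + 1)) (y (j + i) K') (y j 0)
      linarith

/-- deterministic modulus of continuity -/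
lemma chain_cont_det (y : ℕ → ℤ → ℝ) (hy : ∀ l k, y (l + 1) (2 * k) = y l k) (M l : ℕ)
    (r : ℝ) (hr0 : 0 ≤ r)
    (hs : ∀ l' ≥ l, ∀ k ∈ Finset.Ico (-((M : ℤ) * 2 ^ l')) ((M : ℤ) * 2 ^ l'),
      |y l' (k + 1) - y l' k| ≤ r ^ l')
    (i : ℕ) (K : ℤ) (hK : |K| ≤ (M : ℤ) * 2 ^ (l + i)) :
    |y (l + i) K - y l (K / 2 ^ i)| ≤ r ^ (l + 1) * ∑ i' ∈ Finset.range i, r ^ i' := by
  induction i generalizing K with
  | zero => simp
  | succ i ih =>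
    rw [abs_le] at hK
    have hT : (M : ℤ) * 2 ^ (l + (i + 1)) = 2 * ((M : ℤ) * 2 ^ (l + i)) := by
      rw [← add_assoc, pow_succ]; ring
    rw [hT] at hK
    have hs' := hs (l + i + 1) (by omega)
    have hT' : (M : ℤ) * 2 ^ (l + i + 1) = 2 * ((M : ℤ) * 2 ^ (l + i)) := by
      rw [pow_succ]; ring
    rw [hT'] at hs'
    rw [Finset.sum_range_succ, mul_add, ← pow_add]
    have hjj : l + (i + 1) = l + i + 1 := rfl
    have hdiv : K / 2 ^ (i + 1) = (K / 2) / 2 ^ i := by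
      rw [pow_succ', Int.ediv_ediv_of_nonneg (by norm_num)]
    rw [hjj, hdiv]
    have hpos : 0 ≤ r ^ (l + 1 + i) := pow_nonneg hr0 _
    rcases Int.even_or_odd' K with ⟨K', hK' | hK'⟩
    · have h1 := ih K' (by rw [abs_le]; omega)
      have h2 : K / 2 = K' := by omega
      rw [h2]
      rw [hK', hy]
      linarith
    · have h1 := ih K' (by rw [abs_le]; omega)
      have h4 : K / 2 = K' := by omega
      rw [h4]
      have h2 := hs' (2 * K') (by rw [Finset.mem_Ico]; omega)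
      rw [hK']
      rw [hy] at h2
      have h3 := abs_sub_le (y (l + i + 1) (2 * K' + 1)) (y (l + i) K') (y l (K' / 2 ^ i))
      have h5 : l + i + 1 = l + 1 + i := by ring
      rw [h5] at h2 h3 ⊢
      linarith

/-- Markov's inequality for fourth powers -/
lemma markov4 {Ω : Type*} [MeasurableSpace Ω] (P : Measure Ω) (Z : Ω → ℝ) (hZ : AEMeasurable Z P)
    (a : ℝ) (ha : 0 < a) (b : ℝ) (h : ∫⁻ ω, ENNReal.ofReal (Z ω ^ 4) ∂P ≤ ENNReal.ofReal b) :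
    P {ω | a < |Z ω|} ≤ ENNReal.ofReal (b / a ^ 4) := by
  have h1 : {ω | a < |Z ω|} ⊆ {ω | ENNReal.ofReal (a ^ 4) ≤ ENNReal.ofReal (Z ω ^ 4)} := by
    intro ω hω
    have h2 : a < |Z ω| := hω
    show ENNReal.ofReal (a ^ 4) ≤ ENNReal.ofReal (Z ω ^ 4)
    apply ENNReal.ofReal_le_ofReal
    have h3 : a ^ 4 ≤ |Z ω| ^ 4 := pow_le_pow_left₀ ha.le h2.le 4
    have h4 : |Z ω| ^ 4 = Z ω ^ 4 := by
      rw [← abs_pow]; exact abs_of_nonneg (by positivity)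
    rwa [h4] at h3
  refine (measure_mono h1).trans ?_
  have hm : AEMeasurable (fun ω => ENNReal.ofReal (Z ω ^ 4)) P := (hZ.pow_const 4).ennreal_ofReal
  have ha4 : 0 < a ^ 4 := by positivity
  refine (meas_ge_le_lintegral_div hm (by simpa using ha4) ENNReal.ofReal_ne_top).trans ?_
  rw [ENNReal.ofReal_div_of_pos ha4]
  exact ENNReal.div_le_div_right h _

/-- moment of one step of the grid -/
lemma step_moment {Ω : Type*} [MeasurableSpace Ω] (P : Measure Ω)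
    (Y : ℚ → Ω → ℝ) (M : ℕ) (B : ℝ) (l : ℕ)
    (h : ∀ q q' : ℚ, |(q : ℝ)| ≤ M → |(q' : ℝ)| ≤ M → |(q : ℝ) - q'| ≤ 1 / 2 ^ l →
      ∫⁻ ω, ENNReal.ofReal ((Y q ω - Y q' ω) ^ 4) ∂P ≤ ENNReal.ofReal (B * ((q : ℝ) - q') ^ 2))
    (k : ℤ) (hk : k ∈ Finset.Ico (-((M : ℤ) * 2 ^ l)) ((M : ℤ) * 2 ^ l)) :
    ∫⁻ ω, ENNReal.ofReal ((Y (((k + 1 : ℤ) : ℚ) / 2 ^ l) ω - Y ((k : ℚ) / 2 ^ l) ω) ^ 4) ∂P ≤
      ENNReal.ofReal (B * (1 / 2 ^ l) ^ 2) := by
  rw [Finset.mem_Ico] at hk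
  have h2 : (0 : ℝ) < 2 ^ l := by positivity
  have hk1 : (-((M : ℝ) * 2 ^ l)) ≤ k := by exact_mod_cast hk.1
  have hk2 : (k : ℝ) + 1 ≤ (M : ℝ) * 2 ^ l := by exact_mod_cast hk.2
  have e1 : (((((k + 1 : ℤ) : ℚ) / 2 ^ l : ℚ)) : ℝ) = ((k : ℝ) + 1) / 2 ^ l := by push_cast; ring
  have e2 : ((((k : ℚ) / 2 ^ l : ℚ)) : ℝ) = (k : ℝ) / 2 ^ l := by push_cast; ring
  have e3 : ((k : ℝ) + 1) / 2 ^ l - (k : ℝ) / 2 ^ l = 1 / 2 ^ l := by ring
  have := h (((k + 1 : ℤ) : ℚ) / 2 ^ l) ((k : ℚ) / 2 ^ l) ?_ ?_ ?_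
  · rwa [e1, e2, e3] at this
  · rw [e1, abs_le, le_div_iff₀ h2, div_le_iff₀ h2]
    constructor <;> linarith
  · rw [e2, abs_le, le_div_iff₀ h2, div_le_iff₀ h2]
    constructor <;> linarith
  · rw [e1, e2, e3, abs_of_pos (by positivity)]

/-- union bound for the steps of one level -/
lemma level_bound {Ω : Type*} [MeasurableSpace Ω] (P : Measure Ω)
    (Y : ℚ → Ω → ℝ) (hY : ∀ q, AEMeasurable (Y q) P) (M : ℕ) (B : ℝ) (hB : 0 ≤ B) (l : ℕ)
    (h : ∀ q q' : ℚ, |(q : ℝ)| ≤ M → |(q' : ℝ)| ≤ M → |(q : ℝ) - q'| ≤ 1 / 2 ^ l →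
      ∫⁻ ω, ENNReal.ofReal ((Y q ω - Y q' ω) ^ 4) ∂P ≤ ENNReal.ofReal (B * ((q : ℝ) - q') ^ 2))
    (a : ℝ) (ha : 0 < a) :
    P (⋃ k ∈ Finset.Ico (-((M : ℤ) * 2 ^ l)) ((M : ℤ) * 2 ^ l),
      {ω | a < |Y (((k + 1 : ℤ) : ℚ) / 2 ^ l) ω - Y ((k : ℚ) / 2 ^ l) ω|}) ≤
      ENNReal.ofReal (2 * M * B / (2 ^ l * a ^ 4)) := by
  refine (measure_biUnion_finset_le _ _).trans ?_
  have h1 : ∀ k ∈ Finset.Ico (-((M : ℤ) * 2 ^ l)) ((M : ℤ) * 2 ^ l),
      P {ω | a < |Y (((k + 1 : ℤ) : ℚ) / 2 ^ l) ω - Y ((k : ℚ) / 2 ^ l) ω|} ≤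
      ENNReal.ofReal (B * (1 / 2 ^ l) ^ 2 / a ^ 4) := fun k hk =>
    markov4 P (fun ω => Y (((k + 1 : ℤ) : ℚ) / 2 ^ l) ω - Y ((k : ℚ) / 2 ^ l) ω)
      ((hY _).sub (hY _)) a ha _ (step_moment P Y M B l h k hk)
  refine (Finset.sum_le_card_nsmul _ _ _ h1).trans ?_
  rw [Int.card_Ico]
  have h2 : ((M : ℤ) * 2 ^ l - -((M : ℤ) * 2 ^ l)).toNat = 2 * M * 2 ^ l := by
    have : (M : ℤ) * 2 ^ l - -((M : ℤ) * 2 ^ l) = ((2 * M * 2 ^ l : ℕ) : ℤ) := by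
      push_cast; ring
    rw [this, Int.toNat_natCast]
  rw [h2, nsmul_eq_mul, ← ENNReal.ofReal_natCast, ← ENNReal.ofReal_mul (Nat.cast_nonneg _)]
  apply ENNReal.ofReal_le_ofReal
  apply le_of_eq
  push_cast
  field_simp

/-- the coarse part of the chaining -/
lemma coarse_bound {Ω : Type*} [MeasurableSpace Ω] (P : Measure Ω)
    (Y : ℚ → Ω → ℝ) (hY : ∀ q, AEMeasurable (Y q) P) (M : ℕ) (B : ℝ) (hB : 0 ≤ B) (l : ℕ)
    (h : ∀ q q' : ℚ, |(q : ℝ)| ≤ M → |(q' : ℝ)| ≤ M → |(q : ℝ) - q'| ≤ 1 / 2 ^ l →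
      ∫⁻ ω, ENNReal.ofReal ((Y q ω - Y q' ω) ^ 4) ∂P ≤ ENNReal.ofReal (B * ((q : ℝ) - q') ^ 2))
    (a : ℝ) (ha : 0 < a) :
    P {ω | a < |(∑ k ∈ Finset.Ico (-((M : ℤ) * 2 ^ l)) ((M : ℤ) * 2 ^ l),
      |Y (((k + 1 : ℤ) : ℚ) / 2 ^ l) ω - Y ((k : ℚ) / 2 ^ l) ω|)|} ≤
      ENNReal.ofReal (16 * M ^ 4 * B * 2 ^ (2 * l) / a ^ 4) := by
  set I := Finset.Ico (-((M : ℤ) * 2 ^ l)) ((M : ℤ) * 2 ^ l) with hI
  have hcard : I.card = 2 * M * 2 ^ l := by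
    rw [hI, Int.card_Ico]
    have : (M : ℤ) * 2 ^ l - -((M : ℤ) * 2 ^ l) = ((2 * M * 2 ^ l : ℕ) : ℤ) := by
      push_cast; ring
    rw [this, Int.toNat_natCast]
  set D : ℤ → Ω → ℝ := fun k ω => Y (((k + 1 : ℤ) : ℚ) / 2 ^ l) ω - Y ((k : ℚ) / 2 ^ l) ω with hD
  have hDm : ∀ k, AEMeasurable (D k) P := fun k => (hY _).sub (hY _)
  have hAm : AEMeasurable (fun ω => ∑ k ∈ I, |D k ω|) P := by
    have : (fun ω => ∑ k ∈ I, |D k ω|) = ∑ k ∈ I, (fun ω => |D k ω|) := by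
      ext ω; simp
    rw [this]
    exact Finset.aemeasurable_sum _ (fun k _ => (hDm k).abs)
  apply markov4 P _ hAm a ha
  have h1 : ∀ ω, (∑ k ∈ I, |D k ω|) ^ 4 ≤ ((I.card : ℝ) ^ 3) * ∑ k ∈ I, (D k ω) ^ 4 := by
    intro ω
    have := pow_sum_le_card_mul_sum_pow (s := I) (f := fun k => |D k ω|)
      (fun k _ => abs_nonneg _) 3
    refine this.trans (le_of_eq ?_)
    congr 1
    apply Finset.sum_congr rfl
    intro k _
    show |D k ω| ^ 4 = (D k ω) ^ 4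
    rw [← abs_pow]; exact abs_of_nonneg (by positivity : 0 ≤ (D k ω) ^ 4)
  calc ∫⁻ ω, ENNReal.ofReal ((∑ k ∈ I, |D k ω|) ^ 4) ∂P
      ≤ ∫⁻ ω, ENNReal.ofReal ((I.card : ℝ) ^ 3) * ∑ k ∈ I, ENNReal.ofReal ((D k ω) ^ 4) ∂P := by
        apply lintegral_mono
        intro ω
        show ENNReal.ofReal ((∑ k ∈ I, |D k ω|) ^ 4) ≤
          ENNReal.ofReal ((I.card : ℝ) ^ 3) * ∑ k ∈ I, ENNReal.ofReal ((D k ω) ^ 4)
        rw [← ENNReal.ofReal_sum_of_nonneg (s := I) (f := fun k => (D k ω) ^ 4)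
          (fun k _ => by positivity), ← ENNReal.ofReal_mul (p := (I.card : ℝ) ^ 3) (by positivity)]
        exact ENNReal.ofReal_le_ofReal (h1 ω)
    _ = ENNReal.ofReal ((I.card : ℝ) ^ 3) * ∑ k ∈ I, ∫⁻ ω, ENNReal.ofReal ((D k ω) ^ 4) ∂P := by
        rw [lintegral_const_mul' _ _ ENNReal.ofReal_ne_top, lintegral_finsetSum']
        intro k _
        exact ((hDm k).pow_const 4).ennreal_ofReal
    _ ≤ ENNReal.ofReal ((I.card : ℝ) ^ 3) * (I.card • ENNReal.ofReal (B * (1 / 2 ^ l) ^ 2)) := by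
        gcongr
        exact Finset.sum_le_card_nsmul _ _ _ (fun k hk => step_moment P Y M B l h k hk)
    _ = ENNReal.ofReal (16 * M ^ 4 * B * 2 ^ (2 * l)) := by
        rw [nsmul_eq_mul, ← ENNReal.ofReal_natCast, ← ENNReal.ofReal_mul (Nat.cast_nonneg _),
          ← ENNReal.ofReal_mul (by positivity), hcard]
        congr 1
        push_cast
        rw [mul_comm 2 l, pow_mul]
        field_simp
        ring

/-- common form of a dyadic rational at a level above `j` -/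
lemma isDy_level {q : ℚ} (hq : IsDy q) (j : ℕ) :
    ∃ i : ℕ, ∃ K : ℤ, ∀ i' ≥ i, q = ((K * 2 ^ (i' - i) : ℤ) : ℚ) / 2 ^ (j + i') := by
  obtain ⟨l, k, rfl⟩ := hq
  refine ⟨l, k * 2 ^ j, fun i' hi' => ?_⟩
  obtain ⟨s, rfl⟩ := Nat.exists_eq_add_of_le hi'
  have h1 : l + s - l = s := by omega
  rw [h1]
  push_cast
  rw [pow_add, pow_add]
  field_simp

lemma abs_K_le {K : ℤ} {M l : ℕ} (h : |((((K : ℚ) / 2 ^ l : ℚ)) : ℝ)| ≤ M) :
    |K| ≤ (M : ℤ) * 2 ^ l := by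
  have h2 : (0 : ℝ) < 2 ^ l := by positivity
  have e : ((((K : ℚ) / 2 ^ l : ℚ)) : ℝ) = (K : ℝ) / 2 ^ l := by push_cast; ring
  rw [e, abs_div, abs_of_pos h2, div_le_iff₀ h2] at h
  have : ((|K| : ℤ) : ℝ) ≤ (((M : ℤ) * 2 ^ l : ℤ) : ℝ) := by
    push_cast; exact h
  exact_mod_cast this

lemma grid_succ {Ω : Type*} (Y : ℚ → Ω → ℝ) (ω : Ω) (l : ℕ) (k : ℤ) :
    Y (((2 * k : ℤ) : ℚ) / 2 ^ (l + 1)) ω = Y ((k : ℚ) / 2 ^ l) ω := by
  congr 1
  push_cast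
  rw [pow_succ]
  field_simp

theorem chaining_sup {Ω : Type*} [MeasurableSpace Ω] (P : Measure Ω) [IsProbabilityMeasure P]
    (Y : ℚ → Ω → ℝ) (hY : ∀ q, AEMeasurable (Y q) P) (M : ℕ) (B : ℝ) (hB : 0 ≤ B) (j : ℕ)
    (h : ∀ q q' : ℚ, |(q : ℝ)| ≤ M → |(q' : ℝ)| ≤ M → |(q : ℝ) - q'| ≤ 1 / 2 ^ j →
      ∫⁻ ω, ENNReal.ofReal ((Y q ω - Y q' ω) ^ 4) ∂P ≤ ENNReal.ofReal (B * ((q : ℝ) - q') ^ 2))
    (lam : ℝ) (hlam : 0 < lam) :
    P {ω | ∃ q : ℚ, IsDy q ∧ |(q : ℝ)| ≤ M ∧ lam < |Y q ω - Y 0 ω|} ≤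
      ENNReal.ofReal (10 ^ 7 * ((M : ℝ) + 1) ^ 4 * B * 2 ^ (2 * j) / lam ^ 4) := by
  -- the exceptional events
  set C : Set Ω := {ω | lam / 2 < |(∑ k ∈ Finset.Ico (-((M : ℤ) * 2 ^ j)) ((M : ℤ) * 2 ^ j),
      |Y (((k + 1 : ℤ) : ℚ) / 2 ^ j) ω - Y ((k : ℚ) / 2 ^ j) ω|)|} with hC
  set a : ℕ → ℝ := fun i => lam / 16 * (7 / 8) ^ (i + 1) with ha
  have ha0 : ∀ i, 0 < a i := fun i => by simp only [ha]; positivity
  set F : ℕ → Set Ω := fun i =>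
    ⋃ k ∈ Finset.Ico (-((M : ℤ) * 2 ^ (j + i + 1))) ((M : ℤ) * 2 ^ (j + i + 1)),
      {ω | a i < |Y (((k + 1 : ℤ) : ℚ) / 2 ^ (j + i + 1)) ω - Y ((k : ℚ) / 2 ^ (j + i + 1)) ω|}
    with hF
  have hsuma : ∀ n, ∑ i ∈ Finset.range n, a i = lam / 16 * (7 * (1 - (7 / 8) ^ n)) := by
    intro n
    induction n with
    | zero => simp
    | succ n ih => rw [Finset.sum_range_succ, ih]; simp only [ha]; ring
  have hcontain : {ω | ∃ q : ℚ, IsDy q ∧ |(q : ℝ)| ≤ M ∧ lam < |Y q ω - Y 0 ω|} ⊆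
      C ∪ ⋃ i, F i := by
    rintro ω ⟨q, hq, hqM, hlt⟩
    by_contra hnot
    rw [Set.mem_union, not_or] at hnot
    obtain ⟨hnC, hnF⟩ := hnot
    rw [Set.mem_iUnion] at hnF
    have hA : ∑ k ∈ Finset.Ico (-((M : ℤ) * 2 ^ j)) ((M : ℤ) * 2 ^ j),
        |Y (((k + 1 : ℤ) : ℚ) / 2 ^ j) ω - Y ((k : ℚ) / 2 ^ j) ω| ≤ lam / 2 := by
      by_contra hgt
      exact hnC (lt_of_lt_of_le (not_le.mp hgt) (le_abs_self _))
    have hs : ∀ i, ∀ k ∈ Finset.Ico (-((M : ℤ) * 2 ^ (j + i + 1))) ((M : ℤ) * 2 ^ (j + i + 1)),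
        |Y (((k + 1 : ℤ) : ℚ) / 2 ^ (j + i + 1)) ω - Y ((k : ℚ) / 2 ^ (j + i + 1)) ω| ≤ a i := by
      intro i k hk
      by_contra hgt
      apply hnF
      refine ⟨i, ?_⟩
      rw [hF]
      simp only [Set.mem_iUnion]
      exact ⟨k, hk, not_le.mp hgt⟩
    obtain ⟨i, K, hK⟩ := isDy_level hq j
    have hq2 := hK i le_rfl
    rw [Nat.sub_self, pow_zero, mul_one] at hq2
    rw [hq2] at hqM hlt
    have hKM := abs_K_le hqM
    have hdet := chain_sup_det (fun l k => Y ((k : ℚ) / 2 ^ l) ω) (fun l k => grid_succ Y ω l k)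
      M j (lam / 2) hA a (fun i => (ha0 i).le) hs i K hKM
    rw [hsuma] at hdet
    simp only [Int.cast_zero, zero_div] at hdet
    have hp : 0 ≤ (7 / 8 : ℝ) ^ i := by positivity
    have : lam / 16 * (7 * (1 - (7 / 8) ^ i)) ≤ lam / 16 * 7 := by
      apply mul_le_mul_of_nonneg_left _ (by positivity)
      linarith
    linarith
  -- the bounds
  have hCb : P C ≤ ENNReal.ofReal (16 * M ^ 4 * B * 2 ^ (2 * j) / (lam / 2) ^ 4) :=
    coarse_bound P Y hY M B hB j h (lam / 2) (by positivity)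
  have hFb : ∀ i, P (F i) ≤ ENNReal.ofReal
      (2 * M * B * 65536 / (2 ^ j * lam ^ 4) * (2048 / 2401) * (2048 / 2401) ^ i) := by
    intro i
    refine (level_bound P Y hY M B hB (j + i + 1) ?_ (a i) (ha0 i)).trans (le_of_eq ?_)
    · intro q q' h1 h2 h3
      refine h q q' h1 h2 (h3.trans ?_)
      apply one_div_le_one_div_of_le (by positivity)
      exact pow_le_pow_right₀ (by norm_num) (by omega)
    · congr 1
      simp only [ha]
      have e1 : (lam / 16 * (7 / 8 : ℝ) ^ (i + 1)) ^ 4 = lam ^ 4 / 65536 * ((2401 / 4096) ^ (i + 1)) := by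
        rw [mul_pow, ← pow_mul, mul_comm (i + 1) 4, pow_mul]
        norm_num
        ring
      have e2 : (2048 / 2401 : ℝ) * (2048 / 2401) ^ i = 1 / (2 ^ (i + 1) * (2401 / 4096) ^ (i + 1)) := by
        rw [← mul_pow, ← pow_succ', one_div, ← inv_pow]
        norm_num
      have e3 : (2 : ℝ) ^ (j + i + 1) = 2 ^ j * 2 ^ (i + 1) := by
        rw [add_assoc, pow_add]
      rw [e1, e3, mul_assoc (2 * (M : ℝ) * B * 65536 / (2 ^ j * lam ^ 4)), e2]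
      field_simp
  have hsumF : P (⋃ i, F i) ≤ ENNReal.ofReal
      (2 * M * B * 65536 / (2 ^ j * lam ^ 4) * (2048 / 353)) := by
    refine (measure_iUnion_le _).trans ?_
    have hsummable : Summable (fun i : ℕ =>
        2 * (M : ℝ) * B * 65536 / (2 ^ j * lam ^ 4) * (2048 / 2401) * (2048 / 2401) ^ i) :=
      (summable_geometric_of_lt_one (by norm_num) (by norm_num)).mul_left _
    calc ∑' i, P (F i) ≤ ∑' i, ENNReal.ofReal
          (2 * M * B * 65536 / (2 ^ j * lam ^ 4) * (2048 / 2401) * (2048 / 2401) ^ i) :=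
          ENNReal.tsum_le_tsum hFb
      _ = ENNReal.ofReal (∑' i : ℕ,
          2 * (M : ℝ) * B * 65536 / (2 ^ j * lam ^ 4) * (2048 / 2401) * (2048 / 2401) ^ i) := by
          rw [ENNReal.ofReal_tsum_of_nonneg (fun i => by positivity) hsummable]
      _ = _ := by
          rw [tsum_mul_left, tsum_geometric_of_lt_one (by norm_num) (by norm_num)]
          congr 1
          norm_num
          ring
  calc P {ω | ∃ q : ℚ, IsDy q ∧ |(q : ℝ)| ≤ M ∧ lam < |Y q ω - Y 0 ω|}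
      ≤ P (C ∪ ⋃ i, F i) := measure_mono hcontain
    _ ≤ P C + P (⋃ i, F i) := measure_union_le _ _
    _ ≤ ENNReal.ofReal (16 * M ^ 4 * B * 2 ^ (2 * j) / (lam / 2) ^ 4) +
        ENNReal.ofReal (2 * M * B * 65536 / (2 ^ j * lam ^ 4) * (2048 / 353)) :=
        add_le_add hCb hsumF
    _ = ENNReal.ofReal (16 * M ^ 4 * B * 2 ^ (2 * j) / (lam / 2) ^ 4 +
        2 * M * B * 65536 / (2 ^ j * lam ^ 4) * (2048 / 353)) :=
        (ENNReal.ofReal_add (by positivity) (by positivity)).symm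
    _ ≤ _ := by
        apply ENNReal.ofReal_le_ofReal
        have hl4 : 0 < lam ^ 4 := by positivity
        have hM0 : (0 : ℝ) ≤ M := Nat.cast_nonneg M
        have h1 : (M : ℝ) ^ 4 ≤ (M + 1) ^ 4 := pow_le_pow_left₀ hM0 (by linarith) 4
        have h2 : (M : ℝ) ≤ (M + 1) ^ 4 := by
          calc (M : ℝ) ≤ (M + 1) := by linarith
            _ = (M + 1) ^ 1 := (pow_one _).symm
            _ ≤ (M + 1) ^ 4 := pow_le_pow_right₀ (by linarith) (by norm_num)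
        have h3 : (1 : ℝ) / 2 ^ j ≤ 2 ^ (2 * j) := by
          have h4 : (1 : ℝ) ≤ 2 ^ j := one_le_pow₀ (by norm_num)
          have h5 : (1 : ℝ) ≤ 2 ^ (2 * j) := one_le_pow₀ (by norm_num)
          have h6 : (1 : ℝ) / 2 ^ j ≤ 1 := by
            rw [div_le_one (by positivity)]; exact h4
          linarith
        have e1 : 16 * (M : ℝ) ^ 4 * B * 2 ^ (2 * j) / (lam / 2) ^ 4 +
            2 * M * B * 65536 / (2 ^ j * lam ^ 4) * (2048 / 353) =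
            (256 * ((M : ℝ) ^ 4 * 2 ^ (2 * j)) +
              131072 * (2048 / 353) * (M * (1 / 2 ^ j))) * (B / lam ^ 4) := by
          field_simp
          ring
        have e2 : 10 ^ 7 * ((M : ℝ) + 1) ^ 4 * B * 2 ^ (2 * j) / lam ^ 4 =
            (10 ^ 7 * (((M : ℝ) + 1) ^ 4 * 2 ^ (2 * j))) * (B / lam ^ 4) := by
          ring
        rw [e1, e2]
        apply mul_le_mul_of_nonneg_right _ (by positivity)
        have h7 : (M : ℝ) ^ 4 * 2 ^ (2 * j) ≤ ((M : ℝ) + 1) ^ 4 * 2 ^ (2 * j) :=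
          mul_le_mul_of_nonneg_right h1 (by positivity)
        have h8 : (M : ℝ) * (1 / 2 ^ j) ≤ ((M : ℝ) + 1) ^ 4 * 2 ^ (2 * j) :=
          mul_le_mul h2 h3 (by positivity) (by positivity)
        have h9 : 0 ≤ ((M : ℝ) + 1) ^ 4 * 2 ^ (2 * j) := by positivity
        nlinarith

theorem chaining_cont {Ω : Type*} [MeasurableSpace Ω] (P : Measure Ω) [IsProbabilityMeasure P]
    (Y : ℚ → Ω → ℝ) (hY : ∀ q, AEMeasurable (Y q) P) (M : ℕ) (B : ℝ)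
    (h : ∀ q q' : ℚ, |(q : ℝ)| ≤ M → |(q' : ℝ)| ≤ M →
      ∫⁻ ω, ENNReal.ofReal ((Y q ω - Y q' ω) ^ 4) ∂P ≤ ENNReal.ofReal (B * ((q : ℝ) - q') ^ 2)) :
    ∀ᵐ ω ∂P, ∀ ε > (0 : ℝ), ∃ δ > (0 : ℝ), ∀ q q' : ℚ, IsDy q → IsDy q' → |(q : ℝ)| ≤ M →
      |(q' : ℝ)| ≤ M → |(q : ℝ) - q'| < δ → |Y q ω - Y q' ω| ≤ ε := by
  set B' : ℝ := max B 0 with hB'
  have hB0 : 0 ≤ B' := le_max_right _ _
  have h' : ∀ q q' : ℚ, |(q : ℝ)| ≤ M → |(q' : ℝ)| ≤ M →
      ∫⁻ ω, ENNReal.ofReal ((Y q ω - Y q' ω) ^ 4) ∂P ≤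
        ENNReal.ofReal (B' * ((q : ℝ) - q') ^ 2) := by
    intro q q' h1 h2
    refine (h q q' h1 h2).trans (ENNReal.ofReal_le_ofReal ?_)
    exact mul_le_mul_of_nonneg_right (le_max_left _ _) (by positivity)
  set G : ℕ → Set Ω := fun l => ⋃ k ∈ Finset.Ico (-((M : ℤ) * 2 ^ l)) ((M : ℤ) * 2 ^ l),
      {ω | (7 / 8 : ℝ) ^ l < |Y (((k + 1 : ℤ) : ℚ) / 2 ^ l) ω - Y ((k : ℚ) / 2 ^ l) ω|} with hG
  have hGb : ∀ l, P (G l) ≤ ENNReal.ofReal (2 * M * B' * (2048 / 2401) ^ l) := by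
    intro l
    refine (level_bound P Y hY M B' hB0 l (fun q q' h1 h2 _ => h' q q' h1 h2) ((7 / 8 : ℝ) ^ l)
      (by positivity)).trans (le_of_eq ?_)
    congr 1
    have e1 : (2 : ℝ) ^ l * ((7 / 8 : ℝ) ^ l) ^ 4 = (2401 / 2048) ^ l := by
      rw [← pow_mul, mul_comm l 4, pow_mul, ← mul_pow]
      norm_num
    have e2 : (2048 / 2401 : ℝ) ^ l = ((2401 / 2048 : ℝ) ^ l)⁻¹ := by
      rw [← inv_pow]; norm_num
    rw [e1, e2, div_eq_mul_inv]
  have hsum : ∑' l, P (G l) ≠ ∞ := by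
    have hsummable : Summable (fun l : ℕ => 2 * (M : ℝ) * B' * (2048 / 2401) ^ l) :=
      (summable_geometric_of_lt_one (by norm_num) (by norm_num)).mul_left _
    have : ∑' l, P (G l) ≤ ENNReal.ofReal (∑' l : ℕ, 2 * (M : ℝ) * B' * (2048 / 2401) ^ l) := by
      rw [ENNReal.ofReal_tsum_of_nonneg (fun i => by positivity) hsummable]
      exact ENNReal.tsum_le_tsum hGb
    exact ne_top_of_le_ne_top ENNReal.ofReal_ne_top this
  filter_upwards [ae_eventually_notMem hsum] with ω hω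
  rw [eventually_atTop] at hω
  obtain ⟨l0, hl0⟩ := hω
  have hsteps : ∀ l' ≥ l0, ∀ k ∈ Finset.Ico (-((M : ℤ) * 2 ^ l')) ((M : ℤ) * 2 ^ l'),
      |Y (((k + 1 : ℤ) : ℚ) / 2 ^ l') ω - Y ((k : ℚ) / 2 ^ l') ω| ≤ (7 / 8 : ℝ) ^ l' := by
    intro l' hl' k hk
    by_contra hgt
    apply hl0 l' hl'
    rw [hG]
    simp only [Set.mem_iUnion]
    exact ⟨k, hk, not_le.mp hgt⟩
  intro ε hε
  obtain ⟨l1, hl1⟩ := exists_pow_lt_of_lt_one (show (0 : ℝ) < ε / 15 by positivity)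
    (show (7 / 8 : ℝ) < 1 by norm_num)
  set l := max l0 l1 with hl
  have hrl : (7 / 8 : ℝ) ^ l ≤ ε / 15 :=
    (pow_le_pow_of_le_one (by norm_num) (by norm_num) (le_max_right _ _)).trans hl1.le
  refine ⟨1 / 2 ^ l, by positivity, ?_⟩
  intro q q' hq hq' hqM hq'M hlt
  obtain ⟨i1, K1, hK1⟩ := isDy_level hq l
  obtain ⟨i2, K2, hK2⟩ := isDy_level hq' l
  set i := max i1 i2 with hi
  set K : ℤ := K1 * 2 ^ (i - i1) with hKdef
  set K' : ℤ := K2 * 2 ^ (i - i2) with hK'def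
  have eq1 : q = (K : ℚ) / 2 ^ (l + i) := hK1 i (le_max_left _ _)
  have eq2 : q' = (K' : ℚ) / 2 ^ (l + i) := hK2 i (le_max_right _ _)
  rw [eq1] at hqM
  rw [eq2] at hq'M
  have hKM := abs_K_le hqM
  have hK'M := abs_K_le hq'M
  have hdet := chain_cont_det (fun l k => Y ((k : ℚ) / 2 ^ l) ω) (fun l k => grid_succ Y ω l k)
    M l (7 / 8) (by norm_num) (fun l' hl' => hsteps l' (le_trans (le_max_left _ _) hl')) i
  have hgeom : ∑ i' ∈ Finset.range i, (7 / 8 : ℝ) ^ i' ≤ 8 := by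
    have : ∀ n : ℕ, ∑ i' ∈ Finset.range n, (7 / 8 : ℝ) ^ i' = 8 * (1 - (7 / 8) ^ n) := by
      intro n
      induction n with
      | zero => simp
      | succ n ih => rw [Finset.sum_range_succ, ih]; ring
    rw [this]
    have hp : 0 ≤ (7 / 8 : ℝ) ^ i := by positivity
    linarith
  have hb1 : |Y q ω - Y (((K / 2 ^ i : ℤ) : ℚ) / 2 ^ l) ω| ≤ 7 * (7 / 8) ^ l := by
    have := hdet K hKM
    rw [← eq1] at this
    refine this.trans ?_
    rw [pow_succ]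
    have hp : 0 ≤ (7 / 8 : ℝ) ^ l := by positivity
    nlinarith
  have hb2 : |Y q' ω - Y (((K' / 2 ^ i : ℤ) : ℚ) / 2 ^ l) ω| ≤ 7 * (7 / 8) ^ l := by
    have := hdet K' hK'M
    rw [← eq2] at this
    refine this.trans ?_
    rw [pow_succ]
    have hp : 0 ≤ (7 / 8 : ℝ) ^ l := by positivity
    nlinarith
  -- the two coarse points are equal or neighbours
  have h2i : (0 : ℤ) < 2 ^ i := by positivity
  have hKK' : |K - K'| < 2 ^ i := by
    have e : (q : ℝ) - q' = ((K : ℝ) - K') / 2 ^ (l + i) := by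
      rw [eq1, eq2]; push_cast; ring
    rw [e, abs_div, abs_of_pos (by positivity : (0 : ℝ) < 2 ^ (l + i)),
      div_lt_div_iff₀ (by positivity) (by positivity), one_mul, pow_add] at hlt
    have h3 : |(K : ℝ) - K'| < 2 ^ i := by
      have hpos : (0 : ℝ) < 2 ^ l := by positivity
      nlinarith
    have h4 : ((|K - K'| : ℤ) : ℝ) < ((2 ^ i : ℤ) : ℝ) := by push_cast; exact h3
    exact_mod_cast h4
  have hmid : |Y (((K / 2 ^ i : ℤ) : ℚ) / 2 ^ l) ω - Y (((K' / 2 ^ i : ℤ) : ℚ) / 2 ^ l) ω| ≤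
      (7 / 8) ^ l := by
    have hst := hsteps l (le_max_left _ _)
    have hpw : (M : ℤ) * 2 ^ (l + i) = ((M : ℤ) * 2 ^ l) * 2 ^ i := by rw [pow_add]; ring
    rw [hpw] at hKM hK'M
    rw [abs_le] at hKM hK'M
    rw [abs_lt] at hKK'
    set T : ℤ := (M : ℤ) * 2 ^ l with hT
    set u : ℤ := K / 2 ^ i with hu
    set u' : ℤ := K' / 2 ^ i with hu'
    have hu1 : u * 2 ^ i ≤ K := Int.ediv_mul_le K h2i.ne'
    have hu2 : K < (u + 1) * 2 ^ i := Int.lt_ediv_add_one_mul_self K h2i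
    have hu1' : u' * 2 ^ i ≤ K' := Int.ediv_mul_le K' h2i.ne'
    have hu2' : K' < (u' + 1) * 2 ^ i := Int.lt_ediv_add_one_mul_self K' h2i
    have c1 : u ≤ u' + 1 := by
      by_contra hcon
      have : u' + 2 ≤ u := by omega
      have : (u' + 2) * 2 ^ i ≤ u * 2 ^ i := mul_le_mul_of_nonneg_right this h2i.le
      nlinarith [hKK'.2]
    have c2 : u' ≤ u + 1 := by
      by_contra hcon
      have : u + 2 ≤ u' := by omega
      have : (u + 2) * 2 ^ i ≤ u' * 2 ^ i := mul_le_mul_of_nonneg_right this h2i.le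
      nlinarith [hKK'.1]
    have c3 : -T ≤ u := by
      by_contra hcon
      have : u + 1 ≤ -T := by omega
      have : (u + 1) * 2 ^ i ≤ (-T) * 2 ^ i := mul_le_mul_of_nonneg_right this h2i.le
      nlinarith [hKM.1]
    have c3' : -T ≤ u' := by
      by_contra hcon
      have : u' + 1 ≤ -T := by omega
      have : (u' + 1) * 2 ^ i ≤ (-T) * 2 ^ i := mul_le_mul_of_nonneg_right this h2i.le
      nlinarith [hK'M.1]
    have c4 : u ≤ T := by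
      by_contra hcon
      have : T + 1 ≤ u := by omega
      have : (T + 1) * 2 ^ i ≤ u * 2 ^ i := mul_le_mul_of_nonneg_right this h2i.le
      nlinarith [hKM.2]
    have c4' : u' ≤ T := by
      by_contra hcon
      have : T + 1 ≤ u' := by omega
      have : (T + 1) * 2 ^ i ≤ u' * 2 ^ i := mul_le_mul_of_nonneg_right this h2i.le
      nlinarith [hK'M.2]
    rcases lt_trichotomy u u' with hlt' | heq | hgt'
    · have e : u' = u + 1 := by omega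
      rw [e, abs_sub_comm]
      exact hst u (by rw [Finset.mem_Ico]; omega)
    · rw [heq, sub_self, abs_zero]; positivity
    · have e : u = u' + 1 := by omega
      rw [e]
      exact hst u' (by rw [Finset.mem_Ico]; omega)
  have t1 := abs_sub_le (Y q ω) (Y (((K / 2 ^ i : ℤ) : ℚ) / 2 ^ l) ω) (Y q' ω)
  have t2 := abs_sub_le (Y (((K / 2 ^ i : ℤ) : ℚ) / 2 ^ l) ω)
    (Y (((K' / 2 ^ i : ℤ) : ℚ) / 2 ^ l) ω) (Y q' ω)
  rw [abs_sub_comm (Y q' ω)] at hb2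
  linarith

end Pool.Agent.H.MP_5ad92a_pr
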