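import Pool.Agent.H.MP_5ad92a_pr.DefsP

/-!
# From product test functions to all measurable functions; assembly over finite sets of times
-/

set_option autoImplicit false

noncomputable section

open MeasureTheory Filter Topology Set
open scoped ENNReal

namespace Pool.Agent.H.MP_5ad92a_pr

namespace CM

/-- Trapezoid functions increasing to the indicator of `(a,b)`. -/
def trap (a b : ℝ) (n : ℕ) (x : ℝ) : ℝ := max 0 (min 1 ((n : ℝ) * min (x - a) (b - x)))

theorem trap_cont (a b : ℝ) (n : ℕ) : Continuous (trap a b n) := by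
  unfold trap; fun_prop

theorem trap_nonneg (a b : ℝ) (n : ℕ) (x : ℝ) : 0 ≤ trap a b n x := le_max_left _ _

theorem trap_le_one (a b : ℝ) (n : ℕ) (x : ℝ) : trap a b n x ≤ 1 :=
  max_le zero_le_one (min_le_left _ _)

theorem trap_zero {a b : ℝ} {n : ℕ} {x : ℝ} (hx : x ∉ Ioo a b) : trap a b n x = 0 := by
  unfold trap
  apply max_eq_left
  refine (min_le_right _ _).trans ?_
  apply mul_nonpos_of_nonneg_of_nonpos (Nat.cast_nonneg n)
  rw [mem_Ioo, not_and_or, not_lt, not_lt] at hx
  rcases hx with hx | hx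
  · exact (min_le_left _ _).trans (by linarith)
  · exact (min_le_right _ _).trans (by linarith)

theorem trap_compact (a b : ℝ) (n : ℕ) : HasCompactSupport (trap a b n) := by
  apply HasCompactSupport.intro (isCompact_Icc (a := a) (b := b))
  intro x hx
  exact trap_zero (fun h => hx (Ioo_subset_Icc_self h))

theorem trap_mono (a b : ℝ) (x : ℝ) : Monotone fun n : ℕ => trap a b n x := by
  intro n m hnm
  by_cases hx : x ∈ Ioo a b
  · unfold trap
    apply max_le_max le_rfl
    apply min_le_min le_rfl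
    apply mul_le_mul_of_nonneg_right (by exact_mod_cast hnm)
    exact le_min (by linarith [hx.1]) (by linarith [hx.2])
  · show trap a b n x ≤ trap a b m x
    rw [trap_zero hx, trap_zero hx]

theorem trap_one {a b x : ℝ} (hx : x ∈ Ioo a b) : ∃ N : ℕ, ∀ n ≥ N, trap a b n x = 1 := by
  have hd : 0 < min (x - a) (b - x) := lt_min (by linarith [hx.1]) (by linarith [hx.2])
  obtain ⟨N, hN⟩ := exists_nat_ge (min (x - a) (b - x))⁻¹
  refine ⟨N, fun n hn => ?_⟩
  have h1 : 1 ≤ (n : ℝ) * min (x - a) (b - x) := by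
    have h2 : (min (x - a) (b - x))⁻¹ ≤ (n : ℝ) := hN.trans (by exact_mod_cast hn)
    calc (1 : ℝ) = (min (x - a) (b - x))⁻¹ * min (x - a) (b - x) := (inv_mul_cancel₀ hd.ne').symm
      _ ≤ _ := mul_le_mul_of_nonneg_right h2 hd.le
  unfold trap
  rw [min_eq_left h1]
  exact max_eq_right zero_le_one

variable {k : ℕ}

theorem prod_cont {f : Fin k → ℝ → ℝ} (hf : ∀ c, Continuous (f c)) :
    Continuous fun y : Fin k → ℝ => ∏ c, f c (y c) :=
  continuous_finsetProd _ fun c _ => (hf c).comp (continuous_apply c)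

theorem prod_compact {f : Fin k → ℝ → ℝ} (hf : ∀ c, HasCompactSupport (f c)) :
    HasCompactSupport fun y : Fin k → ℝ => ∏ c, f c (y c) := by
  apply HasCompactSupport.intro (K := Set.pi univ fun c => tsupport (f c))
    (isCompact_univ_pi fun c => hf c)
  intro y hy
  simp only [Set.mem_pi, mem_univ, true_implies, not_forall] at hy
  obtain ⟨c, hc⟩ := hy
  exact Finset.prod_eq_zero (Finset.mem_univ c) (image_eq_zero_of_notMem_tsupport hc)

/-- measure of an open box through trapezoids -/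
theorem box_measure (μ : Measure (Fin k → ℝ)) (a b : Fin k → ℝ) :
    μ (Set.pi univ fun c => Ioo (a c) (b c)) =
      ⨆ n : ℕ, ∫⁻ y, ENNReal.ofReal (∏ c, trap (a c) (b c) n (y c)) ∂μ := by
  rw [← lintegral_iSup]
  · rw [← lintegral_indicator_one (MeasurableSet.univ_pi fun c => measurableSet_Ioo)]
    congr 1
    funext y
    by_cases hy : y ∈ Set.pi univ fun c => Ioo (a c) (b c)
    · rw [indicator_of_mem hy]
      apply le_antisymm
      · have : ∀ c, ∃ N : ℕ, ∀ n ≥ N, trap (a c) (b c) n (y c) = 1 :=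
          fun c => trap_one (hy c (mem_univ c))
        choose N hN using this
        refine le_iSup_of_le (∑ c, N c) ?_
        rw [Finset.prod_eq_one]
        · simp
        · intro c _
          exact hN c _ (Finset.single_le_sum (f := N) (fun _ _ => Nat.zero_le _) (Finset.mem_univ c))
      · refine iSup_le fun n => ?_
        rw [Pi.one_apply, ← ENNReal.ofReal_one]
        apply ENNReal.ofReal_le_ofReal
        exact Finset.prod_le_one (fun c _ => trap_nonneg _ _ _ _) fun c _ => trap_le_one _ _ _ _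
    · rw [indicator_of_notMem hy]
      simp only [Set.mem_pi, mem_univ, true_implies, not_forall] at hy
      obtain ⟨c, hc⟩ := hy
      symm
      rw [ENNReal.iSup_eq_zero]
      intro n
      rw [Finset.prod_eq_zero (Finset.mem_univ c) (trap_zero hc), ENNReal.ofReal_zero]
  · intro n
    exact (prod_cont fun c => trap_cont _ _ _).measurable.ennreal_ofReal
  · intro n m hnm y
    apply ENNReal.ofReal_le_ofReal
    exact Finset.prod_le_prod (fun c _ => trap_nonneg _ _ _ _) fun c _ => trap_mono _ _ _ hnm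

/-- two measures with the same integrals of products of test functions coincide -/
theorem ext_products (μ ν : Measure (Fin k → ℝ))
    (hfin : ∀ f : Fin k → ℝ → ℝ, (∀ c, Continuous (f c)) → (∀ c z, 0 ≤ f c z) →
      (∀ c, HasCompactSupport (f c)) → ∫⁻ y, ENNReal.ofReal (∏ c, f c (y c)) ∂μ ≠ ∞)
    (h : ∀ f : Fin k → ℝ → ℝ, (∀ c, Continuous (f c)) → (∀ c z, 0 ≤ f c z) →
      (∀ c, HasCompactSupport (f c)) →
      ∫⁻ y, ENNReal.ofReal (∏ c, f c (y c)) ∂μ = ∫⁻ y, ENNReal.ofReal (∏ c, f c (y c)) ∂ν) :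
    μ = ν := by
  set C : Fin k → Set (Set ℝ) :=
    fun _ => ⋃ (a : ℚ) (b : ℚ) (_ : a < b), {Ioo (a : ℝ) (b : ℝ)} with hC
  have hgen : ∀ i : Fin k, MeasurableSpace.generateFrom (C i) = (inferInstance : MeasurableSpace ℝ) := by
    intro i
    rw [hC]
    rw [← Real.borel_eq_generateFrom_Ioo_rat]
    exact (BorelSpace.measurable_eq (α := ℝ)).symm
  have hspan : ∀ i : Fin k, IsCountablySpanning (C i) := by
    intro i
    exact (Real.finiteSpanningSetsInIooRat (volume : Measure ℝ)).isCountablySpanning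
  have hpi : IsPiSystem (pi univ '' pi univ C) := IsPiSystem.pi fun i => Real.isPiSystem_Ioo_rat
  have hall : ∀ a b : Fin k → ℝ, μ (Set.pi univ fun c => Ioo (a c) (b c)) =
      ν (Set.pi univ fun c => Ioo (a c) (b c)) := by
    intro a b
    rw [box_measure, box_measure]
    congr 1
    funext n
    exact h _ (fun c => trap_cont _ _ _) (fun c z => trap_nonneg _ _ _ _) fun c => trap_compact _ _ _
  have hmem : ∀ n : ℕ, (Set.pi univ fun _ : Fin k => Ioo (-((n : ℝ) + 1)) ((n : ℝ) + 1)) ∈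
      pi univ '' pi univ C := by
    intro n
    refine ⟨fun _ => Ioo (-((n : ℝ) + 1)) ((n : ℝ) + 1), ?_, rfl⟩
    intro i _
    simp only [hC, mem_iUnion, mem_singleton_iff]
    refine ⟨-((n : ℚ) + 1), (n : ℚ) + 1, ?_, ?_⟩
    · have : (0 : ℚ) ≤ n := Nat.cast_nonneg n
      linarith
    · push_cast; rfl
  refine Measure.ext_of_generateFrom_of_iUnion (pi univ '' pi univ C)
    (fun n => Set.pi univ fun _ : Fin k => Ioo (-((n : ℝ) + 1)) ((n : ℝ) + 1))
    (generateFrom_eq_pi hgen hspan).symm hpi ?_ hmem ?_ ?_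
  · rw [eq_univ_iff_forall]
    intro y
    obtain ⟨N, hN⟩ := exists_nat_gt (∑ c, |y c|)
    rw [mem_iUnion]
    refine ⟨N, fun c _ => ?_⟩
    have h1 : |y c| ≤ ∑ c, |y c| :=
      Finset.single_le_sum (f := fun c => |y c|) (fun _ _ => abs_nonneg _) (Finset.mem_univ c)
    rw [mem_Ioo, ← abs_lt]
    linarith
  · intro n
    have hle : μ (Set.pi univ fun _ : Fin k => Ioo (-((n : ℝ) + 1)) ((n : ℝ) + 1)) ≤
        ∫⁻ y, ENNReal.ofReal (∏ c : Fin k, trap (-((n : ℝ) + 2)) ((n : ℝ) + 2) 1 (y c)) ∂μ := by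
      rw [← lintegral_indicator_one (MeasurableSet.univ_pi fun c => measurableSet_Ioo)]
      apply lintegral_mono
      intro y
      dsimp only
      by_cases hy : y ∈ Set.pi univ fun _ : Fin k => Ioo (-((n : ℝ) + 1)) ((n : ℝ) + 1)
      · rw [indicator_of_mem hy, Finset.prod_eq_one]
        · simp
        · intro c _
          have hc := hy c (mem_univ c)
          unfold trap
          rw [min_eq_left, max_eq_right zero_le_one]
          rw [Nat.cast_one, one_mul]
          exact le_min (by linarith [hc.1]) (by linarith [hc.2])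
      · rw [indicator_of_notMem hy]
        exact zero_le
    exact ne_top_of_le_ne_top (hfin _ (fun c => trap_cont _ _ _) (fun c z => trap_nonneg _ _ _ _)
      fun c => trap_compact _ _ _) hle
  · rintro s ⟨S, hS, rfl⟩
    have : ∀ c : Fin k, ∃ p : ℝ × ℝ, S c = Ioo p.1 p.2 := by
      intro c
      have hc := hS c (mem_univ c)
      simp only [hC, mem_iUnion, mem_singleton_iff] at hc
      obtain ⟨a, b, _, h⟩ := hc
      exact ⟨(a, b), h⟩
    choose p hp using this
    have hSp : S = fun c => Ioo (p c).1 (p c).2 := funext hp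
    rw [hSp]
    exact hall _ _

/-- nonnegativity of `D` -/
theorem nonneg_of_products (D : (Fin k → ℝ) → ℝ) (hD : Continuous D)
    (h : ∀ f : Fin k → ℝ → ℝ, (∀ c, Continuous (f c)) → (∀ c z, 0 ≤ f c z) →
      (∀ c, HasCompactSupport (f c)) → 0 ≤ ∫ y : Fin k → ℝ, (∏ c, f c (y c)) * D y) :
    ∀ y, 0 ≤ D y := by
  by_contra hcon
  push Not at hcon
  obtain ⟨y0, hy0⟩ := hcon
  obtain ⟨ε, hε, hball⟩ : ∃ ε > 0, ∀ y, dist y y0 < ε → D y < 0 := by
    have h1 : ∀ᶠ y in 𝓝 y0, D y < 0 := hD.continuousAt.eventually_lt continuousAt_const hy0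
    obtain ⟨ε, hε, hb⟩ := Metric.eventually_nhds_iff.1 h1
    exact ⟨ε, hε, fun y hy => hb hy⟩
  set f : Fin k → ℝ → ℝ := fun c z => trap (y0 c - ε) (y0 c + ε) 1 z with hf
  have hfc : ∀ c, Continuous (f c) := fun c => trap_cont _ _ _
  have hf0 : ∀ c z, 0 ≤ f c z := fun c z => trap_nonneg _ _ _ _
  have hfs : ∀ c, HasCompactSupport (f c) := fun c => trap_compact _ _ _
  have h1 := h f hfc hf0 hfs
  have h2 : 0 < ∫ y : Fin k → ℝ, -((∏ c, f c (y c)) * D y) := by
    apply Continuous.integral_pos_of_hasCompactSupport_nonneg_nonzero (x := y0)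
    · exact ((prod_cont hfc).mul hD).neg
    · have h6 : HasCompactSupport fun y : Fin k → ℝ => (∏ c, f c (y c)) * D y :=
        (prod_compact hfs).mul_right (f' := D)
      exact h6.neg
    · intro y
      show 0 ≤ -((∏ c, f c (y c)) * D y)
      by_cases hy : ∀ c, y c ∈ Ioo (y0 c - ε) (y0 c + ε)
      · have h3 : D y < 0 := by
          apply hball
          rw [dist_pi_lt_iff hε]
          intro c
          rw [Real.dist_eq, abs_lt]
          exact ⟨by linarith [(hy c).1], by linarith [(hy c).2]⟩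
        have h4 : 0 ≤ ∏ c, f c (y c) := Finset.prod_nonneg fun c _ => hf0 c _
        nlinarith
      · rw [not_forall] at hy
        obtain ⟨c, hc⟩ := hy
        rw [Finset.prod_eq_zero (Finset.mem_univ c) (trap_zero hc)]
        simp
    · have h5 : 0 < ∏ c, f c (y0 c) := by
        apply Finset.prod_pos
        intro c _
        simp only [hf, trap]
        apply lt_max_of_lt_right
        apply lt_min zero_lt_one
        rw [Nat.cast_one, one_mul]
        exact lt_min (by linarith) (by linarith)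
      exact (neg_pos.2 (mul_neg_of_pos_of_neg h5 hy0)).ne'
  rw [integral_neg] at h2
  linarith

/-- sum over injective assignments to `T × ℤ` -/
def equivInj (T : Finset ℝ) (k : ℕ) :
    (Σ τ : Fin k → T, {ι : Fin k → ℤ // Adm (fun c => (τ c : ℝ)) ι}) ≃
      {ι : Fin k → T × ℤ // Function.Injective ι} where
  toFun p := ⟨fun c => (p.1 c, p.2.1 c), by
    intro a b hab
    by_contra hne
    have h1 := congrArg Prod.fst hab
    have h2 := congrArg Prod.snd hab
    dsimp only at h1 h2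
    exact p.2.2 a b hne (by dsimp only; rw [h1]) h2⟩
  invFun ι := ⟨fun c => (ι.1 c).1, ⟨fun c => (ι.1 c).2, by
    intro a b hne hab h2
    apply hne
    apply ι.2
    exact Prod.ext (Subtype.ext hab) h2⟩⟩
  left_inv p := rfl
  right_inv ι := rfl

end CM

/-- from product functions to all measurable functions -/
theorem corr_of_products {Ω : Type*} [MeasurableSpace Ω] (P : Measure Ω) [IsProbabilityMeasure P]
    (L : ℤ → ℝ → Ω → ℝ) (hLm : ∀ i t, Measurable (L i t)) (k : ℕ) (t : Fin k → ℝ)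
    (D : (Fin k → ℝ) → ℝ) (hD : Continuous D)
    (h : ∀ f : Fin k → ℝ → ℝ, (∀ c, Continuous (f c)) → (∀ c z, 0 ≤ f c z) →
      (∀ c, HasCompactSupport (f c)) →
      0 ≤ ∫ y : Fin k → ℝ, (∏ c, f c (y c)) * D y ∧
      ∫⁻ ω, ∑' ι : {ι : Fin k → ℤ // Adm t ι}, ENNReal.ofReal (∏ c, f c (L (ι.1 c) (t c) ω)) ∂P =
        ENNReal.ofReal (∫ y : Fin k → ℝ, (∏ c, f c (y c)) * D y)) :
    (∀ y, 0 ≤ D y) ∧ ∀ F : (Fin k → ℝ) → ℝ≥0∞, Measurable F →
      ∫⁻ ω, ∑' ι : {ι : Fin k → ℤ // Adm t ι}, F (fun c => L (ι.1 c) (t c) ω) ∂P =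
        ∫⁻ y, F y * ENNReal.ofReal (D y) := by
  have hD0 : ∀ y, 0 ≤ D y := CM.nonneg_of_products D hD fun f h1 h2 h3 => (h f h1 h2 h3).1
  refine ⟨hD0, ?_⟩
  have hmeas : ∀ ι : {ι : Fin k → ℤ // Adm t ι},
      Measurable (fun ω => fun c => L (ι.1 c) (t c) ω : Ω → Fin k → ℝ) :=
    fun ι => measurable_pi_lambda _ fun c => hLm _ _
  set μ : Measure (Fin k → ℝ) := Measure.sum fun ι : {ι : Fin k → ℤ // Adm t ι} =>
    P.map (fun ω c => L (ι.1 c) (t c) ω) with hμ
  set ν : Measure (Fin k → ℝ) := volume.withDensity fun y => ENNReal.ofReal (D y) with hν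
  have hμF : ∀ F : (Fin k → ℝ) → ℝ≥0∞, Measurable F →
      ∫⁻ y, F y ∂μ = ∫⁻ ω, ∑' ι : {ι : Fin k → ℤ // Adm t ι}, F (fun c => L (ι.1 c) (t c) ω) ∂P := by
    intro F hF
    have h1 : ∫⁻ ω, ∑' ι : {ι : Fin k → ℤ // Adm t ι}, F (fun c => L (ι.1 c) (t c) ω) ∂P =
        ∑' ι : {ι : Fin k → ℤ // Adm t ι}, ∫⁻ ω, F (fun c => L (ι.1 c) (t c) ω) ∂P :=
      lintegral_tsum fun ι => (hF.comp (hmeas ι)).aemeasurable
    rw [hμ, lintegral_sum_measure, h1]
    congr 1
    funext ι
    exact lintegral_map hF (hmeas ι)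
  have hνF : ∀ F : (Fin k → ℝ) → ℝ≥0∞, Measurable F →
      ∫⁻ y, F y ∂ν = ∫⁻ y, F y * ENNReal.ofReal (D y) := by
    intro F hF
    rw [hν, lintegral_withDensity_eq_lintegral_mul _ hD.measurable.ennreal_ofReal hF]
    congr 1
    funext y
    exact mul_comm _ _
  have hprodμ : ∀ f : Fin k → ℝ → ℝ, (∀ c, Continuous (f c)) → (∀ c z, 0 ≤ f c z) →
      (∀ c, HasCompactSupport (f c)) → ∫⁻ y, ENNReal.ofReal (∏ c, f c (y c)) ∂μ =
        ENNReal.ofReal (∫ y : Fin k → ℝ, (∏ c, f c (y c)) * D y) := by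
    intro f h1 h2 h3
    rw [hμF _ (CM.prod_cont h1).measurable.ennreal_ofReal]
    exact (h f h1 h2 h3).2
  have hμν : μ = ν := by
    apply CM.ext_products
    · intro f h1 h2 h3
      rw [hprodμ f h1 h2 h3]
      exact ENNReal.ofReal_ne_top
    · intro f h1 h2 h3
      rw [hprodμ f h1 h2 h3, hνF _ (CM.prod_cont h1).measurable.ennreal_ofReal]
      have hint : Integrable (fun y : Fin k → ℝ => (∏ c, f c (y c)) * D y) :=
        ((CM.prod_cont h1).mul hD).integrable_of_hasCompactSupport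
          ((CM.prod_compact h3).mul_right (f' := D))
      rw [ofReal_integral_eq_lintegral_ofReal hint (ae_of_all _ fun y =>
        mul_nonneg (Finset.prod_nonneg fun c _ => h2 c _) (hD0 y))]
      congr 1
      funext y
      exact ENNReal.ofReal_mul (Finset.prod_nonneg fun c _ => h2 c _)
  intro F hF
  rw [← hμF F hF, hμν, hνF F hF]

/-- final assembly over finite sets of times -/
theorem ensemble_of_corr {Ω : Type} [MeasurableSpace Ω] (P : Measure Ω) [IsProbabilityMeasure P]
    (L : ℤ → ℝ → Ω → ℝ) (hLc : ∀ i ω, Continuous fun t => L i t ω) (hLm : ∀ i t, Measurable (L i t))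
    (hK : ∀ σ x τ y, pearceyK σ x τ y = ((Kr σ x τ y : ℝ) : ℂ))
    (h : ∀ (k : ℕ) (t : Fin k → ℝ) (F : (Fin k → ℝ) → ℝ≥0∞), Measurable F →
      ∫⁻ ω, ∑' ι : {ι : Fin k → ℤ // Adm t ι}, F (fun c => L (ι.1 c) (t c) ω) ∂P =
        ∫⁻ y, F y * ENNReal.ofReal (Matrix.det (Matrix.of fun c d : Fin k => Kr (t c) (y c) (t d) (y d)))) :
    IsPearceyLineEnsemble P L := by
  refine ⟨hLc, hLm, ?_⟩
  intro T k F hF
  have hdet : ∀ (τ : Fin k → T) (x : Fin k → ℝ), (Matrix.det (Matrix.of fun c d : Fin k =>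
      pearceyK (τ c) (x c) (τ d) (x d))).re =
      Matrix.det (Matrix.of fun c d : Fin k => Kr (τ c) (x c) (τ d) (x d)) := by
    intro τ x
    have h1 : (Matrix.of fun c d : Fin k => pearceyK (τ c) (x c) (τ d) (x d)) =
        (Complex.ofRealHom).mapMatrix
          (Matrix.of fun c d : Fin k => Kr (τ c) (x c) (τ d) (x d)) := by
      ext c d
      simp [hK]
    rw [h1, ← RingHom.map_det]
    simp
  have hFτ : ∀ τ : Fin k → T, Measurable fun y : Fin k → ℝ => F (fun c => ((τ c : ℝ), y c)) := by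
    intro τ
    apply hF.comp
    exact measurable_pi_lambda _ fun c => measurable_const.prodMk (measurable_pi_apply c)
  have h1 : ∀ ω, ∑' ι : {ι : Fin k → T × ℤ // Function.Injective ι},
        F (fun c => (((ι.1 c).1 : ℝ), L (ι.1 c).2 ((ι.1 c).1 : ℝ) ω)) =
      ∑ τ : Fin k → T, ∑' ι : {ι : Fin k → ℤ // Adm (fun c => (τ c : ℝ)) ι},
        F (fun c => ((τ c : ℝ), L (ι.1 c) (τ c) ω)) := by
    intro ω
    rw [← (CM.equivInj T k).tsum_eq, ENNReal.tsum_sigma', tsum_fintype]
    rfl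
  simp_rw [h1]
  rw [lintegral_finsetSum']
  · refine Finset.sum_congr rfl fun τ _ => ?_
    simp_rw [hdet]
    exact h k (fun c => (τ c : ℝ)) (fun y => F (fun c => ((τ c : ℝ), y c))) (hFτ τ)
  · intro τ _
    apply Measurable.aemeasurable
    apply Measurable.tsum
    intro ι
    exact (hFτ τ).comp (measurable_pi_lambda _ fun c => hLm _ _)

end Pool.Agent.H.MP_5ad92a_pr
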