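import Mathlib

/-!
# Pearcey line ensemble: definitions

`gk` heat kernel, `psi`, `phi` the two biorthogonal families of the finite system
(nonintersecting Brownian motions started at `0` with distinct drifts `a k`, absolute time `s`),
`Kfin` its kernel, `dens` the joint density of the configurations at the times `s 0 < s 1 < ...`;
`aN`, `SN` the choice of drifts and of the base time, `Kn` the rescaled kernel;
`Pl`, `Ql`, `Al`, `Kl` the limit objects; `pearceyK` the kernel of the problem.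
-/

set_option autoImplicit false

noncomputable section

open MeasureTheory Filter Topology Set

namespace Pool.Agent.H.MP_5ad92a_pr

/-- Gaussian transition density. -/
def gk (h x y : ℝ) : ℝ :=
  (Real.sqrt (2 * Real.pi * h))⁻¹ * Real.exp (-(x - y) ^ 2 / (2 * h))

/-- Space-time harmonic exponential at absolute time `s`. -/
def psi {n : ℕ} (a : Fin n → ℝ) (s : ℝ) (k : Fin n) (x : ℝ) : ℝ :=
  Real.exp (a k * x - (a k) ^ 2 * s / 2)

/-- Lagrange basis polynomial at the nodes `a`, at a complex argument. -/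
def lag {n : ℕ} (a : Fin n → ℝ) (k : Fin n) (w : ℂ) : ℂ :=
  ∏ j ∈ Finset.univ.erase k, ((w - (a j : ℂ)) / ((a k : ℂ) - (a j : ℂ)))

/-- The dual family: `phi_k = ℓ_k(-∂) g_s`, through its Fourier integral. -/
def phi {n : ℕ} (a : Fin n → ℝ) (s : ℝ) (k : Fin n) (y : ℝ) : ℝ :=
  ((1 / (2 * Real.pi) : ℂ) * ∫ u : ℝ, lag a k ((u : ℂ) * Complex.I) *
    Complex.exp (-((s : ℂ) * (u : ℂ) ^ 2) / 2 - (y : ℂ) * ((u : ℂ) * Complex.I))).re

/-- Kernel of the finite system (without the Gaussian term). -/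
def Kfin {n : ℕ} (a : Fin n → ℝ) (s x s' y : ℝ) : ℝ := ∑ k, psi a s k x * phi a s' k y

/-- Joint density of the (unordered) configurations at the times `s 0 < ... < s m`. -/
def dens {n m : ℕ} (a : Fin n → ℝ) (s : Fin (m + 1) → ℝ) (x : Fin (m + 1) → Fin n → ℝ) : ℝ :=
  ((n.factorial : ℝ) ^ (m + 1))⁻¹ *
    (Matrix.det (Matrix.of fun i j : Fin n => phi a (s 0) i (x 0 j))) *
    (∏ k : Fin m, Matrix.det (Matrix.of fun i j : Fin n =>
      gk (s k.succ - s k.castSucc) (x k.castSucc i) (x k.succ j))) *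
    (Matrix.det (Matrix.of fun i j : Fin n => psi a (s (Fin.last m)) i (x (Fin.last m) j)))

/-! ### the choice of parameters -/

def epsN (N : ℕ) : ℝ := (Real.sqrt (2 * N))⁻¹

/-- `betaN N i = 1 / b_i ^ 2`. -/
def betaN (N : ℕ) (i : Fin N) : ℝ := epsN N * (1 - (i : ℝ) / (N : ℝ) ^ 2)

def bN (N : ℕ) (i : Fin N) : ℝ := (Real.sqrt (betaN N i))⁻¹

/-- The `2N` drifts `b_i`, `-b_i`. -/
def aN (N : ℕ) : Fin (N + N) → ℝ := Fin.append (bN N) (fun i => -bN N i)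

/-- Base time. -/
def SN (N : ℕ) : ℝ := 2 * ∑ i : Fin N, betaN N i

/-- Rescaled (= time shifted) finite kernel. -/
def Kn (N : ℕ) (σ x τ y : ℝ) : ℝ := Kfin (aN N) (SN N + σ) x (SN N + τ) y

/-- `F_N(w) = exp(S w^2/2) ∏ (1 - β_i w^2)`; tends to `exp(-w^4/4)`. -/
def FN (N : ℕ) (w : ℂ) : ℂ :=
  Complex.exp ((SN N : ℂ) * w ^ 2 / 2) * ∏ i : Fin N, (1 - (betaN N i : ℂ) * w ^ 2)

def Pn (N : ℕ) (τ y : ℝ) : ℝ :=
  ((1 / (2 * Real.pi) : ℂ) * ∫ u : ℝ, FN N ((u : ℂ) * Complex.I) *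
    Complex.exp (-((τ : ℂ) * (u : ℂ) ^ 2) / 2 - (y : ℂ) * ((u : ℂ) * Complex.I))).re

def Qn (N : ℕ) (σ x : ℝ) : ℝ :=
  ∑ i : Fin N, (bN N i / 2) * Real.exp (bN N i * x - (bN N i) ^ 2 * (SN N + σ) / 2) /
    ∏ j ∈ Finset.univ.erase i, (1 - betaN N j / betaN N i)

/-! ### limit objects -/

/-- `e^{iα}` -/
def cis (α : ℝ) : ℂ := Complex.exp ((α : ℂ) * Complex.I)

/-- Integral of `f` along the ray `{r d : r > 0}`, outward. -/
def ray (f : ℂ → ℂ) (d : ℂ) : ℂ := ∫ r in Set.Ioi (0 : ℝ), f ((r : ℂ) * d) * d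

/-- the integrand `exp(t^4/4 - σ t^2/2 + x t)` -/
def qint (σ x : ℝ) (t : ℂ) : ℂ :=
  Complex.exp (t ^ 4 / 4 - (σ : ℂ) * t ^ 2 / 2 + (x : ℂ) * t)

def Ql (σ x : ℝ) : ℝ := (ray (qint σ x) (cis (Real.pi / 4))).im / Real.pi

def Pl (τ y : ℝ) : ℝ :=
  (1 / (2 * Real.pi)) * ∫ u : ℝ, Real.exp (-u ^ 4 / 4 - τ * u ^ 2 / 2) * Real.cos (y * u)

def Al (σ x τ y : ℝ) : ℝ := ∫ l in Set.Ioi (0 : ℝ), Ql σ (x - l) * Pl τ (y - l)

def Kl (σ x τ y : ℝ) : ℝ := Al σ x τ y + Al σ (-x) τ (-y)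

/-- The real form of the extended Pearcey kernel. -/
def Kr (σ x τ y : ℝ) : ℝ := Kl σ x τ y - if σ < τ then gk (τ - σ) x y else 0

/-! ### the kernel of the problem -/

/-- Inner integral over `s = i u`, `u ∈ ℝ` (upwards). -/
def pearceyInner (σ x τ y : ℝ) (t : ℂ) : ℂ :=
  ∫ u : ℝ, Complex.exp (-((u : ℂ) * Complex.I) ^ 4 / 4 + (τ : ℂ) * ((u : ℂ) * Complex.I) ^ 2 / 2
      - (y : ℂ) * ((u : ℂ) * Complex.I) + t ^ 4 / 4 - (σ : ℂ) * t ^ 2 / 2 + (x : ℂ) * t)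
    / ((u : ℂ) * Complex.I - t) * Complex.I

/-- The extended Pearcey kernel of the problem: the `t`-contour consists of the rays from
`±∞ e^{iπ/4}` to `0` and from `0` to `±∞ e^{-iπ/4}`. -/
def pearceyK (σ x τ y : ℝ) : ℂ :=
  -(1 / (4 * (Real.pi : ℂ) ^ 2)) *
    (-(ray (pearceyInner σ x τ y) (cis (Real.pi / 4)))
      - ray (pearceyInner σ x τ y) (-cis (Real.pi / 4))
      + ray (pearceyInner σ x τ y) (cis (-(Real.pi / 4)))
      + ray (pearceyInner σ x τ y) (-cis (-(Real.pi / 4))))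
  - ((if σ < τ then
        (1 / Real.sqrt (2 * Real.pi * (τ - σ))) * Real.exp (-(x - y) ^ 2 / (2 * (τ - σ)))
      else 0 : ℝ) : ℂ)

/-- the exponent `3/8 x^{4/3} + σ x^{2/3}/4` (for `x > 0`) -/
def gx (σ x : ℝ) : ℝ := 3 / 8 * x ^ (4 / 3 : ℝ) + σ * x ^ (2 / 3 : ℝ) / 4

/-! ### step functions and linear statistics -/

/-- Step function: `0` on `(-∞,a]`, `1` on `[b,∞)`, linear in between. -/
def stp (a b x : ℝ) : ℝ := max 0 (min 1 ((x - a) / (b - a)))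

/-- Admissible assignments of marks to labels: marks at equal times get distinct labels. -/
def Adm {T κ : Type*} {k : ℕ} (q : Fin k → T) (ι : Fin k → κ) : Prop :=
  ∀ a b, a ≠ b → q a = q b → ι a ≠ ι b

instance {T κ : Type*} [DecidableEq T] [DecidableEq κ] {k : ℕ} (q : Fin k → T) :
    DecidablePred (Adm (κ := κ) q) := fun _ => by unfold Adm; infer_instance

end Pool.Agent.H.MP_5ad92a_pr
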