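import Pool.Agent.H.MP_5ad92a_pr.Defs

/-!
# Definitions for the finite system: abstract path densities, path integrals, chain integrals
-/

set_option autoImplicit false

noncomputable section

open MeasureTheory Filter Topology Set

namespace Pool.Agent.H.MP_5ad92a_pr

/-- Abstract product-of-determinants density. -/
def densA {n m : ℕ} (α : Fin n → ℝ → ℝ) (q : Fin m → ℝ → ℝ → ℝ) (β : Fin n → ℝ → ℝ)
    (x : Fin (m + 1) → Fin n → ℝ) : ℝ :=
  ((n.factorial : ℝ) ^ (m + 1))⁻¹ *
    (Matrix.det (Matrix.of fun i j : Fin n => α i (x 0 j))) *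
    (∏ k : Fin m, Matrix.det (Matrix.of fun i j : Fin n =>
      q k (x k.castSucc i) (x k.succ j))) *
    (Matrix.det (Matrix.of fun i j : Fin n => β i (x (Fin.last m) j)))

/-- One-particle path integral with weights `u l` at the times `l`. -/
def pathInt {m : ℕ} (q : Fin m → ℝ → ℝ → ℝ) (α : ℝ → ℝ) (u : Fin (m + 1) → ℝ → ℝ)
    (β : ℝ → ℝ) : ℝ :=
  ∫ z : Fin (m + 1) → ℝ, α (z 0) * (∏ k : Fin m, q k (z k.castSucc) (z k.succ)) *
    (∏ l, u l (z l)) * β (z (Fin.last m))

/-- Chain integral. Marks `0,...,k-1`; `sel a` says whether the particle carries the mark `a`;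
`v`, `r` are the state of the particle: if no mark is selected the result is `v`; if the first
selected mark is `a`, the result is `∫ h a z * r a z * (result with the state (ψ a z, P a z))`. -/
def chainJ {n : ℕ} {Z : Type*} [MeasurableSpace Z] (ν : Measure Z) :
    (k : ℕ) → (sel : Fin k → Bool) → (h : Fin k → Z → ℝ) → (ψ : Fin k → Z → Fin n → ℝ) →
    (P : Fin k → Z → Fin k → Z → ℝ) → (v : Fin n → ℝ) → (r : Fin k → Z → ℝ) → Fin n → ℝ
  | 0, _, _, _, _, v, _ => v
  | k + 1, sel, h, ψ, P, v, r =>
    if sel 0 then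
      fun i => ∫ z, h 0 z * r 0 z *
        chainJ ν k (fun a => sel a.succ) (fun a => h a.succ) (fun a => ψ a.succ)
          (fun a z' b => P a.succ z' b.succ) (ψ 0 z) (fun a => P 0 z a.succ) i ∂ν
    else
      chainJ ν k (fun a => sel a.succ) (fun a => h a.succ) (fun a => ψ a.succ)
        (fun a z' b => P a.succ z' b.succ) v (fun a => r a.succ)

/-- The two-time Gaussian term of the finite system with absolute times. -/
def gP (s t x y : ℝ) : ℝ := if s < t then gk (t - s) x y else 0

end Pool.Agent.H.MP_5ad92a_pr
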