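import Pool.Agent.H.MP_5ad92a_pr.Defs

/-!
# Definitions for the limit: approximating systems, compactified label space, final notion
-/

set_option autoImplicit false

noncomputable section

open MeasureTheory Filter Topology Set
open scoped ENNReal

namespace Pool.Agent.H.MP_5ad92a_pr

/-- The quadruple-moment and correlation package for the finite systems. -/
structure Approx where
  n : ℕ → ℕ
  Ω : ℕ → Type
  [mΩ : ∀ l, MeasurableSpace (Ω l)]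
  μ : ∀ l, Measure (Ω l)
  [prob : ∀ l, IsProbabilityMeasure (μ l)]
  /-- position at the rational time `q` of the particle `i` of the system `l` (unordered) -/
  X : ∀ l, ℚ → Fin (n l) → Ω l → ℝ
  measX : ∀ l q i, Measurable (X l q i)
  corr : ∀ (k : ℕ) (q : Fin k → ℚ) (f : Fin k → ℝ → ℝ), (∀ c, Continuous (f c)) →
    (∀ c, HasCompactSupport (f c)) →
    Tendsto (fun l => ∫ ω, ∑ ι : Fin k → Fin (n l) with Adm q ι, ∏ c, f c (X l (q c) (ι c) ω) ∂(μ l))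
      atTop (𝓝 (∫ y : Fin k → ℝ, (∏ c, f c (y c)) *
        Matrix.det (Matrix.of fun c d : Fin k => Kr (q c) (y c) (q d) (y d))))
  mom : ∀ (r : ℕ) (R M : ℝ), ∃ C : ℝ, ∀ q : ℚ, |(q : ℝ)| ≤ M → ∀ᶠ l in atTop,
    ∫⁻ ω, (((Finset.univ.filter fun i => |X l q i ω| ≤ R).card : ℝ≥0∞)) ^ r ∂(μ l) ≤
      ENNReal.ofReal C
  inc : ∀ (a b M : ℝ), a < b → ∃ C : ℝ, ∀ q q' : ℚ, |(q : ℝ)| ≤ M → |(q' : ℝ)| ≤ M →
    ∀ᶠ l in atTop, ∫⁻ ω, ENNReal.ofReal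
      ((∑ i, (stp a b (X l q i ω) - stp a b (X l q' i ω))) ^ 4) ∂(μ l) ≤
        ENNReal.ofReal (C * ((q : ℝ) - q') ^ 2)
  incR : ∀ M : ℝ, ∃ C R0 : ℝ, ∀ R ≥ R0, ∀ q q' : ℚ, |(q : ℝ)| ≤ M → |(q' : ℝ)| ≤ M →
    |(q : ℝ) - q'| ≤ R ^ (-(2 / 3) : ℝ) →
    ∀ᶠ l in atTop,
      ∫⁻ ω, ENNReal.ofReal ((∑ i, (stp R (2 * R) (X l q i ω) - stp R (2 * R) (X l q' i ω))) ^ 4)
        ∂(μ l) ≤ ENNReal.ofReal (C * R ^ (4 / 3 : ℝ) * ((q : ℝ) - q') ^ 2) ∧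
      ∫⁻ ω, ENNReal.ofReal
        ((∑ i, (stp (-(2 * R)) (-R) (X l q i ω) - stp (-(2 * R)) (-R) (X l q' i ω))) ^ 4)
        ∂(μ l) ≤ ENNReal.ofReal (C * R ^ (4 / 3 : ℝ) * ((q : ℝ) - q') ^ 2)

attribute [instance] Approx.mΩ Approx.prob

/-- Space of labelled, compactified configurations at rational times. -/
abbrev EE : Type := ℤ → ℚ → EReal

/-- Clamp to `[-R,R]`, a continuous map `EReal → ℝ` (for `R ≥ 0`). -/
def clampE (R : ℝ) (x : EReal) : ℝ := (max (((-R : ℝ)) : EReal) (min x ((R : ℝ) : EReal))).toReal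

/-- Extension to `EReal` of a function which is constant on `(-∞,-R]` and on `[R,∞)`. -/
def extE (f : ℝ → ℝ) (R : ℝ) (x : EReal) : ℝ := f (clampE R x)

/-- Truncated sum over labels in `[-m,m]` for the marks `f c` at the times `q c`. -/
def markS {k : ℕ} (m : ℕ) (q : Fin k → ℚ) (f : Fin k → ℝ → ℝ) (R : ℝ) (x : EE) : ℝ :=
  ∑ ι ∈ (Fintype.piFinset fun _ : Fin k => Finset.Icc (-(m : ℤ)) m).filter (fun ι => Adm q ι),
    ∏ c, extE (f c) R (x (ι c) (q c))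

/-- Truncated increment of a linear statistic. -/
def incS (m : ℕ) (f : ℝ → ℝ) (R : ℝ) (q q' : ℚ) (x : EE) : ℝ :=
  ∑ i ∈ Finset.Icc (-(m : ℤ)) m, (extE f R (x i q) - extE f R (x i q'))

/-- At time `q` all labels above `m` are above `R` and all labels below `-m` are below `-R`. -/
def TailOK (R : ℝ) (m : ℕ) (q : ℚ) (x : EE) : Prop :=
  ((R : ℝ) : EReal) < x ((m : ℤ) + 1) q ∧ x (-(m : ℤ) - 1) q < ((-R : ℝ) : EReal)

/-- What is used about the limit law. -/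
structure LimSpec (P : Measure EE) : Prop where
  prob : IsProbabilityMeasure P
  mono : ∀ᵐ x ∂P, ∀ q : ℚ, Monotone (fun i : ℤ => x i q)
  anch : ∀ᵐ x ∂P, (∀ i : ℤ, i < 0 → x i 0 ≤ 0) ∧ (∀ i : ℤ, 0 ≤ i → 0 ≤ x i 0)
  tail : ∀ R M ε : ℝ, 0 < R → 0 < ε → ∃ m0 : ℕ, ∀ m ≥ m0, ∀ q : ℚ, |(q : ℝ)| ≤ M →
    P {x | ¬ TailOK R m q x} ≤ ENNReal.ofReal ε
  corr : ∀ (k : ℕ) (f : Fin k → ℝ → ℝ) (R : ℝ), 0 < R → (∀ c, Continuous (f c)) →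
    (∀ c z, 0 ≤ f c z) → (∀ c z, R ≤ |z| → f c z = 0) →
    ∀ M ε : ℝ, 0 < ε → ∃ m0 : ℕ, ∀ m ≥ m0, ∀ q : Fin k → ℚ, (∀ c, |(q c : ℝ)| ≤ M) →
      |(∫ x, markS m q f R x ∂P) - ∫ y : Fin k → ℝ, (∏ c, f c (y c)) *
        Matrix.det (Matrix.of fun c d : Fin k => Kr (q c) (y c) (q d) (y d))| ≤ ε
  inc : ∀ (a b M : ℝ), a < b → ∃ C : ℝ, ∀ q q' : ℚ, |(q : ℝ)| ≤ M → |(q' : ℝ)| ≤ M →
    ∀ R : ℝ, |a| ≤ R → |b| ≤ R → ∀ m : ℕ,
    ∫⁻ x in {x | TailOK R m q x ∧ TailOK R m q' x}, ENNReal.ofReal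
      ((incS m (stp a b) R q q' x) ^ 4) ∂P ≤ ENNReal.ofReal (C * ((q : ℝ) - q') ^ 2)
  incR : ∀ M : ℝ, ∃ C R0 : ℝ, ∀ R ≥ R0, ∀ q q' : ℚ, |(q : ℝ)| ≤ M → |(q' : ℝ)| ≤ M →
    |(q : ℝ) - q'| ≤ R ^ (-(2 / 3) : ℝ) → ∀ m : ℕ,
    ∫⁻ x in {x | TailOK (2 * R) m q x ∧ TailOK (2 * R) m q' x}, ENNReal.ofReal
      ((incS m (stp R (2 * R)) (2 * R) q q' x) ^ 4) ∂P ≤
        ENNReal.ofReal (C * R ^ (4 / 3 : ℝ) * ((q : ℝ) - q') ^ 2) ∧
    ∫⁻ x in {x | TailOK (2 * R) m q x ∧ TailOK (2 * R) m q' x}, ENNReal.ofReal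
      ((incS m (stp (-(2 * R)) (-R)) (2 * R) q q' x) ^ 4) ∂P ≤
        ENNReal.ofReal (C * R ^ (4 / 3 : ℝ) * ((q : ℝ) - q') ^ 2)

/-- `q` is a dyadic rational. -/
def IsDy (q : ℚ) : Prop := ∃ (j : ℕ) (k : ℤ), q = k / 2 ^ j

/-- The notion of the problem: a family of continuous random curves whose configurations at any
finite set `T` of times have the correlation functions `det [K]` with respect to (counting measure
on `T`) times (Lebesgue measure). -/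
structure IsPearceyLineEnsemble {Ω : Type} [MeasurableSpace Ω] (P : Measure Ω)
    (L : ℤ → ℝ → Ω → ℝ) : Prop where
  cont : ∀ i ω, Continuous fun t => L i t ω
  meas : ∀ i t, Measurable (L i t)
  corr : ∀ (T : Finset ℝ) (k : ℕ) (F : (Fin k → ℝ × ℝ) → ℝ≥0∞), Measurable F →
    ∫⁻ ω, ∑' ι : {ι : Fin k → T × ℤ // Function.Injective ι},
        F (fun c => (((ι.1 c).1 : ℝ), L (ι.1 c).2 ((ι.1 c).1 : ℝ) ω)) ∂P =
      ∑ τ : Fin k → T, ∫⁻ x : Fin k → ℝ, F (fun c => ((τ c : ℝ), x c)) *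
        ENNReal.ofReal (Matrix.det (Matrix.of fun c d : Fin k =>
          pearceyK (τ c) (x c) (τ d) (x d))).re

end Pool.Agent.H.MP_5ad92a_pr
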