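import Pool.Agent.H.MP_5ad92a_pr.DefsP

/-!
# Labels: EReal tools and deterministic facts about the labelling
-/

set_option autoImplicit false

noncomputable section

open MeasureTheory Filter Topology Set
open scoped ENNReal

namespace Pool.Agent.H.MP_5ad92a_pr

/-! P0: EReal tools -/

theorem clampE_bounds {R : ℝ} (x : EReal) :
    max (((-R : ℝ)) : EReal) (min x ((R : ℝ) : EReal)) ≠ ⊥ ∧
    max (((-R : ℝ)) : EReal) (min x ((R : ℝ) : EReal)) ≠ ⊤ := by
  constructor
  · have h : ((-R : ℝ) : EReal) ≤ max (((-R : ℝ)) : EReal) (min x ((R : ℝ) : EReal)) :=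
      le_max_left _ _
    have h2 : (⊥ : EReal) < ((-R : ℝ) : EReal) := EReal.bot_lt_coe _
    exact (lt_of_lt_of_le h2 h).ne'
  · have h : max (((-R : ℝ)) : EReal) (min x ((R : ℝ) : EReal)) < ⊤ := by
      apply max_lt
      · exact EReal.coe_lt_top _
      · exact lt_of_le_of_lt (min_le_right _ _) (EReal.coe_lt_top _)
    exact h.ne

theorem continuous_clampE (R : ℝ) : Continuous (clampE R) := by
  have h1 : Continuous fun x : EReal => max (((-R : ℝ)) : EReal) (min x ((R : ℝ) : EReal)) :=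
    continuous_const.max (continuous_id.min continuous_const)
  have h2 : ContinuousOn EReal.toReal ({⊥, ⊤}ᶜ : Set EReal) := EReal.continuousOn_toReal
  have h3 := h2.comp_continuous h1 (fun x => by
    have := clampE_bounds (R := R) x
    simp only [mem_compl_iff, mem_insert_iff, mem_singleton_iff, not_or]
    exact this)
  exact h3

theorem continuous_extE {f : ℝ → ℝ} (hf : Continuous f) (R : ℝ) : Continuous (extE f R) :=
  hf.comp (continuous_clampE R)

theorem clampE_coe (R z : ℝ) : clampE R (z : EReal) = max (-R) (min z R) := by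
  unfold clampE
  have h1 : min (z : EReal) ((R : ℝ) : EReal) = ((min z R : ℝ) : EReal) :=
    (EReal.coe_strictMono.monotone.map_min).symm
  have h2 : max ((-R : ℝ) : EReal) ((min z R : ℝ) : EReal) = ((max (-R) (min z R) : ℝ) : EReal) :=
    (EReal.coe_strictMono.monotone.map_max).symm
  rw [h1, h2, EReal.toReal_coe]

theorem extE_coe {f : ℝ → ℝ} {R : ℝ} (hR : 0 ≤ R) (hl : ∀ z, z ≤ -R → f z = f (-R))
    (hr : ∀ z, R ≤ z → f z = f R) (z : ℝ) : extE f R (z : EReal) = f z := by
  unfold extE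
  rw [clampE_coe]
  rcases le_total z (-R) with h | h
  · rw [min_eq_left (by linarith), max_eq_left h, hl z h]
  · rcases le_total z R with h' | h'
    · rw [min_eq_left h', max_eq_right h]
    · rw [min_eq_right h', max_eq_right (by linarith), hr z h']

theorem extE_of_le {f : ℝ → ℝ} {R : ℝ} (hR : 0 ≤ R) {z : EReal} (hz : z ≤ ((-R : ℝ) : EReal)) :
    extE f R z = f (-R) := by
  unfold extE clampE
  have h1 : min z ((R : ℝ) : EReal) ≤ ((-R : ℝ) : EReal) := (min_le_left _ _).trans hz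
  rw [max_eq_left h1, EReal.toReal_coe]

theorem extE_of_ge {f : ℝ → ℝ} {R : ℝ} (hR : 0 ≤ R) {z : EReal} (hz : ((R : ℝ) : EReal) ≤ z) :
    extE f R z = f R := by
  unfold extE clampE
  rw [min_eq_right hz, max_eq_right, EReal.toReal_coe]
  exact_mod_cast (by linarith : -R ≤ R)

theorem extE_bot {f : ℝ → ℝ} {R : ℝ} (hR : 0 ≤ R) : extE f R ⊥ = f (-R) :=
  extE_of_le hR bot_le

theorem extE_top {f : ℝ → ℝ} {R : ℝ} (hR : 0 ≤ R) : extE f R ⊤ = f R :=
  extE_of_ge hR le_top

/-! P1: labels -/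

def j0 {n : ℕ} (y : ℚ → Fin n → ℝ) : ℕ := (Finset.univ.filter fun j => y 0 j < 0).card
def lab {n : ℕ} (y : ℚ → Fin n → ℝ) : EE := fun i q =>
  sInf {x : EReal | i + (j0 y : ℤ) + 1 ≤
    ((Finset.univ.filter fun j => ((y q j : ℝ) : EReal) ≤ x).card : ℤ)}

/-- the permutation which sorts the particles -/
def srt {n : ℕ} (y : ℚ → Fin n → ℝ) (q : ℚ) : Equiv.Perm (Fin n) := Tuple.sort (y q)

theorem srt_mono {n : ℕ} (y : ℚ → Fin n → ℝ) (q : ℚ) : Monotone fun l => y q (srt y q l) :=
  Tuple.monotone_sort (y q)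

/-- the `l`-th smallest particle is `≤ x` iff there are at least `l + 1` particles `≤ x` -/
theorem srt_le_iff {n : ℕ} (y : ℚ → Fin n → ℝ) (q : ℚ) (l : Fin n) (x : EReal) :
    ((y q (srt y q l) : ℝ) : EReal) ≤ x ↔
      (l : ℕ) + 1 ≤ (Finset.univ.filter fun j => ((y q j : ℝ) : EReal) ≤ x).card := by
  constructor
  · intro h
    have hsub : (Finset.Iic l).map (srt y q).toEmbedding ⊆
        Finset.univ.filter fun j => ((y q j : ℝ) : EReal) ≤ x := by
      intro j hj
      simp only [Finset.mem_map, Finset.mem_Iic, Equiv.coe_toEmbedding] at hj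
      obtain ⟨l', hl', rfl⟩ := hj
      simp only [Finset.mem_filter, Finset.mem_univ, true_and]
      refine le_trans ?_ h
      exact_mod_cast srt_mono y q hl'
    have := Finset.card_le_card hsub
    rw [Finset.card_map, Fin.card_Iic] at this
    exact this
  · intro h
    by_contra hcon
    push Not at hcon
    have hsub : (Finset.univ.filter fun j => ((y q j : ℝ) : EReal) ≤ x) ⊆
        (Finset.Iio l).map (srt y q).toEmbedding := by
      intro j hj
      simp only [Finset.mem_filter, Finset.mem_univ, true_and] at hj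
      simp only [Finset.mem_map, Finset.mem_Iio, Equiv.coe_toEmbedding]
      refine ⟨(srt y q).symm j, ?_, by simp⟩
      by_contra hl
      push Not at hl
      have h1 := srt_mono y q hl
      simp only [Equiv.apply_symm_apply] at h1
      have h2 : ((y q (srt y q l) : ℝ) : EReal) ≤ ((y q j : ℝ) : EReal) := by exact_mod_cast h1
      exact absurd (h2.trans hj) (not_le.mpr hcon)
    have := Finset.card_le_card hsub
    rw [Finset.card_map, Fin.card_Iio] at this
    omega

theorem srt_lt_iff {n : ℕ} (y : ℚ → Fin n → ℝ) (q : ℚ) (l : Fin n) (x : ℝ) :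
    y q (srt y q l) < x ↔ (l : ℕ) + 1 ≤ (Finset.univ.filter fun j => y q j < x).card := by
  constructor
  · intro h
    have hsub : (Finset.Iic l).map (srt y q).toEmbedding ⊆
        Finset.univ.filter fun j => y q j < x := by
      intro j hj
      simp only [Finset.mem_map, Finset.mem_Iic, Equiv.coe_toEmbedding] at hj
      obtain ⟨l', hl', rfl⟩ := hj
      simp only [Finset.mem_filter, Finset.mem_univ, true_and]
      exact lt_of_le_of_lt (srt_mono y q hl') h
    have := Finset.card_le_card hsub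
    rw [Finset.card_map, Fin.card_Iic] at this
    exact this
  · intro h
    by_contra hcon
    push Not at hcon
    have hsub : (Finset.univ.filter fun j => y q j < x) ⊆
        (Finset.Iio l).map (srt y q).toEmbedding := by
      intro j hj
      simp only [Finset.mem_filter, Finset.mem_univ, true_and] at hj
      simp only [Finset.mem_map, Finset.mem_Iio, Equiv.coe_toEmbedding]
      refine ⟨(srt y q).symm j, ?_, by simp⟩
      by_contra hl
      push Not at hl
      have h1 := srt_mono y q hl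
      simp only [Equiv.apply_symm_apply] at h1
      linarith
    have := Finset.card_le_card hsub
    rw [Finset.card_map, Fin.card_Iio] at this
    omega

theorem lab_bot {n : ℕ} (y : ℚ → Fin n → ℝ) (i : ℤ) (q : ℚ) (h : i + (j0 y : ℤ) < 0) :
    lab y i q = ⊥ := by
  unfold lab
  rw [eq_bot_iff]
  apply sInf_le
  show i + (j0 y : ℤ) + 1 ≤ _
  have : (0 : ℤ) ≤ ((Finset.univ.filter fun j => ((y q j : ℝ) : EReal) ≤ (⊥ : EReal)).card : ℤ) := by
    positivity
  omega

theorem lab_top {n : ℕ} (y : ℚ → Fin n → ℝ) (i : ℤ) (q : ℚ) (h : (n : ℤ) ≤ i + (j0 y : ℤ)) :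
    lab y i q = ⊤ := by
  unfold lab
  rw [show {x : EReal | i + (j0 y : ℤ) + 1 ≤
    ((Finset.univ.filter fun j => ((y q j : ℝ) : EReal) ≤ x).card : ℤ)} = ∅ from ?_, sInf_empty]
  rw [Set.eq_empty_iff_forall_notMem]
  intro x hx
  have h1 : (Finset.univ.filter fun j => ((y q j : ℝ) : EReal) ≤ x).card ≤ n := by
    simpa using Finset.card_filter_le (Finset.univ : Finset (Fin n)) fun j => ((y q j : ℝ) : EReal) ≤ x
  have h2 : i + (j0 y : ℤ) + 1 ≤
    ((Finset.univ.filter fun j => ((y q j : ℝ) : EReal) ≤ x).card : ℤ) := hx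
  omega

theorem lab_mid {n : ℕ} (y : ℚ → Fin n → ℝ) (l : Fin n) (q : ℚ) :
    lab y ((l : ℤ) - j0 y) q = ((y q (srt y q l) : ℝ) : EReal) := by
  unfold lab
  rw [show {x : EReal | ((l : ℤ) - j0 y) + (j0 y : ℤ) + 1 ≤
    ((Finset.univ.filter fun j => ((y q j : ℝ) : EReal) ≤ x).card : ℤ)} =
      Set.Ici ((y q (srt y q l) : ℝ) : EReal) from ?_, csInf_Ici]
  ext x
  rw [Set.mem_Ici, srt_le_iff, Set.mem_ofPred_eq]
  omega

theorem lab_cases {n : ℕ} (y : ℚ → Fin n → ℝ) (i : ℤ) :
    (i + (j0 y : ℤ) < 0) ∨ ((n : ℤ) ≤ i + (j0 y : ℤ)) ∨ ∃ l : Fin n, i = (l : ℤ) - j0 y := by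
  rcases lt_or_ge (i + (j0 y : ℤ)) 0 with h | h
  · exact Or.inl h
  · rcases le_or_gt (n : ℤ) (i + (j0 y : ℤ)) with h' | h'
    · exact Or.inr (Or.inl h')
    · refine Or.inr (Or.inr ⟨⟨(i + (j0 y : ℤ)).toNat, by omega⟩, ?_⟩)
      simp only
      omega

theorem lab_le_iff {n : ℕ} (y : ℚ → Fin n → ℝ) (i : ℤ) (q : ℚ) (x : EReal) (hx : x ≠ ⊤) :
    lab y i q ≤ x ↔ i + (j0 y : ℤ) + 1 ≤
      ((Finset.univ.filter fun j => ((y q j : ℝ) : EReal) ≤ x).card : ℤ) := by
  rcases lab_cases y i with h | h | ⟨l, rfl⟩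
  · rw [lab_bot y i q h]
    have : (0 : ℤ) ≤ ((Finset.univ.filter fun j => ((y q j : ℝ) : EReal) ≤ x).card : ℤ) := by
      positivity
    constructor
    · intro _; omega
    · intro _; exact bot_le
  · rw [lab_top y i q h]
    have h1 : (Finset.univ.filter fun j => ((y q j : ℝ) : EReal) ≤ x).card ≤ n := by
      simpa using Finset.card_filter_le (Finset.univ : Finset (Fin n))
        fun j => ((y q j : ℝ) : EReal) ≤ x
    constructor
    · intro h2; exact absurd (top_le_iff.mp h2) hx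
    · intro h2; omega
  · rw [lab_mid, srt_le_iff]
    omega

theorem lab_mono {n : ℕ} (y : ℚ → Fin n → ℝ) (q : ℚ) : Monotone (fun i => lab y i q) := by
  intro i i' h
  apply sInf_le_sInf
  intro x hx
  have hx' : i' + (j0 y : ℤ) + 1 ≤
    ((Finset.univ.filter fun j => ((y q j : ℝ) : EReal) ≤ x).card : ℤ) := hx
  show i + (j0 y : ℤ) + 1 ≤ _
  omega

theorem lab_anch {n : ℕ} (y : ℚ → Fin n → ℝ) :
    (∀ i : ℤ, i < 0 → lab y i 0 ≤ 0) ∧ (∀ i : ℤ, 0 ≤ i → 0 ≤ lab y i 0) := by
  constructor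
  · intro i hi
    apply sInf_le
    show i + (j0 y : ℤ) + 1 ≤ _
    have h1 : j0 y ≤ (Finset.univ.filter fun j => ((y 0 j : ℝ) : EReal) ≤ 0).card := by
      unfold j0
      apply Finset.card_le_card
      intro j hj
      simp only [Finset.mem_filter, Finset.mem_univ, true_and] at hj ⊢
      exact_mod_cast hj.le
    omega
  · intro i hi
    apply le_sInf
    intro x hx
    have hx' : i + (j0 y : ℤ) + 1 ≤
      ((Finset.univ.filter fun j => ((y 0 j : ℝ) : EReal) ≤ x).card : ℤ) := hx
    by_contra hcon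
    push Not at hcon
    have h1 : (Finset.univ.filter fun j => ((y 0 j : ℝ) : EReal) ≤ x).card ≤ j0 y := by
      unfold j0
      apply Finset.card_le_card
      intro j hj
      simp only [Finset.mem_filter, Finset.mem_univ, true_and] at hj ⊢
      exact_mod_cast lt_of_le_of_lt hj hcon
    omega

theorem lab_measurable {n : ℕ} {Ω : Type*} [MeasurableSpace Ω] (X : ℚ → Fin n → Ω → ℝ)
    (hX : ∀ q j, Measurable (X q j)) : Measurable (fun ω => lab (fun q j => X q j ω)) := by
  refine measurable_pi_lambda _ fun i => measurable_pi_lambda _ fun q => ?_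
  refine measurable_of_Iic fun x => ?_
  by_cases hx : x = ⊤
  · subst hx
    simp
  · have hset : (fun ω => lab (fun q j => X q j ω) i q) ⁻¹' Set.Iic x =
      {ω | i + ((∑ j, if X 0 j ω < 0 then 1 else 0 : ℕ) : ℤ) + 1 ≤
        ((∑ j, if ((X q j ω : ℝ) : EReal) ≤ x then 1 else 0 : ℕ) : ℤ)} := by
      ext ω
      simp only [Set.mem_preimage, Set.mem_Iic, Set.mem_ofPred_eq]
      rw [lab_le_iff _ _ _ _ hx]
      simp only [j0, Finset.card_filter]
    rw [hset]
    have m1 : Measurable fun ω => (∑ j, if X 0 j ω < 0 then 1 else 0 : ℕ) := by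
      refine Finset.measurable_sum _ fun j _ => ?_
      exact Measurable.ite (measurableSet_lt (hX 0 j) measurable_const) measurable_const
        measurable_const
    have m2 : Measurable fun ω => (∑ j, if ((X q j ω : ℝ) : EReal) ≤ x then 1 else 0 : ℕ) := by
      refine Finset.measurable_sum _ fun j _ => ?_
      refine Measurable.ite ?_ measurable_const measurable_const
      exact measurableSet_le (measurable_coe_real_ereal.comp (hX q j)) measurable_const
    have m3 : Measurable fun ω => (((∑ j, if X 0 j ω < 0 then 1 else 0 : ℕ),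
        (∑ j, if ((X q j ω : ℝ) : EReal) ≤ x then 1 else 0 : ℕ)) : ℕ × ℕ) := m1.prodMk m2
    have hs : MeasurableSet {p : ℕ × ℕ | i + (p.1 : ℤ) + 1 ≤ (p.2 : ℤ)} := by measurability
    exact m3 hs

/-- conversion of particle indices to labels -/
def toLab {n k : ℕ} (y : ℚ → Fin n → ℝ) (q : Fin k → ℚ) (ι : Fin k → Fin n) : Fin k → ℤ :=
  fun c => (((srt y (q c)).symm (ι c) : Fin n) : ℤ) - j0 y

theorem toLab_injective {n k : ℕ} (y : ℚ → Fin n → ℝ) (q : Fin k → ℚ) :
    Function.Injective (toLab y q) := by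
  intro ι ι' h
  funext c
  have hc := congrFun h c
  unfold toLab at hc
  have h1 : (((srt y (q c)).symm (ι c) : Fin n) : ℤ) = (((srt y (q c)).symm (ι' c) : Fin n) : ℤ) := by
    linarith
  have h2 : (srt y (q c)).symm (ι c) = (srt y (q c)).symm (ι' c) := by
    apply Fin.ext
    exact_mod_cast h1
  exact (srt y (q c)).symm.injective h2

theorem toLab_adm {n k : ℕ} (y : ℚ → Fin n → ℝ) (q : Fin k → ℚ) (ι : Fin k → Fin n) :
    Adm q (toLab y q ι) ↔ Adm q ι := by
  unfold Adm
  constructor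
  · intro h a b hab hq he
    apply h a b hab hq
    unfold toLab
    rw [he, hq]
  · intro h a b hab hq he
    apply h a b hab hq
    unfold toLab at he
    rw [hq] at he
    have h1 : (((srt y (q b)).symm (ι a) : Fin n) : ℤ) = (((srt y (q b)).symm (ι b) : Fin n) : ℤ) := by
      linarith
    have h2 : (srt y (q b)).symm (ι a) = (srt y (q b)).symm (ι b) := by
      apply Fin.ext
      exact_mod_cast h1
    exact (srt y (q b)).symm.injective h2

theorem lab_toLab {n k : ℕ} (y : ℚ → Fin n → ℝ) (q : Fin k → ℚ) (ι : Fin k → Fin n) (c : Fin k) :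
    lab y (toLab y q ι c) (q c) = ((y (q c) (ι c) : ℝ) : EReal) := by
  unfold toLab
  rw [lab_mid, Equiv.apply_symm_apply]

theorem f_const_l {f : ℝ → ℝ} {R : ℝ} (hR : 0 < R) (hf0 : ∀ z, R ≤ |z| → f z = 0) :
    ∀ z, z ≤ -R → f z = f (-R) := by
  intro z hz
  rw [hf0 z (by rw [abs_of_nonpos (by linarith)]; linarith), hf0 (-R) (by rw [abs_neg, abs_of_pos hR])]

theorem f_const_r {f : ℝ → ℝ} {R : ℝ} (hR : 0 < R) (hf0 : ∀ z, R ≤ |z| → f z = 0) :
    ∀ z, R ≤ z → f z = f R := by
  intro z hz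
  rw [hf0 z (by rw [abs_of_nonneg (by linarith)]; linarith), hf0 R (by rw [abs_of_pos hR])]

/-- the sum over particles is a sum over labels -/
theorem sum_toLab {n k : ℕ} (y : ℚ → Fin n → ℝ) (q : Fin k → ℚ) (f : Fin k → ℝ → ℝ)
    (R : ℝ) (hR : 0 < R) (hf0 : ∀ c z, R ≤ |z| → f c z = 0) :
    ∑ ι : Fin k → Fin n with Adm q ι, ∏ c, f c (y (q c) (ι c)) =
      ∑ ι ∈ (Finset.univ.filter fun ι : Fin k → Fin n => Adm q ι).map ⟨toLab y q, toLab_injective y q⟩,
        ∏ c, extE (f c) R (lab y (ι c) (q c)) := by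
  rw [Finset.sum_map]
  refine Finset.sum_congr rfl fun ι _ => ?_
  refine Finset.prod_congr rfl fun c _ => ?_
  simp only [Function.Embedding.coeFn_mk]
  rw [lab_toLab, extE_coe hR.le (f_const_l hR (hf0 c)) (f_const_r hR (hf0 c))]

theorem mem_image_of_ne_zero {n k : ℕ} (y : ℚ → Fin n → ℝ) (q : Fin k → ℚ) (f : Fin k → ℝ → ℝ)
    (R : ℝ) (hR : 0 < R) (hf0 : ∀ c z, R ≤ |z| → f c z = 0) (ι : Fin k → ℤ) (hA : Adm q ι)
    (h0 : ∏ c, extE (f c) R (lab y (ι c) (q c)) ≠ 0) :
    ι ∈ (Finset.univ.filter fun ι : Fin k → Fin n => Adm q ι).map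
      ⟨toLab y q, toLab_injective y q⟩ := by
  have h1 : ∀ c, ∃ l : Fin n, ι c = (l : ℤ) - j0 y := by
    intro c
    have hc := Finset.prod_ne_zero_iff.mp h0 c (Finset.mem_univ c)
    rcases lab_cases y (ι c) with h | h | h
    · rw [lab_bot y _ _ h, extE_bot hR.le, hf0 c (-R) (by rw [abs_neg, abs_of_pos hR])] at hc
      exact absurd rfl hc
    · rw [lab_top y _ _ h, extE_top hR.le, hf0 c R (by rw [abs_of_pos hR])] at hc
      exact absurd rfl hc
    · exact h
  choose l hl using h1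
  simp only [Finset.mem_map, Finset.mem_filter, Finset.mem_univ, true_and,
    Function.Embedding.coeFn_mk]
  have he : toLab y q (fun c => srt y (q c) (l c)) = ι := by
    funext c
    unfold toLab
    rw [Equiv.symm_apply_apply, hl c]
  refine ⟨fun c => srt y (q c) (l c), ?_, he⟩
  rw [← toLab_adm, he]
  exact hA

theorem markS_lab_le {n k : ℕ} (y : ℚ → Fin n → ℝ) (m : ℕ) (q : Fin k → ℚ) (f : Fin k → ℝ → ℝ)
    (R : ℝ) (hR : 0 < R) (hf : ∀ c z, 0 ≤ f c z) (hf0 : ∀ c z, R ≤ |z| → f c z = 0) :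
    markS m q f R (lab y) ≤ ∑ ι : Fin k → Fin n with Adm q ι, ∏ c, f c (y (q c) (ι c)) := by
  rw [sum_toLab y q f R hR hf0]
  unfold markS
  rw [← Finset.sum_filter_ne_zero]
  refine Finset.sum_le_sum_of_subset_of_nonneg ?_ ?_
  · intro ι hι
    simp only [Finset.mem_filter] at hι
    exact mem_image_of_ne_zero y q f R hR hf0 ι hι.1.2 hι.2
  · intro ι _ _
    exact Finset.prod_nonneg fun c _ => hf c _

theorem tail_gt {n : ℕ} (y : ℚ → Fin n → ℝ) {m : ℕ} {q : ℚ} {R : ℝ} (hT : TailOK R m q (lab y))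
    {i : ℤ} (hi : (m : ℤ) < i) : ((R : ℝ) : EReal) ≤ lab y i q :=
  hT.1.le.trans (lab_mono y q (by omega : (m : ℤ) + 1 ≤ i))

theorem tail_lt {n : ℕ} (y : ℚ → Fin n → ℝ) {m : ℕ} {q : ℚ} {R : ℝ} (hT : TailOK R m q (lab y))
    {i : ℤ} (hi : i < -(m : ℤ)) : lab y i q ≤ ((-R : ℝ) : EReal) :=
  (lab_mono y q (by omega : i ≤ -(m : ℤ) - 1)).trans hT.2.le

theorem markS_lab_eq {n k : ℕ} (y : ℚ → Fin n → ℝ) (m : ℕ) (q : Fin k → ℚ) (f : Fin k → ℝ → ℝ)
    (R : ℝ) (hR : 0 < R) (hf0 : ∀ c z, R ≤ |z| → f c z = 0)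
    (hT : ∀ c, TailOK R m (q c) (lab y)) :
    markS m q f R (lab y) = ∑ ι : Fin k → Fin n with Adm q ι, ∏ c, f c (y (q c) (ι c)) := by
  rw [sum_toLab y q f R hR hf0]
  unfold markS
  rw [← Finset.sum_filter_ne_zero, ← Finset.sum_filter_ne_zero (s := Finset.map _ _)]
  refine Finset.sum_congr ?_ fun _ _ => rfl
  ext ι
  constructor
  · intro hι
    simp only [Finset.mem_filter] at hι ⊢
    exact ⟨mem_image_of_ne_zero y q f R hR hf0 ι hι.1.2 hι.2, hι.2⟩
  · intro hι
    rw [Finset.mem_filter] at hι ⊢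
    refine ⟨?_, hι.2⟩
    rw [Finset.mem_filter, Fintype.mem_piFinset]
    constructor
    · intro c
      have hc := Finset.prod_ne_zero_iff.mp hι.2 c (Finset.mem_univ c)
      rw [Finset.mem_Icc]
      constructor
      · by_contra hcon
        push Not at hcon
        rw [extE_of_le hR.le (tail_lt y (hT c) hcon),
          hf0 c (-R) (by rw [abs_neg, abs_of_pos hR])] at hc
        exact hc rfl
      · by_contra hcon
        push Not at hcon
        rw [extE_of_ge hR.le (tail_gt y (hT c) hcon), hf0 c R (by rw [abs_of_pos hR])] at hc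
        exact hc rfl
    · obtain ⟨ι', hι', he⟩ := Finset.mem_map.mp hι.1
      rw [← he]
      simp only [Function.Embedding.coeFn_mk]
      rw [toLab_adm]
      exact (Finset.mem_filter.mp hι').2

theorem incS_lab_eq {n : ℕ} (y : ℚ → Fin n → ℝ) (m : ℕ) (q q' : ℚ) (f : ℝ → ℝ)
    (R : ℝ) (hR : 0 < R) (hl : ∀ z, z ≤ -R → f z = f (-R)) (hr : ∀ z, R ≤ z → f z = f R)
    (hT : TailOK R m q (lab y)) (hT' : TailOK R m q' (lab y)) :
    incS m f R q q' (lab y) = ∑ i, (f (y q i) - f (y q' i)) := by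
  have hinj : Function.Injective fun l : Fin n => ((l : ℤ) - (j0 y : ℤ)) := by
    intro a b h
    have h' : (a : ℤ) - (j0 y : ℤ) = (b : ℤ) - (j0 y : ℤ) := h
    apply Fin.ext
    omega
  have h1 : ∑ i, (f (y q i) - f (y q' i)) =
      ∑ i ∈ (Finset.univ : Finset (Fin n)).map ⟨fun l : Fin n => ((l : ℤ) - (j0 y : ℤ)), hinj⟩,
        (extE f R (lab y i q) - extE f R (lab y i q')) := by
    rw [Finset.sum_map]
    simp only [Function.Embedding.coeFn_mk]
    rw [Finset.sum_sub_distrib, Finset.sum_sub_distrib]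
    congr 1
    · rw [← Equiv.sum_comp (srt y q)]
      refine Finset.sum_congr rfl fun l _ => ?_
      rw [lab_mid, extE_coe hR.le hl hr]
    · rw [← Equiv.sum_comp (srt y q')]
      refine Finset.sum_congr rfl fun l _ => ?_
      rw [lab_mid, extE_coe hR.le hl hr]
  rw [h1]
  unfold incS
  rw [← Finset.sum_filter_ne_zero, ← Finset.sum_filter_ne_zero (s := Finset.map _ _)]
  refine Finset.sum_congr ?_ fun _ _ => rfl
  ext i
  rw [Finset.mem_filter, Finset.mem_filter]
  constructor
  · rintro ⟨_, hne⟩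
    refine ⟨?_, hne⟩
    rcases lab_cases y i with h | h | ⟨l, rfl⟩
    · rw [lab_bot y i q h, lab_bot y i q' h, sub_self] at hne
      exact absurd rfl hne
    · rw [lab_top y i q h, lab_top y i q' h, sub_self] at hne
      exact absurd rfl hne
    · exact Finset.mem_map.mpr ⟨l, Finset.mem_univ l, rfl⟩
  · rintro ⟨_, hne⟩
    refine ⟨?_, hne⟩
    rw [Finset.mem_Icc]
    constructor
    · by_contra hcon
      push Not at hcon
      rw [extE_of_le hR.le (tail_lt y hT hcon), extE_of_le hR.le (tail_lt y hT' hcon),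
        sub_self] at hne
      exact hne rfl
    · by_contra hcon
      push Not at hcon
      rw [extE_of_ge hR.le (tail_gt y hT hcon), extE_of_ge hR.le (tail_gt y hT' hcon),
        sub_self] at hne
      exact hne rfl

theorem stp_nonneg' (a b x : ℝ) : 0 ≤ stp a b x := le_max_left _ _

theorem stp_le_one' (a b x : ℝ) : stp a b x ≤ 1 := max_le zero_le_one (min_le_left _ _)

theorem stp_of_le' {a b x : ℝ} (hab : a < b) (h : x ≤ a) : stp a b x = 0 := by
  unfold stp
  apply max_eq_left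
  refine (min_le_right _ _).trans ?_
  exact div_nonpos_of_nonpos_of_nonneg (by linarith) (by linarith)

theorem stp_of_ge' {a b x : ℝ} (hab : a < b) (h : b ≤ x) : stp a b x = 1 := by
  unfold stp
  rw [min_eq_left, max_eq_right zero_le_one]
  rw [le_div_iff₀ (by linarith)]
  linarith

theorem card_eq_sum_ite {n : ℕ} (p : Fin n → Prop) [DecidablePred p] :
    (((Finset.univ.filter p).card : ℕ) : ℝ) = ∑ j, if p j then (1 : ℝ) else 0 := by
  rw [Finset.card_filter]
  push_cast
  rfl

theorem lab_tail {n : ℕ} (y : ℚ → Fin n → ℝ) (m : ℕ) (q : ℚ) (R : ℝ) (hR : 0 < R)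
    (hT : ¬ TailOK R m q (lab y)) :
    ((m : ℝ) + 1 ≤ (Finset.univ.filter fun j => |y 0 j| ≤ R + 1).card
        - ∑ i, (stp R (R + 1) (y q i) - stp R (R + 1) (y 0 i))) ∨
    ((m : ℝ) + 1 ≤ (Finset.univ.filter fun j => |y 0 j| ≤ R + 1).card
        + ∑ i, (stp (-(R + 1)) (-R) (y q i) - stp (-(R + 1)) (-R) (y 0 i))) := by
  have hj0 : ((j0 y : ℕ) : ℝ) = ∑ j, if y 0 j < 0 then (1 : ℝ) else 0 := by
    unfold j0
    rw [card_eq_sum_ite]
  have hn : ((n : ℕ) : ℝ) = ∑ _j : Fin n, (1 : ℝ) := by simp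
  unfold TailOK at hT
  rw [not_and_or] at hT
  rcases hT with hT | hT
  · left
    rw [not_lt, lab_le_iff _ _ _ _ (EReal.coe_ne_top R)] at hT
    have hT2 : ((m : ℝ) + 1) + (j0 y : ℝ) + 1 ≤
        ∑ j, if y q j ≤ R then (1 : ℝ) else 0 := by
      rw [← card_eq_sum_ite]
      have : (Finset.univ.filter fun j => ((y q j : ℝ) : EReal) ≤ ((R : ℝ) : EReal)) =
          Finset.univ.filter fun j => y q j ≤ R := by
        ext j
        simp only [Finset.mem_filter, Finset.mem_univ, true_and, EReal.coe_le_coe_iff]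
      rw [this] at hT
      exact_mod_cast hT
    have h1 : ∑ j, stp R (R + 1) (y q j) ≤ ∑ j, ((1 : ℝ) - if y q j ≤ R then (1 : ℝ) else 0) := by
      refine Finset.sum_le_sum fun j _ => ?_
      split_ifs with h
      · rw [stp_of_le' (by linarith) h]; norm_num
      · linarith [stp_le_one' R (R + 1) (y q j)]
    have h2 : ∑ _j : Fin n, (1 : ℝ) ≤ ∑ j, ((if y 0 j < 0 then (1 : ℝ) else 0) +
        (if |y 0 j| ≤ R + 1 then (1 : ℝ) else 0) + stp R (R + 1) (y 0 j)) := by
      refine Finset.sum_le_sum fun j _ => ?_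
      have h3 := stp_nonneg' R (R + 1) (y 0 j)
      by_cases ha : y 0 j < 0
      · rw [if_pos ha]
        split_ifs <;> linarith
      · rw [if_neg ha]
        by_cases hb : |y 0 j| ≤ R + 1
        · rw [if_pos hb]; linarith
        · rw [if_neg hb, stp_of_ge' (by linarith)]
          · norm_num
          · rw [abs_of_nonneg (not_lt.mp ha)] at hb
            linarith
    rw [Finset.sum_sub_distrib] at h1
    rw [Finset.sum_add_distrib, Finset.sum_add_distrib, ← hj0] at h2
    rw [card_eq_sum_ite, Finset.sum_sub_distrib]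
    linarith
  · right
    rw [not_lt] at hT
    have hT2 : (Finset.univ.filter fun j => y q j < -R).card + m + 1 ≤ j0 y := by
      by_contra hcon
      push Not at hcon
      rcases lt_or_ge ((-(m : ℤ) - 1) + (j0 y : ℤ)) 0 with h | h
      · rw [lab_bot y _ q h] at hT
        exact absurd hT (not_le.mpr (EReal.bot_lt_coe _))
      · have hlt : (-(m : ℤ) - 1 + (j0 y : ℤ)) < n := by
          have : j0 y ≤ n := by
            unfold j0
            simpa using Finset.card_filter_le (Finset.univ : Finset (Fin n)) fun j => y 0 j < 0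
          omega
        have hl : (-(m : ℤ) - 1) = (((⟨(-(m : ℤ) - 1 + (j0 y : ℤ)).toNat, by omega⟩ : Fin n) : ℕ) : ℤ)
            - j0 y := by
          simp only
          omega
        rw [hl, lab_mid, EReal.coe_le_coe_iff] at hT
        have h2 := (srt_lt_iff y q ⟨(-(m : ℤ) - 1 + (j0 y : ℤ)).toNat, by omega⟩ (-R)).mpr (by
          simp only
          omega)
        linarith
    have hT3 : (∑ j, if y q j < -R then (1 : ℝ) else 0) + m + 1 ≤ (j0 y : ℝ) := by
      rw [← card_eq_sum_ite]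
      exact_mod_cast hT2
    have h1 : ∑ j, ((1 : ℝ) - if y q j < -R then (1 : ℝ) else 0) ≤
        ∑ j, stp (-(R + 1)) (-R) (y q j) := by
      refine Finset.sum_le_sum fun j _ => ?_
      split_ifs with h
      · linarith [stp_nonneg' (-(R + 1)) (-R) (y q j)]
      · rw [stp_of_ge' (by linarith) (not_lt.mp h)]; norm_num
    have h2 : ∑ j, stp (-(R + 1)) (-R) (y 0 j) ≤ ∑ j, (((1 : ℝ) - if y 0 j < 0 then (1 : ℝ) else 0) +
        (if |y 0 j| ≤ R + 1 then (1 : ℝ) else 0)) := by
      refine Finset.sum_le_sum fun j _ => ?_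
      have h3 := stp_le_one' (-(R + 1)) (-R) (y 0 j)
      by_cases hb : |y 0 j| ≤ R + 1
      · rw [if_pos hb]
        split_ifs <;> linarith
      · rw [if_neg hb]
        by_cases ha : y 0 j < 0
        · rw [if_pos ha, stp_of_le' (by linarith)]
          · norm_num
          · rw [abs_of_neg ha] at hb
            linarith
        · rw [if_neg ha]; linarith
    rw [Finset.sum_sub_distrib] at h1
    rw [Finset.sum_add_distrib, Finset.sum_sub_distrib, ← hj0] at h2
    rw [card_eq_sum_ite, Finset.sum_sub_distrib]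
    linarith

end Pool.Agent.H.MP_5ad92a_pr
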