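import Pool.Agent.H.MP_5ad92a_pr.DefsP

/-!
# Pearcey line ensemble, job P5: continuity of the labels, construction of the curves
-/

set_option autoImplicit false

noncomputable section

open MeasureTheory Filter Topology Set
open scoped ENNReal

namespace Pool.Agent.H.MP_5ad92a_pr

namespace Reg5

/-! ### local facts about the clamp and the step function -/

theorem coe_clampE {R : ℝ} (_hR : 0 ≤ R) (z : EReal) :
    ((clampE R z : ℝ) : EReal) = max (((-R : ℝ)) : EReal) (min z ((R : ℝ) : EReal)) := by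
  unfold clampE
  apply EReal.coe_toReal
  · apply ne_of_lt
    rw [max_lt_iff]
    exact ⟨EReal.coe_lt_top _, lt_of_le_of_lt (min_le_right _ _) (EReal.coe_lt_top _)⟩
  · apply ne_of_gt
    rw [lt_max_iff]
    exact Or.inl (EReal.bot_lt_coe _)

theorem le_clampE {R A : ℝ} (hR : 0 ≤ R) (hA : A ≤ R) {z : EReal} (hz : (A : EReal) ≤ z) :
    A ≤ clampE R z := by
  rw [← EReal.coe_le_coe_iff, coe_clampE hR]
  exact le_max_of_le_right (le_min hz (EReal.coe_le_coe_iff.2 hA))

theorem clampE_le {R A : ℝ} (hR : 0 ≤ R) (hA : -R ≤ A) {z : EReal} (hz : z ≤ (A : EReal)) :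
    clampE R z ≤ A := by
  rw [← EReal.coe_le_coe_iff, coe_clampE hR]
  exact max_le (EReal.coe_le_coe_iff.2 hA) (le_trans (min_le_left _ _) hz)

theorem clampE_of_ge {R : ℝ} (hR : 0 ≤ R) {z : EReal} (hz : (R : EReal) ≤ z) : clampE R z = R := by
  apply le_antisymm
  · rw [← EReal.coe_le_coe_iff, coe_clampE hR]
    exact max_le (EReal.coe_le_coe_iff.2 (by linarith)) (min_le_right _ _)
  · exact le_clampE hR le_rfl hz

theorem clampE_of_le {R : ℝ} (hR : 0 ≤ R) {z : EReal} (hz : z ≤ ((-R : ℝ) : EReal)) :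
    clampE R z = -R := by
  apply le_antisymm
  · exact clampE_le hR le_rfl hz
  · rw [← EReal.coe_le_coe_iff, coe_clampE hR]
    exact le_max_left _ _

theorem extE_ge {f : ℝ → ℝ} {R : ℝ} (hR : 0 ≤ R) {z : EReal} (hz : (R : EReal) ≤ z) :
    extE f R z = f R := by
  unfold extE
  rw [clampE_of_ge hR hz]

theorem extE_le {f : ℝ → ℝ} {R : ℝ} (hR : 0 ≤ R) {z : EReal} (hz : z ≤ ((-R : ℝ) : EReal)) :
    extE f R z = f (-R) := by
  unfold extE
  rw [clampE_of_le hR hz]

theorem stp_nonneg (a b x : ℝ) : 0 ≤ stp a b x := le_max_left _ _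

theorem stp_le_one (a b x : ℝ) : stp a b x ≤ 1 := max_le zero_le_one (min_le_left _ _)

theorem stp_one {a b x : ℝ} (hab : a < b) (hx : b ≤ x) : stp a b x = 1 := by
  unfold stp
  have h : 1 ≤ (x - a) / (b - a) := by
    rw [le_div_iff₀ (by linarith)]
    linarith
  rw [min_eq_left h]
  exact max_eq_right zero_le_one

theorem stp_zero {a b x : ℝ} (hab : a < b) (hx : x ≤ a) : stp a b x = 0 := by
  unfold stp
  have h : (x - a) / (b - a) ≤ 0 := div_nonpos_of_nonpos_of_nonneg (by linarith) (by linarith)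
  apply max_eq_left
  exact le_trans (min_le_right _ _) h

end Reg5

open Reg5

/-- full increment statistic, a finitely supported sum almost surely -/
def incF (f : ℝ → ℝ) (R : ℝ) (q q' : ℚ) (x : EE) : ℝ := ∑' i : ℤ, (extE f R (x i q) - extE f R (x i q'))

theorem incF_eq_incS {x : EE} (hx : ∀ q : ℚ, Monotone (fun i : ℤ => x i q)) {f : ℝ → ℝ} {R : ℝ}
    (hR : 0 < R) {m : ℕ} {q q' : ℚ} (h1 : TailOK R m q x) (h2 : TailOK R m q' x) :
    incF f R q q' x = incS m f R q q' x := by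
  unfold incF incS
  apply tsum_eq_sum
  intro i hi
  rw [Finset.mem_Icc, not_and_or, not_le, not_le] at hi
  rcases hi with hi | hi
  · have hle : i ≤ -(m : ℤ) - 1 := by omega
    have e1 : extE f R (x i q) = f (-R) :=
      extE_le hR.le (le_trans (hx q hle) h1.2.le)
    have e2 : extE f R (x i q') = f (-R) :=
      extE_le hR.le (le_trans (hx q' hle) h2.2.le)
    rw [e1, e2, sub_self]
  · have hle : (m : ℤ) + 1 ≤ i := by omega
    have e1 : extE f R (x i q) = f R :=
      extE_ge hR.le (le_trans h1.1.le (hx q hle))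
    have e2 : extE f R (x i q') = f R :=
      extE_ge hR.le (le_trans h2.1.le (hx q' hle))
    rw [e1, e2, sub_self]

namespace Reg5

theorem exists_min_pos {ι : Type*} (s : Finset ι) (δ : ι → ℝ) (h : ∀ l, 0 < δ l) :
    ∃ d > (0 : ℝ), ∀ l ∈ s, d ≤ δ l := by
  classical
  induction s using Finset.induction_on with
  | empty => exact ⟨1, one_pos, fun l hl => absurd hl (Finset.notMem_empty l)⟩
  | insert a s _ ih =>
    obtain ⟨d, hd, hs⟩ := ih
    refine ⟨min d (δ a), lt_min hd (h a), fun l hl => ?_⟩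
    rcases Finset.mem_insert.1 hl with rfl | hl
    · exact min_le_right _ _
    · exact le_trans (min_le_left _ _) (hs l hl)

/-- The core: a big upward move of the label `k` forces an increment `≥ 1` of a step statistic. -/
theorem incF_ge_one {x : EE} (hx : ∀ q : ℚ, Monotone (fun i : ℤ => x i q))
    (hT : ∀ R : ℝ, 0 < R → ∀ q : ℚ, ∃ m0 : ℕ, ∀ m ≥ m0, TailOK R m q x)
    {A A' R : ℝ} (hAA : A < A') (hR : 0 < R) (hA1 : |A| ≤ R) (hA2 : |A'| ≤ R) {k : ℤ} {q q' : ℚ}
    (hq : x k q ≤ (A : EReal)) (hq' : (A' : EReal) ≤ x k q') :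
    1 ≤ incF (stp A A') R q' q x := by
  obtain ⟨m1, hm1⟩ := hT R hR q
  obtain ⟨m2, hm2⟩ := hT R hR q'
  set m : ℕ := max m1 (max m2 k.natAbs) with hm
  have h1 : TailOK R m q x := hm1 m (le_max_left _ _)
  have h2 : TailOK R m q' x := hm2 m (le_trans (le_max_left _ _) (le_max_right _ _))
  have hk : k.natAbs ≤ m := le_trans (le_max_right _ _) (le_max_right _ _)
  rw [incF_eq_incS hx hR h2 h1]
  unfold incS
  have hAR : -R ≤ A := (abs_le.1 hA1).1
  have hAR' : A' ≤ R := (abs_le.1 hA2).2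
  have key1 : ∀ i : ℤ, k ≤ i → extE (stp A A') R (x i q') = 1 := by
    intro i hi
    have hz : (A' : EReal) ≤ x i q' := le_trans hq' (hx q' hi)
    exact stp_one hAA (le_clampE hR.le hAR' hz)
  have key0 : ∀ i : ℤ, i ≤ k → extE (stp A A') R (x i q) = 0 := by
    intro i hi
    have hz : x i q ≤ (A : EReal) := le_trans (hx q hi) hq
    exact stp_zero hAA (clampE_le hR.le hAR hz)
  have hterm : ∀ i ∈ Finset.Icc (-(m : ℤ)) m,
      0 ≤ extE (stp A A') R (x i q') - extE (stp A A') R (x i q) := by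
    intro i _
    rcases le_total k i with h | h
    · rw [key1 i h]
      have : extE (stp A A') R (x i q) ≤ 1 := stp_le_one _ _ _
      linarith
    · rw [key0 i h]
      have : 0 ≤ extE (stp A A') R (x i q') := stp_nonneg _ _ _
      linarith
  have hmem : k ∈ Finset.Icc (-(m : ℤ)) m := by
    rw [Finset.mem_Icc]
    omega
  have hs := Finset.single_le_sum (f := fun i => extE (stp A A') R (x i q') -
    extE (stp A A') R (x i q)) hterm hmem
  rw [key1 k le_rfl, key0 k le_rfl] at hs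
  linarith

end Reg5

/-! P5: regularity of the labels -/
theorem label_cont {x : EE} (hx : ∀ q : ℚ, Monotone (fun i : ℤ => x i q))
    (hT : ∀ R : ℝ, 0 < R → ∀ q : ℚ, ∃ m0 : ℕ, ∀ m ≥ m0, TailOK R m q x)
    (hfin : ∀ (k : ℤ) (M : ℕ), ∃ B : ℝ, ∀ q : ℚ, IsDy q → |(q : ℝ)| ≤ M →
      ((-B : ℝ) : EReal) ≤ x k q ∧ x k q ≤ ((B : ℝ) : EReal))
    (hY : ∀ (a b : ℚ) (M : ℕ), a < b → ∀ R : ℚ, |a| ≤ R → |b| ≤ R → ∀ ε > (0 : ℝ), ∃ δ > (0 : ℝ),
      ∀ q q' : ℚ, IsDy q → IsDy q' → |(q : ℝ)| ≤ M → |(q' : ℝ)| ≤ M → |(q : ℝ) - q'| < δ →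
        |incF (stp a b) R q q' x| ≤ ε) :
    ∀ (k : ℤ) (M : ℕ), ∀ ε > (0 : ℝ), ∃ δ > (0 : ℝ), ∀ q q' : ℚ, IsDy q → IsDy q' →
      |(q : ℝ)| ≤ M → |(q' : ℝ)| ≤ M → |(q : ℝ) - q'| < δ →
        |(x k q).toReal - (x k q').toReal| ≤ ε := by
  intro k M ε hε
  obtain ⟨B, hB⟩ := hfin k M
  obtain ⟨n, hn⟩ := exists_nat_gt (2 / ε)
  have hn0 : (0 : ℝ) < n := lt_trans (by positivity) hn
  have hn0q : (0 : ℚ) < n := by exact_mod_cast hn0
  -- the steps
  have hstep : ∀ l : ℤ, ∃ δ > (0 : ℝ), ∀ q q' : ℚ, IsDy q → IsDy q' → |(q : ℝ)| ≤ M →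
      |(q' : ℝ)| ≤ M → |(q : ℝ) - q'| < δ →
      |incF (stp (((l : ℚ) / n : ℚ) : ℝ) ((((l + 1 : ℤ) : ℚ) / n : ℚ) : ℝ))
        ((|(l : ℚ) / n| + |((l + 1 : ℤ) : ℚ) / n| + 1 : ℚ) : ℝ) q q' x| ≤ 1 / 2 := by
    intro l
    apply hY _ _ M
    · apply div_lt_div_of_pos_right _ hn0q
      push_cast
      linarith
    · have := abs_nonneg (((l + 1 : ℤ) : ℚ) / n)
      linarith
    · have := abs_nonneg ((l : ℚ) / n)
      linarith
    · norm_num
  choose δ hδpos hδ using hstep
  obtain ⟨d, hd, hds⟩ := exists_min_pos (Finset.Icc ⌊-B * n⌋ (⌊B * n⌋ + 1)) δ hδpos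
  refine ⟨d, hd, ?_⟩
  -- one-sided claim
  have claim : ∀ q q' : ℚ, IsDy q → IsDy q' → |(q : ℝ)| ≤ M → |(q' : ℝ)| ≤ M →
      |(q : ℝ) - q'| < d → (x k q').toReal - (x k q).toReal ≤ ε := by
    intro q q' hq hq' hqM hqM' hqq
    by_contra hcon
    rw [not_le] at hcon
    obtain ⟨b1, b2⟩ := hB q hq hqM
    obtain ⟨b1', b2'⟩ := hB q' hq' hqM'
    have hco : ((x k q).toReal : EReal) = x k q := by
      apply EReal.coe_toReal
      · exact ne_of_lt (lt_of_le_of_lt b2 (EReal.coe_lt_top _))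
      · exact ne_of_gt (lt_of_lt_of_le (EReal.bot_lt_coe _) b1)
    have hco' : ((x k q').toReal : EReal) = x k q' := by
      apply EReal.coe_toReal
      · exact ne_of_lt (lt_of_le_of_lt b2' (EReal.coe_lt_top _))
      · exact ne_of_gt (lt_of_lt_of_le (EReal.bot_lt_coe _) b1')
    set a := (x k q).toReal with ha
    set b := (x k q').toReal with hb
    have ha1 : -B ≤ a := by
      rw [← EReal.coe_le_coe_iff, hco]
      exact b1
    have ha2 : a ≤ B := by
      rw [← EReal.coe_le_coe_iff, hco]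
      exact b2
    set l : ℤ := ⌊a * n⌋ + 1 with hl
    have hl1 : a < (l : ℝ) / n := by
      rw [lt_div_iff₀ hn0, hl]
      push_cast
      exact Int.lt_floor_add_one _
    have hl2 : ((l : ℝ) + 1) / n < b := by
      have h1 : (l : ℝ) ≤ a * n + 1 := by
        rw [hl]
        push_cast
        linarith [Int.floor_le (a * n)]
      have h2 : ((l : ℝ) + 1) / n ≤ a + 2 / n := by
        have h2' : a + 2 / (n : ℝ) = (a * n + 2) / n := by field_simp
        rw [h2', div_le_div_iff_of_pos_right hn0]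
        linarith
      have h3 : 2 / (n : ℝ) < ε := by
        rw [div_lt_iff₀ hn0]
        rw [div_lt_iff₀ hε] at hn
        linarith
      linarith
    have hmem : l ∈ Finset.Icc ⌊-B * n⌋ (⌊B * n⌋ + 1) := by
      rw [Finset.mem_Icc, hl]
      constructor
      · have : ⌊-B * n⌋ ≤ ⌊a * n⌋ := Int.floor_le_floor (mul_le_mul_of_nonneg_right ha1 hn0.le)
        omega
      · have : ⌊a * n⌋ ≤ ⌊B * n⌋ := Int.floor_le_floor (mul_le_mul_of_nonneg_right ha2 hn0.le)
        omega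
    have hdl : d ≤ δ l := hds l hmem
    have hqq' : |(q' : ℝ) - q| < δ l := by
      rw [abs_sub_comm]
      exact lt_of_lt_of_le hqq hdl
    have hinc := hδ l q' q hq' hq hqM' hqM hqq'
    have hge : 1 ≤ incF (stp (((l : ℚ) / n : ℚ) : ℝ) ((((l + 1 : ℤ) : ℚ) / n : ℚ) : ℝ))
        ((|(l : ℚ) / n| + |((l + 1 : ℤ) : ℚ) / n| + 1 : ℚ) : ℝ) q' q x := by
      apply incF_ge_one hx hT
      · push_cast
        apply div_lt_div_of_pos_right _ hn0
        linarith
      · push_cast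
        positivity
      · push_cast
        have := abs_nonneg (((l : ℝ) + 1) / n)
        linarith
      · push_cast
        have := abs_nonneg ((l : ℝ) / n)
        linarith
      · show x k q ≤ _
        rw [← hco, EReal.coe_le_coe_iff]
        push_cast
        exact hl1.le
      · show _ ≤ x k q'
        rw [← hco', EReal.coe_le_coe_iff]
        push_cast
        exact hl2.le
    have := le_abs_self (incF (stp (((l : ℚ) / n : ℚ) : ℝ) ((((l + 1 : ℤ) : ℚ) / n : ℚ) : ℝ))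
        ((|(l : ℚ) / n| + |((l + 1 : ℤ) : ℚ) / n| + 1 : ℚ) : ℝ) q' q x)
    linarith
  intro q q' hq hq' hqM hqM' hqq
  rw [abs_le]
  constructor
  · have := claim q q' hq hq' hqM hqM' hqq
    linarith
  · have := claim q' q hq' hq hqM' hqM (by rw [abs_sub_comm]; exact hqq)
    linarith

/-- the event of regular labels -/
def Reg (x : EE) : Prop :=
  (∀ q : ℚ, Monotone (fun i : ℤ => x i q)) ∧
  (∀ (k : ℤ) (M : ℕ), ∃ B : ℝ, ∀ q : ℚ, IsDy q → |(q : ℝ)| ≤ M →
      ((-B : ℝ) : EReal) ≤ x k q ∧ x k q ≤ ((B : ℝ) : EReal)) ∧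
  (∀ (k : ℤ) (M : ℕ), ∀ ε > (0 : ℝ), ∃ δ > (0 : ℝ), ∀ q q' : ℚ, IsDy q → IsDy q' →
      |(q : ℝ)| ≤ M → |(q' : ℝ)| ≤ M → |(q : ℝ) - q'| < δ →
        |(x k q).toReal - (x k q').toReal| ≤ ε)

/-- dyadic approximation of a real time -/
def dyfl (j : ℕ) (t : ℝ) : ℚ := (⌊2 ^ j * t⌋ : ℚ) / 2 ^ j

theorem isDy_dyfl (j : ℕ) (t : ℝ) : IsDy (dyfl j t) := ⟨j, ⌊2 ^ j * t⌋, rfl⟩

theorem abs_dyfl_sub_le (j : ℕ) (t : ℝ) : |((dyfl j t : ℚ) : ℝ) - t| ≤ 1 / 2 ^ j := by
  have h2 : (0 : ℝ) < 2 ^ j := by positivity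
  have e : ((dyfl j t : ℚ) : ℝ) = (⌊2 ^ j * t⌋ : ℝ) / 2 ^ j := by
    unfold dyfl
    push_cast
    rfl
  rw [e, div_sub' h2.ne', abs_div, abs_of_pos h2, div_le_div_iff_of_pos_right h2]
  have h1 := Int.floor_le (2 ^ j * t)
  have h3 := Int.lt_floor_add_one (2 ^ j * t)
  rw [abs_le]
  constructor <;> linarith

theorem tendsto_dyfl (t : ℝ) : Tendsto (fun j => ((dyfl j t : ℚ) : ℝ)) atTop (𝓝 t) := by
  have h : Tendsto (fun j : ℕ => (1 : ℝ) / 2 ^ j) atTop (𝓝 0) := by
    have := tendsto_pow_atTop_nhds_zero_of_lt_one (r := (1 / 2 : ℝ)) (by norm_num) (by norm_num)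
    refine this.congr fun j => ?_
    rw [one_div_pow]
  rw [tendsto_iff_dist_tendsto_zero]
  refine squeeze_zero (fun _ => dist_nonneg) (fun j => ?_) h
  rw [Real.dist_eq]
  exact abs_dyfl_sub_le j t

theorem dyfl_of_isDy {q : ℚ} (hq : IsDy q) : ∀ᶠ j in atTop, dyfl j (q : ℝ) = q := by
  obtain ⟨j0, k, rfl⟩ := hq
  filter_upwards [eventually_ge_atTop j0] with j hj
  obtain ⟨r, rfl⟩ := Nat.exists_eq_add_of_le hj
  unfold dyfl
  have e : (2 : ℝ) ^ (j0 + r) * (((k : ℚ) / 2 ^ j0 : ℚ) : ℝ) = ((k * 2 ^ r : ℤ) : ℝ) := by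
    push_cast
    rw [pow_add]
    field_simp
  rw [e, Int.floor_intCast]
  push_cast
  rw [pow_add]
  field_simp

/-- construction of the curves -/
theorem lines_exist {P : Measure EE} [IsProbabilityMeasure P] (hreg : ∀ᵐ x ∂P, Reg x) :
    ∃ L : ℤ → ℝ → EE → ℝ, (∀ i x, Continuous fun t => L i t x) ∧ (∀ i t, Measurable (L i t)) ∧
      (∀ i t x, L i t x ≤ L (i + 1) t x) ∧
      (∀ᵐ x ∂P, ∀ (i : ℤ) (q : ℚ), IsDy q → x i q = ((L i q x : ℝ) : EReal)) := by
  classical
  -- a measurable null set containing the irregular configurations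
  set N : Set EE := toMeasurable P {x | ¬ Reg x} with hN
  have hNm : MeasurableSet N := measurableSet_toMeasurable _ _
  have hN0 : P N = 0 := by
    rw [hN, measure_toMeasurable]
    exact hreg
  have hNreg : ∀ x, x ∉ N → Reg x := by
    intro x hx
    by_contra hcon
    exact hx (subset_toMeasurable P {x | ¬ Reg x} hcon)
  -- approximating functions
  let g : ℤ → ℝ → ℕ → EE → ℝ := fun i t j x =>
    if x ∈ N then (i : ℝ) else (x i (dyfl j t)).toReal
  have hgm : ∀ i t j, Measurable (g i t j) := by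
    intro i t j
    apply Measurable.ite hNm measurable_const
    have h1 : Measurable (fun x : EE => x i (dyfl j t)) :=
      (measurable_pi_apply (dyfl j t)).comp (measurable_pi_apply i)
    exact measurable_ereal_toReal.comp h1
  -- a uniform estimate
  have hunif : ∀ x, x ∉ N → ∀ (i : ℤ) (M : ℕ), ∀ ε > (0 : ℝ), ∃ δ > (0 : ℝ), ∀ t t' : ℝ,
      |t| ≤ M → |t'| ≤ M → |t - t'| < δ → ∃ J : ℕ, ∀ j ≥ J, ∀ j' ≥ J,
        |(x i (dyfl j t)).toReal - (x i (dyfl j' t')).toReal| ≤ ε := by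
    intro x hx i M ε hε
    obtain ⟨_, _, h3⟩ := hNreg x hx
    obtain ⟨δ, hδ, h⟩ := h3 i (M + 1) ε hε
    refine ⟨δ / 2, by linarith, ?_⟩
    intro t t' ht ht' htt
    -- J with 2^{-J} ≤ min 1 (δ/4)
    obtain ⟨J, hJ⟩ : ∃ J : ℕ, (1 : ℝ) / 2 ^ J < min 1 (δ / 4) := by
      have := exists_pow_lt_of_lt_one (show (0 : ℝ) < min 1 (δ / 4) by positivity)
        (show (1 / 2 : ℝ) < 1 by norm_num)
      obtain ⟨J, hJ⟩ := this
      refine ⟨J, ?_⟩
      rwa [one_div_pow] at hJ
    refine ⟨J, fun j hj j' hj' => ?_⟩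
    have hpow : ∀ r ≥ J, (1 : ℝ) / 2 ^ r ≤ 1 / 2 ^ J := by
      intro r hr
      apply one_div_le_one_div_of_le (by positivity)
      exact pow_le_pow_right₀ (by norm_num) hr
    have a1 := le_trans (abs_dyfl_sub_le j t) (hpow j hj)
    have a2 := le_trans (abs_dyfl_sub_le j' t') (hpow j' hj')
    have m1 : (1 : ℝ) / 2 ^ J < 1 := lt_of_lt_of_le hJ (min_le_left _ _)
    have m2 : (1 : ℝ) / 2 ^ J < δ / 4 := lt_of_lt_of_le hJ (min_le_right _ _)
    apply h _ _ (isDy_dyfl j t) (isDy_dyfl j' t')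
    · push_cast
      rw [abs_le] at a1 ht ⊢
      constructor <;> linarith [a1.1, a1.2, ht.1, ht.2]
    · push_cast
      rw [abs_le] at a2 ht' ⊢
      constructor <;> linarith [a2.1, a2.2, ht'.1, ht'.2]
    · rw [abs_le] at a1 a2
      rw [abs_lt] at htt ⊢
      constructor <;> linarith [a1.1, a1.2, a2.1, a2.2, htt.1, htt.2]
  -- the limits exist
  have hlim : ∀ i t x, ∃ y : ℝ, Tendsto (fun j => g i t j x) atTop (𝓝 y) := by
    intro i t x
    by_cases hx : x ∈ N
    · refine ⟨i, ?_⟩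
      simp only [g, if_pos hx]
      exact tendsto_const_nhds
    · apply cauchySeq_tendsto_of_complete
      rw [Metric.cauchySeq_iff]
      intro ε hε
      obtain ⟨M, hM⟩ := exists_nat_ge |t|
      obtain ⟨δ, hδ, h⟩ := hunif x hx i M (ε / 2) (by linarith)
      obtain ⟨J, hJ⟩ := h t t hM hM (by rw [sub_self, abs_zero]; exact hδ)
      refine ⟨J, fun j hj j' hj' => ?_⟩
      rw [Real.dist_eq]
      simp only [g, if_neg hx]
      exact lt_of_le_of_lt (hJ j hj j' hj') (by linarith)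
  choose L hL using hlim
  have hLN : ∀ i t x, x ∈ N → L i t x = i := by
    intro i t x hx
    have h := hL i t x
    simp only [g, if_pos hx] at h
    exact tendsto_nhds_unique h tendsto_const_nhds
  have hLlim : ∀ i t x, x ∉ N → Tendsto (fun j => (x i (dyfl j t)).toReal) atTop (𝓝 (L i t x)) := by
    intro i t x hx
    have h := hL i t x
    simpa only [g, if_neg hx] using h
  -- finiteness of the labels
  have hfinite : ∀ x, x ∉ N → ∀ (i : ℤ) (q : ℚ), IsDy q → ((x i q).toReal : EReal) = x i q := by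
    intro x hx i q hq
    obtain ⟨_, h2, _⟩ := hNreg x hx
    obtain ⟨M, hM⟩ := exists_nat_ge |(q : ℝ)|
    obtain ⟨B, hB⟩ := h2 i M
    obtain ⟨b1, b2⟩ := hB q hq hM
    apply EReal.coe_toReal
    · exact ne_of_lt (lt_of_le_of_lt b2 (EReal.coe_lt_top _))
    · exact ne_of_gt (lt_of_lt_of_le (EReal.bot_lt_coe _) b1)
  refine ⟨L, ?_, ?_, ?_, ?_⟩
  · intro i x
    by_cases hx : x ∈ N
    · have : (fun t => L i t x) = fun _ => (i : ℝ) := by
        funext t
        exact hLN i t x hx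
      rw [this]
      exact continuous_const
    · rw [Metric.continuous_iff]
      intro t ε hε
      obtain ⟨M, hM⟩ := exists_nat_ge (|t| + 1)
      obtain ⟨δ, hδ, h⟩ := hunif x hx i M (ε / 2) (by linarith)
      refine ⟨min δ 1, by positivity, fun t' ht' => ?_⟩
      rw [Real.dist_eq] at ht'
      have h1 : |t' - t| < δ := lt_of_lt_of_le ht' (min_le_left _ _)
      have h2 : |t' - t| < 1 := lt_of_lt_of_le ht' (min_le_right _ _)
      have h3 : |t'| ≤ M := by
        have : |t'| ≤ |t' - t| + |t| := by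
          have := abs_add_le (t' - t) t
          simpa using this
        linarith
      have h4 : |t| ≤ M := by linarith
      obtain ⟨J, hJ⟩ := h t' t h3 h4 h1
      have hle : |L i t' x - L i t x| ≤ ε / 2 := by
        have hten : Tendsto (fun j => |(x i (dyfl j t')).toReal - (x i (dyfl j t)).toReal|) atTop
            (𝓝 |L i t' x - L i t x|) := ((hLlim i t' x hx).sub (hLlim i t x hx)).abs
        apply le_of_tendsto hten
        filter_upwards [eventually_ge_atTop J] with j hj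
        exact hJ j hj j hj
      rw [Real.dist_eq]
      linarith
  · intro i t
    apply measurable_of_tendsto_metrizable (hgm i t)
    rw [tendsto_pi_nhds]
    exact fun x => hL i t x
  · intro i t x
    by_cases hx : x ∈ N
    · rw [hLN i t x hx, hLN (i + 1) t x hx]
      push_cast
      linarith
    · apply le_of_tendsto_of_tendsto' (hLlim i t x hx) (hLlim (i + 1) t x hx)
      intro j
      rw [← EReal.coe_le_coe_iff, hfinite x hx i _ (isDy_dyfl j t),
        hfinite x hx (i + 1) _ (isDy_dyfl j t)]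
      exact (hNreg x hx).1 (dyfl j t) (by omega)
  · have hae : ∀ᵐ x ∂P, x ∉ N := by
      rw [ae_iff]
      simpa using hN0
    filter_upwards [hae] with x hx i q hq
    have h1 : Tendsto (fun j => (x i (dyfl j (q : ℝ))).toReal) atTop (𝓝 (x i q).toReal) := by
      apply tendsto_const_nhds.congr'
      filter_upwards [dyfl_of_isDy hq] with j hj
      rw [hj]
    have h2 := tendsto_nhds_unique (hLlim i q x hx) h1
    rw [h2, hfinite x hx i q hq]

end Pool.Agent.H.MP_5ad92a_pr
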