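import Pool.Agent.H.MP_5ad92a_pr.DefsP
import Pool.Agent.H.MP_5ad92a_pr.Labels
import Pool.Agent.H.MP_5ad92a_pr.Regular

/-!
# Full increment statistics under `LimSpec`
-/

set_option autoImplicit false

noncomputable section

open MeasureTheory Filter Topology Set
open scoped ENNReal

namespace Pool.Agent.H.MP_5ad92a_pr

theorem IncF.tailOK_mono {x : EE} (hx : ∀ q : ℚ, Monotone (fun i : ℤ => x i q)) {R R' : ℝ}
    (hR : R' ≤ R) {m m' : ℕ} (hm : m ≤ m') {q : ℚ} (h : TailOK R m q x) : TailOK R' m' q x := by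
  obtain ⟨h1, h2⟩ := h
  have hm' : (m : ℤ) ≤ m' := by exact_mod_cast hm
  refine ⟨?_, ?_⟩
  · calc ((R' : ℝ) : EReal) ≤ (R : EReal) := EReal.coe_le_coe_iff.2 hR
      _ < x ((m : ℤ) + 1) q := h1
      _ ≤ x ((m' : ℤ) + 1) q := hx q (by omega)
  · calc x (-(m' : ℤ) - 1) q ≤ x (-(m : ℤ) - 1) q := hx q (by omega)
      _ < ((-R : ℝ) : EReal) := h2
      _ ≤ ((-R' : ℝ) : EReal) := EReal.coe_le_coe_iff.2 (by linarith)

theorem ae_tailOK {P : Measure EE} (hP : LimSpec P) :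
    ∀ᵐ x ∂P, ∀ R : ℝ, 0 < R → ∀ q : ℚ, ∃ m0 : ℕ, ∀ m ≥ m0, TailOK R m q x := by
  have h1 : ∀ (r : ℕ) (q : ℚ), ∀ᵐ x ∂P, ∃ m : ℕ, TailOK ((r : ℝ) + 1) m q x := by
    intro r q
    rw [ae_iff]
    refine le_antisymm ?_ (zero_le)
    refine ENNReal.le_of_forall_pos_le_add (fun ε hε _ => ?_)
    obtain ⟨m0, hm0⟩ := hP.tail ((r : ℝ) + 1) |(q : ℝ)| ε (by positivity) (by exact_mod_cast hε)
    rw [zero_add]
    calc P {x | ¬∃ m, TailOK ((r : ℝ) + 1) m q x}
        ≤ P {x | ¬ TailOK ((r : ℝ) + 1) m0 q x} :=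
          measure_mono (fun x hx hT => hx ⟨m0, hT⟩)
      _ ≤ ENNReal.ofReal ε := hm0 m0 le_rfl q le_rfl
      _ = ε := ENNReal.ofReal_coe_nnreal
  have h2 : ∀ᵐ x ∂P, ∀ (r : ℕ) (q : ℚ), ∃ m : ℕ, TailOK ((r : ℝ) + 1) m q x :=
    ae_all_iff.2 (fun r => ae_all_iff.2 (h1 r))
  filter_upwards [h2, hP.mono] with x hx hmono R hR q
  obtain ⟨r, hr⟩ := exists_nat_ge R
  obtain ⟨m, hm⟩ := hx r q
  exact ⟨m, fun m' hm' => IncF.tailOK_mono hmono (by linarith) hm' hm⟩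

theorem IncF.incS_measurable (m : ℕ) {f : ℝ → ℝ} (hf : Continuous f) (R : ℝ) (q q' : ℚ) :
    Measurable (incS m f R q q') := by
  unfold incS
  refine Finset.measurable_sum _ (fun i _ => ?_)
  have h : ∀ p : ℚ, Measurable (fun x : EE => extE f R (x i p)) := fun p =>
    (continuous_extE hf R).measurable.comp
      ((measurable_pi_apply p).comp (measurable_pi_apply i))
  exact (h q).sub (h q')

theorem incF_aemeasurable {P : Measure EE} (hP : LimSpec P) (f : ℝ → ℝ) (hf : Continuous f)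
    (R : ℝ) (hR : 0 < R) (q q' : ℚ) : AEMeasurable (incF f R q q') P := by
  refine aemeasurable_of_tendsto_metrizable_ae atTop
    (fun m : ℕ => (IncF.incS_measurable m hf R q q').aemeasurable) ?_
  filter_upwards [ae_tailOK hP, hP.mono] with x hx hmono
  obtain ⟨m1, hm1⟩ := hx R hR q
  obtain ⟨m2, hm2⟩ := hx R hR q'
  refine tendsto_const_nhds.congr' ?_
  filter_upwards [eventually_ge_atTop (max m1 m2)] with m hm
  exact incF_eq_incS hmono hR (hm1 m ((le_max_left _ _).trans hm))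
    (hm2 m ((le_max_right _ _).trans hm))

theorem incF_sub {P : Measure EE} (hP : LimSpec P) (f : ℝ → ℝ) (R : ℝ) (hR : 0 < R) :
    ∀ᵐ x ∂P, ∀ q q' : ℚ, incF f R q 0 x - incF f R q' 0 x = incF f R q q' x := by
  filter_upwards [ae_tailOK hP, hP.mono] with x hx hmono q q'
  obtain ⟨m1, hm1⟩ := hx R hR q
  obtain ⟨m2, hm2⟩ := hx R hR q'
  obtain ⟨m3, hm3⟩ := hx R hR 0
  set m := max m1 (max m2 m3) with hm
  have t1 := hm1 m (le_max_left _ _)
  have t2 := hm2 m ((le_max_left _ _).trans (le_max_right _ _))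
  have t3 := hm3 m ((le_max_right _ _).trans (le_max_right _ _))
  rw [incF_eq_incS hmono hR t1 t3, incF_eq_incS hmono hR t2 t3, incF_eq_incS hmono hR t1 t2]
  unfold incS
  rw [← Finset.sum_sub_distrib]
  exact Finset.sum_congr rfl (fun i _ => by ring)

theorem IncF.tailOK_measurableSet (R : ℝ) (m : ℕ) (q : ℚ) : MeasurableSet {x : EE | TailOK R m q x} := by
  have h : ∀ i : ℤ, Measurable (fun x : EE => x i q) := fun i =>
    (measurable_pi_apply q).comp (measurable_pi_apply i)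
  exact (measurableSet_lt measurable_const (h _)).inter (measurableSet_lt (h _) measurable_const)

theorem IncF.lintegral_incF_le {P : Measure EE} (hP : LimSpec P) {f : ℝ → ℝ} (hf : Continuous f)
    {R : ℝ} (hR : 0 < R) (q q' : ℚ) (B : ℝ≥0∞)
    (h : ∀ m : ℕ, ∫⁻ x in {x | TailOK R m q x ∧ TailOK R m q' x},
      ENNReal.ofReal ((incS m f R q q' x) ^ 4) ∂P ≤ B) :
    ∫⁻ x, ENNReal.ofReal ((incF f R q q' x) ^ 4) ∂P ≤ B := by
  have hTm : ∀ m : ℕ, MeasurableSet {x : EE | TailOK R m q x ∧ TailOK R m q' x} := fun m =>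
    (IncF.tailOK_measurableSet R m q).inter (IncF.tailOK_measurableSet R m q')
  have hS : ∀ m : ℕ, Measurable (fun x => ENNReal.ofReal ((incS m f R q q' x) ^ 4)) := fun m =>
    ((IncF.incS_measurable m hf R q q').pow_const 4).ennreal_ofReal
  have h1 : ∀ᵐ x ∂P, ENNReal.ofReal ((incF f R q q' x) ^ 4) =
      liminf (fun m : ℕ => ({x : EE | TailOK R m q x ∧ TailOK R m q' x}).indicator
        (fun x => ENNReal.ofReal ((incS m f R q q' x) ^ 4)) x) atTop := by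
    filter_upwards [ae_tailOK hP, hP.mono] with x hx hmono
    obtain ⟨m1, hm1⟩ := hx R hR q
    obtain ⟨m2, hm2⟩ := hx R hR q'
    refine (Tendsto.liminf_eq ?_).symm
    refine tendsto_const_nhds.congr' ?_
    filter_upwards [eventually_ge_atTop (max m1 m2)] with m hm
    have t1 := hm1 m ((le_max_left _ _).trans hm)
    have t2 := hm2 m ((le_max_right _ _).trans hm)
    rw [indicator_of_mem (show x ∈ {x : EE | TailOK R m q x ∧ TailOK R m q' x} from ⟨t1, t2⟩),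
      incF_eq_incS hmono hR t1 t2]
  rw [lintegral_congr_ae h1]
  refine (lintegral_liminf_le (fun m => (hS m).indicator (hTm m))).trans ?_
  refine liminf_le_of_le ?_ (fun b hb => ?_)
  · isBoundedDefault
  · obtain ⟨m, hm⟩ := hb.exists
    refine hm.trans ?_
    rw [lintegral_indicator (hTm m)]
    exact h m

theorem IncF.stp_cont (a b : ℝ) : Continuous (stp a b) := by
  unfold stp
  fun_prop

theorem incF_moment {P : Measure EE} (hP : LimSpec P) (a b M : ℝ) (hab : a < b) :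
    ∃ C : ℝ, ∀ q q' : ℚ, |(q : ℝ)| ≤ M → |(q' : ℝ)| ≤ M → ∀ R : ℝ, |a| ≤ R → |b| ≤ R →
    ∫⁻ x, ENNReal.ofReal ((incF (stp a b) R q q' x) ^ 4) ∂P ≤
      ENNReal.ofReal (C * ((q : ℝ) - q') ^ 2) := by
  obtain ⟨C, hC⟩ := hP.inc a b M hab
  refine ⟨C, fun q q' hq hq' R ha hb => ?_⟩
  have hR : 0 < R := by
    have h1 := abs_le.1 ha
    have h2 := abs_le.1 hb
    have h3 := (abs_nonneg a).trans ha
    rcases h3.eq_or_lt with h4 | h4
    · exfalso; rw [← h4] at h1 h2; linarith [h1.1, h1.2, h2.1, h2.2]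
    · exact h4
  exact IncF.lintegral_incF_le hP (IncF.stp_cont a b) hR q q' _ (fun m => hC q q' hq hq' R ha hb m)

theorem incF_momentR {P : Measure EE} (hP : LimSpec P) (M : ℝ) : ∃ C R0 : ℝ, ∀ R ≥ R0,
    ∀ q q' : ℚ, |(q : ℝ)| ≤ M → |(q' : ℝ)| ≤ M → |(q : ℝ) - q'| ≤ R ^ (-(2 / 3) : ℝ) →
    ∫⁻ x, ENNReal.ofReal ((incF (stp R (2 * R)) (2 * R) q q' x) ^ 4) ∂P ≤
        ENNReal.ofReal (C * R ^ (4 / 3 : ℝ) * ((q : ℝ) - q') ^ 2) ∧
    ∫⁻ x, ENNReal.ofReal ((incF (stp (-(2 * R)) (-R)) (2 * R) q q' x) ^ 4) ∂P ≤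
        ENNReal.ofReal (C * R ^ (4 / 3 : ℝ) * ((q : ℝ) - q') ^ 2) := by
  obtain ⟨C, R0, hC⟩ := hP.incR M
  refine ⟨C, max R0 1, fun R hR q q' hq hq' hqq => ?_⟩
  have h0 : R0 ≤ R := (le_max_left _ _).trans hR
  have h1 : (1 : ℝ) ≤ R := (le_max_right _ _).trans hR
  have h2 : 0 < 2 * R := by linarith
  exact ⟨IncF.lintegral_incF_le hP (IncF.stp_cont _ _) h2 q q' _
      (fun m => (hC R h0 q q' hq hq' hqq m).1),
    IncF.lintegral_incF_le hP (IncF.stp_cont _ _) h2 q q' _ (fun m => (hC R h0 q q' hq hq' hqq m).2)⟩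

end Pool.Agent.H.MP_5ad92a_pr
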