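import Pool.Agent.H.MP_5ad92a_pr.DefsP

/-!
# Many curves at time 0 (job P4b)
-/

set_option autoImplicit false

noncomputable section

open MeasureTheory Filter Topology Set
open scoped ENNReal

namespace Pool.Agent.H.MP_5ad92a_pr

/-- number of labels `i ≥ 0` with `x i 0 ≤ R`, resp. `i < 0` with `-R ≤ x i 0` -/
def cntP (R : ℝ) (x : EE) : ℕ := Set.ncard {i : ℤ | 0 ≤ i ∧ x i 0 ≤ ((R : ℝ) : EReal)}
def cntN (R : ℝ) (x : EE) : ℕ := Set.ncard {i : ℤ | i < 0 ∧ ((-R : ℝ) : EReal) ≤ x i 0}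

namespace Many

/-- one-time, one-point kernel product. -/
abbrev KK (a b : ℝ) : ℝ := Kl 0 a 0 b

/-- the truncated linear statistic at time 0 -/
def Zm (m : ℕ) (f : ℝ → ℝ) (R : ℝ) (x : EE) : ℝ :=
  ∑ i ∈ Finset.Icc (-(m : ℤ)) m, extE f R (x i 0)

theorem measurable_clampE (R : ℝ) : Measurable (clampE R) := by
  unfold clampE
  exact measurable_ereal_toReal.comp (measurable_const.max (measurable_id.min measurable_const))

theorem measurable_extE' {f : ℝ → ℝ} (hf : Continuous f) (R : ℝ) : Measurable (extE f R) :=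
  hf.measurable.comp (measurable_clampE R)

theorem measurable_Zm {f : ℝ → ℝ} (hf : Continuous f) (m : ℕ) (R : ℝ) : Measurable (Zm m f R) := by
  unfold Zm
  refine Finset.measurable_sum _ fun i _ => ?_
  exact (measurable_extE' hf R).comp ((measurable_pi_apply (0 : ℚ)).comp (measurable_pi_apply i))

theorem measurable_markS {k : ℕ} {f : Fin k → ℝ → ℝ} (hf : ∀ c, Continuous (f c)) (m : ℕ)
    (q : Fin k → ℚ) (R : ℝ) : Measurable (markS m q f R) := by
  unfold markS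
  refine Finset.measurable_sum _ fun ι _ => ?_
  refine Finset.measurable_prod _ fun c _ => ?_
  exact (measurable_extE' (hf c) R).comp ((measurable_pi_apply (q c)).comp (measurable_pi_apply (ι c)))

theorem ecoe_min (a b : ℝ) : ((min a b : ℝ) : EReal) = min (a : EReal) b :=
  (EReal.coe_strictMono.monotone).map_min

theorem ecoe_max (a b : ℝ) : ((max a b : ℝ) : EReal) = max (a : EReal) b :=
  (EReal.coe_strictMono.monotone).map_max

theorem clampE_coe (R z : ℝ) : clampE R (z : EReal) = max (-R) (min z R) := by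
  unfold clampE
  rw [← ecoe_min, ← ecoe_max, EReal.toReal_coe]

theorem clampE_top {R : ℝ} (hR : 0 ≤ R) : clampE R ⊤ = R := by
  unfold clampE
  rw [min_eq_right le_top, ← ecoe_max, EReal.toReal_coe, max_eq_right (by linarith)]

theorem clampE_bot {R : ℝ} : clampE R ⊥ = -R := by
  unfold clampE
  rw [min_eq_left bot_le, max_eq_left bot_le, EReal.toReal_coe]

theorem extE_zero_of_ge {f : ℝ → ℝ} {R : ℝ} (hR : 0 ≤ R) (hs : ∀ z, R ≤ |z| → f z = 0)
    {z : EReal} (hz : (R : EReal) ≤ z) : extE f R z = 0 := by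
  have h1 : clampE R z = R := by
    unfold clampE
    rw [min_eq_right hz, ← ecoe_max, EReal.toReal_coe, max_eq_right (by linarith)]
  unfold extE
  rw [h1]
  exact hs R (le_abs_self R)

theorem extE_zero_of_le {f : ℝ → ℝ} {R : ℝ} (hR : 0 ≤ R) (hs : ∀ z, R ≤ |z| → f z = 0)
    {z : EReal} (hz : z ≤ ((-R : ℝ) : EReal)) : extE f R z = 0 := by
  have h1 : clampE R z = -R := by
    unfold clampE
    have h2 : z ≤ (R : EReal) := hz.trans (EReal.coe_le_coe_iff.2 (by linarith))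
    rw [min_eq_left h2, max_eq_left hz, EReal.toReal_coe]
  unfold extE
  rw [h1]
  exact hs (-R) (by rw [abs_neg]; exact le_abs_self R)

/-- if `f` vanishes on `(-∞,0]` -/
theorem extE_zero_of_nonpos {f : ℝ → ℝ} {R : ℝ} (hR : 0 ≤ R) (hs : ∀ z, z ≤ 0 → f z = 0)
    {z : EReal} (hz : z ≤ 0) : extE f R z = 0 := by
  have h1 : clampE R z ≤ 0 := by
    induction z with
    | bot => rw [clampE_bot]; linarith
    | top => simp at hz
    | coe z =>
      rw [clampE_coe]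
      have : z ≤ 0 := by exact_mod_cast hz
      exact max_le (by linarith) (min_le_of_left_le this)
  exact hs _ h1

theorem extE_zero_of_nonneg {f : ℝ → ℝ} {R : ℝ} (hR : 0 ≤ R) (hs : ∀ z, 0 ≤ z → f z = 0)
    {z : EReal} (hz : 0 ≤ z) : extE f R z = 0 := by
  have h1 : 0 ≤ clampE R z := by
    induction z with
    | bot => simp at hz
    | top => rw [clampE_top hR]; exact hR
    | coe z =>
      rw [clampE_coe]
      have : 0 ≤ z := by exact_mod_cast hz
      exact le_max_of_le_right (le_min this hR)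
  exact hs _ h1

theorem extE_nonneg {f : ℝ → ℝ} (h0 : ∀ z, 0 ≤ f z) (R : ℝ) (z : EReal) : 0 ≤ extE f R z := h0 _
theorem extE_le_one {f : ℝ → ℝ} (h1 : ∀ z, f z ≤ 1) (R : ℝ) (z : EReal) : extE f R z ≤ 1 := h1 _

/-! ### counting -/

theorem Zm_le_cntP {f : ℝ → ℝ} {R : ℝ} (hR : 0 < R) (h1 : ∀ z, f z ≤ 1)
    (hs : ∀ z, R ≤ |z| → f z = 0) (hs0 : ∀ z, z ≤ 0 → f z = 0) {x : EE}
    (hx : Monotone (fun i : ℤ => x i 0)) (ha : ∀ i : ℤ, i < 0 → x i 0 ≤ 0) {m0 : ℕ}
    (hT : TailOK R m0 0 x) (m : ℕ) : Zm m f R x ≤ cntP R x := by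
  have hfin : {i : ℤ | 0 ≤ i ∧ x i 0 ≤ ((R : ℝ) : EReal)}.Finite := by
    refine (Set.finite_Icc (0 : ℤ) m0).subset fun i hi => ⟨hi.1, ?_⟩
    by_contra hlt
    push Not at hlt
    have h3 : x ((m0 : ℤ) + 1) 0 ≤ x i 0 := hx (by omega)
    exact absurd (lt_of_lt_of_le hT.1 (h3.trans hi.2)) (lt_irrefl _)
  have hle : Zm m f R x ≤
      ∑ i ∈ (Finset.Icc (-(m : ℤ)) m).filter (fun i => i ∈ {i : ℤ | 0 ≤ i ∧ x i 0 ≤ ((R : ℝ) : EReal)}), (1 : ℝ) := by
    unfold Zm
    rw [Finset.sum_filter]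
    refine Finset.sum_le_sum fun i _ => ?_
    split_ifs with h
    · exact extE_le_one h1 R _
    · apply le_of_eq
      by_cases hi : i < 0
      · exact extE_zero_of_nonpos hR.le hs0 (ha i hi)
      · push Not at hi
        have h4 : ¬ (x i 0 ≤ ((R : ℝ) : EReal)) := fun h5 => h ⟨hi, h5⟩
        exact extE_zero_of_ge hR.le hs (le_of_lt (not_le.1 h4))
  refine hle.trans ?_
  rw [Finset.sum_const, nsmul_eq_mul, mul_one]
  unfold cntP
  rw [← Set.ncard_coe_finset]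
  have := Set.ncard_le_ncard (s := (((Finset.Icc (-(m : ℤ)) m).filter (fun i => i ∈ {i : ℤ | 0 ≤ i ∧ x i 0 ≤ ((R : ℝ) : EReal)}) : Finset ℤ) : Set ℤ))
    (t := {i : ℤ | 0 ≤ i ∧ x i 0 ≤ ((R : ℝ) : EReal)}) (by
      intro i hi
      simp only [Finset.coe_filter, Set.mem_ofPred_eq] at hi
      exact hi.2) hfin
  exact_mod_cast this

theorem Zm_le_cntN {f : ℝ → ℝ} {R : ℝ} (hR : 0 < R) (h1 : ∀ z, f z ≤ 1)
    (hs : ∀ z, R ≤ |z| → f z = 0) (hs0 : ∀ z, 0 ≤ z → f z = 0) {x : EE}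
    (hx : Monotone (fun i : ℤ => x i 0)) (ha : ∀ i : ℤ, 0 ≤ i → 0 ≤ x i 0) {m0 : ℕ}
    (hT : TailOK R m0 0 x) (m : ℕ) : Zm m f R x ≤ cntN R x := by
  have hfin : {i : ℤ | i < 0 ∧ ((-R : ℝ) : EReal) ≤ x i 0}.Finite := by
    refine (Set.finite_Icc (-(m0 : ℤ)) 0).subset fun i hi => ⟨?_, le_of_lt hi.1⟩
    by_contra hlt
    push Not at hlt
    have h3 : x i 0 ≤ x (-(m0 : ℤ) - 1) 0 := hx (by omega)
    exact absurd (lt_of_le_of_lt (hi.2.trans h3) hT.2) (lt_irrefl _)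
  have hle : Zm m f R x ≤
      ∑ i ∈ (Finset.Icc (-(m : ℤ)) m).filter (fun i => i ∈ {i : ℤ | i < 0 ∧ ((-R : ℝ) : EReal) ≤ x i 0}), (1 : ℝ) := by
    unfold Zm
    rw [Finset.sum_filter]
    refine Finset.sum_le_sum fun i _ => ?_
    split_ifs with h
    · exact extE_le_one h1 R _
    · apply le_of_eq
      by_cases hi : 0 ≤ i
      · exact extE_zero_of_nonneg hR.le hs0 (ha i hi)
      · push Not at hi
        have h4 : ¬ (((-R : ℝ) : EReal) ≤ x i 0) := fun h5 => h ⟨hi, h5⟩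
        exact extE_zero_of_le hR.le hs (le_of_lt (not_le.1 h4))
  refine hle.trans ?_
  rw [Finset.sum_const, nsmul_eq_mul, mul_one]
  unfold cntN
  rw [← Set.ncard_coe_finset]
  have := Set.ncard_le_ncard (s := (((Finset.Icc (-(m : ℤ)) m).filter (fun i => i ∈ {i : ℤ | i < 0 ∧ ((-R : ℝ) : EReal) ≤ x i 0}) : Finset ℤ) : Set ℤ))
    (t := {i : ℤ | i < 0 ∧ ((-R : ℝ) : EReal) ≤ x i 0}) (by
      intro i hi
      simp only [Finset.coe_filter, Set.mem_ofPred_eq] at hi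
      exact hi.2) hfin
  exact_mod_cast this

/-! ### marks for one and two points -/

theorem markS_one (m : ℕ) (f : ℝ → ℝ) (R : ℝ) (x : EE) :
    markS (k := 1) m (fun _ => 0) (fun _ => f) R x = Zm m f R x := by
  unfold markS Zm
  have hfil : (Fintype.piFinset fun _ : Fin 1 => Finset.Icc (-(m : ℤ)) m).filter
      (fun ι => Adm (fun _ : Fin 1 => (0 : ℚ)) ι) =
      Fintype.piFinset fun _ : Fin 1 => Finset.Icc (-(m : ℤ)) m := by
    refine Finset.filter_true_of_mem fun ι _ a b hab => ?_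
    exact absurd (Subsingleton.elim a b) hab
  rw [hfil]
  have h := (Finset.prod_univ_sum (fun _ : Fin 1 => Finset.Icc (-(m : ℤ)) m)
    (fun (_ : Fin 1) (i : ℤ) => extE f R (x i 0)))
  rw [← h]
  simp

theorem Zm_sq_le (m : ℕ) (f : ℝ → ℝ) (h0 : ∀ z, 0 ≤ f z) (h1 : ∀ z, f z ≤ 1) (R : ℝ) (x : EE) :
    (Zm m f R x) ^ 2 ≤ Zm m f R x + markS (k := 2) m (fun _ => 0) (fun _ => f) R x := by
  have h := (Finset.prod_univ_sum (fun _ : Fin 2 => Finset.Icc (-(m : ℤ)) m)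
    (fun (_ : Fin 2) (i : ℤ) => extE f R (x i 0)))
  have h2 : (Zm m f R x) ^ 2 = ∑ ι ∈ Fintype.piFinset fun _ : Fin 2 => Finset.Icc (-(m : ℤ)) m,
      ∏ c : Fin 2, extE f R (x (ι c) 0) := by
    rw [← h]
    simp [Zm]
  rw [h2, ← Finset.sum_filter_add_sum_filter_not _ (fun ι => Adm (fun _ : Fin 2 => (0 : ℚ)) ι), add_comm]
  refine add_le_add ?_ (le_of_eq rfl)
  have h3 : ∀ ι ∈ (Fintype.piFinset fun _ : Fin 2 => Finset.Icc (-(m : ℤ)) m).filter
      (fun ι => ¬ Adm (fun _ : Fin 2 => (0 : ℚ)) ι), ι 1 = ι 0 := by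
    intro ι hι
    rw [Finset.mem_filter] at hι
    by_contra hne
    apply hι.2
    intro a b hab _
    fin_cases a <;> fin_cases b
    · exact absurd rfl hab
    · exact fun h => hne h.symm
    · exact fun h => hne h
    · exact absurd rfl hab
  generalize hA : (Fintype.piFinset fun _ : Fin 2 => Finset.Icc (-(m : ℤ)) m).filter
      (fun ι => ¬ Adm (fun _ : Fin 2 => (0 : ℚ)) ι) = A at h3 ⊢
  calc (∑ ι ∈ A, ∏ c : Fin 2, extE f R (x (ι c) 0))
      ≤ ∑ ι ∈ A, extE f R (x (ι 0) 0) := by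
        refine Finset.sum_le_sum fun ι _ => ?_
        rw [Fin.prod_univ_two]
        exact mul_le_of_le_one_right (extE_nonneg h0 R _) (extE_le_one h1 R _)
    _ = ∑ i ∈ A.image (fun ι => ι 0), extE f R (x i 0) := by
        rw [Finset.sum_image]
        intro ι hι ι' hι' hee
        have e1 := h3 ι hι
        have e2 := h3 ι' hι'
        simp only at hee
        funext c
        fin_cases c
        · exact hee
        · simp only [Fin.mk_one, e1, e2, hee]
    _ ≤ Zm m f R x := by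
        unfold Zm
        refine Finset.sum_le_sum_of_subset_of_nonneg ?_ fun i _ _ => extE_nonneg h0 R _
        intro i hi
        rw [Finset.mem_image] at hi
        obtain ⟨ι, hι, rfl⟩ := hi
        rw [← hA, Finset.mem_filter, Fintype.mem_piFinset] at hι
        exact hι.1 0

/-! ### the integrals -/

def M1 (f : ℝ → ℝ) : ℝ := ∫ y, f y * KK y y

def JJ (f : ℝ → ℝ) : ℝ := ∫ p : ℝ × ℝ, (f p.1 * f p.2) * (KK p.1 p.2 * KK p.2 p.1)

theorem Kr_zero (x y : ℝ) : Kr ((0 : ℚ) : ℝ) x ((0 : ℚ) : ℝ) y = KK x y := by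
  simp [Kr, KK]

theorem rhs_one (f : ℝ → ℝ) :
    (∫ y : Fin 1 → ℝ, (∏ c, f (y c)) *
        Matrix.det (Matrix.of fun c d : Fin 1 => Kr ((0 : ℚ) : ℝ) (y c) ((0 : ℚ) : ℝ) (y d))) = M1 f := by
  have h := (volume_preserving_funUnique (Fin 1) ℝ).integral_comp'
    (fun y => f y * KK y y)
  unfold M1
  rw [← h]
  refine integral_congr_ae (Eventually.of_forall fun y => ?_)
  simp only [Finset.univ_unique, Fin.default_eq_zero, Fin.isValue, Finset.prod_singleton,
    Matrix.det_unique, Matrix.of_apply, Kr_zero, MeasurableEquiv.funUnique_apply]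

theorem hasCompactSupport_of_zero {f : ℝ → ℝ} {R : ℝ} (hs : ∀ z, R ≤ |z| → f z = 0) :
    HasCompactSupport f := by
  refine HasCompactSupport.intro (isCompact_Icc (a := -R) (b := R)) fun z hz => hs z ?_
  by_contra h
  push Not at h
  exact hz ⟨(abs_lt.1 h).1.le, (abs_lt.1 h).2.le⟩

theorem cont_diag (hcont : Continuous (fun p : (ℝ × ℝ) × (ℝ × ℝ) => Kl p.1.1 p.1.2 p.2.1 p.2.2)) :
    Continuous fun y => KK y y := by
  have h0 : Continuous fun y : ℝ => ((((0 : ℝ), y), ((0 : ℝ), y)) : (ℝ × ℝ) × (ℝ × ℝ)) := by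
    fun_prop
  have h := hcont.comp h0
  simp only [Function.comp_def] at h
  exact h

theorem cont_KK (hcont : Continuous (fun p : (ℝ × ℝ) × (ℝ × ℝ) => Kl p.1.1 p.1.2 p.2.1 p.2.2)) :
    Continuous fun p : ℝ × ℝ => KK p.1 p.2 := by
  have h0 : Continuous fun p : ℝ × ℝ => ((((0 : ℝ), p.1), ((0 : ℝ), p.2)) : (ℝ × ℝ) × (ℝ × ℝ)) := by
    fun_prop
  have h := hcont.comp h0
  simp only [Function.comp_def] at h
  exact h

theorem cont_KK' (hcont : Continuous (fun p : (ℝ × ℝ) × (ℝ × ℝ) => Kl p.1.1 p.1.2 p.2.1 p.2.2)) :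
    Continuous fun p : ℝ × ℝ => KK p.2 p.1 := by
  have h0 : Continuous fun p : ℝ × ℝ => ((((0 : ℝ), p.2), ((0 : ℝ), p.1)) : (ℝ × ℝ) × (ℝ × ℝ)) := by
    fun_prop
  have h := hcont.comp h0
  simp only [Function.comp_def] at h
  exact h

theorem hasCompactSupport_prod {f : ℝ → ℝ} {R : ℝ} (hs : ∀ z, R ≤ |z| → f z = 0)
    (g : ℝ × ℝ → ℝ) : HasCompactSupport fun p : ℝ × ℝ => (f p.1 * f p.2) * g p := by
  refine HasCompactSupport.intro ((isCompact_Icc (a := -R) (b := R)).prod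
    (isCompact_Icc (a := -R) (b := R))) fun p hp => ?_
  by_cases h1 : R ≤ |p.1|
  · simp [hs _ h1]
  by_cases h2 : R ≤ |p.2|
  · simp [hs _ h2]
  · push Not at h1 h2
    exact absurd ⟨⟨(abs_lt.1 h1).1.le, (abs_lt.1 h1).2.le⟩, ⟨(abs_lt.1 h2).1.le, (abs_lt.1 h2).2.le⟩⟩ hp

theorem rhs_two (hcont : Continuous (fun p : (ℝ × ℝ) × (ℝ × ℝ) => Kl p.1.1 p.1.2 p.2.1 p.2.2))
    {f : ℝ → ℝ} (hf : Continuous f) {R : ℝ} (hs : ∀ z, R ≤ |z| → f z = 0) :
    (∫ y : Fin 2 → ℝ, (∏ c, f (y c)) *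
        Matrix.det (Matrix.of fun c d : Fin 2 => Kr ((0 : ℚ) : ℝ) (y c) ((0 : ℚ) : ℝ) (y d))) =
      M1 f ^ 2 - JJ f := by
  have h := (volume_preserving_finTwoArrow ℝ).integral_comp'
    (fun p : ℝ × ℝ => (f p.1 * f p.2) * (KK p.1 p.1 * KK p.2 p.2) -
      (f p.1 * f p.2) * (KK p.1 p.2 * KK p.2 p.1))
  have e1 : (∫ y : Fin 2 → ℝ, (∏ c, f (y c)) *
        Matrix.det (Matrix.of fun c d : Fin 2 => Kr ((0 : ℚ) : ℝ) (y c) ((0 : ℚ) : ℝ) (y d))) =
      ∫ p : ℝ × ℝ, ((f p.1 * f p.2) * (KK p.1 p.1 * KK p.2 p.2) -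
      (f p.1 * f p.2) * (KK p.1 p.2 * KK p.2 p.1)) := by
    rw [← h]
    refine integral_congr_ae (Eventually.of_forall fun y => ?_)
    simp only [Fin.prod_univ_two, Matrix.det_fin_two, Matrix.of_apply, Kr_zero,
      MeasurableEquiv.finTwoArrow_apply]
    ring
  have c1 : Continuous fun p : ℝ × ℝ => (f p.1 * f p.2) * (KK p.1 p.1 * KK p.2 p.2) :=
    ((hf.comp continuous_fst).mul (hf.comp continuous_snd)).mul
      (((cont_diag hcont).comp continuous_fst).mul ((cont_diag hcont).comp continuous_snd))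
  have c2 : Continuous fun p : ℝ × ℝ => (f p.1 * f p.2) * (KK p.1 p.2 * KK p.2 p.1) :=
    ((hf.comp continuous_fst).mul (hf.comp continuous_snd)).mul
      ((cont_KK hcont).mul (cont_KK' hcont))
  rw [e1, integral_sub (c1.integrable_of_hasCompactSupport (hasCompactSupport_prod hs _))
    (c2.integrable_of_hasCompactSupport (hasCompactSupport_prod hs _))]
  have e2 : (∫ p : ℝ × ℝ, (f p.1 * f p.2) * (KK p.1 p.1 * KK p.2 p.2)) = M1 f ^ 2 := by
    have h3 := integral_prod_mul (μ := (volume : Measure ℝ)) (ν := (volume : Measure ℝ))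
      (fun y => f y * KK y y) (fun y => f y * KK y y)
    rw [sq]
    unfold M1
    rw [← h3]
    refine integral_congr_ae (Eventually.of_forall fun y => ?_)
    simp only
    ring
  rw [e2]
  rfl

theorem neg_M1 (hsymm : ∀ σ x τ y, Kl σ (-x) τ (-y) = Kl σ x τ y) (f : ℝ → ℝ) :
    M1 (fun z => f (-z)) = M1 f := by
  unfold M1
  rw [← integral_neg_eq_self (fun y => f y * KK y y)]
  refine integral_congr_ae (Eventually.of_forall fun y => ?_)
  simp only [KK, hsymm]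

theorem neg_JJ (hsymm : ∀ σ x τ y, Kl σ (-x) τ (-y) = Kl σ x τ y) (f : ℝ → ℝ) :
    JJ (fun z => f (-z)) = JJ f := by
  unfold JJ
  rw [← integral_neg_eq_self (fun p : ℝ × ℝ => (f p.1 * f p.2) * (KK p.1 p.2 * KK p.2 p.1))]
  refine integral_congr_ae (Eventually.of_forall fun y => ?_)
  simp only [KK, Prod.fst_neg, Prod.snd_neg, hsymm]

/-! ### Chebyshev -/

theorem core {P : Measure EE} (hP : LimSpec P)
    (hcont : Continuous (fun p : (ℝ × ℝ) × (ℝ × ℝ) => Kl p.1.1 p.1.2 p.2.1 p.2.2))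
    {f : ℝ → ℝ} (hf : Continuous f) (h0 : ∀ z, 0 ≤ f z) (h1 : ∀ z, f z ≤ 1) {R : ℝ} (hR : 0 < R)
    (hs : ∀ z, R ≤ |z| → f z = 0) (hpos : 0 < M1 f) {V : ℝ} (hV : |JJ f| ≤ V) :
    ∃ m : ℕ, P {x | Zm m f R x < M1 f / 2} ≤ ENNReal.ofReal (4 * (2 * M1 f + V) / M1 f ^ 2) := by
  have := hP.prob
  set a := M1 f with ha
  set δ := a / (2 + 2 * a) with hδ
  have hδ0 : 0 < δ := by positivity
  obtain ⟨m1, hm1⟩ := hP.corr 1 (fun _ => f) R hR (fun _ => hf) (fun _ => h0) (fun _ => hs) 1 δ hδ0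
  obtain ⟨m2, hm2⟩ := hP.corr 2 (fun _ => f) R hR (fun _ => hf) (fun _ => h0) (fun _ => hs) 1 δ hδ0
  have k1 := hm1 (max m1 m2) (le_max_left _ _) (fun _ => 0) (by simp)
  have k2 := hm2 (max m1 m2) (le_max_right _ _) (fun _ => 0) (by simp)
  set m := max m1 m2
  refine ⟨m, ?_⟩
  rw [rhs_one f] at k1
  rw [rhs_two hcont hf hs] at k2
  have kk1 : |(∫ x, Zm m f R x ∂P) - a| ≤ δ := by
    have : (fun x => markS (k := 1) m (fun _ => 0) (fun _ => f) R x) = fun x => Zm m f R x := by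
      funext x; exact markS_one m f R x
    rw [this] at k1
    exact k1
  -- integrability
  have hZm : Measurable (Zm m f R) := measurable_Zm hf m R
  have hWm : Measurable (markS (k := 2) m (fun _ => (0 : ℚ)) (fun _ => f) R) :=
    measurable_markS (fun _ => hf) m _ R
  have hZb : ∀ x, ‖Zm m f R x‖ ≤ ((Finset.Icc (-(m : ℤ)) m).card : ℝ) := by
    intro x
    unfold Zm
    rw [Real.norm_of_nonneg (Finset.sum_nonneg fun i _ => extE_nonneg h0 R _)]
    refine (Finset.sum_le_card_nsmul _ _ 1 fun i _ => extE_le_one h1 R _).trans ?_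
    simp
  have hZint : Integrable (Zm m f R) P :=
    Integrable.of_bound hZm.aestronglyMeasurable _ (Eventually.of_forall hZb)
  have hZ2int : Integrable (fun x => (Zm m f R x) ^ 2) P := by
    refine Integrable.of_bound (hZm.pow_const 2).aestronglyMeasurable
      (((Finset.Icc (-(m : ℤ)) m).card : ℝ) ^ 2) (Eventually.of_forall fun x => ?_)
    rw [norm_pow]
    exact pow_le_pow_left₀ (norm_nonneg _) (hZb x) 2
  have hWnn : ∀ x, 0 ≤ markS (k := 2) m (fun _ => (0 : ℚ)) (fun _ => f) R x := by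
    intro x
    unfold markS
    exact Finset.sum_nonneg fun ι _ => Finset.prod_nonneg fun c _ => extE_nonneg h0 R _
  have hWint : Integrable (markS (k := 2) m (fun _ => (0 : ℚ)) (fun _ => f) R) P := by
    refine Integrable.of_bound hWm.aestronglyMeasurable
      ((((Fintype.piFinset fun _ : Fin 2 => Finset.Icc (-(m : ℤ)) m).filter
        (fun ι => Adm (fun _ => (0 : ℚ)) ι)).card : ℝ)) (Eventually.of_forall fun x => ?_)
    rw [Real.norm_of_nonneg (hWnn x)]
    unfold markS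
    refine (Finset.sum_le_card_nsmul _ _ 1 fun ι _ => ?_).trans ?_
    · exact Finset.prod_le_one (fun c _ => extE_nonneg h0 R _) fun c _ => extE_le_one h1 R _
    · simp
  have hsq : ∫ x, (Zm m f R x) ^ 2 ∂P ≤ (a + δ) + (a ^ 2 + V + δ) := by
    calc ∫ x, (Zm m f R x) ^ 2 ∂P ≤ ∫ x, (Zm m f R x + markS (k := 2) m (fun _ => (0 : ℚ)) (fun _ => f) R x) ∂P :=
          integral_mono hZ2int (hZint.add hWint) (fun x => Zm_sq_le m f h0 h1 R x)
      _ = (∫ x, Zm m f R x ∂P) + ∫ x, markS (k := 2) m (fun _ => (0 : ℚ)) (fun _ => f) R x ∂P :=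
          integral_add hZint hWint
      _ ≤ _ := by
          have e1 := (abs_le.1 kk1).2
          have e2 := (abs_le.1 k2).2
          have e3 := (abs_le.1 hV).1
          linarith
  have hvar : ∫ x, (Zm m f R x - a) ^ 2 ∂P ≤ 2 * a + V := by
    have e1 : ∫ x, (Zm m f R x - a) ^ 2 ∂P =
        (∫ x, (Zm m f R x) ^ 2 ∂P) - 2 * a * (∫ x, Zm m f R x ∂P) + a ^ 2 := by
      have : (fun x => (Zm m f R x - a) ^ 2) =
          fun x => ((Zm m f R x) ^ 2 - 2 * a * Zm m f R x) + a ^ 2 := by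
        funext x; ring
      have i1 : Integrable (fun x => (Zm m f R x) ^ 2 - 2 * a * Zm m f R x) P :=
        hZ2int.sub (hZint.const_mul _)
      rw [this, integral_add i1 (integrable_const _),
        integral_sub hZ2int (hZint.const_mul _), integral_const_mul]
      simp
    rw [e1]
    have e2 := (abs_le.1 kk1).1
    have e3 : δ * (2 + 2 * a) = a := by
      rw [hδ]; field_simp
    nlinarith [hsq, e2, e3, hpos]
  have hvint : Integrable (fun x => (Zm m f R x - a) ^ 2) P := by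
    have : (fun x => (Zm m f R x - a) ^ 2) =
          fun x => ((Zm m f R x) ^ 2 - 2 * a * Zm m f R x) + a ^ 2 := by
        funext x; ring
    rw [this]
    exact (hZ2int.sub (hZint.const_mul _)).add (integrable_const _)
  have hcheb := mul_meas_ge_le_integral_of_nonneg
    (Eventually.of_forall fun x => sq_nonneg (Zm m f R x - a)) hvint (a ^ 2 / 4)
  have hsub : {x | Zm m f R x < a / 2} ⊆ {x | a ^ 2 / 4 ≤ (Zm m f R x - a) ^ 2} := by
    intro x hx
    simp only [Set.mem_ofPred_eq] at hx ⊢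
    nlinarith [hx, hpos]
  have hreal : P.real {x | Zm m f R x < a / 2} ≤ 4 * (2 * a + V) / a ^ 2 := by
    have e1 : P.real {x | Zm m f R x < a / 2} ≤ P.real {x | a ^ 2 / 4 ≤ (Zm m f R x - a) ^ 2} :=
      measureReal_mono hsub
    rw [le_div_iff₀ (by positivity)]
    have e2 : a ^ 2 / 4 * P.real {x | a ^ 2 / 4 ≤ (Zm m f R x - a) ^ 2} ≤ 2 * a + V :=
      hcheb.trans hvar
    nlinarith [mul_le_mul_of_nonneg_left e1 (sq_nonneg a)]
  rw [← ofReal_measureReal]
  exact ENNReal.ofReal_le_ofReal hreal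

/-! ### the bump function -/

def bump (R z : ℝ) : ℝ := max 0 (min 1 (2 - 8 * |z - 3 * R / 4| / R))

theorem bump_cont (R : ℝ) : Continuous (bump R) := by
  unfold bump
  fun_prop

theorem bump_nonneg (R z : ℝ) : 0 ≤ bump R z := le_max_left _ _

theorem bump_le_one (R z : ℝ) : bump R z ≤ 1 := max_le zero_le_one (min_le_left _ _)

theorem bump_zero {R z : ℝ} (hR : 0 < R) (h : R / 4 ≤ |z - 3 * R / 4|) : bump R z = 0 := by
  unfold bump
  refine max_eq_left (min_le_of_right_le ?_)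
  have : 2 ≤ 8 * |z - 3 * R / 4| / R := by
    rw [le_div_iff₀ hR]; linarith
  linarith

theorem bump_one {R z : ℝ} (hR : 0 < R) (h : |z - 3 * R / 4| ≤ R / 8) : bump R z = 1 := by
  unfold bump
  have : 8 * |z - 3 * R / 4| / R ≤ 1 := by
    rw [div_le_iff₀ hR]; linarith
  rw [min_eq_left (by linarith)]
  exact max_eq_right zero_le_one

theorem bump_left {R z : ℝ} (hR : 0 < R) (h : z ≤ R / 2) : bump R z = 0 := by
  refine bump_zero hR ?_
  rw [abs_of_nonpos (by linarith)]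
  linarith

theorem bump_right {R z : ℝ} (hR : 0 < R) (h : R ≤ z) : bump R z = 0 := by
  refine bump_zero hR ?_
  rw [abs_of_nonneg (by linarith)]
  linarith

theorem bump_abs {R : ℝ} (hR : 0 < R) : ∀ z, R ≤ |z| → bump R z = 0 := by
  intro z hz
  rcases le_abs.1 hz with h | h
  · exact bump_right hR h
  · exact bump_left hR (by linarith)

theorem M1_lower (hcont : Continuous (fun p : (ℝ × ℝ) × (ℝ × ℝ) => Kl p.1.1 p.1.2 p.2.1 p.2.2))
    {c R0 : ℝ} (hc : 0 < c) (hmean : ∀ x ≥ R0, c * x ^ (1 / 3 : ℝ) ≤ Kl 0 x 0 x)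
    {R : ℝ} (hR : 0 < R) (hR0 : R0 ≤ R / 2) : c / 8 * R ^ (4 / 3 : ℝ) ≤ M1 (bump R) := by
  have hnn : ∀ y, 0 ≤ bump R y * KK y y := by
    intro y
    rcases le_total y (R / 2) with h | h
    · rw [bump_left hR h, zero_mul]
    · refine mul_nonneg (bump_nonneg R y) ?_
      have := hmean y (hR0.trans h)
      have hy : 0 ≤ y := by linarith
      exact (by positivity : 0 ≤ c * y ^ (1 / 3 : ℝ)).trans this
  have hint : Integrable (fun y => bump R y * KK y y) :=
    ((bump_cont R).mul (cont_diag hcont)).integrable_of_hasCompactSupport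
      ((hasCompactSupport_of_zero (bump_abs hR)).mul_right)
  have h1 : ∫ y in Icc (5 * R / 8) (7 * R / 8), bump R y * KK y y ≤ M1 (bump R) :=
    setIntegral_le_integral hint (Eventually.of_forall hnn)
  have h2 : ∫ y in Icc (5 * R / 8) (7 * R / 8), (c / 2 * R ^ (1 / 3 : ℝ)) ≤
      ∫ y in Icc (5 * R / 8) (7 * R / 8), bump R y * KK y y := by
    refine setIntegral_mono_on (integrableOn_const (by simp)) hint.integrableOn measurableSet_Icc ?_
    intro y hy
    rw [bump_one hR (by rw [abs_le]; constructor <;> linarith [hy.1, hy.2]), one_mul]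
    refine le_trans ?_ (hmean y (by linarith [hy.1]))
    have e1 : R ^ (1 / 3 : ℝ) / 2 ≤ y ^ (1 / 3 : ℝ) := by
      have e2 : R ^ (1 / 3 : ℝ) / 2 = (R / 8) ^ (1 / 3 : ℝ) := by
        rw [Real.div_rpow hR.le (by norm_num)]
        congr 1
        rw [show (8 : ℝ) = 2 ^ (3 : ℝ) by norm_num, ← Real.rpow_mul (by norm_num)]
        norm_num
      rw [e2]
      exact Real.rpow_le_rpow (by positivity) (by linarith [hy.1]) (by norm_num)
    nlinarith [mul_le_mul_of_nonneg_left e1 hc.le]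
  have h3 : ∫ y in Icc (5 * R / 8) (7 * R / 8), (c / 2 * R ^ (1 / 3 : ℝ)) =
      c / 8 * R ^ (4 / 3 : ℝ) := by
    rw [setIntegral_const, Real.volume_real_Icc_of_le (by linarith)]
    have e4 : R ^ (4 / 3 : ℝ) = R * R ^ (1 / 3 : ℝ) := by
      rw [show (4 / 3 : ℝ) = 1 + 1 / 3 by norm_num, Real.rpow_add hR, Real.rpow_one]
    rw [e4, smul_eq_mul]
    ring
  rw [← h3]
  exact h2.trans h1

theorem JJ_bound (hcont : Continuous (fun p : (ℝ × ℝ) × (ℝ × ℝ) => Kl p.1.1 p.1.2 p.2.1 p.2.2))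
    {R : ℝ} (hR : 0 < R) : |JJ (bump R)| ≤
      ∫ p in (Icc (R / 2) R) ×ˢ (Icc (R / 2) R), |Kl 0 p.1 0 p.2 * Kl 0 p.2 0 p.1| := by
  have hms : MeasurableSet ((Icc (R / 2) R) ×ˢ (Icc (R / 2) R)) :=
    measurableSet_Icc.prod measurableSet_Icc
  have hc2 : Continuous fun p : ℝ × ℝ => |KK p.1 p.2 * KK p.2 p.1| :=
    ((cont_KK hcont).mul (cont_KK' hcont)).abs
  have hio : IntegrableOn (fun p : ℝ × ℝ => |KK p.1 p.2 * KK p.2 p.1|)
      ((Icc (R / 2) R) ×ˢ (Icc (R / 2) R)) :=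
    hc2.continuousOn.integrableOn_compact (isCompact_Icc.prod isCompact_Icc)
  have h1 : |JJ (bump R)| ≤ ∫ p : ℝ × ℝ, |(bump R p.1 * bump R p.2) * (KK p.1 p.2 * KK p.2 p.1)| :=
    abs_integral_le_integral_abs
  have h2 : ∫ p : ℝ × ℝ, |(bump R p.1 * bump R p.2) * (KK p.1 p.2 * KK p.2 p.1)| ≤
      ∫ p : ℝ × ℝ, ((Icc (R / 2) R) ×ˢ (Icc (R / 2) R)).indicator
        (fun p : ℝ × ℝ => |KK p.1 p.2 * KK p.2 p.1|) p := by
    refine integral_mono_of_nonneg (Eventually.of_forall fun p => abs_nonneg _)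
      (hio.integrable_indicator hms) (Eventually.of_forall fun p => ?_)
    by_cases hp : p ∈ (Icc (R / 2) R) ×ˢ (Icc (R / 2) R)
    · simp only [Set.indicator_of_mem hp]
      rw [abs_mul]
      refine mul_le_of_le_one_left (abs_nonneg _) ?_
      rw [abs_of_nonneg (mul_nonneg (bump_nonneg _ _) (bump_nonneg _ _))]
      exact mul_le_one₀ (bump_le_one _ _) (bump_nonneg _ _) (bump_le_one _ _)
    · simp only [Set.indicator_of_notMem hp]
      have h3 : bump R p.1 * bump R p.2 = 0 := by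
        by_contra hne
        have n1 : bump R p.1 ≠ 0 := left_ne_zero_of_mul hne
        have n2 : bump R p.2 ≠ 0 := right_ne_zero_of_mul hne
        apply hp
        refine ⟨⟨?_, ?_⟩, ⟨?_, ?_⟩⟩
        · by_contra h; push Not at h; exact n1 (bump_left hR h.le)
        · by_contra h; push Not at h; exact n1 (bump_right hR h.le)
        · by_contra h; push Not at h; exact n2 (bump_left hR h.le)
        · by_contra h; push Not at h; exact n2 (bump_right hR h.le)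
      rw [h3, zero_mul, abs_zero]
  rw [integral_indicator hms] at h2
  exact h1.trans h2

end Many

/-- lower bound for the number of curves at time 0 -/
theorem many {P : Measure EE} (hP : LimSpec P)
    (hmean : ∃ c R0 : ℝ, 0 < c ∧ ∀ x ≥ R0, c * x ^ (1 / 3 : ℝ) ≤ Kl 0 x 0 x)
    (hvar : ∀ ε : ℝ, 0 < ε → ∃ R0 : ℝ, ∀ R ≥ R0,
      ∫ p in (Icc (R / 2) R) ×ˢ (Icc (R / 2) R), |Kl 0 p.1 0 p.2 * Kl 0 p.2 0 p.1| ≤ ε * R ^ (8 / 3 : ℝ))
    (hcont : Continuous (fun p : (ℝ × ℝ) × (ℝ × ℝ) => Kl p.1.1 p.1.2 p.2.1 p.2.2)) 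
    (hsymm : ∀ σ x τ y, Kl σ (-x) τ (-y) = Kl σ x τ y) :
    ∃ c : ℝ, 0 < c ∧ ∀ ε : ℝ, 0 < ε → ∃ R0 : ℝ, ∀ R ≥ R0,
      P {x | (cntP R x : ℝ) < c * R ^ (4 / 3 : ℝ)} ≤ ENNReal.ofReal ε ∧
      P {x | (cntN R x : ℝ) < c * R ^ (4 / 3 : ℝ)} ≤ ENNReal.ofReal ε := by
  obtain ⟨c, R1, hc, hmean⟩ := hmean
  refine ⟨c / 16, by positivity, fun ε hε => ?_⟩
  obtain ⟨R2, hR2⟩ := hvar (ε * c ^ 2 / 512) (by positivity)
  -- `64 / (c R^{4/3}) ≤ ε / 2`
  have htend : Tendsto (fun R : ℝ => R ^ (4 / 3 : ℝ)) atTop atTop :=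
    tendsto_rpow_atTop (by norm_num)
  obtain ⟨R3, hR3⟩ := (htend.eventually_ge_atTop (128 / (c * ε))).exists_forall_of_atTop
  refine ⟨max (max 1 (2 * R1)) (max R2 R3), fun R hR => ?_⟩
  have hR1 : 0 < R := lt_of_lt_of_le one_pos (((le_max_left _ _).trans (le_max_left _ _)).trans hR)
  have hR1' : R1 ≤ R / 2 := by
    have := ((le_max_right 1 (2 * R1)).trans (le_max_left _ (max R2 R3))).trans hR
    linarith
  have hRR2 : R2 ≤ R := ((le_max_left _ _).trans (le_max_right _ _)).trans hR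
  have hRR3 : R3 ≤ R := ((le_max_right _ _).trans (le_max_right _ _)).trans hR
  have hM : c / 8 * R ^ (4 / 3 : ℝ) ≤ Many.M1 (Many.bump R) := Many.M1_lower hcont hc hmean hR1 hR1'
  have hV := Many.JJ_bound hcont hR1
  have hVV := hR2 R hRR2
  set V := ∫ p in (Icc (R / 2) R) ×ˢ (Icc (R / 2) R), |Kl 0 p.1 0 p.2 * Kl 0 p.2 0 p.1| with hVdef
  set a := Many.M1 (Many.bump R) with hadef
  have hq : 0 < R ^ (4 / 3 : ℝ) := Real.rpow_pos_of_pos hR1 _
  have ha : 0 < a := lt_of_lt_of_le (by positivity) hM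
  have hq3 : 128 / (c * ε) ≤ R ^ (4 / 3 : ℝ) := hR3 R hRR3
  have h83 : R ^ (8 / 3 : ℝ) = (R ^ (4 / 3 : ℝ)) ^ 2 := by
    rw [← Real.rpow_natCast, ← Real.rpow_mul hR1.le]
    norm_num
  have hfin : 4 * (2 * a + V) / a ^ 2 ≤ ε := by
    generalize hqq : R ^ (4 / 3 : ℝ) = Q at *
    rw [h83] at hVV
    have hq3' : 128 ≤ Q * (c * ε) := by
      rwa [div_le_iff₀ (by positivity)] at hq3
    rw [div_le_iff₀ (by positivity)]
    have s1 : 8 * a ≤ ε / 2 * a ^ 2 := by
      have : 16 ≤ ε * a := by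
        calc (16 : ℝ) = 128 / 8 := by norm_num
          _ ≤ (Q * (c * ε)) / 8 := by linarith
          _ = ε * (c / 8 * Q) := by ring
          _ ≤ ε * a := mul_le_mul_of_nonneg_left hM hε.le
      nlinarith
    have s2 : 4 * V ≤ ε / 2 * a ^ 2 := by
      have h4 : (c / 8 * Q) ^ 2 ≤ a ^ 2 := pow_le_pow_left₀ (by positivity) hM 2
      calc 4 * V ≤ 4 * (ε * c ^ 2 / 512 * Q ^ 2) := by linarith
        _ = ε / 2 * (c / 8 * Q) ^ 2 := by ring
        _ ≤ ε / 2 * a ^ 2 := mul_le_mul_of_nonneg_left h4 (by positivity)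
    linarith
  have hthr : c / 16 * R ^ (4 / 3 : ℝ) ≤ a / 2 := by linarith
  have hae : ∀ᵐ x ∂P, Monotone (fun i : ℤ => x i 0) ∧ (∀ i : ℤ, i < 0 → x i 0 ≤ 0) ∧
      (∀ i : ℤ, 0 ≤ i → 0 ≤ x i 0) ∧ ∃ m0 : ℕ, TailOK R m0 0 x := by
    have ht : ∀ᵐ x ∂P, ∃ m0 : ℕ, TailOK R m0 0 x := by
      rw [ae_iff]
      refine le_antisymm (ENNReal.le_of_forall_pos_le_add fun η hη _ => ?_) zero_le
      obtain ⟨m0, hm0⟩ := hP.tail R 1 η hR1 hη
      have h5 := hm0 m0 le_rfl 0 (by simp)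
      rw [zero_add]
      refine (measure_mono ?_).trans (h5.trans (le_of_eq ?_))
      · intro x hx
        simp only [Set.mem_ofPred_eq, not_exists] at hx ⊢
        exact hx m0
      · rw [ENNReal.ofReal_coe_nnreal]
    filter_upwards [hP.mono, hP.anch, ht] with x h1 h2 h3
    exact ⟨h1 0, h2.1, h2.2, h3⟩
  constructor
  · obtain ⟨m, hm⟩ := Many.core hP hcont (Many.bump_cont R) (Many.bump_nonneg R) (Many.bump_le_one R)
      hR1 (Many.bump_abs hR1) ha hV
    refine le_trans ?_ (hm.trans (ENNReal.ofReal_le_ofReal hfin))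
    refine measure_mono_ae ?_
    filter_upwards [hae] with x ⟨h1, h2, h3, m0, h4⟩ hx
    have hx' : (cntP R x : ℝ) < c / 16 * R ^ (4 / 3 : ℝ) := hx
    have h5 := Many.Zm_le_cntP hR1 (Many.bump_le_one R) (Many.bump_abs hR1)
      (fun z hz => Many.bump_left hR1 (by linarith)) h1 h2 h4 m
    exact lt_of_le_of_lt h5 (lt_of_lt_of_le hx' hthr)
  · have e1 : Many.M1 (fun z => Many.bump R (-z)) = a := Many.neg_M1 hsymm _
    have e2 : Many.JJ (fun z => Many.bump R (-z)) = Many.JJ (Many.bump R) := Many.neg_JJ hsymm _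
    have hs' : ∀ z, R ≤ |z| → Many.bump R (-z) = 0 := fun z hz =>
      Many.bump_abs hR1 (-z) (by rwa [abs_neg])
    obtain ⟨m, hm⟩ := Many.core (f := fun z => Many.bump R (-z)) hP hcont
      ((Many.bump_cont R).comp continuous_neg) (fun z => Many.bump_nonneg R _)
      (fun z => Many.bump_le_one R _) hR1 hs' (by rw [e1]; exact ha) (V := V) (by rw [e2]; exact hV)
    rw [e1] at hm
    refine le_trans ?_ (hm.trans (ENNReal.ofReal_le_ofReal hfin))
    refine measure_mono_ae ?_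
    filter_upwards [hae] with x ⟨h1, h2, h3, m0, h4⟩ hx
    have hx' : (cntN R x : ℝ) < c / 16 * R ^ (4 / 3 : ℝ) := hx
    have h5 := Many.Zm_le_cntN (f := fun z => Many.bump R (-z)) hR1 (fun z => Many.bump_le_one R _) hs'
      (fun z hz => Many.bump_left hR1 (by linarith)) h1 h3 h4 m
    exact lt_of_le_of_lt h5 (lt_of_lt_of_le hx' hthr)

end Pool.Agent.H.MP_5ad92a_pr
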