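import Pool.Agent.H.MP_5ad92a_pr.Chaining
import Pool.Agent.H.MP_5ad92a_pr.IncF
import Pool.Agent.H.MP_5ad92a_pr.Many

/-!
# Labels are bounded locally uniformly over dyadic times
-/

set_option autoImplicit false
noncomputable section
open MeasureTheory Filter Topology Set
open scoped ENNReal
namespace Pool.Agent.H.MP_5ad92a_pr

private theorem fs_stp_nonneg (a b x : ℝ) : 0 ≤ stp a b x := le_max_left _ _

private theorem fs_stp_le_one (a b x : ℝ) : stp a b x ≤ 1 := max_le zero_le_one (min_le_left _ _)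

private theorem fs_stp_zero {a b x : ℝ} (hab : a < b) (hx : x ≤ a) : stp a b x = 0 := by
  unfold stp
  have h : (x - a) / (b - a) ≤ 0 := div_nonpos_of_nonpos_of_nonneg (by linarith) (by linarith)
  rw [min_eq_right (by linarith), max_eq_left h]

private theorem fs_stp_one {a b x : ℝ} (hab : a < b) (hx : b ≤ x) : stp a b x = 1 := by
  unfold stp
  have h : 1 ≤ (x - a) / (b - a) := by rw [le_div_iff₀ (by linarith)]; linarith
  rw [min_eq_left h, max_eq_right zero_le_one]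

private theorem fs_stp_cont {a b : ℝ} : Continuous (stp a b) := by
  unfold stp
  fun_prop

private theorem fs_clampE_coe {R : ℝ} (hR : 0 ≤ R) (z : EReal) :
    ((clampE R z : ℝ) : EReal) = max (((-R : ℝ)) : EReal) (min z ((R : ℝ) : EReal)) := by
  unfold clampE
  have hRR : ((-R : ℝ) : EReal) ≤ ((R : ℝ) : EReal) := EReal.coe_le_coe_iff.2 (by linarith)
  have h1 : max (((-R : ℝ)) : EReal) (min z ((R : ℝ) : EReal)) ≤ ((R : ℝ) : EReal) :=
    max_le hRR (min_le_right _ _)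
  have h2 : (((-R : ℝ)) : EReal) ≤ max (((-R : ℝ)) : EReal) (min z ((R : ℝ) : EReal)) :=
    le_max_left _ _
  refine EReal.coe_toReal ?_ ?_
  · intro h
    rw [h] at h1
    exact absurd h1 (not_le.2 (EReal.coe_lt_top R))
  · intro h
    rw [h] at h2
    exact absurd h2 (not_le.2 (EReal.bot_lt_coe (-R)))

private theorem fs_clampE_le {R : ℝ} (hR : 0 ≤ R) {z : EReal} {s : ℝ} (hs : -R ≤ s)
    (hz : z ≤ (s : EReal)) : clampE R z ≤ s := by
  rw [← EReal.coe_le_coe_iff, fs_clampE_coe hR]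
  exact max_le (EReal.coe_le_coe_iff.2 hs) ((min_le_left _ _).trans hz)

private theorem fs_le_clampE {R : ℝ} (hR : 0 ≤ R) {z : EReal} {s : ℝ} (hs : s ≤ R)
    (hz : (s : EReal) ≤ z) : s ≤ clampE R z := by
  rw [← EReal.coe_le_coe_iff, fs_clampE_coe hR]
  exact le_max_of_le_right (le_min hz (EReal.coe_le_coe_iff.2 hs))

private theorem fs_ext_nonneg (a b R : ℝ) (z : EReal) : 0 ≤ extE (stp a b) R z :=
  fs_stp_nonneg _ _ _

private theorem fs_ext_le_one (a b R : ℝ) (z : EReal) : extE (stp a b) R z ≤ 1 :=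
  fs_stp_le_one _ _ _

private theorem fs_ext_zero {a b R : ℝ} (hR : 0 ≤ R) (hab : a < b) (ha : -R ≤ a) {z : EReal}
    (hz : z ≤ (a : EReal)) : extE (stp a b) R z = 0 :=
  fs_stp_zero hab (fs_clampE_le hR ha hz)

private theorem fs_ext_one {a b R : ℝ} (hR : 0 ≤ R) (hab : a < b) (hb : b ≤ R) {z : EReal}
    (hz : (b : EReal) ≤ z) : extE (stp a b) R z = 1 :=
  fs_stp_one hab (fs_le_clampE hR hb hz)

private theorem fs_tail_mono {x : EE} (hx : ∀ q : ℚ, Monotone (fun i : ℤ => x i q)) {R : ℝ}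
    {m : ℕ} {q : ℚ} (h : TailOK R m q x) (i : ℤ) (hi : (m : ℤ) < i) :
    ((R : ℝ) : EReal) < x i q := lt_of_lt_of_le h.1 (hx q (by omega))

private theorem fs_tail_mono' {x : EE} (hx : ∀ q : ℚ, Monotone (fun i : ℤ => x i q)) {R : ℝ}
    {m : ℕ} {q : ℚ} (h : TailOK R m q x) (i : ℤ) (hi : i < -(m : ℤ)) :
    x i q < ((-R : ℝ) : EReal) := lt_of_le_of_lt (hx q (by omega)) h.2

theorem incF_lower {x : EE} (hx : ∀ q : ℚ, Monotone (fun i : ℤ => x i q))
    (ha : (∀ i : ℤ, i < 0 → x i 0 ≤ 0) ∧ (∀ i : ℤ, 0 ≤ i → 0 ≤ x i 0))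
    (hT : ∀ R : ℝ, 0 < R → ∀ q : ℚ, ∃ m0 : ℕ, ∀ m ≥ m0, TailOK R m q x)
    (R : ℝ) (hR : 0 < R) (q : ℚ) (k : ℕ) (hk : ((2 * R : ℝ) : EReal) ≤ x k q) :
    (cntP R x : ℝ) - 2 * k ≤ incF (stp R (2 * R)) (2 * R) q 0 x := by
  classical
  have h2R : (0 : ℝ) < 2 * R := by linarith
  obtain ⟨m1, hm1⟩ := hT (2 * R) h2R q
  obtain ⟨m2, hm2⟩ := hT (2 * R) h2R 0
  set m := max m1 m2 with hm
  have hT1 := hm1 m (le_max_left _ _)
  have hT2 := hm2 m (le_max_right _ _)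
  rw [incF_eq_incS hx h2R hT1 hT2]
  unfold incS
  have hterm : ∀ i : ℤ, ((if 0 ≤ i ∧ x i 0 ≤ ((R : ℝ) : EReal) then (1 : ℝ) else 0) -
      (if 0 ≤ i ∧ i < (k : ℤ) then (2 : ℝ) else 0)) ≤
      extE (stp R (2 * R)) (2 * R) (x i q) - extE (stp R (2 * R)) (2 * R) (x i 0) := by
    intro i
    have e1 := fs_ext_nonneg R (2 * R) (2 * R) (x i q)
    have e2 := fs_ext_le_one R (2 * R) (2 * R) (x i 0)
    have e3 := fs_ext_nonneg R (2 * R) (2 * R) (x i 0)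
    rcases lt_or_ge i 0 with hi | hi
    · rw [if_neg (by omega), if_neg (by omega)]
      have : extE (stp R (2 * R)) (2 * R) (x i 0) = 0 := by
        refine fs_ext_zero h2R.le (by linarith) (by linarith) ((ha.1 i hi).trans ?_)
        exact_mod_cast hR.le
      rw [this]
      linarith
    · rcases lt_or_ge i (k : ℤ) with hik | hik
      · rw [if_pos (show 0 ≤ i ∧ i < (k : ℤ) from ⟨hi, hik⟩)]
        split_ifs <;> linarith
      · rw [if_neg (show ¬ (0 ≤ i ∧ i < (k : ℤ)) by omega)]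
        have h1 : extE (stp R (2 * R)) (2 * R) (x i q) = 1 :=
          fs_ext_one h2R.le (by linarith) le_rfl (hk.trans (hx q hik))
        rw [h1]
        split_ifs with h
        · have : extE (stp R (2 * R)) (2 * R) (x i 0) = 0 :=
            fs_ext_zero h2R.le (by linarith) (by linarith) h.2
          rw [this]
        · linarith
  refine le_trans ?_ (Finset.sum_le_sum fun i _ => hterm i)
  rw [Finset.sum_sub_distrib]
  have hA : (cntP R x : ℝ) = ∑ i ∈ Finset.Icc (-(m : ℤ)) m,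
      (if 0 ≤ i ∧ x i 0 ≤ ((R : ℝ) : EReal) then (1 : ℝ) else 0) := by
    rw [Finset.sum_boole]
    congr 1
    unfold cntP
    rw [← Set.ncard_coe_finset]
    congr 1
    ext i
    simp only [Finset.coe_filter, Finset.mem_Icc, Set.mem_ofPred_eq]
    constructor
    · rintro ⟨h1, h2⟩
      refine ⟨⟨by omega, ?_⟩, h1, h2⟩
      by_contra hc
      have := fs_tail_mono hx hT2 i (by omega)
      have h3 : ((2 * R : ℝ) : EReal) < ((R : ℝ) : EReal) := this.trans_le h2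
      rw [EReal.coe_lt_coe_iff] at h3
      linarith
    · rintro ⟨_, h⟩
      exact h
  have hB : ∑ i ∈ Finset.Icc (-(m : ℤ)) m, (if 0 ≤ i ∧ i < (k : ℤ) then (2 : ℝ) else 0) ≤ 2 * k := by
    rw [← Finset.sum_filter, Finset.sum_const, nsmul_eq_mul, mul_comm]
    have : (Finset.filter (fun i : ℤ => 0 ≤ i ∧ i < (k : ℤ)) (Finset.Icc (-(m : ℤ)) m)).card ≤ k := by
      calc _ ≤ (Finset.Ico (0 : ℤ) k).card := by
            apply Finset.card_le_card
            intro i hi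
            simp only [Finset.mem_filter, Finset.mem_Icc, Finset.mem_Ico] at hi ⊢
            exact hi.2
        _ = k := by simp
    have h' : ((Finset.filter (fun i : ℤ => 0 ≤ i ∧ i < (k : ℤ)) (Finset.Icc (-(m : ℤ)) m)).card : ℝ)
      ≤ k := by exact_mod_cast this
    linarith
  rw [hA]
  linarith

theorem incF_upper {x : EE} (hx : ∀ q : ℚ, Monotone (fun i : ℤ => x i q))
    (ha : (∀ i : ℤ, i < 0 → x i 0 ≤ 0) ∧ (∀ i : ℤ, 0 ≤ i → 0 ≤ x i 0))
    (hT : ∀ R : ℝ, 0 < R → ∀ q : ℚ, ∃ m0 : ℕ, ∀ m ≥ m0, TailOK R m q x)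
    (R : ℝ) (hR : 0 < R) (q : ℚ) (k : ℕ) (hk : x (-(k : ℤ) - 1) q ≤ ((-(2 * R) : ℝ) : EReal)) :
    incF (stp (-(2 * R)) (-R)) (2 * R) q 0 x ≤ 2 * k - (cntN R x : ℝ) := by
  classical
  have h2R : (0 : ℝ) < 2 * R := by linarith
  obtain ⟨m1, hm1⟩ := hT (2 * R) h2R q
  obtain ⟨m2, hm2⟩ := hT (2 * R) h2R 0
  set m := max m1 m2 with hm
  have hT1 := hm1 m (le_max_left _ _)
  have hT2 := hm2 m (le_max_right _ _)
  rw [incF_eq_incS hx h2R hT1 hT2]
  unfold incS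
  have hterm : ∀ i : ℤ, 
      extE (stp (-(2 * R)) (-R)) (2 * R) (x i q) - extE (stp (-(2 * R)) (-R)) (2 * R) (x i 0) ≤
      (if -(k : ℤ) ≤ i ∧ i < 0 then (2 : ℝ) else 0) -
      (if i < 0 ∧ ((-R : ℝ) : EReal) ≤ x i 0 then (1 : ℝ) else 0) := by
    intro i
    have e1 := fs_ext_nonneg (-(2 * R)) (-R) (2 * R) (x i 0)
    have e2 := fs_ext_le_one (-(2 * R)) (-R) (2 * R) (x i q)
    rcases lt_or_ge i 0 with hi | hi
    · rcases lt_or_ge i (-(k : ℤ)) with hik | hik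
      · rw [if_neg (show ¬ (-(k : ℤ) ≤ i ∧ i < 0) by omega)]
        have h1 : extE (stp (-(2 * R)) (-R)) (2 * R) (x i q) = 0 :=
          fs_ext_zero h2R.le (by linarith) (by linarith) ((hx q (show i ≤ -(k : ℤ) - 1 by omega)).trans hk)
        rw [h1]
        split_ifs with h
        · have : extE (stp (-(2 * R)) (-R)) (2 * R) (x i 0) = 1 :=
            fs_ext_one h2R.le (by linarith) (by linarith) h.2
          rw [this]
        · linarith
      · rw [if_pos (show (-(k : ℤ) ≤ i ∧ i < 0) from ⟨hik, hi⟩)]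
        split_ifs <;> linarith
    · rw [if_neg (by omega), if_neg (by omega)]
      have : extE (stp (-(2 * R)) (-R)) (2 * R) (x i 0) = 1 := by
        refine fs_ext_one h2R.le (by linarith) (by linarith) (le_trans ?_ (ha.2 i hi))
        have : ((-R : ℝ) : EReal) ≤ ((0 : ℝ) : EReal) := EReal.coe_le_coe_iff.2 (by linarith)
        simpa using this
      rw [this]
      linarith
  refine le_trans (Finset.sum_le_sum fun i _ => hterm i) ?_
  rw [Finset.sum_sub_distrib]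
  have hA : (cntN R x : ℝ) = ∑ i ∈ Finset.Icc (-(m : ℤ)) m,
      (if i < 0 ∧ ((-R : ℝ) : EReal) ≤ x i 0 then (1 : ℝ) else 0) := by
    rw [Finset.sum_boole]
    congr 1
    unfold cntN
    rw [← Set.ncard_coe_finset]
    congr 1
    ext i
    simp only [Finset.coe_filter, Finset.mem_Icc, Set.mem_ofPred_eq]
    constructor
    · rintro ⟨h1, h2⟩
      refine ⟨⟨?_, by omega⟩, h1, h2⟩
      by_contra hc
      have := fs_tail_mono' hx hT2 i (by omega)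
      have h3 : ((-R : ℝ) : EReal) < ((-(2 * R) : ℝ) : EReal) := h2.trans_lt this
      rw [EReal.coe_lt_coe_iff] at h3
      linarith
    · rintro ⟨_, h⟩
      exact h
  have hB : ∑ i ∈ Finset.Icc (-(m : ℤ)) m, (if -(k : ℤ) ≤ i ∧ i < 0 then (2 : ℝ) else 0) ≤ 2 * k := by
    rw [← Finset.sum_filter, Finset.sum_const, nsmul_eq_mul, mul_comm]
    have : (Finset.filter (fun i : ℤ => -(k : ℤ) ≤ i ∧ i < 0) (Finset.Icc (-(m : ℤ)) m)).card ≤ k := by
      calc _ ≤ (Finset.Ico (-(k : ℤ)) 0).card := by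
            apply Finset.card_le_card
            intro i hi
            simp only [Finset.mem_filter, Finset.mem_Icc, Finset.mem_Ico] at hi ⊢
            exact hi.2
        _ = k := by simp
    have h' : ((Finset.filter (fun i : ℤ => -(k : ℤ) ≤ i ∧ i < 0) (Finset.Icc (-(m : ℤ)) m)).card : ℝ)
      ≤ k := by exact_mod_cast this
    linarith
  rw [hA]
  linarith

/-- choice of the dyadic level -/
private theorem fs_level {R : ℝ} (hR : 1 ≤ R) : ∃ j : ℕ, (1 : ℝ) / 2 ^ j ≤ R ^ (-(2 / 3) : ℝ) ∧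
    (2 : ℝ) ^ (2 * j) ≤ 4 * R ^ (4 / 3 : ℝ) := by
  have hR0 : (0 : ℝ) < R := by linarith
  set s := R ^ (2 / 3 : ℝ) with hs
  have hs1 : 1 ≤ s := Real.one_le_rpow hR (by norm_num)
  have hss : R ^ (4 / 3 : ℝ) = s ^ 2 := by
    rw [hs, ← Real.rpow_natCast, ← Real.rpow_mul hR0.le]
    norm_num
  have hsi : R ^ (-(2 / 3) : ℝ) = s⁻¹ := by
    rw [hs, Real.rpow_neg hR0.le]
  obtain ⟨j, hj⟩ := pow_unbounded_of_one_lt s (by norm_num : (1 : ℝ) < 2)
  classical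
  have hex : ∃ j : ℕ, s ≤ (2 : ℝ) ^ j := ⟨j, hj.le⟩
  refine ⟨Nat.find hex, ?_, ?_⟩
  · rw [hsi, one_div]
    exact inv_anti₀ (by linarith) (Nat.find_spec hex)
  · rw [hss]
    have h2 : (2 : ℝ) ^ (Nat.find hex) ≤ 2 * s := by
      rcases Nat.eq_zero_or_pos (Nat.find hex) with h0 | h0
      · rw [h0]
        linarith [pow_zero (2 : ℝ)]
      · have h3 := Nat.find_min hex (m := Nat.find hex - 1) (by omega)
        have h4 : (2 : ℝ) ^ (Nat.find hex) = 2 * 2 ^ (Nat.find hex - 1) := by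
          rw [← pow_succ']
          congr 1
          omega
        rw [h4]
        linarith [not_le.1 h3]
    have h5 : (2 : ℝ) ^ (2 * Nat.find hex) = (2 ^ (Nat.find hex)) ^ 2 := by
      rw [← pow_mul]
      congr 1
      ring
    rw [h5]
    have h6 : (0 : ℝ) ≤ 2 ^ (Nat.find hex) := by positivity
    nlinarith

private theorem fs_incF_zero (f : ℝ → ℝ) (R : ℝ) (x : EE) : incF f R 0 0 x = 0 := by
  simp [incF]

/-- the probabilistic estimate used for both signs -/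
private theorem fs_prob {P : Measure EE} (hP : LimSpec P) (M : ℕ) (F : ℝ → ℝ → ℝ)
    (hF : ∀ R, Continuous (F R)) (C R0 : ℝ)
    (hmom : ∀ R ≥ R0, ∀ q q' : ℚ, |(q : ℝ)| ≤ M → |(q' : ℝ)| ≤ M →
      |(q : ℝ) - q'| ≤ R ^ (-(2 / 3) : ℝ) →
      ∫⁻ x, ENNReal.ofReal ((incF (F R) (2 * R) q q' x) ^ 4) ∂P ≤
        ENNReal.ofReal (C * R ^ (4 / 3 : ℝ) * ((q : ℝ) - q') ^ 2))
    (c : ℝ) (hc : 0 < c) (ε : ℝ) (hε : 0 < ε) :
    ∃ R1 : ℝ, ∀ R ≥ R1, P {x | ∃ q : ℚ, IsDy q ∧ |(q : ℝ)| ≤ M ∧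
      c * R ^ (4 / 3 : ℝ) < |incF (F R) (2 * R) q 0 x|} ≤ ENNReal.ofReal ε := by
  have := hP.prob
  set C' := max C 0 with hC'
  have hC'0 : 0 ≤ C' := le_max_right _ _
  set K := 10 ^ 7 * ((M : ℝ) + 1) ^ 4 * C' * 4 / c ^ 4 with hK
  have hK0 : 0 ≤ K := by positivity
  refine ⟨max (max R0 1) (K / ε), fun R hR => ?_⟩
  have hR0 : R0 ≤ R := (le_max_left _ _).trans ((le_max_left _ _).trans hR)
  have hR1 : 1 ≤ R := (le_max_right _ _).trans ((le_max_left _ _).trans hR)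
  have hRK : K / ε ≤ R := (le_max_right _ _).trans hR
  obtain ⟨j, hj1, hj2⟩ := fs_level hR1
  set r := R ^ (4 / 3 : ℝ) with hr
  have hrR : R ≤ r := by
    have := Real.rpow_le_rpow_of_exponent_le hR1 (by norm_num : (1 : ℝ) ≤ 4 / 3)
    simpa using this
  have hr0 : 0 < r := by linarith
  have key := chaining_sup P (fun q => incF (F R) (2 * R) q 0)
    (fun q => incF_aemeasurable hP (F R) (hF R) (2 * R) (by linarith) q 0) M (C' * r)
    (by positivity) j ?_ (c * r) (by positivity)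
  · have hset : {x : EE | ∃ q : ℚ, IsDy q ∧ |(q : ℝ)| ≤ M ∧
        c * r < |incF (F R) (2 * R) q 0 x|} = {x : EE | ∃ q : ℚ, IsDy q ∧ |(q : ℝ)| ≤ M ∧
        c * r < |incF (F R) (2 * R) q 0 x - incF (F R) (2 * R) 0 0 x|} := by
      ext x
      simp [fs_incF_zero]
    rw [hset]
    refine key.trans (ENNReal.ofReal_le_ofReal ?_)
    have h1 : 10 ^ 7 * ((M : ℝ) + 1) ^ 4 * (C' * r) * 2 ^ (2 * j) / (c * r) ^ 4 ≤
        10 ^ 7 * ((M : ℝ) + 1) ^ 4 * (C' * r) * (4 * r) / (c * r) ^ 4 := by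
      gcongr
    have h2 : 10 ^ 7 * ((M : ℝ) + 1) ^ 4 * (C' * r) * (4 * r) / (c * r) ^ 4 = K / r ^ 2 := by
      rw [hK]
      field_simp
    have h3 : K / r ^ 2 ≤ K / r := by
      apply div_le_div_of_nonneg_left hK0 hr0
      nlinarith
    have h4 : K / r ≤ ε := by
      rw [div_le_iff₀ hr0]
      rw [div_le_iff₀ hε] at hRK
      nlinarith
    linarith
  · intro q q' hq hq' hqq
    have h1 := hmom R hR0 q q' hq hq' (hqq.trans hj1)
    have h2 : ∫⁻ x, ENNReal.ofReal ((incF (F R) (2 * R) q 0 x - incF (F R) (2 * R) q' 0 x) ^ 4) ∂P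
        = ∫⁻ x, ENNReal.ofReal ((incF (F R) (2 * R) q q' x) ^ 4) ∂P := by
      apply lintegral_congr_ae
      filter_upwards [incF_sub hP (F R) (2 * R) (by linarith)] with x hx
      rw [hx q q']
    rw [h2]
    refine h1.trans (ENNReal.ofReal_le_ofReal ?_)
    have : C * r ≤ C' * r := mul_le_mul_of_nonneg_right (le_max_left _ _) hr0.le
    nlinarith [sq_nonneg ((q : ℝ) - q')]

/-- a decreasing family of events with arbitrarily small probabilities -/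
private theorem fs_ae_of_small {P : Measure EE} (E : ℕ → Set EE)
    (h : ∀ ε : ℝ, 0 < ε → ∃ n, P (E n) ≤ ENNReal.ofReal ε) : ∀ᵐ x ∂P, ∃ n, x ∉ E n := by
  rw [ae_iff]
  have hset : {x | ¬ ∃ n, x ∉ E n} ⊆ ⋂ n, E n := by
    intro x hx
    simp only [Set.mem_iInter]
    intro n
    by_contra hc
    exact hx ⟨n, hc⟩
  refine le_antisymm ?_ zero_le
  refine ENNReal.le_of_forall_pos_le_add fun ε hε _ => ?_
  rw [zero_add]
  obtain ⟨n, hn⟩ := h ε (by exact_mod_cast hε)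
  refine (measure_mono (hset.trans (Set.iInter_subset _ n))).trans (hn.trans ?_)
  rw [ENNReal.ofReal_coe_nnreal]

/-- finiteness of all labels, locally uniformly over dyadic times -/
theorem fin_sup {P : Measure EE} (hP : LimSpec P)
    (hmany : ∃ c : ℝ, 0 < c ∧ ∀ ε : ℝ, 0 < ε → ∃ R0 : ℝ, ∀ R ≥ R0,
      P {x | (cntP R x : ℝ) < c * R ^ (4 / 3 : ℝ)} ≤ ENNReal.ofReal ε ∧
      P {x | (cntN R x : ℝ) < c * R ^ (4 / 3 : ℝ)} ≤ ENNReal.ofReal ε) :
    ∀ᵐ x ∂P, ∀ (k : ℤ) (M : ℕ), ∃ B : ℝ, ∀ q : ℚ, IsDy q → |(q : ℝ)| ≤ M →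
      ((-B : ℝ) : EReal) ≤ x k q ∧ x k q ≤ ((B : ℝ) : EReal) := by
  have := hP.prob
  obtain ⟨c, hc, hcnt⟩ := hmany
  -- upper bounds
  have hup : ∀ (k M : ℕ), ∀ᵐ x ∂P, ∃ n : ℕ, x ∉ {x : EE | ∃ q : ℚ, IsDy q ∧ |(q : ℝ)| ≤ M ∧
      ((2 * (n : ℝ) : ℝ) : EReal) ≤ x k q} := by
    intro k M
    apply fs_ae_of_small
    intro ε hε
    obtain ⟨C, R0, hmom⟩ := incF_momentR hP (M : ℝ)
    obtain ⟨R1, hR1⟩ := fs_prob hP M (fun R => stp R (2 * R)) (fun R => fs_stp_cont) C R0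
      (fun R hR q q' hq hq' hqq => (hmom R hR q q' hq hq' hqq).1) (c / 2) (by linarith)
      (ε / 2) (by linarith)
    obtain ⟨R2, hR2⟩ := hcnt (ε / 2) (by linarith)
    obtain ⟨n, hn⟩ := exists_nat_gt (max (max R1 R2) (max 1 (4 * k / c)))
    refine ⟨n, ?_⟩
    have hnR1 : R1 ≤ (n : ℝ) := ((le_max_left _ _).trans (le_max_left _ _)).trans hn.le
    have hnR2 : R2 ≤ (n : ℝ) := ((le_max_right _ _).trans (le_max_left _ _)).trans hn.le
    have hn1 : 1 ≤ (n : ℝ) := ((le_max_left _ _).trans (le_max_right _ _)).trans hn.le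
    have hnk : 4 * k / c < (n : ℝ) := lt_of_le_of_lt ((le_max_right _ _).trans (le_max_right _ _)) hn
    have hrn : (n : ℝ) ≤ (n : ℝ) ^ (4 / 3 : ℝ) := by
      have := Real.rpow_le_rpow_of_exponent_le hn1 (by norm_num : (1 : ℝ) ≤ 4 / 3)
      simpa using this
    have hck : 2 * (k : ℝ) < c / 2 * (n : ℝ) ^ (4 / 3 : ℝ) := by
      rw [div_lt_iff₀ hc] at hnk
      nlinarith
    set N : Set EE := {x | ¬ ((∀ q : ℚ, Monotone (fun i : ℤ => x i q)) ∧
      ((∀ i : ℤ, i < 0 → x i 0 ≤ 0) ∧ (∀ i : ℤ, 0 ≤ i → 0 ≤ x i 0)) ∧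
      (∀ R : ℝ, 0 < R → ∀ q : ℚ, ∃ m0 : ℕ, ∀ m ≥ m0, TailOK R m q x))} with hN
    have hN0 : P N = 0 := by
      have : ∀ᵐ x ∂P, ((∀ q : ℚ, Monotone (fun i : ℤ => x i q)) ∧
        ((∀ i : ℤ, i < 0 → x i 0 ≤ 0) ∧ (∀ i : ℤ, 0 ≤ i → 0 ≤ x i 0)) ∧
        (∀ R : ℝ, 0 < R → ∀ q : ℚ, ∃ m0 : ℕ, ∀ m ≥ m0, TailOK R m q x)) := by
        filter_upwards [hP.mono, hP.anch, ae_tailOK hP] with x h1 h2 h3
        exact ⟨h1, h2, h3⟩
      exact ae_iff.1 this
    have hsub : {x : EE | ∃ q : ℚ, IsDy q ∧ |(q : ℝ)| ≤ M ∧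
        ((2 * (n : ℝ) : ℝ) : EReal) ≤ x k q} ⊆
        ({x | (cntP n x : ℝ) < c * (n : ℝ) ^ (4 / 3 : ℝ)} ∪
        {x | ∃ q : ℚ, IsDy q ∧ |(q : ℝ)| ≤ M ∧
          c / 2 * (n : ℝ) ^ (4 / 3 : ℝ) < |incF (stp n (2 * n)) (2 * n) q 0 x|}) ∪ N := by
      rintro x ⟨q, hq1, hq2, hq3⟩
      by_cases hxN : x ∈ N
      · exact Or.inr hxN
      · left
        rw [hN, Set.mem_ofPred_eq, not_not] at hxN
        by_cases hcx : (cntP n x : ℝ) < c * (n : ℝ) ^ (4 / 3 : ℝ)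
        · exact Or.inl hcx
        · right
          refine ⟨q, hq1, hq2, ?_⟩
          have := incF_lower hxN.1 hxN.2.1 hxN.2.2 n (by linarith) q k hq3
          refine lt_of_lt_of_le ?_ (le_abs_self _)
          have := not_lt.1 hcx
          linarith
    refine (measure_mono hsub).trans ?_
    refine (measure_union_le _ _).trans ?_
    rw [hN0, add_zero]
    refine (measure_union_le _ _).trans ?_
    have h1 := (hR2 n hnR2).1
    have h2 := hR1 n hnR1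
    refine (add_le_add h1 h2).trans ?_
    rw [← ENNReal.ofReal_add (by linarith) (by linarith)]
    apply ENNReal.ofReal_le_ofReal
    linarith
  -- lower bounds
  have hlo : ∀ (k M : ℕ), ∀ᵐ x ∂P, ∃ n : ℕ, x ∉ {x : EE | ∃ q : ℚ, IsDy q ∧ |(q : ℝ)| ≤ M ∧
      x (-(k : ℤ) - 1) q ≤ ((-(2 * (n : ℝ)) : ℝ) : EReal)} := by
    intro k M
    apply fs_ae_of_small
    intro ε hε
    obtain ⟨C, R0, hmom⟩ := incF_momentR hP (M : ℝ)
    obtain ⟨R1, hR1⟩ := fs_prob hP M (fun R => stp (-(2 * R)) (-R)) (fun R => fs_stp_cont) C R0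
      (fun R hR q q' hq hq' hqq => (hmom R hR q q' hq hq' hqq).2) (c / 2) (by linarith)
      (ε / 2) (by linarith)
    obtain ⟨R2, hR2⟩ := hcnt (ε / 2) (by linarith)
    obtain ⟨n, hn⟩ := exists_nat_gt (max (max R1 R2) (max 1 (4 * k / c)))
    refine ⟨n, ?_⟩
    have hnR1 : R1 ≤ (n : ℝ) := ((le_max_left _ _).trans (le_max_left _ _)).trans hn.le
    have hnR2 : R2 ≤ (n : ℝ) := ((le_max_right _ _).trans (le_max_left _ _)).trans hn.le
    have hn1 : 1 ≤ (n : ℝ) := ((le_max_left _ _).trans (le_max_right _ _)).trans hn.le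
    have hnk : 4 * k / c < (n : ℝ) := lt_of_le_of_lt ((le_max_right _ _).trans (le_max_right _ _)) hn
    have hrn : (n : ℝ) ≤ (n : ℝ) ^ (4 / 3 : ℝ) := by
      have := Real.rpow_le_rpow_of_exponent_le hn1 (by norm_num : (1 : ℝ) ≤ 4 / 3)
      simpa using this
    have hck : 2 * (k : ℝ) < c / 2 * (n : ℝ) ^ (4 / 3 : ℝ) := by
      rw [div_lt_iff₀ hc] at hnk
      nlinarith
    set N : Set EE := {x | ¬ ((∀ q : ℚ, Monotone (fun i : ℤ => x i q)) ∧
      ((∀ i : ℤ, i < 0 → x i 0 ≤ 0) ∧ (∀ i : ℤ, 0 ≤ i → 0 ≤ x i 0)) ∧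
      (∀ R : ℝ, 0 < R → ∀ q : ℚ, ∃ m0 : ℕ, ∀ m ≥ m0, TailOK R m q x))} with hN
    have hN0 : P N = 0 := by
      have : ∀ᵐ x ∂P, ((∀ q : ℚ, Monotone (fun i : ℤ => x i q)) ∧
        ((∀ i : ℤ, i < 0 → x i 0 ≤ 0) ∧ (∀ i : ℤ, 0 ≤ i → 0 ≤ x i 0)) ∧
        (∀ R : ℝ, 0 < R → ∀ q : ℚ, ∃ m0 : ℕ, ∀ m ≥ m0, TailOK R m q x)) := by
        filter_upwards [hP.mono, hP.anch, ae_tailOK hP] with x h1 h2 h3
        exact ⟨h1, h2, h3⟩
      exact ae_iff.1 this
    have hsub : {x : EE | ∃ q : ℚ, IsDy q ∧ |(q : ℝ)| ≤ M ∧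
        x (-(k : ℤ) - 1) q ≤ ((-(2 * (n : ℝ)) : ℝ) : EReal)} ⊆
        ({x | (cntN n x : ℝ) < c * (n : ℝ) ^ (4 / 3 : ℝ)} ∪
        {x | ∃ q : ℚ, IsDy q ∧ |(q : ℝ)| ≤ M ∧
          c / 2 * (n : ℝ) ^ (4 / 3 : ℝ) < |incF (stp (-(2 * n)) (-n)) (2 * n) q 0 x|}) ∪ N := by
      rintro x ⟨q, hq1, hq2, hq3⟩
      by_cases hxN : x ∈ N
      · exact Or.inr hxN
      · left
        rw [hN, Set.mem_ofPred_eq, not_not] at hxN
        by_cases hcx : (cntN n x : ℝ) < c * (n : ℝ) ^ (4 / 3 : ℝ)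
        · exact Or.inl hcx
        · right
          refine ⟨q, hq1, hq2, ?_⟩
          have := incF_upper hxN.1 hxN.2.1 hxN.2.2 n (by linarith) q k hq3
          refine lt_of_lt_of_le ?_ (neg_le_abs _)
          have := not_lt.1 hcx
          linarith
    refine (measure_mono hsub).trans ?_
    refine (measure_union_le _ _).trans ?_
    rw [hN0, add_zero]
    refine (measure_union_le _ _).trans ?_
    have h1 := (hR2 n hnR2).2
    have h2 := hR1 n hnR1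
    refine (add_le_add h1 h2).trans ?_
    rw [← ENNReal.ofReal_add (by linarith) (by linarith)]
    apply ENNReal.ofReal_le_ofReal
    linarith
  have hup' : ∀ᵐ x ∂P, ∀ (k M : ℕ), ∃ n : ℕ, x ∉ {x : EE | ∃ q : ℚ, IsDy q ∧ |(q : ℝ)| ≤ M ∧
      ((2 * (n : ℝ) : ℝ) : EReal) ≤ x k q} := by
    rw [ae_all_iff]
    intro k
    rw [ae_all_iff]
    intro M
    exact hup k M
  have hlo' : ∀ᵐ x ∂P, ∀ (k M : ℕ), ∃ n : ℕ, x ∉ {x : EE | ∃ q : ℚ, IsDy q ∧ |(q : ℝ)| ≤ M ∧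
      x (-(k : ℤ) - 1) q ≤ ((-(2 * (n : ℝ)) : ℝ) : EReal)} := by
    rw [ae_all_iff]
    intro k
    rw [ae_all_iff]
    intro M
    exact hlo k M
  filter_upwards [hP.mono, hup', hlo'] with x hx h1 h2
  intro k M
  obtain ⟨n1, hn1⟩ := h1 k.toNat M
  obtain ⟨n2, hn2⟩ := h2 (-k).toNat M
  refine ⟨max (2 * (n1 : ℝ)) (2 * (n2 : ℝ)), fun q hq hqM => ⟨?_, ?_⟩⟩
  · have h3 : ((-(2 * (n2 : ℝ)) : ℝ) : EReal) < x (-(((-k).toNat : ℕ) : ℤ) - 1) q := by
      by_contra hc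
      exact hn2 ⟨q, hq, hqM, not_lt.1 hc⟩
    have h4 : x (-(((-k).toNat : ℕ) : ℤ) - 1) q ≤ x k q := hx q (by omega)
    refine le_trans ?_ (h3.le.trans h4)
    rw [EReal.coe_le_coe_iff]
    linarith [le_max_right (2 * (n1 : ℝ)) (2 * (n2 : ℝ))]
  · have h3 : x ((k.toNat : ℕ) : ℤ) q < ((2 * (n1 : ℝ) : ℝ) : EReal) := by
      by_contra hc
      exact hn1 ⟨q, hq, hqM, not_lt.1 hc⟩
    have h4 : x k q ≤ x ((k.toNat : ℕ) : ℤ) q := hx q (by omega)
    refine (h4.trans h3.le).trans ?_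
    rw [EReal.coe_le_coe_iff]
    exact le_max_left _ _

end Pool.Agent.H.MP_5ad92a_pr
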