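import Pool.Agent.H.MP_5ad92a_pr.Defs

/-!
# Absolute convergence of the double contour integral of the problem
-/

set_option autoImplicit false

noncomputable section

open MeasureTheory Filter Topology Set

namespace Pool.Agent.H.MP_5ad92a_pr

namespace KI

theorem integrable_abs_of_Ioi {f : ℝ → ℝ} (hf : IntegrableOn f (Ioi 0)) :
    Integrable fun x => f |x| := by
  have h1 : IntegrableOn (fun x => f |x|) (Ioi 0) := by
    refine hf.congr_fun (fun x hx => ?_) measurableSet_Ioi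
    rw [abs_of_pos hx]
  have h2 : IntegrableOn (fun x ↦ f |x|) (Iic 0) := by
    rw [← Measure.map_neg_eq_self (volume : Measure ℝ)]
    let m : MeasurableEmbedding fun x : ℝ => -x := (Homeomorph.neg ℝ).measurableEmbedding
    rw [m.integrableOn_map_iff]
    simp_rw [Function.comp_def, abs_neg, neg_preimage, neg_Iic, neg_zero]
    exact Iff.mpr integrableOn_Ici_iff_integrableOn_Ioi h1
  rw [← integrableOn_univ, ← Iic_union_Ioi (a := (0 : ℝ))]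
  exact h2.union h1

/-- the four directions -/
theorem dir_facts {d : ℂ}
    (hd : d = cis (Real.pi / 4) ∨ d = -cis (Real.pi / 4) ∨ d = cis (-(Real.pi / 4)) ∨
      d = -cis (-(Real.pi / 4))) :
    d.re ^ 2 = 1 / 2 ∧ d.im ^ 2 = 1 / 2 := by
  have h1 : (cis (Real.pi / 4)).re = √2 / 2 := by
    unfold cis; rw [Complex.exp_ofReal_mul_I_re, Real.cos_pi_div_four]
  have h2 : (cis (Real.pi / 4)).im = √2 / 2 := by
    unfold cis; rw [Complex.exp_ofReal_mul_I_im, Real.sin_pi_div_four]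
  have h3 : (cis (-(Real.pi / 4))).re = √2 / 2 := by
    unfold cis; rw [Complex.exp_ofReal_mul_I_re, Real.cos_neg, Real.cos_pi_div_four]
  have h4 : (cis (-(Real.pi / 4))).im = -(√2 / 2) := by
    unfold cis; rw [Complex.exp_ofReal_mul_I_im, Real.sin_neg, Real.sin_pi_div_four]
  have hs : (√2 : ℝ) ^ 2 = 2 := Real.sq_sqrt (by norm_num)
  rcases hd with rfl | rfl | rfl | rfl
  · rw [h1, h2]; constructor <;> nlinarith
  · rw [Complex.neg_re, Complex.neg_im, h1, h2]; constructor <;> nlinarith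
  · rw [h3, h4]; constructor <;> nlinarith
  · rw [Complex.neg_re, Complex.neg_im, h3, h4]; constructor <;> nlinarith

/-- real part of the exponent -/
theorem exponent_re (σ x τ y r u : ℝ) {d : ℂ} (h1 : d.re ^ 2 = 1 / 2) (h2 : d.im ^ 2 = 1 / 2) :
    (-((u : ℂ) * Complex.I) ^ 4 / 4 + (τ : ℂ) * ((u : ℂ) * Complex.I) ^ 2 / 2
        - (y : ℂ) * ((u : ℂ) * Complex.I) + ((r : ℂ) * d) ^ 4 / 4 - (σ : ℂ) * ((r : ℂ) * d) ^ 2 / 2
        + (x : ℂ) * ((r : ℂ) * d)).re =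
      (-u ^ 4 / 4 - τ * u ^ 2 / 2) + (-r ^ 4 / 4 + x * (r * d.re)) := by
  have e1 : ((u : ℂ) * Complex.I) ^ 4 = ((u ^ 4 : ℝ) : ℂ) := by
    rw [mul_pow, Complex.I_pow_four]; push_cast; ring
  have e2 : ((u : ℂ) * Complex.I) ^ 2 = ((-u ^ 2 : ℝ) : ℂ) := by
    rw [mul_pow, Complex.I_sq]; push_cast; ring
  have hd2 : d ^ 2 = ((2 * d.re * d.im : ℝ) : ℂ) * Complex.I := by
    apply Complex.ext
    · simp only [sq, Complex.mul_re, Complex.ofReal_re, Complex.ofReal_im, Complex.I_re,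
        Complex.I_im]
      nlinarith
    · simp only [sq, Complex.mul_im, Complex.ofReal_re, Complex.ofReal_im, Complex.I_re,
        Complex.I_im]
      ring
  have hd4 : d ^ 4 = -1 := by
    have : d ^ 4 = (d ^ 2) ^ 2 := by ring
    rw [this, hd2, mul_pow, Complex.I_sq]
    have h3 : (2 * d.re * d.im : ℝ) ^ 2 = 1 := by
      have : (2 * d.re * d.im : ℝ) ^ 2 = 4 * d.re ^ 2 * d.im ^ 2 := by ring
      rw [this, h1, h2]; norm_num
    rw [← Complex.ofReal_pow, h3]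
    norm_num
  have e3 : ((r : ℂ) * d) ^ 4 = ((-r ^ 4 : ℝ) : ℂ) := by
    rw [mul_pow, hd4]; push_cast; ring
  have e4 : ((r : ℂ) * d) ^ 2 = ((r ^ 2 * (2 * d.re * d.im) : ℝ) : ℂ) * Complex.I := by
    rw [mul_pow, hd2]; push_cast; ring
  rw [e1, e2, e3, e4]
  have e5 : -((u ^ 4 : ℝ) : ℂ) / 4 + (τ : ℂ) * ((-u ^ 2 : ℝ) : ℂ) / 2
      - (y : ℂ) * ((u : ℂ) * Complex.I) + ((-r ^ 4 : ℝ) : ℂ) / 4
      - (σ : ℂ) * (((r ^ 2 * (2 * d.re * d.im) : ℝ) : ℂ) * Complex.I) / 2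
      + (x : ℂ) * ((r : ℂ) * d) =
      (((-u ^ 4 / 4 - τ * u ^ 2 / 2) + (-r ^ 4 / 4) : ℝ) : ℂ) +
        ((-y * u - σ * (r ^ 2 * (2 * d.re * d.im)) / 2 : ℝ) : ℂ) * Complex.I +
        ((x * r : ℝ) : ℂ) * d := by
    push_cast; ring
  rw [e5]
  simp only [Complex.add_re, Complex.mul_re, Complex.ofReal_re, Complex.ofReal_im, Complex.I_re,
    Complex.I_im]
  ring

/-- the denominator -/
theorem denom_bound {r u : ℝ} (hr : 0 < r) (hu : u ≠ 0) {d : ℂ} (h1 : d.re ^ 2 = 1 / 2)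
    (h2 : d.im ^ 2 = 1 / 2) :
    ‖(u : ℂ) * Complex.I - (r : ℂ) * d‖⁻¹ ≤ 2 * (r ^ (-(1 / 2) : ℝ) * |u| ^ (-(1 / 2) : ℝ)) := by
  have hu' : 0 < |u| := abs_pos.2 hu
  have hpow : ∀ z : ℝ, 0 < z → z ^ (-(1 / 2) : ℝ) = (√z)⁻¹ := by
    intro z hz
    rw [Real.rpow_neg hz.le, Real.sqrt_eq_rpow]
  rw [hpow r hr, hpow _ hu']
  have h3 : ‖(u : ℂ) * Complex.I - (r : ℂ) * d‖ ^ 2 = r ^ 2 + u ^ 2 - 2 * u * r * d.im := by
    rw [← Complex.normSq_eq_norm_sq, Complex.normSq_apply]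
    simp only [Complex.sub_re, Complex.sub_im, Complex.mul_re, Complex.mul_im, Complex.ofReal_re,
      Complex.ofReal_im, Complex.I_re, Complex.I_im]
    ring_nf
    nlinarith
  have h4 : |d.im| ≤ 3 / 4 := by
    rw [abs_le]; constructor <;> nlinarith
  have h5 : u * d.im ≤ |u| * (3 / 4) := by
    calc u * d.im ≤ |u * d.im| := le_abs_self _
      _ = |u| * |d.im| := abs_mul _ _
      _ ≤ _ := mul_le_mul_of_nonneg_left h4 hu'.le
  have h6 : (1 / 4) * (r * |u|) ≤ ‖(u : ℂ) * Complex.I - (r : ℂ) * d‖ ^ 2 := by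
    rw [h3]
    have h7 : u ^ 2 = |u| ^ 2 := (sq_abs u).symm
    have h8 : 2 * u * r * d.im ≤ 2 * r * (|u| * (3 / 4)) := by
      have := mul_le_mul_of_nonneg_left h5 (by positivity : (0 : ℝ) ≤ 2 * r)
      linarith
    have h9 : 0 < r * |u| := by positivity
    nlinarith [sq_nonneg (r - |u|)]
  have h7 : (1 / 2) * (√r * √|u|) ≤ ‖(u : ℂ) * Complex.I - (r : ℂ) * d‖ := by
    apply le_of_sq_le_sq _ (norm_nonneg _)
    calc ((1 / 2) * (√r * √|u|)) ^ 2 = (1 / 4) * (√r ^ 2 * √|u| ^ 2) := by ring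
      _ = (1 / 4) * (r * |u|) := by rw [Real.sq_sqrt hr.le, Real.sq_sqrt hu'.le]
      _ ≤ _ := h6
  have h8 : 0 < (1 / 2) * (√r * √|u|) := by
    have := Real.sqrt_pos.2 hr
    have := Real.sqrt_pos.2 hu'
    positivity
  calc ‖(u : ℂ) * Complex.I - (r : ℂ) * d‖⁻¹ ≤ ((1 / 2) * (√r * √|u|))⁻¹ :=
        inv_anti₀ h8 h7
    _ = 2 * ((√r)⁻¹ * (√|u|)⁻¹) := by
        rw [mul_inv, mul_inv]; norm_num

end KI

/-- The double contour integral of the problem converges absolutely on each of the four rays. -/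
theorem pearcey_integrable (σ x τ y : ℝ) (d : ℂ)
    (hd : d = cis (Real.pi / 4) ∨ d = -cis (Real.pi / 4) ∨ d = cis (-(Real.pi / 4)) ∨ d = -cis (-(Real.pi / 4))) :
    Integrable (fun p : ℝ × ℝ =>
      Complex.exp (-((p.2 : ℂ) * Complex.I) ^ 4 / 4 + (τ : ℂ) * ((p.2 : ℂ) * Complex.I) ^ 2 / 2
        - (y : ℂ) * ((p.2 : ℂ) * Complex.I) + ((p.1 : ℂ) * d) ^ 4 / 4 - (σ : ℂ) * ((p.1 : ℂ) * d) ^ 2 / 2
        + (x : ℂ) * ((p.1 : ℂ) * d)) / ((p.2 : ℂ) * Complex.I - (p.1 : ℂ) * d))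
      ((volume.restrict (Set.Ioi (0 : ℝ))).prod volume) := by
  obtain ⟨h1, h2⟩ := KI.dir_facts hd
  set C1 : ℝ := Real.exp ((1 - τ / 2) ^ 2) with hC1
  set C2 : ℝ := Real.exp (9 / 4 + x ^ 2 / 2) with hC2
  have hbase : IntegrableOn (fun z : ℝ => z ^ (-(1 / 2) : ℝ) * Real.exp (-1 * z ^ 2)) (Ioi 0) :=
    integrableOn_rpow_mul_exp_neg_mul_sq one_pos (by norm_num)
  have hg1 : Integrable (fun r : ℝ => C2 * (r ^ (-(1 / 2) : ℝ) * Real.exp (-1 * r ^ 2)))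
      (volume.restrict (Ioi 0)) := hbase.const_mul _
  have hg2 : Integrable (fun u : ℝ => 2 * C1 * (|u| ^ (-(1 / 2) : ℝ) * Real.exp (-1 * |u| ^ 2))) :=
    (KI.integrable_abs_of_Ioi hbase).const_mul _
  refine (hg1.mul_prod hg2).mono' ?_ ?_
  · apply Measurable.aestronglyMeasurable
    fun_prop
  · have a1 : ∀ᵐ p ∂((volume.restrict (Set.Ioi (0 : ℝ))).prod (volume : Measure ℝ)), 0 < p.1 :=
      Measure.quasiMeasurePreserving_fst.ae (ae_restrict_mem measurableSet_Ioi)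
    have a2 : ∀ᵐ p ∂((volume.restrict (Set.Ioi (0 : ℝ))).prod (volume : Measure ℝ)), p.2 ≠ 0 :=
      Measure.quasiMeasurePreserving_snd.ae (Measure.ae_ne volume 0)
    filter_upwards [a1, a2] with p hp1 hp2
    rw [norm_div, Complex.norm_exp, KI.exponent_re σ x τ y p.1 p.2 h1 h2, Real.exp_add,
      div_eq_mul_inv]
    have b1 : Real.exp (-p.2 ^ 4 / 4 - τ * p.2 ^ 2 / 2) ≤ C1 * Real.exp (-1 * |p.2| ^ 2) := by
      rw [hC1, ← Real.exp_add, sq_abs]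
      apply Real.exp_le_exp.2
      nlinarith [sq_nonneg (p.2 ^ 2 / 2 - (1 - τ / 2))]
    have b2 : Real.exp (-p.1 ^ 4 / 4 + x * (p.1 * d.re)) ≤ C2 * Real.exp (-1 * p.1 ^ 2) := by
      rw [hC2, ← Real.exp_add]
      apply Real.exp_le_exp.2
      have h3 : x * (p.1 * d.re) ≤ x ^ 2 / 2 + p.1 ^ 2 / 2 := by
        have h4 : (p.1 * d.re) ^ 2 = p.1 ^ 2 / 2 := by rw [mul_pow, h1]; ring
        nlinarith [sq_nonneg (x - p.1 * d.re), sq_nonneg p.1]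
      nlinarith [sq_nonneg (p.1 ^ 2 / 2 - 3 / 2)]
    have b3 := KI.denom_bound hp1 hp2 h1 h2
    have c1 : 0 ≤ Real.exp (-p.2 ^ 4 / 4 - τ * p.2 ^ 2 / 2) := (Real.exp_pos _).le
    have c2 : 0 ≤ Real.exp (-p.1 ^ 4 / 4 + x * (p.1 * d.re)) := (Real.exp_pos _).le
    have c3 : 0 ≤ ‖(p.2 : ℂ) * Complex.I - (p.1 : ℂ) * d‖⁻¹ := inv_nonneg.2 (norm_nonneg _)
    calc Real.exp (-p.2 ^ 4 / 4 - τ * p.2 ^ 2 / 2) * Real.exp (-p.1 ^ 4 / 4 + x * (p.1 * d.re)) *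
          ‖(p.2 : ℂ) * Complex.I - (p.1 : ℂ) * d‖⁻¹
        ≤ (C1 * Real.exp (-1 * |p.2| ^ 2)) * (C2 * Real.exp (-1 * p.1 ^ 2)) *
          (2 * (p.1 ^ (-(1 / 2) : ℝ) * |p.2| ^ (-(1 / 2) : ℝ))) :=
        mul_le_mul (mul_le_mul b1 b2 c2 (c1.trans b1)) b3 c3
          (mul_nonneg (c1.trans b1) (c2.trans b2))
      _ = _ := by ring

end Pool.Agent.H.MP_5ad92a_pr
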