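import Pool.Agent.H.MP_5ad92a_pr.Labels

/-!
# Existence of the limit law (P2)
-/

set_option autoImplicit false

noncomputable section

open MeasureTheory Filter Topology Set
open scoped ENNReal

namespace Pool.Agent.H.MP_5ad92a_pr

namespace LimAux

/-- weak limit along an ultrafilter -/
theorem exists_weak (ν : ℕ → Measure EE) (hν : ∀ l, IsProbabilityMeasure (ν l)) :
    ∃ (U : Ultrafilter ℕ) (Q : Measure EE), (U : Filter ℕ) ≤ atTop ∧ IsProbabilityMeasure Q ∧
     (∀ G : Set EE, IsOpen G → ∀ ε : ℝ≥0∞, (∀ᶠ l in (U : Filter ℕ), ν l G ≤ ε) → Q G ≤ ε) ∧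
     (∀ F : EE → ℝ, Continuous F →
      Tendsto (fun l => ∫ x, F x ∂(ν l)) (U : Filter ℕ) (𝓝 (∫ x, F x ∂Q))) := by
  let νp : ℕ → ProbabilityMeasure EE := fun l => ⟨ν l, hν l⟩
  let U : Ultrafilter ℕ := Ultrafilter.of atTop
  have hU : (U : Filter ℕ) ≤ atTop := Ultrafilter.of_le atTop
  have hlim : Tendsto νp (U : Filter ℕ) (𝓝 (U.map νp).lim) := (U.map νp).le_nhds_lim
  refine ⟨U, ((U.map νp).lim : ProbabilityMeasure EE), hU, inferInstance, ?_, ?_⟩
  · intro G hG ε hε
    have h1 := ProbabilityMeasure.le_liminf_measure_open_of_tendsto hlim hG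
    refine le_trans h1 ?_
    exact le_trans (liminf_le_limsup) (limsup_le_of_le (by isBoundedDefault) hε)
  · intro F hF
    have h1 := (ProbabilityMeasure.tendsto_iff_forall_integral_tendsto.1 hlim)
      (BoundedContinuousFunction.mkOfCompact ⟨F, hF⟩)
    exact h1

theorem isOpen_tailOK (R : ℝ) (m : ℕ) (q : ℚ) : IsOpen {x : EE | TailOK R m q x} := by
  unfold TailOK
  have h1 : IsOpen {x : EE | ((R : ℝ) : EReal) < x ((m : ℤ) + 1) q} :=
    isOpen_lt continuous_const (by fun_prop)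
  have h2 : IsOpen {x : EE | x (-(m : ℤ) - 1) q < ((-R : ℝ) : EReal)} :=
    isOpen_lt (by fun_prop) continuous_const
  exact h1.inter h2

/-- integrals over open sets are lower semicontinuous -/
theorem lintegral_open_le (ν : ℕ → Measure EE) (U : Ultrafilter ℕ) (Q : Measure EE)
    [hν : ∀ l, IsProbabilityMeasure (ν l)]
    [IsProbabilityMeasure Q]
    (hlim : ∀ F : EE → ℝ, Continuous F →
      Tendsto (fun l => ∫ x, F x ∂(ν l)) (U : Filter ℕ) (𝓝 (∫ x, F x ∂Q)))
    (O : Set EE) (hO : IsOpen O) (F : EE → ℝ) (hF : Continuous F) (hF0 : ∀ x, 0 ≤ F x)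
    (C : ℝ) (hC : 0 ≤ C)
    (h : ∀ᶠ l in (U : Filter ℕ), ∫⁻ x in O, ENNReal.ofReal (F x) ∂(ν l) ≤ ENNReal.ofReal C) :
    ∫⁻ x in O, ENNReal.ofReal (F x) ∂Q ≤ ENNReal.ofReal C := by
  let _ : MetricSpace EE := TopologicalSpace.metrizableSpaceMetric EE
  have hcl : IsClosed Oᶜ := hO.isClosed_compl
  -- approximating functions
  let g : ℕ → EE → ℝ := fun n x => min 1 ((n : ℝ) * Metric.infDist x Oᶜ)
  have hgc : ∀ n, Continuous (g n) := fun n => by
    have := Metric.continuous_infDist_pt (Oᶜ : Set EE)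
    exact continuous_const.min (continuous_const.mul this)
  have hg0 : ∀ n x, 0 ≤ g n x := fun n x =>
    le_min zero_le_one (mul_nonneg (Nat.cast_nonneg n) Metric.infDist_nonneg)
  have hg1 : ∀ n x, g n x ≤ 1 := fun n x => min_le_left _ _
  have hgO : ∀ n x, x ∉ O → g n x = 0 := by
    intro n x hx
    have : Metric.infDist x Oᶜ = 0 := Metric.infDist_zero_of_mem hx
    simp [g, this]
  have hmono : ∀ x, Monotone fun n => g n x := by
    intro x n n' hnn
    refine min_le_min_left _ ?_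
    exact mul_le_mul_of_nonneg_right (by exact_mod_cast hnn) Metric.infDist_nonneg
  by_cases hne : (Oᶜ : Set EE).Nonempty
  swap
  · -- `O` is everything
    have hOu : O = univ := by
      rw [Set.not_nonempty_iff_eq_empty] at hne
      simpa using hne
    subst hOu
    simp only [Measure.restrict_univ] at h ⊢
    obtain ⟨B, hB⟩ := isCompact_univ.exists_bound_of_continuousOn hF.continuousOn
    have hint : ∀ (ρ : Measure EE) [IsProbabilityMeasure ρ], Integrable F ρ := fun ρ _ =>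
      Integrable.of_bound hF.aestronglyMeasurable B
        (Filter.Eventually.of_forall fun x => hB x (mem_univ _))
    rw [← ofReal_integral_eq_lintegral_ofReal (hint Q) (Filter.Eventually.of_forall hF0)]
    apply ENNReal.ofReal_le_ofReal
    refine le_of_tendsto (hlim F hF) ?_
    filter_upwards [h] with l hl
    rw [← ofReal_integral_eq_lintegral_ofReal (hint (ν l)) (Filter.Eventually.of_forall hF0)] at hl
    exact (ENNReal.ofReal_le_ofReal_iff hC).1 hl
  have hpos : ∀ x ∈ O, ∃ n0, ∀ n ≥ n0, g n x = 1 := by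
    intro x hx
    have hd : 0 < Metric.infDist x Oᶜ := by
      have : x ∉ (Oᶜ : Set EE) := fun h => h hx
      exact (hcl.notMem_iff_infDist_pos hne).1 this
    obtain ⟨n0, hn0⟩ := exists_nat_ge (1 / Metric.infDist x Oᶜ)
    refine ⟨n0, fun n hn => ?_⟩
    apply min_eq_left
    have h1 : (1 / Metric.infDist x Oᶜ) ≤ n := le_trans hn0 (by exact_mod_cast hn)
    rw [div_le_iff₀ hd] at h1
    exact h1
  -- pointwise supremum
  have hsup : ∀ x, (O.indicator (fun x => ENNReal.ofReal (F x))) x =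
      ⨆ n, ENNReal.ofReal (g n x * F x) := by
    intro x
    by_cases hx : x ∈ O
    · rw [indicator_of_mem hx]
      obtain ⟨n0, hn0⟩ := hpos x hx
      apply le_antisymm
      · refine le_iSup_of_le n0 ?_
        rw [hn0 n0 le_rfl, one_mul]
      · refine iSup_le fun n => ENNReal.ofReal_le_ofReal ?_
        have := mul_le_mul_of_nonneg_right (hg1 n x) (hF0 x)
        linarith
    · rw [indicator_of_notMem hx]
      simp [hgO _ x hx]
  rw [← lintegral_indicator hO.measurableSet]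
  simp_rw [hsup]
  rw [lintegral_iSup]
  · refine iSup_le fun n => ?_
    have hGc : Continuous fun x => g n x * F x := (hgc n).mul hF
    have hG0 : ∀ x, 0 ≤ g n x * F x := fun x => mul_nonneg (hg0 n x) (hF0 x)
    obtain ⟨B, hB⟩ := isCompact_univ.exists_bound_of_continuousOn hGc.continuousOn
    have hint : ∀ (ρ : Measure EE) [IsProbabilityMeasure ρ], Integrable (fun x => g n x * F x) ρ :=
      fun ρ _ => Integrable.of_bound hGc.aestronglyMeasurable B
        (Filter.Eventually.of_forall fun x => hB x (mem_univ _))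
    rw [← ofReal_integral_eq_lintegral_ofReal (hint Q) (Filter.Eventually.of_forall hG0)]
    apply ENNReal.ofReal_le_ofReal
    refine le_of_tendsto (hlim _ hGc) ?_
    filter_upwards [h] with l hl
    rw [← ENNReal.ofReal_le_ofReal_iff hC,
      ofReal_integral_eq_lintegral_ofReal (hint (ν l)) (Filter.Eventually.of_forall hG0)]
    refine le_trans ?_ hl
    rw [← lintegral_indicator hO.measurableSet]
    apply lintegral_mono
    intro x
    rw [hsup x]
    exact le_iSup (fun n => ENNReal.ofReal (g n x * F x)) n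
  · intro n
    exact ((hgc n).mul hF).measurable.ennreal_ofReal
  · intro n n' hnn x
    exact ENNReal.ofReal_le_ofReal (mul_le_mul_of_nonneg_right (hmono x hnn) (hF0 x))

/-- the labelled law of the system `l` -/
def nu (A : Approx) (l : ℕ) : Measure EE :=
  (A.μ l).map (fun ω => lab (fun q j => A.X l q j ω))

theorem measurable_lb (A : Approx) (l : ℕ) :
    Measurable (fun ω => lab (fun q j => A.X l q j ω)) :=
  lab_measurable (A.X l) (A.measX l)

instance (A : Approx) (l : ℕ) : IsProbabilityMeasure (nu A l) :=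
  Measure.isProbabilityMeasure_map (measurable_lb A l).aemeasurable

theorem stp_le {a b z : ℝ} (hab : a < b) (hz : z ≤ a) : stp a b z = 0 := by
  unfold stp
  apply max_eq_left
  refine le_trans (min_le_right _ _) ?_
  exact div_nonpos_of_nonpos_of_nonneg (by linarith) (by linarith)

theorem stp_ge {a b z : ℝ} (hab : a < b) (hz : b ≤ z) : stp a b z = 1 := by
  unfold stp
  have h1 : 1 ≤ (z - a) / (b - a) := by
    rw [le_div_iff₀ (by linarith)]
    linarith
  rw [min_eq_left h1]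
  norm_num

theorem continuous_stp (a b : ℝ) : Continuous (stp a b) := by
  unfold stp
  fun_prop

theorem stp_mem (a b z : ℝ) : 0 ≤ stp a b z ∧ stp a b z ≤ 1 :=
  ⟨le_max_left _ _, max_le zero_le_one (min_le_left _ _)⟩

theorem measurable_card (A : Approx) (l : ℕ) (q : ℚ) (R : ℝ) :
    Measurable fun ω => (((Finset.univ.filter fun i => |A.X l q i ω| ≤ R).card : ℝ≥0∞)) := by
  have h : (fun ω => (((Finset.univ.filter fun i => |A.X l q i ω| ≤ R).card : ℝ≥0∞))) =
      fun ω => ∑ i : Fin (A.n l), (if |A.X l q i ω| ≤ R then (1 : ℝ≥0∞) else 0) := by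
    funext ω
    rw [Finset.sum_boole]
  rw [h]
  refine Finset.measurable_sum _ fun i _ => ?_
  refine Measurable.ite ?_ measurable_const measurable_const
  exact measurableSet_le ((A.measX l q i).abs) measurable_const

theorem measurable_sumstp (A : Approx) (l : ℕ) (a b : ℝ) (q q' : ℚ) :
    Measurable fun ω => ∑ i, (stp a b (A.X l q i ω) - stp a b (A.X l q' i ω)) := by
  refine Finset.measurable_sum _ fun i _ => ?_
  exact ((continuous_stp a b).measurable.comp (A.measX l q i)).sub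
    ((continuous_stp a b).measurable.comp (A.measX l q' i))

theorem tail_prelim (A : Approx) (R M : ℝ) (hR : 0 < R) :
    ∃ K : ℝ, 0 ≤ K ∧ ∀ m : ℕ, 1 ≤ m → ∀ q : ℚ, |(q : ℝ)| ≤ M → ∀ᶠ l in atTop,
      A.μ l {ω | ¬ TailOK R m q (lab (fun q j => A.X l q j ω))} ≤ ENNReal.ofReal (K / (m + 1)) := by
  obtain ⟨C1, h1⟩ := A.mom 1 (R + 1) |M|
  obtain ⟨C2, h2⟩ := A.inc R (R + 1) |M| (by linarith)
  obtain ⟨C3, h3⟩ := A.inc (-(R + 1)) (-R) |M| (by linarith)
  refine ⟨2 * (|C1| + |C2| * M ^ 2 + |C3| * M ^ 2), by positivity, ?_⟩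
  intro m hm q hq
  have hM0 : |((0 : ℚ) : ℝ)| ≤ |M| := by simp
  have hMq : |(q : ℝ)| ≤ |M| := le_trans hq (le_abs_self M)
  have hq2 : ((q : ℝ) - (0 : ℚ)) ^ 2 ≤ M ^ 2 := by
    rw [Rat.cast_zero, sub_zero]
    exact sq_le_sq.2 hMq
  filter_upwards [h1 0 hM0, h2 q 0 hMq hM0, h3 q 0 hMq hM0] with l g1 g2 g3
  set f : A.Ω l → ℝ≥0∞ := fun ω =>
    (((Finset.univ.filter fun i => |A.X l 0 i ω| ≤ R + 1).card : ℝ≥0∞)) ^ 1 +
    ENNReal.ofReal ((∑ i, (stp R (R + 1) (A.X l q i ω) - stp R (R + 1) (A.X l 0 i ω))) ^ 4) +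
    ENNReal.ofReal ((∑ i, (stp (-(R + 1)) (-R) (A.X l q i ω) -
      stp (-(R + 1)) (-R) (A.X l 0 i ω))) ^ 4) with hf
  have hfm : Measurable f := by
    refine ((measurable_card A l 0 (R + 1)).pow_const 1).add ?_ |>.add ?_
    · exact ((measurable_sumstp A l R (R + 1) q 0).pow_const 4).ennreal_ofReal
    · exact ((measurable_sumstp A l (-(R + 1)) (-R) q 0).pow_const 4).ennreal_ofReal
  have hm1 : (1 : ℝ) ≤ ((m : ℝ) + 1) / 2 := by
    have : (1 : ℝ) ≤ m := by exact_mod_cast hm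
    linarith
  have hsub : {ω | ¬ TailOK R m q (lab (fun q j => A.X l q j ω))} ⊆
      {ω | ENNReal.ofReal (((m : ℝ) + 1) / 2) ≤ f ω} := by
    intro ω hω
    have hlt := lab_tail (fun q j => A.X l q j ω) m q R hR hω
    set N : ℕ := (Finset.univ.filter fun i => |A.X l 0 i ω| ≤ R + 1).card with hN
    set S1 : ℝ := ∑ i, (stp R (R + 1) (A.X l q i ω) - stp R (R + 1) (A.X l 0 i ω)) with hS1
    set S2 : ℝ := ∑ i, (stp (-(R + 1)) (-R) (A.X l q i ω) - stp (-(R + 1)) (-R) (A.X l 0 i ω))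
      with hS2
    have hfω : f ω = ENNReal.ofReal ((N : ℝ) + S1 ^ 4 + S2 ^ 4) := by
      rw [ENNReal.ofReal_add (by positivity) (by positivity),
        ENNReal.ofReal_add (by positivity) (by positivity), ENNReal.ofReal_natCast]
      simp only [hf, pow_one]
      rfl
    show ENNReal.ofReal (((m : ℝ) + 1) / 2) ≤ f ω
    rw [hfω]
    apply ENNReal.ofReal_le_ofReal
    have hN0 : (0 : ℝ) ≤ N := Nat.cast_nonneg N
    have key : ∀ S : ℝ, ((m : ℝ) + 1) / 2 ≤ |S| → ((m : ℝ) + 1) / 2 ≤ S ^ 4 := by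
      intro S hS
      have h4 : S ^ 4 = |S| ^ 4 := by
        rw [← abs_pow, abs_of_nonneg (by positivity)]
      rw [h4]
      have : |S| ^ 1 ≤ |S| ^ 4 := pow_le_pow_right₀ (le_trans hm1 hS) (by norm_num)
      rw [pow_one] at this
      linarith
    have p1 : 0 ≤ S1 ^ 4 := by positivity
    have p2 : 0 ≤ S2 ^ 4 := by positivity
    rcases hlt with hlt | hlt
    · by_cases hc : ((m : ℝ) + 1) / 2 ≤ N
      · linarith
      · have : ((m : ℝ) + 1) / 2 ≤ |S1| := by
          have h5 : ((m : ℝ) + 1) / 2 ≤ -S1 := by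
            push Not at hc
            change (m : ℝ) + 1 ≤ N - S1 at hlt
            linarith
          exact le_trans h5 (neg_le_abs S1)
        have := key S1 this
        linarith
    · by_cases hc : ((m : ℝ) + 1) / 2 ≤ N
      · linarith
      · have : ((m : ℝ) + 1) / 2 ≤ |S2| := by
          have h5 : ((m : ℝ) + 1) / 2 ≤ S2 := by
            push Not at hc
            change (m : ℝ) + 1 ≤ N + S2 at hlt
            linarith
          exact le_trans h5 (le_abs_self S2)
        have := key S2 this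
        linarith
  refine le_trans (measure_mono hsub) ?_
  refine le_trans (meas_ge_le_lintegral_div hfm.aemeasurable ?_ ENNReal.ofReal_ne_top) ?_
  · simp only [ne_eq, ENNReal.ofReal_eq_zero, not_le]
    linarith
  rw [ENNReal.div_le_iff (by simp only [ne_eq, ENNReal.ofReal_eq_zero, not_le]; linarith)
    ENNReal.ofReal_ne_top]
  rw [← ENNReal.ofReal_mul (by positivity)]
  have hfin : ∫⁻ ω, f ω ∂(A.μ l) ≤ ENNReal.ofReal (|C1| + |C2| * M ^ 2 + |C3| * M ^ 2) := by
    simp only [hf]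
    rw [lintegral_add_left, lintegral_add_left]
    · rw [ENNReal.ofReal_add (by positivity) (by positivity),
        ENNReal.ofReal_add (by positivity) (by positivity)]
      refine add_le_add (add_le_add ?_ ?_) ?_
      · exact le_trans g1 (ENNReal.ofReal_le_ofReal (le_abs_self _))
      · refine le_trans g2 (ENNReal.ofReal_le_ofReal ?_)
        exact mul_le_mul (le_abs_self _) hq2 (sq_nonneg _) (abs_nonneg _)
      · refine le_trans g3 (ENNReal.ofReal_le_ofReal ?_)
        exact mul_le_mul (le_abs_self _) hq2 (sq_nonneg _) (abs_nonneg _)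
    · exact (measurable_card A l 0 (R + 1)).pow_const 1
    · exact ((measurable_card A l 0 (R + 1)).pow_const 1).add
        ((measurable_sumstp A l R (R + 1) q 0).pow_const 4).ennreal_ofReal
  refine le_trans hfin (ENNReal.ofReal_le_ofReal (le_of_eq ?_))
  field_simp

/-! ### first properties of the limit -/

theorem nu_apply (A : Approx) (l : ℕ) {s : Set EE} (hs : MeasurableSet s) :
    nu A l s = A.μ l {ω | lab (fun q j => A.X l q j ω) ∈ s} := by
  unfold nu
  rw [Measure.map_apply (measurable_lb A l) hs]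
  rfl

theorem lim_mono (A : Approx) (U : Ultrafilter ℕ) (Q : Measure EE)
    (hop : ∀ G : Set EE, IsOpen G → ∀ ε : ℝ≥0∞,
      (∀ᶠ l in (U : Filter ℕ), nu A l G ≤ ε) → Q G ≤ ε) :
    ∀ᵐ x ∂Q, ∀ q : ℚ, Monotone (fun i : ℤ => x i q) := by
  have h : ∀ (q : ℚ) (i : ℤ), ∀ᵐ x ∂Q, x i q ≤ x (i + 1) q := by
    intro q i
    have hO : IsOpen {x : EE | x (i + 1) q < x i q} := isOpen_lt (by fun_prop) (by fun_prop)
    have h0 : Q {x : EE | x (i + 1) q < x i q} ≤ 0 := by
      refine hop _ hO 0 (Filter.Eventually.of_forall fun l => ?_)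
      rw [nu_apply A l hO.measurableSet]
      have : {ω | lab (fun q j => A.X l q j ω) ∈ {x : EE | x (i + 1) q < x i q}} = ∅ := by
        ext ω
        simp only [mem_ofPred_eq, mem_empty_iff_false, iff_false, not_lt]
        exact lab_mono _ q (by omega : i ≤ i + 1)
      rw [this, measure_empty]
    have h1 : Q {x : EE | x (i + 1) q < x i q} = 0 := nonpos_iff_eq_zero.1 h0
    rw [ae_iff]
    simpa only [not_le] using h1
  have h2 : ∀ᵐ x ∂Q, ∀ (q : ℚ) (i : ℤ), x i q ≤ x (i + 1) q := by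
    rw [ae_all_iff]
    intro q
    rw [ae_all_iff]
    exact h q
  filter_upwards [h2] with x hx q
  exact monotone_int_of_le_succ (hx q)

theorem lim_anch (A : Approx) (U : Ultrafilter ℕ) (Q : Measure EE)
    (hop : ∀ G : Set EE, IsOpen G → ∀ ε : ℝ≥0∞,
      (∀ᶠ l in (U : Filter ℕ), nu A l G ≤ ε) → Q G ≤ ε) :
    ∀ᵐ x ∂Q, (∀ i : ℤ, i < 0 → x i 0 ≤ 0) ∧ (∀ i : ℤ, 0 ≤ i → 0 ≤ x i 0) := by
  have h : ∀ i : ℤ, ∀ᵐ x ∂Q, i < 0 → x i 0 ≤ 0 := by
    intro i
    by_cases hi : i < 0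
    swap
    · exact Filter.Eventually.of_forall fun x hx => absurd hx hi
    have hO : IsOpen {x : EE | 0 < x i 0} := isOpen_lt continuous_const (by fun_prop)
    have h0 : Q {x : EE | 0 < x i 0} ≤ 0 := by
      refine hop _ hO 0 (Filter.Eventually.of_forall fun l => ?_)
      rw [nu_apply A l hO.measurableSet]
      have : {ω | lab (fun q j => A.X l q j ω) ∈ {x : EE | 0 < x i 0}} = ∅ := by
        ext ω
        simp only [mem_ofPred_eq, mem_empty_iff_false, iff_false, not_lt]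
        exact (lab_anch _).1 i hi
      rw [this, measure_empty]
    have h1 : Q {x : EE | 0 < x i 0} = 0 := nonpos_iff_eq_zero.1 h0
    have h2 : ∀ᵐ x ∂Q, x i 0 ≤ 0 := by
      rw [ae_iff]
      simpa only [not_le] using h1
    filter_upwards [h2] with x hx _ using hx
  have h' : ∀ i : ℤ, ∀ᵐ x ∂Q, 0 ≤ i → 0 ≤ x i 0 := by
    intro i
    by_cases hi : 0 ≤ i
    swap
    · exact Filter.Eventually.of_forall fun x hx => absurd hx hi
    have hO : IsOpen {x : EE | x i 0 < 0} := isOpen_lt (by fun_prop) continuous_const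
    have h0 : Q {x : EE | x i 0 < 0} ≤ 0 := by
      refine hop _ hO 0 (Filter.Eventually.of_forall fun l => ?_)
      rw [nu_apply A l hO.measurableSet]
      have : {ω | lab (fun q j => A.X l q j ω) ∈ {x : EE | x i 0 < 0}} = ∅ := by
        ext ω
        simp only [mem_ofPred_eq, mem_empty_iff_false, iff_false, not_lt]
        exact (lab_anch _).2 i hi
      rw [this, measure_empty]
    have h1 : Q {x : EE | x i 0 < 0} = 0 := nonpos_iff_eq_zero.1 h0
    have h2 : ∀ᵐ x ∂Q, 0 ≤ x i 0 := by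
      rw [ae_iff]
      simpa only [not_le] using h1
    filter_upwards [h2] with x hx _ using hx
  filter_upwards [ae_all_iff.2 h, ae_all_iff.2 h'] with x h1 h2 using ⟨h1, h2⟩

theorem lim_tail (A : Approx) (U : Ultrafilter ℕ) (hU : (U : Filter ℕ) ≤ atTop) (Q : Measure EE)
    (hop : ∀ G : Set EE, IsOpen G → ∀ ε : ℝ≥0∞,
      (∀ᶠ l in (U : Filter ℕ), nu A l G ≤ ε) → Q G ≤ ε) (R M ε : ℝ) (hR : 0 < R) (hε : 0 < ε) :
    ∃ m0 : ℕ, ∀ m ≥ m0, ∀ q : ℚ, |(q : ℝ)| ≤ M →
      Q {x | ¬ TailOK R m q x} ≤ ENNReal.ofReal ε := by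
  obtain ⟨K, hK, h⟩ := tail_prelim A (R + 1) M (by linarith)
  obtain ⟨m1, hm1⟩ := exists_nat_ge (K / ε)
  refine ⟨max 1 m1, fun m hm q hq => ?_⟩
  have hm1' : 1 ≤ m := le_trans (le_max_left _ _) hm
  have hm2 : m1 ≤ m := le_trans (le_max_right _ _) hm
  have hO : IsOpen ({x : EE | x ((m : ℤ) + 1) q < ((R + 1 : ℝ) : EReal)} ∪
      {x : EE | ((-(R + 1) : ℝ) : EReal) < x (-(m : ℤ) - 1) q}) :=
    (isOpen_lt (by fun_prop) continuous_const).union (isOpen_lt continuous_const (by fun_prop))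
  have hsub : {x : EE | ¬ TailOK R m q x} ⊆ {x : EE | x ((m : ℤ) + 1) q < ((R + 1 : ℝ) : EReal)} ∪
      {x : EE | ((-(R + 1) : ℝ) : EReal) < x (-(m : ℤ) - 1) q} := by
    intro x hx
    simp only [mem_ofPred_eq, TailOK, not_and_or, not_lt] at hx
    rcases hx with hx | hx
    · left
      refine lt_of_le_of_lt hx ?_
      exact EReal.coe_lt_coe_iff.2 (by linarith)
    · right
      refine lt_of_lt_of_le ?_ hx
      exact EReal.coe_lt_coe_iff.2 (by linarith)
  refine le_trans (measure_mono hsub) ?_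
  refine hop _ hO _ ?_
  filter_upwards [hU (h m hm1' q hq)] with l hl
  rw [nu_apply A l hO.measurableSet]
  refine le_trans (measure_mono ?_) (le_trans hl (ENNReal.ofReal_le_ofReal ?_))
  · intro ω hω
    simp only [mem_ofPred_eq, mem_union] at hω
    simp only [mem_ofPred_eq, TailOK, not_and_or, not_lt]
    rcases hω with hω | hω
    · left; exact hω.le
    · right; exact hω.le
  · have hm3 : K / ε ≤ m := le_trans hm1 (by exact_mod_cast hm2)
    rw [div_le_iff₀ (by positivity)]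
    rw [div_le_iff₀ hε] at hm3
    nlinarith

/-! ### increments -/

theorem continuous_incS (m : ℕ) {f : ℝ → ℝ} (hf : Continuous f) (R : ℝ) (q q' : ℚ) :
    Continuous (incS m f R q q') := by
  unfold incS
  have h := continuous_extE hf R
  refine continuous_finsetSum _ fun i _ => ?_
  exact (h.comp (by fun_prop : Continuous fun x : EE => x i q)).sub
    (h.comp (by fun_prop : Continuous fun x : EE => x i q'))

theorem lim_inc (A : Approx) (U : Ultrafilter ℕ) (hU : (U : Filter ℕ) ≤ atTop) (Q : Measure EE)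
    [IsProbabilityMeasure Q]
    (hlim : ∀ F : EE → ℝ, Continuous F →
      Tendsto (fun l => ∫ x, F x ∂(nu A l)) (U : Filter ℕ) (𝓝 (∫ x, F x ∂Q)))
    (a b R C : ℝ) (hab : a < b) (hR : 0 < R) (ha : |a| ≤ R) (hb : |b| ≤ R) (hC : 0 ≤ C) (q q' : ℚ)
    (h : ∀ᶠ l in atTop, ∫⁻ ω, ENNReal.ofReal
      ((∑ i, (stp a b (A.X l q i ω) - stp a b (A.X l q' i ω))) ^ 4) ∂(A.μ l) ≤ ENNReal.ofReal C)
    (m : ℕ) :
    ∫⁻ x in {x | TailOK R m q x ∧ TailOK R m q' x}, ENNReal.ofReal
      ((incS m (stp a b) R q q' x) ^ 4) ∂Q ≤ ENNReal.ofReal C := by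
  have hO : IsOpen {x : EE | TailOK R m q x ∧ TailOK R m q' x} :=
    (isOpen_tailOK R m q).inter (isOpen_tailOK R m q')
  have hc : Continuous fun x : EE => (incS m (stp a b) R q q' x) ^ 4 :=
    (continuous_incS m (continuous_stp a b) R q q').pow 4
  have hl : ∀ z, z ≤ -R → stp a b z = stp a b (-R) := by
    intro z hz
    have : -R ≤ a := by
      have := neg_abs_le a
      linarith
    rw [stp_le hab (le_trans hz this), stp_le hab this]
  have hr : ∀ z, R ≤ z → stp a b z = stp a b R := by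
    intro z hz
    have : b ≤ R := le_trans (le_abs_self b) hb
    rw [stp_ge hab (le_trans this hz), stp_ge hab this]
  refine lintegral_open_le (nu A) U Q hlim _ hO _ hc (fun x => by positivity) C hC ?_
  filter_upwards [hU h] with l hl'
  refine le_trans ?_ hl'
  unfold nu
  rw [setLIntegral_map hO.measurableSet hc.measurable.ennreal_ofReal (measurable_lb A l)]
  have hms : MeasurableSet ((fun ω => lab (fun q j => A.X l q j ω)) ⁻¹'
      {x : EE | TailOK R m q x ∧ TailOK R m q' x}) :=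
    measurable_lb A l hO.measurableSet
  rw [← lintegral_indicator hms]
  apply lintegral_mono
  intro ω
  by_cases hω : ω ∈ (fun ω => lab (fun q j => A.X l q j ω)) ⁻¹'
      {x : EE | TailOK R m q x ∧ TailOK R m q' x}
  · rw [indicator_of_mem hω]
    rw [mem_preimage, mem_ofPred_eq] at hω
    rw [incS_lab_eq (fun q j => A.X l q j ω) m q q' (stp a b) R hR hl hr hω.1 hω.2]
  · rw [indicator_of_notMem hω]
    exact bot_le

/-! ### correlations -/

theorem continuous_markS {k : ℕ} (m : ℕ) (q : Fin k → ℚ) {f : Fin k → ℝ → ℝ}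
    (hf : ∀ c, Continuous (f c)) (R : ℝ) : Continuous (markS m q f R) := by
  unfold markS
  refine continuous_finsetSum _ fun ι _ => ?_
  refine continuous_finsetProd _ fun c _ => ?_
  exact (continuous_extE (hf c) R).comp (by fun_prop : Continuous fun x : EE => x (ι c) (q c))

theorem prod_sq_le {k : ℕ} (N : Fin k → ℕ) :
    ∏ c, ((N c : ℝ)) ^ 2 ≤ 1 + ∑ c, ((N c : ℝ)) ^ (2 * k) := by
  rcases Nat.eq_zero_or_pos k with hk | hk
  · subst hk
    simp
  · have : Nonempty (Fin k) := ⟨⟨0, hk⟩⟩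
    obtain ⟨c0, hc0⟩ := Finite.exists_max N
    have h1 : ∏ c, ((N c : ℝ)) ^ 2 ≤ ∏ _c : Fin k, ((N c0 : ℝ)) ^ 2 := by
      refine Finset.prod_le_prod (fun c _ => by positivity) fun c _ => ?_
      have : (N c : ℝ) ≤ N c0 := by exact_mod_cast hc0 c
      exact pow_le_pow_left₀ (Nat.cast_nonneg _) this 2
    have h2 : ∏ _c : Fin k, ((N c0 : ℝ)) ^ 2 = ((N c0 : ℝ)) ^ (2 * k) := by
      rw [Finset.prod_const, Finset.card_univ, Fintype.card_fin, pow_mul]
    have h3 : ((N c0 : ℝ)) ^ (2 * k) ≤ ∑ c, ((N c : ℝ)) ^ (2 * k) :=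
      Finset.single_le_sum (f := fun c => ((N c : ℝ)) ^ (2 * k))
        (fun c _ => by positivity) (Finset.mem_univ c0)
    linarith

theorem phi_le {k n : ℕ} (q : Fin k → ℚ) (y : ℚ → Fin n → ℝ) (f : Fin k → ℝ → ℝ) (R B : ℝ)
    (hf : ∀ c z, 0 ≤ f c z) (hf0 : ∀ c z, R ≤ |z| → f c z = 0) (hB : ∀ c z, f c z ≤ B) :
    0 ≤ (∑ ι : Fin k → Fin n with Adm q ι, ∏ c, f c (y (q c) (ι c))) ∧
    (∑ ι : Fin k → Fin n with Adm q ι, ∏ c, f c (y (q c) (ι c))) ≤
      ∏ c, (B * ((Finset.univ.filter fun i => |y (q c) i| ≤ R).card : ℝ)) := by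
  constructor
  · exact Finset.sum_nonneg fun ι _ => Finset.prod_nonneg fun c _ => hf _ _
  · have h1 : (∑ ι : Fin k → Fin n with Adm q ι, ∏ c, f c (y (q c) (ι c))) ≤
        ∑ ι : Fin k → Fin n, ∏ c, f c (y (q c) (ι c)) :=
      Finset.sum_le_sum_of_subset_of_nonneg (Finset.filter_subset _ _)
        fun ι _ _ => Finset.prod_nonneg fun c _ => hf _ _
    refine le_trans h1 ?_
    have h2 : ∑ ι : Fin k → Fin n, ∏ c, f c (y (q c) (ι c)) =
        ∏ c, ∑ i, f c (y (q c) i) := by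
      rw [Finset.prod_univ_sum]
      simp
    rw [h2]
    refine Finset.prod_le_prod (fun c _ => Finset.sum_nonneg fun i _ => hf _ _) fun c _ => ?_
    have h3 : ∀ i, f c (y (q c) i) ≤ if |y (q c) i| ≤ R then B else 0 := by
      intro i
      split_ifs with h
      · exact hB _ _
      · exact le_of_eq (hf0 _ _ (not_le.1 h).le)
    refine le_trans (Finset.sum_le_sum fun i _ => h3 i) ?_
    rw [← Finset.sum_filter, Finset.sum_const, nsmul_eq_mul, mul_comm]

theorem phi_sq_le {k n : ℕ} (q : Fin k → ℚ) (y : ℚ → Fin n → ℝ) (f : Fin k → ℝ → ℝ) (R B : ℝ)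
    (hf : ∀ c z, 0 ≤ f c z) (hf0 : ∀ c z, R ≤ |z| → f c z = 0) (hB : ∀ c z, f c z ≤ B)
    (hB0 : 0 ≤ B) :
    (∑ ι : Fin k → Fin n with Adm q ι, ∏ c, f c (y (q c) (ι c))) ^ 2 ≤
      B ^ (2 * k) *
        (1 + ∑ c, ((Finset.univ.filter fun i => |y (q c) i| ≤ R).card : ℝ) ^ (2 * k)) := by
  obtain ⟨h0, h1⟩ := phi_le q y f R B hf hf0 hB
  refine le_trans (pow_le_pow_left₀ h0 h1 2) ?_
  rw [Finset.prod_mul_distrib, mul_pow, Finset.prod_const, Finset.card_univ, Fintype.card_fin,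
    ← pow_mul, mul_comm k 2, ← Finset.prod_pow]
  exact mul_le_mul_of_nonneg_left (prod_sq_le _) (by positivity)

theorem measurable_phi (A : Approx) (l : ℕ) {k : ℕ} (q : Fin k → ℚ) (f : Fin k → ℝ → ℝ)
    (hf : ∀ c, Continuous (f c)) :
    Measurable fun ω => ∑ ι : Fin k → Fin (A.n l) with Adm q ι,
      ∏ c, f c (A.X l (q c) (ι c) ω) := by
  refine Finset.measurable_sum _ fun ι _ => ?_
  refine Finset.measurable_prod _ fun c _ => ?_
  exact (hf c).measurable.comp (A.measX l (q c) (ι c))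

theorem integrable_phi (A : Approx) (l : ℕ) {k : ℕ} (q : Fin k → ℚ) (f : Fin k → ℝ → ℝ)
    (hf : ∀ c, Continuous (f c)) (R B : ℝ)
    (hfn : ∀ c z, 0 ≤ f c z) (hf0 : ∀ c z, R ≤ |z| → f c z = 0) (hB : ∀ c z, f c z ≤ B)
    (hB0 : 0 ≤ B) :
    Integrable (fun ω => ∑ ι : Fin k → Fin (A.n l) with Adm q ι,
      ∏ c, f c (A.X l (q c) (ι c) ω)) (A.μ l) := by
  refine Integrable.of_bound (measurable_phi A l q f hf).aestronglyMeasurable
    (∏ _c : Fin k, (B * (A.n l : ℝ))) (Filter.Eventually.of_forall fun ω => ?_)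
  obtain ⟨h0, h1⟩ := phi_le q (fun q j => A.X l q j ω) f R B hfn hf0 hB
  rw [Real.norm_eq_abs, abs_of_nonneg h0]
  refine le_trans h1 ?_
  refine Finset.prod_le_prod (fun c _ => by positivity) fun c _ => ?_
  refine mul_le_mul_of_nonneg_left ?_ hB0
  have : (Finset.univ.filter fun i => |A.X l (q c) i ω| ≤ R).card ≤ A.n l := by
    refine le_trans (Finset.card_filter_le _ _) ?_
    simp
  exact_mod_cast this

theorem ofReal_bd (a : ℝ) (ha : 0 ≤ a) {k p : ℕ} (N : Fin k → ℕ) :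
    ENNReal.ofReal (a * (1 + ∑ c, (N c : ℝ) ^ p)) =
      ENNReal.ofReal a * (1 + ∑ c, (N c : ℝ≥0∞) ^ p) := by
  have h9 : ∀ c, ENNReal.ofReal ((N c : ℝ) ^ p) = ((N c : ℝ≥0∞)) ^ p := by
    intro c
    rw [ENNReal.ofReal_pow (Nat.cast_nonneg _), ENNReal.ofReal_natCast]
  rw [ENNReal.ofReal_mul ha,
    ENNReal.ofReal_add zero_le_one (Finset.sum_nonneg fun c _ => by positivity),
    ENNReal.ofReal_sum_of_nonneg (fun c _ => by positivity), ENNReal.ofReal_one,
    Finset.sum_congr rfl fun c _ => h9 c]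

theorem corr_prelim (A : Approx) {k : ℕ} (f : Fin k → ℝ → ℝ) (hf : ∀ c, Continuous (f c))
    (R M B : ℝ) (hR : 0 < R)
    (hfn : ∀ c z, 0 ≤ f c z) (hf0 : ∀ c z, R ≤ |z| → f c z = 0) (hB : ∀ c z, f c z ≤ B)
    (hB0 : 0 ≤ B) :
    ∃ K : ℝ, 0 ≤ K ∧ ∀ δ : ℝ, 0 < δ → ∀ m : ℕ, 1 ≤ m → ∀ q : Fin k → ℚ,
      (∀ c, |(q c : ℝ)| ≤ M) → ∀ᶠ l in atTop,
      |(∫ ω, markS m q f R (lab (fun q j => A.X l q j ω)) ∂(A.μ l)) -
        ∫ ω, (∑ ι : Fin k → Fin (A.n l) with Adm q ι, ∏ c, f c (A.X l (q c) (ι c) ω)) ∂(A.μ l)| ≤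
        δ * K + K / (δ * (m + 1)) := by
  obtain ⟨C, hC⟩ := A.mom (2 * k) R M
  obtain ⟨K2, hK2, hT⟩ := tail_prelim A R M hR
  refine ⟨B ^ (2 * k) * (1 + k * |C|) + k * K2, by positivity, ?_⟩
  intro δ hδ m hm q hq
  have e1 : ∀ᶠ l in atTop, ∀ c : Fin k,
      ∫⁻ ω, (((Finset.univ.filter fun i => |A.X l (q c) i ω| ≤ R).card : ℝ≥0∞)) ^ (2 * k)
        ∂(A.μ l) ≤ ENNReal.ofReal C := by
    rw [Filter.eventually_all]
    intro c
    exact hC (q c) (hq c)
  have e2 : ∀ᶠ l in atTop, ∀ c : Fin k,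
      A.μ l {ω | ¬ TailOK R m (q c) (lab (fun q j => A.X l q j ω))} ≤
        ENNReal.ofReal (K2 / (m + 1)) := by
    rw [Filter.eventually_all]
    intro c
    exact hT m hm (q c) (hq c)
  filter_upwards [e1, e2] with l h1 h2
  set Φ : A.Ω l → ℝ := fun ω =>
    ∑ ι : Fin k → Fin (A.n l) with Adm q ι, ∏ c, f c (A.X l (q c) (ι c) ω) with hΦ
  set S : A.Ω l → ℝ := fun ω => markS m q f R (lab (fun q j => A.X l q j ω)) with hS
  have hΦi : Integrable Φ (A.μ l) := integrable_phi A l q f hf R B hfn hf0 hB hB0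
  have hSm : Measurable S := (continuous_markS m q hf R).measurable.comp (measurable_lb A l)
  have hSi : Integrable S (A.μ l) := by
    obtain ⟨D, hD⟩ := isCompact_univ.exists_bound_of_continuousOn
      (continuous_markS m q hf R).continuousOn
    exact Integrable.of_bound hSm.aestronglyMeasurable D
      (Filter.Eventually.of_forall fun ω => hD _ (mem_univ _))
  have hle : ∀ ω, S ω ≤ Φ ω := fun ω =>
    markS_lab_le (fun q j => A.X l q j ω) m q f R hR hfn hf0
  have hS0 : ∀ ω, 0 ≤ S ω := by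
    intro ω
    refine Finset.sum_nonneg fun ι _ => Finset.prod_nonneg fun c _ => hfn _ _
  rw [abs_sub_comm, ← integral_sub hΦi hSi, abs_of_nonneg (integral_nonneg fun ω =>
    sub_nonneg.2 (hle ω))]
  rw [integral_eq_lintegral_of_nonneg_ae (Filter.Eventually.of_forall fun ω =>
    sub_nonneg.2 (hle ω)) (hΦi.sub hSi).aestronglyMeasurable]
  apply ENNReal.toReal_le_of_le_ofReal (by positivity)
  -- pointwise bound
  set bad : Fin k → Set (A.Ω l) := fun c =>
    {ω | ¬ TailOK R m (q c) (lab (fun q j => A.X l q j ω))} with hbad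
  have hbadm : ∀ c, MeasurableSet (bad c) := by
    intro c
    have h := (isOpen_tailOK R m (q c)).measurableSet.compl
    exact measurable_lb A l h
  set N : Fin k → A.Ω l → ℕ := fun c ω =>
    (Finset.univ.filter fun i => |A.X l (q c) i ω| ≤ R).card with hN
  have hpt : ∀ ω, ENNReal.ofReal (Φ ω - S ω) ≤
      ENNReal.ofReal (δ * B ^ (2 * k)) * (1 + ∑ c, ((N c ω : ℝ≥0∞)) ^ (2 * k)) +
      ENNReal.ofReal (1 / δ) * ∑ c, (bad c).indicator 1 ω := by
    intro ω
    by_cases hω : ∀ c, TailOK R m (q c) (lab (fun q j => A.X l q j ω))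
    · have : S ω = Φ ω := markS_lab_eq (fun q j => A.X l q j ω) m q f R hR hf0 hω
      rw [this, sub_self, ENNReal.ofReal_zero]
      exact bot_le
    · push Not at hω
      obtain ⟨c0, hc0⟩ := hω
      have hb1 : (1 : ℝ≥0∞) ≤ ∑ c, (bad c).indicator 1 ω := by
        refine le_trans ?_ (Finset.single_le_sum (f := fun c => (bad c).indicator 1 ω)
          (fun c _ => bot_le) (Finset.mem_univ c0))
        rw [indicator_of_mem (show ω ∈ bad c0 from hc0)]
        simp
      have hsq := phi_sq_le q (fun q j => A.X l q j ω) f R B hfn hf0 hB hB0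
      have hlin : Φ ω ≤ δ * (Φ ω) ^ 2 + 1 / δ := by
        have h4 : 0 ≤ (δ * Φ ω - 1) ^ 2 := sq_nonneg _
        have h5 : 0 ≤ Φ ω := le_trans (hS0 ω) (hle ω)
        have h6 : δ * Φ ω ≤ δ * (δ * (Φ ω) ^ 2 + 1 / δ) := by
          have : δ * (δ * (Φ ω) ^ 2 + 1 / δ) = (δ * Φ ω) ^ 2 + 1 := by
            field_simp
          rw [this]
          nlinarith [mul_nonneg hδ.le h5]
        exact le_of_mul_le_mul_left h6 hδ
      have h7 : Φ ω - S ω ≤ (δ * B ^ (2 * k)) *
          (1 + ∑ c, ((N c ω : ℝ)) ^ (2 * k)) + 1 / δ := by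
        have h8 : δ * (Φ ω) ^ 2 ≤ (δ * B ^ (2 * k)) * (1 + ∑ c, ((N c ω : ℝ)) ^ (2 * k)) := by
          rw [mul_assoc]
          exact mul_le_mul_of_nonneg_left hsq hδ.le
        have := hS0 ω
        linarith
      refine le_trans (ENNReal.ofReal_le_ofReal h7) ?_
      refine le_trans ENNReal.ofReal_add_le ?_
      rw [ofReal_bd _ (by positivity) (fun c => N c ω)]
      have h10 : ENNReal.ofReal (1 / δ) ≤
          ENNReal.ofReal (1 / δ) * ∑ c, (bad c).indicator 1 ω := by
        calc ENNReal.ofReal (1 / δ) = ENNReal.ofReal (1 / δ) * 1 := (mul_one _).symm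
          _ ≤ _ := by gcongr
      exact add_le_add le_rfl h10
  refine le_trans (lintegral_mono hpt) ?_
  have hNm : ∀ c, Measurable fun ω => ((N c ω : ℝ≥0∞)) ^ (2 * k) := fun c =>
    (measurable_card A l (q c) R).pow_const _
  have hIm : ∀ c, Measurable fun ω => (bad c).indicator (1 : A.Ω l → ℝ≥0∞) ω := fun c =>
    measurable_one.indicator (hbadm c)
  have I1 : ∫⁻ ω, (1 + ∑ c, ((N c ω : ℝ≥0∞)) ^ (2 * k)) ∂(A.μ l) =
      1 + ∑ c, ∫⁻ ω, ((N c ω : ℝ≥0∞)) ^ (2 * k) ∂(A.μ l) := by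
    rw [lintegral_add_left measurable_const, lintegral_finsetSum _ fun c _ => hNm c,
      lintegral_one, measure_univ]
  have I2 : ∫⁻ ω, (∑ c, (bad c).indicator (1 : A.Ω l → ℝ≥0∞) ω) ∂(A.μ l) =
      ∑ c, A.μ l (bad c) := by
    rw [lintegral_finsetSum _ fun c _ => hIm c]
    exact Finset.sum_congr rfl fun c _ => lintegral_indicator_one (hbadm c)
  have I3 : ∫⁻ ω, (ENNReal.ofReal (δ * B ^ (2 * k)) * (1 + ∑ c, ((N c ω : ℝ≥0∞)) ^ (2 * k)) +
      ENNReal.ofReal (1 / δ) * ∑ c, (bad c).indicator (1 : A.Ω l → ℝ≥0∞) ω) ∂(A.μ l) =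
      ENNReal.ofReal (δ * B ^ (2 * k)) *
        (1 + ∑ c, ∫⁻ ω, ((N c ω : ℝ≥0∞)) ^ (2 * k) ∂(A.μ l)) +
      ENNReal.ofReal (1 / δ) * ∑ c, A.μ l (bad c) := by
    rw [lintegral_add_left, lintegral_const_mul, lintegral_const_mul, I1, I2]
    · exact Finset.measurable_sum _ fun c _ => hIm c
    · exact measurable_const.add (Finset.measurable_sum _ fun c _ => hNm c)
    · exact (measurable_const.add (Finset.measurable_sum _ fun c _ => hNm c)).const_mul _
  rw [I3]
  have i1 : ∑ c : Fin k, ∫⁻ ω, ((N c ω : ℝ≥0∞)) ^ (2 * k) ∂(A.μ l) ≤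
      ENNReal.ofReal (k * |C|) := by
    refine le_trans (Finset.sum_le_sum fun c _ =>
      le_trans (h1 c) (ENNReal.ofReal_le_ofReal (le_abs_self C))) ?_
    rw [Finset.sum_const, Finset.card_univ, Fintype.card_fin, nsmul_eq_mul,
      ENNReal.ofReal_mul (by positivity), ENNReal.ofReal_natCast]
  have i2 : ∑ c : Fin k, A.μ l (bad c) ≤ ENNReal.ofReal (k * (K2 / (m + 1))) := by
    refine le_trans (Finset.sum_le_sum fun c _ => h2 c) ?_
    rw [Finset.sum_const, Finset.card_univ, Fintype.card_fin, nsmul_eq_mul,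
      ENNReal.ofReal_mul (by positivity), ENNReal.ofReal_natCast]
  have j1 : (1 : ℝ≥0∞) + ENNReal.ofReal (k * |C|) = ENNReal.ofReal (1 + k * |C|) := by
    rw [ENNReal.ofReal_add (by positivity) (by positivity), ENNReal.ofReal_one]
  have i3 : ENNReal.ofReal (δ * B ^ (2 * k)) *
        (1 + ∑ c, ∫⁻ ω, ((N c ω : ℝ≥0∞)) ^ (2 * k) ∂(A.μ l)) ≤
      ENNReal.ofReal (δ * B ^ (2 * k) * (1 + k * |C|)) := by
    rw [ENNReal.ofReal_mul (p := δ * B ^ (2 * k)) (by positivity), ← j1]
    gcongr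
  have i4 : ENNReal.ofReal (1 / δ) * ∑ c, A.μ l (bad c) ≤
      ENNReal.ofReal (1 / δ * (k * (K2 / (m + 1)))) := by
    rw [ENNReal.ofReal_mul (p := 1 / δ) (by positivity)]
    gcongr
  refine le_trans (add_le_add i3 i4) ?_
  rw [← ENNReal.ofReal_add (by positivity) (by positivity)]
  apply ENNReal.ofReal_le_ofReal
  have k1 : 0 ≤ δ * (k * K2) := by positivity
  have k2 : 0 ≤ B ^ (2 * k) * (1 + k * |C|) / (δ * (m + 1)) := by positivity
  have k3 : 1 / δ * (k * (K2 / (m + 1))) = k * K2 / (δ * (m + 1)) := by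
    field_simp
  rw [k3]
  have k4 : (B ^ (2 * k) * (1 + k * |C|) + k * K2) / (δ * (m + 1)) =
      B ^ (2 * k) * (1 + k * |C|) / (δ * (m + 1)) + k * K2 / (δ * (m + 1)) := by
    rw [add_div]
  rw [k4]
  nlinarith

theorem lim_corr (A : Approx) (U : Ultrafilter ℕ) (hU : (U : Filter ℕ) ≤ atTop) (Q : Measure EE)
    (hlim : ∀ F : EE → ℝ, Continuous F →
      Tendsto (fun l => ∫ x, F x ∂(nu A l)) (U : Filter ℕ) (𝓝 (∫ x, F x ∂Q)))
    {k : ℕ} (f : Fin k → ℝ → ℝ) (R : ℝ) (hR : 0 < R) (hf : ∀ c, Continuous (f c))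
    (hfn : ∀ c z, 0 ≤ f c z) (hf0 : ∀ c z, R ≤ |z| → f c z = 0) (M ε : ℝ) (hε : 0 < ε) :
    ∃ m0 : ℕ, ∀ m ≥ m0, ∀ q : Fin k → ℚ, (∀ c, |(q c : ℝ)| ≤ M) →
      |(∫ x, markS m q f R x ∂Q) - ∫ y : Fin k → ℝ, (∏ c, f c (y c)) *
        Matrix.det (Matrix.of fun c d : Fin k => Kr (q c) (y c) (q d) (y d))| ≤ ε := by
  -- a common bound
  have hb : ∀ c : Fin k, ∃ D : ℝ, ∀ z, f c z ≤ D := by
    intro c
    obtain ⟨D, hD⟩ := (isCompact_Icc (a := -R) (b := R)).exists_bound_of_continuousOn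
      (hf c).continuousOn
    refine ⟨max D 0, fun z => ?_⟩
    by_cases hz : z ∈ Icc (-R) R
    · exact le_trans (le_abs_self _) (le_trans (hD z hz) (le_max_left _ _))
    · have : R ≤ |z| := by
        by_contra h
        push Not at h
        exact hz ⟨(abs_lt.1 h).1.le, (abs_lt.1 h).2.le⟩
      rw [hf0 c z this]
      exact le_max_right _ _
  choose D hD using hb
  set B : ℝ := ∑ c, |D c| with hB
  have hB0 : 0 ≤ B := Finset.sum_nonneg fun c _ => abs_nonneg _
  have hBf : ∀ c z, f c z ≤ B := fun c z =>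
    le_trans (hD c z) (le_trans (le_abs_self _)
      (Finset.single_le_sum (f := fun c => |D c|) (fun c _ => abs_nonneg _) (Finset.mem_univ c)))
  have hcs : ∀ c, HasCompactSupport (f c) := by
    intro c
    refine HasCompactSupport.of_support_subset_isCompact (isCompact_Icc (a := -R) (b := R)) ?_
    intro z hz
    by_contra h
    apply hz
    apply hf0
    by_contra h'
    push Not at h'
    exact h ⟨(abs_lt.1 h').1.le, (abs_lt.1 h').2.le⟩
  obtain ⟨K, hK, h⟩ := corr_prelim A f hf R M B hR hfn hf0 hBf hB0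
  set δ : ℝ := ε / (2 * (K + 1)) with hδ
  have hδ0 : 0 < δ := by positivity
  obtain ⟨m1, hm1⟩ := exists_nat_ge (2 * K / (δ * ε))
  refine ⟨max 1 m1, fun m hm q hq => ?_⟩
  have hm1' : 1 ≤ m := le_trans (le_max_left _ _) hm
  have hm2 : m1 ≤ m := le_trans (le_max_right _ _) hm
  have hev := h δ hδ0 m hm1' q hq
  have hbound : δ * K + K / (δ * (m + 1)) ≤ ε := by
    have h1 : δ * K ≤ ε / 2 := by
      rw [hδ, div_mul_eq_mul_div, div_le_div_iff₀ (by positivity) (by positivity)]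
      nlinarith
    have h2 : K / (δ * (m + 1)) ≤ ε / 2 := by
      have hm3 : 2 * K / (δ * ε) ≤ m := le_trans hm1 (by exact_mod_cast hm2)
      rw [div_le_iff₀ (by positivity)] at hm3
      rw [div_le_div_iff₀ (by positivity) (by positivity)]
      nlinarith [mul_pos hδ0 hε]
    linarith
  have t1 := hlim (markS m q f R) (continuous_markS m q hf R)
  have t2 := (A.corr k q f hf hcs).mono_left hU
  have t3 := (t1.sub t2).abs
  refine le_of_tendsto t3 ?_
  filter_upwards [hU hev] with l hl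
  have e1 : ∫ x, markS m q f R x ∂(nu A l) =
      ∫ ω, markS m q f R (lab (fun q j => A.X l q j ω)) ∂(A.μ l) := by
    unfold nu
    rw [integral_map (measurable_lb A l).aemeasurable
      (continuous_markS m q hf R).aestronglyMeasurable]
  rw [e1]
  exact le_trans hl hbound

end LimAux

open LimAux in
/-- P2: existence of the limit law -/
theorem limSpec_exists (A : Approx) : ∃ P : Measure EE, LimSpec P := by
  obtain ⟨U, Q, hU, hQ, hop, hlim⟩ := exists_weak (nu A) (fun l => inferInstance)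
  refine ⟨Q, ?_⟩
  constructor
  · exact hQ
  · exact lim_mono A U Q hop
  · exact lim_anch A U Q hop
  · exact fun R M ε hR hε => lim_tail A U hU Q hop R M ε hR hε
  · exact fun k f R hR hf hfn hf0 M ε hε =>
      lim_corr A U hU Q hlim f R hR hf hfn hf0 M ε hε
  · intro a b M hab
    obtain ⟨C, hC⟩ := A.inc a b M hab
    refine ⟨|C|, fun q q' hq hq' R ha hb m => ?_⟩
    have hR : 0 < R := by
      have h0 : 0 ≤ R := le_trans (abs_nonneg a) ha
      rcases h0.lt_or_eq with h | h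
      · exact h
      · exfalso
        rw [← h] at ha hb
        have h1 := abs_nonpos_iff.1 ha
        have h2 := abs_nonpos_iff.1 hb
        rw [h1, h2] at hab
        exact lt_irrefl _ hab
    refine lim_inc A U hU Q hlim a b R (|C| * ((q : ℝ) - q') ^ 2) hab hR ha hb (by positivity)
      q q' ?_ m
    filter_upwards [hC q q' hq hq'] with l hl
    refine le_trans hl (ENNReal.ofReal_le_ofReal ?_)
    exact mul_le_mul_of_nonneg_right (le_abs_self _) (sq_nonneg _)
  · intro M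
    obtain ⟨C, R0, hC⟩ := A.incR M
    refine ⟨|C|, max R0 1, fun R hR q q' hq hq' hqq m => ?_⟩
    have hR0 : R0 ≤ R := le_trans (le_max_left _ _) hR
    have hR1 : 1 ≤ R := le_trans (le_max_right _ _) hR
    have hpos : 0 ≤ |C| * R ^ (4 / 3 : ℝ) * ((q : ℝ) - q') ^ 2 := by positivity
    have hle : C * R ^ (4 / 3 : ℝ) * ((q : ℝ) - q') ^ 2 ≤
        |C| * R ^ (4 / 3 : ℝ) * ((q : ℝ) - q') ^ 2 := by
      refine mul_le_mul_of_nonneg_right ?_ (sq_nonneg _)
      exact mul_le_mul_of_nonneg_right (le_abs_self _) (by positivity)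
    have hev := hC R hR0 q q' hq hq' hqq
    constructor
    · refine lim_inc A U hU Q hlim R (2 * R) (2 * R) _ (by linarith) (by linarith) ?_ ?_ hpos
        q q' ?_ m
      · rw [abs_of_nonneg (by linarith)]; linarith
      · rw [abs_of_nonneg (by linarith)]
      · filter_upwards [hev] with l hl
        exact le_trans hl.1 (ENNReal.ofReal_le_ofReal hle)
    · refine lim_inc A U hU Q hlim (-(2 * R)) (-R) (2 * R) _ (by linarith) (by linarith) ?_ ?_ hpos
        q q' ?_ m
      · rw [abs_neg, abs_of_nonneg (by linarith)]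
      · rw [abs_neg, abs_of_nonneg (by linarith)]; linarith
      · filter_upwards [hev] with l hl
        exact le_trans hl.2 (ENNReal.ofReal_le_ofReal hle)

end Pool.Agent.H.MP_5ad92a_pr
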