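import Pool.Agent.H.MP_5ad92a_pr.Defs

/-!
# The contour integral kernel of the problem equals the real kernel `Kr`
-/

set_option autoImplicit false

noncomputable section

open MeasureTheory Filter Topology Set Function

namespace Pool.Agent.H.MP_5ad92a_pr

/-- the weight on the imaginary axis -/
def pkE (τ u : ℝ) : ℝ := Real.exp (-u ^ 4 / 4 - τ * u ^ 2 / 2)

theorem pkE_le (τ u : ℝ) : pkE τ u ≤ Real.exp ((1 - τ / 2) ^ 2) * Real.exp (-1 * u ^ 2) := by
  unfold pkE
  rw [← Real.exp_add]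
  apply Real.exp_le_exp.mpr
  nlinarith [sq_nonneg (u ^ 2 / 2 - (1 - τ / 2))]

theorem pkE_pos (τ u : ℝ) : 0 < pkE τ u := Real.exp_pos _

theorem pkE_continuous (τ : ℝ) : Continuous (pkE τ) := by
  unfold pkE; fun_prop

theorem pkE_neg (τ u : ℝ) : pkE τ (-u) = pkE τ u := by
  unfold pkE; congr 1; ring

theorem pkE_pow_integrable (τ : ℝ) (k : ℕ) : Integrable (fun u : ℝ => u ^ k * pkE τ u) := by
  have h := (integrable_rpow_mul_exp_neg_mul_sq (b := 1) one_pos (s := (k : ℝ))
    (by have : (0 : ℝ) ≤ k := Nat.cast_nonneg k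
        linarith)).norm.const_mul (Real.exp ((1 - τ / 2) ^ 2))
  refine h.mono' ((continuous_id.pow k).mul (pkE_continuous τ)).aestronglyMeasurable ?_
  refine Eventually.of_forall fun u => ?_
  simp only [Real.rpow_natCast]
  rw [norm_mul, norm_mul, Real.norm_of_nonneg (pkE_pos τ u).le,
    Real.norm_of_nonneg (Real.exp_pos (-1 * u ^ 2)).le]
  have := mul_le_mul_of_nonneg_left (pkE_le τ u) (norm_nonneg (u ^ k))
  calc ‖u ^ k‖ * pkE τ u ≤ _ := this
    _ = _ := by ring

theorem pkE_integrable (τ : ℝ) : Integrable (pkE τ) := by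
  simpa using pkE_pow_integrable τ 0

/-- first derivative -/
def pkE1 (τ u : ℝ) : ℝ := -(u ^ 3 + τ * u) * pkE τ u

/-- second derivative -/
def pkE2 (τ u : ℝ) : ℝ := ((u ^ 3 + τ * u) ^ 2 - (3 * u ^ 2 + τ)) * pkE τ u

theorem pkE_hasDerivAt (τ u : ℝ) : HasDerivAt (pkE τ) (pkE1 τ u) u := by
  unfold pkE1 pkE
  have h : HasDerivAt (fun u : ℝ => -u ^ 4 / 4 - τ * u ^ 2 / 2) (-(u ^ 3 + τ * u)) u := by
    have h1 := ((hasDerivAt_pow 4 u).neg.div_const 4).sub
      (((hasDerivAt_pow 2 u).const_mul τ).div_const 2)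
    refine h1.congr_deriv ?_
    push_cast; ring
  have := h.exp
  refine this.congr_deriv ?_
  ring

theorem pkE1_hasDerivAt (τ u : ℝ) : HasDerivAt (pkE1 τ) (pkE2 τ u) u := by
  unfold pkE1 pkE2
  have h : HasDerivAt (fun u : ℝ => -(u ^ 3 + τ * u)) (-(3 * u ^ 2 + τ)) u := by
    have h1 := ((hasDerivAt_pow 3 u).add ((hasDerivAt_id u).const_mul τ)).neg
    refine h1.congr_deriv ?_
    push_cast; ring
  have := h.mul (pkE_hasDerivAt τ u)
  refine this.congr_deriv ?_
  unfold pkE1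
  ring

theorem pkE1_integrable (τ : ℝ) : Integrable (pkE1 τ) := by
  have h := ((pkE_pow_integrable τ 3).neg).sub ((pkE_pow_integrable τ 1).const_mul τ)
  refine h.congr (Eventually.of_forall fun u => ?_)
  simp only [pkE1, Pi.sub_apply, Pi.neg_apply]
  ring

theorem pkE2_integrable (τ : ℝ) : Integrable (pkE2 τ) := by
  have h := ((pkE_pow_integrable τ 6).add ((pkE_pow_integrable τ 4).const_mul (2 * τ))).add
    (((pkE_pow_integrable τ 2).const_mul (τ ^ 2 - 3)).sub ((pkE_pow_integrable τ 0).const_mul τ))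
  refine h.congr (Eventually.of_forall fun u => ?_)
  simp only [pkE2, Pi.sub_apply, Pi.add_apply]
  ring

theorem pk_mul_bdd {f g : ℝ → ℝ} (hf : Integrable f) (hg : Continuous g) (C : ℝ)
    (hC : ∀ x, |g x| ≤ C) : Integrable (fun x => f x * g x) :=
  hf.mul_bdd hg.aestronglyMeasurable (Eventually.of_forall hC)

theorem pk_sq_mul (τ z : ℝ) :
    z ^ 2 * ∫ u : ℝ, pkE τ u * Real.cos (z * u) = -∫ u : ℝ, pkE2 τ u * Real.cos (z * u) := by
  have hcos : Continuous fun u : ℝ => Real.cos (z * u) := by fun_prop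
  have hsin : Continuous fun u : ℝ => Real.sin (z * u) := by fun_prop
  have bc : ∀ u : ℝ, |Real.cos (z * u)| ≤ 1 := fun u => Real.abs_cos_le_one _
  have bs : ∀ u : ℝ, |Real.sin (z * u)| ≤ 1 := fun u => Real.abs_sin_le_one _
  have ds : ∀ u : ℝ, HasDerivAt (fun u : ℝ => Real.sin (z * u)) (z * Real.cos (z * u)) u := by
    intro u
    have := (((hasDerivAt_id u).const_mul z).sin)
    refine this.congr_deriv ?_
    simp only [id]; ring
  have dc : ∀ u : ℝ, HasDerivAt (fun u : ℝ => -Real.cos (z * u)) (z * Real.sin (z * u)) u := by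
    intro u
    have := (((hasDerivAt_id u).const_mul z).cos).neg
    refine this.congr_deriv ?_
    simp only [id]; ring
  have e1 := integral_mul_deriv_eq_deriv_mul_of_integrable
    (u := pkE τ) (v := fun u : ℝ => Real.sin (z * u)) (u' := pkE1 τ)
    (v' := fun u => z * Real.cos (z * u))
    (fun x _ => pkE_hasDerivAt τ x) (fun x _ => ds x)
    (by
      have := (pk_mul_bdd (pkE_integrable τ) hcos 1 bc).const_mul z
      refine this.congr (Eventually.of_forall fun u => ?_)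
      simp only [Pi.mul_apply]; ring)
    (pk_mul_bdd (pkE1_integrable τ) hsin 1 bs) (pk_mul_bdd (pkE_integrable τ) hsin 1 bs)
  have e2 := integral_mul_deriv_eq_deriv_mul_of_integrable
    (u := pkE1 τ) (v := fun u : ℝ => -Real.cos (z * u)) (u' := pkE2 τ)
    (v' := fun u => z * Real.sin (z * u))
    (fun x _ => pkE1_hasDerivAt τ x) (fun x _ => dc x)
    (by
      have := (pk_mul_bdd (pkE1_integrable τ) hsin 1 bs).const_mul z
      refine this.congr (Eventually.of_forall fun u => ?_)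
      simp only [Pi.mul_apply]; ring)
    (pk_mul_bdd (pkE2_integrable τ) hcos.neg 1 (fun u => by simpa using bc u))
    (pk_mul_bdd (pkE1_integrable τ) hcos.neg 1 (fun u => by simpa using bc u))
  have e3 : ∫ u : ℝ, pkE τ u * (z * Real.cos (z * u)) =
      z * ∫ u : ℝ, pkE τ u * Real.cos (z * u) := by
    rw [← integral_const_mul]; congr 1; ext u; ring
  have e4 : ∫ u : ℝ, pkE1 τ u * (z * Real.sin (z * u)) =
      z * ∫ u : ℝ, pkE1 τ u * Real.sin (z * u) := by
    rw [← integral_const_mul]; congr 1; ext u; ring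
  have e5 : ∫ u : ℝ, pkE2 τ u * -Real.cos (z * u) = -∫ u : ℝ, pkE2 τ u * Real.cos (z * u) := by
    rw [← integral_neg]; congr 1; ext u; ring
  rw [e3] at e1
  rw [e4, e5] at e2
  have : z ^ 2 * ∫ u : ℝ, pkE τ u * Real.cos (z * u) =
      z * (z * ∫ u : ℝ, pkE τ u * Real.cos (z * u)) := by ring
  rw [this, e1]
  linarith

theorem Pl_eq (τ y : ℝ) : Pl τ y = (1 / (2 * Real.pi)) * ∫ u : ℝ, pkE τ u * Real.cos (y * u) := rfl

theorem pk_abs_int_le {f g : ℝ → ℝ} (hf : Integrable f) (hC : ∀ x, |g x| ≤ 1) :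
    |∫ x, f x * g x| ≤ ∫ x, |f x| := by
  refine (abs_integral_le_integral_abs).trans ?_
  refine integral_mono_of_nonneg (Eventually.of_forall fun x => abs_nonneg _) hf.abs
    (Eventually.of_forall fun x => ?_)
  simp only [abs_mul]
  exact mul_le_of_le_one_right (abs_nonneg _) (hC x)

theorem Pl_decay (τ : ℝ) : ∃ C : ℝ, 0 ≤ C ∧ ∀ y : ℝ, |Pl τ y| ≤ C * (1 + y ^ 2)⁻¹ := by
  refine ⟨(1 / (2 * Real.pi)) * ((∫ x, |pkE τ x|) + ∫ x, |pkE2 τ x|), by positivity, fun y => ?_⟩
  have h1 := pk_abs_int_le (g := fun u => Real.cos (y * u)) (pkE_integrable τ)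
    (fun u => Real.abs_cos_le_one _)
  have h2 := pk_abs_int_le (g := fun u => Real.cos (y * u)) (pkE2_integrable τ)
    (fun u => Real.abs_cos_le_one _)
  rw [← abs_neg, ← pk_sq_mul, abs_mul, abs_of_nonneg (sq_nonneg y)] at h2
  rw [Pl_eq, abs_mul, abs_of_nonneg (by positivity : (0 : ℝ) ≤ 1 / (2 * Real.pi))]
  have hpos : (0 : ℝ) < 1 + y ^ 2 := by positivity
  rw [← div_eq_mul_inv, le_div_iff₀ hpos, mul_assoc]
  refine mul_le_mul_of_nonneg_left ?_ (by positivity)
  nlinarith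

theorem Pl_cont_y (τ : ℝ) : Continuous (fun y => Pl τ y) := by
  simp only [Pl_eq]
  refine continuous_const.mul ?_
  refine continuous_of_dominated (bound := fun u => pkE τ u) ?_ ?_ (pkE_integrable τ) ?_
  · intro y
    exact ((pkE_continuous τ).mul (by fun_prop)).aestronglyMeasurable
  · intro y
    refine Eventually.of_forall fun u => ?_
    rw [norm_mul, Real.norm_of_nonneg (pkE_pos τ u).le]
    exact mul_le_of_le_one_right (pkE_pos τ u).le (Real.abs_cos_le_one _)
  · refine Eventually.of_forall fun u => ?_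
    exact continuous_const.mul (by fun_prop)

theorem Pl_integrable (τ : ℝ) : Integrable (fun y => Pl τ y) := by
  obtain ⟨C, hC, h⟩ := Pl_decay τ
  exact (integrable_inv_one_add_sq.const_mul C).mono' (Pl_cont_y τ).aestronglyMeasurable
    (Eventually.of_forall h)

theorem Pl_integrable_shift (τ y : ℝ) : Integrable (fun l => Pl τ (y - l)) := by
  exact (Pl_integrable τ).comp_sub_left y

/-- complex Fourier form of `Pl` -/
theorem Pl_fourier (τ z : ℝ) : ∫ u : ℝ, ((pkE τ u : ℝ) : ℂ) *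
    Complex.exp (-((z : ℂ) * ((u : ℂ) * Complex.I))) = 2 * Real.pi * (Pl τ z : ℂ) := by
  have hcos : Continuous fun u : ℝ => Real.cos (z * u) := by fun_prop
  have hsin : Continuous fun u : ℝ => Real.sin (z * u) := by fun_prop
  have hic := pk_mul_bdd (pkE_integrable τ) hcos 1 (fun u => Real.abs_cos_le_one _)
  have his := pk_mul_bdd (pkE_integrable τ) hsin 1 (fun u => Real.abs_sin_le_one _)
  have hodd : ∫ u : ℝ, pkE τ u * Real.sin (z * u) = 0 := by
    have h := integral_neg_eq_self (fun u : ℝ => pkE τ u * Real.sin (z * u)) volume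
    have h2 : ∫ u : ℝ, pkE τ (-u) * Real.sin (z * -u) =
        -∫ u : ℝ, pkE τ u * Real.sin (z * u) := by
      rw [← integral_neg]
      congr 1; ext u
      rw [pkE_neg, mul_neg, Real.sin_neg]; ring
    rw [h2] at h
    linarith
  have hpt : ∀ u : ℝ, ((pkE τ u : ℝ) : ℂ) * Complex.exp (-((z : ℂ) * ((u : ℂ) * Complex.I))) =
      ((pkE τ u * Real.cos (z * u) : ℝ) : ℂ) -
        ((pkE τ u * Real.sin (z * u) : ℝ) : ℂ) * Complex.I := by
    intro u
    have : -((z : ℂ) * ((u : ℂ) * Complex.I)) = ((-(z * u) : ℝ) : ℂ) * Complex.I := by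
      push_cast; ring
    rw [this, Complex.exp_mul_I, ← Complex.ofReal_cos, ← Complex.ofReal_sin, Real.cos_neg,
      Real.sin_neg]
    push_cast; ring
  simp_rw [hpt]
  rw [integral_sub hic.ofReal (his.ofReal.mul_const _), integral_mul_const, integral_complex_ofReal,
    integral_complex_ofReal, hodd, Pl_eq]
  have hpi : (Real.pi : ℂ) ≠ 0 := by exact_mod_cast Real.pi_ne_zero
  push_cast
  field_simp
  simp

/-- the Laplace transform of `Pl` -/
def pkG (τ y : ℝ) (t : ℂ) : ℂ :=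
  ∫ l in Ioi (0 : ℝ), Complex.exp (-((l : ℂ) * t)) * (Pl τ (y - l) : ℂ)

theorem pk_inner_pt (σ x τ y : ℝ) (t : ℂ) (u : ℝ) :
    Complex.exp (-((u : ℂ) * Complex.I) ^ 4 / 4 + (τ : ℂ) * ((u : ℂ) * Complex.I) ^ 2 / 2
      - (y : ℂ) * ((u : ℂ) * Complex.I) + t ^ 4 / 4 - (σ : ℂ) * t ^ 2 / 2 + (x : ℂ) * t)
    / ((u : ℂ) * Complex.I - t) * Complex.I =
    (Complex.I * qint σ x t) * (((pkE τ u : ℝ) : ℂ) *
      Complex.exp (-((y : ℂ) * ((u : ℂ) * Complex.I))) / ((u : ℂ) * Complex.I - t)) := by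
  unfold qint pkE
  rw [Complex.ofReal_exp]
  have h4 : ((u : ℂ) * Complex.I) ^ 4 = (u : ℂ) ^ 4 := by
    rw [mul_pow, Complex.I_pow_four, mul_one]
  have h2 : ((u : ℂ) * Complex.I) ^ 2 = -(u : ℂ) ^ 2 := by
    rw [mul_pow, Complex.I_sq]; ring
  rw [h4, h2]
  have : Complex.exp (-(u : ℂ) ^ 4 / 4 + (τ : ℂ) * -(u : ℂ) ^ 2 / 2
      - (y : ℂ) * ((u : ℂ) * Complex.I) + t ^ 4 / 4 - (σ : ℂ) * t ^ 2 / 2 + (x : ℂ) * t) =
      Complex.exp (t ^ 4 / 4 - (σ : ℂ) * t ^ 2 / 2 + (x : ℂ) * t) *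
      (Complex.exp ((-u ^ 4 / 4 - τ * u ^ 2 / 2 : ℝ) : ℂ) *
        Complex.exp (-((y : ℂ) * ((u : ℂ) * Complex.I)))) := by
    rw [← Complex.exp_add, ← Complex.exp_add]
    congr 1
    push_cast; ring
  rw [this]
  push_cast
  ring

theorem pk_inner (σ x τ y : ℝ) (t : ℂ) (ht : 0 < t.re) :
    pearceyInner σ x τ y t = -(2 * Real.pi * Complex.I) * qint σ x t * pkG τ y t := by
  unfold pearceyInner
  simp_rw [pk_inner_pt]
  rw [integral_const_mul]
  -- geometric integral
  have hgeo : ∀ u : ℝ, (((u : ℂ) * Complex.I - t))⁻¹ =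
      -∫ l in Ioi (0 : ℝ), Complex.exp (((u : ℂ) * Complex.I - t) * l) := by
    intro u
    have hre : ((u : ℂ) * Complex.I - t).re < 0 := by simp; linarith
    rw [integral_exp_mul_complex_Ioi hre 0]
    simp [div_eq_mul_inv]
  have hswap : ∫ u : ℝ, ∫ l in Ioi (0 : ℝ), ((pkE τ u : ℝ) : ℂ) *
      Complex.exp (-((y : ℂ) * ((u : ℂ) * Complex.I))) *
        Complex.exp (((u : ℂ) * Complex.I - t) * l) =
      ∫ l in Ioi (0 : ℝ), ∫ u : ℝ, ((pkE τ u : ℝ) : ℂ) *
      Complex.exp (-((y : ℂ) * ((u : ℂ) * Complex.I))) *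
        Complex.exp (((u : ℂ) * Complex.I - t) * l) := by
    refine integral_integral_swap ?_
    have hb : Integrable (fun p : ℝ × ℝ => pkE τ p.1 * Real.exp (-t.re * p.2))
        (volume.prod (volume.restrict (Ioi 0))) :=
      (pkE_integrable τ).mul_prod (integrableOn_exp_mul_Ioi (a := -t.re) (by linarith) 0)
    refine hb.mono' ?_ (Eventually.of_forall fun p => ?_)
    · refine Continuous.aestronglyMeasurable ?_
      have := pkE_continuous τ
      unfold Function.uncurry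
      fun_prop
    · simp only [Function.uncurry]
      rw [norm_mul, norm_mul, Complex.norm_real, Real.norm_of_nonneg (pkE_pos τ p.1).le,
        Complex.norm_exp, Complex.norm_exp]
      simp
  have hin : ∀ l : ℝ, ∫ u : ℝ, ((pkE τ u : ℝ) : ℂ) *
      Complex.exp (-((y : ℂ) * ((u : ℂ) * Complex.I))) *
        Complex.exp (((u : ℂ) * Complex.I - t) * l) =
      2 * Real.pi * (Complex.exp (-((l : ℂ) * t)) * (Pl τ (y - l) : ℂ)) := by
    intro l
    have : ∀ u : ℝ, ((pkE τ u : ℝ) : ℂ) *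
      Complex.exp (-((y : ℂ) * ((u : ℂ) * Complex.I))) *
        Complex.exp (((u : ℂ) * Complex.I - t) * l) =
        Complex.exp (-((l : ℂ) * t)) * (((pkE τ u : ℝ) : ℂ) *
          Complex.exp (-(((y - l : ℝ) : ℂ) * ((u : ℂ) * Complex.I)))) := by
      intro u
      have e : Complex.exp (-((y : ℂ) * ((u : ℂ) * Complex.I))) *
          Complex.exp (((u : ℂ) * Complex.I - t) * l) =
          Complex.exp (-((l : ℂ) * t)) *
            Complex.exp (-(((y - l : ℝ) : ℂ) * ((u : ℂ) * Complex.I))) := by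
        rw [← Complex.exp_add, ← Complex.exp_add]
        congr 1
        push_cast; ring
      rw [mul_assoc, e]; ring
    simp_rw [this]
    rw [integral_const_mul, Pl_fourier]
    ring
  have hmain : ∫ u : ℝ, ((pkE τ u : ℝ) : ℂ) *
      Complex.exp (-((y : ℂ) * ((u : ℂ) * Complex.I))) / ((u : ℂ) * Complex.I - t) =
      -(2 * Real.pi * pkG τ y t) := by
    have : ∀ u : ℝ, ((pkE τ u : ℝ) : ℂ) *
      Complex.exp (-((y : ℂ) * ((u : ℂ) * Complex.I))) / ((u : ℂ) * Complex.I - t) =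
      -∫ l in Ioi (0 : ℝ), ((pkE τ u : ℝ) : ℂ) *
        Complex.exp (-((y : ℂ) * ((u : ℂ) * Complex.I))) *
        Complex.exp (((u : ℂ) * Complex.I - t) * l) := by
      intro u
      rw [div_eq_mul_inv, hgeo, integral_const_mul]
      ring
    simp_rw [this]
    rw [integral_neg, hswap]
    simp_rw [hin]
    rw [integral_const_mul]
    rfl
  rw [hmain]
  ring

theorem qint_mul (σ x l : ℝ) (t : ℂ) :
    qint σ x t * Complex.exp (-((l : ℂ) * t)) = qint σ (x - l) t := by
  unfold qint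
  rw [← Complex.exp_add]
  congr 1
  push_cast; ring

theorem cis_quarter_re : (cis (Real.pi / 4)).re = Real.sqrt 2 / 2 := by
  unfold cis
  rw [Complex.exp_mul_I, ← Complex.ofReal_cos, ← Complex.ofReal_sin]
  simp

theorem cis_quarter : cis (Real.pi / 4) = ((Real.sqrt 2 / 2 : ℝ) : ℂ) * (1 + Complex.I) := by
  unfold cis
  rw [Complex.exp_mul_I, ← Complex.ofReal_cos, ← Complex.ofReal_sin, Real.cos_pi_div_four,
    Real.sin_pi_div_four]
  ring

theorem cis_quarter_sq : cis (Real.pi / 4) ^ 2 = Complex.I := by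
  unfold cis
  rw [← Complex.exp_nat_mul]
  have : ((2 : ℕ) : ℂ) * (((Real.pi / 4 : ℝ) : ℂ) * Complex.I) = (Real.pi / 2 : ℂ) * Complex.I := by
    push_cast; ring
  rw [this, Complex.exp_pi_div_two_mul_I]

theorem norm_qint (σ x r : ℝ) :
    ‖qint σ x ((r : ℂ) * cis (Real.pi / 4))‖ = Real.exp (-r ^ 4 / 4 + x * r * (Real.sqrt 2 / 2)) := by
  unfold qint
  rw [Complex.norm_exp]
  congr 1
  have h2 : ((r : ℂ) * cis (Real.pi / 4)) ^ 2 = ((r ^ 2 : ℝ) : ℂ) * Complex.I := by
    rw [mul_pow, cis_quarter_sq]; push_cast; ring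
  have h4 : ((r : ℂ) * cis (Real.pi / 4)) ^ 4 = ((-r ^ 4 : ℝ) : ℂ) := by
    have : ((r : ℂ) * cis (Real.pi / 4)) ^ 4 = (((r : ℂ) * cis (Real.pi / 4)) ^ 2) ^ 2 := by ring
    rw [this, h2, mul_pow, Complex.I_sq]; push_cast; ring
  rw [h4, h2, cis_quarter]
  have : ((-r ^ 4 : ℝ) : ℂ) / 4 - (σ : ℂ) * (((r ^ 2 : ℝ) : ℂ) * Complex.I) / 2 +
      (x : ℂ) * ((r : ℂ) * (((Real.sqrt 2 / 2 : ℝ) : ℂ) * (1 + Complex.I))) =
      ((-r ^ 4 / 4 + x * r * (Real.sqrt 2 / 2) : ℝ) : ℂ) +
        ((-(σ * r ^ 2 / 2) + x * r * (Real.sqrt 2 / 2) : ℝ) : ℂ) * Complex.I := by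
    push_cast; ring
  rw [this, Complex.add_re, Complex.ofReal_re, Complex.re_ofReal_mul, Complex.I_re]
  ring

theorem norm_qint_integrable (x : ℝ) :
    Integrable (fun r : ℝ => Real.exp (-r ^ 4 / 4 + x * r * (Real.sqrt 2 / 2)))
      (volume.restrict (Ioi 0)) := by
  refine Integrable.restrict ?_
  have h := (integrable_exp_neg_mul_sq (b := 1) one_pos).const_mul
    (Real.exp (4 + (x * (Real.sqrt 2 / 2)) ^ 2))
  refine h.mono' (by fun_prop) (Eventually.of_forall fun r => ?_)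
  rw [Real.norm_of_nonneg (Real.exp_pos _).le, ← Real.exp_add]
  apply Real.exp_le_exp.mpr
  nlinarith [sq_nonneg (r ^ 2 / 2 - 2), sq_nonneg (r - x * (Real.sqrt 2 / 2))]

theorem pk_conj_inner (σ x τ y : ℝ) (t : ℂ) :
    (starRingEnd ℂ) (pearceyInner σ x τ y t) = -pearceyInner σ x τ y ((starRingEnd ℂ) t) := by
  unfold pearceyInner
  simp_rw [pk_inner_pt]
  rw [← integral_conj, ← integral_neg, ← integral_neg_eq_self]
  congr 1
  ext u
  have hq : (starRingEnd ℂ) (qint σ x t) = qint σ x ((starRingEnd ℂ) t) := by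
    unfold qint
    rw [← Complex.exp_conj]
    congr 1
    simp [Complex.conj_ofNat]
  rw [map_mul, map_mul, map_div₀, map_mul, Complex.conj_I, hq, Complex.conj_ofReal, pkE_neg,
    ← Complex.exp_conj]
  have e1 : (starRingEnd ℂ) (-((y : ℂ) * (((-u : ℝ) : ℂ) * Complex.I))) =
      -((y : ℂ) * ((u : ℂ) * Complex.I)) := by
    simp
  have e2 : (starRingEnd ℂ) (((-u : ℝ) : ℂ) * Complex.I - t) =
      (u : ℂ) * Complex.I - (starRingEnd ℂ) t := by
    simp
  rw [e1, e2]
  ring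

theorem pk_neg_inner (σ x τ y : ℝ) (t : ℂ) :
    pearceyInner σ x τ y (-t) = -pearceyInner σ (-x) τ (-y) t := by
  unfold pearceyInner
  simp_rw [pk_inner_pt]
  rw [← integral_neg, ← integral_neg_eq_self]
  congr 1
  ext u
  have hq : qint σ x (-t) = qint σ (-x) t := by
    unfold qint
    congr 1
    push_cast; ring
  rw [hq, pkE_neg]
  have e1 : -((y : ℂ) * (((-u : ℝ) : ℂ) * Complex.I)) =
      -(((-y : ℝ) : ℂ) * ((u : ℂ) * Complex.I)) := by
    push_cast; ring
  have e2 : ((-u : ℝ) : ℂ) * Complex.I - -t = -((u : ℂ) * Complex.I - t) := by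
    push_cast; ring
  rw [e1, e2, div_neg]
  ring

theorem ray_neg (σ x τ y : ℝ) (d : ℂ) :
    ray (pearceyInner σ x τ y) (-d) = ray (pearceyInner σ (-x) τ (-y)) d := by
  unfold ray
  congr 1
  ext r
  have h : (r : ℂ) * -d = -((r : ℂ) * d) := by ring
  rw [h, pk_neg_inner]
  ring

theorem ray_conj (σ x τ y : ℝ) (d : ℂ) :
    ray (pearceyInner σ x τ y) ((starRingEnd ℂ) d) =
      -(starRingEnd ℂ) (ray (pearceyInner σ x τ y) d) := by
  unfold ray
  rw [← integral_conj, ← integral_neg]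
  congr 1
  ext r
  rw [map_mul, pk_conj_inner, map_mul, Complex.conj_ofReal]
  ring

theorem cis_neg (α : ℝ) : cis (-α) = (starRingEnd ℂ) (cis α) := by
  unfold cis
  rw [← Complex.exp_conj]
  congr 1
  simp

theorem norm_cis (α : ℝ) : ‖cis α‖ = 1 := by
  unfold cis
  exact Complex.norm_exp_ofReal_mul_I α

theorem ray_inner (σ x τ y : ℝ) :
    (ray (pearceyInner σ x τ y) (cis (Real.pi / 4))).re = 2 * Real.pi ^ 2 * Al σ x τ y := by
  set d := cis (Real.pi / 4) with hd
  have hre : ∀ r : ℝ, 0 < r → 0 < ((r : ℂ) * d).re := by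
    intro r hr
    rw [Complex.re_ofReal_mul, hd, cis_quarter_re]
    positivity
  have h1 : ray (pearceyInner σ x τ y) d = -(2 * Real.pi * Complex.I) *
      ∫ r in Ioi (0 : ℝ), ∫ l in Ioi (0 : ℝ), qint σ (x - l) ((r : ℂ) * d) * d *
        (Pl τ (y - l) : ℂ) := by
    unfold ray
    rw [← integral_const_mul]
    refine setIntegral_congr_fun measurableSet_Ioi fun r hr => ?_
    rw [pk_inner _ _ _ _ _ (hre r hr)]
    unfold pkG
    have : ∀ l : ℝ, qint σ (x - l) ((r : ℂ) * d) * d * (Pl τ (y - l) : ℂ) =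
        (qint σ x ((r : ℂ) * d) * d) *
          (Complex.exp (-((l : ℂ) * ((r : ℂ) * d))) * (Pl τ (y - l) : ℂ)) := by
      intro l
      rw [← qint_mul]; ring
    simp_rw [this]
    rw [integral_const_mul]
    ring
  have hint : Integrable (uncurry fun (r l : ℝ) => qint σ (x - l) ((r : ℂ) * d) * d *
      (Pl τ (y - l) : ℂ)) ((volume.restrict (Ioi 0)).prod (volume.restrict (Ioi 0))) := by
    have hb := (norm_qint_integrable x).mul_prod ((Pl_integrable_shift τ y).norm.restrict (s := Ioi 0))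
    refine hb.mono' ?_ ?_
    · refine Continuous.aestronglyMeasurable ?_
      have := Pl_cont_y τ
      unfold Function.uncurry qint
      fun_prop
    · rw [Measure.prod_restrict]
      refine (ae_restrict_iff' (measurableSet_Ioi.prod measurableSet_Ioi)).mpr
        (Eventually.of_forall fun p hp => ?_)
      obtain ⟨hr, hl⟩ := hp
      simp only [uncurry, mem_Ioi] at *
      rw [norm_mul, norm_mul, hd, norm_cis, norm_qint, mul_one, Complex.norm_real]
      refine mul_le_mul_of_nonneg_right ?_ (norm_nonneg _)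
      apply Real.exp_le_exp.mpr
      have : 0 ≤ p.2 * p.1 * (Real.sqrt 2 / 2) := by positivity
      nlinarith
  have h2 := integral_integral_swap hint
  rw [h1, h2]
  have h3 : ∀ l : ℝ, ∫ r in Ioi (0 : ℝ), qint σ (x - l) ((r : ℂ) * d) * d * (Pl τ (y - l) : ℂ) =
      ray (qint σ (x - l)) d * (Pl τ (y - l) : ℂ) := by
    intro l
    rw [integral_mul_const]; rfl
  simp_rw [h3]
  have hi2 : Integrable (fun l => ray (qint σ (x - l)) d * (Pl τ (y - l) : ℂ))
      (volume.restrict (Ioi 0)) := by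
    have := hint.integral_prod_right
    refine this.congr (Eventually.of_forall fun l => ?_)
    exact h3 l
  have h4 : (∫ l in Ioi (0 : ℝ), ray (qint σ (x - l)) d * (Pl τ (y - l) : ℂ)).im =
      Real.pi * Al σ x τ y := by
    have h5 := integral_im hi2
    have h6 : (∫ l in Ioi (0 : ℝ), ray (qint σ (x - l)) d * (Pl τ (y - l) : ℂ)).im =
        ∫ l in Ioi (0 : ℝ), (ray (qint σ (x - l)) d * (Pl τ (y - l) : ℂ)).im := h5.symm
    rw [h6]
    unfold Al
    rw [← integral_const_mul]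
    congr 1
    ext l
    rw [Complex.im_mul_ofReal]
    unfold Ql
    have hpi := Real.pi_ne_zero
    rw [← hd]
    field_simp
  have h7 : ∀ z : ℂ, (-(2 * Real.pi * Complex.I) * z).re = 2 * Real.pi * z.im := by
    intro z
    simp
  rw [h7, h4]
  ring

theorem pk_pair (σ x τ y : ℝ) :
    -(1 / (4 * (Real.pi : ℂ) ^ 2)) *
      (-(ray (pearceyInner σ x τ y) (cis (Real.pi / 4)))
        + ray (pearceyInner σ x τ y) (cis (-(Real.pi / 4)))) = ((Al σ x τ y : ℝ) : ℂ) := by
  rw [cis_neg, ray_conj]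
  set z := ray (pearceyInner σ x τ y) (cis (Real.pi / 4)) with hz
  have h1 : -z + -(starRingEnd ℂ) z = ((-(2 * z.re) : ℝ) : ℂ) := by
    have := Complex.add_conj z
    calc -z + -(starRingEnd ℂ) z = -(z + (starRingEnd ℂ) z) := by ring
      _ = _ := by rw [this]; push_cast; ring
  rw [h1, hz, ray_inner]
  have hpi : (Real.pi : ℂ) ≠ 0 := by exact_mod_cast Real.pi_ne_zero
  push_cast
  field_simp
  ring

/-- the contour integral kernel of the problem is the real kernel `Kr` -/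
theorem pearceyK_eq (σ x τ y : ℝ) : pearceyK σ x τ y = ((Kr σ x τ y : ℝ) : ℂ) := by
  unfold pearceyK Kr Kl
  rw [ray_neg, ray_neg, Complex.ofReal_sub, Complex.ofReal_add, ← pk_pair σ x τ y,
    ← pk_pair σ (-x) τ (-y)]
  congr 1
  · ring
  · unfold gk
    split_ifs
    · rw [one_div]
    · rfl

end Pool.Agent.H.MP_5ad92a_pr
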