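import Pool.Agent.H.MP_5ad92a_pr.DefsP

/-!
# Pearcey line ensemble: correlation functions at real times
-/

set_option autoImplicit false

noncomputable section

open MeasureTheory Filter Topology Set
open scoped ENNReal

namespace Pool.Agent.H.MP_5ad92a_pr

attribute [local irreducible] Kl Kr

namespace RealTimesAux

/-! ### dyadic approximation -/

/-- dyadic approximation of a real time -/
def dy (j : ℕ) (t : ℝ) : ℚ := (⌊2 ^ j * t⌋ : ℚ) / 2 ^ j

theorem isDy_dy (j : ℕ) (t : ℝ) : IsDy (dy j t) := ⟨j, ⌊2 ^ j * t⌋, rfl⟩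

theorem dy_cast (j : ℕ) (t : ℝ) : ((dy j t : ℚ) : ℝ) = (⌊2 ^ j * t⌋ : ℝ) / 2 ^ j := by
  unfold dy; push_cast; rfl

theorem dy_le (j : ℕ) (t : ℝ) : ((dy j t : ℚ) : ℝ) ≤ t := by
  rw [dy_cast, div_le_iff₀ (by positivity), mul_comm t]
  exact Int.floor_le _

theorem lt_dy (j : ℕ) (t : ℝ) : t - 1 / 2 ^ j < ((dy j t : ℚ) : ℝ) := by
  rw [dy_cast, lt_div_iff₀ (by positivity)]
  have h := Int.lt_floor_add_one ((2 : ℝ) ^ j * t)
  have h2 : (1 : ℝ) / 2 ^ j * 2 ^ j = 1 := by field_simp
  nlinarith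

theorem dy_mono (j : ℕ) {s t : ℝ} (h : s ≤ t) : dy j s ≤ dy j t := by
  unfold dy
  have : ⌊(2 : ℝ) ^ j * s⌋ ≤ ⌊(2 : ℝ) ^ j * t⌋ :=
    Int.floor_le_floor (mul_le_mul_of_nonneg_left h (by positivity))
  gcongr

theorem dy_tendsto (t : ℝ) : Tendsto (fun j => ((dy j t : ℚ) : ℝ)) atTop (𝓝 t) := by
  have h1 : Tendsto (fun j : ℕ => t - 1 / (2 : ℝ) ^ j) atTop (𝓝 (t - 0)) := by
    refine tendsto_const_nhds.sub ?_
    have := tendsto_pow_atTop_nhds_zero_of_lt_one (r := (1 / 2 : ℝ)) (by norm_num) (by norm_num)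
    refine this.congr fun j => ?_
    rw [one_div_pow]
  rw [sub_zero] at h1
  exact tendsto_of_tendsto_of_tendsto_of_le_of_le h1 tendsto_const_nhds
    (fun j => (lt_dy j t).le) (fun j => dy_le j t)

theorem dy_abs (j : ℕ) (t : ℝ) : |((dy j t : ℚ) : ℝ)| ≤ |t| + 1 := by
  have h1 := dy_le j t
  have h2 := lt_dy j t
  have h3 : (1 : ℝ) / 2 ^ j ≤ 1 := by
    rw [div_le_one (by positivity)]
    exact one_le_pow₀ (by norm_num)
  rw [abs_le]
  constructor
  · linarith [neg_abs_le t]
  · linarith [le_abs_self t]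

theorem dy_lt_eventually {s t : ℝ} (h : s < t) : ∀ᶠ j in atTop, dy j s < dy j t := by
  have := (dy_tendsto s).eventually_lt (dy_tendsto t) h
  filter_upwards [this] with j hj
  exact_mod_cast hj

theorem dy_eq_iff_eventually (s t : ℝ) : ∀ᶠ j in atTop, (dy j s = dy j t ↔ s = t) := by
  rcases lt_trichotomy s t with h | h | h
  · filter_upwards [dy_lt_eventually h] with j hj
    exact ⟨fun e => absurd e hj.ne, fun e => absurd e h.ne⟩
  · subst h; simp
  · filter_upwards [dy_lt_eventually h] with j hj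
    exact ⟨fun e => absurd e.symm hj.ne, fun e => absurd e.symm h.ne⟩

theorem adm_eventually {k : ℕ} (t : Fin k → ℝ) :
    ∀ᶠ j in atTop, ∀ ι : Fin k → ℤ, Adm (fun c => dy j (t c)) ι ↔ Adm t ι := by
  have h : ∀ᶠ j in atTop, ∀ c d : Fin k, (dy j (t c) = dy j (t d) ↔ t c = t d) := by
    rw [eventually_all]
    intro c
    rw [eventually_all]
    intro d
    exact dy_eq_iff_eventually _ _
  filter_upwards [h] with j hj ι
  unfold Adm
  refine forall_congr' fun a => forall_congr' fun b => forall_congr' fun _ => ?_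
  rw [hj a b]

/-! ### kernel convergence -/

theorem gk_cont {h : ℝ} (x y : ℝ) (hh : 0 < h) : ContinuousAt (fun h => gk h x y) h := by
  unfold gk
  have h1 : Real.sqrt (2 * Real.pi * h) ≠ 0 := by positivity
  have h2 : 2 * h ≠ 0 := by positivity
  refine ContinuousAt.mul ?_ ?_
  · refine ContinuousAt.inv₀ ?_ h1
    fun_prop
  · refine Real.continuous_exp.continuousAt.comp ?_
    refine ContinuousAt.div ?_ ?_ h2 <;> fun_prop

theorem gk_space_cont (h : ℝ) : Continuous (fun p : ℝ × ℝ => gk h p.1 p.2) := by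
  unfold gk
  fun_prop

theorem gk_abs_le {h h0 : ℝ} (x y : ℝ) (hh0 : 0 < h0) (hh : h0 ≤ h) :
    |gk h x y| ≤ (Real.sqrt (2 * Real.pi * h0))⁻¹ := by
  have hpos : 0 < h := hh0.trans_le hh
  unfold gk
  rw [abs_mul, abs_of_pos (Real.exp_pos _), abs_of_nonneg (by positivity)]
  have h1 : Real.exp (-(x - y) ^ 2 / (2 * h)) ≤ 1 := by
    rw [Real.exp_le_one_iff]
    apply div_nonpos_of_nonpos_of_nonneg
    · nlinarith [sq_nonneg (x - y)]
    · positivity
  have h2 : (Real.sqrt (2 * Real.pi * h))⁻¹ ≤ (Real.sqrt (2 * Real.pi * h0))⁻¹ := by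
    apply inv_anti₀ (by positivity)
    apply Real.sqrt_le_sqrt
    have := Real.pi_pos
    nlinarith
  calc _ ≤ (Real.sqrt (2 * Real.pi * h0))⁻¹ * 1 := by
        apply mul_le_mul h2 h1 (Real.exp_pos _).le (by positivity)
    _ = _ := mul_one _

section
variable (hcont : Continuous (fun p : (ℝ × ℝ) × (ℝ × ℝ) => Kl p.1.1 p.1.2 p.2.1 p.2.2))
include hcont

theorem Kr_tendsto (s t x y : ℝ) :
    Tendsto (fun j => Kr (dy j s) x (dy j t) y) atTop (𝓝 (Kr s x t y)) := by
  unfold Kr
  refine Tendsto.sub ?_ ?_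
  · have h1 : Tendsto (fun j => ((((dy j s : ℚ) : ℝ), x), (((dy j t : ℚ) : ℝ), y))) atTop
        (𝓝 ((s, x), (t, y))) :=
      ((dy_tendsto s).prodMk_nhds tendsto_const_nhds).prodMk_nhds
        ((dy_tendsto t).prodMk_nhds tendsto_const_nhds)
    exact (hcont.tendsto ((s, x), (t, y))).comp h1
  · rcases lt_or_ge s t with h | h
    · rw [if_pos h]
      have h2 : Tendsto (fun j => gk ((dy j t : ℚ) - (dy j s : ℚ)) x y) atTop
          (𝓝 (gk (t - s) x y)) := by
        have := (gk_cont x y (sub_pos.mpr h)).tendsto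
        exact this.comp ((dy_tendsto t).sub (dy_tendsto s))
      refine h2.congr' ?_
      filter_upwards [dy_lt_eventually h] with j hj
      rw [if_pos (by exact_mod_cast hj)]
    · rw [if_neg (not_lt.mpr h)]
      refine tendsto_const_nhds.congr' ?_
      filter_upwards with j
      rw [if_neg (not_lt.mpr (by exact_mod_cast dy_mono j h))]

theorem Kr_space_cont (s t : ℝ) : Continuous (fun p : ℝ × ℝ => Kr s p.1 t p.2) := by
  unfold Kr
  have a : Continuous fun p : ℝ × ℝ => ((s, p.1), (t, p.2)) := by fun_prop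
  refine (hcont.comp a).sub ?_
  split_ifs
  · exact gk_space_cont _
  · exact continuous_const

theorem Kr_bound (s t R : ℝ) : ∃ C : ℝ, ∀ᶠ j in atTop, ∀ x y : ℝ, |x| ≤ R → |y| ≤ R →
    |Kr (dy j s) x (dy j t) y| ≤ C := by
  set K : Set ((ℝ × ℝ) × (ℝ × ℝ)) :=
    (Icc (-(|s| + 1)) (|s| + 1) ×ˢ Icc (-R) R) ×ˢ (Icc (-(|t| + 1)) (|t| + 1) ×ˢ Icc (-R) R) with hK
  have hKc : IsCompact K :=
    (isCompact_Icc.prod isCompact_Icc).prod (isCompact_Icc.prod isCompact_Icc)
  obtain ⟨C, hC⟩ := hKc.exists_bound_of_continuousOn hcont.continuousOn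
  have hKl : ∀ j x y, |x| ≤ R → |y| ≤ R → |Kl (dy j s) x (dy j t) y| ≤ C := fun j x y hx hy =>
    hC (((dy j s : ℝ), x), ((dy j t : ℝ), y))
      ⟨⟨abs_le.mp (dy_abs j s), abs_le.mp hx⟩, ⟨abs_le.mp (dy_abs j t), abs_le.mp hy⟩⟩
  rcases lt_or_ge s t with h | h
  · refine ⟨C + (Real.sqrt (2 * Real.pi * ((t - s) / 2)))⁻¹, ?_⟩
    have h2 : ∀ᶠ j in atTop, (t - s) / 2 < ((dy j t : ℚ) : ℝ) - (dy j s : ℚ) :=
      ((dy_tendsto t).sub (dy_tendsto s)).eventually_const_lt (by linarith)
    filter_upwards [h2] with j hj x y hx hy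
    unfold Kr
    refine (abs_sub _ _).trans (add_le_add (hKl j x y hx hy) ?_)
    split_ifs
    · exact gk_abs_le x y (by linarith) hj.le
    · rw [abs_zero]; positivity
  · refine ⟨C, ?_⟩
    filter_upwards with j x y hx hy
    unfold Kr
    rw [if_neg (not_lt.mpr (by exact_mod_cast dy_mono j h)), sub_zero]
    exact hKl j x y hx hy

theorem det_cont {k : ℕ} (t : Fin k → ℝ) : Continuous fun y : Fin k → ℝ =>
    Matrix.det (Matrix.of fun c d : Fin k => Kr (t c) (y c) (t d) (y d)) := by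
  refine Continuous.matrix_det ?_
  refine continuous_matrix fun c d => ?_
  have a : Continuous fun y : Fin k → ℝ => (y c, y d) := by fun_prop
  exact (Kr_space_cont hcont (t c) (t d)).comp a

theorem det_tendsto {k : ℕ} (t : Fin k → ℝ) (y : Fin k → ℝ) :
    Tendsto (fun j => Matrix.det (Matrix.of fun c d : Fin k =>
      Kr (dy j (t c)) (y c) (dy j (t d)) (y d))) atTop
      (𝓝 (Matrix.det (Matrix.of fun c d : Fin k => Kr (t c) (y c) (t d) (y d)))) := by
  simp only [Matrix.det_apply]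
  refine tendsto_finsetSum _ fun σ _ => ?_
  refine Tendsto.const_smul ?_ _
  refine tendsto_finsetProd _ fun c _ => ?_
  exact Kr_tendsto hcont _ _ _ _

theorem det_bound {k : ℕ} (t : Fin k → ℝ) (R : ℝ) :
    ∃ C : ℝ, ∀ᶠ j in atTop, ∀ y : Fin k → ℝ, (∀ c, |y c| ≤ R) →
      |Matrix.det (Matrix.of fun c d : Fin k => Kr (dy j (t c)) (y c) (dy j (t d)) (y d))| ≤ C := by
  choose C hC using fun c d : Fin k => Kr_bound hcont (t c) (t d) R
  set B : ℝ := ∑ c, ∑ d, |C c d| with hB
  have hCB : ∀ c d, C c d ≤ B := fun c d => by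
    refine (le_abs_self _).trans ?_
    refine (Finset.single_le_sum (f := fun d => |C c d|) (fun d _ => abs_nonneg _)
      (Finset.mem_univ d)).trans ?_
    exact Finset.single_le_sum (f := fun c => ∑ d, |C c d|)
      (fun c _ => Finset.sum_nonneg fun d _ => abs_nonneg _) (Finset.mem_univ c)
  have hC' : ∀ᶠ j in atTop, ∀ c d : Fin k, ∀ x y : ℝ, |x| ≤ R → |y| ≤ R →
      |Kr (dy j (t c)) x (dy j (t d)) y| ≤ C c d := by
    rw [eventually_all]
    intro c
    rw [eventually_all]
    intro d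
    exact hC c d
  refine ⟨(Fintype.card (Fin k)).factorial • B ^ Fintype.card (Fin k), ?_⟩
  filter_upwards [hC'] with j hj y hy
  exact Matrix.det_le (abv := AbsoluteValue.abs) (x := B)
    (fun c d => (hj c d (y c) (y d) (hy c) (hy d)).trans (hCB c d))

end

/-! ### the extension to `EReal` -/

theorem measurable_extE {f : ℝ → ℝ} (hf : Continuous f) (R : ℝ) : Measurable (extE f R) := by
  unfold extE clampE
  exact hf.measurable.comp (measurable_ereal_toReal.comp
    (measurable_const.max (measurable_id.min measurable_const)))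

theorem clampE_coe (R z : ℝ) : clampE R (z : EReal) = max (-R) (min z R) := by
  unfold clampE
  rw [← EReal.coe_strictMono.monotone.map_min, ← EReal.coe_strictMono.monotone.map_max,
    EReal.toReal_coe]

theorem extE_coe' {f : ℝ → ℝ} {R : ℝ} (hR : 0 < R) (hf : ∀ z, R ≤ |z| → f z = 0) (z : ℝ) :
    extE f R (z : EReal) = f z := by
  unfold extE
  rw [clampE_coe]
  rcases le_total z R with h | h
  · rw [min_eq_left h]
    rcases le_total (-R) z with h' | h'
    · rw [max_eq_right h']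
    · rw [max_eq_left h', hf (-R) (by rw [abs_neg]; exact le_abs_self R),
        hf z (by rw [abs_of_nonpos (by linarith)]; linarith)]
  · rw [min_eq_right h, max_eq_right (by linarith), hf R (le_abs_self R),
      hf z (h.trans (le_abs_self z))]

end RealTimesAux

open RealTimesAux

theorem real_corr {P : Measure EE} (hP : LimSpec P) (hcont : Continuous (fun p : (ℝ × ℝ) × (ℝ × ℝ) => Kl p.1.1 p.1.2 p.2.1 p.2.2))
    (L : ℤ → ℝ → EE → ℝ) (hLc : ∀ i x, Continuous fun t => L i t x) (hLm : ∀ i t, Measurable (L i t))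
    (hL : ∀ᵐ x ∂P, ∀ (i : ℤ) (q : ℚ), IsDy q → x i q = ((L i q x : ℝ) : EReal))
    (k : ℕ) (t : Fin k → ℝ) (f : Fin k → ℝ → ℝ) (hf : ∀ c, Continuous (f c)) (hf0 : ∀ c z, 0 ≤ f c z)
    (hfc : ∀ c, HasCompactSupport (f c)) :
    0 ≤ ∫ y : Fin k → ℝ, (∏ c, f c (y c)) *
        Matrix.det (Matrix.of fun c d : Fin k => Kr (t c) (y c) (t d) (y d)) ∧
    ∫⁻ x, ∑' ι : {ι : Fin k → ℤ // Adm t ι}, ENNReal.ofReal (∏ c, f c (L (ι.1 c) (t c) x)) ∂P =
      ENNReal.ofReal (∫ y : Fin k → ℝ, (∏ c, f c (y c)) *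
        Matrix.det (Matrix.of fun c d : Fin k => Kr (t c) (y c) (t d) (y d))) := by
  have := hP.prob
  -- a common support radius
  have hRex : ∀ c, ∃ R : ℝ, 0 < R ∧ ∀ z, R ≤ |z| → f c z = 0 := fun c => by
    obtain ⟨R, hR⟩ := (hfc c).isCompact.isBounded.subset_closedBall (0 : ℝ)
    refine ⟨|R| + 1, by positivity, fun z hz => ?_⟩
    by_contra hne
    have hz' : z ∈ tsupport (f c) := subset_tsupport _ hne
    have := hR hz'
    rw [mem_closedBall_zero_iff, Real.norm_eq_abs] at this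
    linarith [le_abs_self R]
  choose Rc hRc0 hRc using hRex
  set R : ℝ := 1 + ∑ c, Rc c with hRdef
  have hRpos : 0 < R := by
    have : 0 ≤ ∑ c, Rc c := Finset.sum_nonneg fun c _ => (hRc0 c).le
    linarith
  have hR : ∀ c z, R ≤ |z| → f c z = 0 := fun c z hz => by
    refine hRc c z (le_trans ?_ hz)
    have : Rc c ≤ ∑ c, Rc c := Finset.single_le_sum (f := Rc) (fun c _ => (hRc0 c).le)
      (Finset.mem_univ c)
    linarith
  -- bound for the f
  have hBex : ∀ c, ∃ B : ℝ, ∀ z, |f c z| ≤ B := fun c => by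
    obtain ⟨B, hB⟩ := (hf c).bounded_above_of_compact_support (hfc c)
    exact ⟨B, hB⟩
  choose B hB using hBex
  set Q : ℕ → Fin k → ℚ := fun j c => dy j (t c) with hQ
  set M : ℝ := 1 + ∑ c, |t c| with hM
  have hQM : ∀ j c, |((Q j c : ℚ) : ℝ)| ≤ M := fun j c => by
    refine (dy_abs j (t c)).trans ?_
    have : |t c| ≤ ∑ c, |t c| := Finset.single_le_sum (f := fun c => |t c|)
      (fun c _ => abs_nonneg _) (Finset.mem_univ c)
    linarith
  set I : ℝ := ∫ y : Fin k → ℝ, (∏ c, f c (y c)) *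
        Matrix.det (Matrix.of fun c d : Fin k => Kr (t c) (y c) (t d) (y d)) with hI
  -- (1) kernel side
  have hfint : Integrable fun y : Fin k → ℝ => ∏ c, f c (y c) :=
    Integrable.fintype_prod fun c => (hf c).integrable_of_hasCompactSupport (hfc c)
  have hfprodc : Continuous fun y : Fin k → ℝ => ∏ c, f c (y c) :=
    continuous_finsetProd _ fun c _ => (hf c).comp (continuous_apply c)
  have hker : Tendsto (fun j => ∫ y : Fin k → ℝ, (∏ c, f c (y c)) *
        Matrix.det (Matrix.of fun c d : Fin k => Kr (Q j c) (y c) (Q j d) (y d))) atTop (𝓝 I) := by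
    obtain ⟨C, hC⟩ := det_bound hcont t R
    refine tendsto_integral_filter_of_dominated_convergence
      (fun y => |C| * |∏ c, f c (y c)|) ?_ ?_ ?_ ?_
    · exact Eventually.of_forall fun j =>
        (hfprodc.mul (det_cont hcont fun c => (Q j c : ℝ))).aestronglyMeasurable
    · filter_upwards [hC] with j hj
      refine ae_of_all _ fun y => ?_
      rw [Real.norm_eq_abs, abs_mul, mul_comm]
      by_cases hy : ∀ c, |y c| ≤ R
      · exact mul_le_mul_of_nonneg_right ((hj y hy).trans (le_abs_self _)) (abs_nonneg _)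
      · push Not at hy
        obtain ⟨c, hc⟩ := hy
        have : ∏ c, f c (y c) = 0 := Finset.prod_eq_zero (Finset.mem_univ c) (hR c _ hc.le)
        rw [this]; simp
    · exact (hfint.abs).const_mul _
    · refine ae_of_all _ fun y => ?_
      exact (det_tendsto hcont t y).const_mul _
  -- (2) truncated sums
  set J : ℕ → Finset (Fin k → ℤ) := fun m =>
    (Fintype.piFinset fun _ : Fin k => Finset.Icc (-(m : ℤ)) m).filter (fun ι => Adm t ι) with hJ
  set S : ℕ → EE → ℝ := fun m x => ∑ ι ∈ J m, ∏ c, f c (L (ι c) (t c) x) with hS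
  have hS0 : ∀ m x, 0 ≤ S m x := fun m x =>
    Finset.sum_nonneg fun ι _ => Finset.prod_nonneg fun c _ => hf0 c _
  have hSm : ∀ m, Measurable (S m) := fun m =>
    Finset.measurable_sum _ fun ι _ => Finset.measurable_prod _ fun c _ =>
      (hf c).measurable.comp (hLm _ _)
  have hprodB : ∀ z : Fin k → ℝ, |∏ c, f c (z c)| ≤ ∏ c, B c := fun z => by
    rw [Finset.abs_prod]
    exact Finset.prod_le_prod (fun c _ => abs_nonneg _) fun c _ => hB c _
  have hprodB0 : 0 ≤ ∏ c, B c := (abs_nonneg _).trans (hprodB 0)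
  have hSint : ∀ m, Integrable (S m) P := fun m => by
    refine Integrable.of_bound (C := ∑ _ι ∈ J m, ∏ c, B c) (hSm m).aestronglyMeasurable ?_
    refine ae_of_all _ fun x => ?_
    rw [Real.norm_eq_abs]
    refine (Finset.abs_sum_le_sum_abs _ _).trans (Finset.sum_le_sum fun ι _ => ?_)
    exact hprodB fun c => L (ι c) (t c) x
  have hmark : ∀ m, Tendsto (fun j => ∫ x, markS m (Q j) f R x ∂P) atTop
      (𝓝 (∫ x, S m x ∂P)) := fun m => by
    refine tendsto_integral_of_dominated_convergence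
      (fun _ => ∑ _ι ∈ (Fintype.piFinset fun _ : Fin k => Finset.Icc (-(m : ℤ)) m), ∏ c, B c)
      ?_ (integrable_const _) ?_ ?_
    · intro j
      have : Measurable (markS m (Q j) f R) := by
        unfold markS
        refine Finset.measurable_sum _ fun ι _ => Finset.measurable_prod _ fun c _ => ?_
        exact (measurable_extE (hf c) R).comp
          ((measurable_pi_apply (Q j c)).comp (measurable_pi_apply (ι c)))
      exact this.aestronglyMeasurable
    · intro j
      refine ae_of_all _ fun x => ?_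
      rw [Real.norm_eq_abs]
      unfold markS
      refine (Finset.abs_sum_le_sum_abs _ _).trans ?_
      refine (Finset.sum_le_sum (g := fun _ => ∏ c, B c) fun ι _ => ?_).trans ?_
      · exact hprodB fun c => clampE R (x (ι c) (Q j c))
      · exact Finset.sum_le_sum_of_subset_of_nonneg (Finset.filter_subset _ _)
          fun _ _ _ => hprodB0
    · filter_upwards [hL] with x hx
      have e1 : ∀ᶠ j in atTop, ∑ ι ∈ J m, ∏ c, f c (L (ι c) (Q j c) x) = markS m (Q j) f R x := by
        filter_upwards [adm_eventually t] with j hj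
        unfold markS
        have : J m = (Fintype.piFinset fun _ : Fin k => Finset.Icc (-(m : ℤ)) m).filter
            (fun ι => Adm (Q j) ι) := by
          rw [hJ]
          refine Finset.filter_congr fun ι _ => ?_
          exact (hj ι).symm
        rw [this]
        refine Finset.sum_congr rfl fun ι _ => Finset.prod_congr rfl fun c _ => ?_
        rw [hx (ι c) (Q j c) (isDy_dy j (t c)), extE_coe' hRpos (hR c)]
      refine Tendsto.congr' e1 ?_
      refine tendsto_finsetSum _ fun ι _ => tendsto_finsetProd _ fun c _ => ?_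
      exact ((hf c).tendsto _).comp (((hLc (ι c) x).tendsto (t c)).comp (dy_tendsto (t c)))
  -- (3) E S_m → I
  have hlim : Tendsto (fun m => ∫ x, S m x ∂P) atTop (𝓝 I) := by
    rw [Metric.tendsto_atTop]
    intro ε hε
    obtain ⟨m0, hm0⟩ := hP.corr k f R hRpos hf hf0 hR M (ε / 2) (half_pos hε)
    refine ⟨m0, fun m hm => ?_⟩
    have h1 : ∀ j, |(∫ x, markS m (Q j) f R x ∂P) - ∫ y : Fin k → ℝ, (∏ c, f c (y c)) *
        Matrix.det (Matrix.of fun c d : Fin k => Kr (Q j c) (y c) (Q j d) (y d))| ≤ ε / 2 :=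
      fun j => hm0 m hm (Q j) (hQM j)
    have h2 := le_of_tendsto ((hmark m).sub hker).abs (Eventually.of_forall h1)
    rw [Real.dist_eq]
    linarith
  have hI0 : 0 ≤ I := ge_of_tendsto' hlim fun m => integral_nonneg fun x => hS0 m x
  refine ⟨hI0, ?_⟩
  -- monotone convergence
  have hJmono : Monotone J := fun m m' hmm => by
    refine Finset.filter_subset_filter _ ?_
    refine Fintype.piFinset_subset _ _ fun _ => ?_
    exact Finset.Icc_subset_Icc (by omega) (by omega)
  have hts : ∀ x : EE, ∑' ι : {ι : Fin k → ℤ // Adm t ι},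
      ENNReal.ofReal (∏ c, f c (L (ι.1 c) (t c) x)) = ⨆ m, ENNReal.ofReal (S m x) := fun x => by
    have e1 : ∑' ι : {ι : Fin k → ℤ // Adm t ι}, ENNReal.ofReal (∏ c, f c (L (ι.1 c) (t c) x)) =
        ∑' ι : Fin k → ℤ, Set.indicator {ι | Adm t ι}
          (fun ι => ENNReal.ofReal (∏ c, f c (L (ι c) (t c) x))) ι :=
      tsum_subtype {ι : Fin k → ℤ | Adm t ι}
        (fun ι => ENNReal.ofReal (∏ c, f c (L (ι c) (t c) x)))
    rw [e1, ENNReal.tsum_eq_iSup_sum' (fun m : ℕ =>
      (Fintype.piFinset fun _ : Fin k => Finset.Icc (-(m : ℤ)) m))]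
    · refine iSup_congr fun m => ?_
      rw [hS, hJ]
      simp only
      rw [ENNReal.ofReal_sum_of_nonneg fun ι _ => Finset.prod_nonneg fun c _ => hf0 c _,
        Finset.sum_filter]
      refine Finset.sum_congr rfl fun ι _ => ?_
      by_cases h : Adm t ι
      · rw [Set.indicator_of_mem (by exact h), if_pos h]
      · rw [Set.indicator_of_notMem (by exact h), if_neg h]
    · intro s
      refine ⟨∑ ι ∈ s, ∑ c, (ι c).natAbs, fun ι hι => ?_⟩
      rw [Fintype.mem_piFinset]
      intro c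
      have h1 : (ι c).natAbs ≤ ∑ ι ∈ s, ∑ c, (ι c).natAbs := by
        refine (Finset.single_le_sum (f := fun c => (ι c).natAbs) (fun c _ => Nat.zero_le _)
          (Finset.mem_univ c)).trans ?_
        exact Finset.single_le_sum (f := fun ι : Fin k → ℤ => ∑ c, (ι c).natAbs)
          (fun ι _ => Nat.zero_le _) hι
      rw [Finset.mem_Icc]
      omega
  simp_rw [hts]
  rw [lintegral_iSup (fun m => (hSm m).ennreal_ofReal)]
  · refine iSup_eq_of_tendsto ?_ ?_
    · intro m m' hmm
      refine lintegral_mono fun x => ENNReal.ofReal_le_ofReal ?_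
      exact Finset.sum_le_sum_of_subset_of_nonneg (hJmono hmm)
        fun ι _ _ => Finset.prod_nonneg fun c _ => hf0 c _
    · have : (fun m => ∫⁻ x, ENNReal.ofReal (S m x) ∂P) =
          fun m => ENNReal.ofReal (∫ x, S m x ∂P) := by
        ext m
        rw [ofReal_integral_eq_lintegral_ofReal (hSint m) (ae_of_all _ fun x => hS0 m x)]
      rw [this]
      exact ENNReal.tendsto_ofReal hlim
  · intro m m' hmm x
    refine ENNReal.ofReal_le_ofReal ?_
    exact Finset.sum_le_sum_of_subset_of_nonneg (hJmono hmm)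
      fun ι _ _ => Finset.prod_nonneg fun c _ => hf0 c _

end Pool.Agent.H.MP_5ad92a_pr
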