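import Pool.Agent.H.MP_5ad92a_pr.ApproxInst
import Pool.Agent.H.MP_5ad92a_pr.LimitLaw
import Pool.Agent.H.MP_5ad92a_pr.Many
import Pool.Agent.H.MP_5ad92a_pr.FinSup
import Pool.Agent.H.MP_5ad92a_pr.IncF
import Pool.Agent.H.MP_5ad92a_pr.Chaining
import Pool.Agent.H.MP_5ad92a_pr.Regular
import Pool.Agent.H.MP_5ad92a_pr.RealTimes
import Pool.Agent.H.MP_5ad92a_pr.CorrMeasure
import Pool.Agent.H.MP_5ad92a_pr.ProblemKernel
import Pool.Agent.H.MP_5ad92a_pr.KnLimit
import Pool.Agent.H.MP_5ad92a_pr.Refined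
import Pool.Agent.H.MP_5ad92a_pr.KernelInt

/-!
# Pearcey line ensemble: final assembly
-/

set_option autoImplicit false
noncomputable section
open MeasureTheory Filter Topology Set
open scoped ENNReal
namespace Pool.Agent.H.MP_5ad92a_pr

theorem ae_Y {P : Measure EE} (hP : LimSpec P) :
    ∀ᵐ x ∂P, ∀ (a b : ℚ) (M : ℕ), a < b → ∀ R : ℚ, |a| ≤ R → |b| ≤ R → ∀ ε > (0 : ℝ),
      ∃ δ > (0 : ℝ), ∀ q q' : ℚ, IsDy q → IsDy q' → |(q : ℝ)| ≤ M → |(q' : ℝ)| ≤ M →
        |(q : ℝ) - q'| < δ → |incF (stp a b) R q q' x| ≤ ε := by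
  have := hP.prob
  rw [ae_all_iff]; intro a
  rw [ae_all_iff]; intro b
  rw [ae_all_iff]; intro M
  by_cases hab : a < b
  swap
  · exact Eventually.of_forall fun x h => absurd h hab
  have key : ∀ᵐ x ∂P, ∀ R : ℚ, |a| ≤ R → |b| ≤ R → ∀ ε > (0 : ℝ),
      ∃ δ > (0 : ℝ), ∀ q q' : ℚ, IsDy q → IsDy q' → |(q : ℝ)| ≤ M → |(q' : ℝ)| ≤ M →
        |(q : ℝ) - q'| < δ → |incF (stp a b) R q q' x| ≤ ε := by
    rw [ae_all_iff]; intro R
    by_cases haR : |a| ≤ R
    swap
    · exact Eventually.of_forall fun x h => absurd h haR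
    by_cases hbR : |b| ≤ R
    swap
    · exact Eventually.of_forall fun x _ h => absurd h hbR
    have haR' : |(a : ℝ)| ≤ (R : ℝ) := by exact_mod_cast haR
    have hbR' : |(b : ℝ)| ≤ (R : ℝ) := by exact_mod_cast hbR
    have habR : (a : ℝ) < (b : ℝ) := by exact_mod_cast hab
    have hR : (0 : ℝ) < R := by
      rcases (abs_nonneg (a : ℝ)).eq_or_lt with h0 | h0
      · rcases (abs_nonneg (b : ℝ)).eq_or_lt with h1 | h1
        · have h2 : (a : ℝ) = 0 := abs_eq_zero.1 h0.symm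
          have h3 : (b : ℝ) = 0 := abs_eq_zero.1 h1.symm
          rw [h2, h3] at habR
          exact absurd habR (lt_irrefl _)
        · exact lt_of_lt_of_le h1 hbR'
      · exact lt_of_lt_of_le h0 haR'
    have hcont : Continuous (stp (a : ℝ) (b : ℝ)) := by
      unfold stp
      fun_prop
    obtain ⟨C, hC⟩ := incF_moment hP (a : ℝ) (b : ℝ) M habR
    have hsub := incF_sub hP (stp (a : ℝ) (b : ℝ)) (R : ℝ) hR
    have hch := chaining_cont P (fun q x => incF (stp (a : ℝ) (b : ℝ)) (R : ℝ) q 0 x)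
      (fun q => incF_aemeasurable hP _ hcont _ hR q 0) M C (by
        intro q q' hq hq'
        refine le_trans (le_of_eq ?_) (hC q q' hq hq' R haR' hbR')
        refine lintegral_congr_ae ?_
        filter_upwards [hsub] with x hx
        rw [hx q q'])
    filter_upwards [hsub, hch] with x hx hx2 _ _ ε hε
    obtain ⟨δ, hδ, h⟩ := hx2 ε hε
    refine ⟨δ, hδ, fun q q' hq hq' h1 h2 h3 => ?_⟩
    rw [← hx q q']
    exact h q q' hq hq' h1 h2 h3
  filter_upwards [key] with x hx _ using hx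

theorem ae_Reg {P : Measure EE} (hP : LimSpec P) : ∀ᵐ x ∂P, Reg x := by
  have hmany := many hP Kl_mean (fun ε hε => Kl_var ε hε) Kl_continuous Kl_symm
  filter_upwards [hP.mono, fin_sup hP hmany, ae_tailOK hP, ae_Y hP] with x h1 h2 h3 h4
  exact ⟨h1, h2, label_cont h1 h3 h2 h4⟩

theorem Kdet_continuous {k : ℕ} (t : Fin k → ℝ) :
    Continuous (fun y : Fin k → ℝ => Matrix.det (Matrix.of fun c d : Fin k =>
      Kr (t c) (y c) (t d) (y d))) := by
  refine Continuous.matrix_det ?_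
  refine continuous_matrix fun i j => ?_
  have h1 : Continuous (fun y : Fin k → ℝ => ((y i, y j) : ℝ × ℝ)) :=
    (continuous_apply i).prodMk (continuous_apply j)
  have h2 := (Kr_continuous_space (t i) (t j)).comp h1
  simpa only [Matrix.of_apply, Function.comp_def] using h2

theorem final : ∃ (P : Measure EE) (_ : IsProbabilityMeasure P) (L : ℤ → ℝ → EE → ℝ),
    IsPearceyLineEnsemble P L ∧ (∀ i t x, L i t x ≤ L (i + 1) t x) ∧
    (∀ (k : ℕ) (t y : Fin k → ℝ), 0 ≤ Matrix.det (Matrix.of fun c d : Fin k =>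
      Kr (t c) (y c) (t d) (y d))) ∧
    (∀ (k : ℕ) (t : Fin k → ℝ) (F : (Fin k → ℝ) → ℝ≥0∞), Measurable F →
      ∫⁻ ω, ∑' ι : {ι : Fin k → ℤ // Adm t ι}, F (fun c => L (ι.1 c) (t c) ω) ∂P =
        ∫⁻ y, F y * ENNReal.ofReal (Matrix.det (Matrix.of fun c d : Fin k =>
          Kr (t c) (y c) (t d) (y d)))) := by
  obtain ⟨A⟩ := approx_exists
  obtain ⟨P, hP⟩ := limSpec_exists A
  have := hP.prob
  obtain ⟨L, hL1, hL2, hL3, hL4⟩ := lines_exist (ae_Reg hP)
  have hc : ∀ (k : ℕ) (t : Fin k → ℝ), (∀ y : Fin k → ℝ, 0 ≤ Matrix.det (Matrix.of fun c d : Fin k =>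
      Kr (t c) (y c) (t d) (y d))) ∧ ∀ F : (Fin k → ℝ) → ℝ≥0∞, Measurable F →
      ∫⁻ ω, ∑' ι : {ι : Fin k → ℤ // Adm t ι}, F (fun c => L (ι.1 c) (t c) ω) ∂P =
        ∫⁻ y, F y * ENNReal.ofReal (Matrix.det (Matrix.of fun c d : Fin k =>
          Kr (t c) (y c) (t d) (y d))) := by
    intro k t
    refine corr_of_products P L hL2 k t _ (Kdet_continuous t) ?_
    intro f h1 h2 h3
    exact real_corr hP Kl_continuous L hL1 hL2 hL4 k t f h1 h2 h3
  exact ⟨P, inferInstance, L, ensemble_of_corr P L hL1 hL2 pearceyK_eq (fun k t F hF => (hc k t).2 F hF),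
    hL3, fun k t y => (hc k t).1 y, fun k t F hF => (hc k t).2 F hF⟩

/-- almost surely no two curves meet at a fixed time -/
theorem ae_ne {Ω : Type*} [MeasurableSpace Ω] (P : Measure Ω)
    (L : ℤ → ℝ → Ω → ℝ) (hLm : ∀ i t, Measurable (L i t)) (t : ℝ) (D : (Fin 2 → ℝ) → ℝ)
    (h : ∀ (F : (Fin 2 → ℝ) → ℝ≥0∞), Measurable F →
      ∫⁻ ω, ∑' ι : {ι : Fin 2 → ℤ // Adm (fun _ : Fin 2 => t) ι}, F (fun c => L (ι.1 c) t ω) ∂P =
        ∫⁻ y, F y * ENNReal.ofReal (D y)) :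
    ∀ᵐ ω ∂P, ∀ i j : ℤ, i ≠ j → L i t ω ≠ L j t ω := by
  have hS : MeasurableSet {y : Fin 2 → ℝ | y 0 = y 1} :=
    measurableSet_eq_fun (measurable_pi_apply 0) (measurable_pi_apply 1)
  have h0 := h (Set.indicator {y : Fin 2 → ℝ | y 0 = y 1} 1) (measurable_one.indicator hS)
  have hnull : (volume : Measure (Fin 2 → ℝ)) {y | y 0 = y 1} = 0 := by
    have hmp := (MeasureTheory.volume_preserving_finTwoArrow ℝ)
    have : {y : Fin 2 → ℝ | y 0 = y 1} = (MeasurableEquiv.finTwoArrow (α := ℝ)) ⁻¹' {p | p.1 = p.2} := by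
      ext y; simp
    rw [this, hmp.measure_preimage (measurableSet_eq_fun measurable_fst measurable_snd).nullMeasurableSet]
    rw [Measure.volume_eq_prod, Measure.measure_prod_null (measurableSet_eq_fun measurable_fst measurable_snd)]
    refine Eventually.of_forall fun x => ?_
    have h3 : Prod.mk x ⁻¹' {p : ℝ × ℝ | p.1 = p.2} = {x} := by
      ext y; simp [eq_comm]
    show volume (Prod.mk x ⁻¹' {p : ℝ × ℝ | p.1 = p.2}) = 0
    rw [h3]; simp
  have hR : ∫⁻ y, Set.indicator {y : Fin 2 → ℝ | y 0 = y 1} (1 : (Fin 2 → ℝ) → ℝ≥0∞) y * ENNReal.ofReal (D y) = 0 := by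
    have : ∀ᵐ y : Fin 2 → ℝ, Set.indicator {y : Fin 2 → ℝ | y 0 = y 1} (1 : (Fin 2 → ℝ) → ℝ≥0∞) y * ENNReal.ofReal (D y) = 0 := by
      have h1 : ∀ᵐ y : Fin 2 → ℝ, ¬ (y 0 = y 1) := by
        rw [ae_iff]; simpa using hnull
      filter_upwards [h1] with y hy
      rw [Set.indicator_of_notMem (by simpa using hy)]; simp
    rw [lintegral_congr_ae this]; simp
  rw [hR] at h0
  have hmeas : Measurable (fun ω => ∑' ι : {ι : Fin 2 → ℤ // Adm (fun _ : Fin 2 => t) ι},
      Set.indicator {y : Fin 2 → ℝ | y 0 = y 1} (1 : (Fin 2 → ℝ) → ℝ≥0∞) (fun c => L (ι.1 c) t ω)) := by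
    refine Measurable.tsum fun ι => ?_
    exact (measurable_one.indicator hS).comp (measurable_pi_lambda _ fun c => hLm _ _)
  rw [lintegral_eq_zero_iff hmeas] at h0
  filter_upwards [h0] with ω hω i j hij heq
  have hz := ENNReal.tsum_eq_zero.1 hω ⟨![i, j], by
    intro a b hab _
    fin_cases a <;> fin_cases b
    · exact absurd rfl hab
    · simpa using hij
    · simpa using hij.symm
    · exact absurd rfl hab⟩
  rw [Set.indicator_of_mem (by simpa using heq)] at hz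
  simp at hz

/-- almost surely the configuration at a fixed time is locally finite -/
theorem ae_fin {Ω : Type*} [MeasurableSpace Ω] (P : Measure Ω)
    (L : ℤ → ℝ → Ω → ℝ) (hLm : ∀ i t, Measurable (L i t)) (t : ℝ) (D : (Fin 1 → ℝ) → ℝ)
    (hD : Continuous D)
    (h : ∀ (F : (Fin 1 → ℝ) → ℝ≥0∞), Measurable F →
      ∫⁻ ω, ∑' ι : {ι : Fin 1 → ℤ // Adm (fun _ : Fin 1 => t) ι}, F (fun c => L (ι.1 c) t ω) ∂P =
        ∫⁻ y, F y * ENNReal.ofReal (D y)) :
    ∀ᵐ ω ∂P, ∀ R : ℝ, {i : ℤ | |L i t ω| ≤ R}.Finite := by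
  have key : ∀ n : ℕ, ∀ᵐ ω ∂P, {i : ℤ | |L i t ω| ≤ n}.Finite := by
    intro n
    have hS : MeasurableSet {y : Fin 1 → ℝ | |y 0| ≤ n} :=
      measurableSet_le (measurable_pi_apply 0).abs measurable_const
    have h0 := h (Set.indicator {y : Fin 1 → ℝ | |y 0| ≤ n} 1) (measurable_one.indicator hS)
    have hsub : {y : Fin 1 → ℝ | |y 0| ≤ n} ⊆ Metric.closedBall 0 n := by
      intro y hy
      rw [mem_closedBall_zero_iff, pi_norm_le_iff_of_nonneg (Nat.cast_nonneg n)]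
      intro i
      have : i = 0 := Subsingleton.elim _ _
      rw [this]
      exact hy
    obtain ⟨C, hC⟩ := (isCompact_closedBall (0 : Fin 1 → ℝ) n).exists_bound_of_continuousOn hD.continuousOn
    have hlt : ∫⁻ y, Set.indicator {y : Fin 1 → ℝ | |y 0| ≤ n} (1 : (Fin 1 → ℝ) → ℝ≥0∞) y *
        ENNReal.ofReal (D y) < ⊤ := by
      calc _ ≤ ∫⁻ y, Set.indicator (Metric.closedBall (0 : Fin 1 → ℝ) n) (fun _ => ENNReal.ofReal C) y := by
            refine lintegral_mono fun y => ?_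
            by_cases hy : y ∈ {y : Fin 1 → ℝ | |y 0| ≤ n}
            · rw [Set.indicator_of_mem hy, Set.indicator_of_mem (hsub hy)]
              simp only [Pi.one_apply, one_mul]
              exact ENNReal.ofReal_le_ofReal (le_trans (le_abs_self _) (hC y (hsub hy)))
            · rw [Set.indicator_of_notMem hy]; simp
        _ = ENNReal.ofReal C * volume (Metric.closedBall (0 : Fin 1 → ℝ) n) := by
            rw [lintegral_indicator_const Metric.isClosed_closedBall.measurableSet]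
        _ < ⊤ := ENNReal.mul_lt_top ENNReal.ofReal_lt_top (isCompact_closedBall _ _).measure_lt_top
    rw [← h0] at hlt
    have hmeas : Measurable (fun ω => ∑' ι : {ι : Fin 1 → ℤ // Adm (fun _ : Fin 1 => t) ι},
        Set.indicator {y : Fin 1 → ℝ | |y 0| ≤ n} (1 : (Fin 1 → ℝ) → ℝ≥0∞) (fun c => L (ι.1 c) t ω)) := by
      refine Measurable.tsum fun ι => ?_
      exact (measurable_one.indicator hS).comp (measurable_pi_lambda _ fun c => hLm _ _)
    filter_upwards [ae_lt_top hmeas hlt.ne] with ω hω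
    by_contra hinf
    have hinf' : {i : ℤ | |L i t ω| ≤ n}.Infinite := hinf
    let g : {i : ℤ // |L i t ω| ≤ n} → {ι : Fin 1 → ℤ // Adm (fun _ : Fin 1 => t) ι} :=
      fun i => ⟨fun _ => i.1, fun a b hab => absurd (Subsingleton.elim a b) hab⟩
    have hg : Function.Injective g := by
      intro i j hij
      have := congrArg (fun z => z.1 0) hij
      exact Subtype.ext this
    have : Infinite {i : ℤ // |L i t ω| ≤ n} := hinf'.to_subtype
    have h1 : (⊤ : ℝ≥0∞) ≤ ∑' ι : {ι : Fin 1 → ℤ // Adm (fun _ : Fin 1 => t) ι},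
        Set.indicator {y : Fin 1 → ℝ | |y 0| ≤ n} (1 : (Fin 1 → ℝ) → ℝ≥0∞) (fun c => L (ι.1 c) t ω) := by
      calc (⊤ : ℝ≥0∞) = ∑' i : {i : ℤ // |L i t ω| ≤ n}, (1 : ℝ≥0∞) :=
            (ENNReal.tsum_const_eq_top_of_ne_zero one_ne_zero).symm
        _ = ∑' i : {i : ℤ // |L i t ω| ≤ n}, Set.indicator {y : Fin 1 → ℝ | |y 0| ≤ n}
              (1 : (Fin 1 → ℝ) → ℝ≥0∞) (fun c => L ((g i).1 c) t ω) := by
            refine tsum_congr fun i => ?_
            rw [Set.indicator_of_mem]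
            · rfl
            · exact i.2
        _ ≤ _ := ENNReal.tsum_comp_le_tsum_of_injective hg _
    exact absurd hω (not_lt.2 h1)
  have key2 : ∀ᵐ ω ∂P, ∀ n : ℕ, {i : ℤ | |L i t ω| ≤ n}.Finite := ae_all_iff.2 key
  filter_upwards [key2] with ω hω R
  obtain ⟨n, hn⟩ := exists_nat_ge R
  exact (hω n).subset fun i hi => le_trans hi hn

end Pool.Agent.H.MP_5ad92a_pr
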